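import Pool.Agent.Gen.TY.X.F0
import Pool.Agent.Gen.TY.X.F1
import Pool.Agent.Gen.TY.X.F2
import Pool.Agent.Gen.TY.X.F3
import Pool.Agent.Gen.TY.X.F4
import Pool.Agent.Gen.TY.X.F5
import Pool.Agent.Gen.TY.X.F6
import Pool.Agent.Gen.TY.X.F7
import Pool.Agent.Gen.TY.X.F8
import Pool.Agent.Gen.TY.X.F9
import Pool.Agent.Gen.TY.X.F10
import Pool.Agent.Gen.TY.X.F11

/-! MP_8ee768_co, project TH-Y': stage X, all flags (generated). -/

set_option autoImplicit false

namespace Pool.Agent.Gen.TY.X

open Pool.Agent.Helper74.TY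

/-- **all classes** -/
theorem flags : ClsR treeA treeB 0 24746 := by
  have h0 := F0.all
  have h1 := clsR_trans h0 F1.all
  have h2 := clsR_trans h1 F2.all
  have h3 := clsR_trans h2 F3.all
  have h4 := clsR_trans h3 F4.all
  have h5 := clsR_trans h4 F5.all
  have h6 := clsR_trans h5 F6.all
  have h7 := clsR_trans h6 F7.all
  have h8 := clsR_trans h7 F8.all
  have h9 := clsR_trans h8 F9.all
  have h10 := clsR_trans h9 F10.all
  have h11 := clsR_trans h10 F11.all
  exact h11

end Pool.Agent.Gen.TY.X
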