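import Pool.Agent.Helper22.TY.XAsm
import Pool.Agent.Gen.TY.X.B0
import Pool.Agent.Gen.TY.X.B1
import Pool.Agent.Gen.TY.X.B2
import Pool.Agent.Gen.TY.X.B3
import Pool.Agent.Gen.TY.X.B4
import Pool.Agent.Gen.TY.X.B5
import Pool.Agent.Gen.TY.X.B6

/-!
MP_8ee768_co, project TH-Y': stage X, the lists of chunks for the type B: every list belongs to a
mask `P` of three lights (the smallest of its orbit), one entry for every automorphism of the type.
Generated (helper22).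
-/

set_option autoImplicit false
set_option maxRecDepth 100000

namespace Pool.Agent.Gen.TY.X.Pl

/-- lights 7 -/
noncomputable def plB_7 : List ((ℕ × ℕ) × ℕ × List (ℕ × ℕ)) :=
  [((0, 0), 7,
    [(79, B0.g0), (1, B0.g64), (186, B0.g8), (34, B0.g68), (11, B0.g12), (96, B0.g28),
     (163, B0.g2), (194, B0.g34), (4, B0.g82), (23, B0.g42), (163, B0.g90), (20, B0.g6),
     (29, B0.g38), (22, B0.g94), (157, B0.g1), (15, B0.g33), (37, B0.g17), (326, B0.g49),
     (289, B0.g89), (24, B0.g57), (32, B0.g21), (48, B0.g53), (145, B0.g13), (119, B0.g29),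
     (4, B0.g75), (147, B0.g7), (195, B0.g95), (12, B4.g32), (2, B4.g16), (7, B4.g104),
     (6, B4.g36), (6, B4.g20), (22, B4.g12), (19, B4.g28), (5, B4.g82), (7, B4.g6), (9, B4.g46),
     (12, B4.g65), (7, B4.g73), (1, B4.g89), (3, B4.g69), (1, B4.g53), (4, B4.g11), (2, B4.g27),
     (12, B4.g7), (1, B4.g111), (2, B2.g88), (12, B2.g36), (3, B2.g92), (9, B2.g17), (2, B2.g49),
     (5, B2.g73), (3, B2.g41), (1, B2.g105), (11, B2.g37), (2, B2.g45), (3, B2.g125), (8, B2.g3),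
     (1, B2.g59), (24, B2.g55), (1, B2.g63), (2, B6.g52), (3, B1.g40), (6, B1.g88), (29, B1.g2),
     (17, B1.g18), (47, B1.g74), (13, B1.g106), (86, B1.g6), (6, B1.g70), (37, B1.g22),
     (223, B1.g14), (70, B1.g33), (5, B1.g81), (4, B1.g13), (4, B1.g29), (35, B1.g99),
     (36, B1.g59), (148, B1.g55), (3, B1.g47), (51, B1.g63), (6, B5.g8), (21, B5.g4),
     (24, B5.g20), (7, B5.g116), (2, B5.g46), (3, B5.g73), (10, B5.g39), (1, B5.g63),
     (5, B3.g32), (2, B3.g120), (2, B3.g36), (8, B3.g28), (7, B3.g46), (7, B3.g62), (2, B3.g91)]),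
   ((14, 14729291113129283), 7,
    [(79, B0.g0), (1, B0.g64), (186, B0.g8), (34, B0.g68), (11, B0.g12), (96, B0.g28),
     (163, B0.g2), (194, B0.g34), (4, B0.g82), (23, B0.g42), (163, B0.g90), (20, B0.g6),
     (29, B0.g38), (22, B0.g94), (157, B0.g1), (15, B0.g33), (37, B0.g17), (326, B0.g49),
     (289, B0.g89), (24, B0.g57), (32, B0.g21), (48, B0.g53), (145, B0.g13), (119, B0.g29),
     (4, B0.g75), (147, B0.g7), (195, B0.g95), (12, B4.g32), (2, B4.g16), (7, B4.g104),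
     (6, B4.g36), (6, B4.g20), (22, B4.g12), (19, B4.g28), (5, B4.g82), (7, B4.g6), (9, B4.g46),
     (12, B4.g65), (7, B4.g73), (1, B4.g89), (3, B4.g69), (1, B4.g53), (4, B4.g11), (2, B4.g27),
     (12, B4.g7), (1, B4.g111), (2, B2.g88), (12, B2.g36), (3, B2.g92), (9, B2.g17), (2, B2.g49),
     (5, B2.g73), (3, B2.g41), (1, B2.g105), (11, B2.g37), (2, B2.g45), (3, B2.g125), (8, B2.g3),
     (1, B2.g59), (24, B2.g55), (1, B2.g63), (2, B6.g52), (3, B1.g40), (6, B1.g88), (29, B1.g2),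
     (17, B1.g18), (47, B1.g74), (13, B1.g106), (86, B1.g6), (6, B1.g70), (37, B1.g22),
     (223, B1.g14), (70, B1.g33), (5, B1.g81), (4, B1.g13), (4, B1.g29), (35, B1.g99),
     (36, B1.g59), (148, B1.g55), (3, B1.g47), (51, B1.g63), (6, B5.g8), (21, B5.g4),
     (24, B5.g20), (7, B5.g116), (2, B5.g46), (3, B5.g73), (10, B5.g39), (1, B5.g63),
     (5, B3.g32), (2, B3.g120), (2, B3.g36), (8, B3.g28), (7, B3.g46), (7, B3.g62), (2, B3.g91)]),
   ((6, 3765297), 7,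
    [(79, B0.g0), (1, B0.g64), (186, B0.g8), (34, B0.g68), (11, B0.g12), (96, B0.g28),
     (163, B0.g2), (194, B0.g34), (4, B0.g82), (23, B0.g42), (163, B0.g90), (20, B0.g6),
     (29, B0.g38), (22, B0.g94), (157, B0.g1), (15, B0.g33), (37, B0.g17), (326, B0.g49),
     (289, B0.g89), (24, B0.g57), (32, B0.g21), (48, B0.g53), (145, B0.g13), (119, B0.g29),
     (4, B0.g75), (147, B0.g7), (195, B0.g95), (12, B4.g32), (2, B4.g16), (7, B4.g104),
     (6, B4.g36), (6, B4.g20), (22, B4.g12), (19, B4.g28), (5, B4.g82), (7, B4.g6), (9, B4.g46),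
     (12, B4.g65), (7, B4.g73), (1, B4.g89), (3, B4.g69), (1, B4.g53), (4, B4.g11), (2, B4.g27),
     (12, B4.g7), (1, B4.g111), (2, B2.g88), (12, B2.g36), (3, B2.g92), (9, B2.g17), (2, B2.g49),
     (5, B2.g73), (3, B2.g41), (1, B2.g105), (11, B2.g37), (2, B2.g45), (3, B2.g125), (8, B2.g3),
     (1, B2.g59), (24, B2.g55), (1, B2.g63), (2, B6.g52), (3, B1.g40), (6, B1.g88), (29, B1.g2),
     (17, B1.g18), (47, B1.g74), (13, B1.g106), (86, B1.g6), (6, B1.g70), (37, B1.g22),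
     (223, B1.g14), (70, B1.g33), (5, B1.g81), (4, B1.g13), (4, B1.g29), (35, B1.g99),
     (36, B1.g59), (148, B1.g55), (3, B1.g47), (51, B1.g63), (6, B5.g8), (21, B5.g4),
     (24, B5.g20), (7, B5.g116), (2, B5.g46), (3, B5.g73), (10, B5.g39), (1, B5.g63),
     (5, B3.g32), (2, B3.g120), (2, B3.g36), (8, B3.g28), (7, B3.g46), (7, B3.g62), (2, B3.g91)]),
   ((12, 58563578258737), 7,
    [(79, B0.g0), (1, B0.g64), (186, B0.g8), (34, B0.g68), (11, B0.g12), (96, B0.g28),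
     (163, B0.g2), (194, B0.g34), (4, B0.g82), (23, B0.g42), (163, B0.g90), (20, B0.g6),
     (29, B0.g38), (22, B0.g94), (157, B0.g1), (15, B0.g33), (37, B0.g17), (326, B0.g49),
     (289, B0.g89), (24, B0.g57), (32, B0.g21), (48, B0.g53), (145, B0.g13), (119, B0.g29),
     (4, B0.g75), (147, B0.g7), (195, B0.g95), (12, B4.g32), (2, B4.g16), (7, B4.g104),
     (6, B4.g36), (6, B4.g20), (22, B4.g12), (19, B4.g28), (5, B4.g82), (7, B4.g6), (9, B4.g46),
     (12, B4.g65), (7, B4.g73), (1, B4.g89), (3, B4.g69), (1, B4.g53), (4, B4.g11), (2, B4.g27),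
     (12, B4.g7), (1, B4.g111), (2, B2.g88), (12, B2.g36), (3, B2.g92), (9, B2.g17), (2, B2.g49),
     (5, B2.g73), (3, B2.g41), (1, B2.g105), (11, B2.g37), (2, B2.g45), (3, B2.g125), (8, B2.g3),
     (1, B2.g59), (24, B2.g55), (1, B2.g63), (2, B6.g52), (3, B1.g40), (6, B1.g88), (29, B1.g2),
     (17, B1.g18), (47, B1.g74), (13, B1.g106), (86, B1.g6), (6, B1.g70), (37, B1.g22),
     (223, B1.g14), (70, B1.g33), (5, B1.g81), (4, B1.g13), (4, B1.g29), (35, B1.g99),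
     (36, B1.g59), (148, B1.g55), (3, B1.g47), (51, B1.g63), (6, B5.g8), (21, B5.g4),
     (24, B5.g20), (7, B5.g116), (2, B5.g46), (3, B5.g73), (10, B5.g39), (1, B5.g63),
     (5, B3.g32), (2, B3.g120), (2, B3.g36), (8, B3.g28), (7, B3.g46), (7, B3.g62), (2, B3.g91)]),
   ((4, 38464), 7,
    [(79, B0.g0), (1, B0.g64), (186, B0.g8), (34, B0.g68), (11, B0.g12), (96, B0.g28),
     (163, B0.g2), (194, B0.g34), (4, B0.g82), (23, B0.g42), (163, B0.g90), (20, B0.g6),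
     (29, B0.g38), (22, B0.g94), (157, B0.g1), (15, B0.g33), (37, B0.g17), (326, B0.g49),
     (289, B0.g89), (24, B0.g57), (32, B0.g21), (48, B0.g53), (145, B0.g13), (119, B0.g29),
     (4, B0.g75), (147, B0.g7), (195, B0.g95), (12, B4.g32), (2, B4.g16), (7, B4.g104),
     (6, B4.g36), (6, B4.g20), (22, B4.g12), (19, B4.g28), (5, B4.g82), (7, B4.g6), (9, B4.g46),
     (12, B4.g65), (7, B4.g73), (1, B4.g89), (3, B4.g69), (1, B4.g53), (4, B4.g11), (2, B4.g27),
     (12, B4.g7), (1, B4.g111), (2, B2.g88), (12, B2.g36), (3, B2.g92), (9, B2.g17), (2, B2.g49),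
     (5, B2.g73), (3, B2.g41), (1, B2.g105), (11, B2.g37), (2, B2.g45), (3, B2.g125), (8, B2.g3),
     (1, B2.g59), (24, B2.g55), (1, B2.g63), (2, B6.g52), (3, B1.g40), (6, B1.g88), (29, B1.g2),
     (17, B1.g18), (47, B1.g74), (13, B1.g106), (86, B1.g6), (6, B1.g70), (37, B1.g22),
     (223, B1.g14), (70, B1.g33), (5, B1.g81), (4, B1.g13), (4, B1.g29), (35, B1.g99),
     (36, B1.g59), (148, B1.g55), (3, B1.g47), (51, B1.g63), (6, B5.g8), (21, B5.g4),
     (24, B5.g20), (7, B5.g116), (2, B5.g46), (3, B5.g73), (10, B5.g39), (1, B5.g63),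
     (5, B3.g32), (2, B3.g120), (2, B3.g36), (8, B3.g28), (7, B3.g46), (7, B3.g62), (2, B3.g91)]),
   ((16, 3761987165940503600), 7,
    [(79, B0.g0), (1, B0.g64), (186, B0.g8), (34, B0.g68), (11, B0.g12), (96, B0.g28),
     (163, B0.g2), (194, B0.g34), (4, B0.g82), (23, B0.g42), (163, B0.g90), (20, B0.g6),
     (29, B0.g38), (22, B0.g94), (157, B0.g1), (15, B0.g33), (37, B0.g17), (326, B0.g49),
     (289, B0.g89), (24, B0.g57), (32, B0.g21), (48, B0.g53), (145, B0.g13), (119, B0.g29),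
     (4, B0.g75), (147, B0.g7), (195, B0.g95), (12, B4.g32), (2, B4.g16), (7, B4.g104),
     (6, B4.g36), (6, B4.g20), (22, B4.g12), (19, B4.g28), (5, B4.g82), (7, B4.g6), (9, B4.g46),
     (12, B4.g65), (7, B4.g73), (1, B4.g89), (3, B4.g69), (1, B4.g53), (4, B4.g11), (2, B4.g27),
     (12, B4.g7), (1, B4.g111), (2, B2.g88), (12, B2.g36), (3, B2.g92), (9, B2.g17), (2, B2.g49),
     (5, B2.g73), (3, B2.g41), (1, B2.g105), (11, B2.g37), (2, B2.g45), (3, B2.g125), (8, B2.g3),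
     (1, B2.g59), (24, B2.g55), (1, B2.g63), (2, B6.g52), (3, B1.g40), (6, B1.g88), (29, B1.g2),
     (17, B1.g18), (47, B1.g74), (13, B1.g106), (86, B1.g6), (6, B1.g70), (37, B1.g22),
     (223, B1.g14), (70, B1.g33), (5, B1.g81), (4, B1.g13), (4, B1.g29), (35, B1.g99),
     (36, B1.g59), (148, B1.g55), (3, B1.g47), (51, B1.g63), (6, B5.g8), (21, B5.g4),
     (24, B5.g20), (7, B5.g116), (2, B5.g46), (3, B5.g73), (10, B5.g39), (1, B5.g63),
     (5, B3.g32), (2, B3.g120), (2, B3.g36), (8, B3.g28), (7, B3.g46), (7, B3.g62), (2, B3.g91)]),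
   ((6, 6489921), 7,
    [(79, B0.g0), (1, B0.g64), (186, B0.g8), (34, B0.g68), (11, B0.g12), (96, B0.g28),
     (163, B0.g2), (194, B0.g34), (4, B0.g82), (23, B0.g42), (163, B0.g90), (20, B0.g6),
     (29, B0.g38), (22, B0.g94), (157, B0.g1), (15, B0.g33), (37, B0.g17), (326, B0.g49),
     (289, B0.g89), (24, B0.g57), (32, B0.g21), (48, B0.g53), (145, B0.g13), (119, B0.g29),
     (4, B0.g75), (147, B0.g7), (195, B0.g95), (12, B4.g32), (2, B4.g16), (7, B4.g104),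
     (6, B4.g36), (6, B4.g20), (22, B4.g12), (19, B4.g28), (5, B4.g82), (7, B4.g6), (9, B4.g46),
     (12, B4.g65), (7, B4.g73), (1, B4.g89), (3, B4.g69), (1, B4.g53), (4, B4.g11), (2, B4.g27),
     (12, B4.g7), (1, B4.g111), (2, B2.g88), (12, B2.g36), (3, B2.g92), (9, B2.g17), (2, B2.g49),
     (5, B2.g73), (3, B2.g41), (1, B2.g105), (11, B2.g37), (2, B2.g45), (3, B2.g125), (8, B2.g3),
     (1, B2.g59), (24, B2.g55), (1, B2.g63), (2, B6.g52), (3, B1.g40), (6, B1.g88), (29, B1.g2),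
     (17, B1.g18), (47, B1.g74), (13, B1.g106), (86, B1.g6), (6, B1.g70), (37, B1.g22),
     (223, B1.g14), (70, B1.g33), (5, B1.g81), (4, B1.g13), (4, B1.g29), (35, B1.g99),
     (36, B1.g59), (148, B1.g55), (3, B1.g47), (51, B1.g63), (6, B5.g8), (21, B5.g4),
     (24, B5.g20), (7, B5.g116), (2, B5.g46), (3, B5.g73), (10, B5.g39), (1, B5.g63),
     (5, B3.g32), (2, B3.g120), (2, B3.g36), (8, B3.g28), (7, B3.g46), (7, B3.g62), (2, B3.g91)]),
   ((14, 18951415754487377), 7,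
    [(79, B0.g0), (1, B0.g64), (186, B0.g8), (34, B0.g68), (11, B0.g12), (96, B0.g28),
     (163, B0.g2), (194, B0.g34), (4, B0.g82), (23, B0.g42), (163, B0.g90), (20, B0.g6),
     (29, B0.g38), (22, B0.g94), (157, B0.g1), (15, B0.g33), (37, B0.g17), (326, B0.g49),
     (289, B0.g89), (24, B0.g57), (32, B0.g21), (48, B0.g53), (145, B0.g13), (119, B0.g29),
     (4, B0.g75), (147, B0.g7), (195, B0.g95), (12, B4.g32), (2, B4.g16), (7, B4.g104),
     (6, B4.g36), (6, B4.g20), (22, B4.g12), (19, B4.g28), (5, B4.g82), (7, B4.g6), (9, B4.g46),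
     (12, B4.g65), (7, B4.g73), (1, B4.g89), (3, B4.g69), (1, B4.g53), (4, B4.g11), (2, B4.g27),
     (12, B4.g7), (1, B4.g111), (2, B2.g88), (12, B2.g36), (3, B2.g92), (9, B2.g17), (2, B2.g49),
     (5, B2.g73), (3, B2.g41), (1, B2.g105), (11, B2.g37), (2, B2.g45), (3, B2.g125), (8, B2.g3),
     (1, B2.g59), (24, B2.g55), (1, B2.g63), (2, B6.g52), (3, B1.g40), (6, B1.g88), (29, B1.g2),
     (17, B1.g18), (47, B1.g74), (13, B1.g106), (86, B1.g6), (6, B1.g70), (37, B1.g22),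
     (223, B1.g14), (70, B1.g33), (5, B1.g81), (4, B1.g13), (4, B1.g29), (35, B1.g99),
     (36, B1.g59), (148, B1.g55), (3, B1.g47), (51, B1.g63), (6, B5.g8), (21, B5.g4),
     (24, B5.g20), (7, B5.g116), (2, B5.g46), (3, B5.g73), (10, B5.g39), (1, B5.g63),
     (5, B3.g32), (2, B3.g120), (2, B3.g36), (8, B3.g28), (7, B3.g46), (7, B3.g62), (2, B3.g91)]),
   ((6, 7750416), 7,
    [(79, B0.g0), (1, B0.g64), (186, B0.g8), (34, B0.g68), (11, B0.g12), (96, B0.g28),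
     (163, B0.g2), (194, B0.g34), (4, B0.g82), (23, B0.g42), (163, B0.g90), (20, B0.g6),
     (29, B0.g38), (22, B0.g94), (157, B0.g1), (15, B0.g33), (37, B0.g17), (326, B0.g49),
     (289, B0.g89), (24, B0.g57), (32, B0.g21), (48, B0.g53), (145, B0.g13), (119, B0.g29),
     (4, B0.g75), (147, B0.g7), (195, B0.g95), (12, B4.g32), (2, B4.g16), (7, B4.g104),
     (6, B4.g36), (6, B4.g20), (22, B4.g12), (19, B4.g28), (5, B4.g82), (7, B4.g6), (9, B4.g46),
     (12, B4.g65), (7, B4.g73), (1, B4.g89), (3, B4.g69), (1, B4.g53), (4, B4.g11), (2, B4.g27),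
     (12, B4.g7), (1, B4.g111), (2, B2.g88), (12, B2.g36), (3, B2.g92), (9, B2.g17), (2, B2.g49),
     (5, B2.g73), (3, B2.g41), (1, B2.g105), (11, B2.g37), (2, B2.g45), (3, B2.g125), (8, B2.g3),
     (1, B2.g59), (24, B2.g55), (1, B2.g63), (2, B6.g52), (3, B1.g40), (6, B1.g88), (29, B1.g2),
     (17, B1.g18), (47, B1.g74), (13, B1.g106), (86, B1.g6), (6, B1.g70), (37, B1.g22),
     (223, B1.g14), (70, B1.g33), (5, B1.g81), (4, B1.g13), (4, B1.g29), (35, B1.g99),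
     (36, B1.g59), (148, B1.g55), (3, B1.g47), (51, B1.g63), (6, B5.g8), (21, B5.g4),
     (24, B5.g20), (7, B5.g116), (2, B5.g46), (3, B5.g73), (10, B5.g39), (1, B5.g63),
     (5, B3.g32), (2, B3.g120), (2, B3.g36), (8, B3.g28), (7, B3.g46), (7, B3.g62), (2, B3.g91)]),
   ((14, 23703633412903952), 7,
    [(79, B0.g0), (1, B0.g64), (186, B0.g8), (34, B0.g68), (11, B0.g12), (96, B0.g28),
     (163, B0.g2), (194, B0.g34), (4, B0.g82), (23, B0.g42), (163, B0.g90), (20, B0.g6),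
     (29, B0.g38), (22, B0.g94), (157, B0.g1), (15, B0.g33), (37, B0.g17), (326, B0.g49),
     (289, B0.g89), (24, B0.g57), (32, B0.g21), (48, B0.g53), (145, B0.g13), (119, B0.g29),
     (4, B0.g75), (147, B0.g7), (195, B0.g95), (12, B4.g32), (2, B4.g16), (7, B4.g104),
     (6, B4.g36), (6, B4.g20), (22, B4.g12), (19, B4.g28), (5, B4.g82), (7, B4.g6), (9, B4.g46),
     (12, B4.g65), (7, B4.g73), (1, B4.g89), (3, B4.g69), (1, B4.g53), (4, B4.g11), (2, B4.g27),
     (12, B4.g7), (1, B4.g111), (2, B2.g88), (12, B2.g36), (3, B2.g92), (9, B2.g17), (2, B2.g49),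
     (5, B2.g73), (3, B2.g41), (1, B2.g105), (11, B2.g37), (2, B2.g45), (3, B2.g125), (8, B2.g3),
     (1, B2.g59), (24, B2.g55), (1, B2.g63), (2, B6.g52), (3, B1.g40), (6, B1.g88), (29, B1.g2),
     (17, B1.g18), (47, B1.g74), (13, B1.g106), (86, B1.g6), (6, B1.g70), (37, B1.g22),
     (223, B1.g14), (70, B1.g33), (5, B1.g81), (4, B1.g13), (4, B1.g29), (35, B1.g99),
     (36, B1.g59), (148, B1.g55), (3, B1.g47), (51, B1.g63), (6, B5.g8), (21, B5.g4),
     (24, B5.g20), (7, B5.g116), (2, B5.g46), (3, B5.g73), (10, B5.g39), (1, B5.g63),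
     (5, B3.g32), (2, B3.g120), (2, B3.g36), (8, B3.g28), (7, B3.g46), (7, B3.g62), (2, B3.g91)]),
   ((8, 1620534032), 7,
    [(79, B0.g0), (1, B0.g64), (186, B0.g8), (34, B0.g68), (11, B0.g12), (96, B0.g28),
     (163, B0.g2), (194, B0.g34), (4, B0.g82), (23, B0.g42), (163, B0.g90), (20, B0.g6),
     (29, B0.g38), (22, B0.g94), (157, B0.g1), (15, B0.g33), (37, B0.g17), (326, B0.g49),
     (289, B0.g89), (24, B0.g57), (32, B0.g21), (48, B0.g53), (145, B0.g13), (119, B0.g29),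
     (4, B0.g75), (147, B0.g7), (195, B0.g95), (12, B4.g32), (2, B4.g16), (7, B4.g104),
     (6, B4.g36), (6, B4.g20), (22, B4.g12), (19, B4.g28), (5, B4.g82), (7, B4.g6), (9, B4.g46),
     (12, B4.g65), (7, B4.g73), (1, B4.g89), (3, B4.g69), (1, B4.g53), (4, B4.g11), (2, B4.g27),
     (12, B4.g7), (1, B4.g111), (2, B2.g88), (12, B2.g36), (3, B2.g92), (9, B2.g17), (2, B2.g49),
     (5, B2.g73), (3, B2.g41), (1, B2.g105), (11, B2.g37), (2, B2.g45), (3, B2.g125), (8, B2.g3),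
     (1, B2.g59), (24, B2.g55), (1, B2.g63), (2, B6.g52), (3, B1.g40), (6, B1.g88), (29, B1.g2),
     (17, B1.g18), (47, B1.g74), (13, B1.g106), (86, B1.g6), (6, B1.g70), (37, B1.g22),
     (223, B1.g14), (70, B1.g33), (5, B1.g81), (4, B1.g13), (4, B1.g29), (35, B1.g99),
     (36, B1.g59), (148, B1.g55), (3, B1.g47), (51, B1.g63), (6, B5.g8), (21, B5.g4),
     (24, B5.g20), (7, B5.g116), (2, B5.g46), (3, B5.g73), (10, B5.g39), (1, B5.g63),
     (5, B3.g32), (2, B3.g120), (2, B3.g36), (8, B3.g28), (7, B3.g46), (7, B3.g62), (2, B3.g91)]),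
   ((14, 19495875545289744), 7,
    [(79, B0.g0), (1, B0.g64), (186, B0.g8), (34, B0.g68), (11, B0.g12), (96, B0.g28),
     (163, B0.g2), (194, B0.g34), (4, B0.g82), (23, B0.g42), (163, B0.g90), (20, B0.g6),
     (29, B0.g38), (22, B0.g94), (157, B0.g1), (15, B0.g33), (37, B0.g17), (326, B0.g49),
     (289, B0.g89), (24, B0.g57), (32, B0.g21), (48, B0.g53), (145, B0.g13), (119, B0.g29),
     (4, B0.g75), (147, B0.g7), (195, B0.g95), (12, B4.g32), (2, B4.g16), (7, B4.g104),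
     (6, B4.g36), (6, B4.g20), (22, B4.g12), (19, B4.g28), (5, B4.g82), (7, B4.g6), (9, B4.g46),
     (12, B4.g65), (7, B4.g73), (1, B4.g89), (3, B4.g69), (1, B4.g53), (4, B4.g11), (2, B4.g27),
     (12, B4.g7), (1, B4.g111), (2, B2.g88), (12, B2.g36), (3, B2.g92), (9, B2.g17), (2, B2.g49),
     (5, B2.g73), (3, B2.g41), (1, B2.g105), (11, B2.g37), (2, B2.g45), (3, B2.g125), (8, B2.g3),
     (1, B2.g59), (24, B2.g55), (1, B2.g63), (2, B6.g52), (3, B1.g40), (6, B1.g88), (29, B1.g2),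
     (17, B1.g18), (47, B1.g74), (13, B1.g106), (86, B1.g6), (6, B1.g70), (37, B1.g22),
     (223, B1.g14), (70, B1.g33), (5, B1.g81), (4, B1.g13), (4, B1.g29), (35, B1.g99),
     (36, B1.g59), (148, B1.g55), (3, B1.g47), (51, B1.g63), (6, B5.g8), (21, B5.g4),
     (24, B5.g20), (7, B5.g116), (2, B5.g46), (3, B5.g73), (10, B5.g39), (1, B5.g63),
     (5, B3.g32), (2, B3.g120), (2, B3.g36), (8, B3.g28), (7, B3.g46), (7, B3.g62), (2, B3.g91)])]

/-- lights 11 -/
noncomputable def plB_11 : List ((ℕ × ℕ) × ℕ × List (ℕ × ℕ)) :=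
  [((0, 0), 11,
    [(79, B0.g0), (1, B0.g64), (181, B0.g96), (10, B0.g24), (11, B0.g12), (96, B0.g28),
     (17, B0.g60), (265, B0.g50), (20, B0.g6), (29, B0.g38), (2, B0.g86), (106, B0.g14),
     (97, B0.g30), (22, B0.g94), (157, B0.g1), (15, B0.g33), (37, B0.g17), (50, B0.g9),
     (289, B0.g89), (48, B0.g53), (9, B0.g45), (70, B0.g3), (116, B0.g35), (4, B0.g75),
     (128, B0.g91), (147, B0.g7), (28, B0.g71), (12, B4.g32), (2, B4.g16), (40, B4.g8),
     (5, B4.g76), (55, B4.g66), (7, B4.g6), (3, B4.g49), (1, B4.g89), (3, B4.g69), (3, B4.g85),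
     (1, B4.g53), (64, B4.g13), (26, B4.g29), (4, B4.g11), (11, B4.g107), (2, B4.g27),
     (4, B4.g39), (5, B4.g23), (1, B4.g111), (31, B2.g56), (12, B2.g36), (4, B2.g52),
     (1, B2.g108), (3, B2.g92), (4, B2.g66), (1, B2.g98), (8, B2.g42), (26, B2.g38),
     (30, B2.g89), (4, B2.g21), (2, B2.g45), (1, B2.g59), (2, B2.g7), (1, B6.g55), (3, B1.g40),
     (176, B1.g56), (36, B1.g36), (2, B1.g92), (29, B1.g2), (19, B1.g66), (17, B1.g18),
     (13, B1.g106), (6, B1.g70), (37, B1.g102), (5, B1.g81), (30, B1.g9), (22, B1.g25),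
     (4, B1.g13), (32, B1.g77), (4, B1.g29), (1, B1.g51), (36, B1.g59), (139, B1.g15),
     (6, B5.g8), (2, B5.g76), (6, B5.g42), (2, B5.g14), (2, B5.g46), (1, B5.g94), (56, B5.g5),
     (4, B5.g117), (10, B5.g23), (1, B3.g0), (5, B3.g32), (1, B3.g124), (14, B3.g94),
     (5, B3.g65), (1, B3.g49), (1, B3.g21), (25, B3.g29), (1, B3.g39)]),
   ((14, 14729291113129283), 259,
    [(181, B0.g96), (163, B0.g90), (22, B0.g94), (289, B0.g89), (128, B0.g91), (195, B0.g95),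
     (1, B4.g2), (8, B2.g28), (9, B2.g17), (4, B2.g21), (34, B2.g13), (8, B2.g3), (2, B2.g7),
     (1, B6.g64), (2, B6.g52), (19, B6.g51), (1, B6.g59), (1, B6.g55), (167, B1.g96),
     (3, B1.g40), (6, B1.g88), (176, B1.g56), (36, B1.g36), (35, B1.g84), (2, B1.g92),
     (120, B1.g60), (29, B1.g2), (19, B1.g66), (17, B1.g18), (47, B1.g74), (13, B1.g106),
     (86, B1.g6), (6, B1.g70), (37, B1.g102), (37, B1.g22), (223, B1.g14), (132, B1.g30),
     (70, B1.g33), (5, B1.g81), (30, B1.g9), (22, B1.g25), (4, B1.g13), (32, B1.g77),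
     (31, B1.g109), (4, B1.g29), (417, B1.g3), (35, B1.g99), (116, B1.g19), (1, B1.g51),
     (45, B1.g43), (36, B1.g59), (91, B1.g71), (148, B1.g55), (139, B1.g15), (3, B1.g47),
     (51, B1.g63), (2, B5.g80), (6, B5.g8), (6, B5.g88), (21, B5.g4), (47, B5.g36), (24, B5.g20),
     (2, B5.g76), (4, B5.g28), (6, B5.g42), (87, B5.g70), (8, B5.g102), (2, B5.g14), (2, B5.g46),
     (1, B5.g94), (73, B5.g17), (2, B5.g49), (37, B5.g9), (3, B5.g73), (56, B5.g5), (6, B5.g59),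
     (10, B5.g39), (10, B5.g23), (1, B5.g63), (5, B3.g32), (12, B3.g88), (2, B3.g120),
     (2, B3.g36), (8, B3.g28), (1, B3.g124), (1, B3.g70), (7, B3.g46), (14, B3.g94), (7, B3.g62),
     (5, B3.g65), (22, B3.g33), (1, B3.g49), (2, B3.g105), (2, B3.g117), (25, B3.g29),
     (7, B3.g99), (8, B3.g43), (2, B3.g91), (8, B3.g59), (1, B3.g39)]),
   ((6, 3765297), 37,
    [(22, B0.g80), (149, B0.g40), (58, B0.g4), (34, B0.g68), (199, B0.g36), (163, B0.g2),
     (129, B0.g66), (194, B0.g34), (4, B0.g82), (23, B0.g42), (14, B0.g26), (20, B0.g6),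
     (29, B0.g38), (157, B0.g1), (37, B0.g17), (33, B0.g73), (32, B0.g21), (145, B0.g13),
     (115, B0.g19), (4, B0.g75), (86, B0.g15), (25, B0.g47), (195, B0.g95), (1, B4.g64),
     (2, B4.g16), (14, B4.g80), (1, B4.g100), (6, B4.g20), (22, B4.g12), (31, B4.g44),
     (17, B4.g18), (5, B4.g82), (1, B4.g58), (24, B4.g14), (9, B4.g46), (3, B4.g94),
     (14, B4.g25), (1, B4.g89), (1, B4.g53), (1, B4.g51), (2, B4.g27), (1, B4.g87), (2, B2.g116),
     (6, B2.g110), (4, B2.g30), (9, B2.g17), (2, B2.g49), (5, B2.g73), (3, B2.g41), (1, B2.g105),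
     (7, B2.g77), (2, B2.g45), (1, B2.g83), (14, B2.g43), (43, B2.g71), (14, B2.g103),
     (3, B2.g23), (52, B2.g15), (8, B2.g47), (88, B1.g0), (147, B1.g72), (3, B1.g40),
     (6, B1.g88), (113, B1.g4), (29, B1.g2), (47, B1.g74), (86, B1.g6), (32, B1.g38),
     (24, B1.g86), (7, B1.g94), (70, B1.g33), (5, B1.g81), (5, B1.g53), (4, B1.g13),
     (59, B1.g45), (15, B1.g11), (21, B1.g79), (3, B1.g47), (195, B1.g31), (24, B5.g20),
     (2, B5.g34), (27, B5.g18), (1, B5.g90), (1, B5.g61), (1, B5.g125), (1, B5.g63), (6, B3.g80),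
     (20, B3.g44), (7, B3.g46), (4, B3.g17), (1, B3.g83), (2, B3.g51), (1, B3.g107), (1, B3.g55)]),
   ((12, 58563578258737), 133,
    [(1, B0.g64), (22, B0.g80), (149, B0.g40), (34, B0.g68), (199, B0.g36), (96, B0.g28),
     (129, B0.g66), (194, B0.g34), (4, B0.g82), (23, B0.g42), (29, B0.g38), (16, B0.g62),
     (15, B0.g33), (326, B0.g49), (33, B0.g73), (24, B0.g57), (48, B0.g53), (119, B0.g29),
     (91, B0.g51), (4, B0.g75), (67, B0.g55), (25, B0.g47), (110, B0.g31), (14, B4.g80),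
     (7, B4.g104), (1, B4.g100), (1, B4.g116), (5, B4.g82), (16, B4.g102), (9, B4.g78),
     (3, B4.g94), (12, B4.g65), (7, B4.g73), (1, B4.g89), (3, B4.g69), (1, B4.g109),
     (49, B4.g67), (7, B4.g71), (1, B4.g87), (1, B4.g111), (2, B2.g88), (2, B2.g100),
     (2, B2.g116), (3, B2.g92), (44, B2.g90), (6, B2.g110), (4, B2.g30), (10, B2.g94),
     (34, B2.g1), (9, B2.g17), (4, B2.g9), (1, B2.g105), (3, B2.g125), (8, B2.g3), (10, B2.g123),
     (14, B2.g103), (3, B2.g23), (52, B2.g15), (147, B1.g72), (17, B1.g104), (6, B1.g88),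
     (33, B1.g68), (47, B1.g74), (13, B1.g106), (6, B1.g70), (24, B1.g86), (7, B1.g94),
     (81, B1.g97), (5, B1.g81), (61, B1.g57), (44, B1.g61), (35, B1.g99), (36, B1.g59),
     (148, B1.g55), (21, B1.g79), (51, B1.g63), (1, B5.g82), (1, B5.g90), (3, B5.g73),
     (6, B5.g71), (1, B3.g96), (2, B3.g120), (3, B3.g2), (4, B3.g17), (14, B3.g89), (1, B3.g101),
     (1, B3.g107), (2, B3.g91), (1, B3.g7), (2, B3.g119)]),
   ((4, 38464), 11,
    [(79, B0.g0), (1, B0.g64), (181, B0.g96), (10, B0.g24), (11, B0.g12), (96, B0.g28),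
     (17, B0.g60), (265, B0.g50), (20, B0.g6), (29, B0.g38), (2, B0.g86), (106, B0.g14),
     (97, B0.g30), (22, B0.g94), (157, B0.g1), (15, B0.g33), (37, B0.g17), (50, B0.g9),
     (289, B0.g89), (48, B0.g53), (9, B0.g45), (70, B0.g3), (116, B0.g35), (4, B0.g75),
     (128, B0.g91), (147, B0.g7), (28, B0.g71), (12, B4.g32), (2, B4.g16), (40, B4.g8),
     (5, B4.g76), (55, B4.g66), (7, B4.g6), (3, B4.g49), (1, B4.g89), (3, B4.g69), (3, B4.g85),
     (1, B4.g53), (64, B4.g13), (26, B4.g29), (4, B4.g11), (11, B4.g107), (2, B4.g27),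
     (4, B4.g39), (5, B4.g23), (1, B4.g111), (31, B2.g56), (12, B2.g36), (4, B2.g52),
     (1, B2.g108), (3, B2.g92), (4, B2.g66), (1, B2.g98), (8, B2.g42), (26, B2.g38),
     (30, B2.g89), (4, B2.g21), (2, B2.g45), (1, B2.g59), (2, B2.g7), (1, B6.g55), (3, B1.g40),
     (176, B1.g56), (36, B1.g36), (2, B1.g92), (29, B1.g2), (19, B1.g66), (17, B1.g18),
     (13, B1.g106), (6, B1.g70), (37, B1.g102), (5, B1.g81), (30, B1.g9), (22, B1.g25),
     (4, B1.g13), (32, B1.g77), (4, B1.g29), (1, B1.g51), (36, B1.g59), (139, B1.g15),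
     (6, B5.g8), (2, B5.g76), (6, B5.g42), (2, B5.g14), (2, B5.g46), (1, B5.g94), (56, B5.g5),
     (4, B5.g117), (10, B5.g23), (1, B3.g0), (5, B3.g32), (1, B3.g124), (14, B3.g94),
     (5, B3.g65), (1, B3.g49), (1, B3.g21), (25, B3.g29), (1, B3.g39)]),
   ((16, 3761987165940503600), 259,
    [(181, B0.g96), (163, B0.g90), (22, B0.g94), (289, B0.g89), (128, B0.g91), (195, B0.g95),
     (1, B4.g2), (8, B2.g28), (9, B2.g17), (4, B2.g21), (34, B2.g13), (8, B2.g3), (2, B2.g7),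
     (1, B6.g64), (2, B6.g52), (19, B6.g51), (1, B6.g59), (1, B6.g55), (167, B1.g96),
     (3, B1.g40), (6, B1.g88), (176, B1.g56), (36, B1.g36), (35, B1.g84), (2, B1.g92),
     (120, B1.g60), (29, B1.g2), (19, B1.g66), (17, B1.g18), (47, B1.g74), (13, B1.g106),
     (86, B1.g6), (6, B1.g70), (37, B1.g102), (37, B1.g22), (223, B1.g14), (132, B1.g30),
     (70, B1.g33), (5, B1.g81), (30, B1.g9), (22, B1.g25), (4, B1.g13), (32, B1.g77),
     (31, B1.g109), (4, B1.g29), (417, B1.g3), (35, B1.g99), (116, B1.g19), (1, B1.g51),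
     (45, B1.g43), (36, B1.g59), (91, B1.g71), (148, B1.g55), (139, B1.g15), (3, B1.g47),
     (51, B1.g63), (2, B5.g80), (6, B5.g8), (6, B5.g88), (21, B5.g4), (47, B5.g36), (24, B5.g20),
     (2, B5.g76), (4, B5.g28), (6, B5.g42), (87, B5.g70), (8, B5.g102), (2, B5.g14), (2, B5.g46),
     (1, B5.g94), (73, B5.g17), (2, B5.g49), (37, B5.g9), (3, B5.g73), (56, B5.g5), (6, B5.g59),
     (10, B5.g39), (10, B5.g23), (1, B5.g63), (5, B3.g32), (12, B3.g88), (2, B3.g120),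
     (2, B3.g36), (8, B3.g28), (1, B3.g124), (1, B3.g70), (7, B3.g46), (14, B3.g94), (7, B3.g62),
     (5, B3.g65), (22, B3.g33), (1, B3.g49), (2, B3.g105), (2, B3.g117), (25, B3.g29),
     (7, B3.g99), (8, B3.g43), (2, B3.g91), (8, B3.g59), (1, B3.g39)]),
   ((6, 6489921), 22,
    [(79, B0.g0), (1, B0.g64), (120, B0.g32), (32, B0.g48), (186, B0.g8), (15, B0.g88),
     (288, B0.g56), (282, B0.g20), (11, B0.g12), (163, B0.g2), (4, B0.g82), (23, B0.g42),
     (163, B0.g90), (20, B0.g6), (22, B0.g94), (15, B0.g33), (51, B0.g81), (313, B0.g41),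
     (24, B0.g57), (258, B0.g5), (32, B0.g21), (119, B0.g29), (185, B0.g93), (261, B0.g11),
     (84, B0.g27), (67, B0.g63), (52, B4.g72), (6, B4.g36), (6, B4.g20), (59, B4.g10),
     (5, B4.g42), (6, B4.g26), (7, B4.g73), (12, B4.g117), (80, B4.g35), (68, B4.g19),
     (4, B4.g11), (2, B4.g27), (22, B4.g59), (12, B4.g7), (4, B4.g95), (17, B2.g48),
     (15, B2.g40), (5, B2.g84), (87, B2.g2), (5, B2.g10), (3, B2.g54), (34, B2.g62), (2, B2.g49),
     (3, B2.g69), (11, B2.g37), (2, B2.g101), (2, B2.g117), (8, B2.g3), (5, B2.g31),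
     (10, B2.g95), (1, B2.g63), (4, B6.g16), (6, B1.g88), (43, B1.g12), (45, B1.g28),
     (86, B1.g6), (6, B1.g70), (37, B1.g22), (3, B1.g54), (82, B1.g46), (372, B1.g62),
     (315, B1.g5), (63, B1.g69), (259, B1.g21), (4, B1.g13), (4, B1.g29), (109, B1.g87),
     (3, B1.g47), (4, B1.g95), (51, B1.g63), (2, B5.g120), (1, B5.g52), (4, B5.g30), (1, B5.g35),
     (23, B5.g11), (1, B3.g8), (1, B3.g56), (2, B3.g36), (4, B3.g42), (2, B3.g73), (4, B3.g35)]),
   ((14, 18951415754487377), 70,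
    [(1, B0.g64), (402, B0.g16), (186, B0.g8), (15, B0.g88), (288, B0.g56), (34, B0.g68),
     (282, B0.g20), (242, B0.g52), (11, B0.g12), (4, B0.g82), (108, B0.g74), (37, B0.g17),
     (51, B0.g81), (326, B0.g49), (24, B0.g57), (32, B0.g21), (48, B0.g53), (145, B0.g13),
     (300, B0.g67), (261, B0.g11), (4, B0.g75), (84, B0.g27), (147, B0.g7), (67, B0.g63),
     (12, B4.g32), (7, B4.g104), (6, B4.g36), (5, B4.g52), (19, B4.g28), (5, B4.g42),
     (9, B4.g46), (5, B4.g110), (1, B4.g53), (12, B4.g117), (45, B4.g45), (2, B4.g125),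
     (80, B4.g35), (22, B4.g59), (28, B4.g103), (1, B4.g111), (34, B4.g31), (49, B2.g16),
     (31, B2.g72), (9, B2.g24), (5, B2.g84), (8, B2.g124), (87, B2.g2), (5, B2.g10),
     (35, B2.g58), (2, B2.g78), (34, B2.g62), (9, B2.g17), (5, B2.g73), (3, B2.g69),
     (3, B2.g125), (8, B2.g3), (1, B2.g59), (24, B2.g55), (5, B2.g31), (1, B2.g63), (4, B6.g16),
     (2, B6.g8), (242, B1.g32), (3, B1.g40), (45, B1.g28), (252, B1.g98), (17, B1.g18),
     (13, B1.g106), (37, B1.g22), (3, B1.g54), (223, B1.g14), (82, B1.g46), (70, B1.g33),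
     (233, B1.g17), (58, B1.g105), (259, B1.g21), (4, B1.g29), (35, B1.g99), (87, B1.g39),
     (3, B1.g47), (1, B5.g104), (1, B5.g52), (43, B5.g38), (2, B5.g46), (3, B5.g62), (1, B5.g45),
     (10, B5.g39), (1, B5.g63), (1, B3.g8), (2, B3.g120), (3, B3.g18), (7, B3.g62), (2, B3.g73),
     (5, B3.g61), (2, B3.g3), (1, B3.g23)]),
   ((6, 7750416), 37,
    [(22, B0.g80), (149, B0.g40), (58, B0.g4), (34, B0.g68), (199, B0.g36), (163, B0.g2),
     (129, B0.g66), (194, B0.g34), (4, B0.g82), (23, B0.g42), (14, B0.g26), (20, B0.g6),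
     (29, B0.g38), (157, B0.g1), (37, B0.g17), (33, B0.g73), (32, B0.g21), (145, B0.g13),
     (115, B0.g19), (4, B0.g75), (86, B0.g15), (25, B0.g47), (195, B0.g95), (1, B4.g64),
     (2, B4.g16), (14, B4.g80), (1, B4.g100), (6, B4.g20), (22, B4.g12), (31, B4.g44),
     (17, B4.g18), (5, B4.g82), (1, B4.g58), (24, B4.g14), (9, B4.g46), (3, B4.g94),
     (14, B4.g25), (1, B4.g89), (1, B4.g53), (1, B4.g51), (2, B4.g27), (1, B4.g87), (2, B2.g116),
     (6, B2.g110), (4, B2.g30), (9, B2.g17), (2, B2.g49), (5, B2.g73), (3, B2.g41), (1, B2.g105),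
     (7, B2.g77), (2, B2.g45), (1, B2.g83), (14, B2.g43), (43, B2.g71), (14, B2.g103),
     (3, B2.g23), (52, B2.g15), (8, B2.g47), (88, B1.g0), (147, B1.g72), (3, B1.g40),
     (6, B1.g88), (113, B1.g4), (29, B1.g2), (47, B1.g74), (86, B1.g6), (32, B1.g38),
     (24, B1.g86), (7, B1.g94), (70, B1.g33), (5, B1.g81), (5, B1.g53), (4, B1.g13),
     (59, B1.g45), (15, B1.g11), (21, B1.g79), (3, B1.g47), (195, B1.g31), (24, B5.g20),
     (2, B5.g34), (27, B5.g18), (1, B5.g90), (1, B5.g61), (1, B5.g125), (1, B5.g63), (6, B3.g80),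
     (20, B3.g44), (7, B3.g46), (4, B3.g17), (1, B3.g83), (2, B3.g51), (1, B3.g107), (1, B3.g55)]),
   ((14, 23703633412903952), 133,
    [(1, B0.g64), (22, B0.g80), (149, B0.g40), (34, B0.g68), (199, B0.g36), (96, B0.g28),
     (129, B0.g66), (194, B0.g34), (4, B0.g82), (23, B0.g42), (29, B0.g38), (16, B0.g62),
     (15, B0.g33), (326, B0.g49), (33, B0.g73), (24, B0.g57), (48, B0.g53), (119, B0.g29),
     (91, B0.g51), (4, B0.g75), (67, B0.g55), (25, B0.g47), (110, B0.g31), (14, B4.g80),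
     (7, B4.g104), (1, B4.g100), (1, B4.g116), (5, B4.g82), (16, B4.g102), (9, B4.g78),
     (3, B4.g94), (12, B4.g65), (7, B4.g73), (1, B4.g89), (3, B4.g69), (1, B4.g109),
     (49, B4.g67), (7, B4.g71), (1, B4.g87), (1, B4.g111), (2, B2.g88), (2, B2.g100),
     (2, B2.g116), (3, B2.g92), (44, B2.g90), (6, B2.g110), (4, B2.g30), (10, B2.g94),
     (34, B2.g1), (9, B2.g17), (4, B2.g9), (1, B2.g105), (3, B2.g125), (8, B2.g3), (10, B2.g123),
     (14, B2.g103), (3, B2.g23), (52, B2.g15), (147, B1.g72), (17, B1.g104), (6, B1.g88),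
     (33, B1.g68), (47, B1.g74), (13, B1.g106), (6, B1.g70), (24, B1.g86), (7, B1.g94),
     (81, B1.g97), (5, B1.g81), (61, B1.g57), (44, B1.g61), (35, B1.g99), (36, B1.g59),
     (148, B1.g55), (21, B1.g79), (51, B1.g63), (1, B5.g82), (1, B5.g90), (3, B5.g73),
     (6, B5.g71), (1, B3.g96), (2, B3.g120), (3, B3.g2), (4, B3.g17), (14, B3.g89), (1, B3.g101),
     (1, B3.g107), (2, B3.g91), (1, B3.g7), (2, B3.g119)]),
   ((8, 1620534032), 22,
    [(79, B0.g0), (1, B0.g64), (120, B0.g32), (32, B0.g48), (186, B0.g8), (15, B0.g88),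
     (288, B0.g56), (282, B0.g20), (11, B0.g12), (163, B0.g2), (4, B0.g82), (23, B0.g42),
     (163, B0.g90), (20, B0.g6), (22, B0.g94), (15, B0.g33), (51, B0.g81), (313, B0.g41),
     (24, B0.g57), (258, B0.g5), (32, B0.g21), (119, B0.g29), (185, B0.g93), (261, B0.g11),
     (84, B0.g27), (67, B0.g63), (52, B4.g72), (6, B4.g36), (6, B4.g20), (59, B4.g10),
     (5, B4.g42), (6, B4.g26), (7, B4.g73), (12, B4.g117), (80, B4.g35), (68, B4.g19),
     (4, B4.g11), (2, B4.g27), (22, B4.g59), (12, B4.g7), (4, B4.g95), (17, B2.g48),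
     (15, B2.g40), (5, B2.g84), (87, B2.g2), (5, B2.g10), (3, B2.g54), (34, B2.g62), (2, B2.g49),
     (3, B2.g69), (11, B2.g37), (2, B2.g101), (2, B2.g117), (8, B2.g3), (5, B2.g31),
     (10, B2.g95), (1, B2.g63), (4, B6.g16), (6, B1.g88), (43, B1.g12), (45, B1.g28),
     (86, B1.g6), (6, B1.g70), (37, B1.g22), (3, B1.g54), (82, B1.g46), (372, B1.g62),
     (315, B1.g5), (63, B1.g69), (259, B1.g21), (4, B1.g13), (4, B1.g29), (109, B1.g87),
     (3, B1.g47), (4, B1.g95), (51, B1.g63), (2, B5.g120), (1, B5.g52), (4, B5.g30), (1, B5.g35),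
     (23, B5.g11), (1, B3.g8), (1, B3.g56), (2, B3.g36), (4, B3.g42), (2, B3.g73), (4, B3.g35)]),
   ((14, 19495875545289744), 70,
    [(1, B0.g64), (402, B0.g16), (186, B0.g8), (15, B0.g88), (288, B0.g56), (34, B0.g68),
     (282, B0.g20), (242, B0.g52), (11, B0.g12), (4, B0.g82), (108, B0.g74), (37, B0.g17),
     (51, B0.g81), (326, B0.g49), (24, B0.g57), (32, B0.g21), (48, B0.g53), (145, B0.g13),
     (300, B0.g67), (261, B0.g11), (4, B0.g75), (84, B0.g27), (147, B0.g7), (67, B0.g63),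
     (12, B4.g32), (7, B4.g104), (6, B4.g36), (5, B4.g52), (19, B4.g28), (5, B4.g42),
     (9, B4.g46), (5, B4.g110), (1, B4.g53), (12, B4.g117), (45, B4.g45), (2, B4.g125),
     (80, B4.g35), (22, B4.g59), (28, B4.g103), (1, B4.g111), (34, B4.g31), (49, B2.g16),
     (31, B2.g72), (9, B2.g24), (5, B2.g84), (8, B2.g124), (87, B2.g2), (5, B2.g10),
     (35, B2.g58), (2, B2.g78), (34, B2.g62), (9, B2.g17), (5, B2.g73), (3, B2.g69),
     (3, B2.g125), (8, B2.g3), (1, B2.g59), (24, B2.g55), (5, B2.g31), (1, B2.g63), (4, B6.g16),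
     (2, B6.g8), (242, B1.g32), (3, B1.g40), (45, B1.g28), (252, B1.g98), (17, B1.g18),
     (13, B1.g106), (37, B1.g22), (3, B1.g54), (223, B1.g14), (82, B1.g46), (70, B1.g33),
     (233, B1.g17), (58, B1.g105), (259, B1.g21), (4, B1.g29), (35, B1.g99), (87, B1.g39),
     (3, B1.g47), (1, B5.g104), (1, B5.g52), (43, B5.g38), (2, B5.g46), (3, B5.g62), (1, B5.g45),
     (10, B5.g39), (1, B5.g63), (1, B3.g8), (2, B3.g120), (3, B3.g18), (7, B3.g62), (2, B3.g73),
     (5, B3.g61), (2, B3.g3), (1, B3.g23)])]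

/-- lights 13 -/
noncomputable def plB_13 : List ((ℕ × ℕ) × ℕ × List (ℕ × ℕ)) :=
  [((0, 0), 13,
    [(79, B0.g0), (1, B0.g64), (58, B0.g4), (199, B0.g36), (11, B0.g12), (96, B0.g28),
     (135, B0.g92), (102, B0.g10), (14, B0.g26), (20, B0.g6), (29, B0.g38), (22, B0.g94),
     (16, B0.g62), (157, B0.g1), (15, B0.g33), (37, B0.g17), (33, B0.g73), (289, B0.g89),
     (48, B0.g53), (91, B0.g51), (4, B0.g75), (147, B0.g7), (86, B0.g15), (25, B0.g47),
     (110, B0.g31), (1, B4.g64), (12, B4.g32), (2, B4.g16), (1, B4.g100), (7, B4.g6),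
     (24, B4.g14), (9, B4.g78), (46, B4.g30), (70, B4.g9), (14, B4.g41), (14, B4.g25),
     (1, B4.g89), (3, B4.g69), (1, B4.g53), (1, B4.g109), (49, B4.g67), (1, B4.g51), (4, B4.g11),
     (2, B4.g27), (1, B4.g87), (1, B4.g111), (1, B2.g68), (12, B2.g36), (2, B2.g100),
     (3, B2.g92), (44, B2.g90), (6, B2.g110), (4, B2.g9), (54, B2.g57), (7, B2.g77), (2, B2.g45),
     (14, B2.g43), (1, B2.g59), (19, B2.g39), (3, B2.g23), (88, B1.g0), (107, B1.g16),
     (3, B1.g40), (17, B1.g104), (33, B1.g68), (29, B1.g2), (17, B1.g18), (13, B1.g106),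
     (6, B1.g70), (32, B1.g38), (7, B1.g94), (5, B1.g81), (61, B1.g57), (5, B1.g53), (4, B1.g13),
     (4, B1.g29), (15, B1.g11), (33, B1.g27), (36, B1.g59), (21, B1.g79), (7, B5.g16),
     (6, B5.g8), (14, B5.g44), (1, B5.g124), (2, B5.g34), (19, B5.g6), (4, B5.g118), (2, B5.g46),
     (5, B3.g32), (1, B3.g96), (3, B3.g2), (24, B3.g30), (4, B3.g41), (11, B3.g67), (1, B3.g83),
     (2, B3.g51)]),
   ((14, 14729291113129283), 261,
    [(135, B0.g92), (163, B0.g90), (22, B0.g94), (289, B0.g89), (195, B0.g95), (4, B2.g30),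
     (34, B2.g1), (9, B2.g17), (4, B2.g9), (8, B2.g3), (3, B2.g23), (52, B2.g15), (2, B6.g52),
     (1, B6.g61), (88, B1.g0), (107, B1.g16), (147, B1.g72), (3, B1.g40), (17, B1.g104),
     (6, B1.g88), (113, B1.g4), (33, B1.g68), (142, B1.g20), (29, B1.g2), (17, B1.g18),
     (47, B1.g74), (13, B1.g106), (86, B1.g6), (6, B1.g70), (32, B1.g38), (37, B1.g22),
     (24, B1.g86), (223, B1.g14), (7, B1.g94), (70, B1.g33), (81, B1.g97), (5, B1.g81),
     (61, B1.g57), (5, B1.g53), (4, B1.g13), (59, B1.g45), (4, B1.g29), (44, B1.g61),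
     (35, B1.g99), (15, B1.g11), (33, B1.g27), (36, B1.g59), (148, B1.g55), (21, B1.g79),
     (3, B1.g47), (195, B1.g31), (51, B1.g63), (7, B5.g16), (6, B5.g8), (21, B5.g4),
     (24, B5.g20), (14, B5.g44), (2, B5.g34), (27, B5.g18), (1, B5.g82), (67, B5.g10),
     (1, B5.g90), (19, B5.g6), (2, B5.g46), (3, B5.g73), (36, B5.g37), (1, B5.g61), (4, B5.g51),
     (6, B5.g71), (10, B5.g39), (1, B5.g63), (5, B3.g32), (1, B3.g96), (6, B3.g80), (2, B3.g72),
     (2, B3.g120), (2, B3.g36), (20, B3.g44), (8, B3.g28), (51, B3.g60), (15, B3.g34),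
     (7, B3.g46), (24, B3.g30), (7, B3.g62), (4, B3.g41), (14, B3.g89), (1, B3.g101),
     (11, B3.g67), (1, B3.g83), (2, B3.g51), (1, B3.g107), (2, B3.g91), (1, B3.g55), (2, B3.g119)]),
   ((6, 3765297), 35,
    [(181, B0.g96), (10, B0.g24), (34, B0.g68), (163, B0.g2), (194, B0.g34), (114, B0.g18),
     (4, B0.g82), (23, B0.g42), (20, B0.g6), (29, B0.g38), (2, B0.g86), (106, B0.g14),
     (29, B0.g78), (157, B0.g1), (152, B0.g65), (37, B0.g17), (32, B0.g21), (145, B0.g13),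
     (9, B0.g45), (70, B0.g3), (116, B0.g35), (4, B0.g75), (28, B0.g71), (83, B0.g39),
     (195, B0.g95), (2, B4.g16), (9, B4.g56), (6, B4.g20), (22, B4.g12), (16, B4.g92),
     (1, B4.g2), (5, B4.g82), (9, B4.g46), (46, B4.g17), (3, B4.g49), (1, B4.g89), (3, B4.g85),
     (1, B4.g53), (64, B4.g13), (32, B4.g43), (2, B4.g27), (2, B4.g123), (5, B4.g23),
     (56, B4.g79), (4, B2.g52), (1, B2.g108), (8, B2.g28), (1, B2.g114), (8, B2.g42),
     (11, B2.g70), (8, B2.g102), (21, B2.g46), (9, B2.g17), (4, B2.g81), (2, B2.g49),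
     (5, B2.g73), (3, B2.g41), (1, B2.g105), (4, B2.g21), (34, B2.g13), (2, B2.g45), (1, B6.g64),
     (2, B6.g3), (3, B1.g40), (6, B1.g88), (36, B1.g36), (35, B1.g84), (2, B1.g92), (29, B1.g2),
     (47, B1.g74), (86, B1.g6), (132, B1.g30), (70, B1.g33), (5, B1.g81), (30, B1.g9),
     (4, B1.g13), (32, B1.g77), (417, B1.g3), (1, B1.g51), (45, B1.g43), (91, B1.g71),
     (3, B1.g47), (6, B5.g88), (24, B5.g20), (4, B5.g28), (1, B5.g2), (1, B5.g94), (73, B5.g17),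
     (6, B5.g59), (10, B5.g23), (1, B5.g63), (7, B3.g46), (1, B3.g49), (2, B3.g105), (1, B3.g21),
     (8, B3.g43), (3, B3.g15)]),
   ((12, 58563578258737), 131,
    [(1, B0.g64), (34, B0.g68), (96, B0.g28), (17, B0.g60), (194, B0.g34), (4, B0.g82),
     (265, B0.g50), (23, B0.g42), (29, B0.g38), (2, B0.g86), (141, B0.g54), (29, B0.g78),
     (97, B0.g30), (152, B0.g65), (15, B0.g33), (326, B0.g49), (24, B0.g57), (48, B0.g53),
     (9, B0.g45), (119, B0.g29), (116, B0.g35), (4, B0.g75), (28, B0.g71), (83, B0.g39),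
     (7, B4.g104), (5, B4.g76), (16, B4.g92), (1, B4.g2), (55, B4.g66), (5, B4.g82),
     (11, B4.g114), (13, B4.g70), (12, B4.g65), (7, B4.g73), (1, B4.g89), (3, B4.g69),
     (56, B4.g101), (3, B4.g85), (11, B4.g107), (2, B4.g123), (56, B4.g79), (1, B4.g111),
     (2, B2.g88), (1, B2.g108), (8, B2.g28), (3, B2.g92), (1, B2.g98), (1, B2.g114),
     (25, B2.g122), (8, B2.g102), (9, B2.g17), (1, B2.g105), (30, B2.g89), (4, B2.g21),
     (34, B2.g13), (7, B2.g93), (3, B2.g125), (8, B2.g3), (2, B2.g7), (167, B1.g96), (6, B1.g88),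
     (176, B1.g56), (35, B1.g84), (2, B1.g92), (120, B1.g60), (19, B1.g66), (47, B1.g74),
     (13, B1.g106), (6, B1.g70), (37, B1.g102), (5, B1.g81), (32, B1.g77), (31, B1.g109),
     (35, B1.g99), (36, B1.g59), (91, B1.g71), (148, B1.g55), (51, B1.g63), (2, B5.g80),
     (6, B5.g88), (2, B5.g76), (1, B5.g2), (87, B5.g70), (8, B5.g102), (1, B5.g94), (3, B5.g73),
     (1, B3.g0), (12, B3.g88), (2, B3.g120), (1, B3.g124), (14, B3.g94), (2, B3.g105),
     (1, B3.g21), (2, B3.g117), (7, B3.g99), (2, B3.g91), (3, B3.g15)]),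
   ((4, 38464), 14,
    [(79, B0.g0), (1, B0.g64), (120, B0.g32), (402, B0.g16), (32, B0.g48), (15, B0.g88),
     (242, B0.g52), (11, B0.g12), (96, B0.g28), (108, B0.g74), (20, B0.g6), (29, B0.g38),
     (22, B0.g94), (157, B0.g1), (15, B0.g33), (37, B0.g17), (289, B0.g89), (258, B0.g5),
     (295, B0.g37), (48, B0.g53), (185, B0.g93), (261, B0.g11), (4, B0.g75), (84, B0.g27),
     (147, B0.g7), (67, B0.g63), (12, B4.g32), (2, B4.g16), (4, B4.g88), (33, B4.g68),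
     (5, B4.g52), (59, B4.g10), (5, B4.g42), (6, B4.g26), (7, B4.g6), (5, B4.g110), (1, B4.g89),
     (3, B4.g69), (1, B4.g53), (4, B4.g11), (2, B4.g27), (62, B4.g15), (1, B4.g111),
     (34, B4.g31), (15, B2.g40), (9, B2.g24), (12, B2.g36), (34, B2.g44), (3, B2.g92),
     (5, B2.g10), (35, B2.g58), (3, B2.g54), (2, B2.g78), (3, B2.g69), (2, B2.g101), (2, B2.g45),
     (18, B2.g91), (1, B2.g59), (11, B2.g111), (90, B1.g80), (3, B1.g40), (43, B1.g12),
     (45, B1.g28), (29, B1.g2), (17, B1.g18), (13, B1.g106), (206, B1.g58), (6, B1.g70),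
     (3, B1.g54), (318, B1.g1), (233, B1.g17), (5, B1.g81), (58, B1.g105), (63, B1.g69),
     (4, B1.g13), (4, B1.g29), (36, B1.g59), (87, B1.g39), (4, B1.g95), (6, B5.g8), (2, B5.g46),
     (12, B5.g25), (1, B5.g45), (1, B5.g35), (30, B5.g7), (5, B3.g32), (4, B3.g42), (2, B3.g3),
     (1, B3.g23), (23, B3.g31)]),
   ((16, 3761987165940503600), 262,
    [(163, B0.g90), (22, B0.g94), (289, B0.g89), (185, B0.g93), (195, B0.g95), (49, B2.g16),
     (9, B2.g24), (87, B2.g2), (5, B2.g10), (9, B2.g17), (8, B2.g3), (5, B2.g31), (2, B6.g52),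
     (1, B6.g66), (242, B1.g32), (90, B1.g80), (3, B1.g40), (6, B1.g88), (43, B1.g12),
     (45, B1.g28), (29, B1.g2), (252, B1.g98), (17, B1.g18), (47, B1.g74), (13, B1.g106),
     (206, B1.g58), (86, B1.g6), (6, B1.g70), (37, B1.g22), (3, B1.g54), (223, B1.g14),
     (82, B1.g46), (372, B1.g62), (318, B1.g1), (70, B1.g33), (233, B1.g17), (5, B1.g81),
     (317, B1.g73), (58, B1.g105), (315, B1.g5), (63, B1.g69), (259, B1.g21), (4, B1.g13),
     (4, B1.g29), (35, B1.g99), (36, B1.g59), (87, B1.g39), (109, B1.g87), (148, B1.g55),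
     (3, B1.g47), (4, B1.g95), (51, B1.g63), (6, B5.g8), (22, B5.g72), (1, B5.g104), (21, B5.g4),
     (24, B5.g20), (1, B5.g52), (43, B5.g38), (2, B5.g46), (4, B5.g30), (3, B5.g62), (3, B5.g73),
     (12, B5.g25), (1, B5.g45), (1, B5.g35), (55, B5.g19), (23, B5.g11), (8, B5.g91),
     (30, B5.g7), (10, B5.g39), (1, B5.g63), (5, B3.g32), (1, B3.g56), (2, B3.g120), (2, B3.g36),
     (1, B3.g108), (8, B3.g28), (4, B3.g42), (21, B3.g90), (7, B3.g46), (7, B3.g62), (2, B3.g73),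
     (8, B3.g45), (5, B3.g61), (4, B3.g35), (2, B3.g91), (23, B3.g31)]),
   ((6, 6489921), 19,
    [(79, B0.g0), (1, B0.g64), (186, B0.g8), (10, B0.g24), (11, B0.g12), (17, B0.g60),
     (163, B0.g2), (114, B0.g18), (4, B0.g82), (23, B0.g42), (163, B0.g90), (20, B0.g6),
     (2, B0.g86), (141, B0.g54), (29, B0.g78), (97, B0.g30), (22, B0.g94), (15, B0.g33),
     (50, B0.g9), (24, B0.g57), (32, B0.g21), (9, B0.g45), (119, B0.g29), (70, B0.g3),
     (128, B0.g91), (83, B0.g39), (40, B4.g8), (9, B4.g56), (6, B4.g36), (6, B4.g20),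
     (5, B4.g76), (16, B4.g92), (11, B4.g114), (13, B4.g70), (83, B4.g33), (46, B4.g17),
     (7, B4.g73), (4, B4.g11), (2, B4.g27), (12, B4.g7), (4, B4.g39), (5, B4.g23), (4, B2.g52),
     (8, B2.g28), (20, B2.g60), (4, B2.g66), (1, B2.g98), (1, B2.g114), (26, B2.g38),
     (21, B2.g46), (4, B2.g81), (2, B2.g49), (11, B2.g37), (7, B2.g93), (8, B2.g3), (2, B2.g7),
     (1, B2.g63), (2, B6.g14), (2, B6.g3), (1, B6.g59), (6, B1.g88), (35, B1.g84), (2, B1.g92),
     (120, B1.g60), (19, B1.g66), (86, B1.g6), (6, B1.g70), (37, B1.g22), (30, B1.g9),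
     (22, B1.g25), (4, B1.g13), (31, B1.g109), (4, B1.g29), (417, B1.g3), (116, B1.g19),
     (1, B1.g51), (45, B1.g43), (3, B1.g47), (51, B1.g63), (2, B5.g80), (4, B5.g28), (1, B5.g2),
     (2, B5.g14), (2, B5.g49), (37, B5.g9), (4, B5.g119), (2, B3.g36), (1, B3.g70), (22, B3.g33),
     (7, B3.g99), (1, B3.g39)]),
   ((14, 18951415754487377), 67,
    [(1, B0.g64), (186, B0.g8), (10, B0.g24), (34, B0.g68), (11, B0.g12), (17, B0.g60),
     (114, B0.g18), (4, B0.g82), (265, B0.g50), (2, B0.g86), (141, B0.g54), (106, B0.g14),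
     (29, B0.g78), (152, B0.g65), (37, B0.g17), (326, B0.g49), (50, B0.g9), (24, B0.g57),
     (32, B0.g21), (48, B0.g53), (145, B0.g13), (4, B0.g75), (147, B0.g7), (28, B0.g71),
     (12, B4.g32), (7, B4.g104), (9, B4.g56), (6, B4.g36), (19, B4.g28), (1, B4.g2),
     (11, B4.g114), (9, B4.g46), (83, B4.g33), (3, B4.g49), (56, B4.g101), (1, B4.g53),
     (26, B4.g29), (32, B4.g43), (11, B4.g107), (2, B4.g123), (4, B4.g39), (1, B4.g111),
     (31, B2.g56), (8, B2.g28), (20, B2.g60), (4, B2.g66), (25, B2.g122), (11, B2.g70),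
     (9, B2.g17), (4, B2.g81), (5, B2.g73), (4, B2.g21), (34, B2.g13), (3, B2.g125), (8, B2.g3),
     (1, B2.g59), (2, B2.g7), (24, B2.g55), (1, B2.g63), (2, B6.g14), (167, B1.g96), (3, B1.g40),
     (36, B1.g36), (17, B1.g18), (13, B1.g106), (37, B1.g102), (37, B1.g22), (223, B1.g14),
     (132, B1.g30), (70, B1.g33), (22, B1.g25), (31, B1.g109), (4, B1.g29), (35, B1.g99),
     (116, B1.g19), (1, B1.g51), (45, B1.g43), (139, B1.g15), (3, B1.g47), (47, B5.g36),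
     (1, B5.g2), (6, B5.g42), (8, B5.g102), (2, B5.g46), (2, B5.g49), (6, B5.g59), (10, B5.g39),
     (1, B5.g63), (1, B3.g0), (2, B3.g120), (1, B3.g124), (1, B3.g70), (7, B3.g62), (5, B3.g65),
     (1, B3.g21), (2, B3.g117), (8, B3.g59), (3, B3.g15)]),
   ((6, 7750416), 38,
    [(402, B0.g16), (32, B0.g48), (15, B0.g88), (34, B0.g68), (282, B0.g20), (163, B0.g2),
     (194, B0.g34), (4, B0.g82), (108, B0.g74), (23, B0.g42), (20, B0.g6), (29, B0.g38),
     (157, B0.g1), (37, B0.g17), (51, B0.g81), (313, B0.g41), (258, B0.g5), (295, B0.g37),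
     (32, B0.g21), (145, B0.g13), (300, B0.g67), (4, B0.g75), (84, B0.g27), (195, B0.g95),
     (2, B4.g16), (4, B4.g88), (6, B4.g20), (5, B4.g52), (22, B4.g12), (5, B4.g82), (6, B4.g26),
     (9, B4.g46), (76, B4.g81), (1, B4.g89), (1, B4.g53), (45, B4.g45), (2, B4.g125),
     (68, B4.g19), (2, B4.g27), (22, B4.g59), (62, B4.g15), (4, B4.g95), (49, B2.g16),
     (17, B2.g48), (31, B2.g72), (27, B2.g104), (9, B2.g24), (5, B2.g84), (34, B2.g44),
     (3, B2.g54), (2, B2.g78), (9, B2.g17), (2, B2.g49), (5, B2.g73), (3, B2.g41), (1, B2.g105),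
     (2, B2.g117), (2, B2.g45), (11, B2.g111), (5, B2.g31), (1, B6.g66), (242, B1.g32),
     (90, B1.g80), (3, B1.g40), (6, B1.g88), (43, B1.g12), (29, B1.g2), (47, B1.g74),
     (86, B1.g6), (3, B1.g54), (82, B1.g46), (318, B1.g1), (70, B1.g33), (5, B1.g81),
     (317, B1.g73), (315, B1.g5), (4, B1.g13), (87, B1.g39), (109, B1.g87), (3, B1.g47),
     (4, B1.g95), (24, B5.g20), (4, B5.g30), (3, B5.g62), (12, B5.g25), (1, B5.g35),
     (55, B5.g19), (8, B5.g91), (1, B5.g63), (1, B3.g56), (1, B3.g108), (3, B3.g18), (7, B3.g46),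
     (8, B3.g45), (1, B3.g23)]),
   ((14, 23703633412903952), 134,
    [(1, B0.g64), (120, B0.g32), (32, B0.g48), (15, B0.g88), (288, B0.g56), (34, B0.g68),
     (242, B0.g52), (96, B0.g28), (194, B0.g34), (4, B0.g82), (108, B0.g74), (23, B0.g42),
     (29, B0.g38), (15, B0.g33), (51, B0.g81), (326, B0.g49), (313, B0.g41), (24, B0.g57),
     (295, B0.g37), (48, B0.g53), (119, B0.g29), (300, B0.g67), (4, B0.g75), (67, B0.g63),
     (52, B4.g72), (7, B4.g104), (4, B4.g88), (33, B4.g68), (5, B4.g82), (5, B4.g110),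
     (12, B4.g65), (76, B4.g81), (7, B4.g73), (1, B4.g89), (3, B4.g69), (12, B4.g117),
     (2, B4.g125), (28, B4.g103), (1, B4.g111), (4, B4.g95), (49, B2.g16), (27, B2.g104),
     (9, B2.g24), (2, B2.g88), (3, B2.g92), (8, B2.g124), (87, B2.g2), (5, B2.g10), (9, B2.g17),
     (1, B2.g105), (2, B2.g101), (2, B2.g117), (3, B2.g125), (8, B2.g3), (18, B2.g91),
     (11, B2.g111), (5, B2.g31), (10, B2.g95), (90, B1.g80), (6, B1.g88), (252, B1.g98),
     (47, B1.g74), (13, B1.g106), (206, B1.g58), (6, B1.g70), (372, B1.g62), (5, B1.g81),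
     (317, B1.g73), (58, B1.g105), (63, B1.g69), (35, B1.g99), (36, B1.g59), (109, B1.g87),
     (148, B1.g55), (4, B1.g95), (51, B1.g63), (22, B5.g72), (1, B5.g104), (3, B5.g73),
     (8, B5.g91), (1, B3.g8), (2, B3.g120), (1, B3.g108), (3, B3.g18), (21, B3.g90), (2, B3.g3),
     (2, B3.g91), (1, B3.g23)]),
   ((8, 1620534032), 21,
    [(79, B0.g0), (1, B0.g64), (22, B0.g80), (186, B0.g8), (149, B0.g40), (58, B0.g4),
     (11, B0.g12), (135, B0.g92), (163, B0.g2), (4, B0.g82), (102, B0.g10), (23, B0.g42),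
     (14, B0.g26), (163, B0.g90), (20, B0.g6), (22, B0.g94), (16, B0.g62), (15, B0.g33),
     (24, B0.g57), (32, B0.g21), (119, B0.g29), (115, B0.g19), (67, B0.g55), (25, B0.g47),
     (110, B0.g31), (1, B4.g64), (6, B4.g36), (1, B4.g100), (6, B4.g20), (1, B4.g116),
     (32, B4.g34), (17, B4.g18), (1, B4.g58), (9, B4.g78), (3, B4.g94), (70, B4.g9), (7, B4.g73),
     (14, B4.g41), (14, B4.g25), (4, B4.g11), (2, B4.g27), (12, B4.g7), (7, B4.g71), (1, B2.g68),
     (2, B2.g100), (2, B2.g116), (4, B2.g30), (10, B2.g94), (34, B2.g1), (2, B2.g49), (4, B2.g9),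
     (11, B2.g37), (28, B2.g61), (8, B2.g3), (1, B2.g83), (19, B2.g39), (8, B2.g47), (1, B2.g63),
     (1, B6.g61), (6, B1.g88), (113, B1.g4), (33, B1.g68), (142, B1.g20), (86, B1.g6),
     (6, B1.g70), (37, B1.g22), (24, B1.g86), (7, B1.g94), (5, B1.g53), (4, B1.g13),
     (59, B1.g45), (4, B1.g29), (44, B1.g61), (15, B1.g11), (33, B1.g27), (3, B1.g47),
     (51, B1.g63), (7, B5.g16), (1, B5.g124), (2, B5.g34), (1, B5.g82), (67, B5.g10),
     (4, B5.g51), (2, B3.g72), (2, B3.g36), (15, B3.g34), (4, B3.g41), (1, B3.g101), (1, B3.g7),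
     (1, B3.g55)]),
   ((14, 19495875545289744), 69,
    [(1, B0.g64), (22, B0.g80), (186, B0.g8), (34, B0.g68), (11, B0.g12), (129, B0.g66),
     (4, B0.g82), (102, B0.g10), (14, B0.g26), (16, B0.g62), (37, B0.g17), (326, B0.g49),
     (33, B0.g73), (24, B0.g57), (32, B0.g21), (48, B0.g53), (145, B0.g13), (115, B0.g19),
     (91, B0.g51), (4, B0.g75), (147, B0.g7), (67, B0.g55), (86, B0.g15), (1, B4.g64),
     (12, B4.g32), (7, B4.g104), (6, B4.g36), (1, B4.g116), (31, B4.g44), (19, B4.g28),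
     (32, B4.g34), (1, B4.g58), (16, B4.g102), (9, B4.g46), (46, B4.g30), (14, B4.g41),
     (1, B4.g53), (1, B4.g109), (1, B4.g51), (1, B4.g111), (1, B2.g68), (4, B2.g30), (34, B2.g1),
     (9, B2.g17), (4, B2.g9), (5, B2.g73), (54, B2.g57), (7, B2.g77), (28, B2.g61), (3, B2.g125),
     (8, B2.g3), (1, B2.g83), (1, B2.g59), (10, B2.g123), (43, B2.g71), (3, B2.g23),
     (24, B2.g55), (52, B2.g15), (1, B2.g63), (107, B1.g16), (3, B1.g40), (17, B1.g104),
     (142, B1.g20), (17, B1.g18), (13, B1.g106), (32, B1.g38), (37, B1.g22), (223, B1.g14),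
     (70, B1.g33), (81, B1.g97), (5, B1.g53), (59, B1.g45), (4, B1.g29), (35, B1.g99),
     (33, B1.g27), (3, B1.g47), (195, B1.g31), (14, B5.g44), (2, B5.g46), (36, B5.g37),
     (1, B5.g61), (4, B5.g51), (10, B5.g39), (1, B5.g63), (6, B3.g80), (2, B3.g72), (2, B3.g120),
     (51, B3.g60), (3, B3.g2), (7, B3.g62), (4, B3.g17), (11, B3.g67), (1, B3.g83), (1, B3.g7),
     (2, B3.g119)])]

/-- lights 25 -/
noncomputable def plB_25 : List ((ℕ × ℕ) × ℕ × List (ℕ × ℕ)) :=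
  [((0, 0), 25,
    [(79, B0.g0), (1, B0.g64), (10, B0.g24), (58, B0.g4), (17, B0.g84), (11, B0.g12),
     (135, B0.g92), (17, B0.g60), (102, B0.g10), (14, B0.g26), (65, B0.g58), (20, B0.g6),
     (67, B0.g22), (2, B0.g86), (97, B0.g30), (22, B0.g94), (16, B0.g62), (15, B0.g33),
     (50, B0.g9), (9, B0.g45), (70, B0.g3), (48, B0.g43), (128, B0.g91), (25, B0.g47),
     (110, B0.g31), (1, B4.g64), (40, B4.g8), (1, B4.g100), (5, B4.g76), (26, B4.g74),
     (9, B4.g78), (4, B4.g97), (70, B4.g9), (14, B4.g41), (14, B4.g25), (28, B4.g37),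
     (51, B4.g21), (3, B4.g61), (4, B4.g11), (2, B4.g27), (4, B4.g39), (5, B4.g23), (1, B4.g119),
     (29, B2.g64), (8, B2.g96), (1, B2.g68), (2, B2.g100), (4, B2.g52), (4, B2.g66), (1, B2.g98),
     (10, B2.g50), (26, B2.g38), (29, B2.g33), (4, B2.g9), (29, B2.g5), (2, B2.g7), (19, B2.g39),
     (2, B2.g119), (1, B6.g34), (43, B1.g64), (33, B1.g68), (2, B1.g92), (19, B1.g66),
     (36, B1.g90), (6, B1.g70), (7, B1.g94), (18, B1.g49), (30, B1.g9), (22, B1.g25),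
     (5, B1.g53), (4, B1.g13), (4, B1.g29), (1, B1.g51), (15, B1.g11), (33, B1.g27), (84, B1.g7),
     (81, B1.g23), (2, B5.g32), (7, B5.g16), (4, B5.g84), (72, B5.g12), (1, B5.g124),
     (2, B5.g34), (3, B5.g54), (2, B5.g14), (8, B5.g121), (1, B3.g10), (4, B3.g41), (24, B3.g37),
     (6, B3.g75), (1, B3.g39)]),
   ((14, 14729291113129283), 321,
    [(1, B4.g2), (8, B2.g28), (31, B2.g26), (4, B2.g30), (34, B2.g1), (29, B2.g33), (9, B2.g17),
     (4, B2.g9), (29, B2.g5), (4, B2.g21), (34, B2.g13), (8, B2.g3), (26, B2.g19), (98, B2.g11),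
     (2, B2.g7), (3, B2.g23), (52, B2.g15), (3, B6.g78), (1, B6.g75), (15, B6.g71),
     (167, B1.g96), (107, B1.g16), (3, B1.g40), (17, B1.g104), (36, B1.g36), (72, B1.g100),
     (142, B1.g20), (91, B1.g34), (17, B1.g18), (13, B1.g106), (32, B1.g38), (37, B1.g102),
     (37, B1.g22), (223, B1.g14), (132, B1.g30), (70, B1.g33), (81, B1.g97), (18, B1.g49),
     (80, B1.g41), (22, B1.g25), (5, B1.g53), (59, B1.g45), (31, B1.g109), (4, B1.g29),
     (35, B1.g99), (116, B1.g19), (1, B1.g51), (45, B1.g43), (78, B1.g107), (33, B1.g27),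
     (81, B1.g23), (139, B1.g15), (3, B1.g47), (195, B1.g31), (53, B5.g40), (47, B5.g36),
     (42, B5.g100), (14, B5.g44), (6, B5.g42), (6, B5.g106), (8, B5.g102), (3, B5.g54),
     (2, B5.g46), (1, B5.g65), (2, B5.g49), (12, B5.g57), (36, B5.g37), (1, B5.g61), (4, B5.g51),
     (6, B5.g59), (10, B5.g39), (19, B5.g47), (1, B5.g63), (6, B3.g80), (2, B3.g72),
     (2, B3.g120), (22, B3.g68), (51, B3.g60), (1, B3.g124), (2, B3.g122), (1, B3.g70),
     (7, B3.g62), (5, B3.g65), (2, B3.g85), (2, B3.g117), (5, B3.g77), (11, B3.g67), (1, B3.g83),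
     (39, B3.g115), (6, B3.g75), (8, B3.g59), (2, B3.g119), (24, B3.g63)]),
   ((6, 3765297), 49,
    [(22, B0.g80), (149, B0.g40), (10, B0.g24), (58, B0.g4), (17, B0.g84), (79, B0.g76),
     (163, B0.g2), (114, B0.g18), (4, B0.g82), (23, B0.g42), (14, B0.g26), (20, B0.g6),
     (67, B0.g22), (2, B0.g86), (29, B0.g78), (32, B0.g21), (9, B0.g45), (70, B0.g3),
     (115, B0.g19), (48, B0.g43), (83, B0.g39), (25, B0.g47), (1, B4.g64), (9, B4.g56),
     (1, B4.g100), (6, B4.g20), (16, B4.g92), (17, B4.g18), (50, B4.g90), (1, B4.g58),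
     (8, B4.g54), (3, B4.g94), (4, B4.g97), (46, B4.g17), (14, B4.g25), (51, B4.g21),
     (3, B4.g61), (2, B4.g27), (5, B4.g23), (12, B2.g112), (4, B2.g52), (2, B2.g116),
     (8, B2.g28), (10, B2.g50), (1, B2.g114), (31, B2.g26), (21, B2.g46), (4, B2.g30),
     (29, B2.g33), (4, B2.g81), (2, B2.g49), (1, B2.g83), (2, B2.g119), (8, B2.g79), (8, B2.g47),
     (2, B6.g40), (5, B6.g1), (2, B6.g3), (6, B1.g88), (113, B1.g4), (35, B1.g84), (2, B1.g92),
     (69, B1.g82), (36, B1.g90), (86, B1.g6), (24, B1.g86), (7, B1.g94), (18, B1.g49),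
     (30, B1.g9), (80, B1.g41), (5, B1.g53), (4, B1.g13), (59, B1.g45), (417, B1.g3),
     (1, B1.g51), (15, B1.g11), (45, B1.g43), (84, B1.g7), (3, B1.g47), (1, B5.g0), (2, B5.g32),
     (4, B5.g28), (1, B5.g2), (2, B5.g34), (8, B5.g26), (1, B5.g97), (29, B3.g52), (1, B3.g25),
     (2, B3.g85), (1, B3.g55)]),
   ((12, 58563578258737), 193,
    [(1, B0.g64), (22, B0.g80), (34, B0.g68), (17, B0.g84), (79, B0.g76), (17, B0.g60),
     (129, B0.g66), (4, B0.g82), (265, B0.g50), (65, B0.g58), (2, B0.g86), (141, B0.g54),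
     (29, B0.g78), (16, B0.g62), (152, B0.g65), (326, B0.g49), (33, B0.g73), (24, B0.g57),
     (97, B0.g69), (48, B0.g53), (91, B0.g51), (4, B0.g75), (28, B0.g71), (67, B0.g55),
     (23, B4.g112), (7, B4.g104), (1, B4.g116), (1, B4.g2), (11, B4.g114), (16, B4.g102),
     (10, B4.g105), (66, B4.g121), (56, B4.g101), (1, B4.g109), (11, B4.g107), (2, B4.g123),
     (1, B4.g119), (1, B4.g111), (8, B2.g28), (31, B2.g26), (25, B2.g122), (4, B2.g30),
     (36, B2.g126), (34, B2.g1), (29, B2.g33), (9, B2.g17), (4, B2.g9), (29, B2.g5), (4, B2.g21),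
     (34, B2.g13), (3, B2.g125), (8, B2.g3), (26, B2.g19), (98, B2.g11), (10, B2.g123),
     (2, B2.g7), (3, B2.g23), (52, B2.g15), (1, B6.g48), (4, B6.g42), (167, B1.g96),
     (17, B1.g104), (72, B1.g100), (13, B1.g106), (37, B1.g102), (81, B1.g97), (31, B1.g109),
     (35, B1.g99), (78, B1.g107), (1, B5.g0), (42, B5.g100), (1, B5.g2), (6, B5.g106),
     (8, B5.g102), (1, B3.g0), (2, B3.g120), (5, B3.g4), (1, B3.g124), (3, B3.g2), (1, B3.g10),
     (2, B3.g122), (4, B3.g17), (1, B3.g25), (1, B3.g21), (2, B3.g117), (66, B3.g13),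
     (39, B3.g115), (1, B3.g7), (2, B3.g119), (3, B3.g15)]),
   ((4, 38464), 42,
    [(181, B0.g96), (402, B0.g16), (32, B0.g48), (10, B0.g24), (15, B0.g88), (138, B0.g44),
     (108, B0.g74), (20, B0.g6), (191, B0.g70), (29, B0.g38), (2, B0.g86), (106, B0.g14),
     (157, B0.g1), (37, B0.g17), (258, B0.g5), (295, B0.g37), (52, B0.g85), (9, B0.g45),
     (70, B0.g3), (116, B0.g35), (4, B0.g75), (84, B0.g27), (28, B0.g71), (135, B0.g23),
     (2, B4.g16), (35, B4.g48), (4, B4.g88), (154, B4.g84), (5, B4.g52), (1, B4.g98),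
     (6, B4.g26), (44, B4.g22), (3, B4.g62), (3, B4.g49), (1, B4.g89), (3, B4.g85), (1, B4.g53),
     (64, B4.g13), (2, B4.g27), (5, B4.g23), (62, B4.g15), (9, B2.g24), (2, B2.g120),
     (100, B2.g20), (4, B2.g52), (34, B2.g44), (1, B2.g108), (46, B2.g34), (8, B2.g42),
     (5, B2.g86), (3, B2.g54), (2, B2.g78), (4, B2.g21), (2, B2.g45), (40, B2.g51), (7, B2.g75),
     (29, B2.g107), (11, B2.g111), (1, B6.g68), (3, B6.g6), (90, B1.g80), (199, B1.g8),
     (3, B1.g40), (36, B1.g36), (43, B1.g12), (236, B1.g76), (2, B1.g92), (29, B1.g2),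
     (34, B1.g50), (3, B1.g54), (318, B1.g1), (5, B1.g81), (30, B1.g9), (4, B1.g13),
     (32, B1.g77), (166, B1.g35), (1, B1.g51), (71, B1.g91), (87, B1.g39), (4, B1.g95),
     (2, B5.g66), (83, B5.g22), (1, B5.g94), (12, B5.g25), (2, B5.g93), (1, B5.g35),
     (10, B5.g23), (17, B5.g127), (5, B3.g48), (2, B3.g20), (1, B3.g49), (1, B3.g21),
     (1, B3.g23), (1, B3.g111)]),
   ((16, 3761987165940503600), 386,
    [(1, B4.g2), (49, B2.g16), (9, B2.g24), (100, B2.g20), (109, B2.g12), (8, B2.g28),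
     (87, B2.g2), (46, B2.g34), (5, B2.g10), (73, B2.g6), (9, B2.g17), (4, B2.g21), (34, B2.g13),
     (8, B2.g3), (52, B2.g27), (2, B2.g7), (5, B2.g31), (1, B6.g82), (167, B1.g96), (90, B1.g80),
     (6, B1.g88), (176, B1.g56), (35, B1.g84), (236, B1.g76), (162, B1.g108), (2, B1.g92),
     (120, B1.g60), (19, B1.g66), (252, B1.g98), (47, B1.g74), (13, B1.g106), (206, B1.g58),
     (6, B1.g70), (37, B1.g102), (372, B1.g62), (113, B1.g65), (5, B1.g81), (317, B1.g73),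
     (58, B1.g105), (63, B1.g69), (230, B1.g101), (32, B1.g77), (31, B1.g109), (35, B1.g99),
     (187, B1.g83), (71, B1.g91), (36, B1.g59), (91, B1.g71), (109, B1.g87), (148, B1.g55),
     (4, B1.g95), (51, B1.g63), (2, B5.g80), (22, B5.g72), (1, B5.g104), (6, B5.g88),
     (2, B5.g76), (6, B5.g98), (87, B5.g70), (8, B5.g102), (2, B5.g110), (1, B5.g94),
     (3, B5.g73), (29, B5.g101), (2, B5.g93), (11, B5.g75), (1, B5.g107), (8, B5.g91),
     (32, B5.g87), (13, B5.g79), (15, B3.g104), (12, B3.g88), (2, B3.g120), (21, B3.g116),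
     (1, B3.g108), (1, B3.g124), (5, B3.g98), (21, B3.g90), (14, B3.g94), (2, B3.g105),
     (2, B3.g117), (37, B3.g93), (7, B3.g99), (2, B3.g91), (2, B3.g123), (1, B3.g111),
     (1, B3.g127)]),
   ((6, 6489921), 50,
    [(32, B0.g48), (10, B0.g24), (15, B0.g88), (282, B0.g20), (138, B0.g44), (163, B0.g2),
     (114, B0.g18), (4, B0.g82), (23, B0.g42), (20, B0.g6), (2, B0.g86), (29, B0.g78),
     (51, B0.g81), (313, B0.g41), (258, B0.g5), (32, B0.g21), (52, B0.g85), (243, B0.g77),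
     (9, B0.g45), (70, B0.g3), (84, B0.g27), (83, B0.g39), (135, B0.g23), (9, B4.g56),
     (6, B4.g20), (16, B4.g92), (1, B4.g98), (6, B4.g26), (44, B4.g22), (3, B4.g62),
     (46, B4.g17), (68, B4.g19), (2, B4.g27), (63, B4.g91), (22, B4.g59), (5, B4.g23),
     (29, B4.g55), (4, B4.g95), (54, B2.g80), (17, B2.g48), (2, B2.g120), (5, B2.g84),
     (4, B2.g52), (8, B2.g28), (46, B2.g34), (1, B2.g114), (5, B2.g86), (3, B2.g54),
     (21, B2.g46), (4, B2.g81), (2, B2.g49), (19, B2.g113), (2, B2.g117), (40, B2.g51),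
     (52, B2.g27), (5, B2.g31), (12, B6.g2), (3, B6.g6), (2, B6.g25), (2, B6.g3), (199, B1.g8),
     (6, B1.g88), (35, B1.g84), (43, B1.g12), (2, B1.g92), (34, B1.g50), (167, B1.g42),
     (86, B1.g6), (3, B1.g54), (82, B1.g46), (30, B1.g9), (315, B1.g5), (4, B1.g13),
     (417, B1.g3), (187, B1.g83), (1, B1.g51), (45, B1.g43), (71, B1.g91), (109, B1.g87),
     (3, B1.g47), (4, B1.g95), (4, B5.g28), (1, B5.g2), (6, B5.g98), (4, B5.g30), (22, B5.g1),
     (3, B5.g69), (1, B5.g35), (58, B5.g27), (1, B3.g56), (4, B3.g26), (1, B3.g86), (4, B3.g53)]),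
   ((14, 18951415754487377), 194,
    [(1, B0.g64), (15, B0.g88), (288, B0.g56), (34, B0.g68), (242, B0.g52), (17, B0.g60),
     (4, B0.g82), (265, B0.g50), (108, B0.g74), (191, B0.g70), (2, B0.g86), (141, B0.g54),
     (29, B0.g78), (152, B0.g65), (51, B0.g81), (326, B0.g49), (24, B0.g57), (52, B0.g85),
     (48, B0.g53), (243, B0.g77), (300, B0.g67), (4, B0.g75), (126, B0.g59), (28, B0.g71),
     (67, B0.g63), (7, B4.g104), (1, B4.g2), (11, B4.g114), (92, B4.g106), (32, B4.g122),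
     (5, B4.g110), (44, B4.g113), (56, B4.g101), (12, B4.g117), (2, B4.g125), (11, B4.g107),
     (2, B4.g123), (28, B4.g103), (1, B4.g111), (49, B2.g16), (9, B2.g24), (100, B2.g20),
     (109, B2.g12), (8, B2.g28), (8, B2.g124), (87, B2.g2), (46, B2.g34), (5, B2.g10),
     (25, B2.g122), (73, B2.g6), (9, B2.g17), (4, B2.g21), (34, B2.g13), (3, B2.g125),
     (8, B2.g3), (52, B2.g27), (2, B2.g7), (5, B2.g31), (25, B2.g127), (8, B6.g43),
     (167, B1.g96), (162, B1.g108), (252, B1.g98), (13, B1.g106), (37, B1.g102), (58, B1.g105),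
     (230, B1.g101), (31, B1.g109), (35, B1.g99), (1, B5.g104), (1, B5.g2), (8, B5.g102),
     (2, B5.g110), (22, B5.g1), (29, B5.g101), (1, B5.g107), (1, B3.g0), (1, B3.g8),
     (2, B3.g120), (2, B3.g20), (21, B3.g116), (1, B3.g124), (3, B3.g18), (4, B3.g26),
     (19, B3.g14), (9, B3.g5), (1, B3.g21), (2, B3.g117), (2, B3.g3), (1, B3.g11), (2, B3.g123),
     (1, B3.g23), (3, B3.g15), (1, B3.g127)]),
   ((6, 7750416), 44,
    [(402, B0.g16), (32, B0.g48), (247, B0.g72), (15, B0.g88), (58, B0.g4), (199, B0.g36),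
     (108, B0.g74), (14, B0.g26), (20, B0.g6), (29, B0.g38), (209, B0.g46), (157, B0.g1),
     (37, B0.g17), (33, B0.g73), (199, B0.g25), (258, B0.g5), (295, B0.g37), (4, B0.g75),
     (84, B0.g27), (105, B0.g87), (86, B0.g15), (25, B0.g47), (1, B4.g64), (2, B4.g16),
     (81, B4.g24), (4, B4.g88), (1, B4.g100), (5, B4.g52), (53, B4.g50), (6, B4.g26),
     (26, B4.g86), (24, B4.g14), (14, B4.g25), (1, B4.g89), (1, B4.g5), (1, B4.g53), (2, B4.g99),
     (1, B4.g51), (2, B4.g27), (1, B4.g87), (62, B4.g15), (11, B4.g63), (9, B2.g24),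
     (47, B2.g76), (34, B2.g44), (63, B2.g22), (3, B2.g54), (2, B2.g78), (6, B2.g110),
     (5, B2.g121), (58, B2.g53), (7, B2.g77), (2, B2.g45), (153, B2.g109), (63, B2.g35),
     (14, B2.g43), (3, B2.g23), (4, B2.g87), (11, B2.g111), (19, B6.g0), (4, B6.g38),
     (2, B6.g69), (5, B6.g7), (88, B1.g0), (90, B1.g80), (3, B1.g40), (79, B1.g52), (43, B1.g12),
     (29, B1.g2), (202, B1.g10), (32, B1.g38), (3, B1.g54), (221, B1.g78), (7, B1.g94),
     (318, B1.g1), (5, B1.g81), (195, B1.g37), (5, B1.g53), (4, B1.g13), (81, B1.g93),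
     (15, B1.g11), (87, B1.g39), (21, B1.g79), (4, B1.g95), (61, B5.g24), (2, B5.g34),
     (8, B5.g33), (12, B5.g25), (4, B5.g67), (1, B5.g35), (5, B5.g95), (5, B3.g112), (3, B3.g82),
     (14, B3.g50), (2, B3.g58), (3, B3.g22), (1, B3.g83), (2, B3.g51), (1, B3.g23)]),
   ((14, 23703633412903952), 388,
    [(1, B4.g5), (2, B4.g3), (162, B2.g0), (49, B2.g16), (78, B2.g8), (9, B2.g24), (87, B2.g2),
     (5, B2.g10), (63, B2.g22), (233, B2.g14), (4, B2.g30), (34, B2.g1), (9, B2.g17), (4, B2.g9),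
     (95, B2.g29), (8, B2.g3), (63, B2.g35), (3, B2.g23), (52, B2.g15), (5, B2.g31),
     (90, B1.g80), (147, B1.g72), (17, B1.g104), (6, B1.g88), (33, B1.g68), (252, B1.g98),
     (47, B1.g74), (13, B1.g106), (206, B1.g58), (6, B1.g70), (24, B1.g86), (221, B1.g78),
     (7, B1.g94), (372, B1.g62), (81, B1.g97), (5, B1.g81), (317, B1.g73), (58, B1.g105),
     (61, B1.g57), (63, B1.g69), (212, B1.g85), (81, B1.g93), (44, B1.g61), (145, B1.g67),
     (35, B1.g99), (36, B1.g59), (118, B1.g103), (109, B1.g87), (148, B1.g55), (21, B1.g79),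
     (4, B1.g95), (51, B1.g63), (22, B5.g72), (1, B5.g104), (2, B5.g108), (1, B5.g82),
     (1, B5.g90), (57, B5.g81), (3, B5.g73), (58, B5.g89), (1, B5.g85), (41, B5.g77),
     (2, B5.g99), (8, B5.g91), (6, B5.g71), (10, B5.g103), (1, B5.g111), (5, B5.g95),
     (1, B3.g96), (5, B3.g112), (2, B3.g120), (3, B3.g100), (1, B3.g108), (4, B3.g106),
     (21, B3.g90), (9, B3.g118), (14, B3.g89), (1, B3.g101), (4, B3.g125), (1, B3.g107),
     (2, B3.g91), (2, B3.g119), (12, B3.g95)]),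
   ((8, 1620534032), 28,
    [(79, B0.g0), (1, B0.g64), (120, B0.g32), (32, B0.g48), (15, B0.g88), (58, B0.g4),
     (11, B0.g12), (135, B0.g92), (102, B0.g10), (14, B0.g26), (20, B0.g6), (209, B0.g46),
     (22, B0.g94), (16, B0.g62), (15, B0.g33), (199, B0.g25), (258, B0.g5), (185, B0.g93),
     (167, B0.g61), (261, B0.g11), (84, B0.g27), (105, B0.g87), (25, B0.g47), (110, B0.g31),
     (67, B0.g63), (1, B4.g64), (91, B4.g40), (81, B4.g24), (2, B4.g120), (1, B4.g100),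
     (59, B4.g10), (5, B4.g42), (6, B4.g26), (9, B4.g78), (70, B4.g9), (14, B4.g41),
     (14, B4.g25), (43, B4.g77), (2, B4.g99), (4, B4.g11), (2, B4.g27), (11, B4.g63),
     (78, B2.g8), (15, B2.g40), (1, B2.g68), (2, B2.g100), (5, B2.g10), (3, B2.g54), (4, B2.g9),
     (5, B2.g121), (3, B2.g69), (2, B2.g101), (58, B2.g53), (48, B2.g67), (63, B2.g35),
     (33, B2.g99), (19, B2.g39), (4, B2.g87), (1, B6.g19), (5, B6.g7), (33, B1.g68),
     (79, B1.g52), (43, B1.g12), (45, B1.g28), (202, B1.g10), (329, B1.g26), (6, B1.g70),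
     (3, B1.g54), (7, B1.g94), (63, B1.g69), (5, B1.g53), (4, B1.g13), (4, B1.g29), (81, B1.g93),
     (145, B1.g67), (15, B1.g11), (33, B1.g27), (4, B1.g95), (7, B5.g16), (4, B5.g56),
     (1, B5.g124), (2, B5.g34), (8, B5.g33), (1, B5.g85), (1, B5.g35), (19, B5.g123),
     (114, B5.g15), (15, B3.g40), (1, B3.g12), (4, B3.g42), (2, B3.g58), (4, B3.g41)]),
   ((14, 19495875545289744), 324,
    [(1, B4.g5), (2, B4.g3), (162, B2.g0), (49, B2.g16), (78, B2.g8), (9, B2.g24), (87, B2.g2),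
     (5, B2.g10), (63, B2.g22), (233, B2.g14), (4, B2.g30), (34, B2.g1), (9, B2.g17), (4, B2.g9),
     (95, B2.g29), (8, B2.g3), (63, B2.g35), (3, B2.g23), (52, B2.g15), (5, B2.g31), (7, B6.g73),
     (242, B1.g32), (107, B1.g16), (3, B1.g40), (17, B1.g104), (142, B1.g20), (79, B1.g52),
     (153, B1.g44), (45, B1.g28), (252, B1.g98), (17, B1.g18), (13, B1.g106), (329, B1.g26),
     (32, B1.g38), (37, B1.g22), (3, B1.g54), (223, B1.g14), (82, B1.g46), (70, B1.g33),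
     (81, B1.g97), (233, B1.g17), (58, B1.g105), (195, B1.g37), (259, B1.g21), (5, B1.g53),
     (59, B1.g45), (4, B1.g29), (35, B1.g99), (33, B1.g27), (87, B1.g39), (118, B1.g103),
     (3, B1.g47), (195, B1.g31), (1, B5.g104), (4, B5.g56), (1, B5.g52), (14, B5.g44),
     (2, B5.g108), (10, B5.g60), (14, B5.g50), (43, B5.g38), (2, B5.g46), (3, B5.g62),
     (36, B5.g37), (1, B5.g45), (1, B5.g61), (4, B5.g67), (4, B5.g51), (24, B5.g43),
     (10, B5.g39), (10, B5.g103), (1, B5.g111), (1, B5.g63), (6, B3.g80), (2, B3.g72),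
     (2, B3.g120), (51, B3.g60), (14, B3.g66), (3, B3.g82), (9, B3.g118), (7, B3.g62),
     (2, B3.g73), (5, B3.g61), (4, B3.g125), (11, B3.g67), (1, B3.g83), (19, B3.g71),
     (2, B3.g119), (18, B3.g79)])]

/-- lights 26 -/
noncomputable def plB_26 : List ((ℕ × ℕ) × ℕ × List (ℕ × ℕ)) :=
  [((0, 0), 26,
    [(79, B0.g0), (1, B0.g64), (120, B0.g32), (32, B0.g48), (10, B0.g24), (15, B0.g88),
     (11, B0.g12), (138, B0.g44), (17, B0.g60), (20, B0.g6), (2, B0.g86), (97, B0.g30),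
     (22, B0.g94), (15, B0.g33), (50, B0.g9), (258, B0.g5), (52, B0.g85), (9, B0.g45),
     (185, B0.g93), (70, B0.g3), (261, B0.g11), (84, B0.g27), (128, B0.g91), (126, B0.g59),
     (135, B0.g23), (67, B0.g63), (40, B4.g8), (5, B4.g76), (1, B4.g98), (59, B4.g10),
     (5, B4.g42), (6, B4.g26), (42, B4.g38), (44, B4.g22), (3, B4.g62), (4, B4.g11), (8, B4.g75),
     (2, B4.g27), (4, B4.g39), (5, B4.g23), (15, B2.g40), (2, B2.g120), (4, B2.g52), (4, B2.g66),
     (46, B2.g34), (1, B2.g98), (5, B2.g10), (73, B2.g6), (26, B2.g38), (5, B2.g86), (3, B2.g54),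
     (82, B2.g65), (61, B2.g97), (3, B2.g69), (2, B2.g101), (40, B2.g51), (2, B2.g7),
     (3, B6.g18), (3, B6.g6), (199, B1.g8), (121, B1.g24), (43, B1.g12), (45, B1.g28),
     (2, B1.g92), (19, B1.g66), (34, B1.g50), (6, B1.g70), (3, B1.g54), (113, B1.g65),
     (30, B1.g9), (22, B1.g25), (63, B1.g69), (4, B1.g13), (4, B1.g29), (1, B1.g51),
     (71, B1.g91), (4, B1.g95), (13, B5.g122), (2, B5.g14), (15, B5.g13), (1, B5.g35),
     (1, B5.g55), (1, B3.g76), (4, B3.g42), (20, B3.g38), (1, B3.g11), (1, B3.g39)]),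
   ((14, 14729291113129283), 322,
    [(1, B4.g2), (49, B2.g16), (9, B2.g24), (100, B2.g20), (109, B2.g12), (8, B2.g28),
     (87, B2.g2), (46, B2.g34), (5, B2.g10), (73, B2.g6), (9, B2.g17), (4, B2.g21), (34, B2.g13),
     (8, B2.g3), (52, B2.g27), (2, B2.g7), (5, B2.g31), (7, B6.g72), (1, B6.g76), (3, B6.g79),
     (242, B1.g32), (167, B1.g96), (3, B1.g40), (121, B1.g24), (36, B1.g36), (162, B1.g108),
     (45, B1.g28), (252, B1.g98), (17, B1.g18), (34, B1.g50), (167, B1.g42), (13, B1.g106),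
     (37, B1.g102), (37, B1.g22), (3, B1.g54), (223, B1.g14), (82, B1.g46), (132, B1.g30),
     (70, B1.g33), (233, B1.g17), (58, B1.g105), (22, B1.g25), (230, B1.g101), (259, B1.g21),
     (31, B1.g109), (4, B1.g29), (166, B1.g35), (35, B1.g99), (116, B1.g19), (1, B1.g51),
     (45, B1.g43), (87, B1.g39), (139, B1.g15), (3, B1.g47), (71, B5.g48), (1, B5.g104),
     (47, B5.g36), (1, B5.g52), (2, B5.g66), (6, B5.g42), (41, B5.g58), (43, B5.g38),
     (8, B5.g102), (2, B5.g46), (2, B5.g110), (3, B5.g62), (2, B5.g49), (55, B5.g41),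
     (3, B5.g69), (29, B5.g101), (1, B5.g45), (1, B5.g107), (6, B5.g59), (10, B5.g39),
     (1, B5.g55), (1, B5.g63), (9, B3.g64), (2, B3.g120), (21, B3.g116), (1, B3.g76),
     (1, B3.g124), (1, B3.g70), (1, B3.g86), (10, B3.g78), (7, B3.g62), (5, B3.g65), (2, B3.g73),
     (8, B3.g69), (2, B3.g117), (5, B3.g61), (8, B3.g59), (2, B3.g123), (1, B3.g127)]),
   ((6, 3765297), 52,
    [(22, B0.g80), (32, B0.g48), (149, B0.g40), (15, B0.g88), (58, B0.g4), (282, B0.g20),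
     (163, B0.g2), (4, B0.g82), (23, B0.g42), (14, B0.g26), (20, B0.g6), (209, B0.g46),
     (51, B0.g81), (313, B0.g41), (199, B0.g25), (258, B0.g5), (32, B0.g21), (115, B0.g19),
     (84, B0.g27), (105, B0.g87), (195, B0.g79), (25, B0.g47), (1, B4.g64), (81, B4.g24),
     (1, B4.g100), (6, B4.g20), (17, B4.g18), (6, B4.g26), (1, B4.g58), (3, B4.g94),
     (14, B4.g25), (5, B4.g57), (7, B4.g93), (2, B4.g99), (68, B4.g19), (2, B4.g27),
     (22, B4.g59), (4, B4.g95), (11, B4.g63), (17, B2.g48), (5, B2.g84), (2, B2.g116),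
     (36, B2.g82), (3, B2.g54), (4, B2.g30), (2, B2.g49), (5, B2.g121), (58, B2.g53),
     (2, B2.g117), (95, B2.g29), (63, B2.g35), (1, B2.g83), (14, B2.g115), (4, B2.g87),
     (8, B2.g47), (5, B2.g31), (23, B6.g4), (5, B6.g7), (6, B1.g88), (113, B1.g4), (79, B1.g52),
     (43, B1.g12), (153, B1.g44), (202, B1.g10), (86, B1.g6), (24, B1.g86), (3, B1.g54),
     (82, B1.g46), (7, B1.g94), (315, B1.g5), (212, B1.g85), (5, B1.g53), (4, B1.g13),
     (59, B1.g45), (81, B1.g93), (15, B1.g11), (109, B1.g87), (3, B1.g47), (4, B1.g95),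
     (2, B5.g34), (4, B5.g30), (8, B5.g33), (5, B5.g29), (1, B5.g35), (2, B5.g99), (1, B3.g56),
     (2, B3.g58), (6, B3.g54), (1, B3.g55)]),
   ((12, 58563578258737), 196,
    [(1, B0.g64), (22, B0.g80), (247, B0.g72), (15, B0.g88), (288, B0.g56), (34, B0.g68),
     (242, B0.g52), (129, B0.g66), (4, B0.g82), (108, B0.g74), (16, B0.g62), (51, B0.g81),
     (326, B0.g49), (33, B0.g73), (24, B0.g57), (48, B0.g53), (167, B0.g61), (300, B0.g67),
     (91, B0.g51), (4, B0.g75), (105, B0.g87), (67, B0.g55), (195, B0.g79), (67, B0.g63),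
     (7, B4.g104), (2, B4.g120), (1, B4.g116), (12, B4.g108), (121, B4.g124), (16, B4.g102),
     (5, B4.g110), (1, B4.g5), (12, B4.g117), (1, B4.g109), (2, B4.g125), (2, B4.g3),
     (39, B4.g115), (28, B4.g103), (1, B4.g111), (162, B2.g0), (49, B2.g16), (78, B2.g8),
     (9, B2.g24), (8, B2.g124), (87, B2.g2), (5, B2.g10), (63, B2.g22), (233, B2.g14),
     (4, B2.g30), (34, B2.g1), (9, B2.g17), (4, B2.g9), (95, B2.g29), (3, B2.g125), (8, B2.g3),
     (63, B2.g35), (10, B2.g123), (3, B2.g23), (52, B2.g15), (5, B2.g31), (26, B6.g44),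
     (1, B6.g46), (17, B1.g104), (252, B1.g98), (13, B1.g106), (81, B1.g97), (58, B1.g105),
     (35, B1.g99), (118, B1.g103), (1, B5.g104), (2, B5.g108), (10, B5.g103), (1, B5.g111),
     (23, B3.g16), (1, B3.g8), (2, B3.g120), (1, B3.g12), (3, B3.g2), (3, B3.g18), (6, B3.g6),
     (3, B3.g22), (9, B3.g118), (19, B3.g1), (4, B3.g17), (4, B3.g125), (2, B3.g3), (1, B3.g7),
     (1, B3.g23), (2, B3.g119)]),
   ((4, 38464), 41,
    [(181, B0.g96), (10, B0.g24), (58, B0.g4), (199, B0.g36), (17, B0.g84), (14, B0.g26),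
     (20, B0.g6), (29, B0.g38), (67, B0.g22), (2, B0.g86), (106, B0.g14), (157, B0.g1),
     (37, B0.g17), (33, B0.g73), (97, B0.g69), (9, B0.g45), (70, B0.g3), (116, B0.g35),
     (4, B0.g75), (48, B0.g43), (28, B0.g71), (86, B0.g15), (25, B0.g47), (1, B4.g64),
     (2, B4.g16), (1, B4.g100), (24, B4.g14), (4, B4.g97), (3, B4.g49), (14, B4.g25),
     (1, B4.g89), (51, B4.g21), (3, B4.g85), (1, B4.g53), (64, B4.g13), (3, B4.g61),
     (10, B4.g83), (1, B4.g51), (2, B4.g27), (5, B4.g23), (1, B4.g87), (70, B4.g47), (4, B2.g52),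
     (1, B2.g108), (10, B2.g50), (43, B2.g74), (8, B2.g42), (16, B2.g106), (6, B2.g110),
     (29, B2.g33), (4, B2.g21), (7, B2.g77), (2, B2.g45), (26, B2.g19), (14, B2.g43),
     (3, B2.g23), (2, B2.g119), (88, B1.g0), (3, B1.g40), (36, B1.g36), (2, B1.g92), (29, B1.g2),
     (91, B1.g34), (36, B1.g90), (32, B1.g38), (7, B1.g94), (5, B1.g81), (18, B1.g49),
     (30, B1.g9), (5, B1.g53), (4, B1.g13), (32, B1.g77), (1, B1.g51), (15, B1.g11),
     (68, B1.g75), (84, B1.g7), (21, B1.g79), (2, B5.g32), (2, B5.g34), (1, B5.g94),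
     (3, B5.g126), (1, B5.g65), (38, B5.g21), (10, B5.g23), (3, B3.g110), (1, B3.g49),
     (1, B3.g21), (1, B3.g83), (2, B3.g51), (3, B3.g47)]),
   ((16, 3761987165940503600), 385,
    [(1, B4.g2), (8, B2.g28), (31, B2.g26), (4, B2.g30), (34, B2.g1), (29, B2.g33), (9, B2.g17),
     (4, B2.g9), (29, B2.g5), (4, B2.g21), (34, B2.g13), (8, B2.g3), (26, B2.g19), (98, B2.g11),
     (2, B2.g7), (3, B2.g23), (52, B2.g15), (1, B6.g81), (2, B6.g85), (43, B1.g64),
     (167, B1.g96), (147, B1.g72), (17, B1.g104), (6, B1.g88), (176, B1.g56), (33, B1.g68),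
     (72, B1.g100), (35, B1.g84), (2, B1.g92), (120, B1.g60), (19, B1.g66), (69, B1.g82),
     (47, B1.g74), (13, B1.g106), (36, B1.g90), (6, B1.g70), (37, B1.g102), (24, B1.g86),
     (7, B1.g94), (81, B1.g97), (5, B1.g81), (61, B1.g57), (32, B1.g77), (31, B1.g109),
     (44, B1.g61), (35, B1.g99), (68, B1.g75), (78, B1.g107), (36, B1.g59), (91, B1.g71),
     (148, B1.g55), (21, B1.g79), (51, B1.g63), (2, B5.g80), (6, B5.g88), (42, B5.g100),
     (4, B5.g84), (2, B5.g76), (1, B5.g82), (13, B5.g74), (6, B5.g106), (1, B5.g90),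
     (87, B5.g70), (8, B5.g102), (21, B5.g86), (88, B5.g78), (1, B5.g94), (1, B5.g97),
     (3, B5.g73), (6, B5.g71), (1, B3.g96), (12, B3.g88), (2, B3.g120), (27, B3.g92),
     (1, B3.g124), (2, B3.g122), (3, B3.g110), (14, B3.g94), (12, B3.g97), (2, B3.g105),
     (14, B3.g89), (1, B3.g101), (2, B3.g117), (7, B3.g99), (39, B3.g115), (1, B3.g107),
     (2, B3.g91), (34, B3.g103), (2, B3.g119)]),
   ((6, 6489921), 52,
    [(22, B0.g80), (32, B0.g48), (149, B0.g40), (15, B0.g88), (58, B0.g4), (282, B0.g20),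
     (163, B0.g2), (4, B0.g82), (23, B0.g42), (14, B0.g26), (20, B0.g6), (209, B0.g46),
     (51, B0.g81), (313, B0.g41), (199, B0.g25), (258, B0.g5), (32, B0.g21), (115, B0.g19),
     (84, B0.g27), (105, B0.g87), (195, B0.g79), (25, B0.g47), (1, B4.g64), (81, B4.g24),
     (1, B4.g100), (6, B4.g20), (17, B4.g18), (6, B4.g26), (1, B4.g58), (3, B4.g94),
     (14, B4.g25), (5, B4.g57), (7, B4.g93), (2, B4.g99), (68, B4.g19), (2, B4.g27),
     (22, B4.g59), (4, B4.g95), (11, B4.g63), (17, B2.g48), (5, B2.g84), (2, B2.g116),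
     (36, B2.g82), (3, B2.g54), (4, B2.g30), (2, B2.g49), (5, B2.g121), (58, B2.g53),
     (2, B2.g117), (95, B2.g29), (63, B2.g35), (1, B2.g83), (14, B2.g115), (4, B2.g87),
     (8, B2.g47), (5, B2.g31), (23, B6.g4), (5, B6.g7), (6, B1.g88), (113, B1.g4), (79, B1.g52),
     (43, B1.g12), (153, B1.g44), (202, B1.g10), (86, B1.g6), (24, B1.g86), (3, B1.g54),
     (82, B1.g46), (7, B1.g94), (315, B1.g5), (212, B1.g85), (5, B1.g53), (4, B1.g13),
     (59, B1.g45), (81, B1.g93), (15, B1.g11), (109, B1.g87), (3, B1.g47), (4, B1.g95),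
     (2, B5.g34), (4, B5.g30), (8, B5.g33), (5, B5.g29), (1, B5.g35), (2, B5.g99), (1, B3.g56),
     (2, B3.g58), (6, B3.g54), (1, B3.g55)]),
   ((14, 18951415754487377), 196,
    [(1, B0.g64), (22, B0.g80), (247, B0.g72), (15, B0.g88), (288, B0.g56), (34, B0.g68),
     (242, B0.g52), (129, B0.g66), (4, B0.g82), (108, B0.g74), (16, B0.g62), (51, B0.g81),
     (326, B0.g49), (33, B0.g73), (24, B0.g57), (48, B0.g53), (167, B0.g61), (300, B0.g67),
     (91, B0.g51), (4, B0.g75), (105, B0.g87), (67, B0.g55), (195, B0.g79), (67, B0.g63),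
     (7, B4.g104), (2, B4.g120), (1, B4.g116), (12, B4.g108), (121, B4.g124), (16, B4.g102),
     (5, B4.g110), (1, B4.g5), (12, B4.g117), (1, B4.g109), (2, B4.g125), (2, B4.g3),
     (39, B4.g115), (28, B4.g103), (1, B4.g111), (162, B2.g0), (49, B2.g16), (78, B2.g8),
     (9, B2.g24), (8, B2.g124), (87, B2.g2), (5, B2.g10), (63, B2.g22), (233, B2.g14),
     (4, B2.g30), (34, B2.g1), (9, B2.g17), (4, B2.g9), (95, B2.g29), (3, B2.g125), (8, B2.g3),
     (63, B2.g35), (10, B2.g123), (3, B2.g23), (52, B2.g15), (5, B2.g31), (26, B6.g44),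
     (1, B6.g46), (17, B1.g104), (252, B1.g98), (13, B1.g106), (81, B1.g97), (58, B1.g105),
     (35, B1.g99), (118, B1.g103), (1, B5.g104), (2, B5.g108), (10, B5.g103), (1, B5.g111),
     (23, B3.g16), (1, B3.g8), (2, B3.g120), (1, B3.g12), (3, B3.g2), (3, B3.g18), (6, B3.g6),
     (3, B3.g22), (9, B3.g118), (19, B3.g1), (4, B3.g17), (4, B3.g125), (2, B3.g3), (1, B3.g7),
     (1, B3.g23), (2, B3.g119)]),
   ((6, 7750416), 41,
    [(181, B0.g96), (10, B0.g24), (58, B0.g4), (199, B0.g36), (17, B0.g84), (14, B0.g26),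
     (20, B0.g6), (29, B0.g38), (67, B0.g22), (2, B0.g86), (106, B0.g14), (157, B0.g1),
     (37, B0.g17), (33, B0.g73), (97, B0.g69), (9, B0.g45), (70, B0.g3), (116, B0.g35),
     (4, B0.g75), (48, B0.g43), (28, B0.g71), (86, B0.g15), (25, B0.g47), (1, B4.g64),
     (2, B4.g16), (1, B4.g100), (24, B4.g14), (4, B4.g97), (3, B4.g49), (14, B4.g25),
     (1, B4.g89), (51, B4.g21), (3, B4.g85), (1, B4.g53), (64, B4.g13), (3, B4.g61),
     (10, B4.g83), (1, B4.g51), (2, B4.g27), (5, B4.g23), (1, B4.g87), (70, B4.g47), (4, B2.g52),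
     (1, B2.g108), (10, B2.g50), (43, B2.g74), (8, B2.g42), (16, B2.g106), (6, B2.g110),
     (29, B2.g33), (4, B2.g21), (7, B2.g77), (2, B2.g45), (26, B2.g19), (14, B2.g43),
     (3, B2.g23), (2, B2.g119), (88, B1.g0), (3, B1.g40), (36, B1.g36), (2, B1.g92), (29, B1.g2),
     (91, B1.g34), (36, B1.g90), (32, B1.g38), (7, B1.g94), (5, B1.g81), (18, B1.g49),
     (30, B1.g9), (5, B1.g53), (4, B1.g13), (32, B1.g77), (1, B1.g51), (15, B1.g11),
     (68, B1.g75), (84, B1.g7), (21, B1.g79), (2, B5.g32), (2, B5.g34), (1, B5.g94),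
     (3, B5.g126), (1, B5.g65), (38, B5.g21), (10, B5.g23), (3, B3.g110), (1, B3.g49),
     (1, B3.g21), (1, B3.g83), (2, B3.g51), (3, B3.g47)]),
   ((14, 23703633412903952), 385,
    [(1, B4.g2), (8, B2.g28), (31, B2.g26), (4, B2.g30), (34, B2.g1), (29, B2.g33), (9, B2.g17),
     (4, B2.g9), (29, B2.g5), (4, B2.g21), (34, B2.g13), (8, B2.g3), (26, B2.g19), (98, B2.g11),
     (2, B2.g7), (3, B2.g23), (52, B2.g15), (1, B6.g81), (2, B6.g85), (43, B1.g64),
     (167, B1.g96), (147, B1.g72), (17, B1.g104), (6, B1.g88), (176, B1.g56), (33, B1.g68),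
     (72, B1.g100), (35, B1.g84), (2, B1.g92), (120, B1.g60), (19, B1.g66), (69, B1.g82),
     (47, B1.g74), (13, B1.g106), (36, B1.g90), (6, B1.g70), (37, B1.g102), (24, B1.g86),
     (7, B1.g94), (81, B1.g97), (5, B1.g81), (61, B1.g57), (32, B1.g77), (31, B1.g109),
     (44, B1.g61), (35, B1.g99), (68, B1.g75), (78, B1.g107), (36, B1.g59), (91, B1.g71),
     (148, B1.g55), (21, B1.g79), (51, B1.g63), (2, B5.g80), (6, B5.g88), (42, B5.g100),
     (4, B5.g84), (2, B5.g76), (1, B5.g82), (13, B5.g74), (6, B5.g106), (1, B5.g90),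
     (87, B5.g70), (8, B5.g102), (21, B5.g86), (88, B5.g78), (1, B5.g94), (1, B5.g97),
     (3, B5.g73), (6, B5.g71), (1, B3.g96), (12, B3.g88), (2, B3.g120), (27, B3.g92),
     (1, B3.g124), (2, B3.g122), (3, B3.g110), (14, B3.g94), (12, B3.g97), (2, B3.g105),
     (14, B3.g89), (1, B3.g101), (2, B3.g117), (7, B3.g99), (39, B3.g115), (1, B3.g107),
     (2, B3.g91), (34, B3.g103), (2, B3.g119)]),
   ((8, 1620534032), 26,
    [(79, B0.g0), (1, B0.g64), (120, B0.g32), (32, B0.g48), (10, B0.g24), (15, B0.g88),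
     (11, B0.g12), (138, B0.g44), (17, B0.g60), (20, B0.g6), (2, B0.g86), (97, B0.g30),
     (22, B0.g94), (15, B0.g33), (50, B0.g9), (258, B0.g5), (52, B0.g85), (9, B0.g45),
     (185, B0.g93), (70, B0.g3), (261, B0.g11), (84, B0.g27), (128, B0.g91), (126, B0.g59),
     (135, B0.g23), (67, B0.g63), (40, B4.g8), (5, B4.g76), (1, B4.g98), (59, B4.g10),
     (5, B4.g42), (6, B4.g26), (42, B4.g38), (44, B4.g22), (3, B4.g62), (4, B4.g11), (8, B4.g75),
     (2, B4.g27), (4, B4.g39), (5, B4.g23), (15, B2.g40), (2, B2.g120), (4, B2.g52), (4, B2.g66),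
     (46, B2.g34), (1, B2.g98), (5, B2.g10), (73, B2.g6), (26, B2.g38), (5, B2.g86), (3, B2.g54),
     (82, B2.g65), (61, B2.g97), (3, B2.g69), (2, B2.g101), (40, B2.g51), (2, B2.g7),
     (3, B6.g18), (3, B6.g6), (199, B1.g8), (121, B1.g24), (43, B1.g12), (45, B1.g28),
     (2, B1.g92), (19, B1.g66), (34, B1.g50), (6, B1.g70), (3, B1.g54), (113, B1.g65),
     (30, B1.g9), (22, B1.g25), (63, B1.g69), (4, B1.g13), (4, B1.g29), (1, B1.g51),
     (71, B1.g91), (4, B1.g95), (13, B5.g122), (2, B5.g14), (15, B5.g13), (1, B5.g35),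
     (1, B5.g55), (1, B3.g76), (4, B3.g42), (20, B3.g38), (1, B3.g11), (1, B3.g39)]),
   ((14, 19495875545289744), 322,
    [(1, B4.g2), (49, B2.g16), (9, B2.g24), (100, B2.g20), (109, B2.g12), (8, B2.g28),
     (87, B2.g2), (46, B2.g34), (5, B2.g10), (73, B2.g6), (9, B2.g17), (4, B2.g21), (34, B2.g13),
     (8, B2.g3), (52, B2.g27), (2, B2.g7), (5, B2.g31), (7, B6.g72), (1, B6.g76), (3, B6.g79),
     (242, B1.g32), (167, B1.g96), (3, B1.g40), (121, B1.g24), (36, B1.g36), (162, B1.g108),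
     (45, B1.g28), (252, B1.g98), (17, B1.g18), (34, B1.g50), (167, B1.g42), (13, B1.g106),
     (37, B1.g102), (37, B1.g22), (3, B1.g54), (223, B1.g14), (82, B1.g46), (132, B1.g30),
     (70, B1.g33), (233, B1.g17), (58, B1.g105), (22, B1.g25), (230, B1.g101), (259, B1.g21),
     (31, B1.g109), (4, B1.g29), (166, B1.g35), (35, B1.g99), (116, B1.g19), (1, B1.g51),
     (45, B1.g43), (87, B1.g39), (139, B1.g15), (3, B1.g47), (71, B5.g48), (1, B5.g104),
     (47, B5.g36), (1, B5.g52), (2, B5.g66), (6, B5.g42), (41, B5.g58), (43, B5.g38),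
     (8, B5.g102), (2, B5.g46), (2, B5.g110), (3, B5.g62), (2, B5.g49), (55, B5.g41),
     (3, B5.g69), (29, B5.g101), (1, B5.g45), (1, B5.g107), (6, B5.g59), (10, B5.g39),
     (1, B5.g55), (1, B5.g63), (9, B3.g64), (2, B3.g120), (21, B3.g116), (1, B3.g76),
     (1, B3.g124), (1, B3.g70), (1, B3.g86), (10, B3.g78), (7, B3.g62), (5, B3.g65), (2, B3.g73),
     (8, B3.g69), (2, B3.g117), (5, B3.g61), (8, B3.g59), (2, B3.g123), (1, B3.g127)])]

/-- lights 56 -/
noncomputable def plB_56 : List ((ℕ × ℕ) × ℕ × List (ℕ × ℕ)) :=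
  [((0, 0), 56,
    [(32, B0.g48), (10, B0.g24), (15, B0.g88), (58, B0.g4), (17, B0.g84), (138, B0.g44),
     (14, B0.g26), (20, B0.g6), (67, B0.g22), (2, B0.g86), (209, B0.g46), (199, B0.g25),
     (258, B0.g5), (52, B0.g85), (9, B0.g45), (70, B0.g3), (266, B0.g83), (48, B0.g43),
     (84, B0.g27), (135, B0.g23), (105, B0.g87), (25, B0.g47), (1, B4.g64), (25, B4.g96),
     (81, B4.g24), (1, B4.g100), (40, B4.g60), (1, B4.g98), (6, B4.g26), (44, B4.g22),
     (3, B4.g62), (4, B4.g97), (14, B4.g25), (51, B4.g21), (3, B4.g61), (2, B4.g99), (2, B4.g27),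
     (5, B4.g23), (11, B4.g63), (225, B2.g32), (2, B2.g120), (4, B2.g52), (46, B2.g34),
     (10, B2.g50), (5, B2.g86), (3, B2.g54), (34, B2.g118), (29, B2.g33), (5, B2.g121),
     (84, B2.g85), (58, B2.g53), (63, B2.g35), (40, B2.g51), (4, B2.g87), (2, B2.g119),
     (1, B6.g26), (3, B6.g6), (4, B6.g41), (90, B6.g5), (5, B6.g7), (176, B1.g48), (199, B1.g8),
     (79, B1.g52), (43, B1.g12), (2, B1.g92), (34, B1.g50), (202, B1.g10), (36, B1.g90),
     (3, B1.g54), (7, B1.g94), (18, B1.g49), (30, B1.g9), (242, B1.g89), (5, B1.g53),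
     (4, B1.g13), (81, B1.g93), (1, B1.g51), (15, B1.g11), (71, B1.g91), (84, B1.g7),
     (4, B1.g95), (2, B5.g32), (2, B5.g34), (8, B5.g33), (4, B5.g3), (1, B5.g35), (26, B5.g31),
     (7, B3.g114), (2, B3.g58), (21, B3.g57), (25, B3.g27), (15, B3.g87)]),
   ((14, 14729291113129283), 448,
    [(2, B4.g0), (1, B4.g4), (1, B4.g2), (11, B4.g1), (1, B4.g5), (2, B4.g3), (162, B2.g0),
     (225, B2.g32), (49, B2.g16), (78, B2.g8), (9, B2.g24), (288, B2.g4), (100, B2.g20),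
     (109, B2.g12), (8, B2.g28), (87, B2.g2), (46, B2.g34), (273, B2.g18), (5, B2.g10),
     (31, B2.g26), (73, B2.g6), (63, B2.g22), (233, B2.g14), (4, B2.g30), (34, B2.g1),
     (29, B2.g33), (9, B2.g17), (4, B2.g9), (370, B2.g25), (29, B2.g5), (4, B2.g21),
     (34, B2.g13), (95, B2.g29), (8, B2.g3), (63, B2.g35), (26, B2.g19), (98, B2.g11),
     (52, B2.g27), (2, B2.g7), (3, B2.g23), (52, B2.g15), (5, B2.g31), (61, B6.g86),
     (167, B1.g96), (17, B1.g104), (72, B1.g100), (162, B1.g108), (252, B1.g98), (13, B1.g106),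
     (37, B1.g102), (81, B1.g97), (58, B1.g105), (230, B1.g101), (31, B1.g109), (35, B1.g99),
     (78, B1.g107), (118, B1.g103), (2, B5.g112), (1, B5.g104), (42, B5.g100), (2, B5.g108),
     (12, B5.g114), (6, B5.g106), (8, B5.g102), (2, B5.g110), (33, B5.g113), (19, B5.g105),
     (29, B5.g101), (46, B5.g109), (1, B5.g115), (1, B5.g107), (10, B5.g103), (1, B5.g111),
     (2, B3.g120), (21, B3.g116), (1, B3.g124), (2, B3.g122), (9, B3.g118), (3, B3.g126),
     (11, B3.g121), (2, B3.g117), (4, B3.g125), (39, B3.g115), (2, B3.g123), (2, B3.g119),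
     (1, B3.g127)]),
   ((6, 3765297), 56,
    [(32, B0.g48), (10, B0.g24), (15, B0.g88), (58, B0.g4), (17, B0.g84), (138, B0.g44),
     (14, B0.g26), (20, B0.g6), (67, B0.g22), (2, B0.g86), (209, B0.g46), (199, B0.g25),
     (258, B0.g5), (52, B0.g85), (9, B0.g45), (70, B0.g3), (266, B0.g83), (48, B0.g43),
     (84, B0.g27), (135, B0.g23), (105, B0.g87), (25, B0.g47), (1, B4.g64), (25, B4.g96),
     (81, B4.g24), (1, B4.g100), (40, B4.g60), (1, B4.g98), (6, B4.g26), (44, B4.g22),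
     (3, B4.g62), (4, B4.g97), (14, B4.g25), (51, B4.g21), (3, B4.g61), (2, B4.g99), (2, B4.g27),
     (5, B4.g23), (11, B4.g63), (225, B2.g32), (2, B2.g120), (4, B2.g52), (46, B2.g34),
     (10, B2.g50), (5, B2.g86), (3, B2.g54), (34, B2.g118), (29, B2.g33), (5, B2.g121),
     (84, B2.g85), (58, B2.g53), (63, B2.g35), (40, B2.g51), (4, B2.g87), (2, B2.g119),
     (1, B6.g26), (3, B6.g6), (4, B6.g41), (90, B6.g5), (5, B6.g7), (176, B1.g48), (199, B1.g8),
     (79, B1.g52), (43, B1.g12), (2, B1.g92), (34, B1.g50), (202, B1.g10), (36, B1.g90),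
     (3, B1.g54), (7, B1.g94), (18, B1.g49), (30, B1.g9), (242, B1.g89), (5, B1.g53),
     (4, B1.g13), (81, B1.g93), (1, B1.g51), (15, B1.g11), (71, B1.g91), (84, B1.g7),
     (4, B1.g95), (2, B5.g32), (2, B5.g34), (8, B5.g33), (4, B5.g3), (1, B5.g35), (26, B5.g31),
     (7, B3.g114), (2, B3.g58), (21, B3.g57), (25, B3.g27), (15, B3.g87)]),
   ((12, 58563578258737), 448,
    [(2, B4.g0), (1, B4.g4), (1, B4.g2), (11, B4.g1), (1, B4.g5), (2, B4.g3), (162, B2.g0),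
     (225, B2.g32), (49, B2.g16), (78, B2.g8), (9, B2.g24), (288, B2.g4), (100, B2.g20),
     (109, B2.g12), (8, B2.g28), (87, B2.g2), (46, B2.g34), (273, B2.g18), (5, B2.g10),
     (31, B2.g26), (73, B2.g6), (63, B2.g22), (233, B2.g14), (4, B2.g30), (34, B2.g1),
     (29, B2.g33), (9, B2.g17), (4, B2.g9), (370, B2.g25), (29, B2.g5), (4, B2.g21),
     (34, B2.g13), (95, B2.g29), (8, B2.g3), (63, B2.g35), (26, B2.g19), (98, B2.g11),
     (52, B2.g27), (2, B2.g7), (3, B2.g23), (52, B2.g15), (5, B2.g31), (61, B6.g86),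
     (167, B1.g96), (17, B1.g104), (72, B1.g100), (162, B1.g108), (252, B1.g98), (13, B1.g106),
     (37, B1.g102), (81, B1.g97), (58, B1.g105), (230, B1.g101), (31, B1.g109), (35, B1.g99),
     (78, B1.g107), (118, B1.g103), (2, B5.g112), (1, B5.g104), (42, B5.g100), (2, B5.g108),
     (12, B5.g114), (6, B5.g106), (8, B5.g102), (2, B5.g110), (33, B5.g113), (19, B5.g105),
     (29, B5.g101), (46, B5.g109), (1, B5.g115), (1, B5.g107), (10, B5.g103), (1, B5.g111),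
     (2, B3.g120), (21, B3.g116), (1, B3.g124), (2, B3.g122), (9, B3.g118), (3, B3.g126),
     (11, B3.g121), (2, B3.g117), (4, B3.g125), (39, B3.g115), (2, B3.g123), (2, B3.g119),
     (1, B3.g127)]),
   ((4, 38464), 56,
    [(32, B0.g48), (10, B0.g24), (15, B0.g88), (58, B0.g4), (17, B0.g84), (138, B0.g44),
     (14, B0.g26), (20, B0.g6), (67, B0.g22), (2, B0.g86), (209, B0.g46), (199, B0.g25),
     (258, B0.g5), (52, B0.g85), (9, B0.g45), (70, B0.g3), (266, B0.g83), (48, B0.g43),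
     (84, B0.g27), (135, B0.g23), (105, B0.g87), (25, B0.g47), (1, B4.g64), (25, B4.g96),
     (81, B4.g24), (1, B4.g100), (40, B4.g60), (1, B4.g98), (6, B4.g26), (44, B4.g22),
     (3, B4.g62), (4, B4.g97), (14, B4.g25), (51, B4.g21), (3, B4.g61), (2, B4.g99), (2, B4.g27),
     (5, B4.g23), (11, B4.g63), (225, B2.g32), (2, B2.g120), (4, B2.g52), (46, B2.g34),
     (10, B2.g50), (5, B2.g86), (3, B2.g54), (34, B2.g118), (29, B2.g33), (5, B2.g121),
     (84, B2.g85), (58, B2.g53), (63, B2.g35), (40, B2.g51), (4, B2.g87), (2, B2.g119),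
     (1, B6.g26), (3, B6.g6), (4, B6.g41), (90, B6.g5), (5, B6.g7), (176, B1.g48), (199, B1.g8),
     (79, B1.g52), (43, B1.g12), (2, B1.g92), (34, B1.g50), (202, B1.g10), (36, B1.g90),
     (3, B1.g54), (7, B1.g94), (18, B1.g49), (30, B1.g9), (242, B1.g89), (5, B1.g53),
     (4, B1.g13), (81, B1.g93), (1, B1.g51), (15, B1.g11), (71, B1.g91), (84, B1.g7),
     (4, B1.g95), (2, B5.g32), (2, B5.g34), (8, B5.g33), (4, B5.g3), (1, B5.g35), (26, B5.g31),
     (7, B3.g114), (2, B3.g58), (21, B3.g57), (25, B3.g27), (15, B3.g87)]),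
   ((16, 3761987165940503600), 448,
    [(2, B4.g0), (1, B4.g4), (1, B4.g2), (11, B4.g1), (1, B4.g5), (2, B4.g3), (162, B2.g0),
     (225, B2.g32), (49, B2.g16), (78, B2.g8), (9, B2.g24), (288, B2.g4), (100, B2.g20),
     (109, B2.g12), (8, B2.g28), (87, B2.g2), (46, B2.g34), (273, B2.g18), (5, B2.g10),
     (31, B2.g26), (73, B2.g6), (63, B2.g22), (233, B2.g14), (4, B2.g30), (34, B2.g1),
     (29, B2.g33), (9, B2.g17), (4, B2.g9), (370, B2.g25), (29, B2.g5), (4, B2.g21),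
     (34, B2.g13), (95, B2.g29), (8, B2.g3), (63, B2.g35), (26, B2.g19), (98, B2.g11),
     (52, B2.g27), (2, B2.g7), (3, B2.g23), (52, B2.g15), (5, B2.g31), (61, B6.g86),
     (167, B1.g96), (17, B1.g104), (72, B1.g100), (162, B1.g108), (252, B1.g98), (13, B1.g106),
     (37, B1.g102), (81, B1.g97), (58, B1.g105), (230, B1.g101), (31, B1.g109), (35, B1.g99),
     (78, B1.g107), (118, B1.g103), (2, B5.g112), (1, B5.g104), (42, B5.g100), (2, B5.g108),
     (12, B5.g114), (6, B5.g106), (8, B5.g102), (2, B5.g110), (33, B5.g113), (19, B5.g105),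
     (29, B5.g101), (46, B5.g109), (1, B5.g115), (1, B5.g107), (10, B5.g103), (1, B5.g111),
     (2, B3.g120), (21, B3.g116), (1, B3.g124), (2, B3.g122), (9, B3.g118), (3, B3.g126),
     (11, B3.g121), (2, B3.g117), (4, B3.g125), (39, B3.g115), (2, B3.g123), (2, B3.g119),
     (1, B3.g127)]),
   ((6, 6489921), 56,
    [(32, B0.g48), (10, B0.g24), (15, B0.g88), (58, B0.g4), (17, B0.g84), (138, B0.g44),
     (14, B0.g26), (20, B0.g6), (67, B0.g22), (2, B0.g86), (209, B0.g46), (199, B0.g25),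
     (258, B0.g5), (52, B0.g85), (9, B0.g45), (70, B0.g3), (266, B0.g83), (48, B0.g43),
     (84, B0.g27), (135, B0.g23), (105, B0.g87), (25, B0.g47), (1, B4.g64), (25, B4.g96),
     (81, B4.g24), (1, B4.g100), (40, B4.g60), (1, B4.g98), (6, B4.g26), (44, B4.g22),
     (3, B4.g62), (4, B4.g97), (14, B4.g25), (51, B4.g21), (3, B4.g61), (2, B4.g99), (2, B4.g27),
     (5, B4.g23), (11, B4.g63), (225, B2.g32), (2, B2.g120), (4, B2.g52), (46, B2.g34),
     (10, B2.g50), (5, B2.g86), (3, B2.g54), (34, B2.g118), (29, B2.g33), (5, B2.g121),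
     (84, B2.g85), (58, B2.g53), (63, B2.g35), (40, B2.g51), (4, B2.g87), (2, B2.g119),
     (1, B6.g26), (3, B6.g6), (4, B6.g41), (90, B6.g5), (5, B6.g7), (176, B1.g48), (199, B1.g8),
     (79, B1.g52), (43, B1.g12), (2, B1.g92), (34, B1.g50), (202, B1.g10), (36, B1.g90),
     (3, B1.g54), (7, B1.g94), (18, B1.g49), (30, B1.g9), (242, B1.g89), (5, B1.g53),
     (4, B1.g13), (81, B1.g93), (1, B1.g51), (15, B1.g11), (71, B1.g91), (84, B1.g7),
     (4, B1.g95), (2, B5.g32), (2, B5.g34), (8, B5.g33), (4, B5.g3), (1, B5.g35), (26, B5.g31),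
     (7, B3.g114), (2, B3.g58), (21, B3.g57), (25, B3.g27), (15, B3.g87)]),
   ((14, 18951415754487377), 448,
    [(2, B4.g0), (1, B4.g4), (1, B4.g2), (11, B4.g1), (1, B4.g5), (2, B4.g3), (162, B2.g0),
     (225, B2.g32), (49, B2.g16), (78, B2.g8), (9, B2.g24), (288, B2.g4), (100, B2.g20),
     (109, B2.g12), (8, B2.g28), (87, B2.g2), (46, B2.g34), (273, B2.g18), (5, B2.g10),
     (31, B2.g26), (73, B2.g6), (63, B2.g22), (233, B2.g14), (4, B2.g30), (34, B2.g1),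
     (29, B2.g33), (9, B2.g17), (4, B2.g9), (370, B2.g25), (29, B2.g5), (4, B2.g21),
     (34, B2.g13), (95, B2.g29), (8, B2.g3), (63, B2.g35), (26, B2.g19), (98, B2.g11),
     (52, B2.g27), (2, B2.g7), (3, B2.g23), (52, B2.g15), (5, B2.g31), (61, B6.g86),
     (167, B1.g96), (17, B1.g104), (72, B1.g100), (162, B1.g108), (252, B1.g98), (13, B1.g106),
     (37, B1.g102), (81, B1.g97), (58, B1.g105), (230, B1.g101), (31, B1.g109), (35, B1.g99),
     (78, B1.g107), (118, B1.g103), (2, B5.g112), (1, B5.g104), (42, B5.g100), (2, B5.g108),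
     (12, B5.g114), (6, B5.g106), (8, B5.g102), (2, B5.g110), (33, B5.g113), (19, B5.g105),
     (29, B5.g101), (46, B5.g109), (1, B5.g115), (1, B5.g107), (10, B5.g103), (1, B5.g111),
     (2, B3.g120), (21, B3.g116), (1, B3.g124), (2, B3.g122), (9, B3.g118), (3, B3.g126),
     (11, B3.g121), (2, B3.g117), (4, B3.g125), (39, B3.g115), (2, B3.g123), (2, B3.g119),
     (1, B3.g127)]),
   ((6, 7750416), 56,
    [(32, B0.g48), (10, B0.g24), (15, B0.g88), (58, B0.g4), (17, B0.g84), (138, B0.g44),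
     (14, B0.g26), (20, B0.g6), (67, B0.g22), (2, B0.g86), (209, B0.g46), (199, B0.g25),
     (258, B0.g5), (52, B0.g85), (9, B0.g45), (70, B0.g3), (266, B0.g83), (48, B0.g43),
     (84, B0.g27), (135, B0.g23), (105, B0.g87), (25, B0.g47), (1, B4.g64), (25, B4.g96),
     (81, B4.g24), (1, B4.g100), (40, B4.g60), (1, B4.g98), (6, B4.g26), (44, B4.g22),
     (3, B4.g62), (4, B4.g97), (14, B4.g25), (51, B4.g21), (3, B4.g61), (2, B4.g99), (2, B4.g27),
     (5, B4.g23), (11, B4.g63), (225, B2.g32), (2, B2.g120), (4, B2.g52), (46, B2.g34),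
     (10, B2.g50), (5, B2.g86), (3, B2.g54), (34, B2.g118), (29, B2.g33), (5, B2.g121),
     (84, B2.g85), (58, B2.g53), (63, B2.g35), (40, B2.g51), (4, B2.g87), (2, B2.g119),
     (1, B6.g26), (3, B6.g6), (4, B6.g41), (90, B6.g5), (5, B6.g7), (176, B1.g48), (199, B1.g8),
     (79, B1.g52), (43, B1.g12), (2, B1.g92), (34, B1.g50), (202, B1.g10), (36, B1.g90),
     (3, B1.g54), (7, B1.g94), (18, B1.g49), (30, B1.g9), (242, B1.g89), (5, B1.g53),
     (4, B1.g13), (81, B1.g93), (1, B1.g51), (15, B1.g11), (71, B1.g91), (84, B1.g7),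
     (4, B1.g95), (2, B5.g32), (2, B5.g34), (8, B5.g33), (4, B5.g3), (1, B5.g35), (26, B5.g31),
     (7, B3.g114), (2, B3.g58), (21, B3.g57), (25, B3.g27), (15, B3.g87)]),
   ((14, 23703633412903952), 448,
    [(2, B4.g0), (1, B4.g4), (1, B4.g2), (11, B4.g1), (1, B4.g5), (2, B4.g3), (162, B2.g0),
     (225, B2.g32), (49, B2.g16), (78, B2.g8), (9, B2.g24), (288, B2.g4), (100, B2.g20),
     (109, B2.g12), (8, B2.g28), (87, B2.g2), (46, B2.g34), (273, B2.g18), (5, B2.g10),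
     (31, B2.g26), (73, B2.g6), (63, B2.g22), (233, B2.g14), (4, B2.g30), (34, B2.g1),
     (29, B2.g33), (9, B2.g17), (4, B2.g9), (370, B2.g25), (29, B2.g5), (4, B2.g21),
     (34, B2.g13), (95, B2.g29), (8, B2.g3), (63, B2.g35), (26, B2.g19), (98, B2.g11),
     (52, B2.g27), (2, B2.g7), (3, B2.g23), (52, B2.g15), (5, B2.g31), (61, B6.g86),
     (167, B1.g96), (17, B1.g104), (72, B1.g100), (162, B1.g108), (252, B1.g98), (13, B1.g106),
     (37, B1.g102), (81, B1.g97), (58, B1.g105), (230, B1.g101), (31, B1.g109), (35, B1.g99),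
     (78, B1.g107), (118, B1.g103), (2, B5.g112), (1, B5.g104), (42, B5.g100), (2, B5.g108),
     (12, B5.g114), (6, B5.g106), (8, B5.g102), (2, B5.g110), (33, B5.g113), (19, B5.g105),
     (29, B5.g101), (46, B5.g109), (1, B5.g115), (1, B5.g107), (10, B5.g103), (1, B5.g111),
     (2, B3.g120), (21, B3.g116), (1, B3.g124), (2, B3.g122), (9, B3.g118), (3, B3.g126),
     (11, B3.g121), (2, B3.g117), (4, B3.g125), (39, B3.g115), (2, B3.g123), (2, B3.g119),
     (1, B3.g127)]),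
   ((8, 1620534032), 56,
    [(32, B0.g48), (10, B0.g24), (15, B0.g88), (58, B0.g4), (17, B0.g84), (138, B0.g44),
     (14, B0.g26), (20, B0.g6), (67, B0.g22), (2, B0.g86), (209, B0.g46), (199, B0.g25),
     (258, B0.g5), (52, B0.g85), (9, B0.g45), (70, B0.g3), (266, B0.g83), (48, B0.g43),
     (84, B0.g27), (135, B0.g23), (105, B0.g87), (25, B0.g47), (1, B4.g64), (25, B4.g96),
     (81, B4.g24), (1, B4.g100), (40, B4.g60), (1, B4.g98), (6, B4.g26), (44, B4.g22),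
     (3, B4.g62), (4, B4.g97), (14, B4.g25), (51, B4.g21), (3, B4.g61), (2, B4.g99), (2, B4.g27),
     (5, B4.g23), (11, B4.g63), (225, B2.g32), (2, B2.g120), (4, B2.g52), (46, B2.g34),
     (10, B2.g50), (5, B2.g86), (3, B2.g54), (34, B2.g118), (29, B2.g33), (5, B2.g121),
     (84, B2.g85), (58, B2.g53), (63, B2.g35), (40, B2.g51), (4, B2.g87), (2, B2.g119),
     (1, B6.g26), (3, B6.g6), (4, B6.g41), (90, B6.g5), (5, B6.g7), (176, B1.g48), (199, B1.g8),
     (79, B1.g52), (43, B1.g12), (2, B1.g92), (34, B1.g50), (202, B1.g10), (36, B1.g90),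
     (3, B1.g54), (7, B1.g94), (18, B1.g49), (30, B1.g9), (242, B1.g89), (5, B1.g53),
     (4, B1.g13), (81, B1.g93), (1, B1.g51), (15, B1.g11), (71, B1.g91), (84, B1.g7),
     (4, B1.g95), (2, B5.g32), (2, B5.g34), (8, B5.g33), (4, B5.g3), (1, B5.g35), (26, B5.g31),
     (7, B3.g114), (2, B3.g58), (21, B3.g57), (25, B3.g27), (15, B3.g87)]),
   ((14, 19495875545289744), 448,
    [(2, B4.g0), (1, B4.g4), (1, B4.g2), (11, B4.g1), (1, B4.g5), (2, B4.g3), (162, B2.g0),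
     (225, B2.g32), (49, B2.g16), (78, B2.g8), (9, B2.g24), (288, B2.g4), (100, B2.g20),
     (109, B2.g12), (8, B2.g28), (87, B2.g2), (46, B2.g34), (273, B2.g18), (5, B2.g10),
     (31, B2.g26), (73, B2.g6), (63, B2.g22), (233, B2.g14), (4, B2.g30), (34, B2.g1),
     (29, B2.g33), (9, B2.g17), (4, B2.g9), (370, B2.g25), (29, B2.g5), (4, B2.g21),
     (34, B2.g13), (95, B2.g29), (8, B2.g3), (63, B2.g35), (26, B2.g19), (98, B2.g11),
     (52, B2.g27), (2, B2.g7), (3, B2.g23), (52, B2.g15), (5, B2.g31), (61, B6.g86),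
     (167, B1.g96), (17, B1.g104), (72, B1.g100), (162, B1.g108), (252, B1.g98), (13, B1.g106),
     (37, B1.g102), (81, B1.g97), (58, B1.g105), (230, B1.g101), (31, B1.g109), (35, B1.g99),
     (78, B1.g107), (118, B1.g103), (2, B5.g112), (1, B5.g104), (42, B5.g100), (2, B5.g108),
     (12, B5.g114), (6, B5.g106), (8, B5.g102), (2, B5.g110), (33, B5.g113), (19, B5.g105),
     (29, B5.g101), (46, B5.g109), (1, B5.g115), (1, B5.g107), (10, B5.g103), (1, B5.g111),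
     (2, B3.g120), (21, B3.g116), (1, B3.g124), (2, B3.g122), (9, B3.g118), (3, B3.g126),
     (11, B3.g121), (2, B3.g117), (4, B3.g125), (39, B3.g115), (2, B3.g123), (2, B3.g119),
     (1, B3.g127)])]

/-- lights 73 -/
noncomputable def plB_73 : List ((ℕ × ℕ) × ℕ × List (ℕ × ℕ)) :=
  [((0, 0), 73,
    [(1, B0.g64), (10, B0.g24), (17, B0.g84), (11, B0.g12), (17, B0.g60), (265, B0.g50),
     (102, B0.g10), (14, B0.g26), (65, B0.g58), (67, B0.g22), (2, B0.g86), (106, B0.g14),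
     (16, B0.g62), (37, B0.g17), (50, B0.g9), (33, B0.g73), (97, B0.g69), (48, B0.g53),
     (91, B0.g51), (4, B0.g75), (147, B0.g7), (28, B0.g71), (86, B0.g15), (1, B4.g64),
     (12, B4.g32), (46, B4.g30), (3, B4.g49), (14, B4.g41), (10, B4.g105), (28, B4.g37),
     (1, B4.g53), (1, B4.g109), (26, B4.g29), (3, B4.g61), (1, B4.g51), (11, B4.g107),
     (4, B4.g39), (1, B4.g119), (70, B4.g47), (1, B4.g111), (29, B2.g64), (31, B2.g56),
     (1, B2.g68), (4, B2.g66), (43, B2.g74), (36, B2.g126), (29, B2.g33), (4, B2.g9),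
     (54, B2.g57), (29, B2.g5), (4, B2.g21), (7, B2.g77), (26, B2.g19), (1, B2.g59), (2, B2.g7),
     (3, B2.g23), (24, B6.g9), (1, B6.g75), (107, B1.g16), (3, B1.g40), (17, B1.g104),
     (36, B1.g36), (72, B1.g100), (91, B1.g34), (17, B1.g18), (13, B1.g106), (32, B1.g38),
     (37, B1.g102), (18, B1.g49), (22, B1.g25), (5, B1.g53), (4, B1.g29), (1, B1.g51),
     (33, B1.g27), (81, B1.g23), (139, B1.g15), (53, B5.g40), (14, B5.g44), (6, B5.g42),
     (6, B5.g106), (3, B5.g54), (2, B5.g46), (1, B5.g65), (1, B3.g0), (1, B3.g124), (3, B3.g2),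
     (1, B3.g10), (2, B3.g122), (5, B3.g65), (1, B3.g21), (11, B3.g67), (1, B3.g83), (6, B3.g75),
     (24, B3.g63)]),
   ((14, 14729291113129283), 273,
    [(135, B0.g92), (163, B0.g90), (22, B0.g94), (128, B0.g91), (8, B2.g28), (31, B2.g26),
     (4, B2.g30), (34, B2.g1), (29, B2.g33), (4, B2.g9), (29, B2.g5), (8, B2.g3), (2, B2.g7),
     (3, B6.g78), (6, B6.g57), (1, B6.g61), (1, B6.g59), (43, B1.g64), (6, B1.g88), (113, B1.g4),
     (33, B1.g68), (142, B1.g20), (35, B1.g84), (2, B1.g92), (120, B1.g60), (19, B1.g66),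
     (69, B1.g82), (36, B1.g90), (86, B1.g6), (6, B1.g70), (37, B1.g22), (24, B1.g86),
     (7, B1.g94), (18, B1.g49), (30, B1.g9), (80, B1.g41), (22, B1.g25), (5, B1.g53),
     (4, B1.g13), (59, B1.g45), (31, B1.g109), (4, B1.g29), (44, B1.g61), (417, B1.g3),
     (116, B1.g19), (1, B1.g51), (15, B1.g11), (45, B1.g43), (78, B1.g107), (33, B1.g27),
     (84, B1.g7), (81, B1.g23), (3, B1.g47), (51, B1.g63), (2, B5.g32), (7, B5.g16), (2, B5.g80),
     (4, B5.g84), (72, B5.g12), (4, B5.g28), (2, B5.g34), (1, B5.g82), (67, B5.g10), (8, B5.g26),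
     (3, B5.g54), (2, B5.g14), (88, B5.g78), (1, B5.g97), (2, B5.g49), (37, B5.g9), (4, B5.g51),
     (19, B5.g47), (2, B3.g72), (22, B3.g68), (2, B3.g36), (29, B3.g52), (15, B3.g34),
     (1, B3.g70), (22, B3.g33), (12, B3.g97), (4, B3.g41), (24, B3.g37), (1, B3.g101),
     (2, B3.g85), (7, B3.g99), (6, B3.g75), (1, B3.g39), (1, B3.g55)]),
   ((6, 3765297), 97,
    [(22, B0.g80), (10, B0.g24), (34, B0.g68), (17, B0.g84), (79, B0.g76), (129, B0.g66),
     (114, B0.g18), (4, B0.g82), (14, B0.g26), (67, B0.g22), (2, B0.g86), (106, B0.g14),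
     (29, B0.g78), (152, B0.g65), (37, B0.g17), (33, B0.g73), (97, B0.g69), (32, B0.g21),
     (145, B0.g13), (115, B0.g19), (4, B0.g75), (28, B0.g71), (86, B0.g15), (1, B4.g64),
     (9, B4.g56), (31, B4.g44), (1, B4.g2), (1, B4.g58), (8, B4.g54), (9, B4.g46), (3, B4.g49),
     (66, B4.g121), (1, B4.g53), (3, B4.g61), (1, B4.g51), (32, B4.g43), (2, B4.g123),
     (70, B4.g47), (8, B2.g28), (43, B2.g74), (31, B2.g26), (11, B2.g70), (4, B2.g30),
     (29, B2.g33), (9, B2.g17), (4, B2.g81), (5, B2.g73), (4, B2.g21), (34, B2.g13), (7, B2.g77),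
     (26, B2.g19), (1, B2.g83), (98, B2.g11), (43, B2.g71), (3, B2.g23), (52, B2.g15),
     (8, B2.g79), (4, B6.g20), (3, B1.g40), (36, B1.g36), (91, B1.g34), (32, B1.g38),
     (132, B1.g30), (70, B1.g33), (18, B1.g49), (80, B1.g41), (5, B1.g53), (59, B1.g45),
     (1, B1.g51), (45, B1.g43), (3, B1.g47), (195, B1.g31), (1, B5.g0), (1, B5.g2), (1, B5.g65),
     (12, B5.g57), (1, B5.g61), (6, B5.g59), (1, B5.g63), (6, B3.g80), (4, B3.g17), (1, B3.g25),
     (1, B3.g21), (2, B3.g85), (66, B3.g13), (5, B3.g77), (1, B3.g83), (3, B3.g15)]),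
   ((12, 58563578258737), 145,
    [(1, B0.g64), (22, B0.g80), (149, B0.g40), (17, B0.g84), (79, B0.g76), (17, B0.g60),
     (4, B0.g82), (23, B0.g42), (65, B0.g58), (2, B0.g86), (141, B0.g54), (29, B0.g78),
     (97, B0.g30), (16, B0.g62), (15, B0.g33), (24, B0.g57), (9, B0.g45), (119, B0.g29),
     (48, B0.g43), (83, B0.g39), (67, B0.g55), (25, B0.g47), (110, B0.g31), (23, B4.g112),
     (1, B4.g100), (1, B4.g116), (5, B4.g76), (16, B4.g92), (11, B4.g114), (26, B4.g74),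
     (50, B4.g90), (13, B4.g70), (9, B4.g78), (3, B4.g94), (4, B4.g97), (7, B4.g73), (7, B4.g71),
     (1, B4.g119), (8, B2.g96), (12, B2.g112), (2, B2.g100), (2, B2.g116), (8, B2.g28),
     (1, B2.g98), (1, B2.g114), (31, B2.g26), (4, B2.g30), (10, B2.g94), (34, B2.g1),
     (29, B2.g33), (4, B2.g9), (29, B2.g5), (7, B2.g93), (8, B2.g3), (2, B2.g7), (2, B2.g119),
     (1, B6.g48), (2, B6.g40), (1, B6.g34), (8, B6.g30), (43, B1.g64), (6, B1.g88), (33, B1.g68),
     (35, B1.g84), (2, B1.g92), (120, B1.g60), (19, B1.g66), (69, B1.g82), (36, B1.g90),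
     (6, B1.g70), (24, B1.g86), (7, B1.g94), (31, B1.g109), (44, B1.g61), (78, B1.g107),
     (51, B1.g63), (1, B5.g0), (2, B5.g80), (4, B5.g84), (1, B5.g2), (1, B5.g82), (88, B5.g78),
     (1, B5.g97), (5, B3.g4), (1, B3.g10), (12, B3.g97), (1, B3.g25), (1, B3.g101), (7, B3.g99),
     (1, B3.g7)]),
   ((4, 38464), 138,
    [(1, B0.g64), (120, B0.g32), (32, B0.g48), (15, B0.g88), (242, B0.g52), (138, B0.g44),
     (96, B0.g28), (17, B0.g60), (265, B0.g50), (108, B0.g74), (191, B0.g70), (29, B0.g38),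
     (2, B0.g86), (97, B0.g30), (15, B0.g33), (295, B0.g37), (52, B0.g85), (48, B0.g53),
     (9, B0.g45), (116, B0.g35), (4, B0.g75), (126, B0.g59), (28, B0.g71), (67, B0.g63),
     (4, B4.g88), (33, B4.g68), (154, B4.g84), (5, B4.g76), (55, B4.g66), (1, B4.g98),
     (92, B4.g106), (5, B4.g110), (1, B4.g89), (3, B4.g69), (3, B4.g85), (8, B4.g75),
     (11, B4.g107), (1, B4.g111), (9, B2.g24), (2, B2.g120), (100, B2.g20), (1, B2.g108),
     (3, B2.g92), (46, B2.g34), (1, B2.g98), (5, B2.g10), (73, B2.g6), (61, B2.g97),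
     (30, B2.g89), (2, B2.g101), (4, B2.g21), (29, B2.g107), (18, B2.g91), (2, B2.g7),
     (11, B2.g111), (25, B2.g127), (8, B6.g28), (90, B1.g80), (176, B1.g56), (236, B1.g76),
     (2, B1.g92), (19, B1.g66), (13, B1.g106), (206, B1.g58), (6, B1.g70), (37, B1.g102),
     (113, B1.g65), (5, B1.g81), (58, B1.g105), (63, B1.g69), (230, B1.g101), (32, B1.g77),
     (71, B1.g91), (36, B1.g59), (4, B1.g95), (2, B5.g76), (1, B5.g94), (2, B5.g93),
     (11, B5.g75), (1, B5.g107), (1, B3.g0), (2, B3.g20), (1, B3.g124), (14, B3.g94),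
     (1, B3.g21), (37, B3.g93), (2, B3.g3), (1, B3.g11), (2, B3.g123), (1, B3.g23), (1, B3.g111)]),
   ((16, 3761987165940503600), 290,
    [(181, B0.g96), (195, B0.g95), (1, B4.g2), (49, B2.g16), (9, B2.g24), (100, B2.g20),
     (109, B2.g12), (8, B2.g28), (46, B2.g34), (9, B2.g17), (4, B2.g21), (34, B2.g13),
     (52, B2.g27), (5, B2.g31), (1, B6.g64), (1, B6.g68), (1, B6.g66), (11, B6.g63),
     (242, B1.g32), (90, B1.g80), (199, B1.g8), (3, B1.g40), (6, B1.g88), (36, B1.g36),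
     (35, B1.g84), (43, B1.g12), (236, B1.g76), (2, B1.g92), (29, B1.g2), (34, B1.g50),
     (47, B1.g74), (167, B1.g42), (86, B1.g6), (3, B1.g54), (82, B1.g46), (132, B1.g30),
     (318, B1.g1), (70, B1.g33), (5, B1.g81), (30, B1.g9), (317, B1.g73), (315, B1.g5),
     (4, B1.g13), (32, B1.g77), (417, B1.g3), (166, B1.g35), (187, B1.g83), (1, B1.g51),
     (45, B1.g43), (71, B1.g91), (91, B1.g71), (87, B1.g39), (109, B1.g87), (3, B1.g47),
     (4, B1.g95), (6, B5.g88), (24, B5.g20), (4, B5.g28), (2, B5.g66), (6, B5.g98), (41, B5.g58),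
     (83, B5.g22), (4, B5.g30), (1, B5.g94), (3, B5.g62), (73, B5.g17), (12, B5.g25),
     (3, B5.g69), (2, B5.g93), (1, B5.g35), (55, B5.g19), (58, B5.g27), (8, B5.g91), (6, B5.g59),
     (10, B5.g23), (32, B5.g87), (1, B5.g63), (5, B3.g48), (15, B3.g104), (1, B3.g56),
     (1, B3.g108), (1, B3.g86), (10, B3.g78), (7, B3.g46), (1, B3.g49), (2, B3.g105),
     (4, B3.g53), (8, B3.g45), (8, B3.g43), (1, B3.g111)]),
   ((6, 6489921), 146,
    [(1, B0.g64), (120, B0.g32), (32, B0.g48), (15, B0.g88), (288, B0.g56), (138, B0.g44),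
     (17, B0.g60), (4, B0.g82), (23, B0.g42), (2, B0.g86), (141, B0.g54), (29, B0.g78),
     (97, B0.g30), (15, B0.g33), (51, B0.g81), (313, B0.g41), (24, B0.g57), (52, B0.g85),
     (243, B0.g77), (9, B0.g45), (119, B0.g29), (126, B0.g59), (83, B0.g39), (67, B0.g63),
     (52, B4.g72), (5, B4.g76), (16, B4.g92), (1, B4.g98), (11, B4.g114), (13, B4.g70),
     (44, B4.g113), (7, B4.g73), (12, B4.g117), (8, B4.g75), (63, B4.g91), (4, B4.g95),
     (2, B2.g120), (8, B2.g28), (87, B2.g2), (46, B2.g34), (1, B2.g98), (1, B2.g114),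
     (5, B2.g10), (73, B2.g6), (61, B2.g97), (19, B2.g113), (2, B2.g101), (2, B2.g117),
     (7, B2.g93), (8, B2.g3), (52, B2.g27), (2, B2.g7), (5, B2.g31), (10, B2.g95), (3, B6.g31),
     (6, B1.g88), (35, B1.g84), (162, B1.g108), (2, B1.g92), (120, B1.g60), (19, B1.g66),
     (6, B1.g70), (372, B1.g62), (113, B1.g65), (63, B1.g69), (31, B1.g109), (187, B1.g83),
     (71, B1.g91), (109, B1.g87), (4, B1.g95), (51, B1.g63), (2, B5.g80), (1, B5.g2),
     (6, B5.g98), (2, B5.g110), (22, B5.g1), (13, B5.g79), (1, B3.g8), (5, B3.g98), (4, B3.g26),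
     (9, B3.g5), (7, B3.g99), (1, B3.g11), (1, B3.g127)]),
   ((14, 18951415754487377), 98,
    [(402, B0.g16), (10, B0.g24), (15, B0.g88), (34, B0.g68), (282, B0.g20), (114, B0.g18),
     (4, B0.g82), (108, B0.g74), (191, B0.g70), (2, B0.g86), (106, B0.g14), (29, B0.g78),
     (152, B0.g65), (37, B0.g17), (51, B0.g81), (32, B0.g21), (52, B0.g85), (145, B0.g13),
     (243, B0.g77), (300, B0.g67), (4, B0.g75), (84, B0.g27), (28, B0.g71), (135, B0.g23),
     (35, B4.g48), (9, B4.g56), (5, B4.g52), (1, B4.g2), (32, B4.g122), (9, B4.g46), (3, B4.g62),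
     (3, B4.g49), (1, B4.g53), (45, B4.g45), (2, B4.g125), (32, B4.g43), (22, B4.g59),
     (2, B4.g123), (29, B4.g55), (49, B2.g16), (54, B2.g80), (31, B2.g72), (9, B2.g24),
     (100, B2.g20), (5, B2.g84), (109, B2.g12), (8, B2.g28), (46, B2.g34), (11, B2.g70),
     (5, B2.g86), (2, B2.g78), (9, B2.g17), (4, B2.g81), (5, B2.g73), (4, B2.g21), (34, B2.g13),
     (7, B2.g75), (52, B2.g27), (5, B2.g31), (2, B6.g25), (16, B6.g21), (242, B1.g32),
     (3, B1.g40), (36, B1.g36), (34, B1.g50), (167, B1.g42), (3, B1.g54), (82, B1.g46),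
     (132, B1.g30), (70, B1.g33), (166, B1.g35), (1, B1.g51), (45, B1.g43), (87, B1.g39),
     (3, B1.g47), (1, B5.g2), (2, B5.g66), (41, B5.g58), (3, B5.g62), (22, B5.g1), (3, B5.g69),
     (6, B5.g59), (1, B5.g63), (2, B3.g20), (3, B3.g18), (4, B3.g26), (1, B3.g86), (19, B3.g14),
     (10, B3.g78), (1, B3.g21), (1, B3.g23), (3, B3.g15)]),
   ((6, 7750416), 292,
    [(195, B0.g95), (1, B4.g5), (2, B4.g3), (49, B2.g16), (9, B2.g24), (63, B2.g22),
     (233, B2.g14), (4, B2.g30), (9, B2.g17), (95, B2.g29), (63, B2.g35), (3, B2.g23),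
     (52, B2.g15), (5, B2.g31), (1, B6.g66), (5, B6.g65), (2, B6.g69), (88, B1.g0),
     (242, B1.g32), (90, B1.g80), (147, B1.g72), (3, B1.g40), (6, B1.g88), (113, B1.g4),
     (79, B1.g52), (43, B1.g12), (153, B1.g44), (29, B1.g2), (202, B1.g10), (47, B1.g74),
     (86, B1.g6), (32, B1.g38), (24, B1.g86), (3, B1.g54), (221, B1.g78), (82, B1.g46),
     (7, B1.g94), (318, B1.g1), (70, B1.g33), (5, B1.g81), (317, B1.g73), (315, B1.g5),
     (195, B1.g37), (212, B1.g85), (5, B1.g53), (4, B1.g13), (59, B1.g45), (81, B1.g93),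
     (15, B1.g11), (87, B1.g39), (109, B1.g87), (21, B1.g79), (3, B1.g47), (195, B1.g31),
     (4, B1.g95), (61, B5.g24), (24, B5.g20), (10, B5.g60), (2, B5.g34), (27, B5.g18),
     (1, B5.g90), (4, B5.g30), (3, B5.g62), (8, B5.g33), (12, B5.g25), (58, B5.g89), (5, B5.g29),
     (1, B5.g61), (4, B5.g67), (1, B5.g35), (2, B5.g99), (55, B5.g19), (8, B5.g91), (5, B5.g95),
     (1, B5.g63), (6, B3.g80), (5, B3.g112), (1, B3.g56), (20, B3.g44), (1, B3.g108),
     (3, B3.g82), (14, B3.g50), (4, B3.g106), (2, B3.g58), (6, B3.g54), (7, B3.g46), (8, B3.g45),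
     (1, B3.g83), (2, B3.g51), (1, B3.g107), (1, B3.g55), (18, B3.g79)]),
   ((14, 23703633412903952), 140,
    [(1, B0.g64), (120, B0.g32), (32, B0.g48), (247, B0.g72), (15, B0.g88), (199, B0.g36),
     (242, B0.g52), (96, B0.g28), (108, B0.g74), (29, B0.g38), (209, B0.g46), (16, B0.g62),
     (15, B0.g33), (33, B0.g73), (295, B0.g37), (48, B0.g53), (167, B0.g61), (91, B0.g51),
     (4, B0.g75), (105, B0.g87), (25, B0.g47), (110, B0.g31), (67, B0.g63), (4, B4.g88),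
     (2, B4.g120), (33, B4.g68), (1, B4.g100), (12, B4.g108), (26, B4.g86), (9, B4.g78),
     (5, B4.g110), (1, B4.g89), (1, B4.g5), (3, B4.g69), (43, B4.g77), (1, B4.g109),
     (49, B4.g67), (2, B4.g99), (1, B4.g87), (1, B4.g111), (78, B2.g8), (9, B2.g24),
     (2, B2.g100), (3, B2.g92), (5, B2.g10), (44, B2.g90), (63, B2.g22), (6, B2.g110),
     (4, B2.g9), (5, B2.g121), (2, B2.g101), (153, B2.g109), (63, B2.g35), (33, B2.g99),
     (18, B2.g91), (3, B2.g23), (11, B2.g111), (4, B6.g38), (1, B6.g46), (4, B6.g29),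
     (90, B1.g80), (17, B1.g104), (33, B1.g68), (13, B1.g106), (206, B1.g58), (6, B1.g70),
     (221, B1.g78), (7, B1.g94), (5, B1.g81), (58, B1.g105), (61, B1.g57), (63, B1.g69),
     (81, B1.g93), (145, B1.g67), (36, B1.g59), (118, B1.g103), (21, B1.g79), (4, B1.g95),
     (2, B5.g108), (1, B5.g85), (41, B5.g77), (5, B5.g95), (1, B3.g96), (5, B3.g112),
     (1, B3.g12), (3, B3.g2), (3, B3.g22), (19, B3.g1), (4, B3.g125), (2, B3.g3), (1, B3.g23),
     (12, B3.g95)]),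
   ((8, 1620534032), 276,
    [(135, B0.g92), (163, B0.g90), (22, B0.g94), (185, B0.g93), (162, B2.g0), (78, B2.g8),
     (87, B2.g2), (5, B2.g10), (4, B2.g30), (34, B2.g1), (4, B2.g9), (95, B2.g29), (8, B2.g3),
     (63, B2.g35), (5, B2.g31), (1, B6.g60), (1, B6.g61), (6, B1.g88), (113, B1.g4),
     (33, B1.g68), (142, B1.g20), (79, B1.g52), (43, B1.g12), (153, B1.g44), (45, B1.g28),
     (202, B1.g10), (329, B1.g26), (86, B1.g6), (6, B1.g70), (37, B1.g22), (24, B1.g86),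
     (3, B1.g54), (82, B1.g46), (7, B1.g94), (372, B1.g62), (315, B1.g5), (63, B1.g69),
     (259, B1.g21), (212, B1.g85), (5, B1.g53), (4, B1.g13), (59, B1.g45), (4, B1.g29),
     (81, B1.g93), (44, B1.g61), (145, B1.g67), (15, B1.g11), (33, B1.g27), (109, B1.g87),
     (3, B1.g47), (4, B1.g95), (51, B1.g63), (7, B5.g16), (4, B5.g56), (1, B5.g52), (2, B5.g34),
     (1, B5.g82), (14, B5.g50), (67, B5.g10), (4, B5.g30), (8, B5.g33), (57, B5.g81),
     (1, B5.g85), (5, B5.g29), (1, B5.g35), (2, B5.g99), (4, B5.g51), (23, B5.g11),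
     (114, B5.g15), (1, B5.g111), (2, B3.g72), (15, B3.g40), (1, B3.g56), (2, B3.g36),
     (3, B3.g100), (15, B3.g34), (4, B3.g42), (2, B3.g58), (6, B3.g54), (2, B3.g73), (4, B3.g41),
     (1, B3.g101), (4, B3.g35), (19, B3.g71), (1, B3.g55)]),
   ((14, 19495875545289744), 76,
    [(1, B0.g64), (402, B0.g16), (247, B0.g72), (15, B0.g88), (242, B0.g52), (11, B0.g12),
     (102, B0.g10), (108, B0.g74), (14, B0.g26), (16, B0.g62), (37, B0.g17), (33, B0.g73),
     (199, B0.g25), (48, B0.g53), (167, B0.g61), (91, B0.g51), (261, B0.g11), (4, B0.g75),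
     (84, B0.g27), (147, B0.g7), (105, B0.g87), (86, B0.g15), (67, B0.g63), (1, B4.g64),
     (12, B4.g32), (91, B4.g40), (2, B4.g120), (5, B4.g52), (12, B4.g108), (53, B4.g50),
     (5, B4.g42), (5, B4.g110), (46, B4.g30), (14, B4.g41), (1, B4.g5), (1, B4.g53),
     (1, B4.g109), (1, B4.g51), (1, B4.g111), (34, B4.g31), (11, B4.g63), (78, B2.g8),
     (9, B2.g24), (1, B2.g68), (47, B2.g76), (5, B2.g10), (35, B2.g58), (63, B2.g22),
     (2, B2.g78), (4, B2.g9), (54, B2.g57), (3, B2.g69), (7, B2.g77), (48, B2.g67), (63, B2.g35),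
     (1, B2.g59), (3, B2.g23), (4, B2.g87), (1, B6.g46), (1, B6.g19), (7, B6.g11), (107, B1.g16),
     (3, B1.g40), (17, B1.g104), (79, B1.g52), (45, B1.g28), (17, B1.g18), (13, B1.g106),
     (329, B1.g26), (32, B1.g38), (3, B1.g54), (233, B1.g17), (58, B1.g105), (195, B1.g37),
     (5, B1.g53), (4, B1.g29), (33, B1.g27), (87, B1.g39), (118, B1.g103), (4, B5.g56),
     (14, B5.g44), (2, B5.g108), (2, B5.g46), (1, B5.g45), (4, B5.g67), (24, B5.g43),
     (1, B3.g12), (3, B3.g2), (14, B3.g66), (3, B3.g82), (3, B3.g22), (19, B3.g1), (4, B3.g125),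
     (2, B3.g3), (11, B3.g67), (1, B3.g83), (1, B3.g23)])]

/-- lights 74 -/
noncomputable def plB_74 : List ((ℕ × ℕ) × ℕ × List (ℕ × ℕ)) :=
  [((0, 0), 74,
    [(1, B0.g64), (402, B0.g16), (10, B0.g24), (15, B0.g88), (242, B0.g52), (11, B0.g12),
     (17, B0.g60), (265, B0.g50), (108, B0.g74), (191, B0.g70), (2, B0.g86), (106, B0.g14),
     (37, B0.g17), (50, B0.g9), (52, B0.g85), (48, B0.g53), (261, B0.g11), (4, B0.g75),
     (84, B0.g27), (126, B0.g59), (147, B0.g7), (28, B0.g71), (135, B0.g23), (67, B0.g63),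
     (12, B4.g32), (35, B4.g48), (5, B4.g52), (5, B4.g42), (92, B4.g106), (42, B4.g38),
     (5, B4.g110), (3, B4.g62), (3, B4.g49), (1, B4.g53), (26, B4.g29), (11, B4.g107),
     (4, B4.g39), (1, B4.g111), (34, B4.g31), (9, B2.g24), (31, B2.g56), (100, B2.g20),
     (4, B2.g66), (46, B2.g34), (5, B2.g10), (35, B2.g58), (73, B2.g6), (5, B2.g86), (2, B2.g78),
     (82, B2.g65), (3, B2.g69), (4, B2.g21), (7, B2.g75), (1, B2.g59), (2, B2.g7), (25, B2.g127),
     (1, B6.g76), (3, B6.g18), (19, B6.g10), (3, B1.g40), (121, B1.g24), (36, B1.g36),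
     (45, B1.g28), (17, B1.g18), (34, B1.g50), (13, B1.g106), (37, B1.g102), (3, B1.g54),
     (233, B1.g17), (58, B1.g105), (22, B1.g25), (230, B1.g101), (4, B1.g29), (166, B1.g35),
     (1, B1.g51), (87, B1.g39), (139, B1.g15), (2, B5.g66), (6, B5.g42), (2, B5.g46),
     (55, B5.g41), (1, B5.g45), (1, B5.g107), (1, B5.g55), (1, B3.g0), (9, B3.g64), (2, B3.g20),
     (1, B3.g76), (1, B3.g124), (5, B3.g65), (1, B3.g21), (2, B3.g3), (1, B3.g11), (2, B3.g123),
     (1, B3.g23)]),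
   ((14, 14729291113129283), 274,
    [(163, B0.g90), (22, B0.g94), (185, B0.g93), (128, B0.g91), (8, B2.g28), (87, B2.g2),
     (46, B2.g34), (5, B2.g10), (73, B2.g6), (8, B2.g3), (52, B2.g27), (2, B2.g7), (5, B2.g31),
     (44, B6.g58), (1, B6.g59), (3, B6.g79), (199, B1.g8), (121, B1.g24), (6, B1.g88),
     (35, B1.g84), (43, B1.g12), (162, B1.g108), (45, B1.g28), (2, B1.g92), (120, B1.g60),
     (19, B1.g66), (34, B1.g50), (167, B1.g42), (86, B1.g6), (6, B1.g70), (37, B1.g22),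
     (3, B1.g54), (82, B1.g46), (372, B1.g62), (113, B1.g65), (30, B1.g9), (22, B1.g25),
     (315, B1.g5), (63, B1.g69), (259, B1.g21), (4, B1.g13), (31, B1.g109), (4, B1.g29),
     (417, B1.g3), (116, B1.g19), (187, B1.g83), (1, B1.g51), (45, B1.g43), (71, B1.g91),
     (109, B1.g87), (3, B1.g47), (4, B1.g95), (51, B1.g63), (2, B5.g80), (71, B5.g48),
     (1, B5.g52), (4, B5.g28), (6, B5.g98), (2, B5.g14), (2, B5.g110), (4, B5.g30), (2, B5.g49),
     (37, B5.g9), (3, B5.g69), (15, B5.g13), (1, B5.g35), (23, B5.g11), (58, B5.g27),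
     (1, B5.g55), (13, B5.g79), (1, B3.g56), (2, B3.g36), (1, B3.g76), (5, B3.g98), (4, B3.g42),
     (1, B3.g70), (20, B3.g38), (1, B3.g86), (22, B3.g33), (2, B3.g73), (8, B3.g69), (4, B3.g53),
     (4, B3.g35), (7, B3.g99), (1, B3.g39), (1, B3.g127)]),
   ((6, 3765297), 100,
    [(402, B0.g16), (22, B0.g80), (247, B0.g72), (15, B0.g88), (34, B0.g68), (282, B0.g20),
     (129, B0.g66), (4, B0.g82), (108, B0.g74), (14, B0.g26), (37, B0.g17), (51, B0.g81),
     (33, B0.g73), (199, B0.g25), (32, B0.g21), (145, B0.g13), (300, B0.g67), (115, B0.g19),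
     (4, B0.g75), (84, B0.g27), (105, B0.g87), (86, B0.g15), (195, B0.g79), (1, B4.g64),
     (5, B4.g52), (31, B4.g44), (121, B4.g124), (53, B4.g50), (1, B4.g58), (9, B4.g46),
     (5, B4.g57), (1, B4.g5), (1, B4.g53), (45, B4.g45), (2, B4.g125), (2, B4.g3), (1, B4.g51),
     (22, B4.g59), (11, B4.g63), (49, B2.g16), (31, B2.g72), (9, B2.g24), (5, B2.g84),
     (47, B2.g76), (36, B2.g82), (63, B2.g22), (233, B2.g14), (2, B2.g78), (4, B2.g30),
     (9, B2.g17), (5, B2.g73), (7, B2.g77), (95, B2.g29), (63, B2.g35), (1, B2.g83),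
     (43, B2.g71), (3, B2.g23), (4, B2.g87), (52, B2.g15), (5, B2.g31), (4, B6.g22),
     (242, B1.g32), (3, B1.g40), (79, B1.g52), (153, B1.g44), (32, B1.g38), (3, B1.g54),
     (82, B1.g46), (70, B1.g33), (195, B1.g37), (5, B1.g53), (59, B1.g45), (87, B1.g39),
     (3, B1.g47), (195, B1.g31), (10, B5.g60), (3, B5.g62), (1, B5.g61), (4, B5.g67),
     (1, B5.g63), (23, B3.g16), (6, B3.g80), (3, B3.g18), (3, B3.g82), (3, B3.g22), (4, B3.g17),
     (1, B3.g83), (1, B3.g23), (18, B3.g79)]),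
   ((12, 58563578258737), 148,
    [(1, B0.g64), (120, B0.g32), (22, B0.g80), (32, B0.g48), (149, B0.g40), (15, B0.g88),
     (288, B0.g56), (4, B0.g82), (23, B0.g42), (209, B0.g46), (16, B0.g62), (15, B0.g33),
     (51, B0.g81), (313, B0.g41), (24, B0.g57), (119, B0.g29), (167, B0.g61), (105, B0.g87),
     (67, B0.g55), (195, B0.g79), (25, B0.g47), (110, B0.g31), (67, B0.g63), (52, B4.g72),
     (2, B4.g120), (1, B4.g100), (1, B4.g116), (9, B4.g78), (3, B4.g94), (7, B4.g73),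
     (12, B4.g117), (43, B4.g77), (7, B4.g93), (2, B4.g99), (39, B4.g115), (7, B4.g71),
     (4, B4.g95), (162, B2.g0), (78, B2.g8), (2, B2.g100), (2, B2.g116), (87, B2.g2),
     (5, B2.g10), (4, B2.g30), (10, B2.g94), (34, B2.g1), (4, B2.g9), (5, B2.g121), (2, B2.g101),
     (2, B2.g117), (95, B2.g29), (8, B2.g3), (63, B2.g35), (33, B2.g99), (14, B2.g115),
     (5, B2.g31), (10, B2.g95), (1, B6.g32), (6, B1.g88), (33, B1.g68), (6, B1.g70),
     (24, B1.g86), (7, B1.g94), (372, B1.g62), (63, B1.g69), (212, B1.g85), (81, B1.g93),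
     (44, B1.g61), (145, B1.g67), (109, B1.g87), (4, B1.g95), (51, B1.g63), (1, B5.g82),
     (57, B5.g81), (1, B5.g85), (2, B5.g99), (1, B5.g111), (1, B3.g8), (3, B3.g100), (1, B3.g12),
     (6, B3.g6), (1, B3.g101), (1, B3.g7)]),
   ((4, 38464), 137,
    [(1, B0.g64), (199, B0.g36), (17, B0.g84), (96, B0.g28), (17, B0.g60), (265, B0.g50),
     (65, B0.g58), (29, B0.g38), (2, B0.g86), (97, B0.g30), (16, B0.g62), (15, B0.g33),
     (33, B0.g73), (97, B0.g69), (48, B0.g53), (9, B0.g45), (116, B0.g35), (91, B0.g51),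
     (4, B0.g75), (48, B0.g43), (28, B0.g71), (25, B0.g47), (110, B0.g31), (1, B4.g100),
     (5, B4.g76), (55, B4.g66), (26, B4.g74), (9, B4.g78), (4, B4.g97), (10, B4.g105),
     (1, B4.g89), (3, B4.g69), (3, B4.g85), (1, B4.g109), (49, B4.g67), (10, B4.g83),
     (11, B4.g107), (1, B4.g87), (1, B4.g119), (1, B4.g111), (8, B2.g96), (2, B2.g100),
     (1, B2.g108), (3, B2.g92), (1, B2.g98), (16, B2.g106), (44, B2.g90), (6, B2.g110),
     (36, B2.g126), (29, B2.g33), (4, B2.g9), (30, B2.g89), (29, B2.g5), (4, B2.g21),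
     (26, B2.g19), (2, B2.g7), (3, B2.g23), (2, B2.g119), (1, B6.g34), (2, B6.g27), (43, B1.g64),
     (17, B1.g104), (176, B1.g56), (33, B1.g68), (72, B1.g100), (2, B1.g92), (19, B1.g66),
     (13, B1.g106), (36, B1.g90), (6, B1.g70), (37, B1.g102), (7, B1.g94), (5, B1.g81),
     (61, B1.g57), (32, B1.g77), (68, B1.g75), (36, B1.g59), (21, B1.g79), (4, B5.g84),
     (2, B5.g76), (13, B5.g74), (6, B5.g106), (1, B5.g94), (1, B3.g0), (1, B3.g96), (27, B3.g92),
     (1, B3.g124), (3, B3.g2), (1, B3.g10), (2, B3.g122), (3, B3.g110), (14, B3.g94), (1, B3.g21)]),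
   ((16, 3761987165940503600), 289,
    [(181, B0.g96), (195, B0.g95), (1, B4.g2), (8, B2.g28), (31, B2.g26), (4, B2.g30),
     (29, B2.g33), (9, B2.g17), (4, B2.g21), (34, B2.g13), (26, B2.g19), (98, B2.g11),
     (3, B2.g23), (52, B2.g15), (1, B6.g64), (30, B6.g62), (2, B6.g85), (88, B1.g0),
     (147, B1.g72), (3, B1.g40), (6, B1.g88), (113, B1.g4), (36, B1.g36), (35, B1.g84),
     (2, B1.g92), (29, B1.g2), (91, B1.g34), (69, B1.g82), (47, B1.g74), (36, B1.g90),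
     (86, B1.g6), (32, B1.g38), (24, B1.g86), (132, B1.g30), (7, B1.g94), (70, B1.g33),
     (5, B1.g81), (18, B1.g49), (30, B1.g9), (80, B1.g41), (5, B1.g53), (4, B1.g13),
     (32, B1.g77), (59, B1.g45), (417, B1.g3), (1, B1.g51), (15, B1.g11), (68, B1.g75),
     (45, B1.g43), (84, B1.g7), (91, B1.g71), (21, B1.g79), (3, B1.g47), (195, B1.g31),
     (2, B5.g32), (6, B5.g88), (24, B5.g20), (4, B5.g28), (2, B5.g34), (27, B5.g18), (8, B5.g26),
     (1, B5.g90), (21, B5.g86), (1, B5.g94), (1, B5.g65), (1, B5.g97), (73, B5.g17),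
     (12, B5.g57), (38, B5.g21), (1, B5.g61), (6, B5.g59), (10, B5.g23), (1, B5.g63),
     (6, B3.g80), (29, B3.g52), (20, B3.g44), (7, B3.g46), (3, B3.g110), (1, B3.g49),
     (2, B3.g105), (2, B3.g85), (5, B3.g77), (1, B3.g83), (2, B3.g51), (8, B3.g43), (1, B3.g107),
     (34, B3.g103), (1, B3.g55), (3, B3.g47)]),
   ((6, 6489921), 148,
    [(1, B0.g64), (120, B0.g32), (22, B0.g80), (32, B0.g48), (149, B0.g40), (15, B0.g88),
     (288, B0.g56), (4, B0.g82), (23, B0.g42), (209, B0.g46), (16, B0.g62), (15, B0.g33),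
     (51, B0.g81), (313, B0.g41), (24, B0.g57), (119, B0.g29), (167, B0.g61), (105, B0.g87),
     (67, B0.g55), (195, B0.g79), (25, B0.g47), (110, B0.g31), (67, B0.g63), (52, B4.g72),
     (2, B4.g120), (1, B4.g100), (1, B4.g116), (9, B4.g78), (3, B4.g94), (7, B4.g73),
     (12, B4.g117), (43, B4.g77), (7, B4.g93), (2, B4.g99), (39, B4.g115), (7, B4.g71),
     (4, B4.g95), (162, B2.g0), (78, B2.g8), (2, B2.g100), (2, B2.g116), (87, B2.g2),
     (5, B2.g10), (4, B2.g30), (10, B2.g94), (34, B2.g1), (4, B2.g9), (5, B2.g121), (2, B2.g101),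
     (2, B2.g117), (95, B2.g29), (8, B2.g3), (63, B2.g35), (33, B2.g99), (14, B2.g115),
     (5, B2.g31), (10, B2.g95), (1, B6.g32), (6, B1.g88), (33, B1.g68), (6, B1.g70),
     (24, B1.g86), (7, B1.g94), (372, B1.g62), (63, B1.g69), (212, B1.g85), (81, B1.g93),
     (44, B1.g61), (145, B1.g67), (109, B1.g87), (4, B1.g95), (51, B1.g63), (1, B5.g82),
     (57, B5.g81), (1, B5.g85), (2, B5.g99), (1, B5.g111), (1, B3.g8), (3, B3.g100), (1, B3.g12),
     (6, B3.g6), (1, B3.g101), (1, B3.g7)]),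
   ((14, 18951415754487377), 100,
    [(402, B0.g16), (22, B0.g80), (247, B0.g72), (15, B0.g88), (34, B0.g68), (282, B0.g20),
     (129, B0.g66), (4, B0.g82), (108, B0.g74), (14, B0.g26), (37, B0.g17), (51, B0.g81),
     (33, B0.g73), (199, B0.g25), (32, B0.g21), (145, B0.g13), (300, B0.g67), (115, B0.g19),
     (4, B0.g75), (84, B0.g27), (105, B0.g87), (86, B0.g15), (195, B0.g79), (1, B4.g64),
     (5, B4.g52), (31, B4.g44), (121, B4.g124), (53, B4.g50), (1, B4.g58), (9, B4.g46),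
     (5, B4.g57), (1, B4.g5), (1, B4.g53), (45, B4.g45), (2, B4.g125), (2, B4.g3), (1, B4.g51),
     (22, B4.g59), (11, B4.g63), (49, B2.g16), (31, B2.g72), (9, B2.g24), (5, B2.g84),
     (47, B2.g76), (36, B2.g82), (63, B2.g22), (233, B2.g14), (2, B2.g78), (4, B2.g30),
     (9, B2.g17), (5, B2.g73), (7, B2.g77), (95, B2.g29), (63, B2.g35), (1, B2.g83),
     (43, B2.g71), (3, B2.g23), (4, B2.g87), (52, B2.g15), (5, B2.g31), (4, B6.g22),
     (242, B1.g32), (3, B1.g40), (79, B1.g52), (153, B1.g44), (32, B1.g38), (3, B1.g54),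
     (82, B1.g46), (70, B1.g33), (195, B1.g37), (5, B1.g53), (59, B1.g45), (87, B1.g39),
     (3, B1.g47), (195, B1.g31), (10, B5.g60), (3, B5.g62), (1, B5.g61), (4, B5.g67),
     (1, B5.g63), (23, B3.g16), (6, B3.g80), (3, B3.g18), (3, B3.g82), (3, B3.g22), (4, B3.g17),
     (1, B3.g83), (1, B3.g23), (18, B3.g79)]),
   ((6, 7750416), 289,
    [(181, B0.g96), (195, B0.g95), (1, B4.g2), (8, B2.g28), (31, B2.g26), (4, B2.g30),
     (29, B2.g33), (9, B2.g17), (4, B2.g21), (34, B2.g13), (26, B2.g19), (98, B2.g11),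
     (3, B2.g23), (52, B2.g15), (1, B6.g64), (30, B6.g62), (2, B6.g85), (88, B1.g0),
     (147, B1.g72), (3, B1.g40), (6, B1.g88), (113, B1.g4), (36, B1.g36), (35, B1.g84),
     (2, B1.g92), (29, B1.g2), (91, B1.g34), (69, B1.g82), (47, B1.g74), (36, B1.g90),
     (86, B1.g6), (32, B1.g38), (24, B1.g86), (132, B1.g30), (7, B1.g94), (70, B1.g33),
     (5, B1.g81), (18, B1.g49), (30, B1.g9), (80, B1.g41), (5, B1.g53), (4, B1.g13),
     (32, B1.g77), (59, B1.g45), (417, B1.g3), (1, B1.g51), (15, B1.g11), (68, B1.g75),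
     (45, B1.g43), (84, B1.g7), (91, B1.g71), (21, B1.g79), (3, B1.g47), (195, B1.g31),
     (2, B5.g32), (6, B5.g88), (24, B5.g20), (4, B5.g28), (2, B5.g34), (27, B5.g18), (8, B5.g26),
     (1, B5.g90), (21, B5.g86), (1, B5.g94), (1, B5.g65), (1, B5.g97), (73, B5.g17),
     (12, B5.g57), (38, B5.g21), (1, B5.g61), (6, B5.g59), (10, B5.g23), (1, B5.g63),
     (6, B3.g80), (29, B3.g52), (20, B3.g44), (7, B3.g46), (3, B3.g110), (1, B3.g49),
     (2, B3.g105), (2, B3.g85), (5, B3.g77), (1, B3.g83), (2, B3.g51), (8, B3.g43), (1, B3.g107),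
     (34, B3.g103), (1, B3.g55), (3, B3.g47)]),
   ((14, 23703633412903952), 137,
    [(1, B0.g64), (199, B0.g36), (17, B0.g84), (96, B0.g28), (17, B0.g60), (265, B0.g50),
     (65, B0.g58), (29, B0.g38), (2, B0.g86), (97, B0.g30), (16, B0.g62), (15, B0.g33),
     (33, B0.g73), (97, B0.g69), (48, B0.g53), (9, B0.g45), (116, B0.g35), (91, B0.g51),
     (4, B0.g75), (48, B0.g43), (28, B0.g71), (25, B0.g47), (110, B0.g31), (1, B4.g100),
     (5, B4.g76), (55, B4.g66), (26, B4.g74), (9, B4.g78), (4, B4.g97), (10, B4.g105),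
     (1, B4.g89), (3, B4.g69), (3, B4.g85), (1, B4.g109), (49, B4.g67), (10, B4.g83),
     (11, B4.g107), (1, B4.g87), (1, B4.g119), (1, B4.g111), (8, B2.g96), (2, B2.g100),
     (1, B2.g108), (3, B2.g92), (1, B2.g98), (16, B2.g106), (44, B2.g90), (6, B2.g110),
     (36, B2.g126), (29, B2.g33), (4, B2.g9), (30, B2.g89), (29, B2.g5), (4, B2.g21),
     (26, B2.g19), (2, B2.g7), (3, B2.g23), (2, B2.g119), (1, B6.g34), (2, B6.g27), (43, B1.g64),
     (17, B1.g104), (176, B1.g56), (33, B1.g68), (72, B1.g100), (2, B1.g92), (19, B1.g66),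
     (13, B1.g106), (36, B1.g90), (6, B1.g70), (37, B1.g102), (7, B1.g94), (5, B1.g81),
     (61, B1.g57), (32, B1.g77), (68, B1.g75), (36, B1.g59), (21, B1.g79), (4, B5.g84),
     (2, B5.g76), (13, B5.g74), (6, B5.g106), (1, B5.g94), (1, B3.g0), (1, B3.g96), (27, B3.g92),
     (1, B3.g124), (3, B3.g2), (1, B3.g10), (2, B3.g122), (3, B3.g110), (14, B3.g94), (1, B3.g21)]),
   ((8, 1620534032), 274,
    [(163, B0.g90), (22, B0.g94), (185, B0.g93), (128, B0.g91), (8, B2.g28), (87, B2.g2),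
     (46, B2.g34), (5, B2.g10), (73, B2.g6), (8, B2.g3), (52, B2.g27), (2, B2.g7), (5, B2.g31),
     (44, B6.g58), (1, B6.g59), (3, B6.g79), (199, B1.g8), (121, B1.g24), (6, B1.g88),
     (35, B1.g84), (43, B1.g12), (162, B1.g108), (45, B1.g28), (2, B1.g92), (120, B1.g60),
     (19, B1.g66), (34, B1.g50), (167, B1.g42), (86, B1.g6), (6, B1.g70), (37, B1.g22),
     (3, B1.g54), (82, B1.g46), (372, B1.g62), (113, B1.g65), (30, B1.g9), (22, B1.g25),
     (315, B1.g5), (63, B1.g69), (259, B1.g21), (4, B1.g13), (31, B1.g109), (4, B1.g29),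
     (417, B1.g3), (116, B1.g19), (187, B1.g83), (1, B1.g51), (45, B1.g43), (71, B1.g91),
     (109, B1.g87), (3, B1.g47), (4, B1.g95), (51, B1.g63), (2, B5.g80), (71, B5.g48),
     (1, B5.g52), (4, B5.g28), (6, B5.g98), (2, B5.g14), (2, B5.g110), (4, B5.g30), (2, B5.g49),
     (37, B5.g9), (3, B5.g69), (15, B5.g13), (1, B5.g35), (23, B5.g11), (58, B5.g27),
     (1, B5.g55), (13, B5.g79), (1, B3.g56), (2, B3.g36), (1, B3.g76), (5, B3.g98), (4, B3.g42),
     (1, B3.g70), (20, B3.g38), (1, B3.g86), (22, B3.g33), (2, B3.g73), (8, B3.g69), (4, B3.g53),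
     (4, B3.g35), (7, B3.g99), (1, B3.g39), (1, B3.g127)]),
   ((14, 19495875545289744), 74,
    [(1, B0.g64), (402, B0.g16), (10, B0.g24), (15, B0.g88), (242, B0.g52), (11, B0.g12),
     (17, B0.g60), (265, B0.g50), (108, B0.g74), (191, B0.g70), (2, B0.g86), (106, B0.g14),
     (37, B0.g17), (50, B0.g9), (52, B0.g85), (48, B0.g53), (261, B0.g11), (4, B0.g75),
     (84, B0.g27), (126, B0.g59), (147, B0.g7), (28, B0.g71), (135, B0.g23), (67, B0.g63),
     (12, B4.g32), (35, B4.g48), (5, B4.g52), (5, B4.g42), (92, B4.g106), (42, B4.g38),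
     (5, B4.g110), (3, B4.g62), (3, B4.g49), (1, B4.g53), (26, B4.g29), (11, B4.g107),
     (4, B4.g39), (1, B4.g111), (34, B4.g31), (9, B2.g24), (31, B2.g56), (100, B2.g20),
     (4, B2.g66), (46, B2.g34), (5, B2.g10), (35, B2.g58), (73, B2.g6), (5, B2.g86), (2, B2.g78),
     (82, B2.g65), (3, B2.g69), (4, B2.g21), (7, B2.g75), (1, B2.g59), (2, B2.g7), (25, B2.g127),
     (1, B6.g76), (3, B6.g18), (19, B6.g10), (3, B1.g40), (121, B1.g24), (36, B1.g36),
     (45, B1.g28), (17, B1.g18), (34, B1.g50), (13, B1.g106), (37, B1.g102), (3, B1.g54),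
     (233, B1.g17), (58, B1.g105), (22, B1.g25), (230, B1.g101), (4, B1.g29), (166, B1.g35),
     (1, B1.g51), (87, B1.g39), (139, B1.g15), (2, B5.g66), (6, B5.g42), (2, B5.g46),
     (55, B5.g41), (1, B5.g45), (1, B5.g107), (1, B5.g55), (1, B3.g0), (9, B3.g64), (2, B3.g20),
     (1, B3.g76), (1, B3.g124), (5, B3.g65), (1, B3.g21), (2, B3.g3), (1, B3.g11), (2, B3.g123),
     (1, B3.g23)])]

/-- lights 81 -/
noncomputable def plB_81 : List ((ℕ × ℕ) × ℕ × List (ℕ × ℕ)) :=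
  [((0, 0), 81,
    [(1, B0.g64), (22, B0.g80), (186, B0.g8), (10, B0.g24), (17, B0.g84), (11, B0.g12),
     (79, B0.g76), (17, B0.g60), (114, B0.g18), (4, B0.g82), (102, B0.g10), (14, B0.g26),
     (65, B0.g58), (67, B0.g22), (2, B0.g86), (141, B0.g54), (29, B0.g78), (16, B0.g62),
     (50, B0.g9), (24, B0.g57), (32, B0.g21), (115, B0.g19), (67, B0.g55), (1, B4.g64),
     (23, B4.g112), (9, B4.g56), (6, B4.g36), (1, B4.g116), (32, B4.g34), (11, B4.g114),
     (1, B4.g58), (8, B4.g54), (83, B4.g33), (14, B4.g41), (28, B4.g37), (3, B4.g61),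
     (4, B4.g39), (1, B4.g119), (29, B2.g64), (1, B2.g68), (8, B2.g28), (20, B2.g60),
     (4, B2.g66), (31, B2.g26), (4, B2.g30), (34, B2.g1), (29, B2.g33), (4, B2.g81), (4, B2.g9),
     (29, B2.g5), (28, B2.g61), (8, B2.g3), (1, B2.g83), (2, B2.g7), (8, B2.g79), (1, B2.g63),
     (1, B6.g48), (22, B6.g12), (2, B6.g14), (3, B6.g78), (142, B1.g20), (37, B1.g22),
     (18, B1.g49), (80, B1.g41), (22, B1.g25), (5, B1.g53), (59, B1.g45), (31, B1.g109),
     (4, B1.g29), (116, B1.g19), (1, B1.g51), (45, B1.g43), (78, B1.g107), (33, B1.g27),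
     (81, B1.g23), (3, B1.g47), (1, B5.g0), (1, B5.g2), (3, B5.g54), (2, B5.g49), (4, B5.g51),
     (19, B5.g47), (2, B3.g72), (5, B3.g4), (22, B3.g68), (1, B3.g10), (1, B3.g70), (1, B3.g25),
     (2, B3.g85), (6, B3.g75), (1, B3.g7)]),
   ((14, 14729291113129283), 81,
    [(1, B0.g64), (22, B0.g80), (186, B0.g8), (10, B0.g24), (17, B0.g84), (11, B0.g12),
     (79, B0.g76), (17, B0.g60), (114, B0.g18), (4, B0.g82), (102, B0.g10), (14, B0.g26),
     (65, B0.g58), (67, B0.g22), (2, B0.g86), (141, B0.g54), (29, B0.g78), (16, B0.g62),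
     (50, B0.g9), (24, B0.g57), (32, B0.g21), (115, B0.g19), (67, B0.g55), (1, B4.g64),
     (23, B4.g112), (9, B4.g56), (6, B4.g36), (1, B4.g116), (32, B4.g34), (11, B4.g114),
     (1, B4.g58), (8, B4.g54), (83, B4.g33), (14, B4.g41), (28, B4.g37), (3, B4.g61),
     (4, B4.g39), (1, B4.g119), (29, B2.g64), (1, B2.g68), (8, B2.g28), (20, B2.g60),
     (4, B2.g66), (31, B2.g26), (4, B2.g30), (34, B2.g1), (29, B2.g33), (4, B2.g81), (4, B2.g9),
     (29, B2.g5), (28, B2.g61), (8, B2.g3), (1, B2.g83), (2, B2.g7), (8, B2.g79), (1, B2.g63),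
     (1, B6.g48), (22, B6.g12), (2, B6.g14), (3, B6.g78), (142, B1.g20), (37, B1.g22),
     (18, B1.g49), (80, B1.g41), (22, B1.g25), (5, B1.g53), (59, B1.g45), (31, B1.g109),
     (4, B1.g29), (116, B1.g19), (1, B1.g51), (45, B1.g43), (78, B1.g107), (33, B1.g27),
     (81, B1.g23), (3, B1.g47), (1, B5.g0), (1, B5.g2), (3, B5.g54), (2, B5.g49), (4, B5.g51),
     (19, B5.g47), (2, B3.g72), (5, B3.g4), (22, B3.g68), (1, B3.g10), (1, B3.g70), (1, B3.g25),
     (2, B3.g85), (6, B3.g75), (1, B3.g7)]),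
   ((6, 3765297), 81,
    [(1, B0.g64), (22, B0.g80), (186, B0.g8), (10, B0.g24), (17, B0.g84), (11, B0.g12),
     (79, B0.g76), (17, B0.g60), (114, B0.g18), (4, B0.g82), (102, B0.g10), (14, B0.g26),
     (65, B0.g58), (67, B0.g22), (2, B0.g86), (141, B0.g54), (29, B0.g78), (16, B0.g62),
     (50, B0.g9), (24, B0.g57), (32, B0.g21), (115, B0.g19), (67, B0.g55), (1, B4.g64),
     (23, B4.g112), (9, B4.g56), (6, B4.g36), (1, B4.g116), (32, B4.g34), (11, B4.g114),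
     (1, B4.g58), (8, B4.g54), (83, B4.g33), (14, B4.g41), (28, B4.g37), (3, B4.g61),
     (4, B4.g39), (1, B4.g119), (29, B2.g64), (1, B2.g68), (8, B2.g28), (20, B2.g60),
     (4, B2.g66), (31, B2.g26), (4, B2.g30), (34, B2.g1), (29, B2.g33), (4, B2.g81), (4, B2.g9),
     (29, B2.g5), (28, B2.g61), (8, B2.g3), (1, B2.g83), (2, B2.g7), (8, B2.g79), (1, B2.g63),
     (1, B6.g48), (22, B6.g12), (2, B6.g14), (3, B6.g78), (142, B1.g20), (37, B1.g22),
     (18, B1.g49), (80, B1.g41), (22, B1.g25), (5, B1.g53), (59, B1.g45), (31, B1.g109),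
     (4, B1.g29), (116, B1.g19), (1, B1.g51), (45, B1.g43), (78, B1.g107), (33, B1.g27),
     (81, B1.g23), (3, B1.g47), (1, B5.g0), (1, B5.g2), (3, B5.g54), (2, B5.g49), (4, B5.g51),
     (19, B5.g47), (2, B3.g72), (5, B3.g4), (22, B3.g68), (1, B3.g10), (1, B3.g70), (1, B3.g25),
     (2, B3.g85), (6, B3.g75), (1, B3.g7)]),
   ((12, 58563578258737), 81,
    [(1, B0.g64), (22, B0.g80), (186, B0.g8), (10, B0.g24), (17, B0.g84), (11, B0.g12),
     (79, B0.g76), (17, B0.g60), (114, B0.g18), (4, B0.g82), (102, B0.g10), (14, B0.g26),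
     (65, B0.g58), (67, B0.g22), (2, B0.g86), (141, B0.g54), (29, B0.g78), (16, B0.g62),
     (50, B0.g9), (24, B0.g57), (32, B0.g21), (115, B0.g19), (67, B0.g55), (1, B4.g64),
     (23, B4.g112), (9, B4.g56), (6, B4.g36), (1, B4.g116), (32, B4.g34), (11, B4.g114),
     (1, B4.g58), (8, B4.g54), (83, B4.g33), (14, B4.g41), (28, B4.g37), (3, B4.g61),
     (4, B4.g39), (1, B4.g119), (29, B2.g64), (1, B2.g68), (8, B2.g28), (20, B2.g60),
     (4, B2.g66), (31, B2.g26), (4, B2.g30), (34, B2.g1), (29, B2.g33), (4, B2.g81), (4, B2.g9),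
     (29, B2.g5), (28, B2.g61), (8, B2.g3), (1, B2.g83), (2, B2.g7), (8, B2.g79), (1, B2.g63),
     (1, B6.g48), (22, B6.g12), (2, B6.g14), (3, B6.g78), (142, B1.g20), (37, B1.g22),
     (18, B1.g49), (80, B1.g41), (22, B1.g25), (5, B1.g53), (59, B1.g45), (31, B1.g109),
     (4, B1.g29), (116, B1.g19), (1, B1.g51), (45, B1.g43), (78, B1.g107), (33, B1.g27),
     (81, B1.g23), (3, B1.g47), (1, B5.g0), (1, B5.g2), (3, B5.g54), (2, B5.g49), (4, B5.g51),
     (19, B5.g47), (2, B3.g72), (5, B3.g4), (22, B3.g68), (1, B3.g10), (1, B3.g70), (1, B3.g25),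
     (2, B3.g85), (6, B3.g75), (1, B3.g7)]),
   ((4, 38464), 162,
    [(32, B0.g48), (15, B0.g88), (34, B0.g68), (138, B0.g44), (194, B0.g34), (4, B0.g82),
     (108, B0.g74), (23, B0.g42), (191, B0.g70), (29, B0.g38), (2, B0.g86), (29, B0.g78),
     (152, B0.g65), (51, B0.g81), (313, B0.g41), (295, B0.g37), (52, B0.g85), (243, B0.g77),
     (9, B0.g45), (300, B0.g67), (116, B0.g35), (4, B0.g75), (28, B0.g71), (83, B0.g39),
     (4, B4.g88), (154, B4.g84), (16, B4.g92), (1, B4.g2), (1, B4.g98), (5, B4.g82),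
     (32, B4.g122), (76, B4.g81), (1, B4.g89), (3, B4.g85), (2, B4.g125), (63, B4.g91),
     (2, B4.g123), (56, B4.g79), (4, B4.g95), (49, B2.g16), (27, B2.g104), (9, B2.g24),
     (2, B2.g120), (100, B2.g20), (109, B2.g12), (1, B2.g108), (8, B2.g28), (46, B2.g34),
     (1, B2.g114), (8, B2.g102), (9, B2.g17), (19, B2.g113), (1, B2.g105), (4, B2.g21),
     (2, B2.g117), (34, B2.g13), (29, B2.g107), (52, B2.g27), (11, B2.g111), (5, B2.g31),
     (9, B6.g35), (90, B1.g80), (6, B1.g88), (35, B1.g84), (236, B1.g76), (2, B1.g92),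
     (47, B1.g74), (5, B1.g81), (317, B1.g73), (32, B1.g77), (187, B1.g83), (71, B1.g91),
     (91, B1.g71), (109, B1.g87), (4, B1.g95), (6, B5.g88), (1, B5.g2), (6, B5.g98), (1, B5.g94),
     (22, B5.g1), (2, B5.g93), (8, B5.g91), (32, B5.g87), (15, B3.g104), (2, B3.g20),
     (1, B3.g108), (3, B3.g18), (4, B3.g26), (19, B3.g14), (2, B3.g105), (1, B3.g21),
     (1, B3.g23), (3, B3.g15), (1, B3.g111)]),
   ((16, 3761987165940503600), 162,
    [(32, B0.g48), (15, B0.g88), (34, B0.g68), (138, B0.g44), (194, B0.g34), (4, B0.g82),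
     (108, B0.g74), (23, B0.g42), (191, B0.g70), (29, B0.g38), (2, B0.g86), (29, B0.g78),
     (152, B0.g65), (51, B0.g81), (313, B0.g41), (295, B0.g37), (52, B0.g85), (243, B0.g77),
     (9, B0.g45), (300, B0.g67), (116, B0.g35), (4, B0.g75), (28, B0.g71), (83, B0.g39),
     (4, B4.g88), (154, B4.g84), (16, B4.g92), (1, B4.g2), (1, B4.g98), (5, B4.g82),
     (32, B4.g122), (76, B4.g81), (1, B4.g89), (3, B4.g85), (2, B4.g125), (63, B4.g91),
     (2, B4.g123), (56, B4.g79), (4, B4.g95), (49, B2.g16), (27, B2.g104), (9, B2.g24),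
     (2, B2.g120), (100, B2.g20), (109, B2.g12), (1, B2.g108), (8, B2.g28), (46, B2.g34),
     (1, B2.g114), (8, B2.g102), (9, B2.g17), (19, B2.g113), (1, B2.g105), (4, B2.g21),
     (2, B2.g117), (34, B2.g13), (29, B2.g107), (52, B2.g27), (11, B2.g111), (5, B2.g31),
     (9, B6.g35), (90, B1.g80), (6, B1.g88), (35, B1.g84), (236, B1.g76), (2, B1.g92),
     (47, B1.g74), (5, B1.g81), (317, B1.g73), (32, B1.g77), (187, B1.g83), (71, B1.g91),
     (91, B1.g71), (109, B1.g87), (4, B1.g95), (6, B5.g88), (1, B5.g2), (6, B5.g98), (1, B5.g94),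
     (22, B5.g1), (2, B5.g93), (8, B5.g91), (32, B5.g87), (15, B3.g104), (2, B3.g20),
     (1, B3.g108), (3, B3.g18), (4, B3.g26), (19, B3.g14), (2, B3.g105), (1, B3.g21),
     (1, B3.g23), (3, B3.g15), (1, B3.g111)]),
   ((6, 6489921), 162,
    [(32, B0.g48), (15, B0.g88), (34, B0.g68), (138, B0.g44), (194, B0.g34), (4, B0.g82),
     (108, B0.g74), (23, B0.g42), (191, B0.g70), (29, B0.g38), (2, B0.g86), (29, B0.g78),
     (152, B0.g65), (51, B0.g81), (313, B0.g41), (295, B0.g37), (52, B0.g85), (243, B0.g77),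
     (9, B0.g45), (300, B0.g67), (116, B0.g35), (4, B0.g75), (28, B0.g71), (83, B0.g39),
     (4, B4.g88), (154, B4.g84), (16, B4.g92), (1, B4.g2), (1, B4.g98), (5, B4.g82),
     (32, B4.g122), (76, B4.g81), (1, B4.g89), (3, B4.g85), (2, B4.g125), (63, B4.g91),
     (2, B4.g123), (56, B4.g79), (4, B4.g95), (49, B2.g16), (27, B2.g104), (9, B2.g24),
     (2, B2.g120), (100, B2.g20), (109, B2.g12), (1, B2.g108), (8, B2.g28), (46, B2.g34),
     (1, B2.g114), (8, B2.g102), (9, B2.g17), (19, B2.g113), (1, B2.g105), (4, B2.g21),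
     (2, B2.g117), (34, B2.g13), (29, B2.g107), (52, B2.g27), (11, B2.g111), (5, B2.g31),
     (9, B6.g35), (90, B1.g80), (6, B1.g88), (35, B1.g84), (236, B1.g76), (2, B1.g92),
     (47, B1.g74), (5, B1.g81), (317, B1.g73), (32, B1.g77), (187, B1.g83), (71, B1.g91),
     (91, B1.g71), (109, B1.g87), (4, B1.g95), (6, B5.g88), (1, B5.g2), (6, B5.g98), (1, B5.g94),
     (22, B5.g1), (2, B5.g93), (8, B5.g91), (32, B5.g87), (15, B3.g104), (2, B3.g20),
     (1, B3.g108), (3, B3.g18), (4, B3.g26), (19, B3.g14), (2, B3.g105), (1, B3.g21),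
     (1, B3.g23), (3, B3.g15), (1, B3.g111)]),
   ((14, 18951415754487377), 162,
    [(32, B0.g48), (15, B0.g88), (34, B0.g68), (138, B0.g44), (194, B0.g34), (4, B0.g82),
     (108, B0.g74), (23, B0.g42), (191, B0.g70), (29, B0.g38), (2, B0.g86), (29, B0.g78),
     (152, B0.g65), (51, B0.g81), (313, B0.g41), (295, B0.g37), (52, B0.g85), (243, B0.g77),
     (9, B0.g45), (300, B0.g67), (116, B0.g35), (4, B0.g75), (28, B0.g71), (83, B0.g39),
     (4, B4.g88), (154, B4.g84), (16, B4.g92), (1, B4.g2), (1, B4.g98), (5, B4.g82),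
     (32, B4.g122), (76, B4.g81), (1, B4.g89), (3, B4.g85), (2, B4.g125), (63, B4.g91),
     (2, B4.g123), (56, B4.g79), (4, B4.g95), (49, B2.g16), (27, B2.g104), (9, B2.g24),
     (2, B2.g120), (100, B2.g20), (109, B2.g12), (1, B2.g108), (8, B2.g28), (46, B2.g34),
     (1, B2.g114), (8, B2.g102), (9, B2.g17), (19, B2.g113), (1, B2.g105), (4, B2.g21),
     (2, B2.g117), (34, B2.g13), (29, B2.g107), (52, B2.g27), (11, B2.g111), (5, B2.g31),
     (9, B6.g35), (90, B1.g80), (6, B1.g88), (35, B1.g84), (236, B1.g76), (2, B1.g92),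
     (47, B1.g74), (5, B1.g81), (317, B1.g73), (32, B1.g77), (187, B1.g83), (71, B1.g91),
     (91, B1.g71), (109, B1.g87), (4, B1.g95), (6, B5.g88), (1, B5.g2), (6, B5.g98), (1, B5.g94),
     (22, B5.g1), (2, B5.g93), (8, B5.g91), (32, B5.g87), (15, B3.g104), (2, B3.g20),
     (1, B3.g108), (3, B3.g18), (4, B3.g26), (19, B3.g14), (2, B3.g105), (1, B3.g21),
     (1, B3.g23), (3, B3.g15), (1, B3.g111)]),
   ((6, 7750416), 268,
    [(135, B0.g92), (22, B0.g94), (289, B0.g89), (185, B0.g93), (1, B4.g5), (78, B2.g8),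
     (9, B2.g24), (5, B2.g10), (63, B2.g22), (4, B2.g9), (63, B2.g35), (3, B2.g23), (10, B6.g56),
     (2, B6.g69), (88, B1.g0), (107, B1.g16), (90, B1.g80), (3, B1.g40), (17, B1.g104),
     (33, B1.g68), (79, B1.g52), (43, B1.g12), (45, B1.g28), (29, B1.g2), (17, B1.g18),
     (202, B1.g10), (13, B1.g106), (329, B1.g26), (206, B1.g58), (6, B1.g70), (32, B1.g38),
     (3, B1.g54), (221, B1.g78), (7, B1.g94), (318, B1.g1), (233, B1.g17), (5, B1.g81),
     (58, B1.g105), (61, B1.g57), (63, B1.g69), (195, B1.g37), (5, B1.g53), (4, B1.g13),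
     (4, B1.g29), (81, B1.g93), (145, B1.g67), (15, B1.g11), (33, B1.g27), (36, B1.g59),
     (87, B1.g39), (118, B1.g103), (21, B1.g79), (4, B1.g95), (7, B5.g16), (6, B5.g8),
     (61, B5.g24), (4, B5.g56), (14, B5.g44), (2, B5.g108), (2, B5.g34), (19, B5.g6),
     (2, B5.g46), (8, B5.g33), (12, B5.g25), (1, B5.g85), (41, B5.g77), (1, B5.g45), (4, B5.g67),
     (1, B5.g35), (24, B5.g43), (30, B5.g7), (114, B5.g15), (5, B5.g95), (5, B3.g32),
     (1, B3.g96), (5, B3.g112), (15, B3.g40), (14, B3.g66), (3, B3.g82), (14, B3.g50),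
     (4, B3.g42), (2, B3.g58), (24, B3.g30), (4, B3.g41), (4, B3.g125), (11, B3.g67),
     (1, B3.g83), (2, B3.g51), (23, B3.g31), (12, B3.g95)]),
   ((14, 23703633412903952), 268,
    [(135, B0.g92), (22, B0.g94), (289, B0.g89), (185, B0.g93), (1, B4.g5), (78, B2.g8),
     (9, B2.g24), (5, B2.g10), (63, B2.g22), (4, B2.g9), (63, B2.g35), (3, B2.g23), (10, B6.g56),
     (2, B6.g69), (88, B1.g0), (107, B1.g16), (90, B1.g80), (3, B1.g40), (17, B1.g104),
     (33, B1.g68), (79, B1.g52), (43, B1.g12), (45, B1.g28), (29, B1.g2), (17, B1.g18),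
     (202, B1.g10), (13, B1.g106), (329, B1.g26), (206, B1.g58), (6, B1.g70), (32, B1.g38),
     (3, B1.g54), (221, B1.g78), (7, B1.g94), (318, B1.g1), (233, B1.g17), (5, B1.g81),
     (58, B1.g105), (61, B1.g57), (63, B1.g69), (195, B1.g37), (5, B1.g53), (4, B1.g13),
     (4, B1.g29), (81, B1.g93), (145, B1.g67), (15, B1.g11), (33, B1.g27), (36, B1.g59),
     (87, B1.g39), (118, B1.g103), (21, B1.g79), (4, B1.g95), (7, B5.g16), (6, B5.g8),
     (61, B5.g24), (4, B5.g56), (14, B5.g44), (2, B5.g108), (2, B5.g34), (19, B5.g6),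
     (2, B5.g46), (8, B5.g33), (12, B5.g25), (1, B5.g85), (41, B5.g77), (1, B5.g45), (4, B5.g67),
     (1, B5.g35), (24, B5.g43), (30, B5.g7), (114, B5.g15), (5, B5.g95), (5, B3.g32),
     (1, B3.g96), (5, B3.g112), (15, B3.g40), (14, B3.g66), (3, B3.g82), (14, B3.g50),
     (4, B3.g42), (2, B3.g58), (24, B3.g30), (4, B3.g41), (4, B3.g125), (11, B3.g67),
     (1, B3.g83), (2, B3.g51), (23, B3.g31), (12, B3.g95)]),
   ((8, 1620534032), 268,
    [(135, B0.g92), (22, B0.g94), (289, B0.g89), (185, B0.g93), (1, B4.g5), (78, B2.g8),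
     (9, B2.g24), (5, B2.g10), (63, B2.g22), (4, B2.g9), (63, B2.g35), (3, B2.g23), (10, B6.g56),
     (2, B6.g69), (88, B1.g0), (107, B1.g16), (90, B1.g80), (3, B1.g40), (17, B1.g104),
     (33, B1.g68), (79, B1.g52), (43, B1.g12), (45, B1.g28), (29, B1.g2), (17, B1.g18),
     (202, B1.g10), (13, B1.g106), (329, B1.g26), (206, B1.g58), (6, B1.g70), (32, B1.g38),
     (3, B1.g54), (221, B1.g78), (7, B1.g94), (318, B1.g1), (233, B1.g17), (5, B1.g81),
     (58, B1.g105), (61, B1.g57), (63, B1.g69), (195, B1.g37), (5, B1.g53), (4, B1.g13),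
     (4, B1.g29), (81, B1.g93), (145, B1.g67), (15, B1.g11), (33, B1.g27), (36, B1.g59),
     (87, B1.g39), (118, B1.g103), (21, B1.g79), (4, B1.g95), (7, B5.g16), (6, B5.g8),
     (61, B5.g24), (4, B5.g56), (14, B5.g44), (2, B5.g108), (2, B5.g34), (19, B5.g6),
     (2, B5.g46), (8, B5.g33), (12, B5.g25), (1, B5.g85), (41, B5.g77), (1, B5.g45), (4, B5.g67),
     (1, B5.g35), (24, B5.g43), (30, B5.g7), (114, B5.g15), (5, B5.g95), (5, B3.g32),
     (1, B3.g96), (5, B3.g112), (15, B3.g40), (14, B3.g66), (3, B3.g82), (14, B3.g50),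
     (4, B3.g42), (2, B3.g58), (24, B3.g30), (4, B3.g41), (4, B3.g125), (11, B3.g67),
     (1, B3.g83), (2, B3.g51), (23, B3.g31), (12, B3.g95)]),
   ((14, 19495875545289744), 268,
    [(135, B0.g92), (22, B0.g94), (289, B0.g89), (185, B0.g93), (1, B4.g5), (78, B2.g8),
     (9, B2.g24), (5, B2.g10), (63, B2.g22), (4, B2.g9), (63, B2.g35), (3, B2.g23), (10, B6.g56),
     (2, B6.g69), (88, B1.g0), (107, B1.g16), (90, B1.g80), (3, B1.g40), (17, B1.g104),
     (33, B1.g68), (79, B1.g52), (43, B1.g12), (45, B1.g28), (29, B1.g2), (17, B1.g18),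
     (202, B1.g10), (13, B1.g106), (329, B1.g26), (206, B1.g58), (6, B1.g70), (32, B1.g38),
     (3, B1.g54), (221, B1.g78), (7, B1.g94), (318, B1.g1), (233, B1.g17), (5, B1.g81),
     (58, B1.g105), (61, B1.g57), (63, B1.g69), (195, B1.g37), (5, B1.g53), (4, B1.g13),
     (4, B1.g29), (81, B1.g93), (145, B1.g67), (15, B1.g11), (33, B1.g27), (36, B1.g59),
     (87, B1.g39), (118, B1.g103), (21, B1.g79), (4, B1.g95), (7, B5.g16), (6, B5.g8),
     (61, B5.g24), (4, B5.g56), (14, B5.g44), (2, B5.g108), (2, B5.g34), (19, B5.g6),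
     (2, B5.g46), (8, B5.g33), (12, B5.g25), (1, B5.g85), (41, B5.g77), (1, B5.g45), (4, B5.g67),
     (1, B5.g35), (24, B5.g43), (30, B5.g7), (114, B5.g15), (5, B5.g95), (5, B3.g32),
     (1, B3.g96), (5, B3.g112), (15, B3.g40), (14, B3.g66), (3, B3.g82), (14, B3.g50),
     (4, B3.g42), (2, B3.g58), (24, B3.g30), (4, B3.g41), (4, B3.g125), (11, B3.g67),
     (1, B3.g83), (2, B3.g51), (23, B3.g31), (12, B3.g95)])]

/-- lights 82 -/
noncomputable def plB_82 : List ((ℕ × ℕ) × ℕ × List (ℕ × ℕ)) :=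
  [((0, 0), 82,
    [(1, B0.g64), (186, B0.g8), (10, B0.g24), (15, B0.g88), (288, B0.g56), (282, B0.g20),
     (11, B0.g12), (17, B0.g60), (114, B0.g18), (4, B0.g82), (2, B0.g86), (141, B0.g54),
     (29, B0.g78), (51, B0.g81), (50, B0.g9), (24, B0.g57), (32, B0.g21), (52, B0.g85),
     (243, B0.g77), (261, B0.g11), (84, B0.g27), (126, B0.g59), (135, B0.g23), (67, B0.g63),
     (9, B4.g56), (6, B4.g36), (11, B4.g114), (5, B4.g42), (42, B4.g38), (3, B4.g62),
     (83, B4.g33), (44, B4.g113), (12, B4.g117), (80, B4.g35), (22, B4.g59), (4, B4.g39),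
     (29, B4.g55), (54, B2.g80), (5, B2.g84), (8, B2.g28), (20, B2.g60), (87, B2.g2),
     (4, B2.g66), (46, B2.g34), (5, B2.g10), (73, B2.g6), (5, B2.g86), (34, B2.g62),
     (82, B2.g65), (4, B2.g81), (3, B2.g69), (8, B2.g3), (52, B2.g27), (2, B2.g7), (5, B2.g31),
     (1, B2.g63), (4, B6.g16), (3, B6.g18), (2, B6.g14), (2, B6.g25), (26, B6.g13), (3, B6.g79),
     (121, B1.g24), (162, B1.g108), (45, B1.g28), (34, B1.g50), (167, B1.g42), (37, B1.g22),
     (3, B1.g54), (82, B1.g46), (22, B1.g25), (259, B1.g21), (31, B1.g109), (4, B1.g29),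
     (116, B1.g19), (1, B1.g51), (45, B1.g43), (3, B1.g47), (71, B5.g48), (1, B5.g52),
     (1, B5.g2), (2, B5.g110), (22, B5.g1), (2, B5.g49), (3, B5.g69), (1, B5.g55), (1, B3.g8),
     (1, B3.g76), (4, B3.g26), (1, B3.g70), (1, B3.g86), (2, B3.g73), (9, B3.g5), (8, B3.g69),
     (1, B3.g11), (1, B3.g127)]),
   ((14, 14729291113129283), 82,
    [(1, B0.g64), (186, B0.g8), (10, B0.g24), (15, B0.g88), (288, B0.g56), (282, B0.g20),
     (11, B0.g12), (17, B0.g60), (114, B0.g18), (4, B0.g82), (2, B0.g86), (141, B0.g54),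
     (29, B0.g78), (51, B0.g81), (50, B0.g9), (24, B0.g57), (32, B0.g21), (52, B0.g85),
     (243, B0.g77), (261, B0.g11), (84, B0.g27), (126, B0.g59), (135, B0.g23), (67, B0.g63),
     (9, B4.g56), (6, B4.g36), (11, B4.g114), (5, B4.g42), (42, B4.g38), (3, B4.g62),
     (83, B4.g33), (44, B4.g113), (12, B4.g117), (80, B4.g35), (22, B4.g59), (4, B4.g39),
     (29, B4.g55), (54, B2.g80), (5, B2.g84), (8, B2.g28), (20, B2.g60), (87, B2.g2),
     (4, B2.g66), (46, B2.g34), (5, B2.g10), (73, B2.g6), (5, B2.g86), (34, B2.g62),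
     (82, B2.g65), (4, B2.g81), (3, B2.g69), (8, B2.g3), (52, B2.g27), (2, B2.g7), (5, B2.g31),
     (1, B2.g63), (4, B6.g16), (3, B6.g18), (2, B6.g14), (2, B6.g25), (26, B6.g13), (3, B6.g79),
     (121, B1.g24), (162, B1.g108), (45, B1.g28), (34, B1.g50), (167, B1.g42), (37, B1.g22),
     (3, B1.g54), (82, B1.g46), (22, B1.g25), (259, B1.g21), (31, B1.g109), (4, B1.g29),
     (116, B1.g19), (1, B1.g51), (45, B1.g43), (3, B1.g47), (71, B5.g48), (1, B5.g52),
     (1, B5.g2), (2, B5.g110), (22, B5.g1), (2, B5.g49), (3, B5.g69), (1, B5.g55), (1, B3.g8),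
     (1, B3.g76), (4, B3.g26), (1, B3.g70), (1, B3.g86), (2, B3.g73), (9, B3.g5), (8, B3.g69),
     (1, B3.g11), (1, B3.g127)]),
   ((6, 3765297), 84,
    [(1, B0.g64), (22, B0.g80), (186, B0.g8), (15, B0.g88), (288, B0.g56), (282, B0.g20),
     (11, B0.g12), (4, B0.g82), (102, B0.g10), (14, B0.g26), (16, B0.g62), (51, B0.g81),
     (199, B0.g25), (24, B0.g57), (32, B0.g21), (167, B0.g61), (115, B0.g19), (261, B0.g11),
     (84, B0.g27), (105, B0.g87), (67, B0.g55), (195, B0.g79), (67, B0.g63), (1, B4.g64),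
     (91, B4.g40), (2, B4.g120), (6, B4.g36), (1, B4.g116), (32, B4.g34), (5, B4.g42),
     (1, B4.g58), (14, B4.g41), (5, B4.g57), (12, B4.g117), (80, B4.g35), (39, B4.g115),
     (22, B4.g59), (11, B4.g63), (162, B2.g0), (78, B2.g8), (1, B2.g68), (5, B2.g84),
     (87, B2.g2), (36, B2.g82), (5, B2.g10), (4, B2.g30), (34, B2.g62), (34, B2.g1), (4, B2.g9),
     (3, B2.g69), (95, B2.g29), (28, B2.g61), (8, B2.g3), (48, B2.g67), (63, B2.g35),
     (1, B2.g83), (4, B2.g87), (5, B2.g31), (1, B2.g63), (4, B6.g16), (1, B6.g19), (24, B6.g15),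
     (142, B1.g20), (79, B1.g52), (153, B1.g44), (45, B1.g28), (329, B1.g26), (37, B1.g22),
     (3, B1.g54), (82, B1.g46), (259, B1.g21), (5, B1.g53), (59, B1.g45), (4, B1.g29),
     (33, B1.g27), (3, B1.g47), (4, B5.g56), (1, B5.g52), (14, B5.g50), (4, B5.g51),
     (1, B5.g111), (1, B3.g8), (2, B3.g72), (1, B3.g12), (6, B3.g6), (2, B3.g73), (1, B3.g7),
     (19, B3.g71)]),
   ((12, 58563578258737), 84,
    [(1, B0.g64), (22, B0.g80), (186, B0.g8), (15, B0.g88), (288, B0.g56), (282, B0.g20),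
     (11, B0.g12), (4, B0.g82), (102, B0.g10), (14, B0.g26), (16, B0.g62), (51, B0.g81),
     (199, B0.g25), (24, B0.g57), (32, B0.g21), (167, B0.g61), (115, B0.g19), (261, B0.g11),
     (84, B0.g27), (105, B0.g87), (67, B0.g55), (195, B0.g79), (67, B0.g63), (1, B4.g64),
     (91, B4.g40), (2, B4.g120), (6, B4.g36), (1, B4.g116), (32, B4.g34), (5, B4.g42),
     (1, B4.g58), (14, B4.g41), (5, B4.g57), (12, B4.g117), (80, B4.g35), (39, B4.g115),
     (22, B4.g59), (11, B4.g63), (162, B2.g0), (78, B2.g8), (1, B2.g68), (5, B2.g84),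
     (87, B2.g2), (36, B2.g82), (5, B2.g10), (4, B2.g30), (34, B2.g62), (34, B2.g1), (4, B2.g9),
     (3, B2.g69), (95, B2.g29), (28, B2.g61), (8, B2.g3), (48, B2.g67), (63, B2.g35),
     (1, B2.g83), (4, B2.g87), (5, B2.g31), (1, B2.g63), (4, B6.g16), (1, B6.g19), (24, B6.g15),
     (142, B1.g20), (79, B1.g52), (153, B1.g44), (45, B1.g28), (329, B1.g26), (37, B1.g22),
     (3, B1.g54), (82, B1.g46), (259, B1.g21), (5, B1.g53), (59, B1.g45), (4, B1.g29),
     (33, B1.g27), (3, B1.g47), (4, B5.g56), (1, B5.g52), (14, B5.g50), (4, B5.g51),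
     (1, B5.g111), (1, B3.g8), (2, B3.g72), (1, B3.g12), (6, B3.g6), (2, B3.g73), (1, B3.g7),
     (19, B3.g71)]),
   ((4, 38464), 161,
    [(22, B0.g80), (149, B0.g40), (34, B0.g68), (199, B0.g36), (17, B0.g84), (79, B0.g76),
     (129, B0.g66), (194, B0.g34), (4, B0.g82), (23, B0.g42), (29, B0.g38), (2, B0.g86),
     (29, B0.g78), (152, B0.g65), (33, B0.g73), (97, B0.g69), (9, B0.g45), (116, B0.g35),
     (4, B0.g75), (48, B0.g43), (28, B0.g71), (83, B0.g39), (25, B0.g47), (14, B4.g80),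
     (1, B4.g100), (16, B4.g92), (1, B4.g2), (5, B4.g82), (50, B4.g90), (3, B4.g94), (4, B4.g97),
     (1, B4.g89), (66, B4.g121), (3, B4.g85), (10, B4.g83), (2, B4.g123), (1, B4.g87),
     (56, B4.g79), (12, B2.g112), (2, B2.g116), (1, B2.g108), (8, B2.g28), (1, B2.g114),
     (16, B2.g106), (31, B2.g26), (8, B2.g102), (6, B2.g110), (4, B2.g30), (29, B2.g33),
     (9, B2.g17), (1, B2.g105), (4, B2.g21), (34, B2.g13), (26, B2.g19), (98, B2.g11),
     (14, B2.g103), (3, B2.g23), (2, B2.g119), (52, B2.g15), (2, B6.g40), (2, B6.g85),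
     (147, B1.g72), (6, B1.g88), (35, B1.g84), (2, B1.g92), (69, B1.g82), (47, B1.g74),
     (36, B1.g90), (24, B1.g86), (7, B1.g94), (5, B1.g81), (32, B1.g77), (68, B1.g75),
     (91, B1.g71), (21, B1.g79), (1, B5.g0), (6, B5.g88), (1, B5.g2), (1, B5.g90), (21, B5.g86),
     (1, B5.g94), (1, B5.g97), (3, B3.g110), (4, B3.g17), (2, B3.g105), (1, B3.g25), (1, B3.g21),
     (66, B3.g13), (1, B3.g107), (34, B3.g103), (3, B3.g15)]),
   ((16, 3761987165940503600), 161,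
    [(22, B0.g80), (149, B0.g40), (34, B0.g68), (199, B0.g36), (17, B0.g84), (79, B0.g76),
     (129, B0.g66), (194, B0.g34), (4, B0.g82), (23, B0.g42), (29, B0.g38), (2, B0.g86),
     (29, B0.g78), (152, B0.g65), (33, B0.g73), (97, B0.g69), (9, B0.g45), (116, B0.g35),
     (4, B0.g75), (48, B0.g43), (28, B0.g71), (83, B0.g39), (25, B0.g47), (14, B4.g80),
     (1, B4.g100), (16, B4.g92), (1, B4.g2), (5, B4.g82), (50, B4.g90), (3, B4.g94), (4, B4.g97),
     (1, B4.g89), (66, B4.g121), (3, B4.g85), (10, B4.g83), (2, B4.g123), (1, B4.g87),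
     (56, B4.g79), (12, B2.g112), (2, B2.g116), (1, B2.g108), (8, B2.g28), (1, B2.g114),
     (16, B2.g106), (31, B2.g26), (8, B2.g102), (6, B2.g110), (4, B2.g30), (29, B2.g33),
     (9, B2.g17), (1, B2.g105), (4, B2.g21), (34, B2.g13), (26, B2.g19), (98, B2.g11),
     (14, B2.g103), (3, B2.g23), (2, B2.g119), (52, B2.g15), (2, B6.g40), (2, B6.g85),
     (147, B1.g72), (6, B1.g88), (35, B1.g84), (2, B1.g92), (69, B1.g82), (47, B1.g74),
     (36, B1.g90), (24, B1.g86), (7, B1.g94), (5, B1.g81), (32, B1.g77), (68, B1.g75),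
     (91, B1.g71), (21, B1.g79), (1, B5.g0), (6, B5.g88), (1, B5.g2), (1, B5.g90), (21, B5.g86),
     (1, B5.g94), (1, B5.g97), (3, B3.g110), (4, B3.g17), (2, B3.g105), (1, B3.g25), (1, B3.g21),
     (66, B3.g13), (1, B3.g107), (34, B3.g103), (3, B3.g15)]),
   ((6, 6489921), 164,
    [(22, B0.g80), (32, B0.g48), (247, B0.g72), (149, B0.g40), (15, B0.g88), (34, B0.g68),
     (199, B0.g36), (129, B0.g66), (194, B0.g34), (4, B0.g82), (108, B0.g74), (23, B0.g42),
     (29, B0.g38), (209, B0.g46), (51, B0.g81), (33, B0.g73), (313, B0.g41), (295, B0.g37),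
     (300, B0.g67), (4, B0.g75), (105, B0.g87), (195, B0.g79), (25, B0.g47), (14, B4.g80),
     (4, B4.g88), (1, B4.g100), (121, B4.g124), (5, B4.g82), (26, B4.g86), (3, B4.g94),
     (76, B4.g81), (1, B4.g89), (1, B4.g5), (7, B4.g93), (2, B4.g125), (2, B4.g3), (2, B4.g99),
     (1, B4.g87), (4, B4.g95), (49, B2.g16), (27, B2.g104), (9, B2.g24), (2, B2.g116),
     (63, B2.g22), (233, B2.g14), (6, B2.g110), (4, B2.g30), (9, B2.g17), (1, B2.g105),
     (5, B2.g121), (2, B2.g117), (153, B2.g109), (95, B2.g29), (63, B2.g35), (14, B2.g115),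
     (14, B2.g103), (3, B2.g23), (52, B2.g15), (11, B2.g111), (5, B2.g31), (3, B6.g36),
     (4, B6.g38), (90, B1.g80), (147, B1.g72), (6, B1.g88), (47, B1.g74), (24, B1.g86),
     (221, B1.g78), (7, B1.g94), (5, B1.g81), (317, B1.g73), (212, B1.g85), (81, B1.g93),
     (109, B1.g87), (21, B1.g79), (4, B1.g95), (1, B5.g90), (58, B5.g89), (2, B5.g99),
     (8, B5.g91), (5, B5.g95), (23, B3.g16), (5, B3.g112), (1, B3.g108), (3, B3.g18),
     (4, B3.g106), (3, B3.g22), (4, B3.g17), (1, B3.g107), (1, B3.g23)]),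
   ((14, 18951415754487377), 164,
    [(22, B0.g80), (32, B0.g48), (247, B0.g72), (149, B0.g40), (15, B0.g88), (34, B0.g68),
     (199, B0.g36), (129, B0.g66), (194, B0.g34), (4, B0.g82), (108, B0.g74), (23, B0.g42),
     (29, B0.g38), (209, B0.g46), (51, B0.g81), (33, B0.g73), (313, B0.g41), (295, B0.g37),
     (300, B0.g67), (4, B0.g75), (105, B0.g87), (195, B0.g79), (25, B0.g47), (14, B4.g80),
     (4, B4.g88), (1, B4.g100), (121, B4.g124), (5, B4.g82), (26, B4.g86), (3, B4.g94),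
     (76, B4.g81), (1, B4.g89), (1, B4.g5), (7, B4.g93), (2, B4.g125), (2, B4.g3), (2, B4.g99),
     (1, B4.g87), (4, B4.g95), (49, B2.g16), (27, B2.g104), (9, B2.g24), (2, B2.g116),
     (63, B2.g22), (233, B2.g14), (6, B2.g110), (4, B2.g30), (9, B2.g17), (1, B2.g105),
     (5, B2.g121), (2, B2.g117), (153, B2.g109), (95, B2.g29), (63, B2.g35), (14, B2.g115),
     (14, B2.g103), (3, B2.g23), (52, B2.g15), (11, B2.g111), (5, B2.g31), (3, B6.g36),
     (4, B6.g38), (90, B1.g80), (147, B1.g72), (6, B1.g88), (47, B1.g74), (24, B1.g86),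
     (221, B1.g78), (7, B1.g94), (5, B1.g81), (317, B1.g73), (212, B1.g85), (81, B1.g93),
     (109, B1.g87), (21, B1.g79), (4, B1.g95), (1, B5.g90), (58, B5.g89), (2, B5.g99),
     (8, B5.g91), (5, B5.g95), (23, B3.g16), (5, B3.g112), (1, B3.g108), (3, B3.g18),
     (4, B3.g106), (3, B3.g22), (4, B3.g17), (1, B3.g107), (1, B3.g23)]),
   ((6, 7750416), 265,
    [(181, B0.g96), (135, B0.g92), (22, B0.g94), (289, B0.g89), (128, B0.g91), (29, B2.g33),
     (4, B2.g9), (29, B2.g5), (4, B2.g21), (26, B2.g19), (2, B2.g7), (3, B2.g23), (5, B6.g53),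
     (1, B6.g75), (1, B6.g55), (88, B1.g0), (43, B1.g64), (107, B1.g16), (3, B1.g40),
     (17, B1.g104), (176, B1.g56), (33, B1.g68), (36, B1.g36), (72, B1.g100), (2, B1.g92),
     (29, B1.g2), (19, B1.g66), (91, B1.g34), (17, B1.g18), (13, B1.g106), (36, B1.g90),
     (6, B1.g70), (32, B1.g38), (37, B1.g102), (7, B1.g94), (5, B1.g81), (18, B1.g49),
     (30, B1.g9), (22, B1.g25), (61, B1.g57), (5, B1.g53), (4, B1.g13), (32, B1.g77),
     (4, B1.g29), (1, B1.g51), (15, B1.g11), (68, B1.g75), (33, B1.g27), (36, B1.g59),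
     (84, B1.g7), (81, B1.g23), (139, B1.g15), (21, B1.g79), (2, B5.g32), (7, B5.g16),
     (6, B5.g8), (53, B5.g40), (4, B5.g84), (72, B5.g12), (2, B5.g76), (14, B5.g44), (2, B5.g34),
     (13, B5.g74), (6, B5.g42), (6, B5.g106), (19, B5.g6), (3, B5.g54), (2, B5.g14), (2, B5.g46),
     (1, B5.g94), (1, B5.g65), (56, B5.g5), (38, B5.g21), (10, B5.g23), (5, B3.g32), (1, B3.g96),
     (27, B3.g92), (1, B3.g124), (2, B3.g122), (3, B3.g110), (24, B3.g30), (14, B3.g94),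
     (5, B3.g65), (1, B3.g49), (4, B3.g41), (24, B3.g37), (25, B3.g29), (11, B3.g67),
     (1, B3.g83), (2, B3.g51), (6, B3.g75), (1, B3.g39), (3, B3.g47), (24, B3.g63)]),
   ((14, 23703633412903952), 265,
    [(181, B0.g96), (135, B0.g92), (22, B0.g94), (289, B0.g89), (128, B0.g91), (29, B2.g33),
     (4, B2.g9), (29, B2.g5), (4, B2.g21), (26, B2.g19), (2, B2.g7), (3, B2.g23), (5, B6.g53),
     (1, B6.g75), (1, B6.g55), (88, B1.g0), (43, B1.g64), (107, B1.g16), (3, B1.g40),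
     (17, B1.g104), (176, B1.g56), (33, B1.g68), (36, B1.g36), (72, B1.g100), (2, B1.g92),
     (29, B1.g2), (19, B1.g66), (91, B1.g34), (17, B1.g18), (13, B1.g106), (36, B1.g90),
     (6, B1.g70), (32, B1.g38), (37, B1.g102), (7, B1.g94), (5, B1.g81), (18, B1.g49),
     (30, B1.g9), (22, B1.g25), (61, B1.g57), (5, B1.g53), (4, B1.g13), (32, B1.g77),
     (4, B1.g29), (1, B1.g51), (15, B1.g11), (68, B1.g75), (33, B1.g27), (36, B1.g59),
     (84, B1.g7), (81, B1.g23), (139, B1.g15), (21, B1.g79), (2, B5.g32), (7, B5.g16),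
     (6, B5.g8), (53, B5.g40), (4, B5.g84), (72, B5.g12), (2, B5.g76), (14, B5.g44), (2, B5.g34),
     (13, B5.g74), (6, B5.g42), (6, B5.g106), (19, B5.g6), (3, B5.g54), (2, B5.g14), (2, B5.g46),
     (1, B5.g94), (1, B5.g65), (56, B5.g5), (38, B5.g21), (10, B5.g23), (5, B3.g32), (1, B3.g96),
     (27, B3.g92), (1, B3.g124), (2, B3.g122), (3, B3.g110), (24, B3.g30), (14, B3.g94),
     (5, B3.g65), (1, B3.g49), (4, B3.g41), (24, B3.g37), (25, B3.g29), (11, B3.g67),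
     (1, B3.g83), (2, B3.g51), (6, B3.g75), (1, B3.g39), (3, B3.g47), (24, B3.g63)]),
   ((8, 1620534032), 266,
    [(181, B0.g96), (22, B0.g94), (289, B0.g89), (185, B0.g93), (128, B0.g91), (9, B2.g24),
     (100, B2.g20), (46, B2.g34), (5, B2.g10), (73, B2.g6), (4, B2.g21), (2, B2.g7), (1, B6.g68),
     (1, B6.g76), (4, B6.g54), (1, B6.g55), (90, B1.g80), (199, B1.g8), (3, B1.g40),
     (121, B1.g24), (176, B1.g56), (36, B1.g36), (43, B1.g12), (236, B1.g76), (45, B1.g28),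
     (2, B1.g92), (29, B1.g2), (19, B1.g66), (17, B1.g18), (34, B1.g50), (13, B1.g106),
     (206, B1.g58), (6, B1.g70), (37, B1.g102), (3, B1.g54), (318, B1.g1), (113, B1.g65),
     (233, B1.g17), (5, B1.g81), (30, B1.g9), (58, B1.g105), (22, B1.g25), (63, B1.g69),
     (230, B1.g101), (4, B1.g13), (32, B1.g77), (4, B1.g29), (166, B1.g35), (1, B1.g51),
     (71, B1.g91), (36, B1.g59), (87, B1.g39), (139, B1.g15), (4, B1.g95), (6, B5.g8),
     (2, B5.g76), (2, B5.g66), (6, B5.g42), (83, B5.g22), (2, B5.g14), (2, B5.g46), (1, B5.g94),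
     (55, B5.g41), (12, B5.g25), (56, B5.g5), (15, B5.g13), (1, B5.g45), (2, B5.g93),
     (1, B5.g35), (11, B5.g75), (1, B5.g107), (30, B5.g7), (10, B5.g23), (1, B5.g55),
     (9, B3.g64), (5, B3.g32), (5, B3.g48), (1, B3.g76), (1, B3.g124), (4, B3.g42), (20, B3.g38),
     (14, B3.g94), (5, B3.g65), (1, B3.g49), (25, B3.g29), (37, B3.g93), (2, B3.g123),
     (1, B3.g39), (1, B3.g111), (23, B3.g31)]),
   ((14, 19495875545289744), 266,
    [(181, B0.g96), (22, B0.g94), (289, B0.g89), (185, B0.g93), (128, B0.g91), (9, B2.g24),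
     (100, B2.g20), (46, B2.g34), (5, B2.g10), (73, B2.g6), (4, B2.g21), (2, B2.g7), (1, B6.g68),
     (1, B6.g76), (4, B6.g54), (1, B6.g55), (90, B1.g80), (199, B1.g8), (3, B1.g40),
     (121, B1.g24), (176, B1.g56), (36, B1.g36), (43, B1.g12), (236, B1.g76), (45, B1.g28),
     (2, B1.g92), (29, B1.g2), (19, B1.g66), (17, B1.g18), (34, B1.g50), (13, B1.g106),
     (206, B1.g58), (6, B1.g70), (37, B1.g102), (3, B1.g54), (318, B1.g1), (113, B1.g65),
     (233, B1.g17), (5, B1.g81), (30, B1.g9), (58, B1.g105), (22, B1.g25), (63, B1.g69),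
     (230, B1.g101), (4, B1.g13), (32, B1.g77), (4, B1.g29), (166, B1.g35), (1, B1.g51),
     (71, B1.g91), (36, B1.g59), (87, B1.g39), (139, B1.g15), (4, B1.g95), (6, B5.g8),
     (2, B5.g76), (2, B5.g66), (6, B5.g42), (83, B5.g22), (2, B5.g14), (2, B5.g46), (1, B5.g94),
     (55, B5.g41), (12, B5.g25), (56, B5.g5), (15, B5.g13), (1, B5.g45), (2, B5.g93),
     (1, B5.g35), (11, B5.g75), (1, B5.g107), (30, B5.g7), (10, B5.g23), (1, B5.g55),
     (9, B3.g64), (5, B3.g32), (5, B3.g48), (1, B3.g76), (1, B3.g124), (4, B3.g42), (20, B3.g38),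
     (14, B3.g94), (5, B3.g65), (1, B3.g49), (25, B3.g29), (37, B3.g93), (2, B3.g123),
     (1, B3.g39), (1, B3.g111), (23, B3.g31)])]

/-- lights 88 -/
noncomputable def plB_88 : List ((ℕ × ℕ) × ℕ × List (ℕ × ℕ)) :=
  [((0, 0), 88,
    [(1, B0.g64), (10, B0.g24), (15, B0.g88), (17, B0.g84), (11, B0.g12), (17, B0.g60),
     (102, B0.g10), (14, B0.g26), (65, B0.g58), (67, B0.g22), (2, B0.g86), (16, B0.g62),
     (50, B0.g9), (199, B0.g25), (52, B0.g85), (167, B0.g61), (266, B0.g83), (261, B0.g11),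
     (84, B0.g27), (126, B0.g59), (135, B0.g23), (105, B0.g87), (67, B0.g63), (2, B4.g0),
     (1, B4.g64), (91, B4.g40), (2, B4.g120), (40, B4.g60), (5, B4.g42), (42, B4.g38),
     (20, B4.g118), (3, B4.g62), (14, B4.g41), (28, B4.g37), (3, B4.g61), (4, B4.g39),
     (1, B4.g119), (11, B4.g63), (29, B2.g64), (225, B2.g32), (78, B2.g8), (288, B2.g4),
     (1, B2.g68), (4, B2.g66), (46, B2.g34), (5, B2.g10), (73, B2.g6), (5, B2.g86), (82, B2.g65),
     (29, B2.g33), (4, B2.g9), (29, B2.g5), (3, B2.g69), (84, B2.g85), (48, B2.g67),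
     (63, B2.g35), (2, B2.g7), (4, B2.g87), (3, B6.g18), (1, B6.g26), (36, B6.g17), (1, B6.g19),
     (176, B1.g48), (121, B1.g24), (79, B1.g52), (45, B1.g28), (34, B1.g50), (329, B1.g26),
     (3, B1.g54), (18, B1.g49), (22, B1.g25), (5, B1.g53), (4, B1.g29), (1, B1.g51),
     (33, B1.g27), (81, B1.g23), (2, B5.g112), (4, B5.g56), (3, B5.g54), (25, B5.g53),
     (4, B5.g3), (1, B5.g55), (1, B3.g12), (1, B3.g76), (1, B3.g10), (15, B3.g74), (36, B3.g9),
     (1, B3.g11), (6, B3.g75), (25, B3.g27), (15, B3.g87)]),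
   ((14, 14729291113129283), 336,
    [(2, B4.g0), (162, B2.g0), (225, B2.g32), (78, B2.g8), (288, B2.g4), (8, B2.g28),
     (87, B2.g2), (46, B2.g34), (5, B2.g10), (31, B2.g26), (73, B2.g6), (4, B2.g30), (34, B2.g1),
     (29, B2.g33), (4, B2.g9), (370, B2.g25), (29, B2.g5), (95, B2.g29), (8, B2.g3),
     (63, B2.g35), (52, B2.g27), (2, B2.g7), (5, B2.g31), (3, B6.g78), (46, B6.g77), (3, B6.g79),
     (176, B1.g48), (121, B1.g24), (142, B1.g20), (79, B1.g52), (153, B1.g44), (162, B1.g108),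
     (45, B1.g28), (34, B1.g50), (167, B1.g42), (329, B1.g26), (37, B1.g22), (3, B1.g54),
     (82, B1.g46), (18, B1.g49), (80, B1.g41), (22, B1.g25), (259, B1.g21), (5, B1.g53),
     (59, B1.g45), (31, B1.g109), (4, B1.g29), (116, B1.g19), (1, B1.g51), (45, B1.g43),
     (78, B1.g107), (33, B1.g27), (81, B1.g23), (3, B1.g47), (71, B5.g48), (2, B5.g112),
     (4, B5.g56), (73, B5.g68), (1, B5.g52), (14, B5.g50), (3, B5.g54), (2, B5.g110),
     (2, B5.g49), (3, B5.g69), (25, B5.g53), (46, B5.g109), (4, B5.g51), (1, B5.g115),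
     (1, B5.g55), (19, B5.g47), (1, B5.g111), (2, B3.g72), (22, B3.g68), (17, B3.g84),
     (1, B3.g76), (15, B3.g74), (1, B3.g70), (1, B3.g86), (3, B3.g126), (2, B3.g73), (8, B3.g69),
     (2, B3.g85), (6, B3.g75), (19, B3.g71), (15, B3.g87), (1, B3.g127)]),
   ((6, 3765297), 112,
    [(22, B0.g80), (10, B0.g24), (15, B0.g88), (282, B0.g20), (17, B0.g84), (79, B0.g76),
     (114, B0.g18), (4, B0.g82), (14, B0.g26), (67, B0.g22), (2, B0.g86), (29, B0.g78),
     (51, B0.g81), (199, B0.g25), (32, B0.g21), (52, B0.g85), (243, B0.g77), (115, B0.g19),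
     (266, B0.g83), (84, B0.g27), (135, B0.g23), (105, B0.g87), (195, B0.g79), (1, B4.g64),
     (9, B4.g56), (40, B4.g60), (1, B4.g58), (8, B4.g54), (3, B4.g62), (5, B4.g57), (3, B4.g61),
     (22, B4.g59), (29, B4.g55), (11, B4.g63), (31, B4.g127), (225, B2.g32), (54, B2.g80),
     (5, B2.g84), (8, B2.g28), (46, B2.g34), (36, B2.g82), (31, B2.g26), (5, B2.g86),
     (4, B2.g30), (29, B2.g33), (4, B2.g81), (370, B2.g25), (84, B2.g85), (95, B2.g29),
     (63, B2.g35), (1, B2.g83), (52, B2.g27), (4, B2.g87), (8, B2.g79), (5, B2.g31), (8, B6.g24),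
     (1, B6.g26), (2, B6.g25), (176, B1.g48), (79, B1.g52), (153, B1.g44), (34, B1.g50),
     (167, B1.g42), (3, B1.g54), (82, B1.g46), (18, B1.g49), (80, B1.g41), (5, B1.g53),
     (59, B1.g45), (1, B1.g51), (45, B1.g43), (3, B1.g47), (1, B5.g0), (73, B5.g68), (1, B5.g2),
     (22, B5.g1), (3, B5.g69), (4, B5.g3), (1, B5.g115), (10, B3.g24), (17, B3.g84), (4, B3.g26),
     (1, B3.g86), (1, B3.g25), (2, B3.g85), (25, B3.g27), (15, B3.g87)]),
   ((12, 58563578258737), 208,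
    [(1, B0.g64), (22, B0.g80), (15, B0.g88), (288, B0.g56), (17, B0.g84), (79, B0.g76),
     (17, B0.g60), (4, B0.g82), (65, B0.g58), (2, B0.g86), (141, B0.g54), (29, B0.g78),
     (16, B0.g62), (51, B0.g81), (24, B0.g57), (52, B0.g85), (243, B0.g77), (167, B0.g61),
     (266, B0.g83), (126, B0.g59), (105, B0.g87), (67, B0.g55), (195, B0.g79), (67, B0.g63),
     (2, B4.g0), (23, B4.g112), (2, B4.g120), (1, B4.g116), (11, B4.g114), (20, B4.g118),
     (44, B4.g113), (12, B4.g117), (39, B4.g115), (1, B4.g119), (31, B4.g127), (162, B2.g0),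
     (225, B2.g32), (78, B2.g8), (288, B2.g4), (8, B2.g28), (87, B2.g2), (46, B2.g34),
     (5, B2.g10), (31, B2.g26), (73, B2.g6), (4, B2.g30), (34, B2.g1), (29, B2.g33), (4, B2.g9),
     (370, B2.g25), (29, B2.g5), (95, B2.g29), (8, B2.g3), (63, B2.g35), (52, B2.g27),
     (2, B2.g7), (5, B2.g31), (1, B6.g48), (15, B6.g47), (162, B1.g108), (31, B1.g109),
     (78, B1.g107), (1, B5.g0), (2, B5.g112), (1, B5.g2), (2, B5.g110), (22, B5.g1),
     (46, B5.g109), (4, B5.g3), (1, B5.g115), (1, B5.g111), (1, B3.g8), (10, B3.g24), (5, B3.g4),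
     (1, B3.g12), (1, B3.g10), (4, B3.g26), (6, B3.g6), (3, B3.g126), (36, B3.g9), (1, B3.g25),
     (9, B3.g5), (1, B3.g11), (25, B3.g27), (1, B3.g7), (1, B3.g127)]),
   ((4, 38464), 168,
    [(32, B0.g48), (247, B0.g72), (15, B0.g88), (199, B0.g36), (17, B0.g84), (138, B0.g44),
     (108, B0.g74), (191, B0.g70), (29, B0.g38), (2, B0.g86), (209, B0.g46), (33, B0.g73),
     (97, B0.g69), (295, B0.g37), (52, B0.g85), (9, B0.g45), (116, B0.g35), (266, B0.g83),
     (4, B0.g75), (48, B0.g43), (28, B0.g71), (105, B0.g87), (25, B0.g47), (25, B4.g96),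
     (4, B4.g88), (1, B4.g4), (1, B4.g100), (154, B4.g84), (1, B4.g98), (26, B4.g86),
     (73, B4.g126), (4, B4.g97), (1, B4.g89), (1, B4.g5), (3, B4.g85), (2, B4.g99), (10, B4.g83),
     (1, B4.g87), (225, B2.g32), (9, B2.g24), (2, B2.g120), (100, B2.g20), (1, B2.g108),
     (46, B2.g34), (273, B2.g18), (16, B2.g106), (63, B2.g22), (34, B2.g118), (6, B2.g110),
     (29, B2.g33), (5, B2.g121), (4, B2.g21), (153, B2.g109), (63, B2.g35), (26, B2.g19),
     (29, B2.g107), (3, B2.g23), (2, B2.g119), (11, B2.g111), (1, B6.g50), (4, B6.g38),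
     (4, B6.g41), (50, B6.g37), (90, B1.g80), (236, B1.g76), (2, B1.g92), (36, B1.g90),
     (221, B1.g78), (7, B1.g94), (5, B1.g81), (242, B1.g89), (32, B1.g77), (81, B1.g93),
     (68, B1.g75), (71, B1.g91), (21, B1.g79), (4, B1.g95), (22, B5.g92), (12, B5.g114),
     (1, B5.g94), (2, B5.g93), (4, B5.g3), (5, B5.g95), (5, B3.g112), (2, B3.g20), (7, B3.g114),
     (3, B3.g22), (3, B3.g110), (1, B3.g21), (14, B3.g109), (11, B3.g19), (25, B3.g27),
     (1, B3.g23), (1, B3.g111)]),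
   ((16, 3761987165940503600), 416,
    [(1, B4.g4), (1, B4.g2), (11, B4.g1), (1, B4.g5), (2, B4.g3), (225, B2.g32), (49, B2.g16),
     (9, B2.g24), (100, B2.g20), (109, B2.g12), (8, B2.g28), (46, B2.g34), (273, B2.g18),
     (31, B2.g26), (63, B2.g22), (233, B2.g14), (4, B2.g30), (29, B2.g33), (9, B2.g17),
     (370, B2.g25), (4, B2.g21), (34, B2.g13), (95, B2.g29), (63, B2.g35), (26, B2.g19),
     (98, B2.g11), (52, B2.g27), (3, B2.g23), (52, B2.g15), (5, B2.g31), (40, B6.g84),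
     (2, B6.g85), (90, B1.g80), (147, B1.g72), (6, B1.g88), (35, B1.g84), (236, B1.g76),
     (2, B1.g92), (69, B1.g82), (47, B1.g74), (36, B1.g90), (24, B1.g86), (221, B1.g78),
     (7, B1.g94), (5, B1.g81), (317, B1.g73), (242, B1.g89), (212, B1.g85), (32, B1.g77),
     (81, B1.g93), (187, B1.g83), (68, B1.g75), (71, B1.g91), (91, B1.g71), (109, B1.g87),
     (21, B1.g79), (4, B1.g95), (45, B5.g96), (6, B5.g88), (22, B5.g92), (6, B5.g98),
     (12, B5.g114), (1, B5.g90), (21, B5.g86), (1, B5.g94), (1, B5.g97), (33, B5.g113),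
     (58, B5.g89), (2, B5.g93), (2, B5.g99), (1, B5.g115), (8, B5.g91), (32, B5.g87),
     (5, B5.g95), (5, B3.g112), (15, B3.g104), (1, B3.g108), (7, B3.g114), (4, B3.g106),
     (3, B3.g110), (12, B3.g113), (2, B3.g105), (14, B3.g109), (1, B3.g107), (34, B3.g103),
     (1, B3.g111)]),
   ((6, 6489921), 176,
    [(22, B0.g80), (32, B0.g48), (149, B0.g40), (15, B0.g88), (17, B0.g84), (79, B0.g76),
     (138, B0.g44), (4, B0.g82), (23, B0.g42), (2, B0.g86), (29, B0.g78), (209, B0.g46),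
     (51, B0.g81), (313, B0.g41), (52, B0.g85), (243, B0.g77), (9, B0.g45), (266, B0.g83),
     (48, B0.g43), (83, B0.g39), (105, B0.g87), (195, B0.g79), (25, B0.g47), (25, B4.g96),
     (1, B4.g100), (16, B4.g92), (1, B4.g98), (50, B4.g90), (3, B4.g94), (4, B4.g97),
     (7, B4.g93), (2, B4.g99), (63, B4.g91), (4, B4.g95), (31, B4.g127), (225, B2.g32),
     (12, B2.g112), (2, B2.g120), (2, B2.g116), (8, B2.g28), (46, B2.g34), (1, B2.g114),
     (31, B2.g26), (34, B2.g118), (4, B2.g30), (29, B2.g33), (19, B2.g113), (370, B2.g25),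
     (5, B2.g121), (2, B2.g117), (95, B2.g29), (63, B2.g35), (14, B2.g115), (52, B2.g27),
     (2, B2.g119), (5, B2.g31), (2, B6.g40), (4, B6.g41), (14, B6.g39), (6, B1.g88),
     (35, B1.g84), (2, B1.g92), (69, B1.g82), (36, B1.g90), (24, B1.g86), (7, B1.g94),
     (242, B1.g89), (212, B1.g85), (81, B1.g93), (187, B1.g83), (71, B1.g91), (109, B1.g87),
     (4, B1.g95), (1, B5.g0), (45, B5.g96), (1, B5.g2), (6, B5.g98), (22, B5.g1), (1, B5.g97),
     (4, B5.g3), (2, B5.g99), (1, B5.g115), (10, B3.g24), (7, B3.g114), (4, B3.g26),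
     (12, B3.g113), (1, B3.g25), (25, B3.g27)]),
   ((14, 18951415754487377), 224,
    [(22, B0.g80), (247, B0.g72), (15, B0.g88), (34, B0.g68), (17, B0.g84), (79, B0.g76),
     (129, B0.g66), (4, B0.g82), (108, B0.g74), (191, B0.g70), (2, B0.g86), (29, B0.g78),
     (152, B0.g65), (51, B0.g81), (33, B0.g73), (97, B0.g69), (52, B0.g85), (243, B0.g77),
     (300, B0.g67), (266, B0.g83), (4, B0.g75), (28, B0.g71), (105, B0.g87), (195, B0.g79),
     (1, B4.g4), (121, B4.g124), (1, B4.g2), (32, B4.g122), (73, B4.g126), (11, B4.g1),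
     (66, B4.g121), (1, B4.g5), (2, B4.g125), (2, B4.g3), (2, B4.g123), (31, B4.g127),
     (225, B2.g32), (49, B2.g16), (9, B2.g24), (100, B2.g20), (109, B2.g12), (8, B2.g28),
     (46, B2.g34), (273, B2.g18), (31, B2.g26), (63, B2.g22), (233, B2.g14), (4, B2.g30),
     (29, B2.g33), (9, B2.g17), (370, B2.g25), (4, B2.g21), (34, B2.g13), (95, B2.g29),
     (63, B2.g35), (26, B2.g19), (98, B2.g11), (52, B2.g27), (3, B2.g23), (52, B2.g15),
     (5, B2.g31), (1, B6.g50), (3, B6.g49), (1, B5.g0), (1, B5.g2), (12, B5.g114), (22, B5.g1),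
     (33, B5.g113), (4, B5.g3), (1, B5.g115), (23, B3.g16), (10, B3.g24), (2, B3.g20),
     (3, B3.g18), (4, B3.g26), (3, B3.g22), (19, B3.g14), (4, B3.g17), (1, B3.g25), (1, B3.g21),
     (66, B3.g13), (11, B3.g19), (25, B3.g27), (1, B3.g23), (3, B3.g15)]),
   ((6, 7750416), 296,
    [(181, B0.g96), (1, B4.g4), (1, B4.g5), (225, B2.g32), (9, B2.g24), (100, B2.g20),
     (46, B2.g34), (273, B2.g18), (63, B2.g22), (29, B2.g33), (4, B2.g21), (63, B2.g35),
     (26, B2.g19), (3, B2.g23), (1, B6.g68), (2, B6.g69), (21, B6.g67), (88, B1.g0),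
     (90, B1.g80), (176, B1.g48), (199, B1.g8), (3, B1.g40), (36, B1.g36), (79, B1.g52),
     (43, B1.g12), (236, B1.g76), (2, B1.g92), (29, B1.g2), (91, B1.g34), (34, B1.g50),
     (202, B1.g10), (36, B1.g90), (32, B1.g38), (3, B1.g54), (221, B1.g78), (7, B1.g94),
     (318, B1.g1), (5, B1.g81), (18, B1.g49), (30, B1.g9), (242, B1.g89), (195, B1.g37),
     (5, B1.g53), (4, B1.g13), (32, B1.g77), (81, B1.g93), (166, B1.g35), (1, B1.g51),
     (15, B1.g11), (68, B1.g75), (71, B1.g91), (84, B1.g7), (87, B1.g39), (21, B1.g79),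
     (4, B1.g95), (27, B5.g64), (2, B5.g32), (61, B5.g24), (22, B5.g92), (2, B5.g66),
     (2, B5.g34), (12, B5.g114), (83, B5.g22), (1, B5.g94), (1, B5.g65), (8, B5.g33),
     (12, B5.g25), (38, B5.g21), (2, B5.g93), (4, B5.g67), (1, B5.g35), (10, B5.g23),
     (26, B5.g31), (5, B5.g95), (5, B3.g48), (5, B3.g112), (3, B3.g82), (14, B3.g50),
     (7, B3.g114), (2, B3.g58), (3, B3.g110), (32, B3.g81), (1, B3.g49), (21, B3.g57),
     (14, B3.g109), (1, B3.g83), (2, B3.g51), (15, B3.g87), (3, B3.g47), (1, B3.g111)]),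
   ((14, 23703633412903952), 392,
    [(2, B4.g0), (1, B4.g4), (1, B4.g5), (225, B2.g32), (78, B2.g8), (9, B2.g24), (288, B2.g4),
     (100, B2.g20), (46, B2.g34), (273, B2.g18), (5, B2.g10), (73, B2.g6), (63, B2.g22),
     (29, B2.g33), (4, B2.g9), (29, B2.g5), (4, B2.g21), (63, B2.g35), (26, B2.g19), (2, B2.g7),
     (3, B2.g23), (43, B1.g64), (90, B1.g80), (17, B1.g104), (176, B1.g56), (33, B1.g68),
     (72, B1.g100), (236, B1.g76), (2, B1.g92), (19, B1.g66), (13, B1.g106), (36, B1.g90),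
     (206, B1.g58), (6, B1.g70), (37, B1.g102), (221, B1.g78), (7, B1.g94), (113, B1.g65),
     (5, B1.g81), (58, B1.g105), (242, B1.g89), (61, B1.g57), (63, B1.g69), (230, B1.g101),
     (32, B1.g77), (81, B1.g93), (145, B1.g67), (68, B1.g75), (71, B1.g91), (36, B1.g59),
     (118, B1.g103), (21, B1.g79), (4, B1.g95), (2, B5.g112), (4, B5.g84), (2, B5.g76),
     (2, B5.g108), (22, B5.g92), (12, B5.g114), (13, B5.g74), (6, B5.g106), (1, B5.g94),
     (19, B5.g105), (1, B5.g85), (41, B5.g77), (2, B5.g93), (94, B5.g83), (11, B5.g75),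
     (1, B5.g107), (5, B5.g95), (1, B3.g96), (5, B3.g112), (27, B3.g92), (1, B3.g124),
     (7, B3.g114), (2, B3.g122), (6, B3.g102), (3, B3.g110), (14, B3.g94), (11, B3.g121),
     (14, B3.g109), (37, B3.g93), (4, B3.g125), (2, B3.g123), (1, B3.g111), (12, B3.g95)]),
   ((8, 1620534032), 280,
    [(135, B0.g92), (22, B0.g94), (185, B0.g93), (128, B0.g91), (2, B4.g0), (225, B2.g32),
     (78, B2.g8), (288, B2.g4), (46, B2.g34), (5, B2.g10), (73, B2.g6), (29, B2.g33), (4, B2.g9),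
     (29, B2.g5), (63, B2.g35), (2, B2.g7), (43, B1.g64), (176, B1.g48), (199, B1.g8),
     (121, B1.g24), (33, B1.g68), (79, B1.g52), (43, B1.g12), (45, B1.g28), (2, B1.g92),
     (19, B1.g66), (34, B1.g50), (202, B1.g10), (329, B1.g26), (36, B1.g90), (6, B1.g70),
     (3, B1.g54), (7, B1.g94), (113, B1.g65), (18, B1.g49), (30, B1.g9), (22, B1.g25),
     (242, B1.g89), (63, B1.g69), (5, B1.g53), (4, B1.g13), (4, B1.g29), (81, B1.g93),
     (145, B1.g67), (1, B1.g51), (15, B1.g11), (33, B1.g27), (71, B1.g91), (84, B1.g7),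
     (81, B1.g23), (4, B1.g95), (2, B5.g32), (7, B5.g16), (2, B5.g112), (4, B5.g56), (4, B5.g84),
     (72, B5.g12), (2, B5.g34), (3, B5.g54), (2, B5.g14), (8, B5.g33), (1, B5.g85), (25, B5.g53),
     (15, B5.g13), (1, B5.g35), (94, B5.g83), (1, B5.g55), (114, B5.g15), (26, B5.g31),
     (15, B3.g40), (1, B3.g76), (7, B3.g114), (15, B3.g74), (4, B3.g42), (2, B3.g58),
     (20, B3.g38), (6, B3.g102), (4, B3.g41), (21, B3.g57), (24, B3.g37), (6, B3.g75),
     (1, B3.g39), (15, B3.g87)]),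
   ((14, 19495875545289744), 328,
    [(2, B4.g0), (1, B4.g4), (1, B4.g5), (225, B2.g32), (78, B2.g8), (9, B2.g24), (288, B2.g4),
     (100, B2.g20), (46, B2.g34), (273, B2.g18), (5, B2.g10), (73, B2.g6), (63, B2.g22),
     (29, B2.g33), (4, B2.g9), (29, B2.g5), (4, B2.g21), (63, B2.g35), (26, B2.g19), (2, B2.g7),
     (3, B2.g23), (1, B6.g76), (7, B6.g74), (1, B6.g75), (107, B1.g16), (176, B1.g48),
     (3, B1.g40), (17, B1.g104), (121, B1.g24), (36, B1.g36), (72, B1.g100), (79, B1.g52),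
     (45, B1.g28), (91, B1.g34), (17, B1.g18), (34, B1.g50), (13, B1.g106), (329, B1.g26),
     (32, B1.g38), (37, B1.g102), (3, B1.g54), (233, B1.g17), (18, B1.g49), (58, B1.g105),
     (22, B1.g25), (195, B1.g37), (230, B1.g101), (5, B1.g53), (4, B1.g29), (166, B1.g35),
     (1, B1.g51), (33, B1.g27), (87, B1.g39), (118, B1.g103), (81, B1.g23), (139, B1.g15),
     (27, B5.g64), (2, B5.g112), (53, B5.g40), (4, B5.g56), (14, B5.g44), (2, B5.g108),
     (2, B5.g66), (12, B5.g114), (6, B5.g42), (6, B5.g106), (3, B5.g54), (2, B5.g46),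
     (1, B5.g65), (55, B5.g41), (19, B5.g105), (25, B5.g53), (1, B5.g45), (4, B5.g67),
     (24, B5.g43), (1, B5.g107), (1, B5.g55), (9, B3.g64), (1, B3.g76), (1, B3.g124),
     (14, B3.g66), (3, B3.g82), (15, B3.g74), (2, B3.g122), (5, B3.g65), (32, B3.g81),
     (11, B3.g121), (4, B3.g125), (11, B3.g67), (1, B3.g83), (6, B3.g75), (2, B3.g123),
     (15, B3.g87), (24, B3.g63)])]

/-- lights 104 -/
noncomputable def plB_104 : List ((ℕ × ℕ) × ℕ × List (ℕ × ℕ)) :=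
  [((0, 0), 104,
    [(402, B0.g16), (247, B0.g72), (10, B0.g24), (15, B0.g88), (17, B0.g84), (108, B0.g74),
     (14, B0.g26), (191, B0.g70), (67, B0.g22), (2, B0.g86), (106, B0.g14), (37, B0.g17),
     (33, B0.g73), (199, B0.g25), (97, B0.g69), (52, B0.g85), (266, B0.g83), (4, B0.g75),
     (84, B0.g27), (28, B0.g71), (135, B0.g23), (105, B0.g87), (86, B0.g15), (1, B4.g64),
     (35, B4.g48), (1, B4.g4), (5, B4.g52), (40, B4.g60), (53, B4.g50), (3, B4.g62),
     (73, B4.g126), (3, B4.g49), (1, B4.g5), (1, B4.g53), (3, B4.g61), (1, B4.g51), (70, B4.g47),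
     (11, B4.g63), (225, B2.g32), (9, B2.g24), (100, B2.g20), (47, B2.g76), (46, B2.g34),
     (273, B2.g18), (43, B2.g74), (63, B2.g22), (5, B2.g86), (2, B2.g78), (29, B2.g33),
     (4, B2.g21), (84, B2.g85), (7, B2.g77), (63, B2.g35), (26, B2.g19), (7, B2.g75),
     (3, B2.g23), (4, B2.g87), (1, B6.g50), (1, B6.g26), (3, B6.g23), (176, B1.g48), (3, B1.g40),
     (36, B1.g36), (79, B1.g52), (91, B1.g34), (34, B1.g50), (32, B1.g38), (3, B1.g54),
     (18, B1.g49), (195, B1.g37), (5, B1.g53), (166, B1.g35), (1, B1.g51), (87, B1.g39),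
     (27, B5.g64), (2, B5.g66), (12, B5.g114), (1, B5.g65), (4, B5.g3), (4, B5.g67), (2, B3.g20),
     (3, B3.g82), (3, B3.g22), (32, B3.g81), (1, B3.g21), (11, B3.g19), (1, B3.g83),
     (25, B3.g27), (1, B3.g23), (15, B3.g87)]),
   ((14, 14729291113129283), 400,
    [(2, B4.g0), (162, B2.g0), (225, B2.g32), (78, B2.g8), (288, B2.g4), (8, B2.g28),
     (87, B2.g2), (46, B2.g34), (5, B2.g10), (31, B2.g26), (73, B2.g6), (4, B2.g30), (34, B2.g1),
     (29, B2.g33), (4, B2.g9), (370, B2.g25), (29, B2.g5), (95, B2.g29), (8, B2.g3),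
     (63, B2.g35), (52, B2.g27), (2, B2.g7), (5, B2.g31), (2, B6.g83), (43, B1.g64), (6, B1.g88),
     (33, B1.g68), (35, B1.g84), (162, B1.g108), (2, B1.g92), (120, B1.g60), (19, B1.g66),
     (69, B1.g82), (36, B1.g90), (6, B1.g70), (24, B1.g86), (7, B1.g94), (372, B1.g62),
     (113, B1.g65), (242, B1.g89), (63, B1.g69), (212, B1.g85), (31, B1.g109), (81, B1.g93),
     (44, B1.g61), (145, B1.g67), (187, B1.g83), (78, B1.g107), (71, B1.g91), (109, B1.g87),
     (4, B1.g95), (51, B1.g63), (45, B5.g96), (2, B5.g80), (2, B5.g112), (4, B5.g84),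
     (6, B5.g98), (1, B5.g82), (88, B5.g78), (2, B5.g110), (1, B5.g97), (57, B5.g81),
     (1, B5.g85), (46, B5.g109), (2, B5.g99), (94, B5.g83), (1, B5.g115), (13, B5.g79),
     (1, B5.g111), (3, B3.g100), (5, B3.g98), (7, B3.g114), (6, B3.g102), (3, B3.g126),
     (12, B3.g97), (12, B3.g113), (1, B3.g101), (7, B3.g99), (1, B3.g127)]),
   ((6, 3765297), 104,
    [(402, B0.g16), (247, B0.g72), (10, B0.g24), (15, B0.g88), (17, B0.g84), (108, B0.g74),
     (14, B0.g26), (191, B0.g70), (67, B0.g22), (2, B0.g86), (106, B0.g14), (37, B0.g17),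
     (33, B0.g73), (199, B0.g25), (97, B0.g69), (52, B0.g85), (266, B0.g83), (4, B0.g75),
     (84, B0.g27), (28, B0.g71), (135, B0.g23), (105, B0.g87), (86, B0.g15), (1, B4.g64),
     (35, B4.g48), (1, B4.g4), (5, B4.g52), (40, B4.g60), (53, B4.g50), (3, B4.g62),
     (73, B4.g126), (3, B4.g49), (1, B4.g5), (1, B4.g53), (3, B4.g61), (1, B4.g51), (70, B4.g47),
     (11, B4.g63), (225, B2.g32), (9, B2.g24), (100, B2.g20), (47, B2.g76), (46, B2.g34),
     (273, B2.g18), (43, B2.g74), (63, B2.g22), (5, B2.g86), (2, B2.g78), (29, B2.g33),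
     (4, B2.g21), (84, B2.g85), (7, B2.g77), (63, B2.g35), (26, B2.g19), (7, B2.g75),
     (3, B2.g23), (4, B2.g87), (1, B6.g50), (1, B6.g26), (3, B6.g23), (176, B1.g48), (3, B1.g40),
     (36, B1.g36), (79, B1.g52), (91, B1.g34), (34, B1.g50), (32, B1.g38), (3, B1.g54),
     (18, B1.g49), (195, B1.g37), (5, B1.g53), (166, B1.g35), (1, B1.g51), (87, B1.g39),
     (27, B5.g64), (2, B5.g66), (12, B5.g114), (1, B5.g65), (4, B5.g3), (4, B5.g67), (2, B3.g20),
     (3, B3.g82), (3, B3.g22), (32, B3.g81), (1, B3.g21), (11, B3.g19), (1, B3.g83),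
     (25, B3.g27), (1, B3.g23), (15, B3.g87)]),
   ((12, 58563578258737), 400,
    [(2, B4.g0), (162, B2.g0), (225, B2.g32), (78, B2.g8), (288, B2.g4), (8, B2.g28),
     (87, B2.g2), (46, B2.g34), (5, B2.g10), (31, B2.g26), (73, B2.g6), (4, B2.g30), (34, B2.g1),
     (29, B2.g33), (4, B2.g9), (370, B2.g25), (29, B2.g5), (95, B2.g29), (8, B2.g3),
     (63, B2.g35), (52, B2.g27), (2, B2.g7), (5, B2.g31), (2, B6.g83), (43, B1.g64), (6, B1.g88),
     (33, B1.g68), (35, B1.g84), (162, B1.g108), (2, B1.g92), (120, B1.g60), (19, B1.g66),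
     (69, B1.g82), (36, B1.g90), (6, B1.g70), (24, B1.g86), (7, B1.g94), (372, B1.g62),
     (113, B1.g65), (242, B1.g89), (63, B1.g69), (212, B1.g85), (31, B1.g109), (81, B1.g93),
     (44, B1.g61), (145, B1.g67), (187, B1.g83), (78, B1.g107), (71, B1.g91), (109, B1.g87),
     (4, B1.g95), (51, B1.g63), (45, B5.g96), (2, B5.g80), (2, B5.g112), (4, B5.g84),
     (6, B5.g98), (1, B5.g82), (88, B5.g78), (2, B5.g110), (1, B5.g97), (57, B5.g81),
     (1, B5.g85), (46, B5.g109), (2, B5.g99), (94, B5.g83), (1, B5.g115), (13, B5.g79),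
     (1, B5.g111), (3, B3.g100), (5, B3.g98), (7, B3.g114), (6, B3.g102), (3, B3.g126),
     (12, B3.g97), (12, B3.g113), (1, B3.g101), (7, B3.g99), (1, B3.g127)]),
   ((4, 38464), 152,
    [(1, B0.g64), (120, B0.g32), (32, B0.g48), (15, B0.g88), (17, B0.g84), (138, B0.g44),
     (17, B0.g60), (65, B0.g58), (2, B0.g86), (209, B0.g46), (97, B0.g30), (16, B0.g62),
     (15, B0.g33), (52, B0.g85), (9, B0.g45), (167, B0.g61), (266, B0.g83), (48, B0.g43),
     (126, B0.g59), (105, B0.g87), (25, B0.g47), (110, B0.g31), (67, B0.g63), (2, B4.g0),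
     (25, B4.g96), (2, B4.g120), (1, B4.g100), (5, B4.g76), (1, B4.g98), (26, B4.g74),
     (20, B4.g118), (9, B4.g78), (4, B4.g97), (43, B4.g77), (2, B4.g99), (8, B4.g75),
     (1, B4.g119), (225, B2.g32), (8, B2.g96), (78, B2.g8), (2, B2.g120), (288, B2.g4),
     (2, B2.g100), (46, B2.g34), (1, B2.g98), (5, B2.g10), (73, B2.g6), (34, B2.g118),
     (29, B2.g33), (61, B2.g97), (4, B2.g9), (5, B2.g121), (29, B2.g5), (2, B2.g101),
     (63, B2.g35), (33, B2.g99), (2, B2.g7), (2, B2.g119), (1, B6.g34), (5, B6.g33), (4, B6.g41),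
     (43, B1.g64), (33, B1.g68), (2, B1.g92), (19, B1.g66), (36, B1.g90), (6, B1.g70),
     (7, B1.g94), (113, B1.g65), (242, B1.g89), (63, B1.g69), (81, B1.g93), (145, B1.g67),
     (71, B1.g91), (4, B1.g95), (2, B5.g112), (4, B5.g84), (1, B5.g85), (4, B5.g3), (94, B5.g83),
     (1, B3.g12), (7, B3.g114), (1, B3.g10), (6, B3.g102), (36, B3.g9), (1, B3.g11), (25, B3.g27)]),
   ((16, 3761987165940503600), 352,
    [(1, B4.g4), (1, B4.g2), (11, B4.g1), (1, B4.g5), (2, B4.g3), (225, B2.g32), (49, B2.g16),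
     (9, B2.g24), (100, B2.g20), (109, B2.g12), (8, B2.g28), (46, B2.g34), (273, B2.g18),
     (31, B2.g26), (63, B2.g22), (233, B2.g14), (4, B2.g30), (29, B2.g33), (9, B2.g17),
     (370, B2.g25), (4, B2.g21), (34, B2.g13), (95, B2.g29), (63, B2.g35), (26, B2.g19),
     (98, B2.g11), (52, B2.g27), (3, B2.g23), (52, B2.g15), (5, B2.g31), (6, B6.g80),
     (242, B1.g32), (176, B1.g48), (3, B1.g40), (36, B1.g36), (79, B1.g52), (153, B1.g44),
     (91, B1.g34), (34, B1.g50), (167, B1.g42), (32, B1.g38), (3, B1.g54), (82, B1.g46),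
     (132, B1.g30), (70, B1.g33), (18, B1.g49), (80, B1.g41), (195, B1.g37), (5, B1.g53),
     (59, B1.g45), (166, B1.g35), (1, B1.g51), (45, B1.g43), (87, B1.g39), (3, B1.g47),
     (195, B1.g31), (27, B5.g64), (73, B5.g68), (10, B5.g60), (2, B5.g66), (12, B5.g114),
     (41, B5.g58), (3, B5.g62), (1, B5.g65), (33, B5.g113), (12, B5.g57), (3, B5.g69),
     (1, B5.g61), (4, B5.g67), (1, B5.g115), (6, B5.g59), (1, B5.g63), (6, B3.g80), (17, B3.g84),
     (3, B3.g82), (1, B3.g86), (10, B3.g78), (32, B3.g81), (2, B3.g85), (5, B3.g77), (1, B3.g83),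
     (15, B3.g87), (18, B3.g79)]),
   ((6, 6489921), 152,
    [(1, B0.g64), (120, B0.g32), (32, B0.g48), (15, B0.g88), (17, B0.g84), (138, B0.g44),
     (17, B0.g60), (65, B0.g58), (2, B0.g86), (209, B0.g46), (97, B0.g30), (16, B0.g62),
     (15, B0.g33), (52, B0.g85), (9, B0.g45), (167, B0.g61), (266, B0.g83), (48, B0.g43),
     (126, B0.g59), (105, B0.g87), (25, B0.g47), (110, B0.g31), (67, B0.g63), (2, B4.g0),
     (25, B4.g96), (2, B4.g120), (1, B4.g100), (5, B4.g76), (1, B4.g98), (26, B4.g74),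
     (20, B4.g118), (9, B4.g78), (4, B4.g97), (43, B4.g77), (2, B4.g99), (8, B4.g75),
     (1, B4.g119), (225, B2.g32), (8, B2.g96), (78, B2.g8), (2, B2.g120), (288, B2.g4),
     (2, B2.g100), (46, B2.g34), (1, B2.g98), (5, B2.g10), (73, B2.g6), (34, B2.g118),
     (29, B2.g33), (61, B2.g97), (4, B2.g9), (5, B2.g121), (29, B2.g5), (2, B2.g101),
     (63, B2.g35), (33, B2.g99), (2, B2.g7), (2, B2.g119), (1, B6.g34), (5, B6.g33), (4, B6.g41),
     (43, B1.g64), (33, B1.g68), (2, B1.g92), (19, B1.g66), (36, B1.g90), (6, B1.g70),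
     (7, B1.g94), (113, B1.g65), (242, B1.g89), (63, B1.g69), (81, B1.g93), (145, B1.g67),
     (71, B1.g91), (4, B1.g95), (2, B5.g112), (4, B5.g84), (1, B5.g85), (4, B5.g3), (94, B5.g83),
     (1, B3.g12), (7, B3.g114), (1, B3.g10), (6, B3.g102), (36, B3.g9), (1, B3.g11), (25, B3.g27)]),
   ((14, 18951415754487377), 352,
    [(1, B4.g4), (1, B4.g2), (11, B4.g1), (1, B4.g5), (2, B4.g3), (225, B2.g32), (49, B2.g16),
     (9, B2.g24), (100, B2.g20), (109, B2.g12), (8, B2.g28), (46, B2.g34), (273, B2.g18),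
     (31, B2.g26), (63, B2.g22), (233, B2.g14), (4, B2.g30), (29, B2.g33), (9, B2.g17),
     (370, B2.g25), (4, B2.g21), (34, B2.g13), (95, B2.g29), (63, B2.g35), (26, B2.g19),
     (98, B2.g11), (52, B2.g27), (3, B2.g23), (52, B2.g15), (5, B2.g31), (6, B6.g80),
     (242, B1.g32), (176, B1.g48), (3, B1.g40), (36, B1.g36), (79, B1.g52), (153, B1.g44),
     (91, B1.g34), (34, B1.g50), (167, B1.g42), (32, B1.g38), (3, B1.g54), (82, B1.g46),
     (132, B1.g30), (70, B1.g33), (18, B1.g49), (80, B1.g41), (195, B1.g37), (5, B1.g53),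
     (59, B1.g45), (166, B1.g35), (1, B1.g51), (45, B1.g43), (87, B1.g39), (3, B1.g47),
     (195, B1.g31), (27, B5.g64), (73, B5.g68), (10, B5.g60), (2, B5.g66), (12, B5.g114),
     (41, B5.g58), (3, B5.g62), (1, B5.g65), (33, B5.g113), (12, B5.g57), (3, B5.g69),
     (1, B5.g61), (4, B5.g67), (1, B5.g115), (6, B5.g59), (1, B5.g63), (6, B3.g80), (17, B3.g84),
     (3, B3.g82), (1, B3.g86), (10, B3.g78), (32, B3.g81), (2, B3.g85), (5, B3.g77), (1, B3.g83),
     (15, B3.g87), (18, B3.g79)]),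
   ((6, 7750416), 304,
    [(225, B2.g32), (8, B2.g28), (46, B2.g34), (31, B2.g26), (4, B2.g30), (29, B2.g33),
     (370, B2.g25), (95, B2.g29), (63, B2.g35), (52, B2.g27), (5, B2.g31), (78, B6.g70),
     (176, B1.g48), (199, B1.g8), (6, B1.g88), (113, B1.g4), (35, B1.g84), (79, B1.g52),
     (43, B1.g12), (153, B1.g44), (2, B1.g92), (69, B1.g82), (34, B1.g50), (202, B1.g10),
     (167, B1.g42), (36, B1.g90), (86, B1.g6), (24, B1.g86), (3, B1.g54), (82, B1.g46),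
     (7, B1.g94), (18, B1.g49), (30, B1.g9), (80, B1.g41), (242, B1.g89), (315, B1.g5),
     (212, B1.g85), (5, B1.g53), (4, B1.g13), (59, B1.g45), (81, B1.g93), (417, B1.g3),
     (187, B1.g83), (1, B1.g51), (15, B1.g11), (45, B1.g43), (71, B1.g91), (84, B1.g7),
     (109, B1.g87), (3, B1.g47), (4, B1.g95), (2, B5.g32), (45, B5.g96), (73, B5.g68),
     (4, B5.g28), (2, B5.g34), (6, B5.g98), (8, B5.g26), (4, B5.g30), (8, B5.g33), (1, B5.g97),
     (3, B5.g69), (5, B5.g29), (1, B5.g35), (2, B5.g99), (1, B5.g115), (58, B5.g27),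
     (26, B5.g31), (1, B3.g56), (17, B3.g84), (29, B3.g52), (7, B3.g114), (2, B3.g58),
     (1, B3.g86), (6, B3.g54), (12, B3.g113), (21, B3.g57), (2, B3.g85), (4, B3.g53),
     (15, B3.g87), (1, B3.g55)]),
   ((14, 23703633412903952), 200,
    [(1, B0.g64), (247, B0.g72), (15, B0.g88), (17, B0.g84), (242, B0.g52), (17, B0.g60),
     (265, B0.g50), (108, B0.g74), (65, B0.g58), (191, B0.g70), (2, B0.g86), (16, B0.g62),
     (33, B0.g73), (97, B0.g69), (52, B0.g85), (48, B0.g53), (167, B0.g61), (266, B0.g83),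
     (91, B0.g51), (4, B0.g75), (126, B0.g59), (28, B0.g71), (105, B0.g87), (67, B0.g63),
     (2, B4.g0), (2, B4.g120), (1, B4.g4), (12, B4.g108), (92, B4.g106), (20, B4.g118),
     (5, B4.g110), (73, B4.g126), (10, B4.g105), (1, B4.g5), (1, B4.g109), (11, B4.g107),
     (1, B4.g119), (1, B4.g111), (225, B2.g32), (78, B2.g8), (9, B2.g24), (288, B2.g4),
     (100, B2.g20), (46, B2.g34), (273, B2.g18), (5, B2.g10), (73, B2.g6), (63, B2.g22),
     (36, B2.g126), (29, B2.g33), (4, B2.g9), (29, B2.g5), (4, B2.g21), (63, B2.g35),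
     (26, B2.g19), (2, B2.g7), (3, B2.g23), (25, B2.g127), (1, B6.g50), (1, B6.g46),
     (109, B6.g45), (17, B1.g104), (72, B1.g100), (13, B1.g106), (37, B1.g102), (58, B1.g105),
     (230, B1.g101), (118, B1.g103), (2, B5.g112), (2, B5.g108), (12, B5.g114), (6, B5.g106),
     (19, B5.g105), (4, B5.g3), (1, B5.g107), (1, B3.g0), (2, B3.g20), (1, B3.g12), (1, B3.g124),
     (3, B3.g2), (1, B3.g10), (2, B3.g122), (3, B3.g22), (19, B3.g1), (36, B3.g9), (11, B3.g121),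
     (1, B3.g21), (4, B3.g125), (2, B3.g3), (11, B3.g19), (1, B3.g11), (25, B3.g27),
     (2, B3.g123), (1, B3.g23)]),
   ((8, 1620534032), 304,
    [(225, B2.g32), (8, B2.g28), (46, B2.g34), (31, B2.g26), (4, B2.g30), (29, B2.g33),
     (370, B2.g25), (95, B2.g29), (63, B2.g35), (52, B2.g27), (5, B2.g31), (78, B6.g70),
     (176, B1.g48), (199, B1.g8), (6, B1.g88), (113, B1.g4), (35, B1.g84), (79, B1.g52),
     (43, B1.g12), (153, B1.g44), (2, B1.g92), (69, B1.g82), (34, B1.g50), (202, B1.g10),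
     (167, B1.g42), (36, B1.g90), (86, B1.g6), (24, B1.g86), (3, B1.g54), (82, B1.g46),
     (7, B1.g94), (18, B1.g49), (30, B1.g9), (80, B1.g41), (242, B1.g89), (315, B1.g5),
     (212, B1.g85), (5, B1.g53), (4, B1.g13), (59, B1.g45), (81, B1.g93), (417, B1.g3),
     (187, B1.g83), (1, B1.g51), (15, B1.g11), (45, B1.g43), (71, B1.g91), (84, B1.g7),
     (109, B1.g87), (3, B1.g47), (4, B1.g95), (2, B5.g32), (45, B5.g96), (73, B5.g68),
     (4, B5.g28), (2, B5.g34), (6, B5.g98), (8, B5.g26), (4, B5.g30), (8, B5.g33), (1, B5.g97),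
     (3, B5.g69), (5, B5.g29), (1, B5.g35), (2, B5.g99), (1, B5.g115), (58, B5.g27),
     (26, B5.g31), (1, B3.g56), (17, B3.g84), (29, B3.g52), (7, B3.g114), (2, B3.g58),
     (1, B3.g86), (6, B3.g54), (12, B3.g113), (21, B3.g57), (2, B3.g85), (4, B3.g53),
     (15, B3.g87), (1, B3.g55)]),
   ((14, 19495875545289744), 200,
    [(1, B0.g64), (247, B0.g72), (15, B0.g88), (17, B0.g84), (242, B0.g52), (17, B0.g60),
     (265, B0.g50), (108, B0.g74), (65, B0.g58), (191, B0.g70), (2, B0.g86), (16, B0.g62),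
     (33, B0.g73), (97, B0.g69), (52, B0.g85), (48, B0.g53), (167, B0.g61), (266, B0.g83),
     (91, B0.g51), (4, B0.g75), (126, B0.g59), (28, B0.g71), (105, B0.g87), (67, B0.g63),
     (2, B4.g0), (2, B4.g120), (1, B4.g4), (12, B4.g108), (92, B4.g106), (20, B4.g118),
     (5, B4.g110), (73, B4.g126), (10, B4.g105), (1, B4.g5), (1, B4.g109), (11, B4.g107),
     (1, B4.g119), (1, B4.g111), (225, B2.g32), (78, B2.g8), (9, B2.g24), (288, B2.g4),
     (100, B2.g20), (46, B2.g34), (273, B2.g18), (5, B2.g10), (73, B2.g6), (63, B2.g22),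
     (36, B2.g126), (29, B2.g33), (4, B2.g9), (29, B2.g5), (4, B2.g21), (63, B2.g35),
     (26, B2.g19), (2, B2.g7), (3, B2.g23), (25, B2.g127), (1, B6.g50), (1, B6.g46),
     (109, B6.g45), (17, B1.g104), (72, B1.g100), (13, B1.g106), (37, B1.g102), (58, B1.g105),
     (230, B1.g101), (118, B1.g103), (2, B5.g112), (2, B5.g108), (12, B5.g114), (6, B5.g106),
     (19, B5.g105), (4, B5.g3), (1, B5.g107), (1, B3.g0), (2, B3.g20), (1, B3.g12), (1, B3.g124),
     (3, B3.g2), (1, B3.g10), (2, B3.g122), (3, B3.g22), (19, B3.g1), (36, B3.g9), (11, B3.g121),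
     (1, B3.g21), (4, B3.g125), (2, B3.g3), (11, B3.g19), (1, B3.g11), (25, B3.g27),
     (2, B3.g123), (1, B3.g23)])]

/-- lights 515 -/
noncomputable def plB_515 : List ((ℕ × ℕ) × ℕ × List (ℕ × ℕ)) :=
  [((0, 0), 515,
    [(1, B4.g2), (2, B2.g88), (31, B2.g56), (12, B2.g36), (4, B2.g52), (1, B2.g108), (3, B2.g92),
     (20, B2.g60), (4, B2.g66), (1, B2.g98), (1, B2.g114), (8, B2.g42), (25, B2.g122),
     (11, B2.g70), (26, B2.g38), (8, B2.g102), (21, B2.g46), (4, B2.g81), (2, B2.g49),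
     (5, B2.g73), (3, B2.g41), (1, B2.g105), (30, B2.g89), (11, B2.g37), (2, B2.g45),
     (7, B2.g93), (3, B2.g125), (1, B2.g59), (24, B2.g55), (1, B2.g63), (1, B6.g64), (2, B6.g52),
     (2, B6.g14), (2, B6.g3), (19, B6.g51), (1, B6.g59), (1, B6.g55), (7, B5.g116), (4, B5.g117),
     (4, B5.g119), (1, B3.g0), (5, B3.g32), (12, B3.g88), (2, B3.g120), (2, B3.g36), (8, B3.g28),
     (1, B3.g124), (1, B3.g70), (7, B3.g46), (14, B3.g94), (7, B3.g62), (5, B3.g65),
     (22, B3.g33), (1, B3.g49), (2, B3.g105), (1, B3.g21), (2, B3.g117), (25, B3.g29),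
     (7, B3.g99), (8, B3.g43), (2, B3.g91), (8, B3.g59), (1, B3.g39), (3, B3.g15)]),
   ((14, 14729291113129283), 1027,
    [(12, B4.g32), (2, B4.g16), (40, B4.g8), (7, B4.g104), (9, B4.g56), (6, B4.g36), (6, B4.g20),
     (22, B4.g12), (5, B4.g76), (19, B4.g28), (16, B4.g92), (55, B4.g66), (5, B4.g82),
     (11, B4.g114), (7, B4.g6), (13, B4.g70), (9, B4.g46), (12, B4.g65), (83, B4.g33),
     (46, B4.g17), (3, B4.g49), (7, B4.g73), (1, B4.g89), (3, B4.g69), (56, B4.g101),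
     (3, B4.g85), (1, B4.g53), (64, B4.g13), (26, B4.g29), (4, B4.g11), (32, B4.g43),
     (11, B4.g107), (2, B4.g27), (2, B4.g123), (12, B4.g7), (4, B4.g39), (5, B4.g23),
     (56, B4.g79), (1, B4.g111), (1, B6.g64), (2, B6.g52), (2, B6.g14), (2, B6.g3), (19, B6.g51),
     (1, B6.g59), (1, B6.g55), (2, B5.g80), (6, B5.g8), (6, B5.g88), (21, B5.g4), (47, B5.g36),
     (24, B5.g20), (7, B5.g116), (2, B5.g76), (4, B5.g28), (1, B5.g2), (6, B5.g42), (87, B5.g70),
     (8, B5.g102), (2, B5.g14), (2, B5.g46), (1, B5.g94), (73, B5.g17), (2, B5.g49), (37, B5.g9),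
     (3, B5.g73), (56, B5.g5), (4, B5.g117), (6, B5.g59), (10, B5.g39), (10, B5.g23),
     (4, B5.g119), (1, B5.g63)]),
   ((6, 3765297), 1029,
    [(1, B4.g64), (12, B4.g32), (2, B4.g16), (14, B4.g80), (7, B4.g104), (6, B4.g36),
     (1, B4.g100), (6, B4.g20), (1, B4.g116), (22, B4.g12), (31, B4.g44), (19, B4.g28),
     (32, B4.g34), (17, B4.g18), (5, B4.g82), (1, B4.g58), (7, B4.g6), (16, B4.g102),
     (24, B4.g14), (9, B4.g78), (9, B4.g46), (46, B4.g30), (3, B4.g94), (12, B4.g65),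
     (70, B4.g9), (7, B4.g73), (14, B4.g41), (14, B4.g25), (1, B4.g89), (3, B4.g69), (1, B4.g53),
     (1, B4.g109), (49, B4.g67), (1, B4.g51), (4, B4.g11), (2, B4.g27), (12, B4.g7), (7, B4.g71),
     (1, B4.g87), (1, B4.g111), (2, B6.g52), (1, B6.g61), (7, B5.g16), (6, B5.g8), (21, B5.g4),
     (24, B5.g20), (7, B5.g116), (14, B5.g44), (1, B5.g124), (2, B5.g34), (27, B5.g18),
     (1, B5.g82), (67, B5.g10), (1, B5.g90), (19, B5.g6), (4, B5.g118), (2, B5.g46), (3, B5.g73),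
     (36, B5.g37), (1, B5.g61), (1, B5.g125), (4, B5.g51), (6, B5.g71), (10, B5.g39), (1, B5.g63)]),
   ((12, 58563578258737), 517,
    [(2, B2.g88), (1, B2.g68), (12, B2.g36), (2, B2.g100), (2, B2.g116), (3, B2.g92),
     (44, B2.g90), (6, B2.g110), (10, B2.g94), (2, B2.g49), (5, B2.g73), (3, B2.g41),
     (1, B2.g105), (54, B2.g57), (11, B2.g37), (7, B2.g77), (2, B2.g45), (28, B2.g61),
     (3, B2.g125), (1, B2.g83), (14, B2.g43), (1, B2.g59), (10, B2.g123), (43, B2.g71),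
     (19, B2.g39), (14, B2.g103), (24, B2.g55), (8, B2.g47), (1, B2.g63), (2, B6.g52),
     (1, B6.g61), (7, B5.g116), (1, B5.g124), (4, B5.g118), (1, B5.g125), (5, B3.g32),
     (1, B3.g96), (6, B3.g80), (2, B3.g72), (2, B3.g120), (2, B3.g36), (20, B3.g44), (8, B3.g28),
     (51, B3.g60), (3, B3.g2), (15, B3.g34), (7, B3.g46), (24, B3.g30), (7, B3.g62), (4, B3.g17),
     (4, B3.g41), (14, B3.g89), (1, B3.g101), (11, B3.g67), (1, B3.g83), (2, B3.g51),
     (1, B3.g107), (2, B3.g91), (1, B3.g7), (1, B3.g55), (2, B3.g119)]),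
   ((4, 38464), 1027,
    [(12, B4.g32), (2, B4.g16), (40, B4.g8), (7, B4.g104), (9, B4.g56), (6, B4.g36), (6, B4.g20),
     (22, B4.g12), (5, B4.g76), (19, B4.g28), (16, B4.g92), (55, B4.g66), (5, B4.g82),
     (11, B4.g114), (7, B4.g6), (13, B4.g70), (9, B4.g46), (12, B4.g65), (83, B4.g33),
     (46, B4.g17), (3, B4.g49), (7, B4.g73), (1, B4.g89), (3, B4.g69), (56, B4.g101),
     (3, B4.g85), (1, B4.g53), (64, B4.g13), (26, B4.g29), (4, B4.g11), (32, B4.g43),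
     (11, B4.g107), (2, B4.g27), (2, B4.g123), (12, B4.g7), (4, B4.g39), (5, B4.g23),
     (56, B4.g79), (1, B4.g111), (1, B6.g64), (2, B6.g52), (2, B6.g14), (2, B6.g3), (19, B6.g51),
     (1, B6.g59), (1, B6.g55), (2, B5.g80), (6, B5.g8), (6, B5.g88), (21, B5.g4), (47, B5.g36),
     (24, B5.g20), (7, B5.g116), (2, B5.g76), (4, B5.g28), (1, B5.g2), (6, B5.g42), (87, B5.g70),
     (8, B5.g102), (2, B5.g14), (2, B5.g46), (1, B5.g94), (73, B5.g17), (2, B5.g49), (37, B5.g9),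
     (3, B5.g73), (56, B5.g5), (4, B5.g117), (6, B5.g59), (10, B5.g39), (10, B5.g23),
     (4, B5.g119), (1, B5.g63)]),
   ((16, 3761987165940503600), 515,
    [(1, B4.g2), (2, B2.g88), (31, B2.g56), (12, B2.g36), (4, B2.g52), (1, B2.g108), (3, B2.g92),
     (20, B2.g60), (4, B2.g66), (1, B2.g98), (1, B2.g114), (8, B2.g42), (25, B2.g122),
     (11, B2.g70), (26, B2.g38), (8, B2.g102), (21, B2.g46), (4, B2.g81), (2, B2.g49),
     (5, B2.g73), (3, B2.g41), (1, B2.g105), (30, B2.g89), (11, B2.g37), (2, B2.g45),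
     (7, B2.g93), (3, B2.g125), (1, B2.g59), (24, B2.g55), (1, B2.g63), (1, B6.g64), (2, B6.g52),
     (2, B6.g14), (2, B6.g3), (19, B6.g51), (1, B6.g59), (1, B6.g55), (7, B5.g116), (4, B5.g117),
     (4, B5.g119), (1, B3.g0), (5, B3.g32), (12, B3.g88), (2, B3.g120), (2, B3.g36), (8, B3.g28),
     (1, B3.g124), (1, B3.g70), (7, B3.g46), (14, B3.g94), (7, B3.g62), (5, B3.g65),
     (22, B3.g33), (1, B3.g49), (2, B3.g105), (1, B3.g21), (2, B3.g117), (25, B3.g29),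
     (7, B3.g99), (8, B3.g43), (2, B3.g91), (8, B3.g59), (1, B3.g39), (3, B3.g15)]),
   ((6, 6489921), 518,
    [(17, B2.g48), (31, B2.g72), (15, B2.g40), (27, B2.g104), (2, B2.g88), (12, B2.g36),
     (5, B2.g84), (34, B2.g44), (3, B2.g92), (8, B2.g124), (35, B2.g58), (3, B2.g54),
     (2, B2.g78), (34, B2.g62), (2, B2.g49), (5, B2.g73), (3, B2.g41), (1, B2.g105), (3, B2.g69),
     (11, B2.g37), (2, B2.g101), (2, B2.g117), (2, B2.g45), (3, B2.g125), (18, B2.g91),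
     (1, B2.g59), (24, B2.g55), (11, B2.g111), (10, B2.g95), (1, B2.g63), (4, B6.g16),
     (2, B6.g8), (2, B6.g52), (1, B6.g66), (2, B5.g120), (7, B5.g116), (5, B3.g32), (1, B3.g8),
     (1, B3.g56), (2, B3.g120), (2, B3.g36), (1, B3.g108), (8, B3.g28), (3, B3.g18), (4, B3.g42),
     (21, B3.g90), (7, B3.g46), (7, B3.g62), (2, B3.g73), (8, B3.g45), (5, B3.g61), (2, B3.g3),
     (4, B3.g35), (2, B3.g91), (1, B3.g23), (23, B3.g31)]),
   ((14, 18951415754487377), 1030,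
    [(12, B4.g32), (2, B4.g16), (52, B4.g72), (7, B4.g104), (4, B4.g88), (33, B4.g68),
     (6, B4.g36), (6, B4.g20), (5, B4.g52), (22, B4.g12), (19, B4.g28), (5, B4.g82),
     (59, B4.g10), (5, B4.g42), (6, B4.g26), (7, B4.g6), (9, B4.g46), (5, B4.g110), (12, B4.g65),
     (76, B4.g81), (7, B4.g73), (1, B4.g89), (3, B4.g69), (1, B4.g53), (12, B4.g117),
     (45, B4.g45), (2, B4.g125), (80, B4.g35), (68, B4.g19), (4, B4.g11), (2, B4.g27),
     (22, B4.g59), (12, B4.g7), (28, B4.g103), (62, B4.g15), (1, B4.g111), (34, B4.g31),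
     (4, B4.g95), (4, B6.g16), (2, B6.g8), (2, B6.g52), (1, B6.g66), (6, B5.g8), (22, B5.g72),
     (1, B5.g104), (2, B5.g120), (21, B5.g4), (24, B5.g20), (1, B5.g52), (7, B5.g116),
     (43, B5.g38), (2, B5.g46), (4, B5.g30), (3, B5.g62), (3, B5.g73), (12, B5.g25), (1, B5.g45),
     (1, B5.g35), (55, B5.g19), (23, B5.g11), (8, B5.g91), (30, B5.g7), (10, B5.g39), (1, B5.g63)]),
   ((6, 7750416), 517,
    [(2, B2.g88), (1, B2.g68), (12, B2.g36), (2, B2.g100), (2, B2.g116), (3, B2.g92),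
     (44, B2.g90), (6, B2.g110), (10, B2.g94), (2, B2.g49), (5, B2.g73), (3, B2.g41),
     (1, B2.g105), (54, B2.g57), (11, B2.g37), (7, B2.g77), (2, B2.g45), (28, B2.g61),
     (3, B2.g125), (1, B2.g83), (14, B2.g43), (1, B2.g59), (10, B2.g123), (43, B2.g71),
     (19, B2.g39), (14, B2.g103), (24, B2.g55), (8, B2.g47), (1, B2.g63), (2, B6.g52),
     (1, B6.g61), (7, B5.g116), (1, B5.g124), (4, B5.g118), (1, B5.g125), (5, B3.g32),
     (1, B3.g96), (6, B3.g80), (2, B3.g72), (2, B3.g120), (2, B3.g36), (20, B3.g44), (8, B3.g28),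
     (51, B3.g60), (3, B3.g2), (15, B3.g34), (7, B3.g46), (24, B3.g30), (7, B3.g62), (4, B3.g17),
     (4, B3.g41), (14, B3.g89), (1, B3.g101), (11, B3.g67), (1, B3.g83), (2, B3.g51),
     (1, B3.g107), (2, B3.g91), (1, B3.g7), (1, B3.g55), (2, B3.g119)]),
   ((14, 23703633412903952), 1029,
    [(1, B4.g64), (12, B4.g32), (2, B4.g16), (14, B4.g80), (7, B4.g104), (6, B4.g36),
     (1, B4.g100), (6, B4.g20), (1, B4.g116), (22, B4.g12), (31, B4.g44), (19, B4.g28),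
     (32, B4.g34), (17, B4.g18), (5, B4.g82), (1, B4.g58), (7, B4.g6), (16, B4.g102),
     (24, B4.g14), (9, B4.g78), (9, B4.g46), (46, B4.g30), (3, B4.g94), (12, B4.g65),
     (70, B4.g9), (7, B4.g73), (14, B4.g41), (14, B4.g25), (1, B4.g89), (3, B4.g69), (1, B4.g53),
     (1, B4.g109), (49, B4.g67), (1, B4.g51), (4, B4.g11), (2, B4.g27), (12, B4.g7), (7, B4.g71),
     (1, B4.g87), (1, B4.g111), (2, B6.g52), (1, B6.g61), (7, B5.g16), (6, B5.g8), (21, B5.g4),
     (24, B5.g20), (7, B5.g116), (14, B5.g44), (1, B5.g124), (2, B5.g34), (27, B5.g18),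
     (1, B5.g82), (67, B5.g10), (1, B5.g90), (19, B5.g6), (4, B5.g118), (2, B5.g46), (3, B5.g73),
     (36, B5.g37), (1, B5.g61), (1, B5.g125), (4, B5.g51), (6, B5.g71), (10, B5.g39), (1, B5.g63)]),
   ((8, 1620534032), 1030,
    [(12, B4.g32), (2, B4.g16), (52, B4.g72), (7, B4.g104), (4, B4.g88), (33, B4.g68),
     (6, B4.g36), (6, B4.g20), (5, B4.g52), (22, B4.g12), (19, B4.g28), (5, B4.g82),
     (59, B4.g10), (5, B4.g42), (6, B4.g26), (7, B4.g6), (9, B4.g46), (5, B4.g110), (12, B4.g65),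
     (76, B4.g81), (7, B4.g73), (1, B4.g89), (3, B4.g69), (1, B4.g53), (12, B4.g117),
     (45, B4.g45), (2, B4.g125), (80, B4.g35), (68, B4.g19), (4, B4.g11), (2, B4.g27),
     (22, B4.g59), (12, B4.g7), (28, B4.g103), (62, B4.g15), (1, B4.g111), (34, B4.g31),
     (4, B4.g95), (4, B6.g16), (2, B6.g8), (2, B6.g52), (1, B6.g66), (6, B5.g8), (22, B5.g72),
     (1, B5.g104), (2, B5.g120), (21, B5.g4), (24, B5.g20), (1, B5.g52), (7, B5.g116),
     (43, B5.g38), (2, B5.g46), (4, B5.g30), (3, B5.g62), (3, B5.g73), (12, B5.g25), (1, B5.g45),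
     (1, B5.g35), (55, B5.g19), (23, B5.g11), (8, B5.g91), (30, B5.g7), (10, B5.g39), (1, B5.g63)]),
   ((14, 19495875545289744), 518,
    [(17, B2.g48), (31, B2.g72), (15, B2.g40), (27, B2.g104), (2, B2.g88), (12, B2.g36),
     (5, B2.g84), (34, B2.g44), (3, B2.g92), (8, B2.g124), (35, B2.g58), (3, B2.g54),
     (2, B2.g78), (34, B2.g62), (2, B2.g49), (5, B2.g73), (3, B2.g41), (1, B2.g105), (3, B2.g69),
     (11, B2.g37), (2, B2.g101), (2, B2.g117), (2, B2.g45), (3, B2.g125), (18, B2.g91),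
     (1, B2.g59), (24, B2.g55), (11, B2.g111), (10, B2.g95), (1, B2.g63), (4, B6.g16),
     (2, B6.g8), (2, B6.g52), (1, B6.g66), (2, B5.g120), (7, B5.g116), (5, B3.g32), (1, B3.g8),
     (1, B3.g56), (2, B3.g120), (2, B3.g36), (1, B3.g108), (8, B3.g28), (3, B3.g18), (4, B3.g42),
     (21, B3.g90), (7, B3.g46), (7, B3.g62), (2, B3.g73), (8, B3.g45), (5, B3.g61), (2, B3.g3),
     (4, B3.g35), (2, B3.g91), (1, B3.g23), (23, B3.g31)])]

/-- lights 521 -/
noncomputable def plB_521 : List ((ℕ × ℕ) × ℕ × List (ℕ × ℕ)) :=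
  [((0, 0), 521,
    [(29, B2.g64), (8, B2.g96), (31, B2.g56), (1, B2.g68), (12, B2.g36), (2, B2.g100),
     (4, B2.g52), (1, B2.g108), (3, B2.g92), (4, B2.g66), (1, B2.g98), (10, B2.g50),
     (43, B2.g74), (8, B2.g42), (16, B2.g106), (44, B2.g90), (26, B2.g38), (6, B2.g110),
     (36, B2.g126), (30, B2.g89), (54, B2.g57), (7, B2.g77), (2, B2.g45), (14, B2.g43),
     (1, B2.g59), (19, B2.g39), (2, B2.g119), (1, B6.g34), (24, B6.g9), (5, B6.g53), (1, B6.g75),
     (2, B6.g27), (1, B6.g55), (1, B5.g124), (4, B5.g118), (3, B5.g126), (8, B5.g121),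
     (4, B5.g117), (1, B3.g0), (5, B3.g32), (1, B3.g96), (27, B3.g92), (1, B3.g124), (3, B3.g2),
     (1, B3.g10), (2, B3.g122), (3, B3.g110), (24, B3.g30), (14, B3.g94), (5, B3.g65),
     (1, B3.g49), (4, B3.g41), (24, B3.g37), (1, B3.g21), (25, B3.g29), (11, B3.g67),
     (1, B3.g83), (2, B3.g51), (6, B3.g75), (1, B3.g39), (3, B3.g47), (24, B3.g63)]),
   ((14, 14729291113129283), 1281,
    [(1, B6.g64), (2, B6.g52), (3, B6.g78), (30, B6.g62), (1, B6.g81), (6, B6.g57), (2, B6.g85),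
     (5, B6.g53), (1, B6.g61), (19, B6.g51), (1, B6.g75), (1, B6.g59), (15, B6.g71), (1, B6.g55),
     (2, B5.g32), (7, B5.g16), (2, B5.g80), (6, B5.g8), (53, B5.g40), (6, B5.g88), (21, B5.g4),
     (47, B5.g36), (42, B5.g100), (24, B5.g20), (4, B5.g84), (72, B5.g12), (2, B5.g76),
     (14, B5.g44), (4, B5.g28), (2, B5.g34), (27, B5.g18), (1, B5.g82), (67, B5.g10),
     (13, B5.g74), (6, B5.g42), (6, B5.g106), (8, B5.g26), (1, B5.g90), (19, B5.g6),
     (87, B5.g70), (8, B5.g102), (21, B5.g86), (3, B5.g54), (2, B5.g14), (88, B5.g78),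
     (2, B5.g46), (1, B5.g94), (1, B5.g65), (1, B5.g97), (73, B5.g17), (2, B5.g49), (37, B5.g9),
     (3, B5.g73), (12, B5.g57), (56, B5.g5), (36, B5.g37), (38, B5.g21), (1, B5.g61),
     (4, B5.g51), (6, B5.g59), (6, B5.g71), (10, B5.g39), (10, B5.g23), (19, B5.g47), (1, B5.g63)]),
   ((6, 3765297), 1057,
    [(1, B4.g64), (2, B4.g16), (14, B4.g80), (9, B4.g56), (1, B4.g100), (6, B4.g20),
     (22, B4.g12), (31, B4.g44), (16, B4.g92), (17, B4.g18), (5, B4.g82), (50, B4.g90),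
     (1, B4.g58), (8, B4.g54), (24, B4.g14), (9, B4.g46), (3, B4.g94), (4, B4.g97), (46, B4.g17),
     (3, B4.g49), (14, B4.g25), (1, B4.g89), (66, B4.g121), (51, B4.g21), (3, B4.g85),
     (1, B4.g53), (64, B4.g13), (3, B4.g61), (10, B4.g83), (1, B4.g51), (32, B4.g43),
     (2, B4.g27), (2, B4.g123), (5, B4.g23), (1, B4.g87), (56, B4.g79), (70, B4.g47),
     (1, B6.g64), (2, B6.g40), (4, B6.g20), (30, B6.g62), (5, B6.g1), (2, B6.g85), (2, B6.g3),
     (1, B5.g0), (2, B5.g32), (6, B5.g88), (24, B5.g20), (4, B5.g28), (1, B5.g2), (2, B5.g34),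
     (27, B5.g18), (8, B5.g26), (1, B5.g90), (21, B5.g86), (1, B5.g94), (3, B5.g126),
     (1, B5.g65), (1, B5.g97), (73, B5.g17), (12, B5.g57), (38, B5.g21), (1, B5.g61),
     (1, B5.g125), (6, B5.g59), (10, B5.g23), (1, B5.g63)]),
   ((12, 58563578258737), 641,
    [(1, B4.g2), (8, B2.g96), (12, B2.g112), (2, B2.g88), (2, B2.g100), (2, B2.g116),
     (1, B2.g108), (3, B2.g92), (1, B2.g98), (1, B2.g114), (16, B2.g106), (44, B2.g90),
     (25, B2.g122), (8, B2.g102), (6, B2.g110), (10, B2.g94), (36, B2.g126), (1, B2.g105),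
     (30, B2.g89), (7, B2.g93), (3, B2.g125), (10, B2.g123), (14, B2.g103), (2, B2.g119),
     (1, B6.g48), (2, B6.g40), (1, B6.g34), (4, B6.g42), (8, B6.g30), (1, B6.g81), (2, B6.g85),
     (2, B6.g27), (1, B3.g0), (1, B3.g96), (12, B3.g88), (2, B3.g120), (5, B3.g4), (27, B3.g92),
     (1, B3.g124), (3, B3.g2), (1, B3.g10), (2, B3.g122), (3, B3.g110), (14, B3.g94),
     (12, B3.g97), (4, B3.g17), (2, B3.g105), (1, B3.g25), (14, B3.g89), (1, B3.g101),
     (1, B3.g21), (2, B3.g117), (66, B3.g13), (7, B3.g99), (39, B3.g115), (1, B3.g107),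
     (2, B3.g91), (1, B3.g7), (34, B3.g103), (2, B3.g119), (3, B3.g15)]),
   ((4, 38464), 1034,
    [(12, B4.g32), (2, B4.g16), (35, B4.g48), (40, B4.g8), (4, B4.g88), (33, B4.g68),
     (154, B4.g84), (5, B4.g52), (5, B4.g76), (55, B4.g66), (1, B4.g98), (59, B4.g10),
     (5, B4.g42), (92, B4.g106), (6, B4.g26), (7, B4.g6), (42, B4.g38), (44, B4.g22),
     (5, B4.g110), (3, B4.g62), (3, B4.g49), (1, B4.g89), (3, B4.g69), (3, B4.g85), (1, B4.g53),
     (64, B4.g13), (26, B4.g29), (4, B4.g11), (8, B4.g75), (11, B4.g107), (2, B4.g27),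
     (4, B4.g39), (5, B4.g23), (62, B4.g15), (1, B4.g111), (34, B4.g31), (1, B6.g68),
     (1, B6.g76), (8, B6.g28), (3, B6.g18), (19, B6.g10), (3, B6.g6), (4, B6.g54), (1, B6.g55),
     (6, B5.g8), (2, B5.g76), (2, B5.g66), (6, B5.g42), (13, B5.g122), (83, B5.g22), (2, B5.g14),
     (2, B5.g46), (1, B5.g94), (55, B5.g41), (12, B5.g25), (56, B5.g5), (4, B5.g117),
     (15, B5.g13), (1, B5.g45), (2, B5.g93), (1, B5.g35), (11, B5.g75), (1, B5.g107),
     (30, B5.g7), (10, B5.g23), (1, B5.g55), (17, B5.g127)]),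
   ((16, 3761987165940503600), 770,
    [(1, B4.g2), (1, B6.g64), (7, B6.g72), (1, B6.g68), (2, B6.g52), (1, B6.g76), (1, B6.g66),
     (1, B6.g82), (44, B6.g58), (4, B6.g54), (19, B6.g51), (1, B6.g59), (1, B6.g55), (3, B6.g79),
     (11, B6.g63), (9, B3.g64), (5, B3.g32), (5, B3.g48), (15, B3.g104), (12, B3.g88),
     (1, B3.g56), (2, B3.g120), (2, B3.g36), (21, B3.g116), (1, B3.g76), (1, B3.g108),
     (8, B3.g28), (1, B3.g124), (5, B3.g98), (4, B3.g42), (21, B3.g90), (1, B3.g70),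
     (20, B3.g38), (1, B3.g86), (10, B3.g78), (7, B3.g46), (14, B3.g94), (7, B3.g62),
     (5, B3.g65), (22, B3.g33), (1, B3.g49), (2, B3.g73), (2, B3.g105), (8, B3.g69), (4, B3.g53),
     (2, B3.g117), (8, B3.g45), (25, B3.g29), (37, B3.g93), (5, B3.g61), (4, B3.g35),
     (7, B3.g99), (8, B3.g43), (2, B3.g91), (8, B3.g59), (2, B3.g123), (1, B3.g39), (1, B3.g111),
     (23, B3.g31), (1, B3.g127)]),
   ((6, 6489921), 530,
    [(54, B2.g80), (17, B2.g48), (15, B2.g40), (2, B2.g120), (5, B2.g84), (4, B2.g52),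
     (20, B2.g60), (4, B2.g66), (1, B2.g98), (1, B2.g114), (26, B2.g38), (5, B2.g86),
     (3, B2.g54), (21, B2.g46), (34, B2.g62), (82, B2.g65), (61, B2.g97), (4, B2.g81),
     (2, B2.g49), (19, B2.g113), (3, B2.g69), (11, B2.g37), (2, B2.g101), (2, B2.g117),
     (7, B2.g93), (40, B2.g51), (10, B2.g95), (1, B2.g63), (4, B6.g16), (12, B6.g2), (3, B6.g18),
     (44, B6.g58), (3, B6.g6), (2, B6.g14), (2, B6.g25), (26, B6.g13), (2, B6.g3), (1, B6.g59),
     (3, B6.g79), (3, B6.g31), (2, B5.g120), (13, B5.g122), (4, B5.g119), (1, B3.g8),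
     (1, B3.g56), (2, B3.g36), (1, B3.g76), (5, B3.g98), (4, B3.g42), (4, B3.g26), (1, B3.g70),
     (20, B3.g38), (1, B3.g86), (22, B3.g33), (2, B3.g73), (9, B3.g5), (8, B3.g69), (4, B3.g53),
     (4, B3.g35), (7, B3.g99), (1, B3.g11), (1, B3.g39), (1, B3.g127)]),
   ((14, 18951415754487377), 1090,
    [(12, B4.g32), (35, B4.g48), (7, B4.g104), (9, B4.g56), (6, B4.g36), (5, B4.g52),
     (19, B4.g28), (11, B4.g114), (5, B4.g42), (92, B4.g106), (32, B4.g122), (42, B4.g38),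
     (9, B4.g46), (5, B4.g110), (3, B4.g62), (83, B4.g33), (3, B4.g49), (44, B4.g113),
     (56, B4.g101), (1, B4.g53), (12, B4.g117), (45, B4.g45), (26, B4.g29), (2, B4.g125),
     (80, B4.g35), (32, B4.g43), (11, B4.g107), (22, B4.g59), (2, B4.g123), (4, B4.g39),
     (28, B4.g103), (29, B4.g55), (1, B4.g111), (34, B4.g31), (4, B6.g16), (2, B6.g8),
     (7, B6.g72), (1, B6.g76), (3, B6.g18), (19, B6.g10), (2, B6.g14), (2, B6.g25), (16, B6.g21),
     (26, B6.g13), (8, B6.g43), (3, B6.g79), (71, B5.g48), (1, B5.g104), (47, B5.g36),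
     (1, B5.g52), (1, B5.g2), (2, B5.g66), (6, B5.g42), (41, B5.g58), (43, B5.g38), (8, B5.g102),
     (2, B5.g46), (2, B5.g110), (3, B5.g62), (22, B5.g1), (2, B5.g49), (55, B5.g41), (3, B5.g69),
     (29, B5.g101), (1, B5.g45), (1, B5.g107), (6, B5.g59), (10, B5.g39), (1, B5.g55), (1, B5.g63)]),
   ((6, 7750416), 548,
    [(1, B4.g5), (2, B4.g3), (17, B2.g48), (31, B2.g72), (27, B2.g104), (5, B2.g84),
     (2, B2.g116), (47, B2.g76), (34, B2.g44), (36, B2.g82), (3, B2.g54), (2, B2.g78),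
     (6, B2.g110), (2, B2.g49), (5, B2.g73), (3, B2.g41), (1, B2.g105), (5, B2.g121),
     (58, B2.g53), (2, B2.g117), (7, B2.g77), (2, B2.g45), (153, B2.g109), (1, B2.g83),
     (14, B2.g115), (14, B2.g43), (43, B2.g71), (14, B2.g103), (4, B2.g87), (8, B2.g47),
     (11, B2.g111), (19, B6.g0), (23, B6.g4), (3, B6.g36), (1, B6.g66), (4, B6.g38), (4, B6.g22),
     (5, B6.g65), (2, B6.g69), (5, B6.g7), (1, B5.g125), (23, B3.g16), (6, B3.g80), (5, B3.g112),
     (1, B3.g56), (20, B3.g44), (1, B3.g108), (3, B3.g18), (3, B3.g82), (14, B3.g50),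
     (4, B3.g106), (2, B3.g58), (3, B3.g22), (6, B3.g54), (7, B3.g46), (4, B3.g17), (8, B3.g45),
     (1, B3.g83), (2, B3.g51), (1, B3.g107), (1, B3.g23), (1, B3.g55), (18, B3.g79)]),
   ((14, 23703633412903952), 1156,
    [(14, B4.g80), (52, B4.g72), (7, B4.g104), (4, B4.g88), (2, B4.g120), (33, B4.g68),
     (1, B4.g100), (1, B4.g116), (12, B4.g108), (121, B4.g124), (5, B4.g82), (16, B4.g102),
     (26, B4.g86), (9, B4.g78), (5, B4.g110), (3, B4.g94), (12, B4.g65), (76, B4.g81),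
     (7, B4.g73), (1, B4.g89), (3, B4.g69), (12, B4.g117), (43, B4.g77), (1, B4.g109),
     (7, B4.g93), (2, B4.g125), (49, B4.g67), (2, B4.g99), (39, B4.g115), (7, B4.g71),
     (28, B4.g103), (1, B4.g87), (1, B4.g111), (4, B4.g95), (1, B6.g32), (3, B6.g36),
     (26, B6.g44), (4, B6.g38), (1, B6.g46), (4, B6.g29), (22, B5.g72), (1, B5.g104),
     (2, B5.g108), (1, B5.g82), (1, B5.g90), (57, B5.g81), (3, B5.g73), (58, B5.g89),
     (1, B5.g85), (41, B5.g77), (2, B5.g99), (8, B5.g91), (6, B5.g71), (10, B5.g103),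
     (1, B5.g111), (5, B5.g95)]),
   ((8, 1620534032), 1044,
    [(1, B4.g64), (52, B4.g72), (91, B4.g40), (81, B4.g24), (2, B4.g120), (6, B4.g36),
     (1, B4.g100), (6, B4.g20), (1, B4.g116), (32, B4.g34), (17, B4.g18), (59, B4.g10),
     (5, B4.g42), (6, B4.g26), (1, B4.g58), (9, B4.g78), (3, B4.g94), (70, B4.g9), (7, B4.g73),
     (14, B4.g41), (14, B4.g25), (5, B4.g57), (12, B4.g117), (43, B4.g77), (7, B4.g93),
     (80, B4.g35), (2, B4.g99), (68, B4.g19), (39, B4.g115), (4, B4.g11), (2, B4.g27),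
     (22, B4.g59), (12, B4.g7), (7, B4.g71), (4, B4.g95), (11, B4.g63), (1, B6.g32), (4, B6.g16),
     (23, B6.g4), (1, B6.g60), (1, B6.g61), (1, B6.g19), (5, B6.g7), (24, B6.g15), (7, B5.g16),
     (4, B5.g56), (2, B5.g120), (1, B5.g52), (1, B5.g124), (2, B5.g34), (1, B5.g82),
     (14, B5.g50), (67, B5.g10), (4, B5.g30), (8, B5.g33), (57, B5.g81), (1, B5.g85),
     (5, B5.g29), (1, B5.g35), (2, B5.g99), (4, B5.g51), (23, B5.g11), (19, B5.g123),
     (114, B5.g15), (1, B5.g111)]),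
   ((14, 19495875545289744), 580,
    [(1, B4.g5), (2, B4.g3), (31, B2.g72), (1, B2.g68), (5, B2.g84), (47, B2.g76), (8, B2.g124),
     (36, B2.g82), (35, B2.g58), (2, B2.g78), (34, B2.g62), (5, B2.g73), (54, B2.g57),
     (3, B2.g69), (7, B2.g77), (28, B2.g61), (3, B2.g125), (48, B2.g67), (1, B2.g83),
     (1, B2.g59), (10, B2.g123), (43, B2.g71), (4, B2.g87), (24, B2.g55), (1, B2.g63),
     (4, B6.g16), (2, B6.g8), (26, B6.g44), (4, B6.g22), (1, B6.g46), (7, B6.g73), (1, B6.g19),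
     (7, B6.g11), (24, B6.g15), (23, B3.g16), (6, B3.g80), (1, B3.g8), (2, B3.g72), (2, B3.g120),
     (1, B3.g12), (51, B3.g60), (3, B3.g2), (14, B3.g66), (3, B3.g18), (3, B3.g82), (6, B3.g6),
     (3, B3.g22), (9, B3.g118), (7, B3.g62), (19, B3.g1), (4, B3.g17), (2, B3.g73), (5, B3.g61),
     (4, B3.g125), (2, B3.g3), (11, B3.g67), (1, B3.g83), (1, B3.g7), (19, B3.g71), (1, B3.g23),
     (2, B3.g119), (18, B3.g79)])]

/-- lights 522 -/
noncomputable def plB_522 : List ((ℕ × ℕ) × ℕ × List (ℕ × ℕ)) :=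
  [((0, 0), 522,
    [(15, B2.g40), (31, B2.g56), (2, B2.g120), (12, B2.g36), (4, B2.g52), (34, B2.g44),
     (1, B2.g108), (3, B2.g92), (4, B2.g66), (1, B2.g98), (8, B2.g42), (35, B2.g58),
     (26, B2.g38), (5, B2.g86), (3, B2.g54), (2, B2.g78), (82, B2.g65), (61, B2.g97),
     (30, B2.g89), (3, B2.g69), (2, B2.g101), (2, B2.g45), (40, B2.g51), (7, B2.g75),
     (29, B2.g107), (18, B2.g91), (1, B2.g59), (11, B2.g111), (25, B2.g127), (1, B6.g68),
     (1, B6.g76), (8, B6.g28), (3, B6.g18), (19, B6.g10), (3, B6.g6), (4, B6.g54), (1, B6.g55),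
     (13, B5.g122), (4, B5.g117), (17, B5.g127), (1, B3.g0), (9, B3.g64), (5, B3.g32),
     (5, B3.g48), (2, B3.g20), (1, B3.g76), (1, B3.g124), (4, B3.g42), (20, B3.g38),
     (14, B3.g94), (5, B3.g65), (1, B3.g49), (1, B3.g21), (25, B3.g29), (37, B3.g93), (2, B3.g3),
     (1, B3.g11), (2, B3.g123), (1, B3.g39), (1, B3.g23), (1, B3.g111), (23, B3.g31)]),
   ((14, 14729291113129283), 1282,
    [(1, B6.g64), (7, B6.g72), (1, B6.g68), (2, B6.g52), (1, B6.g76), (1, B6.g66), (1, B6.g82),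
     (44, B6.g58), (4, B6.g54), (19, B6.g51), (1, B6.g59), (1, B6.g55), (3, B6.g79),
     (11, B6.g63), (2, B5.g80), (71, B5.g48), (6, B5.g8), (22, B5.g72), (1, B5.g104),
     (6, B5.g88), (21, B5.g4), (47, B5.g36), (24, B5.g20), (1, B5.g52), (2, B5.g76), (4, B5.g28),
     (2, B5.g66), (6, B5.g98), (6, B5.g42), (41, B5.g58), (87, B5.g70), (43, B5.g38),
     (8, B5.g102), (83, B5.g22), (2, B5.g14), (2, B5.g46), (2, B5.g110), (4, B5.g30),
     (1, B5.g94), (3, B5.g62), (73, B5.g17), (2, B5.g49), (37, B5.g9), (3, B5.g73), (55, B5.g41),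
     (12, B5.g25), (56, B5.g5), (3, B5.g69), (29, B5.g101), (15, B5.g13), (1, B5.g45),
     (2, B5.g93), (1, B5.g35), (55, B5.g19), (23, B5.g11), (11, B5.g75), (1, B5.g107),
     (58, B5.g27), (8, B5.g91), (6, B5.g59), (30, B5.g7), (10, B5.g39), (10, B5.g23),
     (32, B5.g87), (1, B5.g55), (13, B5.g79), (1, B5.g63)]),
   ((6, 3765297), 1060,
    [(1, B4.g64), (2, B4.g16), (14, B4.g80), (81, B4.g24), (4, B4.g88), (1, B4.g100),
     (6, B4.g20), (5, B4.g52), (22, B4.g12), (31, B4.g44), (121, B4.g124), (17, B4.g18),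
     (5, B4.g82), (53, B4.g50), (6, B4.g26), (1, B4.g58), (26, B4.g86), (24, B4.g14),
     (9, B4.g46), (3, B4.g94), (76, B4.g81), (14, B4.g25), (1, B4.g89), (5, B4.g57), (1, B4.g53),
     (45, B4.g45), (7, B4.g93), (2, B4.g125), (2, B4.g99), (68, B4.g19), (1, B4.g51),
     (2, B4.g27), (22, B4.g59), (1, B4.g87), (62, B4.g15), (4, B4.g95), (11, B4.g63),
     (19, B6.g0), (23, B6.g4), (3, B6.g36), (1, B6.g66), (4, B6.g38), (4, B6.g22), (5, B6.g65),
     (2, B6.g69), (5, B6.g7), (61, B5.g24), (24, B5.g20), (10, B5.g60), (2, B5.g34),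
     (27, B5.g18), (1, B5.g90), (4, B5.g30), (3, B5.g62), (8, B5.g33), (12, B5.g25),
     (58, B5.g89), (5, B5.g29), (1, B5.g61), (1, B5.g125), (4, B5.g67), (1, B5.g35), (2, B5.g99),
     (55, B5.g19), (8, B5.g91), (5, B5.g95), (1, B5.g63)]),
   ((12, 58563578258737), 644,
    [(1, B4.g5), (2, B4.g3), (27, B2.g104), (2, B2.g88), (2, B2.g100), (2, B2.g116), (3, B2.g92),
     (8, B2.g124), (44, B2.g90), (6, B2.g110), (10, B2.g94), (1, B2.g105), (5, B2.g121),
     (2, B2.g101), (2, B2.g117), (153, B2.g109), (3, B2.g125), (33, B2.g99), (14, B2.g115),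
     (18, B2.g91), (10, B2.g123), (14, B2.g103), (11, B2.g111), (10, B2.g95), (1, B6.g32),
     (3, B6.g36), (26, B6.g44), (4, B6.g38), (1, B6.g46), (4, B6.g29), (1, B3.g96), (23, B3.g16),
     (5, B3.g112), (1, B3.g8), (2, B3.g120), (3, B3.g100), (1, B3.g12), (1, B3.g108), (3, B3.g2),
     (3, B3.g18), (4, B3.g106), (21, B3.g90), (6, B3.g6), (3, B3.g22), (9, B3.g118), (19, B3.g1),
     (4, B3.g17), (14, B3.g89), (1, B3.g101), (4, B3.g125), (2, B3.g3), (1, B3.g107),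
     (2, B3.g91), (1, B3.g7), (1, B3.g23), (2, B3.g119), (12, B3.g95)]),
   ((4, 38464), 1033,
    [(1, B4.g64), (12, B4.g32), (2, B4.g16), (40, B4.g8), (1, B4.g100), (5, B4.g76),
     (55, B4.g66), (26, B4.g74), (7, B4.g6), (24, B4.g14), (9, B4.g78), (46, B4.g30),
     (4, B4.g97), (3, B4.g49), (70, B4.g9), (14, B4.g41), (10, B4.g105), (14, B4.g25),
     (1, B4.g89), (3, B4.g69), (28, B4.g37), (51, B4.g21), (3, B4.g85), (1, B4.g53),
     (64, B4.g13), (1, B4.g109), (26, B4.g29), (3, B4.g61), (49, B4.g67), (10, B4.g83),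
     (1, B4.g51), (4, B4.g11), (11, B4.g107), (2, B4.g27), (4, B4.g39), (5, B4.g23), (1, B4.g87),
     (1, B4.g119), (70, B4.g47), (1, B4.g111), (1, B6.g34), (24, B6.g9), (5, B6.g53),
     (1, B6.g75), (2, B6.g27), (1, B6.g55), (2, B5.g32), (7, B5.g16), (6, B5.g8), (53, B5.g40),
     (4, B5.g84), (72, B5.g12), (2, B5.g76), (14, B5.g44), (1, B5.g124), (2, B5.g34),
     (13, B5.g74), (6, B5.g42), (6, B5.g106), (19, B5.g6), (3, B5.g54), (4, B5.g118),
     (2, B5.g14), (2, B5.g46), (1, B5.g94), (3, B5.g126), (1, B5.g65), (8, B5.g121), (56, B5.g5),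
     (38, B5.g21), (4, B5.g117), (10, B5.g23)]),
   ((16, 3761987165940503600), 769,
    [(1, B4.g2), (1, B6.g64), (2, B6.g52), (3, B6.g78), (30, B6.g62), (1, B6.g81), (6, B6.g57),
     (2, B6.g85), (5, B6.g53), (1, B6.g61), (19, B6.g51), (1, B6.g75), (1, B6.g59), (15, B6.g71),
     (1, B6.g55), (5, B3.g32), (1, B3.g96), (6, B3.g80), (2, B3.g72), (12, B3.g88), (2, B3.g120),
     (22, B3.g68), (2, B3.g36), (29, B3.g52), (20, B3.g44), (8, B3.g28), (27, B3.g92),
     (51, B3.g60), (1, B3.g124), (15, B3.g34), (2, B3.g122), (1, B3.g70), (7, B3.g46),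
     (3, B3.g110), (24, B3.g30), (14, B3.g94), (7, B3.g62), (5, B3.g65), (22, B3.g33),
     (12, B3.g97), (1, B3.g49), (4, B3.g41), (2, B3.g105), (14, B3.g89), (24, B3.g37),
     (1, B3.g101), (2, B3.g85), (2, B3.g117), (5, B3.g77), (25, B3.g29), (11, B3.g67),
     (7, B3.g99), (1, B3.g83), (2, B3.g51), (39, B3.g115), (6, B3.g75), (8, B3.g43),
     (1, B3.g107), (2, B3.g91), (8, B3.g59), (1, B3.g39), (34, B3.g103), (1, B3.g55),
     (2, B3.g119), (3, B3.g47), (24, B3.g63)]),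
   ((6, 6489921), 532,
    [(17, B2.g48), (15, B2.g40), (1, B2.g68), (2, B2.g100), (5, B2.g84), (2, B2.g116),
     (36, B2.g82), (3, B2.g54), (10, B2.g94), (34, B2.g62), (2, B2.g49), (5, B2.g121),
     (3, B2.g69), (11, B2.g37), (2, B2.g101), (58, B2.g53), (2, B2.g117), (28, B2.g61),
     (48, B2.g67), (33, B2.g99), (1, B2.g83), (14, B2.g115), (19, B2.g39), (4, B2.g87),
     (8, B2.g47), (10, B2.g95), (1, B2.g63), (1, B6.g32), (4, B6.g16), (23, B6.g4), (1, B6.g60),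
     (1, B6.g61), (1, B6.g19), (5, B6.g7), (24, B6.g15), (2, B5.g120), (1, B5.g124),
     (19, B5.g123), (1, B3.g8), (2, B3.g72), (15, B3.g40), (1, B3.g56), (2, B3.g36),
     (3, B3.g100), (1, B3.g12), (15, B3.g34), (4, B3.g42), (2, B3.g58), (6, B3.g6), (6, B3.g54),
     (2, B3.g73), (4, B3.g41), (1, B3.g101), (4, B3.g35), (1, B3.g7), (19, B3.g71), (1, B3.g55)]),
   ((14, 18951415754487377), 1092,
    [(1, B4.g64), (12, B4.g32), (91, B4.g40), (7, B4.g104), (2, B4.g120), (6, B4.g36),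
     (5, B4.g52), (1, B4.g116), (31, B4.g44), (12, B4.g108), (19, B4.g28), (121, B4.g124),
     (32, B4.g34), (53, B4.g50), (5, B4.g42), (1, B4.g58), (16, B4.g102), (9, B4.g46),
     (5, B4.g110), (46, B4.g30), (14, B4.g41), (5, B4.g57), (1, B4.g53), (12, B4.g117),
     (45, B4.g45), (1, B4.g109), (2, B4.g125), (80, B4.g35), (1, B4.g51), (39, B4.g115),
     (22, B4.g59), (28, B4.g103), (1, B4.g111), (34, B4.g31), (11, B4.g63), (4, B6.g16),
     (2, B6.g8), (26, B6.g44), (4, B6.g22), (1, B6.g46), (7, B6.g73), (1, B6.g19), (7, B6.g11),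
     (24, B6.g15), (1, B5.g104), (4, B5.g56), (1, B5.g52), (14, B5.g44), (2, B5.g108),
     (10, B5.g60), (14, B5.g50), (43, B5.g38), (2, B5.g46), (3, B5.g62), (36, B5.g37),
     (1, B5.g45), (1, B5.g61), (4, B5.g67), (4, B5.g51), (24, B5.g43), (10, B5.g39),
     (10, B5.g103), (1, B5.g111), (1, B5.g63)]),
   ((6, 7750416), 545,
    [(1, B4.g2), (12, B2.g112), (4, B2.g52), (2, B2.g116), (1, B2.g108), (10, B2.g50),
     (1, B2.g114), (43, B2.g74), (8, B2.g42), (16, B2.g106), (11, B2.g70), (8, B2.g102),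
     (21, B2.g46), (6, B2.g110), (4, B2.g81), (2, B2.g49), (5, B2.g73), (3, B2.g41),
     (1, B2.g105), (7, B2.g77), (2, B2.g45), (1, B2.g83), (14, B2.g43), (43, B2.g71),
     (14, B2.g103), (2, B2.g119), (8, B2.g79), (8, B2.g47), (1, B6.g64), (2, B6.g40),
     (4, B6.g20), (30, B6.g62), (5, B6.g1), (2, B6.g85), (2, B6.g3), (3, B5.g126), (1, B5.g125),
     (6, B3.g80), (29, B3.g52), (20, B3.g44), (7, B3.g46), (3, B3.g110), (4, B3.g17),
     (1, B3.g49), (2, B3.g105), (1, B3.g25), (1, B3.g21), (2, B3.g85), (66, B3.g13), (5, B3.g77),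
     (1, B3.g83), (2, B3.g51), (8, B3.g43), (1, B3.g107), (34, B3.g103), (1, B3.g55),
     (3, B3.g15), (3, B3.g47)]),
   ((14, 23703633412903952), 1153,
    [(14, B4.g80), (23, B4.g112), (7, B4.g104), (1, B4.g100), (1, B4.g116), (5, B4.g76),
     (16, B4.g92), (55, B4.g66), (5, B4.g82), (11, B4.g114), (26, B4.g74), (50, B4.g90),
     (13, B4.g70), (16, B4.g102), (9, B4.g78), (3, B4.g94), (12, B4.g65), (4, B4.g97),
     (7, B4.g73), (10, B4.g105), (1, B4.g89), (66, B4.g121), (3, B4.g69), (56, B4.g101),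
     (3, B4.g85), (1, B4.g109), (49, B4.g67), (10, B4.g83), (11, B4.g107), (2, B4.g123),
     (7, B4.g71), (1, B4.g87), (1, B4.g119), (56, B4.g79), (1, B4.g111), (1, B6.g48),
     (2, B6.g40), (1, B6.g34), (4, B6.g42), (8, B6.g30), (1, B6.g81), (2, B6.g85), (2, B6.g27),
     (1, B5.g0), (2, B5.g80), (6, B5.g88), (42, B5.g100), (4, B5.g84), (2, B5.g76), (1, B5.g2),
     (1, B5.g82), (13, B5.g74), (6, B5.g106), (1, B5.g90), (87, B5.g70), (8, B5.g102),
     (21, B5.g86), (88, B5.g78), (1, B5.g94), (1, B5.g97), (3, B5.g73), (6, B5.g71)]),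
   ((8, 1620534032), 1042,
    [(40, B4.g8), (52, B4.g72), (9, B4.g56), (6, B4.g36), (6, B4.g20), (5, B4.g76), (16, B4.g92),
     (1, B4.g98), (11, B4.g114), (59, B4.g10), (5, B4.g42), (6, B4.g26), (13, B4.g70),
     (42, B4.g38), (44, B4.g22), (3, B4.g62), (83, B4.g33), (46, B4.g17), (44, B4.g113),
     (7, B4.g73), (12, B4.g117), (80, B4.g35), (68, B4.g19), (4, B4.g11), (8, B4.g75),
     (2, B4.g27), (63, B4.g91), (22, B4.g59), (12, B4.g7), (4, B4.g39), (5, B4.g23),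
     (29, B4.g55), (4, B4.g95), (4, B6.g16), (12, B6.g2), (3, B6.g18), (44, B6.g58), (3, B6.g6),
     (2, B6.g14), (2, B6.g25), (26, B6.g13), (2, B6.g3), (1, B6.g59), (3, B6.g79), (3, B6.g31),
     (2, B5.g80), (71, B5.g48), (2, B5.g120), (1, B5.g52), (4, B5.g28), (1, B5.g2), (6, B5.g98),
     (13, B5.g122), (2, B5.g14), (2, B5.g110), (4, B5.g30), (22, B5.g1), (2, B5.g49),
     (37, B5.g9), (3, B5.g69), (15, B5.g13), (1, B5.g35), (23, B5.g11), (58, B5.g27),
     (1, B5.g55), (4, B5.g119), (13, B5.g79)]),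
   ((14, 19495875545289744), 578,
    [(1, B4.g2), (54, B2.g80), (31, B2.g72), (31, B2.g56), (5, B2.g84), (20, B2.g60),
     (8, B2.g124), (4, B2.g66), (35, B2.g58), (25, B2.g122), (11, B2.g70), (5, B2.g86),
     (2, B2.g78), (34, B2.g62), (82, B2.g65), (4, B2.g81), (5, B2.g73), (3, B2.g69),
     (3, B2.g125), (7, B2.g75), (1, B2.g59), (24, B2.g55), (1, B2.g63), (25, B2.g127),
     (4, B6.g16), (2, B6.g8), (7, B6.g72), (1, B6.g76), (3, B6.g18), (19, B6.g10), (2, B6.g14),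
     (2, B6.g25), (16, B6.g21), (26, B6.g13), (8, B6.g43), (3, B6.g79), (1, B3.g0), (9, B3.g64),
     (1, B3.g8), (2, B3.g120), (2, B3.g20), (21, B3.g116), (1, B3.g76), (1, B3.g124),
     (3, B3.g18), (4, B3.g26), (1, B3.g70), (1, B3.g86), (19, B3.g14), (10, B3.g78), (7, B3.g62),
     (5, B3.g65), (2, B3.g73), (9, B3.g5), (8, B3.g69), (1, B3.g21), (2, B3.g117), (5, B3.g61),
     (2, B3.g3), (1, B3.g11), (8, B3.g59), (2, B3.g123), (1, B3.g23), (3, B3.g15), (1, B3.g127)])]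

/-- lights 524 -/
noncomputable def plB_524 : List ((ℕ × ℕ) × ℕ × List (ℕ × ℕ)) :=
  [((0, 0), 524,
    [(1, B4.g5), (15, B2.g40), (1, B2.g68), (12, B2.g36), (2, B2.g100), (47, B2.g76),
     (34, B2.g44), (3, B2.g92), (44, B2.g90), (35, B2.g58), (3, B2.g54), (2, B2.g78),
     (6, B2.g110), (54, B2.g57), (5, B2.g121), (3, B2.g69), (2, B2.g101), (58, B2.g53),
     (7, B2.g77), (2, B2.g45), (153, B2.g109), (48, B2.g67), (33, B2.g99), (14, B2.g43),
     (18, B2.g91), (1, B2.g59), (19, B2.g39), (4, B2.g87), (11, B2.g111), (19, B6.g0),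
     (10, B6.g56), (4, B6.g38), (1, B6.g46), (2, B6.g69), (4, B6.g29), (1, B6.g19), (7, B6.g11),
     (5, B6.g7), (1, B5.g124), (4, B5.g118), (19, B5.g123), (5, B3.g32), (1, B3.g96),
     (5, B3.g112), (15, B3.g40), (1, B3.g12), (3, B3.g2), (14, B3.g66), (3, B3.g82),
     (14, B3.g50), (4, B3.g42), (2, B3.g58), (3, B3.g22), (24, B3.g30), (19, B3.g1), (4, B3.g41),
     (4, B3.g125), (2, B3.g3), (11, B3.g67), (1, B3.g83), (2, B3.g51), (1, B3.g23), (23, B3.g31),
     (12, B3.g95)]),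
   ((14, 14729291113129283), 1284,
    [(10, B6.g56), (2, B6.g52), (1, B6.g60), (1, B6.g66), (5, B6.g65), (7, B6.g73), (2, B6.g69),
     (1, B6.g61), (7, B5.g16), (6, B5.g8), (22, B5.g72), (1, B5.g104), (61, B5.g24), (4, B5.g56),
     (21, B5.g4), (24, B5.g20), (1, B5.g52), (14, B5.g44), (2, B5.g108), (10, B5.g60),
     (2, B5.g34), (27, B5.g18), (1, B5.g82), (14, B5.g50), (67, B5.g10), (1, B5.g90),
     (19, B5.g6), (43, B5.g38), (2, B5.g46), (4, B5.g30), (3, B5.g62), (8, B5.g33), (57, B5.g81),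
     (3, B5.g73), (12, B5.g25), (58, B5.g89), (36, B5.g37), (1, B5.g85), (41, B5.g77),
     (1, B5.g45), (5, B5.g29), (1, B5.g61), (4, B5.g67), (1, B5.g35), (2, B5.g99), (55, B5.g19),
     (4, B5.g51), (23, B5.g11), (24, B5.g43), (8, B5.g91), (30, B5.g7), (6, B5.g71),
     (10, B5.g39), (10, B5.g103), (114, B5.g15), (1, B5.g111), (5, B5.g95), (1, B5.g63)]),
   ((6, 3765297), 1058,
    [(2, B4.g16), (35, B4.g48), (4, B4.g88), (9, B4.g56), (6, B4.g20), (154, B4.g84),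
     (5, B4.g52), (22, B4.g12), (16, B4.g92), (1, B4.g98), (5, B4.g82), (6, B4.g26),
     (32, B4.g122), (44, B4.g22), (9, B4.g46), (3, B4.g62), (46, B4.g17), (76, B4.g81),
     (3, B4.g49), (1, B4.g89), (3, B4.g85), (1, B4.g53), (64, B4.g13), (45, B4.g45),
     (2, B4.g125), (68, B4.g19), (32, B4.g43), (2, B4.g27), (63, B4.g91), (22, B4.g59),
     (2, B4.g123), (5, B4.g23), (29, B4.g55), (62, B4.g15), (56, B4.g79), (4, B4.g95),
     (1, B6.g64), (1, B6.g68), (12, B6.g2), (1, B6.g66), (3, B6.g6), (2, B6.g25), (16, B6.g21),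
     (2, B6.g3), (9, B6.g35), (11, B6.g63), (6, B5.g88), (24, B5.g20), (4, B5.g28), (1, B5.g2),
     (2, B5.g66), (6, B5.g98), (41, B5.g58), (83, B5.g22), (4, B5.g30), (1, B5.g94), (3, B5.g62),
     (22, B5.g1), (73, B5.g17), (12, B5.g25), (3, B5.g69), (2, B5.g93), (1, B5.g35),
     (55, B5.g19), (58, B5.g27), (8, B5.g91), (6, B5.g59), (10, B5.g23), (32, B5.g87),
     (1, B5.g63), (17, B5.g127)]),
   ((12, 58563578258737), 642,
    [(1, B4.g2), (27, B2.g104), (2, B2.g88), (2, B2.g120), (1, B2.g108), (3, B2.g92),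
     (8, B2.g124), (1, B2.g98), (1, B2.g114), (25, B2.g122), (8, B2.g102), (61, B2.g97),
     (19, B2.g113), (1, B2.g105), (30, B2.g89), (2, B2.g101), (2, B2.g117), (7, B2.g93),
     (3, B2.g125), (29, B2.g107), (18, B2.g91), (11, B2.g111), (10, B2.g95), (25, B2.g127),
     (8, B6.g28), (1, B6.g82), (9, B6.g35), (8, B6.g43), (3, B6.g31), (1, B3.g0), (1, B3.g8),
     (15, B3.g104), (12, B3.g88), (2, B3.g120), (2, B3.g20), (21, B3.g116), (1, B3.g108),
     (1, B3.g124), (5, B3.g98), (3, B3.g18), (4, B3.g26), (21, B3.g90), (19, B3.g14),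
     (14, B3.g94), (2, B3.g105), (9, B3.g5), (1, B3.g21), (2, B3.g117), (37, B3.g93), (2, B3.g3),
     (7, B3.g99), (1, B3.g11), (2, B3.g91), (2, B3.g123), (1, B3.g23), (3, B3.g15), (1, B3.g111),
     (1, B3.g127)]),
   ((4, 38464), 1036,
    [(1, B4.g64), (12, B4.g32), (2, B4.g16), (91, B4.g40), (81, B4.g24), (4, B4.g88),
     (2, B4.g120), (33, B4.g68), (1, B4.g100), (5, B4.g52), (12, B4.g108), (53, B4.g50),
     (59, B4.g10), (5, B4.g42), (6, B4.g26), (7, B4.g6), (26, B4.g86), (24, B4.g14), (9, B4.g78),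
     (5, B4.g110), (46, B4.g30), (70, B4.g9), (14, B4.g41), (14, B4.g25), (1, B4.g89),
     (3, B4.g69), (1, B4.g53), (43, B4.g77), (1, B4.g109), (49, B4.g67), (2, B4.g99),
     (1, B4.g51), (4, B4.g11), (2, B4.g27), (1, B4.g87), (62, B4.g15), (1, B4.g111),
     (34, B4.g31), (11, B4.g63), (19, B6.g0), (10, B6.g56), (4, B6.g38), (1, B6.g46),
     (2, B6.g69), (4, B6.g29), (1, B6.g19), (7, B6.g11), (5, B6.g7), (7, B5.g16), (6, B5.g8),
     (61, B5.g24), (4, B5.g56), (14, B5.g44), (2, B5.g108), (1, B5.g124), (2, B5.g34),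
     (19, B5.g6), (4, B5.g118), (2, B5.g46), (8, B5.g33), (12, B5.g25), (1, B5.g85),
     (41, B5.g77), (1, B5.g45), (4, B5.g67), (1, B5.g35), (24, B5.g43), (19, B5.g123),
     (30, B5.g7), (114, B5.g15), (5, B5.g95)]),
   ((16, 3761987165940503600), 772,
    [(1, B4.g5), (2, B4.g3), (10, B6.g56), (2, B6.g52), (1, B6.g60), (1, B6.g66), (5, B6.g65),
     (7, B6.g73), (2, B6.g69), (1, B6.g61), (5, B3.g32), (1, B3.g96), (6, B3.g80), (5, B3.g112),
     (2, B3.g72), (15, B3.g40), (1, B3.g56), (2, B3.g120), (2, B3.g36), (3, B3.g100),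
     (20, B3.g44), (1, B3.g108), (8, B3.g28), (51, B3.g60), (14, B3.g66), (15, B3.g34),
     (3, B3.g82), (14, B3.g50), (4, B3.g42), (4, B3.g106), (21, B3.g90), (2, B3.g58),
     (6, B3.g54), (9, B3.g118), (7, B3.g46), (24, B3.g30), (7, B3.g62), (2, B3.g73), (4, B3.g41),
     (14, B3.g89), (1, B3.g101), (8, B3.g45), (5, B3.g61), (4, B3.g125), (11, B3.g67),
     (4, B3.g35), (1, B3.g83), (2, B3.g51), (1, B3.g107), (2, B3.g91), (19, B3.g71), (1, B3.g55),
     (2, B3.g119), (18, B3.g79), (23, B3.g31), (12, B3.g95)]),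
   ((6, 6489921), 529,
    [(29, B2.g64), (8, B2.g96), (12, B2.g112), (1, B2.g68), (2, B2.g100), (4, B2.g52),
     (2, B2.g116), (20, B2.g60), (4, B2.g66), (1, B2.g98), (10, B2.g50), (1, B2.g114),
     (26, B2.g38), (21, B2.g46), (10, B2.g94), (4, B2.g81), (2, B2.g49), (11, B2.g37),
     (7, B2.g93), (28, B2.g61), (1, B2.g83), (19, B2.g39), (2, B2.g119), (8, B2.g79),
     (8, B2.g47), (1, B2.g63), (1, B6.g48), (2, B6.g40), (22, B6.g12), (1, B6.g34), (2, B6.g14),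
     (3, B6.g78), (8, B6.g30), (5, B6.g1), (6, B6.g57), (1, B6.g61), (2, B6.g3), (1, B6.g59),
     (1, B5.g124), (8, B5.g121), (4, B5.g119), (2, B3.g72), (5, B3.g4), (22, B3.g68),
     (2, B3.g36), (29, B3.g52), (15, B3.g34), (1, B3.g10), (1, B3.g70), (22, B3.g33),
     (12, B3.g97), (4, B3.g41), (1, B3.g25), (24, B3.g37), (1, B3.g101), (2, B3.g85),
     (7, B3.g99), (6, B3.g75), (1, B3.g7), (1, B3.g39), (1, B3.g55)]),
   ((14, 18951415754487377), 1089,
    [(1, B4.g64), (12, B4.g32), (23, B4.g112), (7, B4.g104), (9, B4.g56), (6, B4.g36),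
     (1, B4.g116), (31, B4.g44), (19, B4.g28), (32, B4.g34), (11, B4.g114), (1, B4.g58),
     (16, B4.g102), (8, B4.g54), (9, B4.g46), (46, B4.g30), (83, B4.g33), (3, B4.g49),
     (14, B4.g41), (10, B4.g105), (66, B4.g121), (28, B4.g37), (56, B4.g101), (1, B4.g53),
     (1, B4.g109), (26, B4.g29), (3, B4.g61), (1, B4.g51), (32, B4.g43), (11, B4.g107),
     (2, B4.g123), (4, B4.g39), (1, B4.g119), (70, B4.g47), (1, B4.g111), (1, B6.g48),
     (4, B6.g20), (22, B6.g12), (4, B6.g42), (2, B6.g14), (3, B6.g78), (24, B6.g9), (1, B6.g75),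
     (15, B6.g71), (1, B5.g0), (53, B5.g40), (47, B5.g36), (42, B5.g100), (14, B5.g44),
     (1, B5.g2), (6, B5.g42), (6, B5.g106), (8, B5.g102), (3, B5.g54), (2, B5.g46), (1, B5.g65),
     (2, B5.g49), (12, B5.g57), (36, B5.g37), (1, B5.g61), (4, B5.g51), (6, B5.g59),
     (10, B5.g39), (19, B5.g47), (1, B5.g63)]),
   ((6, 7750416), 546,
    [(1, B4.g2), (54, B2.g80), (17, B2.g48), (31, B2.g72), (27, B2.g104), (2, B2.g120),
     (5, B2.g84), (4, B2.g52), (34, B2.g44), (1, B2.g108), (1, B2.g114), (8, B2.g42),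
     (11, B2.g70), (8, B2.g102), (5, B2.g86), (3, B2.g54), (2, B2.g78), (21, B2.g46),
     (4, B2.g81), (2, B2.g49), (19, B2.g113), (5, B2.g73), (3, B2.g41), (1, B2.g105),
     (2, B2.g117), (2, B2.g45), (40, B2.g51), (7, B2.g75), (29, B2.g107), (11, B2.g111),
     (1, B6.g64), (1, B6.g68), (12, B6.g2), (1, B6.g66), (3, B6.g6), (2, B6.g25), (16, B6.g21),
     (2, B6.g3), (9, B6.g35), (11, B6.g63), (17, B5.g127), (5, B3.g48), (15, B3.g104),
     (1, B3.g56), (2, B3.g20), (1, B3.g108), (3, B3.g18), (4, B3.g26), (1, B3.g86), (19, B3.g14),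
     (10, B3.g78), (7, B3.g46), (1, B3.g49), (2, B3.g105), (1, B3.g21), (4, B3.g53), (8, B3.g45),
     (8, B3.g43), (1, B3.g23), (3, B3.g15), (1, B3.g111)]),
   ((14, 23703633412903952), 1154,
    [(52, B4.g72), (7, B4.g104), (4, B4.g88), (33, B4.g68), (154, B4.g84), (5, B4.g76),
     (16, B4.g92), (55, B4.g66), (1, B4.g98), (5, B4.g82), (11, B4.g114), (92, B4.g106),
     (32, B4.g122), (13, B4.g70), (5, B4.g110), (12, B4.g65), (76, B4.g81), (44, B4.g113),
     (7, B4.g73), (1, B4.g89), (3, B4.g69), (56, B4.g101), (3, B4.g85), (12, B4.g117),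
     (2, B4.g125), (8, B4.g75), (11, B4.g107), (63, B4.g91), (2, B4.g123), (28, B4.g103),
     (56, B4.g79), (1, B4.g111), (4, B4.g95), (8, B6.g28), (1, B6.g82), (9, B6.g35), (8, B6.g43),
     (3, B6.g31), (2, B5.g80), (22, B5.g72), (1, B5.g104), (6, B5.g88), (2, B5.g76), (1, B5.g2),
     (6, B5.g98), (87, B5.g70), (8, B5.g102), (2, B5.g110), (1, B5.g94), (22, B5.g1),
     (3, B5.g73), (29, B5.g101), (2, B5.g93), (11, B5.g75), (1, B5.g107), (8, B5.g91),
     (32, B5.g87), (13, B5.g79)]),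
   ((8, 1620534032), 1041,
    [(1, B4.g64), (23, B4.g112), (40, B4.g8), (9, B4.g56), (6, B4.g36), (1, B4.g100),
     (6, B4.g20), (1, B4.g116), (5, B4.g76), (16, B4.g92), (32, B4.g34), (17, B4.g18),
     (11, B4.g114), (26, B4.g74), (50, B4.g90), (1, B4.g58), (13, B4.g70), (8, B4.g54),
     (9, B4.g78), (3, B4.g94), (83, B4.g33), (4, B4.g97), (46, B4.g17), (70, B4.g9), (7, B4.g73),
     (14, B4.g41), (14, B4.g25), (28, B4.g37), (51, B4.g21), (3, B4.g61), (4, B4.g11),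
     (2, B4.g27), (12, B4.g7), (7, B4.g71), (4, B4.g39), (5, B4.g23), (1, B4.g119), (1, B6.g48),
     (2, B6.g40), (22, B6.g12), (1, B6.g34), (2, B6.g14), (3, B6.g78), (8, B6.g30), (5, B6.g1),
     (6, B6.g57), (1, B6.g61), (2, B6.g3), (1, B6.g59), (1, B5.g0), (2, B5.g32), (7, B5.g16),
     (2, B5.g80), (4, B5.g84), (72, B5.g12), (4, B5.g28), (1, B5.g124), (1, B5.g2), (2, B5.g34),
     (1, B5.g82), (67, B5.g10), (8, B5.g26), (3, B5.g54), (2, B5.g14), (88, B5.g78), (1, B5.g97),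
     (2, B5.g49), (37, B5.g9), (8, B5.g121), (4, B5.g51), (4, B5.g119), (19, B5.g47)]),
   ((14, 19495875545289744), 577,
    [(1, B4.g2), (29, B2.g64), (31, B2.g56), (1, B2.g68), (20, B2.g60), (4, B2.g66),
     (43, B2.g74), (25, B2.g122), (11, B2.g70), (36, B2.g126), (4, B2.g81), (5, B2.g73),
     (54, B2.g57), (7, B2.g77), (28, B2.g61), (3, B2.g125), (1, B2.g83), (1, B2.g59),
     (10, B2.g123), (43, B2.g71), (24, B2.g55), (8, B2.g79), (1, B2.g63), (1, B6.g48),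
     (4, B6.g20), (22, B6.g12), (4, B6.g42), (2, B6.g14), (3, B6.g78), (24, B6.g9), (1, B6.g75),
     (15, B6.g71), (1, B3.g0), (6, B3.g80), (2, B3.g72), (2, B3.g120), (5, B3.g4), (22, B3.g68),
     (51, B3.g60), (1, B3.g124), (3, B3.g2), (1, B3.g10), (2, B3.g122), (1, B3.g70), (7, B3.g62),
     (5, B3.g65), (4, B3.g17), (1, B3.g25), (1, B3.g21), (2, B3.g85), (2, B3.g117), (66, B3.g13),
     (5, B3.g77), (11, B3.g67), (1, B3.g83), (39, B3.g115), (6, B3.g75), (8, B3.g59), (1, B3.g7),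
     (2, B3.g119), (3, B3.g15), (24, B3.g63)])]

/-- lights 536 -/
noncomputable def plB_536 : List ((ℕ × ℕ) × ℕ × List (ℕ × ℕ)) :=
  [((0, 0), 536,
    [(2, B4.g0), (29, B2.g64), (8, B2.g96), (15, B2.g40), (2, B2.g120), (1, B2.g68),
     (2, B2.g100), (4, B2.g52), (4, B2.g66), (1, B2.g98), (10, B2.g50), (26, B2.g38),
     (5, B2.g86), (3, B2.g54), (34, B2.g118), (82, B2.g65), (61, B2.g97), (5, B2.g121),
     (3, B2.g69), (2, B2.g101), (84, B2.g85), (58, B2.g53), (48, B2.g67), (33, B2.g99),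
     (40, B2.g51), (19, B2.g39), (4, B2.g87), (2, B2.g119), (1, B6.g34), (3, B6.g18),
     (1, B6.g26), (3, B6.g6), (5, B6.g33), (36, B6.g17), (4, B6.g41), (90, B6.g5), (1, B6.g19),
     (5, B6.g7), (1, B5.g124), (13, B5.g122), (8, B5.g121), (19, B5.g123), (15, B3.g40),
     (1, B3.g12), (1, B3.g76), (7, B3.g114), (1, B3.g10), (15, B3.g74), (4, B3.g42), (2, B3.g58),
     (20, B3.g38), (6, B3.g102), (36, B3.g9), (4, B3.g41), (21, B3.g57), (24, B3.g37),
     (1, B3.g11), (6, B3.g75), (25, B3.g27), (1, B3.g39), (15, B3.g87)]),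
   ((14, 14729291113129283), 1344,
    [(6, B6.g80), (7, B6.g72), (1, B6.g76), (7, B6.g74), (61, B6.g86), (3, B6.g78), (7, B6.g73),
     (46, B6.g77), (1, B6.g75), (15, B6.g71), (3, B6.g79), (27, B5.g64), (71, B5.g48),
     (2, B5.g112), (53, B5.g40), (1, B5.g104), (4, B5.g56), (73, B5.g68), (47, B5.g36),
     (42, B5.g100), (1, B5.g52), (14, B5.g44), (2, B5.g108), (10, B5.g60), (2, B5.g66),
     (14, B5.g50), (12, B5.g114), (6, B5.g42), (6, B5.g106), (41, B5.g58), (43, B5.g38),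
     (8, B5.g102), (3, B5.g54), (2, B5.g46), (2, B5.g110), (3, B5.g62), (1, B5.g65), (2, B5.g49),
     (33, B5.g113), (55, B5.g41), (19, B5.g105), (12, B5.g57), (3, B5.g69), (36, B5.g37),
     (29, B5.g101), (25, B5.g53), (1, B5.g45), (46, B5.g109), (1, B5.g61), (4, B5.g67),
     (4, B5.g51), (1, B5.g115), (24, B5.g43), (1, B5.g107), (6, B5.g59), (10, B5.g39),
     (10, B5.g103), (1, B5.g55), (19, B5.g47), (1, B5.g111), (1, B5.g63)]),
   ((6, 3765297), 1072,
    [(1, B4.g64), (25, B4.g96), (81, B4.g24), (9, B4.g56), (1, B4.g100), (6, B4.g20),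
     (16, B4.g92), (40, B4.g60), (1, B4.g98), (17, B4.g18), (6, B4.g26), (50, B4.g90),
     (1, B4.g58), (44, B4.g22), (8, B4.g54), (3, B4.g94), (3, B4.g62), (4, B4.g97), (46, B4.g17),
     (14, B4.g25), (5, B4.g57), (51, B4.g21), (7, B4.g93), (3, B4.g61), (2, B4.g99),
     (68, B4.g19), (2, B4.g27), (63, B4.g91), (22, B4.g59), (5, B4.g23), (29, B4.g55),
     (4, B4.g95), (11, B4.g63), (31, B4.g127), (2, B6.g40), (8, B6.g24), (23, B6.g4),
     (12, B6.g2), (1, B6.g26), (3, B6.g6), (78, B6.g70), (5, B6.g1), (4, B6.g41), (2, B6.g25),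
     (90, B6.g5), (2, B6.g3), (5, B6.g7), (14, B6.g39), (1, B5.g0), (2, B5.g32), (45, B5.g96),
     (73, B5.g68), (4, B5.g28), (1, B5.g2), (2, B5.g34), (6, B5.g98), (8, B5.g26), (4, B5.g30),
     (22, B5.g1), (8, B5.g33), (1, B5.g97), (3, B5.g69), (5, B5.g29), (4, B5.g3), (1, B5.g35),
     (2, B5.g99), (1, B5.g115), (58, B5.g27), (26, B5.g31)]),
   ((12, 58563578258737), 704,
    [(2, B4.g0), (1, B4.g4), (1, B4.g2), (11, B4.g1), (1, B4.g5), (2, B4.g3), (8, B2.g124),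
     (25, B2.g122), (36, B2.g126), (3, B2.g125), (10, B2.g123), (25, B2.g127), (1, B6.g48),
     (26, B6.g44), (1, B6.g50), (4, B6.g42), (61, B6.g86), (1, B6.g46), (3, B6.g49),
     (109, B6.g45), (8, B6.g43), (15, B6.g47), (1, B3.g0), (23, B3.g16), (1, B3.g8),
     (10, B3.g24), (2, B3.g120), (5, B3.g4), (2, B3.g20), (21, B3.g116), (1, B3.g12),
     (1, B3.g124), (3, B3.g2), (3, B3.g18), (1, B3.g10), (4, B3.g26), (2, B3.g122), (6, B3.g6),
     (3, B3.g22), (9, B3.g118), (19, B3.g14), (3, B3.g126), (19, B3.g1), (4, B3.g17),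
     (36, B3.g9), (1, B3.g25), (11, B3.g121), (9, B3.g5), (1, B3.g21), (2, B3.g117),
     (66, B3.g13), (4, B3.g125), (2, B3.g3), (11, B3.g19), (39, B3.g115), (1, B3.g11),
     (25, B3.g27), (2, B3.g123), (1, B3.g7), (1, B3.g23), (2, B3.g119), (3, B3.g15), (1, B3.g127)]),
   ((4, 38464), 1064,
    [(1, B4.g64), (25, B4.g96), (2, B4.g16), (35, B4.g48), (81, B4.g24), (4, B4.g88),
     (1, B4.g100), (154, B4.g84), (5, B4.g52), (40, B4.g60), (1, B4.g98), (53, B4.g50),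
     (6, B4.g26), (44, B4.g22), (26, B4.g86), (24, B4.g14), (3, B4.g62), (73, B4.g126),
     (4, B4.g97), (3, B4.g49), (14, B4.g25), (1, B4.g89), (51, B4.g21), (3, B4.g85), (1, B4.g53),
     (64, B4.g13), (3, B4.g61), (2, B4.g99), (10, B4.g83), (1, B4.g51), (2, B4.g27), (5, B4.g23),
     (1, B4.g87), (62, B4.g15), (70, B4.g47), (11, B4.g63), (19, B6.g0), (1, B6.g68),
     (1, B6.g50), (1, B6.g26), (3, B6.g6), (4, B6.g38), (4, B6.g41), (90, B6.g5), (2, B6.g69),
     (50, B6.g37), (21, B6.g67), (5, B6.g7), (3, B6.g23), (27, B5.g64), (2, B5.g32),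
     (61, B5.g24), (22, B5.g92), (2, B5.g66), (2, B5.g34), (12, B5.g114), (83, B5.g22),
     (1, B5.g94), (3, B5.g126), (1, B5.g65), (8, B5.g33), (12, B5.g25), (38, B5.g21),
     (2, B5.g93), (4, B5.g3), (4, B5.g67), (1, B5.g35), (10, B5.g23), (26, B5.g31), (5, B5.g95),
     (17, B5.g127)]),
   ((16, 3761987165940503600), 896,
    [(2, B4.g0), (1, B4.g4), (1, B4.g2), (11, B4.g1), (1, B4.g5), (2, B4.g3), (40, B6.g84),
     (1, B6.g82), (61, B6.g86), (1, B6.g81), (2, B6.g85), (2, B6.g83), (1, B3.g96), (5, B3.g112),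
     (15, B3.g104), (12, B3.g88), (2, B3.g120), (3, B3.g100), (21, B3.g116), (1, B3.g108),
     (27, B3.g92), (1, B3.g124), (5, B3.g98), (7, B3.g114), (4, B3.g106), (21, B3.g90),
     (2, B3.g122), (6, B3.g102), (9, B3.g118), (3, B3.g110), (14, B3.g94), (3, B3.g126),
     (12, B3.g97), (12, B3.g113), (2, B3.g105), (14, B3.g89), (11, B3.g121), (1, B3.g101),
     (2, B3.g117), (14, B3.g109), (37, B3.g93), (4, B3.g125), (7, B3.g99), (39, B3.g115),
     (1, B3.g107), (2, B3.g91), (2, B3.g123), (34, B3.g103), (2, B3.g119), (1, B3.g111),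
     (12, B3.g95), (1, B3.g127)]),
   ((6, 6489921), 560,
    [(54, B2.g80), (17, B2.g48), (12, B2.g112), (2, B2.g120), (5, B2.g84), (4, B2.g52),
     (2, B2.g116), (36, B2.g82), (10, B2.g50), (1, B2.g114), (5, B2.g86), (3, B2.g54),
     (34, B2.g118), (21, B2.g46), (4, B2.g81), (2, B2.g49), (19, B2.g113), (5, B2.g121),
     (84, B2.g85), (58, B2.g53), (2, B2.g117), (1, B2.g83), (40, B2.g51), (14, B2.g115),
     (4, B2.g87), (2, B2.g119), (8, B2.g79), (8, B2.g47), (2, B6.g40), (8, B6.g24), (23, B6.g4),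
     (12, B6.g2), (1, B6.g26), (3, B6.g6), (78, B6.g70), (5, B6.g1), (4, B6.g41), (2, B6.g25),
     (90, B6.g5), (2, B6.g3), (5, B6.g7), (14, B6.g39), (10, B3.g24), (1, B3.g56), (17, B3.g84),
     (29, B3.g52), (7, B3.g114), (4, B3.g26), (2, B3.g58), (1, B3.g86), (6, B3.g54),
     (12, B3.g113), (1, B3.g25), (21, B3.g57), (2, B3.g85), (4, B3.g53), (25, B3.g27),
     (15, B3.g87), (1, B3.g55)]),
   ((14, 18951415754487377), 1216,
    [(23, B4.g112), (7, B4.g104), (2, B4.g120), (1, B4.g116), (12, B4.g108), (121, B4.g124),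
     (11, B4.g114), (92, B4.g106), (32, B4.g122), (16, B4.g102), (20, B4.g118), (5, B4.g110),
     (73, B4.g126), (44, B4.g113), (10, B4.g105), (66, B4.g121), (56, B4.g101), (12, B4.g117),
     (1, B4.g109), (2, B4.g125), (39, B4.g115), (11, B4.g107), (2, B4.g123), (28, B4.g103),
     (1, B4.g119), (1, B4.g111), (31, B4.g127), (1, B6.g48), (26, B6.g44), (1, B6.g50),
     (4, B6.g42), (61, B6.g86), (1, B6.g46), (3, B6.g49), (109, B6.g45), (8, B6.g43),
     (15, B6.g47), (1, B5.g0), (2, B5.g112), (1, B5.g104), (42, B5.g100), (2, B5.g108),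
     (1, B5.g2), (12, B5.g114), (6, B5.g106), (8, B5.g102), (2, B5.g110), (22, B5.g1),
     (33, B5.g113), (19, B5.g105), (29, B5.g101), (46, B5.g109), (4, B5.g3), (1, B5.g115),
     (1, B5.g107), (10, B5.g103), (1, B5.g111)]),
   ((6, 7750416), 552,
    [(1, B4.g4), (1, B4.g5), (2, B2.g120), (4, B2.g52), (47, B2.g76), (34, B2.g44), (1, B2.g108),
     (10, B2.g50), (43, B2.g74), (8, B2.g42), (16, B2.g106), (5, B2.g86), (3, B2.g54),
     (34, B2.g118), (2, B2.g78), (6, B2.g110), (5, B2.g121), (84, B2.g85), (58, B2.g53),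
     (7, B2.g77), (2, B2.g45), (153, B2.g109), (40, B2.g51), (7, B2.g75), (14, B2.g43),
     (29, B2.g107), (4, B2.g87), (2, B2.g119), (11, B2.g111), (19, B6.g0), (1, B6.g68),
     (1, B6.g50), (1, B6.g26), (3, B6.g6), (4, B6.g38), (4, B6.g41), (90, B6.g5), (2, B6.g69),
     (50, B6.g37), (21, B6.g67), (5, B6.g7), (3, B6.g23), (3, B5.g126), (17, B5.g127),
     (5, B3.g48), (5, B3.g112), (2, B3.g20), (3, B3.g82), (14, B3.g50), (7, B3.g114),
     (2, B3.g58), (3, B3.g22), (3, B3.g110), (32, B3.g81), (1, B3.g49), (21, B3.g57),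
     (1, B3.g21), (14, B3.g109), (11, B3.g19), (1, B3.g83), (2, B3.g51), (25, B3.g27),
     (1, B3.g23), (15, B3.g87), (3, B3.g47), (1, B3.g111)]),
   ((14, 23703633412903952), 1408,
    [(40, B6.g84), (1, B6.g82), (61, B6.g86), (1, B6.g81), (2, B6.g85), (2, B6.g83),
     (45, B5.g96), (2, B5.g80), (2, B5.g112), (22, B5.g72), (1, B5.g104), (6, B5.g88),
     (42, B5.g100), (4, B5.g84), (2, B5.g76), (2, B5.g108), (22, B5.g92), (6, B5.g98),
     (1, B5.g82), (12, B5.g114), (13, B5.g74), (6, B5.g106), (1, B5.g90), (87, B5.g70),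
     (8, B5.g102), (21, B5.g86), (88, B5.g78), (2, B5.g110), (1, B5.g94), (1, B5.g97),
     (57, B5.g81), (33, B5.g113), (3, B5.g73), (19, B5.g105), (58, B5.g89), (29, B5.g101),
     (1, B5.g85), (41, B5.g77), (46, B5.g109), (2, B5.g93), (2, B5.g99), (94, B5.g83),
     (1, B5.g115), (11, B5.g75), (1, B5.g107), (8, B5.g91), (6, B5.g71), (10, B5.g103),
     (32, B5.g87), (13, B5.g79), (1, B5.g111), (5, B5.g95)]),
   ((8, 1620534032), 1048,
    [(1, B4.g64), (25, B4.g96), (40, B4.g8), (91, B4.g40), (81, B4.g24), (2, B4.g120),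
     (1, B4.g100), (5, B4.g76), (40, B4.g60), (1, B4.g98), (59, B4.g10), (26, B4.g74),
     (5, B4.g42), (6, B4.g26), (42, B4.g38), (44, B4.g22), (20, B4.g118), (9, B4.g78),
     (3, B4.g62), (4, B4.g97), (70, B4.g9), (14, B4.g41), (14, B4.g25), (28, B4.g37),
     (51, B4.g21), (43, B4.g77), (3, B4.g61), (2, B4.g99), (4, B4.g11), (8, B4.g75), (2, B4.g27),
     (4, B4.g39), (5, B4.g23), (1, B4.g119), (11, B4.g63), (1, B6.g34), (3, B6.g18), (1, B6.g26),
     (3, B6.g6), (5, B6.g33), (36, B6.g17), (4, B6.g41), (90, B6.g5), (1, B6.g19), (5, B6.g7),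
     (2, B5.g32), (7, B5.g16), (2, B5.g112), (4, B5.g56), (4, B5.g84), (72, B5.g12),
     (1, B5.g124), (2, B5.g34), (13, B5.g122), (3, B5.g54), (2, B5.g14), (8, B5.g33),
     (8, B5.g121), (1, B5.g85), (25, B5.g53), (15, B5.g13), (4, B5.g3), (1, B5.g35),
     (94, B5.g83), (19, B5.g123), (1, B5.g55), (114, B5.g15), (26, B5.g31)]),
   ((14, 19495875545289744), 832,
    [(2, B4.g0), (1, B4.g4), (1, B4.g2), (11, B4.g1), (1, B4.g5), (2, B4.g3), (6, B6.g80),
     (7, B6.g72), (1, B6.g76), (7, B6.g74), (61, B6.g86), (3, B6.g78), (7, B6.g73), (46, B6.g77),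
     (1, B6.g75), (15, B6.g71), (3, B6.g79), (9, B3.g64), (6, B3.g80), (2, B3.g72), (2, B3.g120),
     (22, B3.g68), (17, B3.g84), (21, B3.g116), (1, B3.g76), (51, B3.g60), (1, B3.g124),
     (14, B3.g66), (3, B3.g82), (15, B3.g74), (2, B3.g122), (1, B3.g70), (1, B3.g86),
     (9, B3.g118), (10, B3.g78), (7, B3.g62), (3, B3.g126), (5, B3.g65), (32, B3.g81),
     (2, B3.g73), (11, B3.g121), (8, B3.g69), (2, B3.g85), (2, B3.g117), (5, B3.g77),
     (5, B3.g61), (4, B3.g125), (11, B3.g67), (1, B3.g83), (39, B3.g115), (6, B3.g75),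
     (8, B3.g59), (2, B3.g123), (19, B3.g71), (15, B3.g87), (2, B3.g119), (18, B3.g79),
     (24, B3.g63), (1, B3.g127)])]

/-- lights 584 -/
noncomputable def plB_584 : List ((ℕ × ℕ) × ℕ × List (ℕ × ℕ)) :=
  [((0, 0), 584,
    [(2, B4.g0), (1, B4.g4), (1, B4.g5), (29, B2.g64), (31, B2.g56), (1, B2.g68), (47, B2.g76),
     (4, B2.g66), (43, B2.g74), (35, B2.g58), (5, B2.g86), (2, B2.g78), (36, B2.g126),
     (82, B2.g65), (54, B2.g57), (3, B2.g69), (84, B2.g85), (7, B2.g77), (48, B2.g67),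
     (7, B2.g75), (1, B2.g59), (4, B2.g87), (25, B2.g127), (1, B6.g76), (3, B6.g18), (1, B6.g50),
     (19, B6.g10), (7, B6.g74), (1, B6.g26), (1, B6.g46), (36, B6.g17), (24, B6.g9),
     (109, B6.g45), (1, B6.g19), (7, B6.g11), (1, B6.g75), (3, B6.g23), (1, B3.g0), (9, B3.g64),
     (2, B3.g20), (1, B3.g12), (1, B3.g76), (1, B3.g124), (3, B3.g2), (14, B3.g66), (3, B3.g82),
     (1, B3.g10), (15, B3.g74), (2, B3.g122), (3, B3.g22), (19, B3.g1), (5, B3.g65),
     (32, B3.g81), (36, B3.g9), (11, B3.g121), (1, B3.g21), (4, B3.g125), (2, B3.g3),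
     (11, B3.g67), (11, B3.g19), (1, B3.g83), (1, B3.g11), (6, B3.g75), (25, B3.g27),
     (2, B3.g123), (1, B3.g23), (15, B3.g87), (24, B3.g63)]),
   ((14, 14729291113129283), 1296,
    [(1, B6.g60), (44, B6.g58), (78, B6.g70), (3, B6.g78), (6, B6.g57), (46, B6.g77),
     (1, B6.g61), (2, B6.g83), (1, B6.g59), (3, B6.g79), (2, B5.g32), (45, B5.g96), (7, B5.g16),
     (2, B5.g80), (71, B5.g48), (2, B5.g112), (4, B5.g56), (73, B5.g68), (4, B5.g84),
     (1, B5.g52), (72, B5.g12), (4, B5.g28), (2, B5.g34), (6, B5.g98), (1, B5.g82), (14, B5.g50),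
     (67, B5.g10), (8, B5.g26), (3, B5.g54), (2, B5.g14), (88, B5.g78), (2, B5.g110),
     (4, B5.g30), (8, B5.g33), (1, B5.g97), (57, B5.g81), (2, B5.g49), (37, B5.g9), (3, B5.g69),
     (1, B5.g85), (25, B5.g53), (15, B5.g13), (46, B5.g109), (5, B5.g29), (1, B5.g35),
     (2, B5.g99), (94, B5.g83), (4, B5.g51), (1, B5.g115), (23, B5.g11), (58, B5.g27),
     (1, B5.g55), (114, B5.g15), (13, B5.g79), (19, B5.g47), (1, B5.g111), (26, B5.g31)]),
   ((6, 3765297), 1120,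
    [(1, B4.g64), (35, B4.g48), (9, B4.g56), (5, B4.g52), (31, B4.g44), (40, B4.g60),
     (121, B4.g124), (53, B4.g50), (1, B4.g58), (32, B4.g122), (8, B4.g54), (9, B4.g46),
     (3, B4.g62), (73, B4.g126), (3, B4.g49), (5, B4.g57), (66, B4.g121), (1, B4.g53),
     (45, B4.g45), (3, B4.g61), (2, B4.g125), (1, B4.g51), (32, B4.g43), (22, B4.g59),
     (2, B4.g123), (29, B4.g55), (70, B4.g47), (11, B4.g63), (31, B4.g127), (6, B6.g80),
     (8, B6.g24), (4, B6.g20), (1, B6.g50), (1, B6.g26), (4, B6.g22), (3, B6.g49), (2, B6.g25),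
     (16, B6.g21), (3, B6.g23), (1, B5.g0), (27, B5.g64), (73, B5.g68), (10, B5.g60), (1, B5.g2),
     (2, B5.g66), (12, B5.g114), (41, B5.g58), (3, B5.g62), (22, B5.g1), (1, B5.g65),
     (33, B5.g113), (12, B5.g57), (3, B5.g69), (1, B5.g61), (4, B5.g3), (4, B5.g67),
     (1, B5.g115), (6, B5.g59), (1, B5.g63)]),
   ((12, 58563578258737), 656,
    [(2, B4.g0), (8, B2.g96), (12, B2.g112), (2, B2.g120), (2, B2.g100), (2, B2.g116),
     (1, B2.g98), (1, B2.g114), (34, B2.g118), (10, B2.g94), (61, B2.g97), (19, B2.g113),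
     (5, B2.g121), (2, B2.g101), (2, B2.g117), (7, B2.g93), (33, B2.g99), (14, B2.g115),
     (2, B2.g119), (10, B2.g95), (1, B6.g32), (1, B6.g48), (2, B6.g40), (1, B6.g34), (8, B6.g30),
     (5, B6.g33), (4, B6.g41), (2, B6.g83), (14, B6.g39), (15, B6.g47), (3, B6.g31), (1, B3.g8),
     (10, B3.g24), (5, B3.g4), (3, B3.g100), (1, B3.g12), (5, B3.g98), (7, B3.g114), (1, B3.g10),
     (4, B3.g26), (6, B3.g6), (6, B3.g102), (3, B3.g126), (12, B3.g97), (12, B3.g113),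
     (36, B3.g9), (1, B3.g25), (9, B3.g5), (1, B3.g101), (7, B3.g99), (1, B3.g11), (25, B3.g27),
     (1, B3.g7), (1, B3.g127)]),
   ((4, 38464), 1160,
    [(25, B4.g96), (4, B4.g88), (2, B4.g120), (33, B4.g68), (1, B4.g100), (154, B4.g84),
     (5, B4.g76), (12, B4.g108), (55, B4.g66), (1, B4.g98), (26, B4.g74), (92, B4.g106),
     (26, B4.g86), (20, B4.g118), (9, B4.g78), (5, B4.g110), (73, B4.g126), (4, B4.g97),
     (10, B4.g105), (1, B4.g89), (3, B4.g69), (3, B4.g85), (43, B4.g77), (1, B4.g109),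
     (49, B4.g67), (2, B4.g99), (10, B4.g83), (8, B4.g75), (11, B4.g107), (1, B4.g87),
     (1, B4.g119), (1, B4.g111), (8, B6.g28), (1, B6.g34), (1, B6.g50), (4, B6.g38), (1, B6.g46),
     (5, B6.g33), (4, B6.g41), (50, B6.g37), (109, B6.g45), (4, B6.g29), (2, B6.g27),
     (2, B5.g112), (4, B5.g84), (2, B5.g76), (2, B5.g108), (22, B5.g92), (12, B5.g114),
     (13, B5.g74), (6, B5.g106), (1, B5.g94), (19, B5.g105), (1, B5.g85), (41, B5.g77),
     (2, B5.g93), (4, B5.g3), (94, B5.g83), (11, B5.g75), (1, B5.g107), (5, B5.g95)]),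
   ((16, 3761987165940503600), 800,
    [(1, B4.g4), (1, B4.g2), (11, B4.g1), (1, B4.g5), (2, B4.g3), (1, B6.g64), (6, B6.g80),
     (1, B6.g68), (40, B6.g84), (1, B6.g66), (78, B6.g70), (30, B6.g62), (5, B6.g65),
     (2, B6.g69), (2, B6.g85), (21, B6.g67), (11, B6.g63), (6, B3.g80), (5, B3.g48),
     (5, B3.g112), (15, B3.g104), (1, B3.g56), (17, B3.g84), (29, B3.g52), (20, B3.g44),
     (1, B3.g108), (3, B3.g82), (14, B3.g50), (7, B3.g114), (4, B3.g106), (2, B3.g58),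
     (1, B3.g86), (6, B3.g54), (10, B3.g78), (7, B3.g46), (3, B3.g110), (32, B3.g81),
     (1, B3.g49), (12, B3.g113), (2, B3.g105), (21, B3.g57), (2, B3.g85), (4, B3.g53),
     (5, B3.g77), (8, B3.g45), (14, B3.g109), (1, B3.g83), (2, B3.g51), (8, B3.g43),
     (1, B3.g107), (34, B3.g103), (15, B3.g87), (1, B3.g55), (18, B3.g79), (3, B3.g47),
     (1, B3.g111)]),
   ((6, 6489921), 656,
    [(2, B4.g0), (8, B2.g96), (12, B2.g112), (2, B2.g120), (2, B2.g100), (2, B2.g116),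
     (1, B2.g98), (1, B2.g114), (34, B2.g118), (10, B2.g94), (61, B2.g97), (19, B2.g113),
     (5, B2.g121), (2, B2.g101), (2, B2.g117), (7, B2.g93), (33, B2.g99), (14, B2.g115),
     (2, B2.g119), (10, B2.g95), (1, B6.g32), (1, B6.g48), (2, B6.g40), (1, B6.g34), (8, B6.g30),
     (5, B6.g33), (4, B6.g41), (2, B6.g83), (14, B6.g39), (15, B6.g47), (3, B6.g31), (1, B3.g8),
     (10, B3.g24), (5, B3.g4), (3, B3.g100), (1, B3.g12), (5, B3.g98), (7, B3.g114), (1, B3.g10),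
     (4, B3.g26), (6, B3.g6), (6, B3.g102), (3, B3.g126), (12, B3.g97), (12, B3.g113),
     (36, B3.g9), (1, B3.g25), (9, B3.g5), (1, B3.g101), (7, B3.g99), (1, B3.g11), (25, B3.g27),
     (1, B3.g7), (1, B3.g127)]),
   ((14, 18951415754487377), 1120,
    [(1, B4.g64), (35, B4.g48), (9, B4.g56), (5, B4.g52), (31, B4.g44), (40, B4.g60),
     (121, B4.g124), (53, B4.g50), (1, B4.g58), (32, B4.g122), (8, B4.g54), (9, B4.g46),
     (3, B4.g62), (73, B4.g126), (3, B4.g49), (5, B4.g57), (66, B4.g121), (1, B4.g53),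
     (45, B4.g45), (3, B4.g61), (2, B4.g125), (1, B4.g51), (32, B4.g43), (22, B4.g59),
     (2, B4.g123), (29, B4.g55), (70, B4.g47), (11, B4.g63), (31, B4.g127), (6, B6.g80),
     (8, B6.g24), (4, B6.g20), (1, B6.g50), (1, B6.g26), (4, B6.g22), (3, B6.g49), (2, B6.g25),
     (16, B6.g21), (3, B6.g23), (1, B5.g0), (27, B5.g64), (73, B5.g68), (10, B5.g60), (1, B5.g2),
     (2, B5.g66), (12, B5.g114), (41, B5.g58), (3, B5.g62), (22, B5.g1), (1, B5.g65),
     (33, B5.g113), (12, B5.g57), (3, B5.g69), (1, B5.g61), (4, B5.g3), (4, B5.g67),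
     (1, B5.g115), (6, B5.g59), (1, B5.g63)]),
   ((6, 7750416), 800,
    [(1, B4.g4), (1, B4.g2), (11, B4.g1), (1, B4.g5), (2, B4.g3), (1, B6.g64), (6, B6.g80),
     (1, B6.g68), (40, B6.g84), (1, B6.g66), (78, B6.g70), (30, B6.g62), (5, B6.g65),
     (2, B6.g69), (2, B6.g85), (21, B6.g67), (11, B6.g63), (6, B3.g80), (5, B3.g48),
     (5, B3.g112), (15, B3.g104), (1, B3.g56), (17, B3.g84), (29, B3.g52), (20, B3.g44),
     (1, B3.g108), (3, B3.g82), (14, B3.g50), (7, B3.g114), (4, B3.g106), (2, B3.g58),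
     (1, B3.g86), (6, B3.g54), (10, B3.g78), (7, B3.g46), (3, B3.g110), (32, B3.g81),
     (1, B3.g49), (12, B3.g113), (2, B3.g105), (21, B3.g57), (2, B3.g85), (4, B3.g53),
     (5, B3.g77), (8, B3.g45), (14, B3.g109), (1, B3.g83), (2, B3.g51), (8, B3.g43),
     (1, B3.g107), (34, B3.g103), (15, B3.g87), (1, B3.g55), (18, B3.g79), (3, B3.g47),
     (1, B3.g111)]),
   ((14, 23703633412903952), 1160,
    [(25, B4.g96), (4, B4.g88), (2, B4.g120), (33, B4.g68), (1, B4.g100), (154, B4.g84),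
     (5, B4.g76), (12, B4.g108), (55, B4.g66), (1, B4.g98), (26, B4.g74), (92, B4.g106),
     (26, B4.g86), (20, B4.g118), (9, B4.g78), (5, B4.g110), (73, B4.g126), (4, B4.g97),
     (10, B4.g105), (1, B4.g89), (3, B4.g69), (3, B4.g85), (43, B4.g77), (1, B4.g109),
     (49, B4.g67), (2, B4.g99), (10, B4.g83), (8, B4.g75), (11, B4.g107), (1, B4.g87),
     (1, B4.g119), (1, B4.g111), (8, B6.g28), (1, B6.g34), (1, B6.g50), (4, B6.g38), (1, B6.g46),
     (5, B6.g33), (4, B6.g41), (50, B6.g37), (109, B6.g45), (4, B6.g29), (2, B6.g27),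
     (2, B5.g112), (4, B5.g84), (2, B5.g76), (2, B5.g108), (22, B5.g92), (12, B5.g114),
     (13, B5.g74), (6, B5.g106), (1, B5.g94), (19, B5.g105), (1, B5.g85), (41, B5.g77),
     (2, B5.g93), (4, B5.g3), (94, B5.g83), (11, B5.g75), (1, B5.g107), (5, B5.g95)]),
   ((8, 1620534032), 1296,
    [(1, B6.g60), (44, B6.g58), (78, B6.g70), (3, B6.g78), (6, B6.g57), (46, B6.g77),
     (1, B6.g61), (2, B6.g83), (1, B6.g59), (3, B6.g79), (2, B5.g32), (45, B5.g96), (7, B5.g16),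
     (2, B5.g80), (71, B5.g48), (2, B5.g112), (4, B5.g56), (73, B5.g68), (4, B5.g84),
     (1, B5.g52), (72, B5.g12), (4, B5.g28), (2, B5.g34), (6, B5.g98), (1, B5.g82), (14, B5.g50),
     (67, B5.g10), (8, B5.g26), (3, B5.g54), (2, B5.g14), (88, B5.g78), (2, B5.g110),
     (4, B5.g30), (8, B5.g33), (1, B5.g97), (57, B5.g81), (2, B5.g49), (37, B5.g9), (3, B5.g69),
     (1, B5.g85), (25, B5.g53), (15, B5.g13), (46, B5.g109), (5, B5.g29), (1, B5.g35),
     (2, B5.g99), (94, B5.g83), (4, B5.g51), (1, B5.g115), (23, B5.g11), (58, B5.g27),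
     (1, B5.g55), (114, B5.g15), (13, B5.g79), (19, B5.g47), (1, B5.g111), (26, B5.g31)]),
   ((14, 19495875545289744), 584,
    [(2, B4.g0), (1, B4.g4), (1, B4.g5), (29, B2.g64), (31, B2.g56), (1, B2.g68), (47, B2.g76),
     (4, B2.g66), (43, B2.g74), (35, B2.g58), (5, B2.g86), (2, B2.g78), (36, B2.g126),
     (82, B2.g65), (54, B2.g57), (3, B2.g69), (84, B2.g85), (7, B2.g77), (48, B2.g67),
     (7, B2.g75), (1, B2.g59), (4, B2.g87), (25, B2.g127), (1, B6.g76), (3, B6.g18), (1, B6.g50),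
     (19, B6.g10), (7, B6.g74), (1, B6.g26), (1, B6.g46), (36, B6.g17), (24, B6.g9),
     (109, B6.g45), (1, B6.g19), (7, B6.g11), (1, B6.g75), (3, B6.g23), (1, B3.g0), (9, B3.g64),
     (2, B3.g20), (1, B3.g12), (1, B3.g76), (1, B3.g124), (3, B3.g2), (14, B3.g66), (3, B3.g82),
     (1, B3.g10), (15, B3.g74), (2, B3.g122), (3, B3.g22), (19, B3.g1), (5, B3.g65),
     (32, B3.g81), (36, B3.g9), (11, B3.g121), (1, B3.g21), (4, B3.g125), (2, B3.g3),
     (11, B3.g67), (11, B3.g19), (1, B3.g83), (1, B3.g11), (6, B3.g75), (25, B3.g27),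
     (2, B3.g123), (1, B3.g23), (15, B3.g87), (24, B3.g63)])]

/-- lights 592 -/
noncomputable def plB_592 : List ((ℕ × ℕ) × ℕ × List (ℕ × ℕ)) :=
  [((0, 0), 592,
    [(2, B4.g0), (29, B2.g64), (54, B2.g80), (1, B2.g68), (5, B2.g84), (20, B2.g60), (4, B2.g66),
     (36, B2.g82), (5, B2.g86), (34, B2.g62), (82, B2.g65), (4, B2.g81), (3, B2.g69),
     (84, B2.g85), (28, B2.g61), (48, B2.g67), (1, B2.g83), (4, B2.g87), (8, B2.g79),
     (1, B2.g63), (4, B6.g16), (1, B6.g48), (8, B6.g24), (22, B6.g12), (3, B6.g18), (1, B6.g26),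
     (2, B6.g14), (3, B6.g78), (36, B6.g17), (2, B6.g25), (26, B6.g13), (46, B6.g77),
     (1, B6.g19), (24, B6.g15), (3, B6.g79), (15, B6.g47), (1, B3.g8), (2, B3.g72), (10, B3.g24),
     (5, B3.g4), (22, B3.g68), (17, B3.g84), (1, B3.g12), (1, B3.g76), (1, B3.g10), (15, B3.g74),
     (4, B3.g26), (6, B3.g6), (1, B3.g70), (1, B3.g86), (3, B3.g126), (36, B3.g9), (2, B3.g73),
     (1, B3.g25), (9, B3.g5), (8, B3.g69), (2, B3.g85), (1, B3.g11), (6, B3.g75), (25, B3.g27),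
     (1, B3.g7), (19, B3.g71), (15, B3.g87), (1, B3.g127)]),
   ((14, 14729291113129283), 1104,
    [(1, B4.g64), (23, B4.g112), (91, B4.g40), (9, B4.g56), (2, B4.g120), (6, B4.g36),
     (1, B4.g116), (40, B4.g60), (32, B4.g34), (11, B4.g114), (5, B4.g42), (1, B4.g58),
     (42, B4.g38), (8, B4.g54), (20, B4.g118), (3, B4.g62), (83, B4.g33), (44, B4.g113),
     (14, B4.g41), (5, B4.g57), (28, B4.g37), (12, B4.g117), (3, B4.g61), (80, B4.g35),
     (39, B4.g115), (22, B4.g59), (4, B4.g39), (29, B4.g55), (1, B4.g119), (11, B4.g63),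
     (31, B4.g127), (4, B6.g16), (1, B6.g48), (8, B6.g24), (22, B6.g12), (3, B6.g18),
     (1, B6.g26), (2, B6.g14), (3, B6.g78), (36, B6.g17), (2, B6.g25), (26, B6.g13),
     (46, B6.g77), (1, B6.g19), (24, B6.g15), (3, B6.g79), (15, B6.g47), (1, B5.g0),
     (71, B5.g48), (2, B5.g112), (4, B5.g56), (73, B5.g68), (1, B5.g52), (1, B5.g2),
     (14, B5.g50), (3, B5.g54), (2, B5.g110), (22, B5.g1), (2, B5.g49), (3, B5.g69),
     (25, B5.g53), (46, B5.g109), (4, B5.g3), (4, B5.g51), (1, B5.g115), (1, B5.g55),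
     (19, B5.g47), (1, B5.g111)]),
   ((6, 3765297), 1104,
    [(1, B4.g64), (23, B4.g112), (91, B4.g40), (9, B4.g56), (2, B4.g120), (6, B4.g36),
     (1, B4.g116), (40, B4.g60), (32, B4.g34), (11, B4.g114), (5, B4.g42), (1, B4.g58),
     (42, B4.g38), (8, B4.g54), (20, B4.g118), (3, B4.g62), (83, B4.g33), (44, B4.g113),
     (14, B4.g41), (5, B4.g57), (28, B4.g37), (12, B4.g117), (3, B4.g61), (80, B4.g35),
     (39, B4.g115), (22, B4.g59), (4, B4.g39), (29, B4.g55), (1, B4.g119), (11, B4.g63),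
     (31, B4.g127), (4, B6.g16), (1, B6.g48), (8, B6.g24), (22, B6.g12), (3, B6.g18),
     (1, B6.g26), (2, B6.g14), (3, B6.g78), (36, B6.g17), (2, B6.g25), (26, B6.g13),
     (46, B6.g77), (1, B6.g19), (24, B6.g15), (3, B6.g79), (15, B6.g47), (1, B5.g0),
     (71, B5.g48), (2, B5.g112), (4, B5.g56), (73, B5.g68), (1, B5.g52), (1, B5.g2),
     (14, B5.g50), (3, B5.g54), (2, B5.g110), (22, B5.g1), (2, B5.g49), (3, B5.g69),
     (25, B5.g53), (46, B5.g109), (4, B5.g3), (4, B5.g51), (1, B5.g115), (1, B5.g55),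
     (19, B5.g47), (1, B5.g111)]),
   ((12, 58563578258737), 592,
    [(2, B4.g0), (29, B2.g64), (54, B2.g80), (1, B2.g68), (5, B2.g84), (20, B2.g60), (4, B2.g66),
     (36, B2.g82), (5, B2.g86), (34, B2.g62), (82, B2.g65), (4, B2.g81), (3, B2.g69),
     (84, B2.g85), (28, B2.g61), (48, B2.g67), (1, B2.g83), (4, B2.g87), (8, B2.g79),
     (1, B2.g63), (4, B6.g16), (1, B6.g48), (8, B6.g24), (22, B6.g12), (3, B6.g18), (1, B6.g26),
     (2, B6.g14), (3, B6.g78), (36, B6.g17), (2, B6.g25), (26, B6.g13), (46, B6.g77),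
     (1, B6.g19), (24, B6.g15), (3, B6.g79), (15, B6.g47), (1, B3.g8), (2, B3.g72), (10, B3.g24),
     (5, B3.g4), (22, B3.g68), (17, B3.g84), (1, B3.g12), (1, B3.g76), (1, B3.g10), (15, B3.g74),
     (4, B3.g26), (6, B3.g6), (1, B3.g70), (1, B3.g86), (3, B3.g126), (36, B3.g9), (2, B3.g73),
     (1, B3.g25), (9, B3.g5), (8, B3.g69), (2, B3.g85), (1, B3.g11), (6, B3.g75), (25, B3.g27),
     (1, B3.g7), (19, B3.g71), (15, B3.g87), (1, B3.g127)]),
   ((4, 38464), 1184,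
    [(25, B4.g96), (14, B4.g80), (4, B4.g88), (1, B4.g100), (154, B4.g84), (16, B4.g92),
     (121, B4.g124), (1, B4.g98), (5, B4.g82), (50, B4.g90), (32, B4.g122), (26, B4.g86),
     (3, B4.g94), (73, B4.g126), (4, B4.g97), (76, B4.g81), (1, B4.g89), (66, B4.g121),
     (3, B4.g85), (7, B4.g93), (2, B4.g125), (2, B4.g99), (10, B4.g83), (63, B4.g91),
     (2, B4.g123), (1, B4.g87), (56, B4.g79), (4, B4.g95), (31, B4.g127), (2, B6.g40),
     (3, B6.g36), (40, B6.g84), (1, B6.g50), (4, B6.g38), (3, B6.g49), (4, B6.g41), (50, B6.g37),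
     (2, B6.g85), (9, B6.g35), (14, B6.g39), (1, B5.g0), (45, B5.g96), (6, B5.g88), (22, B5.g92),
     (1, B5.g2), (6, B5.g98), (12, B5.g114), (1, B5.g90), (21, B5.g86), (1, B5.g94), (22, B5.g1),
     (1, B5.g97), (33, B5.g113), (58, B5.g89), (2, B5.g93), (4, B5.g3), (2, B5.g99),
     (1, B5.g115), (8, B5.g91), (32, B5.g87), (5, B5.g95)]),
   ((16, 3761987165940503600), 672,
    [(1, B4.g4), (1, B4.g2), (11, B4.g1), (1, B4.g5), (2, B4.g3), (12, B2.g112), (27, B2.g104),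
     (2, B2.g120), (2, B2.g116), (1, B2.g108), (1, B2.g114), (16, B2.g106), (8, B2.g102),
     (34, B2.g118), (6, B2.g110), (19, B2.g113), (1, B2.g105), (5, B2.g121), (2, B2.g117),
     (153, B2.g109), (14, B2.g115), (29, B2.g107), (14, B2.g103), (2, B2.g119), (11, B2.g111),
     (2, B6.g40), (3, B6.g36), (40, B6.g84), (1, B6.g50), (4, B6.g38), (3, B6.g49), (4, B6.g41),
     (50, B6.g37), (2, B6.g85), (9, B6.g35), (14, B6.g39), (23, B3.g16), (5, B3.g112),
     (15, B3.g104), (10, B3.g24), (2, B3.g20), (1, B3.g108), (3, B3.g18), (7, B3.g114),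
     (4, B3.g106), (4, B3.g26), (3, B3.g22), (19, B3.g14), (3, B3.g110), (4, B3.g17),
     (12, B3.g113), (2, B3.g105), (1, B3.g25), (1, B3.g21), (66, B3.g13), (14, B3.g109),
     (11, B3.g19), (1, B3.g107), (25, B3.g27), (34, B3.g103), (1, B3.g23), (3, B3.g15),
     (1, B3.g111)]),
   ((6, 6489921), 672,
    [(1, B4.g4), (1, B4.g2), (11, B4.g1), (1, B4.g5), (2, B4.g3), (12, B2.g112), (27, B2.g104),
     (2, B2.g120), (2, B2.g116), (1, B2.g108), (1, B2.g114), (16, B2.g106), (8, B2.g102),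
     (34, B2.g118), (6, B2.g110), (19, B2.g113), (1, B2.g105), (5, B2.g121), (2, B2.g117),
     (153, B2.g109), (14, B2.g115), (29, B2.g107), (14, B2.g103), (2, B2.g119), (11, B2.g111),
     (2, B6.g40), (3, B6.g36), (40, B6.g84), (1, B6.g50), (4, B6.g38), (3, B6.g49), (4, B6.g41),
     (50, B6.g37), (2, B6.g85), (9, B6.g35), (14, B6.g39), (23, B3.g16), (5, B3.g112),
     (15, B3.g104), (10, B3.g24), (2, B3.g20), (1, B3.g108), (3, B3.g18), (7, B3.g114),
     (4, B3.g106), (4, B3.g26), (3, B3.g22), (19, B3.g14), (3, B3.g110), (4, B3.g17),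
     (12, B3.g113), (2, B3.g105), (1, B3.g25), (1, B3.g21), (66, B3.g13), (14, B3.g109),
     (11, B3.g19), (1, B3.g107), (25, B3.g27), (34, B3.g103), (1, B3.g23), (3, B3.g15),
     (1, B3.g111)]),
   ((14, 18951415754487377), 1184,
    [(25, B4.g96), (14, B4.g80), (4, B4.g88), (1, B4.g100), (154, B4.g84), (16, B4.g92),
     (121, B4.g124), (1, B4.g98), (5, B4.g82), (50, B4.g90), (32, B4.g122), (26, B4.g86),
     (3, B4.g94), (73, B4.g126), (4, B4.g97), (76, B4.g81), (1, B4.g89), (66, B4.g121),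
     (3, B4.g85), (7, B4.g93), (2, B4.g125), (2, B4.g99), (10, B4.g83), (63, B4.g91),
     (2, B4.g123), (1, B4.g87), (56, B4.g79), (4, B4.g95), (31, B4.g127), (2, B6.g40),
     (3, B6.g36), (40, B6.g84), (1, B6.g50), (4, B6.g38), (3, B6.g49), (4, B6.g41), (50, B6.g37),
     (2, B6.g85), (9, B6.g35), (14, B6.g39), (1, B5.g0), (45, B5.g96), (6, B5.g88), (22, B5.g92),
     (1, B5.g2), (6, B5.g98), (12, B5.g114), (1, B5.g90), (21, B5.g86), (1, B5.g94), (22, B5.g1),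
     (1, B5.g97), (33, B5.g113), (58, B5.g89), (2, B5.g93), (4, B5.g3), (2, B5.g99),
     (1, B5.g115), (8, B5.g91), (32, B5.g87), (5, B5.g95)]),
   ((6, 7750416), 776,
    [(2, B4.g0), (1, B4.g4), (1, B4.g5), (10, B6.g56), (1, B6.g68), (1, B6.g76), (7, B6.g74),
     (4, B6.g54), (2, B6.g69), (5, B6.g53), (21, B6.g67), (1, B6.g75), (1, B6.g55), (9, B3.g64),
     (5, B3.g32), (1, B3.g96), (5, B3.g48), (5, B3.g112), (15, B3.g40), (1, B3.g76),
     (27, B3.g92), (1, B3.g124), (14, B3.g66), (3, B3.g82), (14, B3.g50), (7, B3.g114),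
     (15, B3.g74), (4, B3.g42), (2, B3.g58), (2, B3.g122), (20, B3.g38), (6, B3.g102),
     (3, B3.g110), (24, B3.g30), (14, B3.g94), (5, B3.g65), (32, B3.g81), (1, B3.g49),
     (4, B3.g41), (21, B3.g57), (11, B3.g121), (24, B3.g37), (14, B3.g109), (25, B3.g29),
     (37, B3.g93), (4, B3.g125), (11, B3.g67), (1, B3.g83), (2, B3.g51), (6, B3.g75),
     (2, B3.g123), (1, B3.g39), (15, B3.g87), (3, B3.g47), (1, B3.g111), (23, B3.g31),
     (12, B3.g95), (24, B3.g63)]),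
   ((14, 23703633412903952), 1288,
    [(10, B6.g56), (1, B6.g68), (1, B6.g76), (7, B6.g74), (4, B6.g54), (2, B6.g69), (5, B6.g53),
     (21, B6.g67), (1, B6.g75), (1, B6.g55), (27, B5.g64), (2, B5.g32), (7, B5.g16),
     (2, B5.g112), (6, B5.g8), (53, B5.g40), (61, B5.g24), (4, B5.g56), (4, B5.g84),
     (72, B5.g12), (2, B5.g76), (14, B5.g44), (2, B5.g108), (22, B5.g92), (2, B5.g66),
     (2, B5.g34), (12, B5.g114), (13, B5.g74), (6, B5.g42), (6, B5.g106), (19, B5.g6),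
     (83, B5.g22), (3, B5.g54), (2, B5.g14), (2, B5.g46), (1, B5.g94), (1, B5.g65), (8, B5.g33),
     (55, B5.g41), (19, B5.g105), (12, B5.g25), (56, B5.g5), (38, B5.g21), (1, B5.g85),
     (25, B5.g53), (15, B5.g13), (41, B5.g77), (1, B5.g45), (2, B5.g93), (4, B5.g67),
     (1, B5.g35), (94, B5.g83), (11, B5.g75), (24, B5.g43), (1, B5.g107), (30, B5.g7),
     (10, B5.g23), (1, B5.g55), (114, B5.g15), (26, B5.g31), (5, B5.g95)]),
   ((8, 1620534032), 1288,
    [(10, B6.g56), (1, B6.g68), (1, B6.g76), (7, B6.g74), (4, B6.g54), (2, B6.g69), (5, B6.g53),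
     (21, B6.g67), (1, B6.g75), (1, B6.g55), (27, B5.g64), (2, B5.g32), (7, B5.g16),
     (2, B5.g112), (6, B5.g8), (53, B5.g40), (61, B5.g24), (4, B5.g56), (4, B5.g84),
     (72, B5.g12), (2, B5.g76), (14, B5.g44), (2, B5.g108), (22, B5.g92), (2, B5.g66),
     (2, B5.g34), (12, B5.g114), (13, B5.g74), (6, B5.g42), (6, B5.g106), (19, B5.g6),
     (83, B5.g22), (3, B5.g54), (2, B5.g14), (2, B5.g46), (1, B5.g94), (1, B5.g65), (8, B5.g33),
     (55, B5.g41), (19, B5.g105), (12, B5.g25), (56, B5.g5), (38, B5.g21), (1, B5.g85),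
     (25, B5.g53), (15, B5.g13), (41, B5.g77), (1, B5.g45), (2, B5.g93), (4, B5.g67),
     (1, B5.g35), (94, B5.g83), (11, B5.g75), (24, B5.g43), (1, B5.g107), (30, B5.g7),
     (10, B5.g23), (1, B5.g55), (114, B5.g15), (26, B5.g31), (5, B5.g95)]),
   ((14, 19495875545289744), 776,
    [(2, B4.g0), (1, B4.g4), (1, B4.g5), (10, B6.g56), (1, B6.g68), (1, B6.g76), (7, B6.g74),
     (4, B6.g54), (2, B6.g69), (5, B6.g53), (21, B6.g67), (1, B6.g75), (1, B6.g55), (9, B3.g64),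
     (5, B3.g32), (1, B3.g96), (5, B3.g48), (5, B3.g112), (15, B3.g40), (1, B3.g76),
     (27, B3.g92), (1, B3.g124), (14, B3.g66), (3, B3.g82), (14, B3.g50), (7, B3.g114),
     (15, B3.g74), (4, B3.g42), (2, B3.g58), (2, B3.g122), (20, B3.g38), (6, B3.g102),
     (3, B3.g110), (24, B3.g30), (14, B3.g94), (5, B3.g65), (32, B3.g81), (1, B3.g49),
     (4, B3.g41), (21, B3.g57), (11, B3.g121), (24, B3.g37), (14, B3.g109), (25, B3.g29),
     (37, B3.g93), (4, B3.g125), (11, B3.g67), (1, B3.g83), (2, B3.g51), (6, B3.g75),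
     (2, B3.g123), (1, B3.g39), (15, B3.g87), (3, B3.g47), (1, B3.g111), (23, B3.g31),
     (12, B3.g95), (24, B3.g63)])]

/-- lights 608 -/
noncomputable def plB_608 : List ((ℕ × ℕ) × ℕ × List (ℕ × ℕ)) :=
  [((0, 0), 608,
    [(1, B4.g4), (1, B4.g2), (11, B4.g1), (1, B4.g5), (2, B4.g3), (54, B2.g80), (31, B2.g72),
     (5, B2.g84), (47, B2.g76), (36, B2.g82), (43, B2.g74), (11, B2.g70), (5, B2.g86),
     (2, B2.g78), (4, B2.g81), (5, B2.g73), (84, B2.g85), (7, B2.g77), (1, B2.g83), (7, B2.g75),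
     (43, B2.g71), (4, B2.g87), (8, B2.g79), (6, B6.g80), (8, B6.g24), (4, B6.g20), (1, B6.g50),
     (1, B6.g26), (4, B6.g22), (3, B6.g49), (2, B6.g25), (16, B6.g21), (3, B6.g23), (23, B3.g16),
     (6, B3.g80), (10, B3.g24), (2, B3.g20), (17, B3.g84), (3, B3.g18), (3, B3.g82), (4, B3.g26),
     (3, B3.g22), (1, B3.g86), (19, B3.g14), (10, B3.g78), (4, B3.g17), (32, B3.g81),
     (1, B3.g25), (1, B3.g21), (2, B3.g85), (66, B3.g13), (5, B3.g77), (11, B3.g19), (1, B3.g83),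
     (25, B3.g27), (1, B3.g23), (15, B3.g87), (3, B3.g15), (18, B3.g79)]),
   ((14, 14729291113129283), 1168,
    [(25, B4.g96), (23, B4.g112), (52, B4.g72), (2, B4.g120), (1, B4.g100), (1, B4.g116),
     (5, B4.g76), (16, B4.g92), (1, B4.g98), (11, B4.g114), (26, B4.g74), (50, B4.g90),
     (13, B4.g70), (20, B4.g118), (9, B4.g78), (3, B4.g94), (4, B4.g97), (44, B4.g113),
     (7, B4.g73), (12, B4.g117), (43, B4.g77), (7, B4.g93), (2, B4.g99), (39, B4.g115),
     (8, B4.g75), (63, B4.g91), (7, B4.g71), (1, B4.g119), (4, B4.g95), (31, B4.g127),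
     (1, B6.g32), (1, B6.g48), (2, B6.g40), (1, B6.g34), (8, B6.g30), (5, B6.g33), (4, B6.g41),
     (2, B6.g83), (14, B6.g39), (15, B6.g47), (3, B6.g31), (1, B5.g0), (45, B5.g96), (2, B5.g80),
     (2, B5.g112), (4, B5.g84), (1, B5.g2), (6, B5.g98), (1, B5.g82), (88, B5.g78), (2, B5.g110),
     (22, B5.g1), (1, B5.g97), (57, B5.g81), (1, B5.g85), (46, B5.g109), (4, B5.g3), (2, B5.g99),
     (94, B5.g83), (1, B5.g115), (13, B5.g79), (1, B5.g111)]),
   ((6, 3765297), 1096,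
    [(1, B4.g64), (12, B4.g32), (35, B4.g48), (91, B4.g40), (2, B4.g120), (5, B4.g52),
     (12, B4.g108), (40, B4.g60), (53, B4.g50), (5, B4.g42), (92, B4.g106), (42, B4.g38),
     (20, B4.g118), (5, B4.g110), (46, B4.g30), (3, B4.g62), (73, B4.g126), (3, B4.g49),
     (14, B4.g41), (10, B4.g105), (28, B4.g37), (1, B4.g53), (1, B4.g109), (26, B4.g29),
     (3, B4.g61), (1, B4.g51), (11, B4.g107), (4, B4.g39), (1, B4.g119), (70, B4.g47),
     (1, B4.g111), (34, B4.g31), (11, B4.g63), (1, B6.g76), (3, B6.g18), (1, B6.g50),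
     (19, B6.g10), (7, B6.g74), (1, B6.g26), (1, B6.g46), (36, B6.g17), (24, B6.g9),
     (109, B6.g45), (1, B6.g19), (7, B6.g11), (1, B6.g75), (3, B6.g23), (27, B5.g64),
     (2, B5.g112), (53, B5.g40), (4, B5.g56), (14, B5.g44), (2, B5.g108), (2, B5.g66),
     (12, B5.g114), (6, B5.g42), (6, B5.g106), (3, B5.g54), (2, B5.g46), (1, B5.g65),
     (55, B5.g41), (19, B5.g105), (25, B5.g53), (1, B5.g45), (4, B5.g3), (4, B5.g67),
     (24, B5.g43), (1, B5.g107), (1, B5.g55)]),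
   ((12, 58563578258737), 784,
    [(2, B4.g0), (1, B6.g60), (44, B6.g58), (78, B6.g70), (3, B6.g78), (6, B6.g57), (46, B6.g77),
     (1, B6.g61), (2, B6.g83), (1, B6.g59), (3, B6.g79), (2, B3.g72), (15, B3.g40), (1, B3.g56),
     (22, B3.g68), (2, B3.g36), (3, B3.g100), (17, B3.g84), (29, B3.g52), (1, B3.g76),
     (15, B3.g34), (5, B3.g98), (7, B3.g114), (15, B3.g74), (4, B3.g42), (2, B3.g58),
     (1, B3.g70), (20, B3.g38), (6, B3.g102), (1, B3.g86), (6, B3.g54), (3, B3.g126),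
     (22, B3.g33), (12, B3.g97), (12, B3.g113), (2, B3.g73), (4, B3.g41), (21, B3.g57),
     (8, B3.g69), (24, B3.g37), (1, B3.g101), (2, B3.g85), (4, B3.g53), (4, B3.g35), (7, B3.g99),
     (6, B3.g75), (19, B3.g71), (1, B3.g39), (15, B3.g87), (1, B3.g55), (1, B3.g127)]),
   ((4, 38464), 1168,
    [(25, B4.g96), (23, B4.g112), (52, B4.g72), (2, B4.g120), (1, B4.g100), (1, B4.g116),
     (5, B4.g76), (16, B4.g92), (1, B4.g98), (11, B4.g114), (26, B4.g74), (50, B4.g90),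
     (13, B4.g70), (20, B4.g118), (9, B4.g78), (3, B4.g94), (4, B4.g97), (44, B4.g113),
     (7, B4.g73), (12, B4.g117), (43, B4.g77), (7, B4.g93), (2, B4.g99), (39, B4.g115),
     (8, B4.g75), (63, B4.g91), (7, B4.g71), (1, B4.g119), (4, B4.g95), (31, B4.g127),
     (1, B6.g32), (1, B6.g48), (2, B6.g40), (1, B6.g34), (8, B6.g30), (5, B6.g33), (4, B6.g41),
     (2, B6.g83), (14, B6.g39), (15, B6.g47), (3, B6.g31), (1, B5.g0), (45, B5.g96), (2, B5.g80),
     (2, B5.g112), (4, B5.g84), (1, B5.g2), (6, B5.g98), (1, B5.g82), (88, B5.g78), (2, B5.g110),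
     (22, B5.g1), (1, B5.g97), (57, B5.g81), (1, B5.g85), (46, B5.g109), (4, B5.g3), (2, B5.g99),
     (94, B5.g83), (1, B5.g115), (13, B5.g79), (1, B5.g111)]),
   ((16, 3761987165940503600), 608,
    [(1, B4.g4), (1, B4.g2), (11, B4.g1), (1, B4.g5), (2, B4.g3), (54, B2.g80), (31, B2.g72),
     (5, B2.g84), (47, B2.g76), (36, B2.g82), (43, B2.g74), (11, B2.g70), (5, B2.g86),
     (2, B2.g78), (4, B2.g81), (5, B2.g73), (84, B2.g85), (7, B2.g77), (1, B2.g83), (7, B2.g75),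
     (43, B2.g71), (4, B2.g87), (8, B2.g79), (6, B6.g80), (8, B6.g24), (4, B6.g20), (1, B6.g50),
     (1, B6.g26), (4, B6.g22), (3, B6.g49), (2, B6.g25), (16, B6.g21), (3, B6.g23), (23, B3.g16),
     (6, B3.g80), (10, B3.g24), (2, B3.g20), (17, B3.g84), (3, B3.g18), (3, B3.g82), (4, B3.g26),
     (3, B3.g22), (1, B3.g86), (19, B3.g14), (10, B3.g78), (4, B3.g17), (32, B3.g81),
     (1, B3.g25), (1, B3.g21), (2, B3.g85), (66, B3.g13), (5, B3.g77), (11, B3.g19), (1, B3.g83),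
     (25, B3.g27), (1, B3.g23), (15, B3.g87), (3, B3.g15), (18, B3.g79)]),
   ((6, 6489921), 648,
    [(2, B4.g0), (1, B4.g4), (1, B4.g5), (8, B2.g96), (2, B2.g120), (2, B2.g100), (1, B2.g108),
     (3, B2.g92), (1, B2.g98), (16, B2.g106), (44, B2.g90), (34, B2.g118), (6, B2.g110),
     (36, B2.g126), (61, B2.g97), (30, B2.g89), (5, B2.g121), (2, B2.g101), (153, B2.g109),
     (33, B2.g99), (29, B2.g107), (18, B2.g91), (2, B2.g119), (11, B2.g111), (25, B2.g127),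
     (8, B6.g28), (1, B6.g34), (1, B6.g50), (4, B6.g38), (1, B6.g46), (5, B6.g33), (4, B6.g41),
     (50, B6.g37), (109, B6.g45), (4, B6.g29), (2, B6.g27), (1, B3.g0), (1, B3.g96),
     (5, B3.g112), (2, B3.g20), (1, B3.g12), (27, B3.g92), (1, B3.g124), (3, B3.g2),
     (7, B3.g114), (1, B3.g10), (2, B3.g122), (6, B3.g102), (3, B3.g22), (3, B3.g110),
     (14, B3.g94), (19, B3.g1), (36, B3.g9), (11, B3.g121), (1, B3.g21), (14, B3.g109),
     (37, B3.g93), (4, B3.g125), (2, B3.g3), (11, B3.g19), (1, B3.g11), (25, B3.g27),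
     (2, B3.g123), (1, B3.g23), (1, B3.g111), (12, B3.g95)]),
   ((14, 18951415754487377), 1312,
    [(1, B6.g64), (6, B6.g80), (1, B6.g68), (40, B6.g84), (1, B6.g66), (78, B6.g70),
     (30, B6.g62), (5, B6.g65), (2, B6.g69), (2, B6.g85), (21, B6.g67), (11, B6.g63),
     (27, B5.g64), (2, B5.g32), (45, B5.g96), (61, B5.g24), (6, B5.g88), (73, B5.g68),
     (24, B5.g20), (4, B5.g28), (22, B5.g92), (10, B5.g60), (2, B5.g66), (2, B5.g34),
     (6, B5.g98), (27, B5.g18), (12, B5.g114), (8, B5.g26), (1, B5.g90), (41, B5.g58),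
     (83, B5.g22), (21, B5.g86), (4, B5.g30), (1, B5.g94), (3, B5.g62), (1, B5.g65), (8, B5.g33),
     (1, B5.g97), (73, B5.g17), (33, B5.g113), (12, B5.g25), (58, B5.g89), (12, B5.g57),
     (3, B5.g69), (38, B5.g21), (5, B5.g29), (2, B5.g93), (1, B5.g61), (4, B5.g67), (1, B5.g35),
     (2, B5.g99), (55, B5.g19), (1, B5.g115), (58, B5.g27), (8, B5.g91), (6, B5.g59),
     (10, B5.g23), (32, B5.g87), (26, B5.g31), (5, B5.g95), (1, B5.g63)]),
   ((6, 7750416), 784,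
    [(2, B4.g0), (1, B6.g60), (44, B6.g58), (78, B6.g70), (3, B6.g78), (6, B6.g57), (46, B6.g77),
     (1, B6.g61), (2, B6.g83), (1, B6.g59), (3, B6.g79), (2, B3.g72), (15, B3.g40), (1, B3.g56),
     (22, B3.g68), (2, B3.g36), (3, B3.g100), (17, B3.g84), (29, B3.g52), (1, B3.g76),
     (15, B3.g34), (5, B3.g98), (7, B3.g114), (15, B3.g74), (4, B3.g42), (2, B3.g58),
     (1, B3.g70), (20, B3.g38), (6, B3.g102), (1, B3.g86), (6, B3.g54), (3, B3.g126),
     (22, B3.g33), (12, B3.g97), (12, B3.g113), (2, B3.g73), (4, B3.g41), (21, B3.g57),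
     (8, B3.g69), (24, B3.g37), (1, B3.g101), (2, B3.g85), (4, B3.g53), (4, B3.g35), (7, B3.g99),
     (6, B3.g75), (19, B3.g71), (1, B3.g39), (15, B3.g87), (1, B3.g55), (1, B3.g127)]),
   ((14, 23703633412903952), 1096,
    [(1, B4.g64), (12, B4.g32), (35, B4.g48), (91, B4.g40), (2, B4.g120), (5, B4.g52),
     (12, B4.g108), (40, B4.g60), (53, B4.g50), (5, B4.g42), (92, B4.g106), (42, B4.g38),
     (20, B4.g118), (5, B4.g110), (46, B4.g30), (3, B4.g62), (73, B4.g126), (3, B4.g49),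
     (14, B4.g41), (10, B4.g105), (28, B4.g37), (1, B4.g53), (1, B4.g109), (26, B4.g29),
     (3, B4.g61), (1, B4.g51), (11, B4.g107), (4, B4.g39), (1, B4.g119), (70, B4.g47),
     (1, B4.g111), (34, B4.g31), (11, B4.g63), (1, B6.g76), (3, B6.g18), (1, B6.g50),
     (19, B6.g10), (7, B6.g74), (1, B6.g26), (1, B6.g46), (36, B6.g17), (24, B6.g9),
     (109, B6.g45), (1, B6.g19), (7, B6.g11), (1, B6.g75), (3, B6.g23), (27, B5.g64),
     (2, B5.g112), (53, B5.g40), (4, B5.g56), (14, B5.g44), (2, B5.g108), (2, B5.g66),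
     (12, B5.g114), (6, B5.g42), (6, B5.g106), (3, B5.g54), (2, B5.g46), (1, B5.g65),
     (55, B5.g41), (19, B5.g105), (25, B5.g53), (1, B5.g45), (4, B5.g3), (4, B5.g67),
     (24, B5.g43), (1, B5.g107), (1, B5.g55)]),
   ((8, 1620534032), 1312,
    [(1, B6.g64), (6, B6.g80), (1, B6.g68), (40, B6.g84), (1, B6.g66), (78, B6.g70),
     (30, B6.g62), (5, B6.g65), (2, B6.g69), (2, B6.g85), (21, B6.g67), (11, B6.g63),
     (27, B5.g64), (2, B5.g32), (45, B5.g96), (61, B5.g24), (6, B5.g88), (73, B5.g68),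
     (24, B5.g20), (4, B5.g28), (22, B5.g92), (10, B5.g60), (2, B5.g66), (2, B5.g34),
     (6, B5.g98), (27, B5.g18), (12, B5.g114), (8, B5.g26), (1, B5.g90), (41, B5.g58),
     (83, B5.g22), (21, B5.g86), (4, B5.g30), (1, B5.g94), (3, B5.g62), (1, B5.g65), (8, B5.g33),
     (1, B5.g97), (73, B5.g17), (33, B5.g113), (12, B5.g25), (58, B5.g89), (12, B5.g57),
     (3, B5.g69), (38, B5.g21), (5, B5.g29), (2, B5.g93), (1, B5.g61), (4, B5.g67), (1, B5.g35),
     (2, B5.g99), (55, B5.g19), (1, B5.g115), (58, B5.g27), (8, B5.g91), (6, B5.g59),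
     (10, B5.g23), (32, B5.g87), (26, B5.g31), (5, B5.g95), (1, B5.g63)]),
   ((14, 19495875545289744), 648,
    [(2, B4.g0), (1, B4.g4), (1, B4.g5), (8, B2.g96), (2, B2.g120), (2, B2.g100), (1, B2.g108),
     (3, B2.g92), (1, B2.g98), (16, B2.g106), (44, B2.g90), (34, B2.g118), (6, B2.g110),
     (36, B2.g126), (61, B2.g97), (30, B2.g89), (5, B2.g121), (2, B2.g101), (153, B2.g109),
     (33, B2.g99), (29, B2.g107), (18, B2.g91), (2, B2.g119), (11, B2.g111), (25, B2.g127),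
     (8, B6.g28), (1, B6.g34), (1, B6.g50), (4, B6.g38), (1, B6.g46), (5, B6.g33), (4, B6.g41),
     (50, B6.g37), (109, B6.g45), (4, B6.g29), (2, B6.g27), (1, B3.g0), (1, B3.g96),
     (5, B3.g112), (2, B3.g20), (1, B3.g12), (27, B3.g92), (1, B3.g124), (3, B3.g2),
     (7, B3.g114), (1, B3.g10), (2, B3.g122), (6, B3.g102), (3, B3.g22), (3, B3.g110),
     (14, B3.g94), (19, B3.g1), (36, B3.g9), (11, B3.g121), (1, B3.g21), (14, B3.g109),
     (37, B3.g93), (4, B3.g125), (2, B3.g3), (11, B3.g19), (1, B3.g11), (25, B3.g27),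
     (2, B3.g123), (1, B3.g23), (1, B3.g111), (12, B3.g95)])]

/-- lights 1537 -/
noncomputable def plB_1537 : List ((ℕ × ℕ) × ℕ × List (ℕ × ℕ)) :=
  [((0, 0), 1537,
    [(1, B6.g64), (1, B6.g48), (2, B6.g40), (4, B6.g20), (2, B6.g52), (22, B6.g12), (1, B6.g34),
     (4, B6.g42), (2, B6.g14), (3, B6.g78), (8, B6.g30), (30, B6.g62), (5, B6.g1), (1, B6.g81),
     (24, B6.g9), (6, B6.g57), (2, B6.g85), (5, B6.g53), (1, B6.g61), (2, B6.g3), (19, B6.g51),
     (1, B6.g75), (2, B6.g27), (1, B6.g59), (15, B6.g71), (1, B6.g55), (7, B5.g116),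
     (1, B5.g124), (4, B5.g118), (3, B5.g126), (8, B5.g121), (4, B5.g117), (1, B5.g125),
     (4, B5.g119)]),
   ((14, 14729291113129283), 1537,
    [(1, B6.g64), (1, B6.g48), (2, B6.g40), (4, B6.g20), (2, B6.g52), (22, B6.g12), (1, B6.g34),
     (4, B6.g42), (2, B6.g14), (3, B6.g78), (8, B6.g30), (30, B6.g62), (5, B6.g1), (1, B6.g81),
     (24, B6.g9), (6, B6.g57), (2, B6.g85), (5, B6.g53), (1, B6.g61), (2, B6.g3), (19, B6.g51),
     (1, B6.g75), (2, B6.g27), (1, B6.g59), (15, B6.g71), (1, B6.g55), (7, B5.g116),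
     (1, B5.g124), (4, B5.g118), (3, B5.g126), (8, B5.g121), (4, B5.g117), (1, B5.g125),
     (4, B5.g119)]),
   ((6, 3765297), 1537,
    [(1, B6.g64), (1, B6.g48), (2, B6.g40), (4, B6.g20), (2, B6.g52), (22, B6.g12), (1, B6.g34),
     (4, B6.g42), (2, B6.g14), (3, B6.g78), (8, B6.g30), (30, B6.g62), (5, B6.g1), (1, B6.g81),
     (24, B6.g9), (6, B6.g57), (2, B6.g85), (5, B6.g53), (1, B6.g61), (2, B6.g3), (19, B6.g51),
     (1, B6.g75), (2, B6.g27), (1, B6.g59), (15, B6.g71), (1, B6.g55), (7, B5.g116),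
     (1, B5.g124), (4, B5.g118), (3, B5.g126), (8, B5.g121), (4, B5.g117), (1, B5.g125),
     (4, B5.g119)]),
   ((12, 58563578258737), 1537,
    [(1, B6.g64), (1, B6.g48), (2, B6.g40), (4, B6.g20), (2, B6.g52), (22, B6.g12), (1, B6.g34),
     (4, B6.g42), (2, B6.g14), (3, B6.g78), (8, B6.g30), (30, B6.g62), (5, B6.g1), (1, B6.g81),
     (24, B6.g9), (6, B6.g57), (2, B6.g85), (5, B6.g53), (1, B6.g61), (2, B6.g3), (19, B6.g51),
     (1, B6.g75), (2, B6.g27), (1, B6.g59), (15, B6.g71), (1, B6.g55), (7, B5.g116),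
     (1, B5.g124), (4, B5.g118), (3, B5.g126), (8, B5.g121), (4, B5.g117), (1, B5.g125),
     (4, B5.g119)]),
   ((4, 38464), 1538,
    [(1, B6.g64), (4, B6.g16), (2, B6.g8), (7, B6.g72), (1, B6.g68), (2, B6.g52), (1, B6.g76),
     (8, B6.g28), (12, B6.g2), (1, B6.g66), (3, B6.g18), (1, B6.g82), (19, B6.g10), (44, B6.g58),
     (3, B6.g6), (4, B6.g54), (2, B6.g14), (2, B6.g25), (16, B6.g21), (26, B6.g13), (2, B6.g3),
     (9, B6.g35), (19, B6.g51), (8, B6.g43), (1, B6.g59), (1, B6.g55), (3, B6.g79), (3, B6.g31),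
     (11, B6.g63), (2, B5.g120), (7, B5.g116), (13, B5.g122), (4, B5.g117), (4, B5.g119),
     (17, B5.g127)]),
   ((16, 3761987165940503600), 1538,
    [(1, B6.g64), (4, B6.g16), (2, B6.g8), (7, B6.g72), (1, B6.g68), (2, B6.g52), (1, B6.g76),
     (8, B6.g28), (12, B6.g2), (1, B6.g66), (3, B6.g18), (1, B6.g82), (19, B6.g10), (44, B6.g58),
     (3, B6.g6), (4, B6.g54), (2, B6.g14), (2, B6.g25), (16, B6.g21), (26, B6.g13), (2, B6.g3),
     (9, B6.g35), (19, B6.g51), (8, B6.g43), (1, B6.g59), (1, B6.g55), (3, B6.g79), (3, B6.g31),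
     (11, B6.g63), (2, B5.g120), (7, B5.g116), (13, B5.g122), (4, B5.g117), (4, B5.g119),
     (17, B5.g127)]),
   ((6, 6489921), 1538,
    [(1, B6.g64), (4, B6.g16), (2, B6.g8), (7, B6.g72), (1, B6.g68), (2, B6.g52), (1, B6.g76),
     (8, B6.g28), (12, B6.g2), (1, B6.g66), (3, B6.g18), (1, B6.g82), (19, B6.g10), (44, B6.g58),
     (3, B6.g6), (4, B6.g54), (2, B6.g14), (2, B6.g25), (16, B6.g21), (26, B6.g13), (2, B6.g3),
     (9, B6.g35), (19, B6.g51), (8, B6.g43), (1, B6.g59), (1, B6.g55), (3, B6.g79), (3, B6.g31),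
     (11, B6.g63), (2, B5.g120), (7, B5.g116), (13, B5.g122), (4, B5.g117), (4, B5.g119),
     (17, B5.g127)]),
   ((14, 18951415754487377), 1538,
    [(1, B6.g64), (4, B6.g16), (2, B6.g8), (7, B6.g72), (1, B6.g68), (2, B6.g52), (1, B6.g76),
     (8, B6.g28), (12, B6.g2), (1, B6.g66), (3, B6.g18), (1, B6.g82), (19, B6.g10), (44, B6.g58),
     (3, B6.g6), (4, B6.g54), (2, B6.g14), (2, B6.g25), (16, B6.g21), (26, B6.g13), (2, B6.g3),
     (9, B6.g35), (19, B6.g51), (8, B6.g43), (1, B6.g59), (1, B6.g55), (3, B6.g79), (3, B6.g31),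
     (11, B6.g63), (2, B5.g120), (7, B5.g116), (13, B5.g122), (4, B5.g117), (4, B5.g119),
     (17, B5.g127)]),
   ((6, 7750416), 1540,
    [(19, B6.g0), (1, B6.g32), (4, B6.g16), (2, B6.g8), (10, B6.g56), (23, B6.g4), (3, B6.g36),
     (2, B6.g52), (26, B6.g44), (1, B6.g60), (1, B6.g66), (4, B6.g38), (4, B6.g22), (1, B6.g46),
     (5, B6.g65), (7, B6.g73), (2, B6.g69), (4, B6.g29), (1, B6.g61), (1, B6.g19), (7, B6.g11),
     (5, B6.g7), (24, B6.g15), (2, B5.g120), (7, B5.g116), (1, B5.g124), (4, B5.g118),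
     (1, B5.g125), (19, B5.g123)]),
   ((14, 23703633412903952), 1540,
    [(19, B6.g0), (1, B6.g32), (4, B6.g16), (2, B6.g8), (10, B6.g56), (23, B6.g4), (3, B6.g36),
     (2, B6.g52), (26, B6.g44), (1, B6.g60), (1, B6.g66), (4, B6.g38), (4, B6.g22), (1, B6.g46),
     (5, B6.g65), (7, B6.g73), (2, B6.g69), (4, B6.g29), (1, B6.g61), (1, B6.g19), (7, B6.g11),
     (5, B6.g7), (24, B6.g15), (2, B5.g120), (7, B5.g116), (1, B5.g124), (4, B5.g118),
     (1, B5.g125), (19, B5.g123)]),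
   ((8, 1620534032), 1540,
    [(19, B6.g0), (1, B6.g32), (4, B6.g16), (2, B6.g8), (10, B6.g56), (23, B6.g4), (3, B6.g36),
     (2, B6.g52), (26, B6.g44), (1, B6.g60), (1, B6.g66), (4, B6.g38), (4, B6.g22), (1, B6.g46),
     (5, B6.g65), (7, B6.g73), (2, B6.g69), (4, B6.g29), (1, B6.g61), (1, B6.g19), (7, B6.g11),
     (5, B6.g7), (24, B6.g15), (2, B5.g120), (7, B5.g116), (1, B5.g124), (4, B5.g118),
     (1, B5.g125), (19, B5.g123)]),
   ((14, 19495875545289744), 1540,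
    [(19, B6.g0), (1, B6.g32), (4, B6.g16), (2, B6.g8), (10, B6.g56), (23, B6.g4), (3, B6.g36),
     (2, B6.g52), (26, B6.g44), (1, B6.g60), (1, B6.g66), (4, B6.g38), (4, B6.g22), (1, B6.g46),
     (5, B6.g65), (7, B6.g73), (2, B6.g69), (4, B6.g29), (1, B6.g61), (1, B6.g19), (7, B6.g11),
     (5, B6.g7), (24, B6.g15), (2, B5.g120), (7, B5.g116), (1, B5.g124), (4, B5.g118),
     (1, B5.g125), (19, B5.g123)])]

/-- lights 1544 -/
noncomputable def plB_1544 : List ((ℕ × ℕ) × ℕ × List (ℕ × ℕ)) :=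
  [((0, 0), 1544,
    [(19, B6.g0), (10, B6.g56), (1, B6.g68), (1, B6.g76), (8, B6.g28), (1, B6.g34), (3, B6.g18),
     (1, B6.g50), (19, B6.g10), (7, B6.g74), (1, B6.g26), (3, B6.g6), (4, B6.g38), (4, B6.g54),
     (1, B6.g46), (5, B6.g33), (36, B6.g17), (24, B6.g9), (4, B6.g41), (90, B6.g5), (2, B6.g69),
     (50, B6.g37), (5, B6.g53), (109, B6.g45), (4, B6.g29), (21, B6.g67), (1, B6.g19),
     (7, B6.g11), (1, B6.g75), (2, B6.g27), (5, B6.g7), (3, B6.g23), (1, B6.g55), (1, B5.g124),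
     (13, B5.g122), (4, B5.g118), (3, B5.g126), (8, B5.g121), (4, B5.g117), (19, B5.g123),
     (17, B5.g127)]),
   ((14, 14729291113129283), 1792,
    [(1, B6.g64), (6, B6.g80), (7, B6.g72), (10, B6.g56), (1, B6.g68), (40, B6.g84), (2, B6.g52),
     (1, B6.g76), (1, B6.g60), (1, B6.g66), (1, B6.g82), (7, B6.g74), (44, B6.g58), (78, B6.g70),
     (61, B6.g86), (4, B6.g54), (3, B6.g78), (30, B6.g62), (5, B6.g65), (1, B6.g81), (7, B6.g73),
     (6, B6.g57), (2, B6.g69), (2, B6.g85), (5, B6.g53), (46, B6.g77), (1, B6.g61), (21, B6.g67),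
     (2, B6.g83), (19, B6.g51), (1, B6.g75), (1, B6.g59), (15, B6.g71), (1, B6.g55), (3, B6.g79),
     (11, B6.g63)]),
   ((6, 3765297), 1568,
    [(19, B6.g0), (1, B6.g64), (6, B6.g80), (2, B6.g40), (8, B6.g24), (23, B6.g4), (1, B6.g68),
     (3, B6.g36), (4, B6.g20), (40, B6.g84), (12, B6.g2), (1, B6.g66), (1, B6.g50), (1, B6.g26),
     (3, B6.g6), (78, B6.g70), (4, B6.g38), (4, B6.g22), (30, B6.g62), (5, B6.g1), (5, B6.g65),
     (3, B6.g49), (4, B6.g41), (2, B6.g25), (90, B6.g5), (2, B6.g69), (50, B6.g37), (16, B6.g21),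
     (2, B6.g85), (2, B6.g3), (21, B6.g67), (9, B6.g35), (5, B6.g7), (14, B6.g39), (3, B6.g23),
     (11, B6.g63), (3, B5.g126), (1, B5.g125), (17, B5.g127)]),
   ((12, 58563578258737), 1664,
    [(1, B6.g32), (1, B6.g48), (2, B6.g40), (3, B6.g36), (40, B6.g84), (26, B6.g44), (8, B6.g28),
     (1, B6.g34), (1, B6.g82), (1, B6.g50), (4, B6.g42), (4, B6.g38), (61, B6.g86), (1, B6.g46),
     (8, B6.g30), (5, B6.g33), (1, B6.g81), (3, B6.g49), (4, B6.g41), (50, B6.g37), (2, B6.g85),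
     (109, B6.g45), (4, B6.g29), (9, B6.g35), (2, B6.g83), (8, B6.g43), (2, B6.g27),
     (14, B6.g39), (15, B6.g47), (3, B6.g31)]),
   ((4, 38464), 1544,
    [(19, B6.g0), (10, B6.g56), (1, B6.g68), (1, B6.g76), (8, B6.g28), (1, B6.g34), (3, B6.g18),
     (1, B6.g50), (19, B6.g10), (7, B6.g74), (1, B6.g26), (3, B6.g6), (4, B6.g38), (4, B6.g54),
     (1, B6.g46), (5, B6.g33), (36, B6.g17), (24, B6.g9), (4, B6.g41), (90, B6.g5), (2, B6.g69),
     (50, B6.g37), (5, B6.g53), (109, B6.g45), (4, B6.g29), (21, B6.g67), (1, B6.g19),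
     (7, B6.g11), (1, B6.g75), (2, B6.g27), (5, B6.g7), (3, B6.g23), (1, B6.g55), (1, B5.g124),
     (13, B5.g122), (4, B5.g118), (3, B5.g126), (8, B5.g121), (4, B5.g117), (19, B5.g123),
     (17, B5.g127)]),
   ((16, 3761987165940503600), 1792,
    [(1, B6.g64), (6, B6.g80), (7, B6.g72), (10, B6.g56), (1, B6.g68), (40, B6.g84), (2, B6.g52),
     (1, B6.g76), (1, B6.g60), (1, B6.g66), (1, B6.g82), (7, B6.g74), (44, B6.g58), (78, B6.g70),
     (61, B6.g86), (4, B6.g54), (3, B6.g78), (30, B6.g62), (5, B6.g65), (1, B6.g81), (7, B6.g73),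
     (6, B6.g57), (2, B6.g69), (2, B6.g85), (5, B6.g53), (46, B6.g77), (1, B6.g61), (21, B6.g67),
     (2, B6.g83), (19, B6.g51), (1, B6.g75), (1, B6.g59), (15, B6.g71), (1, B6.g55), (3, B6.g79),
     (11, B6.g63)]),
   ((6, 6489921), 1552,
    [(1, B6.g32), (4, B6.g16), (1, B6.g48), (2, B6.g40), (8, B6.g24), (23, B6.g4), (22, B6.g12),
     (1, B6.g60), (12, B6.g2), (1, B6.g34), (3, B6.g18), (1, B6.g26), (44, B6.g58), (3, B6.g6),
     (78, B6.g70), (2, B6.g14), (3, B6.g78), (8, B6.g30), (5, B6.g1), (5, B6.g33), (36, B6.g17),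
     (4, B6.g41), (2, B6.g25), (6, B6.g57), (90, B6.g5), (26, B6.g13), (46, B6.g77), (1, B6.g61),
     (2, B6.g3), (1, B6.g19), (2, B6.g83), (1, B6.g59), (5, B6.g7), (14, B6.g39), (24, B6.g15),
     (3, B6.g79), (15, B6.g47), (3, B6.g31), (2, B5.g120), (1, B5.g124), (13, B5.g122),
     (8, B5.g121), (19, B5.g123), (4, B5.g119)]),
   ((14, 18951415754487377), 1600,
    [(4, B6.g16), (6, B6.g80), (1, B6.g48), (2, B6.g8), (7, B6.g72), (8, B6.g24), (4, B6.g20),
     (22, B6.g12), (1, B6.g76), (26, B6.g44), (3, B6.g18), (1, B6.g50), (19, B6.g10),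
     (7, B6.g74), (4, B6.g42), (1, B6.g26), (4, B6.g22), (61, B6.g86), (2, B6.g14), (3, B6.g78),
     (1, B6.g46), (36, B6.g17), (3, B6.g49), (24, B6.g9), (7, B6.g73), (2, B6.g25), (16, B6.g21),
     (26, B6.g13), (46, B6.g77), (109, B6.g45), (1, B6.g19), (7, B6.g11), (1, B6.g75),
     (8, B6.g43), (15, B6.g71), (3, B6.g23), (24, B6.g15), (3, B6.g79), (15, B6.g47)]),
   ((6, 7750416), 1568,
    [(19, B6.g0), (1, B6.g64), (6, B6.g80), (2, B6.g40), (8, B6.g24), (23, B6.g4), (1, B6.g68),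
     (3, B6.g36), (4, B6.g20), (40, B6.g84), (12, B6.g2), (1, B6.g66), (1, B6.g50), (1, B6.g26),
     (3, B6.g6), (78, B6.g70), (4, B6.g38), (4, B6.g22), (30, B6.g62), (5, B6.g1), (5, B6.g65),
     (3, B6.g49), (4, B6.g41), (2, B6.g25), (90, B6.g5), (2, B6.g69), (50, B6.g37), (16, B6.g21),
     (2, B6.g85), (2, B6.g3), (21, B6.g67), (9, B6.g35), (5, B6.g7), (14, B6.g39), (3, B6.g23),
     (11, B6.g63), (3, B5.g126), (1, B5.g125), (17, B5.g127)]),
   ((14, 23703633412903952), 1664,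
    [(1, B6.g32), (1, B6.g48), (2, B6.g40), (3, B6.g36), (40, B6.g84), (26, B6.g44), (8, B6.g28),
     (1, B6.g34), (1, B6.g82), (1, B6.g50), (4, B6.g42), (4, B6.g38), (61, B6.g86), (1, B6.g46),
     (8, B6.g30), (5, B6.g33), (1, B6.g81), (3, B6.g49), (4, B6.g41), (50, B6.g37), (2, B6.g85),
     (109, B6.g45), (4, B6.g29), (9, B6.g35), (2, B6.g83), (8, B6.g43), (2, B6.g27),
     (14, B6.g39), (15, B6.g47), (3, B6.g31)]),
   ((8, 1620534032), 1552,
    [(1, B6.g32), (4, B6.g16), (1, B6.g48), (2, B6.g40), (8, B6.g24), (23, B6.g4), (22, B6.g12),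
     (1, B6.g60), (12, B6.g2), (1, B6.g34), (3, B6.g18), (1, B6.g26), (44, B6.g58), (3, B6.g6),
     (78, B6.g70), (2, B6.g14), (3, B6.g78), (8, B6.g30), (5, B6.g1), (5, B6.g33), (36, B6.g17),
     (4, B6.g41), (2, B6.g25), (6, B6.g57), (90, B6.g5), (26, B6.g13), (46, B6.g77), (1, B6.g61),
     (2, B6.g3), (1, B6.g19), (2, B6.g83), (1, B6.g59), (5, B6.g7), (14, B6.g39), (24, B6.g15),
     (3, B6.g79), (15, B6.g47), (3, B6.g31), (2, B5.g120), (1, B5.g124), (13, B5.g122),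
     (8, B5.g121), (19, B5.g123), (4, B5.g119)]),
   ((14, 19495875545289744), 1600,
    [(4, B6.g16), (6, B6.g80), (1, B6.g48), (2, B6.g8), (7, B6.g72), (8, B6.g24), (4, B6.g20),
     (22, B6.g12), (1, B6.g76), (26, B6.g44), (3, B6.g18), (1, B6.g50), (19, B6.g10),
     (7, B6.g74), (4, B6.g42), (1, B6.g26), (4, B6.g22), (61, B6.g86), (2, B6.g14), (3, B6.g78),
     (1, B6.g46), (36, B6.g17), (3, B6.g49), (24, B6.g9), (7, B6.g73), (2, B6.g25), (16, B6.g21),
     (26, B6.g13), (46, B6.g77), (109, B6.g45), (1, B6.g19), (7, B6.g11), (1, B6.g75),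
     (8, B6.g43), (15, B6.g71), (3, B6.g23), (24, B6.g15), (3, B6.g79), (15, B6.g47)])]

end Pool.Agent.Gen.TY.X.Pl
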