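import Pool.Agent.Gen.TY.X.PlA
import Pool.Agent.Gen.TY.X.PlB

/-!
MP_8ee768_co, project TH-Y': stage X, the statement that all 57 lists of chunks are complete.
Generated (helper22).
-/

set_option autoImplicit false

namespace Pool.Agent.Gen.TY.X.Pl

open Pool.Agent.Helper67.TY (repA repB)
open Pool.Agent.Helper74.TY

/-- all lists of chunks are complete -/
structure Sels : Prop where
  a7 : XSel 576 okC repA 7 plA_7
  a11 : XSel 576 okC repA 11 plA_11
  a13 : XSel 576 okC repA 13 plA_13
  a25 : XSel 576 okC repA 25 plA_25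
  a26 : XSel 576 okC repA 26 plA_26
  a56 : XSel 576 okC repA 56 plA_56
  a67 : XSel 576 okC repA 67 plA_67
  a69 : XSel 576 okC repA 69 plA_69
  a73 : XSel 576 okC repA 73 plA_73
  a76 : XSel 576 okC repA 76 plA_76
  a81 : XSel 576 okC repA 81 plA_81
  a82 : XSel 576 okC repA 82 plA_82
  a84 : XSel 576 okC repA 84 plA_84
  a88 : XSel 576 okC repA 88 plA_88
  a112 : XSel 576 okC repA 112 plA_112
  a193 : XSel 576 okC repA 193 plA_193
  a194 : XSel 576 okC repA 194 plA_194
  a200 : XSel 576 okC repA 200 plA_200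
  a224 : XSel 576 okC repA 224 plA_224
  a448 : XSel 576 okC repA 448 plA_448
  a515 : XSel 576 okC repA 515 plA_515
  a521 : XSel 576 okC repA 521 plA_521
  a522 : XSel 576 okC repA 522 plA_522
  a524 : XSel 576 okC repA 524 plA_524
  a536 : XSel 576 okC repA 536 plA_536
  a577 : XSel 576 okC repA 577 plA_577
  a578 : XSel 576 okC repA 578 plA_578
  a580 : XSel 576 okC repA 580 plA_580
  a584 : XSel 576 okC repA 584 plA_584
  a592 : XSel 576 okC repA 592 plA_592
  a608 : XSel 576 okC repA 608 plA_608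
  a704 : XSel 576 okC repA 704 plA_704
  a1537 : XSel 576 okC repA 1537 plA_1537
  a1544 : XSel 576 okC repA 1544 plA_1544
  a1600 : XSel 576 okC repA 1600 plA_1600
  b7 : XSel 576 okC repB 7 plB_7
  b11 : XSel 576 okC repB 11 plB_11
  b13 : XSel 576 okC repB 13 plB_13
  b25 : XSel 576 okC repB 25 plB_25
  b26 : XSel 576 okC repB 26 plB_26
  b56 : XSel 576 okC repB 56 plB_56
  b73 : XSel 576 okC repB 73 plB_73
  b74 : XSel 576 okC repB 74 plB_74
  b81 : XSel 576 okC repB 81 plB_81
  b82 : XSel 576 okC repB 82 plB_82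
  b88 : XSel 576 okC repB 88 plB_88
  b104 : XSel 576 okC repB 104 plB_104
  b515 : XSel 576 okC repB 515 plB_515
  b521 : XSel 576 okC repB 521 plB_521
  b522 : XSel 576 okC repB 522 plB_522
  b524 : XSel 576 okC repB 524 plB_524
  b536 : XSel 576 okC repB 536 plB_536
  b584 : XSel 576 okC repB 584 plB_584
  b592 : XSel 576 okC repB 592 plB_592
  b608 : XSel 576 okC repB 608 plB_608
  b1537 : XSel 576 okC repB 1537 plB_1537
  b1544 : XSel 576 okC repB 1544 plB_1544

end Pool.Agent.Gen.TY.X.Pl
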