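import Pool.Agent.Helper22.TY.XAsm
import Pool.Agent.Gen.TY.X.A0
import Pool.Agent.Gen.TY.X.A1
import Pool.Agent.Gen.TY.X.A2
import Pool.Agent.Gen.TY.X.A3
import Pool.Agent.Gen.TY.X.A4
import Pool.Agent.Gen.TY.X.A5
import Pool.Agent.Gen.TY.X.A6
import Pool.Agent.Gen.TY.X.A7
import Pool.Agent.Gen.TY.X.A8
import Pool.Agent.Gen.TY.X.A9

/-!
MP_8ee768_co, project TH-Y': stage X, the lists of chunks for the type A: every list belongs to a
mask `P` of three lights (the smallest of its orbit), one entry for every automorphism of the type.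
Generated (helper22).
-/

set_option autoImplicit false
set_option maxRecDepth 100000

namespace Pool.Agent.Gen.TY.X.Pl

/-- lights 7 -/
noncomputable def plA_7 : List ((ℕ × ℕ) × ℕ × List (ℕ × ℕ)) :=
  [((0, 0), 7,
    [(360, A0.g0), (387, A0.g8), (43, A0.g12), (1, A0.g28), (616, A0.g2), (61, A0.g34),
     (57, A0.g6), (613, A0.g30), (246, A0.g1), (26, A0.g17), (120, A0.g21), (316, A0.g13),
     (363, A0.g29), (409, A0.g35), (206, A0.g7), (91, A0.g39), (13, A8.g56), (3, A8.g103),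
     (8, A4.g8), (9, A4.g104), (127, A4.g100), (9, A4.g108), (47, A4.g42), (4, A4.g22),
     (22, A4.g118), (10, A4.g46), (1, A4.g94), (2, A4.g62), (1, A4.g1), (12, A4.g81),
     (28, A4.g41), (1, A4.g125), (5, A4.g67), (11, A4.g51), (15, A4.g71), (19, A4.g55),
     (59, A4.g47), (119, A4.g63), (3, A2.g44), (506, A2.g2), (315, A2.g18), (103, A2.g10),
     (71, A2.g26), (68, A2.g6), (40, A2.g22), (122, A2.g1), (3, A2.g33), (19, A2.g17),
     (59, A2.g37), (67, A6.g64), (23, A6.g48), (1, A6.g8), (14, A6.g72), (7, A6.g56),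
     (3, A6.g68), (6, A6.g52), (24, A6.g42), (17, A6.g106), (1, A6.g90), (37, A6.g102),
     (21, A6.g110), (1, A6.g121), (2, A6.g117), (13, A6.g83), (28, A6.g43), (1, A6.g27),
     (1, A6.g79), (19, A6.g47), (1, A6.g63), (99, A1.g0), (71, A1.g16), (804, A1.g8),
     (33, A1.g12), (4, A1.g34), (413, A1.g50), (295, A1.g49), (9, A1.g41), (97, A1.g27),
     (9, A1.g7), (5, A1.g23), (14, A5.g64), (2, A5.g4), (23, A5.g12), (11, A5.g85), (7, A5.g117),
     (1, A5.g77), (1, A5.g35), (14, A5.g51), (15, A5.g55), (42, A5.g47), (7, A3.g36), (9, A3.g2),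
     (84, A3.g18), (489, A3.g10), (72, A3.g54), (107, A3.g14), (11, A3.g25), (96, A3.g29),
     (13, A3.g43), (41, A7.g48), (17, A7.g56), (7, A7.g52), (1, A7.g28), (2, A7.g6),
     (9, A7.g126), (8, A7.g89), (16, A7.g67), (29, A7.g15), (2, A7.g63)]),
   ((4, 38449), 7,
    [(360, A0.g0), (387, A0.g8), (43, A0.g12), (1, A0.g28), (616, A0.g2), (61, A0.g34),
     (57, A0.g6), (613, A0.g30), (246, A0.g1), (26, A0.g17), (120, A0.g21), (316, A0.g13),
     (363, A0.g29), (409, A0.g35), (206, A0.g7), (91, A0.g39), (13, A8.g56), (3, A8.g103),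
     (8, A4.g8), (9, A4.g104), (127, A4.g100), (9, A4.g108), (47, A4.g42), (4, A4.g22),
     (22, A4.g118), (10, A4.g46), (1, A4.g94), (2, A4.g62), (1, A4.g1), (12, A4.g81),
     (28, A4.g41), (1, A4.g125), (5, A4.g67), (11, A4.g51), (15, A4.g71), (19, A4.g55),
     (59, A4.g47), (119, A4.g63), (3, A2.g44), (506, A2.g2), (315, A2.g18), (103, A2.g10),
     (71, A2.g26), (68, A2.g6), (40, A2.g22), (122, A2.g1), (3, A2.g33), (19, A2.g17),
     (59, A2.g37), (67, A6.g64), (23, A6.g48), (1, A6.g8), (14, A6.g72), (7, A6.g56),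
     (3, A6.g68), (6, A6.g52), (24, A6.g42), (17, A6.g106), (1, A6.g90), (37, A6.g102),
     (21, A6.g110), (1, A6.g121), (2, A6.g117), (13, A6.g83), (28, A6.g43), (1, A6.g27),
     (1, A6.g79), (19, A6.g47), (1, A6.g63), (99, A1.g0), (71, A1.g16), (804, A1.g8),
     (33, A1.g12), (4, A1.g34), (413, A1.g50), (295, A1.g49), (9, A1.g41), (97, A1.g27),
     (9, A1.g7), (5, A1.g23), (14, A5.g64), (2, A5.g4), (23, A5.g12), (11, A5.g85), (7, A5.g117),
     (1, A5.g77), (1, A5.g35), (14, A5.g51), (15, A5.g55), (42, A5.g47), (7, A3.g36), (9, A3.g2),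
     (84, A3.g18), (489, A3.g10), (72, A3.g54), (107, A3.g14), (11, A3.g25), (96, A3.g29),
     (13, A3.g43), (41, A7.g48), (17, A7.g56), (7, A7.g52), (1, A7.g28), (2, A7.g6),
     (9, A7.g126), (8, A7.g89), (16, A7.g67), (29, A7.g15), (2, A7.g63)]),
   ((4, 38720), 7,
    [(360, A0.g0), (387, A0.g8), (43, A0.g12), (1, A0.g28), (616, A0.g2), (61, A0.g34),
     (57, A0.g6), (613, A0.g30), (246, A0.g1), (26, A0.g17), (120, A0.g21), (316, A0.g13),
     (363, A0.g29), (409, A0.g35), (206, A0.g7), (91, A0.g39), (13, A8.g56), (3, A8.g103),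
     (8, A4.g8), (9, A4.g104), (127, A4.g100), (9, A4.g108), (47, A4.g42), (4, A4.g22),
     (22, A4.g118), (10, A4.g46), (1, A4.g94), (2, A4.g62), (1, A4.g1), (12, A4.g81),
     (28, A4.g41), (1, A4.g125), (5, A4.g67), (11, A4.g51), (15, A4.g71), (19, A4.g55),
     (59, A4.g47), (119, A4.g63), (3, A2.g44), (506, A2.g2), (315, A2.g18), (103, A2.g10),
     (71, A2.g26), (68, A2.g6), (40, A2.g22), (122, A2.g1), (3, A2.g33), (19, A2.g17),
     (59, A2.g37), (67, A6.g64), (23, A6.g48), (1, A6.g8), (14, A6.g72), (7, A6.g56),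
     (3, A6.g68), (6, A6.g52), (24, A6.g42), (17, A6.g106), (1, A6.g90), (37, A6.g102),
     (21, A6.g110), (1, A6.g121), (2, A6.g117), (13, A6.g83), (28, A6.g43), (1, A6.g27),
     (1, A6.g79), (19, A6.g47), (1, A6.g63), (99, A1.g0), (71, A1.g16), (804, A1.g8),
     (33, A1.g12), (4, A1.g34), (413, A1.g50), (295, A1.g49), (9, A1.g41), (97, A1.g27),
     (9, A1.g7), (5, A1.g23), (14, A5.g64), (2, A5.g4), (23, A5.g12), (11, A5.g85), (7, A5.g117),
     (1, A5.g77), (1, A5.g35), (14, A5.g51), (15, A5.g55), (42, A5.g47), (7, A3.g36), (9, A3.g2),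
     (84, A3.g18), (489, A3.g10), (72, A3.g54), (107, A3.g14), (11, A3.g25), (96, A3.g29),
     (13, A3.g43), (41, A7.g48), (17, A7.g56), (7, A7.g52), (1, A7.g28), (2, A7.g6),
     (9, A7.g126), (8, A7.g89), (16, A7.g67), (29, A7.g15), (2, A7.g63)]),
   ((6, 484401), 7,
    [(360, A0.g0), (387, A0.g8), (43, A0.g12), (1, A0.g28), (616, A0.g2), (61, A0.g34),
     (57, A0.g6), (613, A0.g30), (246, A0.g1), (26, A0.g17), (120, A0.g21), (316, A0.g13),
     (363, A0.g29), (409, A0.g35), (206, A0.g7), (91, A0.g39), (13, A8.g56), (3, A8.g103),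
     (8, A4.g8), (9, A4.g104), (127, A4.g100), (9, A4.g108), (47, A4.g42), (4, A4.g22),
     (22, A4.g118), (10, A4.g46), (1, A4.g94), (2, A4.g62), (1, A4.g1), (12, A4.g81),
     (28, A4.g41), (1, A4.g125), (5, A4.g67), (11, A4.g51), (15, A4.g71), (19, A4.g55),
     (59, A4.g47), (119, A4.g63), (3, A2.g44), (506, A2.g2), (315, A2.g18), (103, A2.g10),
     (71, A2.g26), (68, A2.g6), (40, A2.g22), (122, A2.g1), (3, A2.g33), (19, A2.g17),
     (59, A2.g37), (67, A6.g64), (23, A6.g48), (1, A6.g8), (14, A6.g72), (7, A6.g56),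
     (3, A6.g68), (6, A6.g52), (24, A6.g42), (17, A6.g106), (1, A6.g90), (37, A6.g102),
     (21, A6.g110), (1, A6.g121), (2, A6.g117), (13, A6.g83), (28, A6.g43), (1, A6.g27),
     (1, A6.g79), (19, A6.g47), (1, A6.g63), (99, A1.g0), (71, A1.g16), (804, A1.g8),
     (33, A1.g12), (4, A1.g34), (413, A1.g50), (295, A1.g49), (9, A1.g41), (97, A1.g27),
     (9, A1.g7), (5, A1.g23), (14, A5.g64), (2, A5.g4), (23, A5.g12), (11, A5.g85), (7, A5.g117),
     (1, A5.g77), (1, A5.g35), (14, A5.g51), (15, A5.g55), (42, A5.g47), (7, A3.g36), (9, A3.g2),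
     (84, A3.g18), (489, A3.g10), (72, A3.g54), (107, A3.g14), (11, A3.g25), (96, A3.g29),
     (13, A3.g43), (41, A7.g48), (17, A7.g56), (7, A7.g52), (1, A7.g28), (2, A7.g6),
     (9, A7.g126), (8, A7.g89), (16, A7.g67), (29, A7.g15), (2, A7.g63)]),
   ((6, 6517776), 7,
    [(360, A0.g0), (387, A0.g8), (43, A0.g12), (1, A0.g28), (616, A0.g2), (61, A0.g34),
     (57, A0.g6), (613, A0.g30), (246, A0.g1), (26, A0.g17), (120, A0.g21), (316, A0.g13),
     (363, A0.g29), (409, A0.g35), (206, A0.g7), (91, A0.g39), (13, A8.g56), (3, A8.g103),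
     (8, A4.g8), (9, A4.g104), (127, A4.g100), (9, A4.g108), (47, A4.g42), (4, A4.g22),
     (22, A4.g118), (10, A4.g46), (1, A4.g94), (2, A4.g62), (1, A4.g1), (12, A4.g81),
     (28, A4.g41), (1, A4.g125), (5, A4.g67), (11, A4.g51), (15, A4.g71), (19, A4.g55),
     (59, A4.g47), (119, A4.g63), (3, A2.g44), (506, A2.g2), (315, A2.g18), (103, A2.g10),
     (71, A2.g26), (68, A2.g6), (40, A2.g22), (122, A2.g1), (3, A2.g33), (19, A2.g17),
     (59, A2.g37), (67, A6.g64), (23, A6.g48), (1, A6.g8), (14, A6.g72), (7, A6.g56),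
     (3, A6.g68), (6, A6.g52), (24, A6.g42), (17, A6.g106), (1, A6.g90), (37, A6.g102),
     (21, A6.g110), (1, A6.g121), (2, A6.g117), (13, A6.g83), (28, A6.g43), (1, A6.g27),
     (1, A6.g79), (19, A6.g47), (1, A6.g63), (99, A1.g0), (71, A1.g16), (804, A1.g8),
     (33, A1.g12), (4, A1.g34), (413, A1.g50), (295, A1.g49), (9, A1.g41), (97, A1.g27),
     (9, A1.g7), (5, A1.g23), (14, A5.g64), (2, A5.g4), (23, A5.g12), (11, A5.g85), (7, A5.g117),
     (1, A5.g77), (1, A5.g35), (14, A5.g51), (15, A5.g55), (42, A5.g47), (7, A3.g36), (9, A3.g2),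
     (84, A3.g18), (489, A3.g10), (72, A3.g54), (107, A3.g14), (11, A3.g25), (96, A3.g29),
     (13, A3.g43), (41, A7.g48), (17, A7.g56), (7, A7.g52), (1, A7.g28), (2, A7.g6),
     (9, A7.g126), (8, A7.g89), (16, A7.g67), (29, A7.g15), (2, A7.g63)]),
   ((10, 425360507664), 7,
    [(360, A0.g0), (387, A0.g8), (43, A0.g12), (1, A0.g28), (616, A0.g2), (61, A0.g34),
     (57, A0.g6), (613, A0.g30), (246, A0.g1), (26, A0.g17), (120, A0.g21), (316, A0.g13),
     (363, A0.g29), (409, A0.g35), (206, A0.g7), (91, A0.g39), (13, A8.g56), (3, A8.g103),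
     (8, A4.g8), (9, A4.g104), (127, A4.g100), (9, A4.g108), (47, A4.g42), (4, A4.g22),
     (22, A4.g118), (10, A4.g46), (1, A4.g94), (2, A4.g62), (1, A4.g1), (12, A4.g81),
     (28, A4.g41), (1, A4.g125), (5, A4.g67), (11, A4.g51), (15, A4.g71), (19, A4.g55),
     (59, A4.g47), (119, A4.g63), (3, A2.g44), (506, A2.g2), (315, A2.g18), (103, A2.g10),
     (71, A2.g26), (68, A2.g6), (40, A2.g22), (122, A2.g1), (3, A2.g33), (19, A2.g17),
     (59, A2.g37), (67, A6.g64), (23, A6.g48), (1, A6.g8), (14, A6.g72), (7, A6.g56),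
     (3, A6.g68), (6, A6.g52), (24, A6.g42), (17, A6.g106), (1, A6.g90), (37, A6.g102),
     (21, A6.g110), (1, A6.g121), (2, A6.g117), (13, A6.g83), (28, A6.g43), (1, A6.g27),
     (1, A6.g79), (19, A6.g47), (1, A6.g63), (99, A1.g0), (71, A1.g16), (804, A1.g8),
     (33, A1.g12), (4, A1.g34), (413, A1.g50), (295, A1.g49), (9, A1.g41), (97, A1.g27),
     (9, A1.g7), (5, A1.g23), (14, A5.g64), (2, A5.g4), (23, A5.g12), (11, A5.g85), (7, A5.g117),
     (1, A5.g77), (1, A5.g35), (14, A5.g51), (15, A5.g55), (42, A5.g47), (7, A3.g36), (9, A3.g2),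
     (84, A3.g18), (489, A3.g10), (72, A3.g54), (107, A3.g14), (11, A3.g25), (96, A3.g29),
     (13, A3.g43), (41, A7.g48), (17, A7.g56), (7, A7.g52), (1, A7.g28), (2, A7.g6),
     (9, A7.g126), (8, A7.g89), (16, A7.g67), (29, A7.g15), (2, A7.g63)])]

/-- lights 11 -/
noncomputable def plA_11 : List ((ℕ × ℕ) × ℕ × List (ℕ × ℕ)) :=
  [((0, 0), 11,
    [(360, A0.g0), (42, A0.g24), (183, A0.g36), (43, A0.g12), (1, A0.g28), (61, A0.g34),
     (57, A0.g6), (162, A0.g14), (246, A0.g1), (26, A0.g17), (188, A0.g9), (363, A0.g29),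
     (197, A0.g3), (206, A0.g7), (91, A0.g39), (179, A0.g31), (1, A8.g68), (1, A8.g14),
     (4, A8.g1), (1, A8.g25), (4, A8.g57), (43, A4.g64), (59, A4.g48), (9, A4.g104), (9, A4.g84),
     (7, A4.g12), (2, A4.g98), (20, A4.g74), (8, A4.g26), (8, A4.g58), (10, A4.g46), (2, A4.g62),
     (1, A4.g1), (28, A4.g41), (3, A4.g121), (15, A4.g101), (1, A4.g125), (5, A4.g67),
     (11, A4.g51), (27, A4.g43), (1, A4.g111), (20, A2.g40), (3, A2.g44), (68, A2.g6),
     (40, A2.g22), (122, A2.g1), (3, A2.g33), (19, A2.g17), (40, A2.g13), (63, A2.g29),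
     (229, A2.g3), (120, A2.g19), (3, A6.g68), (6, A6.g52), (118, A6.g44), (6, A6.g124),
     (24, A6.g42), (17, A6.g106), (1, A6.g90), (16, A6.g86), (18, A6.g65), (64, A6.g49),
     (18, A6.g113), (2, A6.g117), (4, A6.g75), (19, A6.g59), (49, A6.g103), (1, A6.g79),
     (19, A6.g47), (1, A6.g63), (33, A1.g12), (4, A1.g34), (56, A1.g30), (295, A1.g49),
     (141, A1.g9), (4, A1.g45), (34, A1.g3), (32, A1.g19), (171, A1.g51), (9, A1.g7),
     (5, A1.g23), (39, A5.g48), (3, A5.g88), (1, A5.g58), (6, A5.g67), (14, A5.g51), (4, A5.g15),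
     (93, A3.g32), (7, A3.g36), (8, A3.g6), (107, A3.g14), (11, A3.g25), (25, A3.g57),
     (70, A3.g21), (227, A3.g11), (7, A3.g47), (7, A7.g52), (2, A7.g92), (9, A7.g18),
     (9, A7.g70), (48, A7.g49), (1, A7.g83), (3, A7.g43), (15, A7.g59), (2, A7.g63)]),
   ((4, 38449), 21,
    [(360, A0.g0), (350, A0.g32), (387, A0.g8), (343, A0.g4), (43, A0.g12), (1, A0.g28),
     (616, A0.g2), (61, A0.g34), (227, A0.g10), (71, A0.g26), (57, A0.g6), (613, A0.g30),
     (495, A0.g41), (120, A0.g21), (414, A0.g19), (14, A8.g60), (8, A8.g9), (3, A8.g73),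
     (1, A8.g47), (8, A4.g8), (4, A4.g76), (68, A4.g44), (9, A4.g108), (6, A4.g92), (12, A4.g60),
     (47, A4.g42), (70, A4.g106), (97, A4.g6), (15, A4.g14), (10, A4.g46), (1, A4.g94),
     (2, A4.g62), (4, A4.g113), (50, A4.g69), (124, A4.g53), (34, A4.g35), (15, A4.g71),
     (19, A4.g55), (331, A2.g8), (331, A2.g24), (103, A2.g10), (71, A2.g26), (122, A2.g1),
     (3, A2.g33), (19, A2.g17), (103, A2.g15), (130, A2.g31), (14, A6.g72), (7, A6.g56),
     (70, A6.g108), (12, A6.g70), (128, A6.g54), (21, A6.g110), (2, A6.g117), (4, A6.g77),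
     (72, A6.g45), (15, A6.g61), (19, A6.g115), (28, A6.g43), (1, A6.g79), (19, A6.g47),
     (9, A6.g95), (1, A6.g63), (99, A1.g0), (71, A1.g16), (446, A1.g52), (413, A1.g50),
     (397, A1.g14), (9, A1.g41), (134, A1.g5), (86, A1.g21), (9, A1.g7), (146, A1.g39),
     (5, A1.g23), (13, A1.g47), (2, A5.g4), (20, A5.g2), (20, A5.g53), (1, A5.g77), (5, A5.g75),
     (17, A5.g23), (15, A5.g55), (145, A3.g0), (339, A3.g16), (10, A3.g8), (9, A3.g2),
     (84, A3.g18), (18, A3.g49), (98, A3.g41), (11, A3.g25), (13, A3.g43), (145, A3.g23),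
     (17, A7.g56), (6, A7.g4), (1, A7.g100), (1, A7.g28), (7, A7.g26), (2, A7.g6), (42, A7.g54),
     (8, A7.g78), (1, A7.g33), (8, A7.g61), (1, A7.g11), (2, A7.g63)]),
   ((4, 38720), 11,
    [(360, A0.g0), (42, A0.g24), (183, A0.g36), (43, A0.g12), (1, A0.g28), (61, A0.g34),
     (57, A0.g6), (162, A0.g14), (246, A0.g1), (26, A0.g17), (188, A0.g9), (363, A0.g29),
     (197, A0.g3), (206, A0.g7), (91, A0.g39), (179, A0.g31), (1, A8.g68), (1, A8.g14),
     (4, A8.g1), (1, A8.g25), (4, A8.g57), (43, A4.g64), (59, A4.g48), (9, A4.g104), (9, A4.g84),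
     (7, A4.g12), (2, A4.g98), (20, A4.g74), (8, A4.g26), (8, A4.g58), (10, A4.g46), (2, A4.g62),
     (1, A4.g1), (28, A4.g41), (3, A4.g121), (15, A4.g101), (1, A4.g125), (5, A4.g67),
     (11, A4.g51), (27, A4.g43), (1, A4.g111), (20, A2.g40), (3, A2.g44), (68, A2.g6),
     (40, A2.g22), (122, A2.g1), (3, A2.g33), (19, A2.g17), (40, A2.g13), (63, A2.g29),
     (229, A2.g3), (120, A2.g19), (3, A6.g68), (6, A6.g52), (118, A6.g44), (6, A6.g124),
     (24, A6.g42), (17, A6.g106), (1, A6.g90), (16, A6.g86), (18, A6.g65), (64, A6.g49),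
     (18, A6.g113), (2, A6.g117), (4, A6.g75), (19, A6.g59), (49, A6.g103), (1, A6.g79),
     (19, A6.g47), (1, A6.g63), (33, A1.g12), (4, A1.g34), (56, A1.g30), (295, A1.g49),
     (141, A1.g9), (4, A1.g45), (34, A1.g3), (32, A1.g19), (171, A1.g51), (9, A1.g7),
     (5, A1.g23), (39, A5.g48), (3, A5.g88), (1, A5.g58), (6, A5.g67), (14, A5.g51), (4, A5.g15),
     (93, A3.g32), (7, A3.g36), (8, A3.g6), (107, A3.g14), (11, A3.g25), (25, A3.g57),
     (70, A3.g21), (227, A3.g11), (7, A3.g47), (7, A7.g52), (2, A7.g92), (9, A7.g18),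
     (9, A7.g70), (48, A7.g49), (1, A7.g83), (3, A7.g43), (15, A7.g59), (2, A7.g63)]),
   ((6, 484401), 38,
    [(180, A0.g16), (279, A0.g20), (1, A0.g28), (616, A0.g2), (409, A0.g42), (57, A0.g6),
     (264, A0.g38), (246, A0.g1), (26, A0.g17), (259, A0.g5), (120, A0.g21), (316, A0.g13),
     (409, A0.g35), (50, A0.g27), (91, A0.g39), (2, A8.g28), (5, A8.g65), (1, A8.g33),
     (4, A8.g21), (124, A4.g80), (21, A4.g36), (7, A4.g124), (92, A4.g50), (4, A4.g22),
     (92, A4.g54), (22, A4.g118), (1, A4.g94), (2, A4.g62), (12, A4.g81), (68, A4.g21),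
     (75, A4.g117), (11, A4.g29), (8, A4.g93), (6, A4.g61), (1, A4.g125), (11, A4.g51),
     (7, A4.g87), (19, A4.g55), (59, A4.g47), (129, A2.g16), (197, A2.g36), (3, A2.g44),
     (506, A2.g2), (103, A2.g10), (68, A2.g6), (19, A2.g17), (478, A2.g9), (437, A2.g5),
     (59, A2.g37), (58, A2.g43), (21, A6.g96), (23, A6.g48), (1, A6.g8), (7, A6.g56),
     (37, A6.g120), (6, A6.g52), (1, A6.g18), (50, A6.g82), (1, A6.g90), (15, A6.g62),
     (16, A6.g89), (1, A6.g121), (1, A6.g101), (13, A6.g83), (85, A6.g51), (5, A6.g7),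
     (86, A6.g55), (1, A6.g63), (7, A6.g127), (99, A1.g0), (7, A1.g48), (125, A1.g40),
     (4, A1.g34), (377, A1.g26), (71, A1.g6), (88, A1.g33), (9, A1.g41), (97, A1.g27),
     (9, A1.g7), (14, A5.g64), (2, A5.g4), (8, A5.g76), (1, A5.g108), (11, A5.g34), (13, A5.g70),
     (1, A5.g81), (1, A5.g77), (22, A5.g3), (1, A5.g35), (5, A5.g103), (36, A5.g63), (7, A3.g36),
     (287, A3.g28), (9, A3.g2), (14, A3.g50), (102, A3.g42), (154, A3.g1), (17, A3.g9),
     (96, A3.g29), (116, A3.g35), (13, A3.g43), (45, A7.g66), (2, A7.g6), (7, A7.g110),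
     (10, A7.g73), (1, A7.g121), (4, A7.g5), (2, A7.g85), (2, A7.g45), (16, A7.g67),
     (1, A7.g115), (6, A7.g39), (28, A7.g79)]),
   ((6, 6517776), 21,
    [(360, A0.g0), (350, A0.g32), (387, A0.g8), (343, A0.g4), (43, A0.g12), (1, A0.g28),
     (616, A0.g2), (61, A0.g34), (227, A0.g10), (71, A0.g26), (57, A0.g6), (613, A0.g30),
     (495, A0.g41), (120, A0.g21), (414, A0.g19), (14, A8.g60), (8, A8.g9), (3, A8.g73),
     (1, A8.g47), (8, A4.g8), (4, A4.g76), (68, A4.g44), (9, A4.g108), (6, A4.g92), (12, A4.g60),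
     (47, A4.g42), (70, A4.g106), (97, A4.g6), (15, A4.g14), (10, A4.g46), (1, A4.g94),
     (2, A4.g62), (4, A4.g113), (50, A4.g69), (124, A4.g53), (34, A4.g35), (15, A4.g71),
     (19, A4.g55), (331, A2.g8), (331, A2.g24), (103, A2.g10), (71, A2.g26), (122, A2.g1),
     (3, A2.g33), (19, A2.g17), (103, A2.g15), (130, A2.g31), (14, A6.g72), (7, A6.g56),
     (70, A6.g108), (12, A6.g70), (128, A6.g54), (21, A6.g110), (2, A6.g117), (4, A6.g77),
     (72, A6.g45), (15, A6.g61), (19, A6.g115), (28, A6.g43), (1, A6.g79), (19, A6.g47),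
     (9, A6.g95), (1, A6.g63), (99, A1.g0), (71, A1.g16), (446, A1.g52), (413, A1.g50),
     (397, A1.g14), (9, A1.g41), (134, A1.g5), (86, A1.g21), (9, A1.g7), (146, A1.g39),
     (5, A1.g23), (13, A1.g47), (2, A5.g4), (20, A5.g2), (20, A5.g53), (1, A5.g77), (5, A5.g75),
     (17, A5.g23), (15, A5.g55), (145, A3.g0), (339, A3.g16), (10, A3.g8), (9, A3.g2),
     (84, A3.g18), (18, A3.g49), (98, A3.g41), (11, A3.g25), (13, A3.g43), (145, A3.g23),
     (17, A7.g56), (6, A7.g4), (1, A7.g100), (1, A7.g28), (7, A7.g26), (2, A7.g6), (42, A7.g54),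
     (8, A7.g78), (1, A7.g33), (8, A7.g61), (1, A7.g11), (2, A7.g63)]),
   ((10, 425360507664), 38,
    [(180, A0.g16), (279, A0.g20), (1, A0.g28), (616, A0.g2), (409, A0.g42), (57, A0.g6),
     (264, A0.g38), (246, A0.g1), (26, A0.g17), (259, A0.g5), (120, A0.g21), (316, A0.g13),
     (409, A0.g35), (50, A0.g27), (91, A0.g39), (2, A8.g28), (5, A8.g65), (1, A8.g33),
     (4, A8.g21), (124, A4.g80), (21, A4.g36), (7, A4.g124), (92, A4.g50), (4, A4.g22),
     (92, A4.g54), (22, A4.g118), (1, A4.g94), (2, A4.g62), (12, A4.g81), (68, A4.g21),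
     (75, A4.g117), (11, A4.g29), (8, A4.g93), (6, A4.g61), (1, A4.g125), (11, A4.g51),
     (7, A4.g87), (19, A4.g55), (59, A4.g47), (129, A2.g16), (197, A2.g36), (3, A2.g44),
     (506, A2.g2), (103, A2.g10), (68, A2.g6), (19, A2.g17), (478, A2.g9), (437, A2.g5),
     (59, A2.g37), (58, A2.g43), (21, A6.g96), (23, A6.g48), (1, A6.g8), (7, A6.g56),
     (37, A6.g120), (6, A6.g52), (1, A6.g18), (50, A6.g82), (1, A6.g90), (15, A6.g62),
     (16, A6.g89), (1, A6.g121), (1, A6.g101), (13, A6.g83), (85, A6.g51), (5, A6.g7),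
     (86, A6.g55), (1, A6.g63), (7, A6.g127), (99, A1.g0), (7, A1.g48), (125, A1.g40),
     (4, A1.g34), (377, A1.g26), (71, A1.g6), (88, A1.g33), (9, A1.g41), (97, A1.g27),
     (9, A1.g7), (14, A5.g64), (2, A5.g4), (8, A5.g76), (1, A5.g108), (11, A5.g34), (13, A5.g70),
     (1, A5.g81), (1, A5.g77), (22, A5.g3), (1, A5.g35), (5, A5.g103), (36, A5.g63), (7, A3.g36),
     (287, A3.g28), (9, A3.g2), (14, A3.g50), (102, A3.g42), (154, A3.g1), (17, A3.g9),
     (96, A3.g29), (116, A3.g35), (13, A3.g43), (45, A7.g66), (2, A7.g6), (7, A7.g110),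
     (10, A7.g73), (1, A7.g121), (4, A7.g5), (2, A7.g85), (2, A7.g45), (16, A7.g67),
     (1, A7.g115), (6, A7.g39), (28, A7.g79)])]

/-- lights 13 -/
noncomputable def plA_13 : List ((ℕ × ℕ) × ℕ × List (ℕ × ℕ)) :=
  [((0, 0), 13,
    [(360, A0.g0), (350, A0.g32), (343, A0.g4), (43, A0.g12), (1, A0.g28), (61, A0.g34),
     (227, A0.g10), (71, A0.g26), (57, A0.g6), (246, A0.g1), (26, A0.g17), (546, A0.g37),
     (363, A0.g29), (206, A0.g7), (91, A0.g39), (376, A0.g15), (7, A8.g58), (6, A8.g3),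
     (5, A8.g107), (1, A8.g27), (9, A4.g104), (4, A4.g76), (68, A4.g44), (23, A4.g28),
     (12, A4.g60), (56, A4.g102), (19, A4.g86), (15, A4.g14), (10, A4.g46), (2, A4.g62),
     (1, A4.g1), (92, A4.g65), (126, A4.g49), (4, A4.g113), (28, A4.g41), (1, A4.g125),
     (5, A4.g67), (11, A4.g51), (21, A4.g123), (505, A2.g4), (433, A2.g20), (3, A2.g44),
     (116, A2.g42), (68, A2.g6), (40, A2.g22), (122, A2.g1), (3, A2.g33), (19, A2.g17),
     (103, A2.g15), (130, A2.g31), (107, A6.g104), (7, A6.g88), (3, A6.g68), (6, A6.g52),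
     (76, A6.g66), (117, A6.g50), (24, A6.g42), (17, A6.g106), (1, A6.g90), (1, A6.g30),
     (8, A6.g126), (2, A6.g117), (1, A6.g13), (4, A6.g77), (72, A6.g45), (15, A6.g61),
     (19, A6.g115), (1, A6.g79), (19, A6.g47), (1, A6.g63), (117, A1.g32), (446, A1.g52),
     (33, A1.g12), (4, A1.g34), (310, A1.g10), (295, A1.g49), (134, A1.g5), (86, A1.g21),
     (9, A1.g7), (5, A1.g23), (13, A1.g47), (1, A5.g40), (13, A5.g90), (11, A5.g17),
     (45, A5.g49), (1, A5.g121), (18, A5.g69), (14, A5.g51), (10, A3.g8), (7, A3.g36),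
     (223, A3.g12), (121, A3.g34), (107, A3.g14), (18, A3.g49), (11, A3.g25), (68, A3.g59),
     (145, A3.g23), (4, A7.g72), (10, A7.g20), (7, A7.g52), (79, A7.g50), (1, A7.g94),
     (1, A7.g33), (8, A7.g61), (1, A7.g11), (2, A7.g63)]),
   ((4, 38449), 19,
    [(360, A0.g0), (387, A0.g8), (352, A0.g40), (42, A0.g24), (43, A0.g12), (1, A0.g28),
     (616, A0.g2), (61, A0.g34), (485, A0.g18), (57, A0.g6), (613, A0.g30), (188, A0.g9),
     (120, A0.g21), (197, A0.g3), (179, A0.g31), (1, A8.g14), (19, A8.g7), (8, A4.g8),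
     (39, A4.g4), (55, A4.g68), (82, A4.g52), (7, A4.g12), (9, A4.g108), (2, A4.g98),
     (20, A4.g74), (47, A4.g42), (17, A4.g90), (8, A4.g58), (10, A4.g46), (1, A4.g94),
     (2, A4.g62), (6, A4.g33), (53, A4.g105), (27, A4.g43), (15, A4.g71), (19, A4.g55),
     (1, A4.g111), (103, A2.g10), (71, A2.g26), (122, A2.g1), (3, A2.g33), (19, A2.g17),
     (40, A2.g13), (63, A2.g29), (291, A2.g7), (97, A2.g23), (48, A2.g47), (14, A6.g72),
     (7, A6.g56), (118, A6.g44), (21, A6.g110), (18, A6.g113), (48, A6.g69), (155, A6.g53),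
     (2, A6.g117), (11, A6.g93), (4, A6.g75), (28, A6.g43), (126, A6.g107), (19, A6.g59),
     (1, A6.g79), (19, A6.g47), (1, A6.g63), (99, A1.g0), (71, A1.g16), (413, A1.g50),
     (9, A1.g41), (62, A1.g37), (283, A1.g13), (4, A1.g45), (34, A1.g3), (32, A1.g19),
     (171, A1.g51), (9, A1.g7), (5, A1.g23), (18, A5.g0), (2, A5.g4), (35, A5.g52), (5, A5.g124),
     (1, A5.g58), (17, A5.g73), (6, A5.g21), (1, A5.g77), (15, A5.g55), (9, A3.g2), (84, A3.g18),
     (8, A3.g6), (11, A3.g25), (70, A3.g21), (13, A3.g43), (93, A3.g39), (272, A3.g15),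
     (7, A3.g47), (6, A7.g24), (17, A7.g56), (21, A7.g76), (1, A7.g28), (6, A7.g2), (1, A7.g98),
     (2, A7.g6), (109, A7.g53), (1, A7.g83), (15, A7.g59), (1, A7.g119), (2, A7.g63)]),
   ((4, 38720), 14,
    [(360, A0.g0), (180, A0.g16), (43, A0.g12), (1, A0.g28), (61, A0.g34), (57, A0.g6),
     (264, A0.g38), (246, A0.g1), (334, A0.g33), (26, A0.g17), (259, A0.g5), (363, A0.g29),
     (299, A0.g11), (50, A0.g27), (206, A0.g7), (91, A0.g39), (1, A8.g16), (8, A8.g4),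
     (1, A8.g84), (2, A8.g28), (7, A8.g59), (73, A4.g0), (9, A4.g104), (7, A4.g124),
     (65, A4.g66), (92, A4.g50), (5, A4.g114), (10, A4.g46), (2, A4.g62), (1, A4.g1),
     (28, A4.g41), (9, A4.g77), (57, A4.g45), (11, A4.g29), (6, A4.g61), (1, A4.g125),
     (5, A4.g67), (11, A4.g51), (37, A4.g103), (7, A4.g87), (21, A4.g15), (739, A2.g0),
     (80, A2.g32), (129, A2.g16), (3, A2.g44), (68, A2.g6), (40, A2.g22), (122, A2.g1),
     (3, A2.g33), (19, A2.g17), (437, A2.g5), (142, A2.g21), (58, A2.g43), (3, A6.g68),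
     (6, A6.g52), (18, A6.g116), (24, A6.g42), (17, A6.g106), (1, A6.g90), (8, A6.g78),
     (135, A6.g46), (15, A6.g62), (63, A6.g105), (16, A6.g89), (1, A6.g101), (2, A6.g117),
     (82, A6.g67), (85, A6.g51), (1, A6.g79), (19, A6.g47), (1, A6.g63), (7, A6.g127),
     (7, A1.g48), (33, A1.g12), (4, A1.g34), (71, A1.g6), (76, A1.g22), (88, A1.g33),
     (295, A1.g49), (333, A1.g11), (9, A1.g7), (5, A1.g23), (1, A5.g108), (1, A5.g60),
     (6, A5.g18), (35, A5.g50), (13, A5.g70), (1, A5.g81), (14, A5.g51), (6, A5.g91),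
     (119, A3.g24), (7, A3.g36), (14, A3.g50), (107, A3.g14), (17, A3.g9), (11, A3.g25),
     (356, A3.g13), (116, A3.g35), (7, A7.g52), (10, A7.g62), (10, A7.g73), (27, A7.g21),
     (2, A7.g85), (2, A7.g45), (76, A7.g51), (1, A7.g115), (2, A7.g95), (2, A7.g63)]),
   ((6, 484401), 35,
    [(352, A0.g40), (42, A0.g24), (183, A0.g36), (1, A0.g28), (616, A0.g2), (485, A0.g18),
     (57, A0.g6), (162, A0.g14), (246, A0.g1), (26, A0.g17), (120, A0.g21), (316, A0.g13),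
     (197, A0.g3), (409, A0.g35), (91, A0.g39), (4, A8.g64), (1, A8.g68), (2, A8.g116),
     (1, A8.g25), (59, A4.g48), (9, A4.g84), (82, A4.g52), (2, A4.g98), (30, A4.g18),
     (8, A4.g26), (17, A4.g90), (8, A4.g58), (4, A4.g22), (22, A4.g118), (153, A4.g78),
     (1, A4.g94), (2, A4.g62), (6, A4.g33), (12, A4.g81), (3, A4.g121), (1, A4.g125),
     (11, A4.g51), (113, A4.g115), (19, A4.g55), (59, A4.g47), (20, A2.g40), (3, A2.g44),
     (506, A2.g2), (122, A2.g34), (103, A2.g10), (68, A2.g6), (19, A2.g17), (59, A2.g37),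
     (40, A2.g13), (229, A2.g3), (291, A2.g7), (48, A2.g47), (98, A6.g80), (23, A6.g48),
     (1, A6.g8), (7, A6.g56), (31, A6.g4), (6, A6.g52), (6, A6.g124), (1, A6.g90), (2, A6.g38),
     (16, A6.g86), (72, A6.g118), (64, A6.g49), (1, A6.g121), (155, A6.g53), (11, A6.g93),
     (13, A6.g83), (19, A6.g59), (1, A6.g63), (99, A1.g0), (244, A1.g24), (4, A1.g34),
     (56, A1.g30), (9, A1.g41), (62, A1.g37), (4, A1.g45), (34, A1.g3), (97, A1.g27), (9, A1.g7),
     (18, A5.g0), (14, A5.g64), (2, A5.g4), (2, A5.g100), (17, A5.g73), (1, A5.g77),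
     (48, A5.g61), (6, A5.g67), (1, A5.g35), (17, A5.g31), (93, A3.g32), (7, A3.g36), (9, A3.g2),
     (336, A3.g26), (8, A3.g6), (96, A3.g29), (13, A3.g43), (93, A3.g39), (7, A3.g47),
     (52, A7.g64), (2, A7.g36), (21, A7.g76), (6, A7.g2), (2, A7.g6), (9, A7.g70), (16, A7.g67),
     (1, A7.g83), (3, A7.g43), (5, A7.g107), (1, A7.g119)]),
   ((6, 6517776), 22,
    [(360, A0.g0), (387, A0.g8), (279, A0.g20), (43, A0.g12), (1, A0.g28), (616, A0.g2),
     (61, A0.g34), (409, A0.g42), (57, A0.g6), (613, A0.g30), (334, A0.g33), (259, A0.g5),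
     (120, A0.g21), (299, A0.g11), (50, A0.g27), (1, A8.g16), (12, A8.g10), (1, A8.g33),
     (2, A8.g61), (1, A8.g111), (8, A4.g8), (21, A4.g36), (9, A4.g108), (5, A4.g114),
     (47, A4.g42), (68, A4.g70), (92, A4.g54), (10, A4.g46), (1, A4.g94), (2, A4.g62),
     (9, A4.g77), (57, A4.g45), (8, A4.g93), (6, A4.g61), (105, A4.g107), (63, A4.g7),
     (15, A4.g71), (19, A4.g55), (21, A4.g15), (739, A2.g0), (80, A2.g32), (129, A2.g16),
     (103, A2.g10), (71, A2.g26), (122, A2.g1), (3, A2.g33), (19, A2.g17), (478, A2.g9),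
     (336, A2.g25), (21, A6.g96), (14, A6.g72), (7, A6.g56), (18, A6.g116), (1, A6.g18),
     (8, A6.g78), (135, A6.g46), (21, A6.g110), (15, A6.g62), (1, A6.g101), (2, A6.g117),
     (83, A6.g109), (28, A6.g43), (46, A6.g71), (86, A6.g55), (1, A6.g79), (19, A6.g47),
     (1, A6.g63), (99, A1.g0), (71, A1.g16), (7, A1.g48), (125, A1.g40), (413, A1.g50),
     (71, A1.g6), (76, A1.g22), (9, A1.g41), (9, A1.g7), (5, A1.g23), (473, A1.g15),
     (29, A5.g24), (2, A5.g4), (8, A5.g76), (1, A5.g60), (56, A5.g54), (2, A5.g126), (1, A5.g81),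
     (1, A5.g77), (22, A5.g3), (15, A5.g55), (119, A3.g24), (9, A3.g2), (84, A3.g18),
     (14, A3.g50), (102, A3.g42), (154, A3.g1), (311, A3.g17), (17, A3.g9), (11, A3.g25),
     (13, A3.g43), (17, A7.g56), (1, A7.g28), (2, A7.g6), (10, A7.g62), (1, A7.g121), (4, A7.g5),
     (2, A7.g101), (2, A7.g85), (4, A7.g27), (87, A7.g55), (28, A7.g79), (2, A7.g63)]),
   ((10, 425360507664), 37,
    [(343, A0.g4), (1, A0.g28), (616, A0.g2), (71, A0.g26), (57, A0.g6), (246, A0.g1),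
     (26, A0.g17), (495, A0.g41), (546, A0.g37), (120, A0.g21), (316, A0.g13), (409, A0.g35),
     (414, A0.g19), (91, A0.g39), (376, A0.g15), (2, A8.g20), (2, A8.g118), (3, A8.g73),
     (2, A8.g53), (4, A8.g93), (1, A8.g27), (88, A4.g20), (168, A4.g116), (23, A4.g28),
     (6, A4.g92), (12, A4.g60), (4, A4.g22), (19, A4.g86), (22, A4.g118), (1, A4.g94),
     (2, A4.g62), (12, A4.g81), (126, A4.g49), (124, A4.g53), (1, A4.g125), (34, A4.g35),
     (11, A4.g51), (21, A4.g123), (19, A4.g55), (270, A4.g79), (59, A4.g47), (331, A2.g8),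
     (505, A2.g4), (3, A2.g44), (506, A2.g2), (103, A2.g10), (116, A2.g42), (68, A2.g6),
     (19, A2.g17), (59, A2.g37), (462, A2.g35), (103, A2.g15), (23, A6.g48), (1, A6.g8),
     (7, A6.g88), (7, A6.g56), (6, A6.g52), (117, A6.g50), (1, A6.g90), (10, A6.g6),
     (128, A6.g54), (8, A6.g126), (70, A6.g81), (1, A6.g121), (1, A6.g13), (15, A6.g61),
     (13, A6.g83), (58, A6.g119), (9, A6.g95), (1, A6.g63), (99, A1.g0), (117, A1.g32),
     (4, A1.g34), (9, A1.g41), (365, A1.g25), (134, A1.g5), (97, A1.g27), (9, A1.g7),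
     (146, A1.g39), (13, A1.g47), (14, A5.g64), (1, A5.g40), (2, A5.g4), (20, A5.g2),
     (17, A5.g102), (73, A5.g62), (14, A5.g33), (18, A5.g69), (1, A5.g77), (1, A5.g35),
     (5, A5.g75), (145, A3.g0), (10, A3.g8), (7, A3.g36), (9, A3.g2), (121, A3.g34),
     (18, A3.g49), (98, A3.g41), (96, A3.g29), (13, A3.g43), (365, A3.g27), (4, A7.g72),
     (6, A7.g4), (2, A7.g6), (7, A7.g38), (8, A7.g78), (73, A7.g65), (20, A7.g109), (16, A7.g67),
     (1, A7.g11)])]

/-- lights 25 -/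
noncomputable def plA_25 : List ((ℕ × ℕ) × ℕ × List (ℕ × ℕ)) :=
  [((0, 0), 25,
    [(360, A0.g0), (350, A0.g32), (42, A0.g24), (343, A0.g4), (43, A0.g12), (1, A0.g28),
     (61, A0.g34), (227, A0.g10), (71, A0.g26), (57, A0.g6), (317, A0.g22), (188, A0.g9),
     (197, A0.g3), (179, A0.g31), (21, A8.g12), (1, A8.g14), (33, A8.g62), (3, A8.g113),
     (1, A8.g89), (7, A8.g75), (14, A4.g96), (143, A4.g72), (74, A4.g56), (7, A4.g12),
     (4, A4.g76), (68, A4.g44), (12, A4.g60), (2, A4.g98), (193, A4.g10), (20, A4.g74),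
     (8, A4.g58), (11, A4.g38), (15, A4.g14), (10, A4.g46), (2, A4.g62), (4, A4.g113),
     (57, A4.g109), (27, A4.g43), (1, A4.g111), (122, A2.g1), (3, A2.g33), (19, A2.g17),
     (40, A2.g13), (63, A2.g29), (244, A2.g11), (432, A2.g27), (103, A2.g15), (130, A2.g31),
     (36, A6.g0), (118, A6.g44), (15, A6.g98), (18, A6.g113), (60, A6.g73), (145, A6.g57),
     (2, A6.g117), (4, A6.g77), (72, A6.g45), (15, A6.g61), (19, A6.g115), (4, A6.g75),
     (19, A6.g59), (1, A6.g79), (19, A6.g47), (147, A6.g111), (1, A6.g63), (446, A1.g52),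
     (262, A1.g1), (324, A1.g17), (134, A1.g5), (86, A1.g21), (4, A1.g45), (34, A1.g3),
     (32, A1.g19), (171, A1.g51), (87, A1.g43), (9, A1.g7), (5, A1.g23), (13, A1.g47),
     (21, A5.g96), (57, A5.g56), (4, A5.g26), (1, A5.g58), (10, A5.g6), (10, A3.g8),
     (116, A3.g4), (8, A3.g6), (18, A3.g49), (11, A3.g25), (70, A3.g21), (145, A3.g45),
     (443, A3.g19), (145, A3.g23), (7, A3.g47), (11, A7.g8), (7, A7.g30), (1, A7.g33),
     (1, A7.g81), (72, A7.g57), (8, A7.g61), (1, A7.g83), (1, A7.g11), (15, A7.g59),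
     (3, A7.g103), (2, A7.g63)]),
   ((4, 38449), 25,
    [(360, A0.g0), (350, A0.g32), (42, A0.g24), (343, A0.g4), (43, A0.g12), (1, A0.g28),
     (61, A0.g34), (227, A0.g10), (71, A0.g26), (57, A0.g6), (317, A0.g22), (188, A0.g9),
     (197, A0.g3), (179, A0.g31), (21, A8.g12), (1, A8.g14), (33, A8.g62), (3, A8.g113),
     (1, A8.g89), (7, A8.g75), (14, A4.g96), (143, A4.g72), (74, A4.g56), (7, A4.g12),
     (4, A4.g76), (68, A4.g44), (12, A4.g60), (2, A4.g98), (193, A4.g10), (20, A4.g74),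
     (8, A4.g58), (11, A4.g38), (15, A4.g14), (10, A4.g46), (2, A4.g62), (4, A4.g113),
     (57, A4.g109), (27, A4.g43), (1, A4.g111), (122, A2.g1), (3, A2.g33), (19, A2.g17),
     (40, A2.g13), (63, A2.g29), (244, A2.g11), (432, A2.g27), (103, A2.g15), (130, A2.g31),
     (36, A6.g0), (118, A6.g44), (15, A6.g98), (18, A6.g113), (60, A6.g73), (145, A6.g57),
     (2, A6.g117), (4, A6.g77), (72, A6.g45), (15, A6.g61), (19, A6.g115), (4, A6.g75),
     (19, A6.g59), (1, A6.g79), (19, A6.g47), (147, A6.g111), (1, A6.g63), (446, A1.g52),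
     (262, A1.g1), (324, A1.g17), (134, A1.g5), (86, A1.g21), (4, A1.g45), (34, A1.g3),
     (32, A1.g19), (171, A1.g51), (87, A1.g43), (9, A1.g7), (5, A1.g23), (13, A1.g47),
     (21, A5.g96), (57, A5.g56), (4, A5.g26), (1, A5.g58), (10, A5.g6), (10, A3.g8),
     (116, A3.g4), (8, A3.g6), (18, A3.g49), (11, A3.g25), (70, A3.g21), (145, A3.g45),
     (443, A3.g19), (145, A3.g23), (7, A3.g47), (11, A7.g8), (7, A7.g30), (1, A7.g33),
     (1, A7.g81), (72, A7.g57), (8, A7.g61), (1, A7.g83), (1, A7.g11), (15, A7.g59),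
     (3, A7.g103), (2, A7.g63)]),
   ((4, 38720), 42,
    [(180, A0.g16), (42, A0.g24), (183, A0.g36), (1, A0.g28), (57, A0.g6), (264, A0.g38),
     (162, A0.g14), (246, A0.g1), (26, A0.g17), (259, A0.g5), (197, A0.g3), (50, A0.g27),
     (91, A0.g39), (296, A0.g23), (20, A8.g96), (10, A8.g24), (1, A8.g68), (3, A8.g76),
     (2, A8.g28), (1, A8.g25), (2, A8.g121), (26, A8.g67), (59, A4.g48), (54, A4.g120),
     (9, A4.g84), (7, A4.g124), (2, A4.g98), (92, A4.g50), (8, A4.g26), (8, A4.g58), (2, A4.g62),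
     (9, A4.g97), (157, A4.g25), (39, A4.g57), (3, A4.g121), (11, A4.g29), (6, A4.g61),
     (1, A4.g125), (126, A4.g83), (11, A4.g51), (11, A4.g39), (7, A4.g87), (129, A2.g16),
     (20, A2.g40), (302, A2.g12), (3, A2.g44), (68, A2.g6), (19, A2.g17), (437, A2.g5),
     (40, A2.g13), (229, A2.g3), (58, A2.g43), (211, A2.g39), (6, A6.g52), (6, A6.g124),
     (1, A6.g90), (111, A6.g58), (16, A6.g86), (15, A6.g62), (64, A6.g49), (16, A6.g89),
     (1, A6.g101), (172, A6.g85), (16, A6.g99), (85, A6.g51), (12, A6.g11), (19, A6.g59),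
     (58, A6.g123), (1, A6.g63), (7, A6.g127), (7, A1.g48), (54, A1.g44), (210, A1.g2),
     (4, A1.g34), (71, A1.g6), (56, A1.g30), (88, A1.g33), (4, A1.g45), (331, A1.g29),
     (34, A1.g3), (9, A1.g7), (1, A9.g27), (1, A5.g108), (53, A5.g66), (8, A5.g106),
     (13, A5.g70), (15, A5.g38), (1, A5.g46), (1, A5.g81), (6, A5.g67), (8, A5.g7), (3, A5.g79),
     (93, A3.g32), (7, A3.g36), (14, A3.g50), (8, A3.g6), (146, A3.g46), (17, A3.g9),
     (51, A3.g5), (116, A3.g35), (7, A3.g47), (474, A3.g31), (14, A7.g82), (11, A7.g42),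
     (9, A7.g70), (17, A7.g113), (5, A7.g9), (10, A7.g73), (168, A7.g69), (2, A7.g85),
     (2, A7.g45), (1, A7.g83), (1, A7.g115), (3, A7.g43)]),
   ((6, 484401), 42,
    [(180, A0.g16), (42, A0.g24), (183, A0.g36), (1, A0.g28), (57, A0.g6), (264, A0.g38),
     (162, A0.g14), (246, A0.g1), (26, A0.g17), (259, A0.g5), (197, A0.g3), (50, A0.g27),
     (91, A0.g39), (296, A0.g23), (20, A8.g96), (10, A8.g24), (1, A8.g68), (3, A8.g76),
     (2, A8.g28), (1, A8.g25), (2, A8.g121), (26, A8.g67), (59, A4.g48), (54, A4.g120),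
     (9, A4.g84), (7, A4.g124), (2, A4.g98), (92, A4.g50), (8, A4.g26), (8, A4.g58), (2, A4.g62),
     (9, A4.g97), (157, A4.g25), (39, A4.g57), (3, A4.g121), (11, A4.g29), (6, A4.g61),
     (1, A4.g125), (126, A4.g83), (11, A4.g51), (11, A4.g39), (7, A4.g87), (129, A2.g16),
     (20, A2.g40), (302, A2.g12), (3, A2.g44), (68, A2.g6), (19, A2.g17), (437, A2.g5),
     (40, A2.g13), (229, A2.g3), (58, A2.g43), (211, A2.g39), (6, A6.g52), (6, A6.g124),
     (1, A6.g90), (111, A6.g58), (16, A6.g86), (15, A6.g62), (64, A6.g49), (16, A6.g89),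
     (1, A6.g101), (172, A6.g85), (16, A6.g99), (85, A6.g51), (12, A6.g11), (19, A6.g59),
     (58, A6.g123), (1, A6.g63), (7, A6.g127), (7, A1.g48), (54, A1.g44), (210, A1.g2),
     (4, A1.g34), (71, A1.g6), (56, A1.g30), (88, A1.g33), (4, A1.g45), (331, A1.g29),
     (34, A1.g3), (9, A1.g7), (1, A9.g27), (1, A5.g108), (53, A5.g66), (8, A5.g106),
     (13, A5.g70), (15, A5.g38), (1, A5.g46), (1, A5.g81), (6, A5.g67), (8, A5.g7), (3, A5.g79),
     (93, A3.g32), (7, A3.g36), (14, A3.g50), (8, A3.g6), (146, A3.g46), (17, A3.g9),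
     (51, A3.g5), (116, A3.g35), (7, A3.g47), (474, A3.g31), (14, A7.g82), (11, A7.g42),
     (9, A7.g70), (17, A7.g113), (5, A7.g9), (10, A7.g73), (168, A7.g69), (2, A7.g85),
     (2, A7.g45), (1, A7.g83), (1, A7.g115), (3, A7.g43)]),
   ((6, 6517776), 52,
    [(343, A0.g4), (279, A0.g20), (1, A0.g28), (616, A0.g2), (409, A0.g42), (71, A0.g26),
     (57, A0.g6), (495, A0.g41), (307, A0.g25), (259, A0.g5), (120, A0.g21), (414, A0.g19),
     (50, A0.g27), (9, A8.g32), (46, A8.g72), (9, A8.g126), (1, A8.g33), (3, A8.g73),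
     (8, A8.g77), (5, A8.g99), (29, A4.g40), (21, A4.g36), (6, A4.g92), (12, A4.g60),
     (286, A4.g34), (92, A4.g54), (1, A4.g94), (2, A4.g62), (124, A4.g53), (8, A4.g93),
     (6, A4.g61), (34, A4.g35), (6, A4.g99), (86, A4.g91), (113, A4.g59), (19, A4.g55),
     (129, A2.g16), (629, A2.g48), (331, A2.g8), (103, A2.g10), (585, A2.g14), (19, A2.g17),
     (478, A2.g9), (103, A2.g15), (21, A6.g96), (7, A6.g56), (3, A6.g100), (1, A6.g20),
     (110, A6.g60), (1, A6.g18), (128, A6.g54), (55, A6.g94), (15, A6.g62), (26, A6.g17),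
     (1, A6.g41), (1, A6.g101), (15, A6.g61), (86, A6.g55), (9, A6.g95), (1, A6.g63),
     (99, A1.g0), (7, A1.g48), (125, A1.g40), (410, A1.g4), (71, A1.g6), (821, A1.g38),
     (114, A1.g46), (9, A1.g41), (134, A1.g5), (9, A1.g7), (146, A1.g39), (13, A1.g47),
     (3, A5.g80), (7, A5.g112), (11, A5.g8), (2, A5.g4), (8, A5.g76), (14, A5.g44), (20, A5.g2),
     (29, A5.g74), (264, A5.g1), (1, A5.g81), (1, A5.g77), (22, A5.g3), (5, A5.g75),
     (145, A3.g0), (128, A3.g48), (10, A3.g8), (590, A3.g40), (9, A3.g2), (14, A3.g50),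
     (102, A3.g42), (154, A3.g1), (18, A3.g49), (17, A3.g9), (98, A3.g41), (13, A3.g43),
     (171, A3.g7), (40, A7.g120), (6, A7.g4), (8, A7.g84), (8, A7.g10), (2, A7.g6), (8, A7.g78),
     (1, A7.g121), (4, A7.g5), (2, A7.g85), (121, A7.g77), (95, A7.g3), (1, A7.g11),
     (28, A7.g79), (7, A7.g47)]),
   ((10, 425360507664), 52,
    [(343, A0.g4), (279, A0.g20), (1, A0.g28), (616, A0.g2), (409, A0.g42), (71, A0.g26),
     (57, A0.g6), (495, A0.g41), (307, A0.g25), (259, A0.g5), (120, A0.g21), (414, A0.g19),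
     (50, A0.g27), (9, A8.g32), (46, A8.g72), (9, A8.g126), (1, A8.g33), (3, A8.g73),
     (8, A8.g77), (5, A8.g99), (29, A4.g40), (21, A4.g36), (6, A4.g92), (12, A4.g60),
     (286, A4.g34), (92, A4.g54), (1, A4.g94), (2, A4.g62), (124, A4.g53), (8, A4.g93),
     (6, A4.g61), (34, A4.g35), (6, A4.g99), (86, A4.g91), (113, A4.g59), (19, A4.g55),
     (129, A2.g16), (629, A2.g48), (331, A2.g8), (103, A2.g10), (585, A2.g14), (19, A2.g17),
     (478, A2.g9), (103, A2.g15), (21, A6.g96), (7, A6.g56), (3, A6.g100), (1, A6.g20),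
     (110, A6.g60), (1, A6.g18), (128, A6.g54), (55, A6.g94), (15, A6.g62), (26, A6.g17),
     (1, A6.g41), (1, A6.g101), (15, A6.g61), (86, A6.g55), (9, A6.g95), (1, A6.g63),
     (99, A1.g0), (7, A1.g48), (125, A1.g40), (410, A1.g4), (71, A1.g6), (821, A1.g38),
     (114, A1.g46), (9, A1.g41), (134, A1.g5), (9, A1.g7), (146, A1.g39), (13, A1.g47),
     (3, A5.g80), (7, A5.g112), (11, A5.g8), (2, A5.g4), (8, A5.g76), (14, A5.g44), (20, A5.g2),
     (29, A5.g74), (264, A5.g1), (1, A5.g81), (1, A5.g77), (22, A5.g3), (5, A5.g75),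
     (145, A3.g0), (128, A3.g48), (10, A3.g8), (590, A3.g40), (9, A3.g2), (14, A3.g50),
     (102, A3.g42), (154, A3.g1), (18, A3.g49), (17, A3.g9), (98, A3.g41), (13, A3.g43),
     (171, A3.g7), (40, A7.g120), (6, A7.g4), (8, A7.g84), (8, A7.g10), (2, A7.g6), (8, A7.g78),
     (1, A7.g121), (4, A7.g5), (2, A7.g85), (121, A7.g77), (95, A7.g3), (1, A7.g11),
     (28, A7.g79), (7, A7.g47)])]

/-- lights 26 -/
noncomputable def plA_26 : List ((ℕ × ℕ) × ℕ × List (ℕ × ℕ)) :=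
  [((0, 0), 26,
    [(360, A0.g0), (42, A0.g24), (43, A0.g12), (1, A0.g28), (61, A0.g34), (57, A0.g6),
     (334, A0.g33), (188, A0.g9), (259, A0.g5), (197, A0.g3), (299, A0.g11), (50, A0.g27),
     (296, A0.g23), (179, A0.g31), (1, A8.g16), (3, A8.g76), (1, A8.g14), (5, A8.g13),
     (7, A4.g12), (2, A4.g98), (5, A4.g114), (20, A4.g74), (8, A4.g58), (10, A4.g46),
     (41, A4.g110), (2, A4.g62), (9, A4.g97), (71, A4.g73), (39, A4.g57), (9, A4.g77),
     (57, A4.g45), (6, A4.g61), (88, A4.g11), (27, A4.g43), (11, A4.g39), (21, A4.g15),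
     (1, A4.g111), (739, A2.g0), (80, A2.g32), (129, A2.g16), (302, A2.g12), (263, A2.g28),
     (122, A2.g1), (3, A2.g33), (19, A2.g17), (40, A2.g13), (63, A2.g29), (53, A6.g112),
     (18, A6.g116), (118, A6.g44), (48, A6.g74), (111, A6.g58), (8, A6.g78), (135, A6.g46),
     (15, A6.g62), (18, A6.g113), (1, A6.g101), (2, A6.g117), (16, A6.g99), (4, A6.g75),
     (19, A6.g59), (1, A6.g79), (19, A6.g47), (1, A6.g63), (7, A1.g48), (54, A1.g44),
     (210, A1.g2), (245, A1.g18), (71, A1.g6), (76, A1.g22), (4, A1.g45), (34, A1.g3),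
     (32, A1.g19), (171, A1.g51), (9, A1.g7), (5, A1.g23), (1, A5.g60), (1, A5.g58), (1, A5.g46),
     (1, A5.g81), (43, A5.g57), (3, A5.g27), (8, A5.g7), (3, A5.g79), (119, A3.g24),
     (235, A3.g20), (14, A3.g50), (8, A3.g6), (146, A3.g46), (17, A3.g9), (11, A3.g25),
     (51, A3.g5), (70, A3.g21), (7, A3.g47), (1, A7.g104), (14, A7.g82), (71, A7.g58),
     (10, A7.g62), (5, A7.g9), (2, A7.g85), (1, A7.g83), (15, A7.g59), (3, A7.g31), (2, A7.g63)]),
   ((4, 38449), 28,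
    [(360, A0.g0), (350, A0.g32), (343, A0.g4), (43, A0.g12), (1, A0.g28), (61, A0.g34),
     (227, A0.g10), (71, A0.g26), (57, A0.g6), (334, A0.g33), (307, A0.g25), (259, A0.g5),
     (299, A0.g11), (50, A0.g27), (1, A8.g16), (8, A8.g77), (4, A8.g15), (37, A8.g63),
     (90, A4.g112), (29, A4.g40), (4, A4.g76), (68, A4.g44), (12, A4.g60), (5, A4.g114),
     (15, A4.g14), (10, A4.g46), (2, A4.g62), (4, A4.g113), (109, A4.g13), (9, A4.g77),
     (57, A4.g45), (6, A4.g61), (6, A4.g99), (81, A4.g75), (113, A4.g59), (21, A4.g15),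
     (739, A2.g0), (80, A2.g32), (129, A2.g16), (585, A2.g14), (342, A2.g30), (122, A2.g1),
     (3, A2.g33), (19, A2.g17), (103, A2.g15), (130, A2.g31), (3, A6.g100), (1, A6.g20),
     (18, A6.g116), (66, A6.g76), (110, A6.g60), (107, A6.g114), (8, A6.g78), (135, A6.g46),
     (15, A6.g62), (3, A6.g1), (1, A6.g101), (2, A6.g117), (4, A6.g77), (72, A6.g45),
     (15, A6.g61), (19, A6.g115), (1, A6.g79), (19, A6.g47), (1, A6.g63), (7, A1.g48),
     (410, A1.g4), (400, A1.g20), (446, A1.g52), (71, A1.g6), (76, A1.g22), (114, A1.g46),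
     (134, A1.g5), (86, A1.g21), (9, A1.g7), (5, A1.g23), (13, A1.g47), (3, A5.g80), (11, A5.g8),
     (7, A5.g28), (1, A5.g60), (11, A5.g97), (1, A5.g81), (56, A5.g59), (128, A3.g48),
     (10, A3.g8), (119, A3.g24), (14, A3.g50), (372, A3.g22), (18, A3.g49), (17, A3.g9),
     (11, A3.g25), (171, A3.g7), (145, A3.g23), (15, A7.g32), (8, A7.g84), (46, A7.g60),
     (8, A7.g10), (10, A7.g62), (1, A7.g33), (2, A7.g85), (8, A7.g61), (1, A7.g11), (2, A7.g63)]),
   ((4, 38720), 41,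
    [(42, A0.g24), (343, A0.g4), (183, A0.g36), (1, A0.g28), (71, A0.g26), (57, A0.g6),
     (317, A0.g22), (162, A0.g14), (246, A0.g1), (26, A0.g17), (546, A0.g37), (197, A0.g3),
     (91, A0.g39), (376, A0.g15), (1, A8.g120), (1, A8.g68), (59, A8.g66), (1, A8.g25),
     (7, A8.g75), (1, A8.g27), (2, A8.g23), (4, A8.g95), (14, A4.g96), (59, A4.g48),
     (70, A4.g24), (74, A4.g56), (9, A4.g84), (23, A4.g28), (12, A4.g60), (2, A4.g98),
     (135, A4.g82), (8, A4.g26), (8, A4.g58), (11, A4.g38), (19, A4.g86), (2, A4.g62),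
     (126, A4.g49), (3, A4.g121), (1, A4.g125), (11, A4.g51), (21, A4.g123), (40, A4.g119),
     (20, A2.g40), (505, A2.g4), (3, A2.g44), (116, A2.g42), (68, A2.g6), (261, A2.g38),
     (19, A2.g17), (40, A2.g13), (229, A2.g3), (244, A2.g11), (103, A2.g15), (7, A6.g88),
     (117, A6.g84), (6, A6.g52), (6, A6.g124), (15, A6.g98), (117, A6.g50), (14, A6.g10),
     (1, A6.g90), (103, A6.g122), (16, A6.g86), (8, A6.g126), (64, A6.g49), (145, A6.g57),
     (1, A6.g13), (15, A6.g61), (19, A6.g59), (1, A6.g63), (117, A1.g32), (274, A1.g28),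
     (4, A1.g34), (56, A1.g30), (262, A1.g1), (134, A1.g5), (4, A1.g45), (34, A1.g3),
     (87, A1.g43), (9, A1.g7), (13, A1.g47), (1, A5.g40), (10, A5.g6), (79, A5.g65),
     (10, A5.g105), (18, A5.g69), (5, A5.g37), (6, A5.g67), (93, A3.g32), (10, A3.g8),
     (116, A3.g4), (7, A3.g36), (121, A3.g34), (8, A3.g6), (215, A3.g30), (18, A3.g49),
     (145, A3.g45), (7, A3.g47), (3, A7.g112), (11, A7.g8), (4, A7.g72), (49, A7.g68),
     (9, A7.g70), (1, A7.g81), (3, A7.g41), (1, A7.g83), (1, A7.g11), (3, A7.g43)]),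
   ((6, 484401), 44,
    [(180, A0.g16), (343, A0.g4), (1, A0.g28), (71, A0.g26), (57, A0.g6), (264, A0.g38),
     (246, A0.g1), (26, A0.g17), (307, A0.g25), (259, A0.g5), (546, A0.g37), (50, A0.g27),
     (91, A0.g39), (376, A0.g15), (2, A8.g28), (3, A8.g26), (1, A8.g122), (1, A8.g97),
     (28, A8.g69), (8, A8.g77), (1, A8.g27), (29, A4.g40), (23, A4.g28), (12, A4.g60),
     (7, A4.g124), (92, A4.g50), (56, A4.g122), (19, A4.g86), (2, A4.g62), (126, A4.g49),
     (198, A4.g85), (11, A4.g29), (6, A4.g61), (1, A4.g125), (6, A4.g99), (11, A4.g51),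
     (117, A4.g27), (113, A4.g59), (21, A4.g123), (7, A4.g87), (129, A2.g16), (505, A2.g4),
     (3, A2.g44), (116, A2.g42), (68, A2.g6), (585, A2.g14), (19, A2.g17), (356, A2.g41),
     (437, A2.g5), (58, A2.g43), (103, A2.g15), (7, A6.g88), (3, A6.g100), (1, A6.g20),
     (6, A6.g52), (4, A6.g12), (110, A6.g60), (117, A6.g50), (1, A6.g90), (15, A6.g62),
     (8, A6.g126), (16, A6.g89), (1, A6.g101), (1, A6.g13), (15, A6.g61), (31, A6.g125),
     (85, A6.g51), (43, A6.g87), (1, A6.g63), (7, A6.g127), (117, A1.g32), (7, A1.g48),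
     (410, A1.g4), (4, A1.g34), (71, A1.g6), (114, A1.g46), (88, A1.g33), (134, A1.g5),
     (9, A1.g7), (13, A1.g47), (319, A1.g31), (3, A5.g80), (11, A5.g8), (1, A5.g40),
     (73, A5.g68), (1, A5.g108), (13, A5.g70), (1, A5.g81), (18, A5.g69), (4, A5.g107),
     (1, A5.g39), (128, A3.g48), (10, A3.g8), (7, A3.g36), (121, A3.g34), (14, A3.g50),
     (251, A3.g33), (18, A3.g49), (17, A3.g9), (116, A3.g35), (171, A3.g7), (4, A7.g72),
     (8, A7.g84), (2, A7.g44), (2, A7.g114), (8, A7.g10), (10, A7.g73), (2, A7.g85), (2, A7.g45),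
     (1, A7.g115), (1, A7.g11), (60, A7.g71)]),
   ((6, 6517776), 49,
    [(352, A0.g40), (42, A0.g24), (343, A0.g4), (1, A0.g28), (616, A0.g2), (485, A0.g18),
     (71, A0.g26), (57, A0.g6), (317, A0.g22), (495, A0.g41), (120, A0.g21), (197, A0.g3),
     (414, A0.g19), (8, A8.g124), (69, A8.g70), (4, A8.g30), (3, A8.g73), (7, A8.g75),
     (14, A4.g96), (69, A4.g88), (74, A4.g56), (82, A4.g52), (6, A4.g92), (12, A4.g60),
     (2, A4.g98), (17, A4.g90), (8, A4.g58), (11, A4.g38), (1, A4.g94), (2, A4.g62),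
     (298, A4.g126), (6, A4.g33), (124, A4.g53), (34, A4.g35), (19, A4.g55), (105, A4.g31),
     (331, A2.g8), (103, A2.g10), (19, A2.g17), (40, A2.g13), (263, A2.g45), (244, A2.g11),
     (291, A2.g7), (103, A2.g15), (48, A2.g47), (7, A6.g56), (15, A6.g98), (128, A6.g54),
     (145, A6.g57), (155, A6.g53), (11, A6.g93), (15, A6.g61), (55, A6.g91), (19, A6.g59),
     (20, A6.g15), (9, A6.g95), (1, A6.g63), (99, A1.g0), (262, A1.g1), (9, A1.g41),
     (134, A1.g5), (62, A1.g37), (4, A1.g45), (34, A1.g3), (349, A1.g35), (87, A1.g43),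
     (9, A1.g7), (146, A1.g39), (13, A1.g47), (18, A5.g0), (2, A5.g4), (20, A5.g2), (8, A5.g42),
     (10, A5.g6), (3, A5.g110), (17, A5.g73), (1, A5.g77), (5, A5.g75), (63, A5.g71),
     (145, A3.g0), (10, A3.g8), (116, A3.g4), (9, A3.g2), (8, A3.g6), (18, A3.g49), (98, A3.g41),
     (442, A3.g37), (145, A3.g45), (13, A3.g43), (93, A3.g39), (7, A3.g47), (49, A7.g0),
     (11, A7.g8), (6, A7.g4), (21, A7.g76), (6, A7.g2), (65, A7.g74), (2, A7.g6), (8, A7.g78),
     (1, A7.g81), (2, A7.g117), (1, A7.g83), (1, A7.g11), (1, A7.g119)]),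
   ((10, 425360507664), 50,
    [(352, A0.g40), (42, A0.g24), (279, A0.g20), (1, A0.g28), (616, A0.g2), (485, A0.g18),
     (409, A0.g42), (57, A0.g6), (259, A0.g5), (120, A0.g21), (197, A0.g3), (50, A0.g27),
     (296, A0.g23), (3, A8.g76), (1, A8.g33), (1, A8.g125), (15, A8.g71), (1, A8.g31),
     (109, A4.g32), (21, A4.g36), (82, A4.g52), (2, A4.g98), (17, A4.g90), (8, A4.g58),
     (92, A4.g54), (1, A4.g94), (2, A4.g62), (6, A4.g33), (9, A4.g97), (39, A4.g89),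
     (39, A4.g57), (8, A4.g93), (6, A4.g61), (11, A4.g39), (19, A4.g55), (130, A4.g127),
     (129, A2.g16), (302, A2.g12), (103, A2.g10), (238, A2.g46), (19, A2.g17), (478, A2.g9),
     (40, A2.g13), (291, A2.g7), (48, A2.g47), (21, A6.g96), (11, A6.g16), (7, A6.g56),
     (49, A6.g92), (1, A6.g18), (111, A6.g58), (15, A6.g62), (1, A6.g101), (155, A6.g53),
     (11, A6.g93), (16, A6.g99), (19, A6.g59), (86, A6.g55), (1, A6.g63), (99, A1.g0),
     (7, A1.g48), (125, A1.g40), (272, A1.g36), (54, A1.g44), (210, A1.g2), (71, A1.g6),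
     (9, A1.g41), (62, A1.g37), (4, A1.g45), (34, A1.g3), (9, A1.g7), (1, A9.g29), (18, A5.g0),
     (68, A5.g72), (2, A5.g4), (8, A5.g76), (1, A5.g46), (1, A5.g81), (17, A5.g73), (1, A5.g77),
     (22, A5.g3), (12, A5.g43), (8, A5.g7), (3, A5.g79), (2, A5.g111), (9, A3.g2), (14, A3.g50),
     (102, A3.g42), (8, A3.g6), (398, A3.g38), (146, A3.g46), (154, A3.g1), (17, A3.g9),
     (51, A3.g5), (13, A3.g43), (93, A3.g39), (7, A3.g47), (21, A7.g76), (6, A7.g2),
     (14, A7.g82), (2, A7.g6), (7, A7.g118), (66, A7.g1), (5, A7.g9), (1, A7.g121), (4, A7.g5),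
     (2, A7.g85), (1, A7.g83), (135, A7.g75), (1, A7.g119), (28, A7.g79)])]

/-- lights 56 -/
noncomputable def plA_56 : List ((ℕ × ℕ) × ℕ × List (ℕ × ℕ)) :=
  [((0, 0), 56,
    [(42, A0.g24), (343, A0.g4), (1, A0.g28), (71, A0.g26), (57, A0.g6), (317, A0.g22),
     (307, A0.g25), (259, A0.g5), (197, A0.g3), (50, A0.g27), (296, A0.g23), (4, A8.g100),
     (3, A8.g76), (6, A8.g34), (66, A8.g74), (8, A8.g77), (7, A8.g75), (4, A8.g127),
     (14, A4.g96), (29, A4.g40), (74, A4.g56), (12, A4.g60), (2, A4.g98), (8, A4.g58),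
     (11, A4.g38), (2, A4.g62), (9, A4.g97), (39, A4.g57), (127, A4.g37), (6, A4.g61),
     (6, A4.g99), (113, A4.g59), (11, A4.g39), (54, A4.g95), (129, A2.g16), (302, A2.g12),
     (585, A2.g14), (19, A2.g17), (40, A2.g13), (244, A2.g11), (103, A2.g15), (3, A6.g100),
     (1, A6.g20), (110, A6.g60), (15, A6.g98), (111, A6.g58), (15, A6.g62), (147, A6.g97),
     (145, A6.g57), (1, A6.g101), (15, A6.g61), (16, A6.g99), (2, A6.g19), (19, A6.g59),
     (1, A6.g63), (7, A1.g48), (410, A1.g4), (54, A1.g44), (210, A1.g2), (263, A1.g42),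
     (71, A1.g6), (114, A1.g46), (262, A1.g1), (134, A1.g5), (4, A1.g45), (34, A1.g3),
     (87, A1.g43), (9, A1.g7), (13, A1.g47), (3, A5.g80), (11, A5.g8), (10, A5.g6), (51, A5.g78),
     (1, A5.g46), (1, A5.g81), (2, A5.g113), (94, A5.g5), (2, A5.g45), (8, A5.g7), (3, A5.g79),
     (128, A3.g48), (10, A3.g8), (116, A3.g4), (269, A3.g44), (14, A3.g50), (8, A3.g6),
     (146, A3.g46), (18, A3.g49), (17, A3.g9), (51, A3.g5), (145, A3.g45), (216, A3.g3),
     (171, A3.g7), (7, A3.g47), (56, A7.g80), (11, A7.g8), (8, A7.g84), (14, A7.g82),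
     (8, A7.g10), (4, A7.g122), (1, A7.g81), (5, A7.g9), (2, A7.g85), (1, A7.g83), (1, A7.g11),
     (31, A7.g7)]),
   ((4, 38449), 56,
    [(42, A0.g24), (343, A0.g4), (1, A0.g28), (71, A0.g26), (57, A0.g6), (317, A0.g22),
     (307, A0.g25), (259, A0.g5), (197, A0.g3), (50, A0.g27), (296, A0.g23), (4, A8.g100),
     (3, A8.g76), (6, A8.g34), (66, A8.g74), (8, A8.g77), (7, A8.g75), (4, A8.g127),
     (14, A4.g96), (29, A4.g40), (74, A4.g56), (12, A4.g60), (2, A4.g98), (8, A4.g58),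
     (11, A4.g38), (2, A4.g62), (9, A4.g97), (39, A4.g57), (127, A4.g37), (6, A4.g61),
     (6, A4.g99), (113, A4.g59), (11, A4.g39), (54, A4.g95), (129, A2.g16), (302, A2.g12),
     (585, A2.g14), (19, A2.g17), (40, A2.g13), (244, A2.g11), (103, A2.g15), (3, A6.g100),
     (1, A6.g20), (110, A6.g60), (15, A6.g98), (111, A6.g58), (15, A6.g62), (147, A6.g97),
     (145, A6.g57), (1, A6.g101), (15, A6.g61), (16, A6.g99), (2, A6.g19), (19, A6.g59),
     (1, A6.g63), (7, A1.g48), (410, A1.g4), (54, A1.g44), (210, A1.g2), (263, A1.g42),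
     (71, A1.g6), (114, A1.g46), (262, A1.g1), (134, A1.g5), (4, A1.g45), (34, A1.g3),
     (87, A1.g43), (9, A1.g7), (13, A1.g47), (3, A5.g80), (11, A5.g8), (10, A5.g6), (51, A5.g78),
     (1, A5.g46), (1, A5.g81), (2, A5.g113), (94, A5.g5), (2, A5.g45), (8, A5.g7), (3, A5.g79),
     (128, A3.g48), (10, A3.g8), (116, A3.g4), (269, A3.g44), (14, A3.g50), (8, A3.g6),
     (146, A3.g46), (18, A3.g49), (17, A3.g9), (51, A3.g5), (145, A3.g45), (216, A3.g3),
     (171, A3.g7), (7, A3.g47), (56, A7.g80), (11, A7.g8), (8, A7.g84), (14, A7.g82),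
     (8, A7.g10), (4, A7.g122), (1, A7.g81), (5, A7.g9), (2, A7.g85), (1, A7.g83), (1, A7.g11),
     (31, A7.g7)]),
   ((4, 38720), 56,
    [(42, A0.g24), (343, A0.g4), (1, A0.g28), (71, A0.g26), (57, A0.g6), (317, A0.g22),
     (307, A0.g25), (259, A0.g5), (197, A0.g3), (50, A0.g27), (296, A0.g23), (4, A8.g100),
     (3, A8.g76), (6, A8.g34), (66, A8.g74), (8, A8.g77), (7, A8.g75), (4, A8.g127),
     (14, A4.g96), (29, A4.g40), (74, A4.g56), (12, A4.g60), (2, A4.g98), (8, A4.g58),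
     (11, A4.g38), (2, A4.g62), (9, A4.g97), (39, A4.g57), (127, A4.g37), (6, A4.g61),
     (6, A4.g99), (113, A4.g59), (11, A4.g39), (54, A4.g95), (129, A2.g16), (302, A2.g12),
     (585, A2.g14), (19, A2.g17), (40, A2.g13), (244, A2.g11), (103, A2.g15), (3, A6.g100),
     (1, A6.g20), (110, A6.g60), (15, A6.g98), (111, A6.g58), (15, A6.g62), (147, A6.g97),
     (145, A6.g57), (1, A6.g101), (15, A6.g61), (16, A6.g99), (2, A6.g19), (19, A6.g59),
     (1, A6.g63), (7, A1.g48), (410, A1.g4), (54, A1.g44), (210, A1.g2), (263, A1.g42),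
     (71, A1.g6), (114, A1.g46), (262, A1.g1), (134, A1.g5), (4, A1.g45), (34, A1.g3),
     (87, A1.g43), (9, A1.g7), (13, A1.g47), (3, A5.g80), (11, A5.g8), (10, A5.g6), (51, A5.g78),
     (1, A5.g46), (1, A5.g81), (2, A5.g113), (94, A5.g5), (2, A5.g45), (8, A5.g7), (3, A5.g79),
     (128, A3.g48), (10, A3.g8), (116, A3.g4), (269, A3.g44), (14, A3.g50), (8, A3.g6),
     (146, A3.g46), (18, A3.g49), (17, A3.g9), (51, A3.g5), (145, A3.g45), (216, A3.g3),
     (171, A3.g7), (7, A3.g47), (56, A7.g80), (11, A7.g8), (8, A7.g84), (14, A7.g82),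
     (8, A7.g10), (4, A7.g122), (1, A7.g81), (5, A7.g9), (2, A7.g85), (1, A7.g83), (1, A7.g11),
     (31, A7.g7)]),
   ((6, 484401), 56,
    [(42, A0.g24), (343, A0.g4), (1, A0.g28), (71, A0.g26), (57, A0.g6), (317, A0.g22),
     (307, A0.g25), (259, A0.g5), (197, A0.g3), (50, A0.g27), (296, A0.g23), (4, A8.g100),
     (3, A8.g76), (6, A8.g34), (66, A8.g74), (8, A8.g77), (7, A8.g75), (4, A8.g127),
     (14, A4.g96), (29, A4.g40), (74, A4.g56), (12, A4.g60), (2, A4.g98), (8, A4.g58),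
     (11, A4.g38), (2, A4.g62), (9, A4.g97), (39, A4.g57), (127, A4.g37), (6, A4.g61),
     (6, A4.g99), (113, A4.g59), (11, A4.g39), (54, A4.g95), (129, A2.g16), (302, A2.g12),
     (585, A2.g14), (19, A2.g17), (40, A2.g13), (244, A2.g11), (103, A2.g15), (3, A6.g100),
     (1, A6.g20), (110, A6.g60), (15, A6.g98), (111, A6.g58), (15, A6.g62), (147, A6.g97),
     (145, A6.g57), (1, A6.g101), (15, A6.g61), (16, A6.g99), (2, A6.g19), (19, A6.g59),
     (1, A6.g63), (7, A1.g48), (410, A1.g4), (54, A1.g44), (210, A1.g2), (263, A1.g42),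
     (71, A1.g6), (114, A1.g46), (262, A1.g1), (134, A1.g5), (4, A1.g45), (34, A1.g3),
     (87, A1.g43), (9, A1.g7), (13, A1.g47), (3, A5.g80), (11, A5.g8), (10, A5.g6), (51, A5.g78),
     (1, A5.g46), (1, A5.g81), (2, A5.g113), (94, A5.g5), (2, A5.g45), (8, A5.g7), (3, A5.g79),
     (128, A3.g48), (10, A3.g8), (116, A3.g4), (269, A3.g44), (14, A3.g50), (8, A3.g6),
     (146, A3.g46), (18, A3.g49), (17, A3.g9), (51, A3.g5), (145, A3.g45), (216, A3.g3),
     (171, A3.g7), (7, A3.g47), (56, A7.g80), (11, A7.g8), (8, A7.g84), (14, A7.g82),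
     (8, A7.g10), (4, A7.g122), (1, A7.g81), (5, A7.g9), (2, A7.g85), (1, A7.g83), (1, A7.g11),
     (31, A7.g7)]),
   ((6, 6517776), 56,
    [(42, A0.g24), (343, A0.g4), (1, A0.g28), (71, A0.g26), (57, A0.g6), (317, A0.g22),
     (307, A0.g25), (259, A0.g5), (197, A0.g3), (50, A0.g27), (296, A0.g23), (4, A8.g100),
     (3, A8.g76), (6, A8.g34), (66, A8.g74), (8, A8.g77), (7, A8.g75), (4, A8.g127),
     (14, A4.g96), (29, A4.g40), (74, A4.g56), (12, A4.g60), (2, A4.g98), (8, A4.g58),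
     (11, A4.g38), (2, A4.g62), (9, A4.g97), (39, A4.g57), (127, A4.g37), (6, A4.g61),
     (6, A4.g99), (113, A4.g59), (11, A4.g39), (54, A4.g95), (129, A2.g16), (302, A2.g12),
     (585, A2.g14), (19, A2.g17), (40, A2.g13), (244, A2.g11), (103, A2.g15), (3, A6.g100),
     (1, A6.g20), (110, A6.g60), (15, A6.g98), (111, A6.g58), (15, A6.g62), (147, A6.g97),
     (145, A6.g57), (1, A6.g101), (15, A6.g61), (16, A6.g99), (2, A6.g19), (19, A6.g59),
     (1, A6.g63), (7, A1.g48), (410, A1.g4), (54, A1.g44), (210, A1.g2), (263, A1.g42),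
     (71, A1.g6), (114, A1.g46), (262, A1.g1), (134, A1.g5), (4, A1.g45), (34, A1.g3),
     (87, A1.g43), (9, A1.g7), (13, A1.g47), (3, A5.g80), (11, A5.g8), (10, A5.g6), (51, A5.g78),
     (1, A5.g46), (1, A5.g81), (2, A5.g113), (94, A5.g5), (2, A5.g45), (8, A5.g7), (3, A5.g79),
     (128, A3.g48), (10, A3.g8), (116, A3.g4), (269, A3.g44), (14, A3.g50), (8, A3.g6),
     (146, A3.g46), (18, A3.g49), (17, A3.g9), (51, A3.g5), (145, A3.g45), (216, A3.g3),
     (171, A3.g7), (7, A3.g47), (56, A7.g80), (11, A7.g8), (8, A7.g84), (14, A7.g82),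
     (8, A7.g10), (4, A7.g122), (1, A7.g81), (5, A7.g9), (2, A7.g85), (1, A7.g83), (1, A7.g11),
     (31, A7.g7)]),
   ((10, 425360507664), 56,
    [(42, A0.g24), (343, A0.g4), (1, A0.g28), (71, A0.g26), (57, A0.g6), (317, A0.g22),
     (307, A0.g25), (259, A0.g5), (197, A0.g3), (50, A0.g27), (296, A0.g23), (4, A8.g100),
     (3, A8.g76), (6, A8.g34), (66, A8.g74), (8, A8.g77), (7, A8.g75), (4, A8.g127),
     (14, A4.g96), (29, A4.g40), (74, A4.g56), (12, A4.g60), (2, A4.g98), (8, A4.g58),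
     (11, A4.g38), (2, A4.g62), (9, A4.g97), (39, A4.g57), (127, A4.g37), (6, A4.g61),
     (6, A4.g99), (113, A4.g59), (11, A4.g39), (54, A4.g95), (129, A2.g16), (302, A2.g12),
     (585, A2.g14), (19, A2.g17), (40, A2.g13), (244, A2.g11), (103, A2.g15), (3, A6.g100),
     (1, A6.g20), (110, A6.g60), (15, A6.g98), (111, A6.g58), (15, A6.g62), (147, A6.g97),
     (145, A6.g57), (1, A6.g101), (15, A6.g61), (16, A6.g99), (2, A6.g19), (19, A6.g59),
     (1, A6.g63), (7, A1.g48), (410, A1.g4), (54, A1.g44), (210, A1.g2), (263, A1.g42),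
     (71, A1.g6), (114, A1.g46), (262, A1.g1), (134, A1.g5), (4, A1.g45), (34, A1.g3),
     (87, A1.g43), (9, A1.g7), (13, A1.g47), (3, A5.g80), (11, A5.g8), (10, A5.g6), (51, A5.g78),
     (1, A5.g46), (1, A5.g81), (2, A5.g113), (94, A5.g5), (2, A5.g45), (8, A5.g7), (3, A5.g79),
     (128, A3.g48), (10, A3.g8), (116, A3.g4), (269, A3.g44), (14, A3.g50), (8, A3.g6),
     (146, A3.g46), (18, A3.g49), (17, A3.g9), (51, A3.g5), (145, A3.g45), (216, A3.g3),
     (171, A3.g7), (7, A3.g47), (56, A7.g80), (11, A7.g8), (8, A7.g84), (14, A7.g82),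
     (8, A7.g10), (4, A7.g122), (1, A7.g81), (5, A7.g9), (2, A7.g85), (1, A7.g83), (1, A7.g11),
     (31, A7.g7)])]

/-- lights 67 -/
noncomputable def plA_67 : List ((ℕ × ℕ) × ℕ × List (ℕ × ℕ)) :=
  [((0, 0), 67,
    [(387, A0.g8), (42, A0.g24), (43, A0.g12), (1, A0.g28), (485, A0.g18), (162, A0.g14),
     (26, A0.g17), (188, A0.g9), (120, A0.g21), (316, A0.g13), (206, A0.g7), (7, A8.g78),
     (11, A8.g37), (43, A4.g64), (8, A4.g8), (39, A4.g4), (55, A4.g68), (9, A4.g84), (7, A4.g12),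
     (2, A4.g98), (30, A4.g18), (20, A4.g74), (8, A4.g26), (17, A4.g90), (4, A4.g22),
     (153, A4.g78), (1, A4.g94), (1, A4.g1), (6, A4.g33), (12, A4.g81), (5, A4.g67),
     (15, A4.g71), (119, A4.g63), (20, A2.g40), (3, A2.g44), (122, A2.g34), (315, A2.g18),
     (71, A2.g26), (40, A2.g22), (3, A2.g33), (59, A2.g37), (63, A2.g29), (120, A2.g19),
     (97, A2.g23), (48, A2.g47), (67, A6.g64), (98, A6.g80), (14, A6.g72), (3, A6.g68),
     (1, A6.g90), (2, A6.g38), (16, A6.g86), (18, A6.g65), (48, A6.g69), (11, A6.g93),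
     (13, A6.g83), (4, A6.g75), (1, A6.g27), (5, A6.g23), (1, A6.g79), (71, A1.g16),
     (804, A1.g8), (244, A1.g24), (33, A1.g12), (4, A1.g34), (56, A1.g30), (141, A1.g9),
     (9, A1.g41), (62, A1.g37), (283, A1.g13), (4, A1.g45), (32, A1.g19), (97, A1.g27),
     (5, A1.g23), (3, A5.g88), (2, A5.g100), (23, A5.g12), (26, A5.g82), (37, A5.g9),
     (6, A5.g21), (11, A5.g85), (1, A5.g35), (4, A5.g15), (17, A5.g31), (9, A3.g2), (8, A3.g6),
     (72, A3.g54), (25, A3.g57), (161, A3.g51), (6, A7.g24), (2, A7.g36), (56, A7.g12),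
     (1, A7.g28), (2, A7.g92), (1, A7.g98), (9, A7.g18), (29, A7.g86), (8, A7.g89), (3, A7.g43),
     (5, A7.g107), (1, A7.g119), (29, A7.g15)]),
   ((4, 38449), 133,
    [(350, A0.g32), (61, A0.g34), (613, A0.g30), (495, A0.g41), (546, A0.g37), (363, A0.g29),
     (409, A0.g35), (91, A0.g39), (2, A8.g20), (2, A8.g118), (8, A8.g9), (46, A8.g101),
     (2, A8.g53), (6, A8.g3), (5, A8.g107), (1, A8.g27), (13, A8.g39), (3, A8.g103), (1, A8.g47),
     (8, A4.g8), (9, A4.g104), (127, A4.g100), (88, A4.g20), (168, A4.g116), (9, A4.g108),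
     (23, A4.g28), (70, A4.g106), (97, A4.g6), (56, A4.g102), (4, A4.g22), (22, A4.g118),
     (15, A4.g14), (1, A4.g1), (4, A4.g113), (1, A4.g125), (34, A4.g35), (21, A4.g123),
     (1, A6.g8), (107, A6.g104), (70, A6.g108), (17, A6.g106), (10, A6.g6), (37, A6.g102),
     (21, A6.g110), (1, A6.g30), (8, A6.g126), (3, A6.g25), (1, A6.g121), (2, A6.g117),
     (1, A6.g13), (19, A6.g115), (1, A6.g27), (58, A6.g119), (99, A1.g0), (117, A1.g32),
     (71, A1.g16), (804, A1.g8), (33, A1.g12), (4, A1.g34), (310, A1.g10), (397, A1.g14),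
     (9, A1.g41), (365, A1.g25), (134, A1.g5), (86, A1.g21), (97, A1.g27), (9, A1.g7),
     (146, A1.g39), (5, A1.g23), (13, A1.g47), (2, A9.g3), (1, A5.g40), (2, A5.g4), (23, A5.g12),
     (20, A5.g2), (59, A5.g10), (14, A5.g33), (11, A5.g17), (1, A5.g121), (7, A5.g117),
     (1, A5.g35), (21, A5.g115), (17, A5.g23), (339, A3.g16), (7, A3.g36), (401, A3.g52),
     (223, A3.g12), (121, A3.g34), (84, A3.g18), (489, A3.g10), (72, A3.g54), (107, A3.g14),
     (18, A3.g49), (98, A3.g41), (11, A3.g25), (96, A3.g29), (13, A3.g43), (365, A3.g27),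
     (68, A3.g59), (145, A3.g23), (6, A7.g4), (10, A7.g20), (1, A7.g28), (66, A7.g124),
     (7, A7.g26), (2, A7.g6), (7, A7.g38), (9, A7.g126), (1, A7.g33), (88, A7.g13), (1, A7.g11),
     (29, A7.g15)]),
   ((4, 38720), 67,
    [(387, A0.g8), (42, A0.g24), (43, A0.g12), (1, A0.g28), (485, A0.g18), (162, A0.g14),
     (26, A0.g17), (188, A0.g9), (120, A0.g21), (316, A0.g13), (206, A0.g7), (7, A8.g78),
     (11, A8.g37), (43, A4.g64), (8, A4.g8), (39, A4.g4), (55, A4.g68), (9, A4.g84), (7, A4.g12),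
     (2, A4.g98), (30, A4.g18), (20, A4.g74), (8, A4.g26), (17, A4.g90), (4, A4.g22),
     (153, A4.g78), (1, A4.g94), (1, A4.g1), (6, A4.g33), (12, A4.g81), (5, A4.g67),
     (15, A4.g71), (119, A4.g63), (20, A2.g40), (3, A2.g44), (122, A2.g34), (315, A2.g18),
     (71, A2.g26), (40, A2.g22), (3, A2.g33), (59, A2.g37), (63, A2.g29), (120, A2.g19),
     (97, A2.g23), (48, A2.g47), (67, A6.g64), (98, A6.g80), (14, A6.g72), (3, A6.g68),
     (1, A6.g90), (2, A6.g38), (16, A6.g86), (18, A6.g65), (48, A6.g69), (11, A6.g93),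
     (13, A6.g83), (4, A6.g75), (1, A6.g27), (5, A6.g23), (1, A6.g79), (71, A1.g16),
     (804, A1.g8), (244, A1.g24), (33, A1.g12), (4, A1.g34), (56, A1.g30), (141, A1.g9),
     (9, A1.g41), (62, A1.g37), (283, A1.g13), (4, A1.g45), (32, A1.g19), (97, A1.g27),
     (5, A1.g23), (3, A5.g88), (2, A5.g100), (23, A5.g12), (26, A5.g82), (37, A5.g9),
     (6, A5.g21), (11, A5.g85), (1, A5.g35), (4, A5.g15), (17, A5.g31), (9, A3.g2), (8, A3.g6),
     (72, A3.g54), (25, A3.g57), (161, A3.g51), (6, A7.g24), (2, A7.g36), (56, A7.g12),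
     (1, A7.g28), (2, A7.g92), (1, A7.g98), (9, A7.g18), (29, A7.g86), (8, A7.g89), (3, A7.g43),
     (5, A7.g107), (1, A7.g119), (29, A7.g15)]),
   ((6, 484401), 262,
    [(1, A8.g16), (9, A8.g40), (8, A8.g4), (2, A8.g28), (12, A8.g10), (1, A8.g33), (4, A8.g21),
     (73, A4.g0), (8, A4.g8), (21, A4.g36), (4, A4.g22), (1, A4.g1), (68, A4.g21), (11, A4.g29),
     (63, A4.g7), (21, A4.g15), (739, A2.g0), (80, A2.g32), (129, A2.g16), (197, A2.g36),
     (3, A2.g44), (506, A2.g2), (315, A2.g18), (103, A2.g10), (71, A2.g26), (68, A2.g6),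
     (40, A2.g22), (122, A2.g1), (3, A2.g33), (19, A2.g17), (478, A2.g9), (336, A2.g25),
     (437, A2.g5), (59, A2.g37), (142, A2.g21), (58, A2.g43), (1, A6.g8), (1, A6.g18),
     (8, A6.g26), (1, A6.g27), (5, A6.g7), (413, A1.g50), (295, A1.g49), (12, A9.g15),
     (14, A5.g64), (44, A5.g84), (26, A5.g116), (8, A5.g76), (1, A5.g108), (1, A5.g60),
     (35, A5.g50), (13, A5.g70), (56, A5.g54), (2, A5.g126), (1, A5.g81), (11, A5.g85),
     (7, A5.g117), (1, A5.g77), (14, A5.g51), (6, A5.g91), (5, A5.g103), (15, A5.g55),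
     (42, A5.g47), (36, A5.g63), (119, A3.g24), (7, A3.g36), (287, A3.g28), (9, A3.g2),
     (84, A3.g18), (14, A3.g50), (489, A3.g10), (102, A3.g42), (72, A3.g54), (107, A3.g14),
     (154, A3.g1), (311, A3.g17), (17, A3.g9), (11, A3.g25), (366, A3.g53), (356, A3.g13),
     (96, A3.g29), (116, A3.g35), (13, A3.g43), (41, A7.g48), (95, A7.g88), (17, A7.g56),
     (7, A7.g52), (45, A7.g66), (7, A7.g110), (10, A7.g62), (9, A7.g126), (10, A7.g73),
     (8, A7.g89), (1, A7.g121), (2, A7.g101), (2, A7.g85), (52, A7.g125), (16, A7.g67),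
     (76, A7.g51), (1, A7.g115), (87, A7.g55), (28, A7.g79), (2, A7.g95), (2, A7.g63)]),
   ((6, 6517776), 133,
    [(350, A0.g32), (61, A0.g34), (613, A0.g30), (495, A0.g41), (546, A0.g37), (363, A0.g29),
     (409, A0.g35), (91, A0.g39), (2, A8.g20), (2, A8.g118), (8, A8.g9), (46, A8.g101),
     (2, A8.g53), (6, A8.g3), (5, A8.g107), (1, A8.g27), (13, A8.g39), (3, A8.g103), (1, A8.g47),
     (8, A4.g8), (9, A4.g104), (127, A4.g100), (88, A4.g20), (168, A4.g116), (9, A4.g108),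
     (23, A4.g28), (70, A4.g106), (97, A4.g6), (56, A4.g102), (4, A4.g22), (22, A4.g118),
     (15, A4.g14), (1, A4.g1), (4, A4.g113), (1, A4.g125), (34, A4.g35), (21, A4.g123),
     (1, A6.g8), (107, A6.g104), (70, A6.g108), (17, A6.g106), (10, A6.g6), (37, A6.g102),
     (21, A6.g110), (1, A6.g30), (8, A6.g126), (3, A6.g25), (1, A6.g121), (2, A6.g117),
     (1, A6.g13), (19, A6.g115), (1, A6.g27), (58, A6.g119), (99, A1.g0), (117, A1.g32),
     (71, A1.g16), (804, A1.g8), (33, A1.g12), (4, A1.g34), (310, A1.g10), (397, A1.g14),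
     (9, A1.g41), (365, A1.g25), (134, A1.g5), (86, A1.g21), (97, A1.g27), (9, A1.g7),
     (146, A1.g39), (5, A1.g23), (13, A1.g47), (2, A9.g3), (1, A5.g40), (2, A5.g4), (23, A5.g12),
     (20, A5.g2), (59, A5.g10), (14, A5.g33), (11, A5.g17), (1, A5.g121), (7, A5.g117),
     (1, A5.g35), (21, A5.g115), (17, A5.g23), (339, A3.g16), (7, A3.g36), (401, A3.g52),
     (223, A3.g12), (121, A3.g34), (84, A3.g18), (489, A3.g10), (72, A3.g54), (107, A3.g14),
     (18, A3.g49), (98, A3.g41), (11, A3.g25), (96, A3.g29), (13, A3.g43), (365, A3.g27),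
     (68, A3.g59), (145, A3.g23), (6, A7.g4), (10, A7.g20), (1, A7.g28), (66, A7.g124),
     (7, A7.g26), (2, A7.g6), (7, A7.g38), (9, A7.g126), (1, A7.g33), (88, A7.g13), (1, A7.g11),
     (29, A7.g15)]),
   ((10, 425360507664), 262,
    [(1, A8.g16), (9, A8.g40), (8, A8.g4), (2, A8.g28), (12, A8.g10), (1, A8.g33), (4, A8.g21),
     (73, A4.g0), (8, A4.g8), (21, A4.g36), (4, A4.g22), (1, A4.g1), (68, A4.g21), (11, A4.g29),
     (63, A4.g7), (21, A4.g15), (739, A2.g0), (80, A2.g32), (129, A2.g16), (197, A2.g36),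
     (3, A2.g44), (506, A2.g2), (315, A2.g18), (103, A2.g10), (71, A2.g26), (68, A2.g6),
     (40, A2.g22), (122, A2.g1), (3, A2.g33), (19, A2.g17), (478, A2.g9), (336, A2.g25),
     (437, A2.g5), (59, A2.g37), (142, A2.g21), (58, A2.g43), (1, A6.g8), (1, A6.g18),
     (8, A6.g26), (1, A6.g27), (5, A6.g7), (413, A1.g50), (295, A1.g49), (12, A9.g15),
     (14, A5.g64), (44, A5.g84), (26, A5.g116), (8, A5.g76), (1, A5.g108), (1, A5.g60),
     (35, A5.g50), (13, A5.g70), (56, A5.g54), (2, A5.g126), (1, A5.g81), (11, A5.g85),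
     (7, A5.g117), (1, A5.g77), (14, A5.g51), (6, A5.g91), (5, A5.g103), (15, A5.g55),
     (42, A5.g47), (36, A5.g63), (119, A3.g24), (7, A3.g36), (287, A3.g28), (9, A3.g2),
     (84, A3.g18), (14, A3.g50), (489, A3.g10), (102, A3.g42), (72, A3.g54), (107, A3.g14),
     (154, A3.g1), (311, A3.g17), (17, A3.g9), (11, A3.g25), (366, A3.g53), (356, A3.g13),
     (96, A3.g29), (116, A3.g35), (13, A3.g43), (41, A7.g48), (95, A7.g88), (17, A7.g56),
     (7, A7.g52), (45, A7.g66), (7, A7.g110), (10, A7.g62), (9, A7.g126), (10, A7.g73),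
     (8, A7.g89), (1, A7.g121), (2, A7.g101), (2, A7.g85), (52, A7.g125), (16, A7.g67),
     (76, A7.g51), (1, A7.g115), (87, A7.g55), (28, A7.g79), (2, A7.g95), (2, A7.g63)])]

/-- lights 69 -/
noncomputable def plA_69 : List ((ℕ × ℕ) × ℕ × List (ℕ × ℕ)) :=
  [((0, 0), 69,
    [(387, A0.g8), (43, A0.g12), (1, A0.g28), (227, A0.g10), (71, A0.g26), (26, A0.g17),
     (120, A0.g21), (316, A0.g13), (414, A0.g19), (206, A0.g7), (376, A0.g15), (2, A8.g53),
     (4, A8.g93), (13, A8.g39), (6, A8.g79), (1, A8.g47), (8, A4.g8), (88, A4.g20), (4, A4.g76),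
     (23, A4.g28), (6, A4.g92), (97, A4.g6), (4, A4.g22), (19, A4.g86), (15, A4.g14),
     (1, A4.g94), (1, A4.g1), (92, A4.g65), (12, A4.g81), (50, A4.g69), (5, A4.g67),
     (34, A4.g35), (15, A4.g71), (270, A4.g79), (119, A4.g63), (331, A2.g24), (433, A2.g20),
     (3, A2.g44), (315, A2.g18), (116, A2.g42), (71, A2.g26), (40, A2.g22), (3, A2.g33),
     (59, A2.g37), (462, A2.g35), (130, A2.g31), (67, A6.g64), (14, A6.g72), (7, A6.g88),
     (3, A6.g68), (76, A6.g66), (1, A6.g90), (12, A6.g70), (1, A6.g30), (70, A6.g81),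
     (3, A6.g25), (4, A6.g77), (13, A6.g83), (1, A6.g27), (1, A6.g79), (9, A6.g95),
     (117, A1.g32), (71, A1.g16), (804, A1.g8), (33, A1.g12), (4, A1.g34), (310, A1.g10),
     (397, A1.g14), (9, A1.g41), (365, A1.g25), (86, A1.g21), (97, A1.g27), (146, A1.g39),
     (5, A1.g23), (13, A1.g47), (2, A9.g33), (2, A9.g3), (1, A5.g40), (23, A5.g12), (59, A5.g10),
     (13, A5.g90), (17, A5.g102), (14, A5.g33), (11, A5.g17), (11, A5.g85), (1, A5.g35),
     (47, A5.g83), (17, A5.g23), (145, A3.g0), (10, A3.g8), (401, A3.g52), (9, A3.g2),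
     (72, A3.g54), (68, A3.g59), (1, A7.g100), (10, A7.g20), (1, A7.g28), (7, A7.g26),
     (7, A7.g38), (1, A7.g94), (1, A7.g33), (8, A7.g89), (88, A7.g13), (20, A7.g109),
     (83, A7.g87), (29, A7.g15)]),
   ((4, 38449), 131,
    [(352, A0.g40), (183, A0.g36), (61, A0.g34), (613, A0.g30), (363, A0.g29), (409, A0.g35),
     (91, A0.g39), (179, A0.g31), (2, A8.g116), (1, A8.g14), (4, A8.g1), (1, A8.g25),
     (11, A8.g37), (19, A8.g7), (3, A8.g103), (8, A4.g8), (9, A4.g104), (39, A4.g4),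
     (127, A4.g100), (7, A4.g12), (9, A4.g108), (30, A4.g18), (8, A4.g26), (4, A4.g22),
     (22, A4.g118), (1, A4.g1), (6, A4.g33), (53, A4.g105), (3, A4.g121), (15, A4.g101),
     (1, A4.g125), (113, A4.g115), (1, A4.g111), (1, A6.g8), (31, A6.g4), (6, A6.g124),
     (17, A6.g106), (2, A6.g38), (37, A6.g102), (72, A6.g118), (21, A6.g110), (18, A6.g113),
     (1, A6.g121), (2, A6.g117), (126, A6.g107), (1, A6.g27), (49, A6.g103), (5, A6.g23),
     (99, A1.g0), (71, A1.g16), (804, A1.g8), (244, A1.g24), (33, A1.g12), (4, A1.g34),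
     (56, A1.g30), (141, A1.g9), (9, A1.g41), (62, A1.g37), (283, A1.g13), (4, A1.g45),
     (34, A1.g3), (32, A1.g19), (97, A1.g27), (9, A1.g7), (5, A1.g23), (1, A9.g45), (18, A5.g0),
     (2, A5.g4), (23, A5.g12), (5, A5.g124), (38, A5.g114), (37, A5.g9), (6, A5.g21),
     (7, A5.g117), (1, A5.g35), (4, A5.g15), (17, A5.g31), (93, A3.g32), (7, A3.g36),
     (84, A3.g18), (489, A3.g10), (336, A3.g26), (72, A3.g54), (107, A3.g14), (11, A3.g25),
     (25, A3.g57), (70, A3.g21), (96, A3.g29), (161, A3.g51), (227, A3.g11), (13, A3.g43),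
     (93, A3.g39), (272, A3.g15), (7, A3.g47), (6, A7.g24), (2, A7.g36), (56, A7.g12),
     (1, A7.g28), (6, A7.g2), (9, A7.g18), (2, A7.g6), (9, A7.g126), (3, A7.g43), (82, A7.g123),
     (29, A7.g15)]),
   ((4, 38720), 70,
    [(180, A0.g16), (387, A0.g8), (279, A0.g20), (43, A0.g12), (1, A0.g28), (26, A0.g17),
     (120, A0.g21), (316, A0.g13), (299, A0.g11), (50, A0.g27), (206, A0.g7), (2, A8.g80),
     (9, A8.g40), (1, A8.g84), (73, A4.g0), (124, A4.g80), (8, A4.g8), (21, A4.g36),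
     (65, A4.g66), (68, A4.g70), (4, A4.g22), (1, A4.g94), (1, A4.g1), (12, A4.g81),
     (68, A4.g21), (9, A4.g77), (11, A4.g29), (8, A4.g93), (5, A4.g67), (63, A4.g7),
     (15, A4.g71), (7, A4.g87), (21, A4.g15), (119, A4.g63), (80, A2.g32), (197, A2.g36),
     (3, A2.g44), (315, A2.g18), (71, A2.g26), (40, A2.g22), (3, A2.g33), (336, A2.g25),
     (59, A2.g37), (142, A2.g21), (58, A2.g43), (67, A6.g64), (21, A6.g96), (14, A6.g72),
     (3, A6.g68), (50, A6.g82), (8, A6.g26), (1, A6.g90), (8, A6.g78), (16, A6.g89),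
     (1, A6.g101), (82, A6.g67), (13, A6.g83), (1, A6.g27), (46, A6.g71), (1, A6.g79),
     (71, A1.g16), (7, A1.g48), (804, A1.g8), (125, A1.g40), (33, A1.g12), (4, A1.g34),
     (377, A1.g26), (76, A1.g22), (88, A1.g33), (9, A1.g41), (333, A1.g11), (97, A1.g27),
     (5, A1.g23), (473, A1.g15), (2, A9.g4), (29, A5.g24), (44, A5.g84), (23, A5.g12),
     (1, A5.g108), (11, A5.g34), (6, A5.g18), (11, A5.g85), (1, A5.g35), (143, A5.g11),
     (6, A5.g91), (5, A5.g103), (9, A3.g2), (72, A3.g54), (154, A3.g1), (17, A3.g9),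
     (366, A3.g53), (95, A7.g88), (1, A7.g28), (130, A7.g14), (7, A7.g110), (8, A7.g89),
     (1, A7.g121), (2, A7.g101), (27, A7.g21), (2, A7.g45), (1, A7.g115), (4, A7.g27),
     (6, A7.g39), (29, A7.g15), (2, A7.g95)]),
   ((6, 484401), 259,
    [(1, A8.g14), (4, A8.g1), (1, A8.g25), (11, A8.g37), (19, A8.g7), (8, A4.g8), (39, A4.g4),
     (7, A4.g12), (30, A4.g18), (8, A4.g26), (4, A4.g22), (1, A4.g1), (6, A4.g33), (20, A2.g40),
     (3, A2.g44), (506, A2.g2), (122, A2.g34), (315, A2.g18), (103, A2.g10), (71, A2.g26),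
     (68, A2.g6), (40, A2.g22), (122, A2.g1), (3, A2.g33), (19, A2.g17), (59, A2.g37),
     (40, A2.g13), (63, A2.g29), (229, A2.g3), (120, A2.g19), (291, A2.g7), (97, A2.g23),
     (48, A2.g47), (1, A6.g8), (31, A6.g4), (2, A6.g38), (1, A6.g27), (5, A6.g23), (413, A1.g50),
     (295, A1.g49), (171, A1.g51), (1, A9.g13), (1, A9.g45), (14, A5.g64), (39, A5.g48),
     (3, A5.g88), (2, A5.g100), (35, A5.g52), (5, A5.g124), (26, A5.g82), (38, A5.g114),
     (1, A5.g58), (17, A5.g73), (11, A5.g85), (7, A5.g117), (1, A5.g77), (48, A5.g61),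
     (6, A5.g67), (14, A5.g51), (15, A5.g55), (42, A5.g47), (93, A3.g32), (7, A3.g36),
     (9, A3.g2), (84, A3.g18), (489, A3.g10), (336, A3.g26), (8, A3.g6), (72, A3.g54),
     (107, A3.g14), (11, A3.g25), (25, A3.g57), (70, A3.g21), (96, A3.g29), (161, A3.g51),
     (227, A3.g11), (13, A3.g43), (93, A3.g39), (272, A3.g15), (7, A3.g47), (52, A7.g64),
     (41, A7.g48), (17, A7.g56), (7, A7.g52), (21, A7.g76), (2, A7.g92), (1, A7.g98),
     (9, A7.g70), (29, A7.g86), (9, A7.g126), (48, A7.g49), (8, A7.g89), (109, A7.g53),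
     (16, A7.g67), (1, A7.g83), (5, A7.g107), (15, A7.g59), (82, A7.g123), (1, A7.g119),
     (2, A7.g63)]),
   ((6, 6517776), 134,
    [(61, A0.g34), (409, A0.g42), (264, A0.g38), (613, A0.g30), (334, A0.g33), (363, A0.g29),
     (409, A0.g35), (91, A0.g39), (1, A8.g16), (9, A8.g40), (8, A8.g4), (2, A8.g28),
     (12, A8.g10), (3, A8.g102), (1, A8.g33), (4, A8.g21), (3, A8.g103), (1, A8.g111),
     (73, A4.g0), (8, A4.g8), (9, A4.g104), (21, A4.g36), (127, A4.g100), (9, A4.g108),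
     (7, A4.g124), (5, A4.g114), (4, A4.g22), (22, A4.g118), (1, A4.g1), (68, A4.g21),
     (75, A4.g117), (11, A4.g29), (1, A4.g125), (105, A4.g107), (63, A4.g7), (37, A4.g103),
     (21, A4.g15), (1, A6.g8), (37, A6.g120), (18, A6.g116), (1, A6.g18), (17, A6.g106),
     (8, A6.g26), (37, A6.g102), (21, A6.g110), (63, A6.g105), (1, A6.g121), (2, A6.g117),
     (83, A6.g109), (1, A6.g27), (5, A6.g7), (7, A6.g127), (99, A1.g0), (71, A1.g16),
     (7, A1.g48), (804, A1.g8), (125, A1.g40), (33, A1.g12), (4, A1.g34), (377, A1.g26),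
     (71, A1.g6), (76, A1.g22), (88, A1.g33), (9, A1.g41), (333, A1.g11), (97, A1.g27),
     (9, A1.g7), (5, A1.g23), (473, A1.g15), (2, A9.g4), (29, A5.g24), (2, A5.g4), (26, A5.g116),
     (23, A5.g12), (11, A5.g34), (6, A5.g18), (2, A5.g126), (7, A5.g117), (22, A5.g3),
     (1, A5.g35), (143, A5.g11), (119, A3.g24), (7, A3.g36), (287, A3.g28), (84, A3.g18),
     (14, A3.g50), (489, A3.g10), (102, A3.g42), (72, A3.g54), (107, A3.g14), (311, A3.g17),
     (11, A3.g25), (366, A3.g53), (356, A3.g13), (96, A3.g29), (116, A3.g35), (13, A3.g43),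
     (1, A7.g28), (2, A7.g6), (130, A7.g14), (9, A7.g126), (4, A7.g5), (27, A7.g21), (2, A7.g45),
     (52, A7.g125), (4, A7.g27), (6, A7.g39), (29, A7.g15)]),
   ((10, 425360507664), 261,
    [(2, A8.g20), (8, A8.g9), (2, A8.g53), (6, A8.g3), (1, A8.g27), (13, A8.g39), (1, A8.g47),
     (8, A4.g8), (88, A4.g20), (23, A4.g28), (97, A4.g6), (4, A4.g22), (15, A4.g14), (1, A4.g1),
     (34, A4.g35), (331, A2.g8), (331, A2.g24), (505, A2.g4), (433, A2.g20), (3, A2.g44),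
     (506, A2.g2), (315, A2.g18), (103, A2.g10), (116, A2.g42), (71, A2.g26), (68, A2.g6),
     (40, A2.g22), (122, A2.g1), (3, A2.g33), (19, A2.g17), (59, A2.g37), (462, A2.g35),
     (103, A2.g15), (130, A2.g31), (1, A6.g8), (10, A6.g6), (1, A6.g30), (3, A6.g25),
     (1, A6.g13), (1, A6.g27), (446, A1.g52), (413, A1.g50), (295, A1.g49), (3, A9.g14),
     (2, A9.g33), (14, A5.g64), (13, A5.g90), (17, A5.g102), (73, A5.g62), (45, A5.g49),
     (1, A5.g121), (18, A5.g69), (11, A5.g85), (20, A5.g53), (7, A5.g117), (1, A5.g77),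
     (47, A5.g83), (14, A5.g51), (21, A5.g115), (5, A5.g75), (15, A5.g55), (42, A5.g47),
     (145, A3.g0), (339, A3.g16), (10, A3.g8), (7, A3.g36), (401, A3.g52), (223, A3.g12),
     (9, A3.g2), (121, A3.g34), (84, A3.g18), (489, A3.g10), (72, A3.g54), (107, A3.g14),
     (18, A3.g49), (98, A3.g41), (11, A3.g25), (96, A3.g29), (13, A3.g43), (365, A3.g27),
     (68, A3.g59), (145, A3.g23), (41, A7.g48), (4, A7.g72), (17, A7.g56), (1, A7.g100),
     (7, A7.g52), (66, A7.g124), (79, A7.g50), (42, A7.g54), (8, A7.g78), (1, A7.g94),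
     (9, A7.g126), (73, A7.g65), (8, A7.g89), (20, A7.g109), (8, A7.g61), (16, A7.g67),
     (83, A7.g87), (2, A7.g63)])]

/-- lights 73 -/
noncomputable def plA_73 : List ((ℕ × ℕ) × ℕ × List (ℕ × ℕ)) :=
  [((0, 0), 73,
    [(42, A0.g24), (43, A0.g12), (1, A0.g28), (227, A0.g10), (71, A0.g26), (317, A0.g22),
     (162, A0.g14), (26, A0.g17), (188, A0.g9), (206, A0.g7), (376, A0.g15), (6, A8.g42),
     (34, A8.g81), (1, A8.g89), (4, A8.g95), (43, A4.g64), (14, A4.g96), (143, A4.g72),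
     (70, A4.g24), (9, A4.g84), (7, A4.g12), (4, A4.g76), (23, A4.g28), (2, A4.g98),
     (135, A4.g82), (193, A4.g10), (20, A4.g74), (8, A4.g26), (11, A4.g38), (19, A4.g86),
     (15, A4.g14), (1, A4.g1), (92, A4.g65), (5, A4.g67), (20, A2.g40), (433, A2.g20),
     (3, A2.g44), (116, A2.g42), (261, A2.g38), (40, A2.g22), (3, A2.g33), (63, A2.g29),
     (120, A2.g19), (432, A2.g27), (130, A2.g31), (7, A6.g88), (3, A6.g68), (117, A6.g84),
     (76, A6.g66), (15, A6.g98), (1, A6.g90), (16, A6.g86), (1, A6.g30), (18, A6.g65),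
     (60, A6.g73), (4, A6.g77), (5, A6.g29), (4, A6.g75), (1, A6.g79), (117, A1.g32),
     (33, A1.g12), (274, A1.g28), (4, A1.g34), (310, A1.g10), (56, A1.g30), (324, A1.g17),
     (141, A1.g9), (86, A1.g21), (4, A1.g45), (32, A1.g19), (87, A1.g43), (5, A1.g23),
     (13, A1.g47), (7, A9.g35), (21, A5.g96), (1, A5.g40), (3, A5.g88), (4, A5.g26),
     (13, A5.g90), (80, A5.g86), (11, A5.g17), (10, A5.g105), (5, A5.g37), (30, A5.g13),
     (4, A5.g15), (10, A3.g8), (116, A3.g4), (8, A3.g6), (25, A3.g57), (68, A3.g59),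
     (260, A3.g55), (65, A7.g16), (3, A7.g112), (10, A7.g20), (2, A7.g92), (9, A7.g18),
     (83, A7.g90), (7, A7.g30), (1, A7.g94), (1, A7.g33), (3, A7.g41), (3, A7.g43), (3, A7.g103)]),
   ((4, 38449), 145,
    [(350, A0.g32), (352, A0.g40), (61, A0.g34), (613, A0.g30), (495, A0.g41), (179, A0.g31),
     (21, A8.g12), (36, A8.g108), (8, A8.g124), (1, A8.g14), (4, A8.g30), (3, A8.g113),
     (8, A8.g9), (125, A8.g5), (6, A8.g45), (19, A8.g7), (1, A8.g47), (8, A4.g8), (39, A4.g4),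
     (7, A4.g12), (9, A4.g108), (265, A4.g2), (193, A4.g10), (70, A4.g106), (97, A4.g6),
     (11, A4.g38), (15, A4.g14), (298, A4.g126), (6, A4.g33), (4, A4.g113), (53, A4.g105),
     (57, A4.g109), (34, A4.g35), (1, A4.g111), (105, A4.g31), (36, A6.g0), (1, A6.g32),
     (70, A6.g108), (21, A6.g110), (18, A6.g113), (2, A6.g117), (19, A6.g115), (126, A6.g107),
     (20, A6.g15), (147, A6.g111), (99, A1.g0), (71, A1.g16), (397, A1.g14), (262, A1.g1),
     (324, A1.g17), (9, A1.g41), (134, A1.g5), (62, A1.g37), (86, A1.g21), (283, A1.g13),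
     (4, A1.g45), (34, A1.g3), (349, A1.g35), (32, A1.g19), (87, A1.g43), (9, A1.g7),
     (146, A1.g39), (5, A1.g23), (13, A1.g47), (1, A9.g50), (18, A5.g0), (2, A5.g4),
     (5, A5.g124), (20, A5.g2), (8, A5.g42), (4, A5.g26), (45, A5.g122), (10, A5.g6),
     (6, A5.g21), (58, A5.g19), (17, A5.g23), (339, A3.g16), (84, A3.g18), (18, A3.g49),
     (98, A3.g41), (11, A3.g25), (442, A3.g37), (70, A3.g21), (145, A3.g45), (443, A3.g19),
     (13, A3.g43), (93, A3.g39), (145, A3.g23), (272, A3.g15), (7, A3.g47), (49, A7.g0),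
     (11, A7.g8), (6, A7.g24), (6, A7.g4), (1, A7.g28), (6, A7.g2), (7, A7.g26), (2, A7.g6),
     (82, A7.g22), (7, A7.g30), (1, A7.g33), (1, A7.g11)]),
   ((4, 38720), 74,
    [(180, A0.g16), (42, A0.g24), (43, A0.g12), (1, A0.g28), (162, A0.g14), (26, A0.g17),
     (188, A0.g9), (299, A0.g11), (50, A0.g27), (206, A0.g7), (296, A0.g23), (20, A8.g96),
     (1, A8.g84), (16, A8.g82), (10, A8.g43), (73, A4.g0), (43, A4.g64), (9, A4.g84),
     (7, A4.g12), (65, A4.g66), (2, A4.g98), (20, A4.g74), (8, A4.g26), (1, A4.g1), (9, A4.g97),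
     (71, A4.g73), (157, A4.g25), (9, A4.g77), (11, A4.g29), (5, A4.g67), (126, A4.g83),
     (88, A4.g11), (11, A4.g39), (7, A4.g87), (21, A4.g15), (80, A2.g32), (20, A2.g40),
     (3, A2.g44), (263, A2.g28), (40, A2.g22), (3, A2.g33), (142, A2.g21), (63, A2.g29),
     (120, A2.g19), (58, A2.g43), (211, A2.g39), (3, A6.g68), (48, A6.g74), (1, A6.g90),
     (16, A6.g86), (8, A6.g78), (18, A6.g65), (16, A6.g89), (1, A6.g101), (172, A6.g85),
     (82, A6.g67), (16, A6.g99), (4, A6.g75), (1, A6.g79), (7, A1.g48), (33, A1.g12),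
     (54, A1.g44), (4, A1.g34), (245, A1.g18), (76, A1.g22), (56, A1.g30), (88, A1.g33),
     (141, A1.g9), (4, A1.g45), (331, A1.g29), (32, A1.g19), (333, A1.g11), (5, A1.g23),
     (1, A9.g6), (3, A5.g88), (1, A5.g108), (6, A5.g18), (8, A5.g106), (15, A5.g38),
     (26, A5.g14), (1, A5.g46), (3, A5.g27), (6, A5.g91), (39, A5.g87), (4, A5.g15),
     (319, A3.g56), (8, A3.g6), (17, A3.g9), (25, A3.g57), (51, A3.g5), (1, A7.g104),
     (2, A7.g92), (9, A7.g18), (11, A7.g42), (124, A7.g17), (17, A7.g113), (27, A7.g21),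
     (2, A7.g45), (1, A7.g115), (3, A7.g43), (79, A7.g91), (3, A7.g31), (2, A7.g95)]),
   ((6, 484401), 290,
    [(10, A8.g24), (2, A8.g28), (37, A8.g18), (1, A8.g33), (1, A8.g25), (4, A8.g21), (4, A8.g51),
     (1, A8.g31), (109, A4.g32), (21, A4.g36), (30, A4.g18), (8, A4.g26), (4, A4.g22),
     (6, A4.g33), (222, A4.g17), (157, A4.g25), (68, A4.g21), (11, A4.g29), (11, A4.g39),
     (129, A2.g16), (20, A2.g40), (197, A2.g36), (302, A2.g12), (3, A2.g44), (506, A2.g2),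
     (122, A2.g34), (103, A2.g10), (68, A2.g6), (238, A2.g46), (19, A2.g17), (478, A2.g9),
     (437, A2.g5), (59, A2.g37), (40, A2.g13), (229, A2.g3), (58, A2.g43), (291, A2.g7),
     (211, A2.g39), (48, A2.g47), (11, A6.g16), (1, A6.g8), (31, A6.g4), (1, A6.g18),
     (2, A6.g38), (15, A6.g37), (90, A6.g3), (12, A6.g11), (5, A6.g7), (1, A9.g40), (1, A9.g24),
     (1, A9.g29), (1, A9.g27), (14, A5.g64), (68, A5.g72), (2, A5.g100), (8, A5.g76),
     (1, A5.g108), (53, A5.g66), (8, A5.g106), (13, A5.g70), (1, A5.g81), (17, A5.g73),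
     (1, A5.g77), (48, A5.g61), (6, A5.g67), (59, A5.g99), (5, A5.g103), (3, A5.g79),
     (2, A5.g111), (36, A5.g63), (93, A3.g32), (7, A3.g36), (287, A3.g28), (9, A3.g2),
     (14, A3.g50), (102, A3.g42), (336, A3.g26), (8, A3.g6), (398, A3.g38), (146, A3.g46),
     (154, A3.g1), (17, A3.g9), (51, A3.g5), (96, A3.g29), (116, A3.g35), (13, A3.g43),
     (93, A3.g39), (7, A3.g47), (474, A3.g31), (52, A7.g64), (21, A7.g76), (45, A7.g66),
     (14, A7.g82), (47, A7.g106), (9, A7.g70), (7, A7.g118), (7, A7.g110), (17, A7.g113),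
     (10, A7.g73), (1, A7.g121), (168, A7.g69), (2, A7.g85), (16, A7.g67), (1, A7.g83),
     (1, A7.g115), (135, A7.g75), (5, A7.g107), (1, A7.g119), (28, A7.g79)]),
   ((6, 6517776), 148,
    [(350, A0.g32), (61, A0.g34), (409, A0.g42), (613, A0.g30), (334, A0.g33), (495, A0.g41),
     (9, A8.g32), (1, A8.g16), (56, A8.g8), (12, A8.g10), (11, A8.g110), (9, A8.g126),
     (1, A8.g33), (8, A8.g9), (4, A8.g15), (1, A8.g47), (1, A8.g111), (90, A4.g112), (8, A4.g8),
     (29, A4.g40), (21, A4.g36), (9, A4.g108), (286, A4.g34), (5, A4.g114), (70, A4.g106),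
     (97, A4.g6), (15, A4.g14), (4, A4.g113), (557, A4.g5), (109, A4.g13), (34, A4.g35),
     (105, A4.g107), (63, A4.g7), (21, A4.g15), (1, A6.g20), (18, A6.g116), (70, A6.g108),
     (1, A6.g18), (107, A6.g114), (21, A6.g110), (3, A6.g1), (7, A6.g33), (26, A6.g17),
     (1, A6.g41), (2, A6.g117), (83, A6.g109), (19, A6.g115), (99, A1.g0), (71, A1.g16),
     (7, A1.g48), (125, A1.g40), (410, A1.g4), (400, A1.g20), (71, A1.g6), (821, A1.g38),
     (76, A1.g22), (397, A1.g14), (114, A1.g46), (9, A1.g41), (134, A1.g5), (86, A1.g21),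
     (9, A1.g7), (146, A1.g39), (5, A1.g23), (473, A1.g15), (13, A1.g47), (1, A9.g9),
     (11, A5.g8), (29, A5.g24), (2, A5.g4), (14, A5.g44), (7, A5.g28), (20, A5.g2),
     (125, A5.g22), (2, A5.g126), (264, A5.g1), (107, A5.g125), (22, A5.g3), (17, A5.g23),
     (339, A3.g16), (128, A3.g48), (590, A3.g40), (119, A3.g24), (84, A3.g18), (14, A3.g50),
     (102, A3.g42), (372, A3.g22), (311, A3.g17), (18, A3.g49), (98, A3.g41), (11, A3.g25),
     (13, A3.g43), (145, A3.g23), (15, A7.g32), (6, A7.g4), (1, A7.g28), (8, A7.g10),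
     (7, A7.g26), (2, A7.g6), (1, A7.g33), (74, A7.g25), (4, A7.g5), (95, A7.g3), (1, A7.g11),
     (4, A7.g27), (7, A7.g47)]),
   ((10, 425360507664), 292,
    [(9, A8.g32), (2, A8.g20), (9, A8.g52), (2, A8.g28), (3, A8.g26), (1, A8.g33), (4, A8.g21),
     (2, A8.g53), (60, A8.g19), (1, A8.g27), (29, A4.g40), (21, A4.g36), (88, A4.g20),
     (23, A4.g28), (286, A4.g34), (4, A4.g22), (68, A4.g21), (11, A4.g29), (34, A4.g35),
     (337, A4.g19), (117, A4.g27), (129, A2.g16), (629, A2.g48), (331, A2.g8), (505, A2.g4),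
     (197, A2.g36), (3, A2.g44), (506, A2.g2), (103, A2.g10), (116, A2.g42), (68, A2.g6),
     (585, A2.g14), (19, A2.g17), (478, A2.g9), (356, A2.g41), (437, A2.g5), (59, A2.g37),
     (462, A2.g35), (58, A2.g43), (103, A2.g15), (1, A6.g8), (1, A6.g20), (4, A6.g12),
     (1, A6.g18), (10, A6.g6), (26, A6.g17), (1, A6.g41), (130, A6.g5), (1, A6.g13), (5, A6.g7),
     (3, A6.g39), (1, A9.g52), (1, A9.g41), (9, A9.g25), (14, A5.g64), (3, A5.g80), (7, A5.g112),
     (73, A5.g68), (8, A5.g76), (1, A5.g108), (29, A5.g74), (13, A5.g70), (17, A5.g102),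
     (73, A5.g62), (1, A5.g81), (18, A5.g69), (57, A5.g101), (1, A5.g77), (5, A5.g75),
     (4, A5.g107), (5, A5.g103), (36, A5.g63), (145, A3.g0), (128, A3.g48), (10, A3.g8),
     (590, A3.g40), (7, A3.g36), (287, A3.g28), (9, A3.g2), (121, A3.g34), (14, A3.g50),
     (102, A3.g42), (154, A3.g1), (251, A3.g33), (18, A3.g49), (17, A3.g9), (98, A3.g41),
     (96, A3.g29), (116, A3.g35), (13, A3.g43), (365, A3.g27), (171, A3.g7), (4, A7.g72),
     (40, A7.g120), (8, A7.g84), (97, A7.g108), (45, A7.g66), (2, A7.g114), (8, A7.g78),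
     (7, A7.g110), (73, A7.g65), (10, A7.g73), (1, A7.g121), (2, A7.g85), (121, A7.g77),
     (20, A7.g109), (16, A7.g67), (1, A7.g115), (60, A7.g71), (28, A7.g79)])]

/-- lights 76 -/
noncomputable def plA_76 : List ((ℕ × ℕ) × ℕ × List (ℕ × ℕ)) :=
  [((0, 0), 76,
    [(180, A0.g16), (43, A0.g12), (1, A0.g28), (227, A0.g10), (71, A0.g26), (26, A0.g17),
     (307, A0.g25), (299, A0.g11), (50, A0.g27), (206, A0.g7), (376, A0.g15), (1, A8.g84),
     (1, A8.g97), (42, A8.g83), (73, A4.g0), (29, A4.g40), (4, A4.g76), (23, A4.g28),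
     (65, A4.g66), (19, A4.g86), (15, A4.g14), (1, A4.g1), (92, A4.g65), (198, A4.g85),
     (109, A4.g13), (9, A4.g77), (11, A4.g29), (5, A4.g67), (6, A4.g99), (81, A4.g75),
     (117, A4.g27), (7, A4.g87), (21, A4.g15), (80, A2.g32), (433, A2.g20), (3, A2.g44),
     (116, A2.g42), (40, A2.g22), (342, A2.g30), (3, A2.g33), (356, A2.g41), (142, A2.g21),
     (58, A2.g43), (130, A2.g31), (7, A6.g88), (3, A6.g68), (3, A6.g100), (66, A6.g76),
     (76, A6.g66), (1, A6.g90), (8, A6.g78), (1, A6.g30), (16, A6.g89), (1, A6.g101),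
     (4, A6.g77), (82, A6.g67), (43, A6.g87), (1, A6.g79), (117, A1.g32), (7, A1.g48),
     (400, A1.g20), (33, A1.g12), (4, A1.g34), (310, A1.g10), (76, A1.g22), (114, A1.g46),
     (88, A1.g33), (86, A1.g21), (333, A1.g11), (5, A1.g23), (13, A1.g47), (319, A1.g31),
     (1, A9.g7), (38, A5.g16), (1, A5.g40), (1, A5.g108), (7, A5.g28), (6, A5.g18), (13, A5.g90),
     (11, A5.g97), (11, A5.g17), (29, A5.g89), (4, A5.g107), (6, A5.g91), (1, A5.g39),
     (10, A3.g8), (269, A3.g58), (17, A3.g9), (68, A3.g59), (171, A3.g7), (15, A7.g32),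
     (10, A7.g20), (2, A7.g44), (2, A7.g114), (1, A7.g94), (1, A7.g33), (27, A7.g21),
     (2, A7.g45), (85, A7.g93), (73, A7.g19), (1, A7.g115), (2, A7.g95)]),
   ((4, 38449), 146,
    [(352, A0.g40), (61, A0.g34), (409, A0.g42), (613, A0.g30), (334, A0.g33), (179, A0.g31),
     (1, A8.g16), (12, A8.g10), (36, A8.g6), (1, A8.g14), (6, A8.g46), (1, A8.g33), (5, A8.g13),
     (15, A8.g109), (1, A8.g125), (19, A8.g7), (1, A8.g111), (1, A8.g31), (109, A4.g32),
     (8, A4.g8), (39, A4.g4), (21, A4.g36), (7, A4.g12), (9, A4.g108), (5, A4.g114),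
     (41, A4.g110), (6, A4.g33), (53, A4.g105), (195, A4.g3), (88, A4.g11), (105, A4.g107),
     (63, A4.g7), (11, A4.g39), (21, A4.g15), (1, A4.g111), (130, A4.g127), (11, A6.g16),
     (53, A6.g112), (18, A6.g116), (1, A6.g18), (21, A6.g110), (18, A6.g113), (2, A6.g117),
     (83, A6.g109), (126, A6.g107), (99, A1.g0), (71, A1.g16), (7, A1.g48), (125, A1.g40),
     (272, A1.g36), (54, A1.g44), (210, A1.g2), (245, A1.g18), (71, A1.g6), (76, A1.g22),
     (9, A1.g41), (62, A1.g37), (283, A1.g13), (4, A1.g45), (34, A1.g3), (32, A1.g19),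
     (9, A1.g7), (5, A1.g23), (473, A1.g15), (18, A5.g0), (29, A5.g24), (2, A5.g4), (79, A5.g20),
     (5, A5.g124), (1, A5.g46), (2, A5.g126), (6, A5.g21), (22, A5.g3), (12, A5.g43),
     (3, A5.g27), (90, A5.g123), (8, A5.g7), (119, A3.g24), (235, A3.g20), (84, A3.g18),
     (14, A3.g50), (102, A3.g42), (398, A3.g38), (146, A3.g46), (311, A3.g17), (11, A3.g25),
     (70, A3.g21), (13, A3.g43), (93, A3.g39), (272, A3.g15), (7, A3.g47), (6, A7.g24),
     (1, A7.g28), (6, A7.g2), (2, A7.g6), (66, A7.g1), (5, A7.g9), (4, A7.g5), (4, A7.g27),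
     (17, A7.g23), (3, A7.g31)]),
   ((4, 38720), 76,
    [(180, A0.g16), (43, A0.g12), (1, A0.g28), (227, A0.g10), (71, A0.g26), (26, A0.g17),
     (307, A0.g25), (299, A0.g11), (50, A0.g27), (206, A0.g7), (376, A0.g15), (1, A8.g84),
     (1, A8.g97), (42, A8.g83), (73, A4.g0), (29, A4.g40), (4, A4.g76), (23, A4.g28),
     (65, A4.g66), (19, A4.g86), (15, A4.g14), (1, A4.g1), (92, A4.g65), (198, A4.g85),
     (109, A4.g13), (9, A4.g77), (11, A4.g29), (5, A4.g67), (6, A4.g99), (81, A4.g75),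
     (117, A4.g27), (7, A4.g87), (21, A4.g15), (80, A2.g32), (433, A2.g20), (3, A2.g44),
     (116, A2.g42), (40, A2.g22), (342, A2.g30), (3, A2.g33), (356, A2.g41), (142, A2.g21),
     (58, A2.g43), (130, A2.g31), (7, A6.g88), (3, A6.g68), (3, A6.g100), (66, A6.g76),
     (76, A6.g66), (1, A6.g90), (8, A6.g78), (1, A6.g30), (16, A6.g89), (1, A6.g101),
     (4, A6.g77), (82, A6.g67), (43, A6.g87), (1, A6.g79), (117, A1.g32), (7, A1.g48),
     (400, A1.g20), (33, A1.g12), (4, A1.g34), (310, A1.g10), (76, A1.g22), (114, A1.g46),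
     (88, A1.g33), (86, A1.g21), (333, A1.g11), (5, A1.g23), (13, A1.g47), (319, A1.g31),
     (1, A9.g7), (38, A5.g16), (1, A5.g40), (1, A5.g108), (7, A5.g28), (6, A5.g18), (13, A5.g90),
     (11, A5.g97), (11, A5.g17), (29, A5.g89), (4, A5.g107), (6, A5.g91), (1, A5.g39),
     (10, A3.g8), (269, A3.g58), (17, A3.g9), (68, A3.g59), (171, A3.g7), (15, A7.g32),
     (10, A7.g20), (2, A7.g44), (2, A7.g114), (1, A7.g94), (1, A7.g33), (27, A7.g21),
     (2, A7.g45), (85, A7.g93), (73, A7.g19), (1, A7.g115), (2, A7.g95)]),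
   ((6, 484401), 289,
    [(2, A8.g20), (2, A8.g50), (4, A8.g30), (72, A8.g17), (1, A8.g25), (2, A8.g53), (1, A8.g27),
     (2, A8.g23), (244, A4.g16), (70, A4.g24), (88, A4.g20), (23, A4.g28), (30, A4.g18),
     (8, A4.g26), (11, A4.g38), (4, A4.g22), (6, A4.g33), (34, A4.g35), (105, A4.g31),
     (331, A2.g8), (20, A2.g40), (505, A2.g4), (3, A2.g44), (506, A2.g2), (122, A2.g34),
     (103, A2.g10), (116, A2.g42), (68, A2.g6), (261, A2.g38), (19, A2.g17), (59, A2.g37),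
     (40, A2.g13), (263, A2.g45), (229, A2.g3), (462, A2.g35), (244, A2.g11), (291, A2.g7),
     (103, A2.g15), (48, A2.g47), (1, A6.g8), (31, A6.g4), (2, A6.g36), (66, A6.g2),
     (14, A6.g10), (10, A6.g6), (2, A6.g38), (1, A6.g13), (20, A6.g15), (2, A9.g39),
     (28, A9.g23), (14, A5.g64), (2, A5.g100), (49, A5.g98), (17, A5.g102), (3, A5.g110),
     (73, A5.g62), (79, A5.g65), (17, A5.g73), (10, A5.g105), (18, A5.g69), (1, A5.g77),
     (48, A5.g61), (6, A5.g67), (5, A5.g75), (63, A5.g71), (145, A3.g0), (93, A3.g32),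
     (10, A3.g8), (116, A3.g4), (7, A3.g36), (9, A3.g2), (121, A3.g34), (336, A3.g26),
     (8, A3.g6), (215, A3.g30), (18, A3.g49), (98, A3.g41), (442, A3.g37), (145, A3.g45),
     (96, A3.g29), (13, A3.g43), (365, A3.g27), (93, A3.g39), (7, A3.g47), (52, A7.g64),
     (3, A7.g112), (4, A7.g72), (49, A7.g68), (21, A7.g76), (65, A7.g74), (9, A7.g70),
     (8, A7.g78), (73, A7.g65), (1, A7.g81), (66, A7.g105), (2, A7.g117), (20, A7.g109),
     (16, A7.g67), (1, A7.g83), (5, A7.g107), (1, A7.g119)]),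
   ((6, 6517776), 146,
    [(352, A0.g40), (61, A0.g34), (409, A0.g42), (613, A0.g30), (334, A0.g33), (179, A0.g31),
     (1, A8.g16), (12, A8.g10), (36, A8.g6), (1, A8.g14), (6, A8.g46), (1, A8.g33), (5, A8.g13),
     (15, A8.g109), (1, A8.g125), (19, A8.g7), (1, A8.g111), (1, A8.g31), (109, A4.g32),
     (8, A4.g8), (39, A4.g4), (21, A4.g36), (7, A4.g12), (9, A4.g108), (5, A4.g114),
     (41, A4.g110), (6, A4.g33), (53, A4.g105), (195, A4.g3), (88, A4.g11), (105, A4.g107),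
     (63, A4.g7), (11, A4.g39), (21, A4.g15), (1, A4.g111), (130, A4.g127), (11, A6.g16),
     (53, A6.g112), (18, A6.g116), (1, A6.g18), (21, A6.g110), (18, A6.g113), (2, A6.g117),
     (83, A6.g109), (126, A6.g107), (99, A1.g0), (71, A1.g16), (7, A1.g48), (125, A1.g40),
     (272, A1.g36), (54, A1.g44), (210, A1.g2), (245, A1.g18), (71, A1.g6), (76, A1.g22),
     (9, A1.g41), (62, A1.g37), (283, A1.g13), (4, A1.g45), (34, A1.g3), (32, A1.g19),
     (9, A1.g7), (5, A1.g23), (473, A1.g15), (18, A5.g0), (29, A5.g24), (2, A5.g4), (79, A5.g20),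
     (5, A5.g124), (1, A5.g46), (2, A5.g126), (6, A5.g21), (22, A5.g3), (12, A5.g43),
     (3, A5.g27), (90, A5.g123), (8, A5.g7), (119, A3.g24), (235, A3.g20), (84, A3.g18),
     (14, A3.g50), (102, A3.g42), (398, A3.g38), (146, A3.g46), (311, A3.g17), (11, A3.g25),
     (70, A3.g21), (13, A3.g43), (93, A3.g39), (272, A3.g15), (7, A3.g47), (6, A7.g24),
     (1, A7.g28), (6, A7.g2), (2, A7.g6), (66, A7.g1), (5, A7.g9), (4, A7.g5), (4, A7.g27),
     (17, A7.g23), (3, A7.g31)]),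
   ((10, 425360507664), 289,
    [(2, A8.g20), (2, A8.g50), (4, A8.g30), (72, A8.g17), (1, A8.g25), (2, A8.g53), (1, A8.g27),
     (2, A8.g23), (244, A4.g16), (70, A4.g24), (88, A4.g20), (23, A4.g28), (30, A4.g18),
     (8, A4.g26), (11, A4.g38), (4, A4.g22), (6, A4.g33), (34, A4.g35), (105, A4.g31),
     (331, A2.g8), (20, A2.g40), (505, A2.g4), (3, A2.g44), (506, A2.g2), (122, A2.g34),
     (103, A2.g10), (116, A2.g42), (68, A2.g6), (261, A2.g38), (19, A2.g17), (59, A2.g37),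
     (40, A2.g13), (263, A2.g45), (229, A2.g3), (462, A2.g35), (244, A2.g11), (291, A2.g7),
     (103, A2.g15), (48, A2.g47), (1, A6.g8), (31, A6.g4), (2, A6.g36), (66, A6.g2),
     (14, A6.g10), (10, A6.g6), (2, A6.g38), (1, A6.g13), (20, A6.g15), (2, A9.g39),
     (28, A9.g23), (14, A5.g64), (2, A5.g100), (49, A5.g98), (17, A5.g102), (3, A5.g110),
     (73, A5.g62), (79, A5.g65), (17, A5.g73), (10, A5.g105), (18, A5.g69), (1, A5.g77),
     (48, A5.g61), (6, A5.g67), (5, A5.g75), (63, A5.g71), (145, A3.g0), (93, A3.g32),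
     (10, A3.g8), (116, A3.g4), (7, A3.g36), (9, A3.g2), (121, A3.g34), (336, A3.g26),
     (8, A3.g6), (215, A3.g30), (18, A3.g49), (98, A3.g41), (442, A3.g37), (145, A3.g45),
     (96, A3.g29), (13, A3.g43), (365, A3.g27), (93, A3.g39), (7, A3.g47), (52, A7.g64),
     (3, A7.g112), (4, A7.g72), (49, A7.g68), (21, A7.g76), (65, A7.g74), (9, A7.g70),
     (8, A7.g78), (73, A7.g65), (1, A7.g81), (66, A7.g105), (2, A7.g117), (20, A7.g109),
     (16, A7.g67), (1, A7.g83), (5, A7.g107), (1, A7.g119)])]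

/-- lights 81 -/
noncomputable def plA_81 : List ((ℕ × ℕ) × ℕ × List (ℕ × ℕ)) :=
  [((0, 0), 81,
    [(387, A0.g8), (42, A0.g24), (43, A0.g12), (1, A0.g28), (485, A0.g18), (227, A0.g10),
     (71, A0.g26), (317, A0.g22), (188, A0.g9), (120, A0.g21), (414, A0.g19), (1, A8.g89),
     (8, A8.g85), (6, A8.g45), (1, A8.g47), (14, A4.g96), (8, A4.g8), (143, A4.g72),
     (69, A4.g88), (39, A4.g4), (55, A4.g68), (7, A4.g12), (4, A4.g76), (6, A4.g92),
     (265, A4.g2), (2, A4.g98), (193, A4.g10), (20, A4.g74), (17, A4.g90), (97, A4.g6),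
     (11, A4.g38), (15, A4.g14), (1, A4.g94), (6, A4.g33), (50, A4.g69), (34, A4.g35),
     (15, A4.g71), (105, A4.g31), (331, A2.g24), (71, A2.g26), (3, A2.g33), (263, A2.g45),
     (63, A2.g29), (432, A2.g27), (97, A2.g23), (48, A2.g47), (130, A2.g31), (1, A6.g32),
     (14, A6.g72), (15, A6.g98), (12, A6.g70), (60, A6.g73), (48, A6.g69), (4, A6.g77),
     (11, A6.g93), (4, A6.g75), (55, A6.g91), (1, A6.g79), (9, A6.g95), (71, A1.g16),
     (397, A1.g14), (324, A1.g17), (9, A1.g41), (62, A1.g37), (86, A1.g21), (283, A1.g13),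
     (4, A1.g45), (349, A1.g35), (32, A1.g19), (87, A1.g43), (146, A1.g39), (5, A1.g23),
     (13, A1.g47), (1, A9.g37), (21, A5.g96), (59, A5.g92), (8, A5.g42), (4, A5.g26),
     (3, A5.g110), (6, A5.g21), (58, A5.g19), (17, A5.g23), (145, A3.g0), (10, A3.g8),
     (116, A3.g4), (9, A3.g2), (8, A3.g6), (29, A7.g96), (6, A7.g24), (1, A7.g100), (1, A7.g28),
     (1, A7.g98), (7, A7.g26), (82, A7.g22), (7, A7.g30), (1, A7.g33), (2, A7.g117),
     (3, A7.g103), (1, A7.g119)]),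
   ((4, 38449), 137,
    [(350, A0.g32), (183, A0.g36), (61, A0.g34), (546, A0.g37), (363, A0.g29), (91, A0.g39),
     (179, A0.g31), (11, A8.g104), (1, A8.g120), (21, A8.g12), (6, A8.g42), (1, A8.g14),
     (4, A8.g1), (3, A8.g113), (1, A8.g25), (6, A8.g3), (5, A8.g107), (1, A8.g27), (2, A8.g23),
     (9, A4.g104), (70, A4.g24), (7, A4.g12), (23, A4.g28), (193, A4.g10), (8, A4.g26),
     (11, A4.g38), (56, A4.g102), (15, A4.g14), (1, A4.g1), (4, A4.g113), (3, A4.g121),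
     (15, A4.g101), (57, A4.g109), (1, A4.g125), (21, A4.g123), (40, A4.g119), (1, A4.g111),
     (36, A6.g0), (107, A6.g104), (6, A6.g124), (14, A6.g10), (17, A6.g106), (103, A6.g122),
     (1, A6.g30), (8, A6.g126), (18, A6.g113), (2, A6.g117), (1, A6.g13), (5, A6.g29),
     (19, A6.g115), (49, A6.g103), (147, A6.g111), (117, A1.g32), (33, A1.g12), (274, A1.g28),
     (4, A1.g34), (310, A1.g10), (56, A1.g30), (262, A1.g1), (324, A1.g17), (141, A1.g9),
     (134, A1.g5), (86, A1.g21), (4, A1.g45), (34, A1.g3), (32, A1.g19), (87, A1.g43),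
     (9, A1.g7), (5, A1.g23), (13, A1.g47), (1, A9.g48), (1, A5.g40), (4, A5.g26), (10, A5.g6),
     (58, A5.g118), (11, A5.g17), (1, A5.g121), (5, A5.g37), (30, A5.g13), (4, A5.g15),
     (93, A3.g32), (7, A3.g36), (223, A3.g12), (121, A3.g34), (107, A3.g14), (215, A3.g30),
     (18, A3.g49), (11, A3.g25), (25, A3.g57), (70, A3.g21), (145, A3.g45), (443, A3.g19),
     (227, A3.g11), (68, A3.g59), (145, A3.g23), (260, A3.g55), (7, A3.g47), (65, A7.g16),
     (11, A7.g8), (10, A7.g20), (9, A7.g18), (7, A7.g30), (1, A7.g33), (3, A7.g41), (1, A7.g11),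
     (3, A7.g43), (63, A7.g127)]),
   ((4, 38720), 98,
    [(180, A0.g16), (42, A0.g24), (279, A0.g20), (1, A0.g28), (485, A0.g18), (162, A0.g14),
     (26, A0.g17), (120, A0.g21), (316, A0.g13), (50, A0.g27), (296, A0.g23), (20, A8.g96),
     (4, A8.g51), (33, A8.g91), (109, A4.g32), (124, A4.g80), (21, A4.g36), (9, A4.g84),
     (2, A4.g98), (30, A4.g18), (8, A4.g26), (17, A4.g90), (4, A4.g22), (153, A4.g78),
     (1, A4.g94), (6, A4.g33), (9, A4.g97), (222, A4.g17), (12, A4.g81), (157, A4.g25),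
     (39, A4.g89), (68, A4.g21), (11, A4.g29), (8, A4.g93), (126, A4.g83), (11, A4.g39),
     (7, A4.g87), (20, A2.g40), (197, A2.g36), (3, A2.g44), (122, A2.g34), (238, A2.g46),
     (59, A2.g37), (58, A2.g43), (211, A2.g39), (48, A2.g47), (21, A6.g96), (98, A6.g80),
     (49, A6.g92), (50, A6.g82), (1, A6.g90), (2, A6.g38), (16, A6.g86), (16, A6.g89),
     (15, A6.g37), (1, A6.g101), (172, A6.g85), (11, A6.g93), (16, A6.g99), (13, A6.g83),
     (7, A1.g48), (125, A1.g40), (244, A1.g24), (272, A1.g36), (54, A1.g44), (4, A1.g34),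
     (377, A1.g26), (56, A1.g30), (88, A1.g33), (9, A1.g41), (62, A1.g37), (4, A1.g45),
     (331, A1.g29), (97, A1.g27), (1, A9.g40), (2, A5.g100), (1, A5.g108), (11, A5.g34),
     (8, A5.g106), (15, A5.g38), (1, A5.g46), (74, A5.g30), (1, A5.g35), (59, A5.g99),
     (12, A5.g43), (5, A5.g103), (2, A5.g111), (17, A5.g31), (9, A3.g2), (8, A3.g6),
     (154, A3.g1), (17, A3.g9), (51, A3.g5), (2, A7.g36), (11, A7.g42), (47, A7.g106),
     (7, A7.g118), (7, A7.g110), (17, A7.g113), (1, A7.g121), (2, A7.g45), (47, A7.g35),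
     (1, A7.g115), (3, A7.g43), (5, A7.g107), (6, A7.g39), (1, A7.g119)]),
   ((6, 484401), 266,
    [(53, A8.g0), (1, A8.g16), (10, A8.g24), (8, A8.g4), (2, A8.g28), (1, A8.g14), (4, A8.g1),
     (1, A8.g25), (5, A8.g13), (10, A8.g43), (73, A4.g0), (7, A4.g12), (8, A4.g26), (1, A4.g1),
     (157, A4.g25), (11, A4.g29), (88, A4.g11), (11, A4.g39), (21, A4.g15), (739, A2.g0),
     (80, A2.g32), (129, A2.g16), (20, A2.g40), (302, A2.g12), (3, A2.g44), (263, A2.g28),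
     (68, A2.g6), (40, A2.g22), (122, A2.g1), (3, A2.g33), (19, A2.g17), (437, A2.g5),
     (142, A2.g21), (40, A2.g13), (63, A2.g29), (229, A2.g3), (120, A2.g19), (58, A2.g43),
     (211, A2.g39), (12, A6.g11), (295, A1.g49), (171, A1.g51), (34, A9.g17), (1, A9.g27),
     (39, A5.g48), (3, A5.g88), (1, A5.g108), (1, A5.g60), (53, A5.g66), (35, A5.g50),
     (8, A5.g106), (1, A5.g58), (13, A5.g70), (1, A5.g81), (43, A5.g57), (6, A5.g67),
     (14, A5.g51), (6, A5.g91), (39, A5.g87), (19, A5.g119), (3, A5.g79), (93, A3.g32),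
     (119, A3.g24), (319, A3.g56), (7, A3.g36), (235, A3.g20), (14, A3.g50), (8, A3.g6),
     (107, A3.g14), (146, A3.g46), (17, A3.g9), (11, A3.g25), (25, A3.g57), (51, A3.g5),
     (70, A3.g21), (356, A3.g13), (116, A3.g35), (227, A3.g11), (7, A3.g47), (474, A3.g31),
     (1, A7.g104), (7, A7.g52), (2, A7.g92), (14, A7.g82), (71, A7.g58), (9, A7.g70),
     (10, A7.g62), (48, A7.g49), (17, A7.g113), (10, A7.g73), (168, A7.g69), (2, A7.g85),
     (1, A7.g83), (76, A7.g51), (1, A7.g115), (79, A7.g91), (15, A7.g59), (2, A7.g95), (2, A7.g63)]),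
   ((6, 6517776), 164,
    [(409, A0.g42), (264, A0.g38), (495, A0.g41), (546, A0.g37), (409, A0.g35), (91, A0.g39),
     (9, A8.g32), (2, A8.g20), (9, A8.g52), (2, A8.g28), (3, A8.g26), (1, A8.g122), (2, A8.g118),
     (9, A8.g126), (1, A8.g33), (4, A8.g21), (2, A8.g53), (16, A8.g117), (60, A8.g19),
     (1, A8.g27), (29, A4.g40), (21, A4.g36), (88, A4.g20), (168, A4.g116), (23, A4.g28),
     (7, A4.g124), (286, A4.g34), (56, A4.g122), (4, A4.g22), (22, A4.g118), (68, A4.g21),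
     (75, A4.g117), (11, A4.g29), (1, A4.g125), (34, A4.g35), (337, A4.g19), (117, A4.g27),
     (21, A4.g123), (1, A6.g8), (37, A6.g120), (1, A6.g20), (4, A6.g12), (1, A6.g18),
     (10, A6.g6), (8, A6.g126), (26, A6.g17), (1, A6.g41), (1, A6.g121), (130, A6.g5),
     (1, A6.g13), (31, A6.g125), (5, A6.g7), (3, A6.g39), (58, A6.g119), (7, A6.g127),
     (99, A1.g0), (117, A1.g32), (7, A1.g48), (125, A1.g40), (410, A1.g4), (4, A1.g34),
     (377, A1.g26), (71, A1.g6), (821, A1.g38), (114, A1.g46), (88, A1.g33), (9, A1.g41),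
     (365, A1.g25), (134, A1.g5), (97, A1.g27), (9, A1.g7), (146, A1.g39), (13, A1.g47),
     (319, A1.g31), (1, A9.g52), (1, A9.g11), (116, A5.g32), (11, A5.g8), (1, A5.g40),
     (2, A5.g4), (14, A5.g44), (20, A5.g2), (11, A5.g34), (264, A5.g1), (14, A5.g33),
     (22, A5.g3), (1, A5.g35), (1, A5.g39), (128, A3.g48), (590, A3.g40), (7, A3.g36),
     (287, A3.g28), (121, A3.g34), (14, A3.g50), (102, A3.g42), (251, A3.g33), (18, A3.g49),
     (98, A3.g41), (96, A3.g29), (116, A3.g35), (13, A3.g43), (365, A3.g27), (6, A7.g4),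
     (2, A7.g44), (8, A7.g10), (2, A7.g6), (7, A7.g38), (4, A7.g5), (50, A7.g37), (2, A7.g45),
     (95, A7.g3), (1, A7.g11), (6, A7.g39), (7, A7.g47)]),
   ((10, 425360507664), 276,
    [(9, A8.g32), (1, A8.g16), (56, A8.g8), (12, A8.g10), (1, A8.g33), (8, A8.g9), (4, A8.g15),
     (1, A8.g47), (8, A4.g8), (29, A4.g40), (21, A4.g36), (286, A4.g34), (97, A4.g6),
     (15, A4.g14), (557, A4.g5), (109, A4.g13), (34, A4.g35), (63, A4.g7), (21, A4.g15),
     (739, A2.g0), (80, A2.g32), (129, A2.g16), (629, A2.g48), (331, A2.g8), (331, A2.g24),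
     (103, A2.g10), (71, A2.g26), (585, A2.g14), (342, A2.g30), (122, A2.g1), (3, A2.g33),
     (19, A2.g17), (478, A2.g9), (336, A2.g25), (103, A2.g15), (130, A2.g31), (1, A6.g20),
     (1, A6.g18), (3, A6.g1), (7, A6.g33), (26, A6.g17), (1, A6.g41), (446, A1.g52),
     (413, A1.g50), (45, A9.g21), (3, A5.g80), (7, A5.g112), (8, A5.g76), (1, A5.g60),
     (29, A5.g74), (56, A5.g54), (104, A5.g94), (2, A5.g126), (11, A5.g97), (1, A5.g81),
     (20, A5.g53), (1, A5.g77), (107, A5.g125), (5, A5.g75), (56, A5.g59), (15, A5.g55),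
     (145, A3.g0), (339, A3.g16), (128, A3.g48), (10, A3.g8), (590, A3.g40), (119, A3.g24),
     (9, A3.g2), (84, A3.g18), (14, A3.g50), (102, A3.g42), (372, A3.g22), (154, A3.g1),
     (311, A3.g17), (18, A3.g49), (17, A3.g9), (98, A3.g41), (11, A3.g25), (13, A3.g43),
     (171, A3.g7), (145, A3.g23), (17, A7.g56), (40, A7.g120), (1, A7.g100), (8, A7.g84),
     (46, A7.g60), (42, A7.g54), (8, A7.g78), (10, A7.g62), (1, A7.g121), (2, A7.g101),
     (2, A7.g85), (121, A7.g77), (8, A7.g61), (64, A7.g99), (87, A7.g55), (28, A7.g79),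
     (2, A7.g63)])]

/-- lights 82 -/
noncomputable def plA_82 : List ((ℕ × ℕ) × ℕ × List (ℕ × ℕ)) :=
  [((0, 0), 82,
    [(387, A0.g8), (42, A0.g24), (279, A0.g20), (43, A0.g12), (1, A0.g28), (485, A0.g18),
     (188, A0.g9), (120, A0.g21), (299, A0.g11), (50, A0.g27), (296, A0.g23), (22, A8.g86),
     (6, A8.g46), (109, A4.g32), (8, A4.g8), (39, A4.g4), (55, A4.g68), (21, A4.g36),
     (7, A4.g12), (2, A4.g98), (20, A4.g74), (17, A4.g90), (68, A4.g70), (1, A4.g94),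
     (6, A4.g33), (9, A4.g97), (71, A4.g73), (39, A4.g89), (9, A4.g77), (8, A4.g93),
     (195, A4.g3), (88, A4.g11), (63, A4.g7), (15, A4.g71), (11, A4.g39), (21, A4.g15),
     (80, A2.g32), (263, A2.g28), (71, A2.g26), (238, A2.g46), (3, A2.g33), (336, A2.g25),
     (63, A2.g29), (97, A2.g23), (48, A2.g47), (21, A6.g96), (14, A6.g72), (49, A6.g92),
     (48, A6.g74), (8, A6.g78), (48, A6.g69), (1, A6.g101), (11, A6.g93), (16, A6.g99),
     (4, A6.g75), (46, A6.g71), (1, A6.g79), (71, A1.g16), (7, A1.g48), (125, A1.g40),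
     (272, A1.g36), (54, A1.g44), (245, A1.g18), (76, A1.g22), (9, A1.g41), (62, A1.g37),
     (283, A1.g13), (4, A1.g45), (32, A1.g19), (5, A1.g23), (473, A1.g15), (29, A5.g24),
     (79, A5.g20), (1, A5.g46), (6, A5.g21), (30, A5.g93), (12, A5.g43), (3, A5.g27),
     (2, A5.g111), (9, A3.g2), (8, A3.g6), (154, A3.g1), (17, A3.g9), (51, A3.g5), (1, A7.g104),
     (6, A7.g24), (1, A7.g28), (1, A7.g98), (7, A7.g118), (82, A7.g97), (1, A7.g121),
     (2, A7.g101), (4, A7.g27), (17, A7.g23), (1, A7.g119), (3, A7.g31)]),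
   ((4, 38449), 140,
    [(350, A0.g32), (61, A0.g34), (264, A0.g38), (334, A0.g33), (546, A0.g37), (363, A0.g29),
     (91, A0.g39), (1, A8.g16), (8, A8.g4), (2, A8.g28), (95, A8.g2), (28, A8.g106), (3, A8.g26),
     (1, A8.g122), (6, A8.g3), (5, A8.g107), (1, A8.g27), (4, A8.g15), (73, A4.g0),
     (90, A4.g112), (29, A4.g40), (9, A4.g104), (23, A4.g28), (7, A4.g124), (5, A4.g114),
     (56, A4.g122), (56, A4.g102), (15, A4.g14), (1, A4.g1), (4, A4.g113), (109, A4.g13),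
     (11, A4.g29), (1, A4.g125), (117, A4.g27), (21, A4.g123), (37, A4.g103), (21, A4.g15),
     (107, A6.g104), (1, A6.g20), (18, A6.g116), (4, A6.g12), (107, A6.g114), (17, A6.g106),
     (1, A6.g30), (8, A6.g126), (3, A6.g1), (63, A6.g105), (2, A6.g117), (1, A6.g13),
     (31, A6.g125), (19, A6.g115), (7, A6.g127), (117, A1.g32), (7, A1.g48), (410, A1.g4),
     (400, A1.g20), (33, A1.g12), (4, A1.g34), (310, A1.g10), (71, A1.g6), (76, A1.g22),
     (114, A1.g46), (88, A1.g33), (134, A1.g5), (86, A1.g21), (333, A1.g11), (9, A1.g7),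
     (5, A1.g23), (13, A1.g47), (319, A1.g31), (1, A9.g7), (38, A5.g16), (11, A5.g8),
     (1, A5.g40), (45, A5.g120), (7, A5.g28), (6, A5.g18), (11, A5.g17), (1, A5.g121),
     (1, A5.g39), (128, A3.g48), (119, A3.g24), (7, A3.g36), (223, A3.g12), (121, A3.g34),
     (14, A3.g50), (269, A3.g58), (372, A3.g22), (107, A3.g14), (251, A3.g33), (18, A3.g49),
     (11, A3.g25), (356, A3.g13), (116, A3.g35), (68, A3.g59), (145, A3.g23), (15, A7.g32),
     (10, A7.g20), (2, A7.g44), (8, A7.g10), (1, A7.g33), (27, A7.g21), (2, A7.g45),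
     (73, A7.g19), (1, A7.g11)]),
   ((4, 38720), 97,
    [(42, A0.g24), (1, A0.g28), (485, A0.g18), (71, A0.g26), (317, A0.g22), (162, A0.g14),
     (26, A0.g17), (120, A0.g21), (316, A0.g13), (414, A0.g19), (376, A0.g15), (2, A8.g50),
     (45, A8.g90), (2, A8.g53), (4, A8.g93), (4, A8.g95), (14, A4.g96), (244, A4.g16),
     (70, A4.g24), (69, A4.g88), (88, A4.g20), (9, A4.g84), (23, A4.g28), (6, A4.g92),
     (2, A4.g98), (30, A4.g18), (135, A4.g82), (8, A4.g26), (17, A4.g90), (11, A4.g38),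
     (4, A4.g22), (19, A4.g86), (153, A4.g78), (1, A4.g94), (6, A4.g33), (12, A4.g81),
     (34, A4.g35), (270, A4.g79), (105, A4.g31), (20, A2.g40), (3, A2.g44), (122, A2.g34),
     (116, A2.g42), (261, A2.g38), (59, A2.g37), (263, A2.g45), (462, A2.g35), (48, A2.g47),
     (98, A6.g80), (7, A6.g88), (2, A6.g36), (117, A6.g84), (15, A6.g98), (1, A6.g90),
     (2, A6.g38), (16, A6.g86), (70, A6.g81), (11, A6.g93), (13, A6.g83), (55, A6.g91),
     (9, A6.g95), (117, A1.g32), (244, A1.g24), (274, A1.g28), (4, A1.g34), (56, A1.g30),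
     (9, A1.g41), (365, A1.g25), (62, A1.g37), (4, A1.g45), (349, A1.g35), (87, A1.g43),
     (97, A1.g27), (146, A1.g39), (13, A1.g47), (2, A9.g39), (1, A5.g40), (2, A5.g100),
     (49, A5.g98), (8, A5.g42), (17, A5.g102), (3, A5.g110), (14, A5.g33), (10, A5.g105),
     (5, A5.g37), (38, A5.g29), (1, A5.g35), (17, A5.g31), (145, A3.g0), (10, A3.g8),
     (116, A3.g4), (9, A3.g2), (8, A3.g6), (3, A7.g112), (2, A7.g36), (21, A7.g34), (7, A7.g38),
     (3, A7.g41), (66, A7.g105), (2, A7.g117), (20, A7.g109), (3, A7.g43), (5, A7.g107),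
     (1, A7.g119)]),
   ((6, 484401), 268,
    [(1, A8.g16), (8, A8.g4), (2, A8.g28), (95, A8.g2), (3, A8.g26), (6, A8.g3), (1, A8.g27),
     (4, A8.g15), (73, A4.g0), (29, A4.g40), (23, A4.g28), (15, A4.g14), (1, A4.g1),
     (109, A4.g13), (11, A4.g29), (117, A4.g27), (21, A4.g15), (739, A2.g0), (80, A2.g32),
     (129, A2.g16), (505, A2.g4), (433, A2.g20), (3, A2.g44), (116, A2.g42), (68, A2.g6),
     (40, A2.g22), (585, A2.g14), (342, A2.g30), (122, A2.g1), (3, A2.g33), (19, A2.g17),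
     (356, A2.g41), (437, A2.g5), (142, A2.g21), (58, A2.g43), (103, A2.g15), (130, A2.g31),
     (1, A6.g20), (4, A6.g12), (1, A6.g30), (3, A6.g1), (1, A6.g13), (446, A1.g52),
     (295, A1.g49), (20, A9.g18), (3, A5.g80), (45, A5.g120), (73, A5.g68), (1, A5.g108),
     (1, A5.g60), (35, A5.g50), (13, A5.g90), (13, A5.g70), (11, A5.g97), (1, A5.g81),
     (45, A5.g49), (29, A5.g89), (1, A5.g121), (18, A5.g69), (14, A5.g51), (4, A5.g107),
     (6, A5.g91), (56, A5.g59), (128, A3.g48), (10, A3.g8), (119, A3.g24), (7, A3.g36),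
     (223, A3.g12), (121, A3.g34), (14, A3.g50), (269, A3.g58), (372, A3.g22), (107, A3.g14),
     (251, A3.g33), (18, A3.g49), (17, A3.g9), (11, A3.g25), (356, A3.g13), (116, A3.g35),
     (68, A3.g59), (171, A3.g7), (145, A3.g23), (4, A7.g72), (8, A7.g84), (7, A7.g52),
     (46, A7.g60), (79, A7.g50), (2, A7.g114), (1, A7.g94), (10, A7.g62), (10, A7.g73),
     (2, A7.g85), (85, A7.g93), (8, A7.g61), (76, A7.g51), (1, A7.g115), (60, A7.g71),
     (2, A7.g95), (2, A7.g63)]),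
   ((6, 6517776), 161,
    [(352, A0.g40), (183, A0.g36), (495, A0.g41), (546, A0.g37), (409, A0.g35), (91, A0.g39),
     (1, A8.g120), (2, A8.g20), (2, A8.g116), (8, A8.g124), (2, A8.g50), (17, A8.g114),
     (2, A8.g118), (4, A8.g30), (72, A8.g17), (1, A8.g25), (2, A8.g53), (1, A8.g27), (2, A8.g23),
     (244, A4.g16), (70, A4.g24), (88, A4.g20), (168, A4.g116), (23, A4.g28), (30, A4.g18),
     (8, A4.g26), (11, A4.g38), (4, A4.g22), (22, A4.g118), (298, A4.g126), (6, A4.g33),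
     (3, A4.g121), (1, A4.g125), (34, A4.g35), (113, A4.g115), (21, A4.g123), (40, A4.g119),
     (105, A4.g31), (1, A6.g8), (31, A6.g4), (2, A6.g36), (6, A6.g124), (66, A6.g2),
     (14, A6.g10), (103, A6.g122), (10, A6.g6), (2, A6.g38), (72, A6.g118), (8, A6.g126),
     (1, A6.g121), (1, A6.g13), (58, A6.g119), (20, A6.g15), (99, A1.g0), (117, A1.g32),
     (244, A1.g24), (274, A1.g28), (4, A1.g34), (56, A1.g30), (262, A1.g1), (9, A1.g41),
     (365, A1.g25), (134, A1.g5), (62, A1.g37), (4, A1.g45), (34, A1.g3), (349, A1.g35),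
     (87, A1.g43), (97, A1.g27), (9, A1.g7), (146, A1.g39), (13, A1.g47), (18, A5.g0),
     (1, A5.g40), (2, A5.g4), (20, A5.g2), (8, A5.g42), (10, A5.g6), (14, A5.g33), (5, A5.g37),
     (38, A5.g29), (1, A5.g35), (17, A5.g31), (93, A3.g32), (7, A3.g36), (121, A3.g34),
     (336, A3.g26), (215, A3.g30), (18, A3.g49), (98, A3.g41), (442, A3.g37), (145, A3.g45),
     (96, A3.g29), (13, A3.g43), (365, A3.g27), (93, A3.g39), (7, A3.g47), (49, A7.g0),
     (11, A7.g8), (6, A7.g4), (2, A7.g36), (6, A7.g2), (21, A7.g34), (2, A7.g6), (7, A7.g38),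
     (3, A7.g41), (1, A7.g11), (3, A7.g43)]),
   ((10, 425360507664), 274,
    [(1, A8.g16), (12, A8.g10), (36, A8.g6), (1, A8.g14), (6, A8.g46), (1, A8.g33), (5, A8.g13),
     (19, A8.g7), (1, A8.g31), (109, A4.g32), (8, A4.g8), (39, A4.g4), (21, A4.g36), (7, A4.g12),
     (6, A4.g33), (195, A4.g3), (88, A4.g11), (63, A4.g7), (11, A4.g39), (21, A4.g15),
     (739, A2.g0), (80, A2.g32), (129, A2.g16), (302, A2.g12), (263, A2.g28), (103, A2.g10),
     (71, A2.g26), (238, A2.g46), (122, A2.g1), (3, A2.g33), (19, A2.g17), (478, A2.g9),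
     (336, A2.g25), (40, A2.g13), (63, A2.g29), (291, A2.g7), (97, A2.g23), (48, A2.g47),
     (11, A6.g16), (1, A6.g18), (413, A1.g50), (171, A1.g51), (16, A9.g20), (1, A9.g29),
     (68, A5.g72), (35, A5.g52), (8, A5.g76), (1, A5.g60), (5, A5.g124), (1, A5.g58),
     (56, A5.g54), (2, A5.g126), (1, A5.g81), (17, A5.g73), (43, A5.g57), (1, A5.g77),
     (30, A5.g93), (90, A5.g123), (15, A5.g55), (3, A5.g79), (2, A5.g111), (119, A3.g24),
     (235, A3.g20), (9, A3.g2), (84, A3.g18), (14, A3.g50), (102, A3.g42), (8, A3.g6),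
     (398, A3.g38), (146, A3.g46), (154, A3.g1), (311, A3.g17), (17, A3.g9), (11, A3.g25),
     (51, A3.g5), (70, A3.g21), (13, A3.g43), (93, A3.g39), (272, A3.g15), (7, A3.g47),
     (1, A7.g104), (17, A7.g56), (21, A7.g76), (1, A7.g98), (14, A7.g82), (71, A7.g58),
     (7, A7.g118), (10, A7.g62), (82, A7.g97), (1, A7.g121), (2, A7.g101), (2, A7.g85),
     (109, A7.g53), (1, A7.g83), (135, A7.g75), (15, A7.g59), (87, A7.g55), (1, A7.g119),
     (28, A7.g79), (2, A7.g63)])]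

/-- lights 84 -/
noncomputable def plA_84 : List ((ℕ × ℕ) × ℕ × List (ℕ × ℕ)) :=
  [((0, 0), 84,
    [(387, A0.g8), (279, A0.g20), (43, A0.g12), (1, A0.g28), (227, A0.g10), (71, A0.g26),
     (307, A0.g25), (120, A0.g21), (414, A0.g19), (299, A0.g11), (50, A0.g27), (5, A8.g99),
     (7, A8.g87), (1, A8.g47), (8, A4.g8), (29, A4.g40), (21, A4.g36), (4, A4.g76), (6, A4.g92),
     (286, A4.g34), (97, A4.g6), (68, A4.g70), (15, A4.g14), (1, A4.g94), (557, A4.g5),
     (50, A4.g69), (109, A4.g13), (9, A4.g77), (8, A4.g93), (34, A4.g35), (6, A4.g99),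
     (81, A4.g75), (86, A4.g91), (63, A4.g7), (15, A4.g71), (21, A4.g15), (80, A2.g32),
     (629, A2.g48), (331, A2.g24), (71, A2.g26), (342, A2.g30), (3, A2.g33), (336, A2.g25),
     (130, A2.g31), (21, A6.g96), (14, A6.g72), (3, A6.g100), (66, A6.g76), (12, A6.g70),
     (8, A6.g78), (55, A6.g94), (7, A6.g33), (1, A6.g41), (1, A6.g101), (4, A6.g77),
     (46, A6.g71), (1, A6.g79), (9, A6.g95), (71, A1.g16), (7, A1.g48), (125, A1.g40),
     (400, A1.g20), (821, A1.g38), (76, A1.g22), (397, A1.g14), (114, A1.g46), (9, A1.g41),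
     (86, A1.g21), (146, A1.g39), (5, A1.g23), (473, A1.g15), (13, A1.g47), (1, A9.g9),
     (7, A5.g112), (29, A5.g24), (14, A5.g44), (7, A5.g28), (125, A5.g22), (104, A5.g94),
     (11, A5.g97), (17, A5.g23), (145, A3.g0), (10, A3.g8), (9, A3.g2), (154, A3.g1),
     (17, A3.g9), (171, A3.g7), (15, A7.g32), (40, A7.g120), (1, A7.g100), (1, A7.g28),
     (7, A7.g26), (1, A7.g33), (74, A7.g25), (1, A7.g121), (2, A7.g101), (64, A7.g99),
     (4, A7.g27), (7, A7.g47)]),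
   ((4, 38449), 138,
    [(183, A0.g36), (61, A0.g34), (264, A0.g38), (334, A0.g33), (363, A0.g29), (91, A0.g39),
     (179, A0.g31), (53, A8.g0), (1, A8.g16), (10, A8.g24), (8, A8.g4), (2, A8.g28), (1, A8.g14),
     (4, A8.g1), (12, A8.g105), (1, A8.g25), (2, A8.g121), (5, A8.g13), (10, A8.g43),
     (73, A4.g0), (9, A4.g104), (54, A4.g120), (7, A4.g12), (7, A4.g124), (5, A4.g114),
     (8, A4.g26), (41, A4.g110), (1, A4.g1), (157, A4.g25), (3, A4.g121), (15, A4.g101),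
     (11, A4.g29), (1, A4.g125), (88, A4.g11), (11, A4.g39), (37, A4.g103), (21, A4.g15),
     (1, A4.g111), (53, A6.g112), (18, A6.g116), (6, A6.g124), (17, A6.g106), (18, A6.g113),
     (63, A6.g105), (2, A6.g117), (12, A6.g11), (58, A6.g123), (49, A6.g103), (7, A6.g127),
     (7, A1.g48), (33, A1.g12), (54, A1.g44), (210, A1.g2), (4, A1.g34), (245, A1.g18),
     (71, A1.g6), (76, A1.g22), (56, A1.g30), (88, A1.g33), (141, A1.g9), (4, A1.g45),
     (331, A1.g29), (34, A1.g3), (32, A1.g19), (333, A1.g11), (9, A1.g7), (5, A1.g23),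
     (1, A9.g6), (6, A5.g18), (15, A5.g38), (26, A5.g14), (1, A5.g46), (3, A5.g27), (8, A5.g7),
     (19, A5.g119), (4, A5.g15), (93, A3.g32), (119, A3.g24), (319, A3.g56), (7, A3.g36),
     (235, A3.g20), (14, A3.g50), (107, A3.g14), (146, A3.g46), (11, A3.g25), (25, A3.g57),
     (70, A3.g21), (356, A3.g13), (116, A3.g35), (227, A3.g11), (7, A3.g47), (474, A3.g31),
     (9, A7.g18), (11, A7.g42), (124, A7.g17), (5, A7.g9), (27, A7.g21), (2, A7.g45),
     (3, A7.g43), (3, A7.g31)]),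
   ((4, 38720), 100,
    [(180, A0.g16), (279, A0.g20), (1, A0.g28), (71, A0.g26), (26, A0.g17), (307, A0.g25),
     (120, A0.g21), (316, A0.g13), (414, A0.g19), (50, A0.g27), (376, A0.g15), (9, A8.g52),
     (33, A8.g92), (1, A8.g97), (2, A8.g53), (4, A8.g93), (5, A8.g99), (124, A4.g80),
     (29, A4.g40), (21, A4.g36), (88, A4.g20), (23, A4.g28), (6, A4.g92), (286, A4.g34),
     (4, A4.g22), (19, A4.g86), (1, A4.g94), (12, A4.g81), (68, A4.g21), (198, A4.g85),
     (11, A4.g29), (8, A4.g93), (34, A4.g35), (6, A4.g99), (337, A4.g19), (117, A4.g27),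
     (86, A4.g91), (7, A4.g87), (270, A4.g79), (629, A2.g48), (197, A2.g36), (3, A2.g44),
     (116, A2.g42), (356, A2.g41), (59, A2.g37), (462, A2.g35), (58, A2.g43), (21, A6.g96),
     (7, A6.g88), (3, A6.g100), (50, A6.g82), (1, A6.g90), (55, A6.g94), (70, A6.g81),
     (1, A6.g41), (16, A6.g89), (1, A6.g101), (13, A6.g83), (3, A6.g39), (43, A6.g87),
     (9, A6.g95), (117, A1.g32), (7, A1.g48), (125, A1.g40), (4, A1.g34), (377, A1.g26),
     (821, A1.g38), (114, A1.g46), (88, A1.g33), (9, A1.g41), (365, A1.g25), (97, A1.g27),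
     (146, A1.g39), (13, A1.g47), (319, A1.g31), (1, A9.g41), (1, A9.g11), (116, A5.g32),
     (7, A5.g112), (1, A5.g40), (14, A5.g44), (1, A5.g108), (11, A5.g34), (17, A5.g102),
     (14, A5.g33), (57, A5.g101), (1, A5.g35), (4, A5.g107), (1, A5.g39), (5, A5.g103),
     (145, A3.g0), (10, A3.g8), (9, A3.g2), (154, A3.g1), (17, A3.g9), (171, A3.g7),
     (40, A7.g120), (2, A7.g44), (97, A7.g108), (2, A7.g114), (7, A7.g38), (7, A7.g110),
     (1, A7.g121), (50, A7.g37), (2, A7.g45), (20, A7.g109), (1, A7.g115), (6, A7.g39),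
     (7, A7.g47)]),
   ((6, 484401), 265,
    [(21, A8.g12), (6, A8.g42), (1, A8.g14), (4, A8.g1), (1, A8.g25), (6, A8.g3), (1, A8.g27),
     (2, A8.g23), (70, A4.g24), (7, A4.g12), (23, A4.g28), (193, A4.g10), (8, A4.g26),
     (11, A4.g38), (15, A4.g14), (1, A4.g1), (20, A2.g40), (505, A2.g4), (433, A2.g20),
     (3, A2.g44), (116, A2.g42), (68, A2.g6), (261, A2.g38), (40, A2.g22), (122, A2.g1),
     (3, A2.g33), (19, A2.g17), (40, A2.g13), (63, A2.g29), (229, A2.g3), (120, A2.g19),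
     (244, A2.g11), (432, A2.g27), (103, A2.g15), (130, A2.g31), (36, A6.g0), (14, A6.g10),
     (1, A6.g30), (1, A6.g13), (5, A6.g29), (446, A1.g52), (295, A1.g49), (171, A1.g51),
     (16, A9.g16), (1, A9.g48), (7, A9.g35), (21, A5.g96), (39, A5.g48), (3, A5.g88),
     (57, A5.g56), (13, A5.g90), (1, A5.g58), (80, A5.g86), (58, A5.g118), (79, A5.g65),
     (45, A5.g49), (10, A5.g105), (1, A5.g121), (18, A5.g69), (6, A5.g67), (14, A5.g51),
     (93, A3.g32), (10, A3.g8), (116, A3.g4), (7, A3.g36), (223, A3.g12), (121, A3.g34),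
     (8, A3.g6), (107, A3.g14), (215, A3.g30), (18, A3.g49), (11, A3.g25), (25, A3.g57),
     (70, A3.g21), (145, A3.g45), (443, A3.g19), (227, A3.g11), (68, A3.g59), (145, A3.g23),
     (260, A3.g55), (7, A3.g47), (3, A7.g112), (4, A7.g72), (49, A7.g68), (7, A7.g52),
     (2, A7.g92), (79, A7.g50), (83, A7.g90), (9, A7.g70), (1, A7.g94), (1, A7.g81),
     (48, A7.g49), (72, A7.g57), (8, A7.g61), (1, A7.g83), (15, A7.g59), (3, A7.g103),
     (2, A7.g63), (63, A7.g127)]),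
   ((6, 6517776), 162,
    [(352, A0.g40), (183, A0.g36), (409, A0.g42), (264, A0.g38), (409, A0.g35), (91, A0.g39),
     (10, A8.g24), (2, A8.g116), (2, A8.g28), (37, A8.g18), (1, A8.g33), (1, A8.g25),
     (2, A8.g121), (4, A8.g21), (1, A8.g125), (4, A8.g51), (20, A8.g115), (1, A8.g31),
     (109, A4.g32), (54, A4.g120), (21, A4.g36), (7, A4.g124), (30, A4.g18), (8, A4.g26),
     (4, A4.g22), (22, A4.g118), (6, A4.g33), (222, A4.g17), (157, A4.g25), (3, A4.g121),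
     (68, A4.g21), (75, A4.g117), (11, A4.g29), (1, A4.g125), (113, A4.g115), (11, A4.g39),
     (130, A4.g127), (11, A6.g16), (1, A6.g8), (37, A6.g120), (31, A6.g4), (6, A6.g124),
     (1, A6.g18), (2, A6.g38), (72, A6.g118), (1, A6.g121), (15, A6.g37), (90, A6.g3),
     (12, A6.g11), (58, A6.g123), (5, A6.g7), (7, A6.g127), (99, A1.g0), (7, A1.g48),
     (125, A1.g40), (244, A1.g24), (272, A1.g36), (54, A1.g44), (210, A1.g2), (4, A1.g34),
     (377, A1.g26), (71, A1.g6), (56, A1.g30), (88, A1.g33), (9, A1.g41), (62, A1.g37),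
     (4, A1.g45), (331, A1.g29), (34, A1.g3), (97, A1.g27), (9, A1.g7), (18, A5.g0), (2, A5.g4),
     (11, A5.g34), (15, A5.g38), (1, A5.g46), (74, A5.g30), (22, A5.g3), (1, A5.g35),
     (12, A5.g43), (8, A5.g7), (17, A5.g31), (93, A3.g32), (7, A3.g36), (287, A3.g28),
     (14, A3.g50), (102, A3.g42), (336, A3.g26), (398, A3.g38), (146, A3.g46), (96, A3.g29),
     (116, A3.g35), (13, A3.g43), (93, A3.g39), (7, A3.g47), (474, A3.g31), (2, A7.g36),
     (6, A7.g2), (11, A7.g42), (2, A7.g6), (66, A7.g1), (5, A7.g9), (4, A7.g5), (2, A7.g45),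
     (47, A7.g35), (3, A7.g43), (6, A7.g39)]),
   ((10, 425360507664), 273,
    [(21, A8.g12), (1, A8.g14), (4, A8.g30), (8, A8.g9), (125, A8.g5), (6, A8.g45), (19, A8.g7),
     (1, A8.g47), (8, A4.g8), (39, A4.g4), (7, A4.g12), (265, A4.g2), (193, A4.g10), (97, A4.g6),
     (11, A4.g38), (15, A4.g14), (6, A4.g33), (34, A4.g35), (105, A4.g31), (331, A2.g8),
     (331, A2.g24), (103, A2.g10), (71, A2.g26), (122, A2.g1), (3, A2.g33), (19, A2.g17),
     (40, A2.g13), (263, A2.g45), (63, A2.g29), (244, A2.g11), (432, A2.g27), (291, A2.g7),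
     (97, A2.g23), (103, A2.g15), (48, A2.g47), (130, A2.g31), (36, A6.g0), (1, A6.g32),
     (20, A6.g15), (446, A1.g52), (413, A1.g50), (171, A1.g51), (1, A9.g50), (1, A9.g37),
     (13, A9.g19), (21, A5.g96), (57, A5.g56), (35, A5.g52), (59, A5.g92), (5, A5.g124),
     (1, A5.g58), (45, A5.g122), (3, A5.g110), (17, A5.g73), (20, A5.g53), (1, A5.g77),
     (5, A5.g75), (63, A5.g71), (15, A5.g55), (145, A3.g0), (339, A3.g16), (10, A3.g8),
     (116, A3.g4), (9, A3.g2), (84, A3.g18), (8, A3.g6), (18, A3.g49), (98, A3.g41),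
     (11, A3.g25), (442, A3.g37), (70, A3.g21), (145, A3.g45), (443, A3.g19), (13, A3.g43),
     (93, A3.g39), (145, A3.g23), (272, A3.g15), (7, A3.g47), (29, A7.g96), (17, A7.g56),
     (1, A7.g100), (21, A7.g76), (1, A7.g98), (65, A7.g74), (42, A7.g54), (8, A7.g78),
     (1, A7.g81), (72, A7.g57), (109, A7.g53), (2, A7.g117), (8, A7.g61), (1, A7.g83),
     (15, A7.g59), (3, A7.g103), (1, A7.g119), (2, A7.g63)])]

/-- lights 88 -/
noncomputable def plA_88 : List ((ℕ × ℕ) × ℕ × List (ℕ × ℕ)) :=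
  [((0, 0), 88,
    [(42, A0.g24), (43, A0.g12), (1, A0.g28), (227, A0.g10), (71, A0.g26), (317, A0.g22),
     (188, A0.g9), (307, A0.g25), (299, A0.g11), (50, A0.g27), (296, A0.g23), (17, A8.g48),
     (23, A8.g88), (4, A8.g100), (1, A8.g89), (14, A4.g96), (143, A4.g72), (29, A4.g40),
     (7, A4.g12), (4, A4.g76), (2, A4.g98), (193, A4.g10), (20, A4.g74), (11, A4.g38),
     (15, A4.g14), (9, A4.g97), (500, A4.g9), (71, A4.g73), (127, A4.g37), (109, A4.g13),
     (9, A4.g77), (6, A4.g99), (88, A4.g11), (81, A4.g75), (11, A4.g39), (21, A4.g15),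
     (54, A4.g95), (80, A2.g32), (263, A2.g28), (342, A2.g30), (3, A2.g33), (63, A2.g29),
     (432, A2.g27), (130, A2.g31), (3, A6.g100), (66, A6.g76), (2, A6.g34), (15, A6.g98),
     (48, A6.g74), (8, A6.g78), (147, A6.g97), (60, A6.g73), (1, A6.g101), (4, A6.g77),
     (16, A6.g99), (4, A6.g75), (1, A6.g79), (7, A1.g48), (400, A1.g20), (54, A1.g44),
     (245, A1.g18), (263, A1.g42), (76, A1.g22), (114, A1.g46), (324, A1.g17), (86, A1.g21),
     (4, A1.g45), (32, A1.g19), (87, A1.g43), (5, A1.g23), (13, A1.g47), (21, A5.g96),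
     (7, A5.g28), (4, A5.g26), (1, A5.g46), (11, A5.g97), (2, A5.g113), (57, A5.g25),
     (2, A5.g45), (3, A5.g27), (53, A5.g95), (10, A3.g8), (116, A3.g4), (8, A3.g6), (17, A3.g9),
     (51, A3.g5), (216, A3.g3), (171, A3.g7), (15, A7.g32), (1, A7.g104), (4, A7.g122),
     (53, A7.g102), (7, A7.g30), (1, A7.g33), (48, A7.g29), (3, A7.g103), (3, A7.g31)]),
   ((4, 38449), 152,
    [(350, A0.g32), (61, A0.g34), (334, A0.g33), (179, A0.g31), (1, A8.g16), (17, A8.g48),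
     (13, A8.g112), (21, A8.g12), (6, A8.g34), (1, A8.g14), (3, A8.g113), (5, A8.g13),
     (53, A8.g11), (4, A8.g15), (4, A8.g127), (90, A4.g112), (29, A4.g40), (7, A4.g12),
     (5, A4.g114), (193, A4.g10), (11, A4.g38), (15, A4.g14), (41, A4.g110), (4, A4.g113),
     (500, A4.g9), (127, A4.g37), (109, A4.g13), (57, A4.g109), (88, A4.g11), (11, A4.g39),
     (21, A4.g15), (1, A4.g111), (36, A6.g0), (53, A6.g112), (1, A6.g20), (18, A6.g116),
     (2, A6.g34), (107, A6.g114), (3, A6.g1), (18, A6.g113), (2, A6.g117), (2, A6.g19),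
     (19, A6.g115), (147, A6.g111), (7, A1.g48), (410, A1.g4), (400, A1.g20), (54, A1.g44),
     (210, A1.g2), (245, A1.g18), (263, A1.g42), (71, A1.g6), (76, A1.g22), (114, A1.g46),
     (262, A1.g1), (324, A1.g17), (134, A1.g5), (86, A1.g21), (4, A1.g45), (34, A1.g3),
     (32, A1.g19), (87, A1.g43), (9, A1.g7), (5, A1.g23), (13, A1.g47), (11, A5.g8), (7, A5.g28),
     (4, A5.g26), (10, A5.g6), (1, A5.g46), (57, A5.g25), (94, A5.g5), (2, A5.g45), (3, A5.g27),
     (8, A5.g7), (111, A5.g127), (128, A3.g48), (119, A3.g24), (235, A3.g20), (269, A3.g44),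
     (14, A3.g50), (372, A3.g22), (146, A3.g46), (18, A3.g49), (11, A3.g25), (70, A3.g21),
     (145, A3.g45), (443, A3.g19), (145, A3.g23), (7, A3.g47), (15, A7.g32), (11, A7.g8),
     (8, A7.g10), (7, A7.g30), (1, A7.g33), (5, A7.g9), (48, A7.g29), (1, A7.g11), (31, A7.g7),
     (3, A7.g31)]),
   ((4, 38720), 104,
    [(180, A0.g16), (42, A0.g24), (1, A0.g28), (71, A0.g26), (317, A0.g22), (162, A0.g14),
     (26, A0.g17), (307, A0.g25), (50, A0.g27), (296, A0.g23), (376, A0.g15), (20, A8.g96),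
     (4, A8.g100), (29, A8.g54), (78, A8.g94), (1, A8.g97), (4, A8.g95), (14, A4.g96),
     (29, A4.g40), (70, A4.g24), (9, A4.g84), (23, A4.g28), (2, A4.g98), (135, A4.g82),
     (8, A4.g26), (11, A4.g38), (19, A4.g86), (9, A4.g97), (157, A4.g25), (127, A4.g37),
     (198, A4.g85), (11, A4.g29), (6, A4.g99), (126, A4.g83), (117, A4.g27), (11, A4.g39),
     (471, A4.g23), (7, A4.g87), (54, A4.g95), (20, A2.g40), (3, A2.g44), (116, A2.g42),
     (261, A2.g38), (356, A2.g41), (58, A2.g43), (211, A2.g39), (7, A6.g88), (3, A6.g100),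
     (117, A6.g84), (15, A6.g98), (1, A6.g90), (16, A6.g86), (147, A6.g97), (16, A6.g89),
     (1, A6.g101), (172, A6.g85), (16, A6.g99), (43, A6.g87), (117, A1.g32), (7, A1.g48),
     (54, A1.g44), (274, A1.g28), (4, A1.g34), (263, A1.g42), (114, A1.g46), (56, A1.g30),
     (88, A1.g33), (4, A1.g45), (331, A1.g29), (87, A1.g43), (13, A1.g47), (319, A1.g31),
     (6, A9.g42), (1, A5.g40), (44, A5.g104), (58, A5.g36), (1, A5.g108), (8, A5.g106),
     (15, A5.g38), (1, A5.g46), (2, A5.g113), (10, A5.g105), (5, A5.g37), (2, A5.g45),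
     (4, A5.g107), (1, A5.g39), (10, A3.g8), (116, A3.g4), (8, A3.g6), (17, A3.g9), (51, A3.g5),
     (216, A3.g3), (171, A3.g7), (3, A7.g112), (42, A7.g40), (2, A7.g44), (2, A7.g114),
     (11, A7.g42), (4, A7.g122), (17, A7.g113), (3, A7.g41), (2, A7.g45), (1, A7.g115),
     (3, A7.g43), (121, A7.g111)]),
   ((6, 484401), 296,
    [(10, A8.g24), (2, A8.g28), (6, A8.g34), (3, A8.g26), (74, A8.g22), (29, A8.g54),
     (1, A8.g25), (1, A8.g27), (2, A8.g23), (29, A4.g40), (70, A4.g24), (23, A4.g28),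
     (8, A4.g26), (11, A4.g38), (157, A4.g25), (127, A4.g37), (11, A4.g29), (117, A4.g27),
     (11, A4.g39), (471, A4.g23), (129, A2.g16), (20, A2.g40), (505, A2.g4), (302, A2.g12),
     (3, A2.g44), (116, A2.g42), (68, A2.g6), (261, A2.g38), (585, A2.g14), (19, A2.g17),
     (356, A2.g41), (437, A2.g5), (40, A2.g13), (229, A2.g3), (244, A2.g11), (58, A2.g43),
     (211, A2.g39), (103, A2.g15), (1, A6.g20), (4, A6.g12), (14, A6.g10), (57, A6.g9),
     (1, A6.g13), (2, A6.g19), (12, A6.g11), (6, A9.g42), (21, A9.g26), (1, A9.g27), (3, A5.g80),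
     (44, A5.g104), (73, A5.g68), (1, A5.g108), (53, A5.g66), (8, A5.g106), (13, A5.g70),
     (51, A5.g78), (79, A5.g65), (1, A5.g81), (2, A5.g113), (10, A5.g105), (18, A5.g69),
     (6, A5.g67), (4, A5.g107), (3, A5.g79), (93, A3.g32), (128, A3.g48), (10, A3.g8),
     (116, A3.g4), (7, A3.g36), (269, A3.g44), (121, A3.g34), (14, A3.g50), (8, A3.g6),
     (146, A3.g46), (215, A3.g30), (251, A3.g33), (18, A3.g49), (17, A3.g9), (51, A3.g5),
     (145, A3.g45), (216, A3.g3), (116, A3.g35), (171, A3.g7), (7, A3.g47), (474, A3.g31),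
     (56, A7.g80), (3, A7.g112), (4, A7.g72), (49, A7.g68), (8, A7.g84), (14, A7.g82),
     (2, A7.g114), (4, A7.g122), (9, A7.g70), (1, A7.g81), (17, A7.g113), (10, A7.g73),
     (168, A7.g69), (2, A7.g85), (1, A7.g83), (1, A7.g115), (60, A7.g71), (121, A7.g111)]),
   ((6, 6517776), 176,
    [(352, A0.g40), (409, A0.g42), (495, A0.g41), (9, A8.g32), (8, A8.g124), (6, A8.g34),
     (4, A8.g30), (9, A8.g126), (1, A8.g33), (119, A8.g29), (1, A8.g125), (59, A8.g123),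
     (21, A8.g55), (1, A8.g31), (4, A8.g127), (109, A4.g32), (29, A4.g40), (21, A4.g36),
     (286, A4.g34), (11, A4.g38), (397, A4.g30), (298, A4.g126), (6, A4.g33), (127, A4.g37),
     (34, A4.g35), (11, A4.g39), (105, A4.g31), (130, A4.g127), (11, A6.g16), (2, A6.g40),
     (1, A6.g20), (1, A6.g18), (58, A6.g14), (26, A6.g17), (1, A6.g41), (2, A6.g19),
     (20, A6.g15), (99, A1.g0), (7, A1.g48), (125, A1.g40), (410, A1.g4), (272, A1.g36),
     (54, A1.g44), (210, A1.g2), (263, A1.g42), (71, A1.g6), (821, A1.g38), (114, A1.g46),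
     (262, A1.g1), (9, A1.g41), (134, A1.g5), (62, A1.g37), (4, A1.g45), (34, A1.g3),
     (349, A1.g35), (87, A1.g43), (9, A1.g7), (146, A1.g39), (13, A1.g47), (1, A9.g12),
     (2, A9.g53), (18, A5.g0), (11, A5.g8), (2, A5.g4), (14, A5.g44), (20, A5.g2), (8, A5.g42),
     (10, A5.g6), (1, A5.g46), (264, A5.g1), (45, A5.g41), (94, A5.g5), (2, A5.g45), (22, A5.g3),
     (12, A5.g43), (8, A5.g7), (128, A3.g48), (590, A3.g40), (269, A3.g44), (14, A3.g50),
     (102, A3.g42), (398, A3.g38), (146, A3.g46), (18, A3.g49), (98, A3.g41), (442, A3.g37),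
     (145, A3.g45), (13, A3.g43), (93, A3.g39), (7, A3.g47), (49, A7.g0), (11, A7.g8),
     (6, A7.g4), (6, A7.g2), (8, A7.g10), (2, A7.g6), (51, A7.g46), (66, A7.g1), (5, A7.g9),
     (4, A7.g5), (95, A7.g3), (1, A7.g11), (31, A7.g7), (7, A7.g47)]),
   ((10, 425360507664), 304,
    [(9, A8.g32), (6, A8.g34), (4, A8.g30), (1, A8.g33), (119, A8.g29), (21, A8.g55),
     (1, A8.g31), (109, A4.g32), (29, A4.g40), (21, A4.g36), (286, A4.g34), (11, A4.g38),
     (397, A4.g30), (6, A4.g33), (127, A4.g37), (34, A4.g35), (11, A4.g39), (105, A4.g31),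
     (129, A2.g16), (629, A2.g48), (331, A2.g8), (302, A2.g12), (103, A2.g10), (585, A2.g14),
     (238, A2.g46), (19, A2.g17), (478, A2.g9), (40, A2.g13), (263, A2.g45), (244, A2.g11),
     (291, A2.g7), (103, A2.g15), (48, A2.g47), (11, A6.g16), (2, A6.g40), (1, A6.g20),
     (1, A6.g18), (58, A6.g14), (26, A6.g17), (1, A6.g41), (2, A6.g19), (20, A6.g15),
     (23, A9.g28), (2, A9.g53), (1, A9.g29), (3, A5.g80), (7, A5.g112), (68, A5.g72),
     (8, A5.g76), (29, A5.g74), (51, A5.g78), (3, A5.g110), (1, A5.g81), (2, A5.g113),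
     (17, A5.g73), (1, A5.g77), (57, A5.g109), (5, A5.g75), (63, A5.g71), (3, A5.g79),
     (2, A5.g111), (145, A3.g0), (128, A3.g48), (10, A3.g8), (590, A3.g40), (116, A3.g4),
     (269, A3.g44), (9, A3.g2), (14, A3.g50), (102, A3.g42), (8, A3.g6), (398, A3.g38),
     (146, A3.g46), (154, A3.g1), (18, A3.g49), (17, A3.g9), (98, A3.g41), (51, A3.g5),
     (442, A3.g37), (145, A3.g45), (216, A3.g3), (13, A3.g43), (171, A3.g7), (93, A3.g39),
     (7, A3.g47), (56, A7.g80), (40, A7.g120), (8, A7.g84), (62, A7.g116), (21, A7.g76),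
     (14, A7.g82), (65, A7.g74), (4, A7.g122), (7, A7.g118), (8, A7.g78), (1, A7.g81),
     (1, A7.g121), (2, A7.g85), (2, A7.g117), (121, A7.g77), (1, A7.g83), (135, A7.g75),
     (1, A7.g119), (28, A7.g79)])]

/-- lights 112 -/
noncomputable def plA_112 : List ((ℕ × ℕ) × ℕ × List (ℕ × ℕ)) :=
  [((0, 0), 112,
    [(42, A0.g24), (279, A0.g20), (1, A0.g28), (485, A0.g18), (71, A0.g26), (317, A0.g22),
     (307, A0.g25), (120, A0.g21), (414, A0.g19), (50, A0.g27), (296, A0.g23), (4, A8.g100),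
     (34, A8.g98), (5, A8.g99), (21, A8.g55), (109, A4.g32), (14, A4.g96), (29, A4.g40),
     (69, A4.g88), (21, A4.g36), (6, A4.g92), (286, A4.g34), (2, A4.g98), (17, A4.g90),
     (11, A4.g38), (397, A4.g30), (1, A4.g94), (6, A4.g33), (9, A4.g97), (39, A4.g89),
     (127, A4.g37), (8, A4.g93), (34, A4.g35), (6, A4.g99), (86, A4.g91), (11, A4.g39),
     (105, A4.g31), (54, A4.g95), (629, A2.g48), (238, A2.g46), (263, A2.g45), (48, A2.g47),
     (21, A6.g96), (2, A6.g40), (3, A6.g100), (49, A6.g92), (15, A6.g98), (55, A6.g94),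
     (147, A6.g97), (1, A6.g41), (1, A6.g101), (11, A6.g93), (16, A6.g99), (55, A6.g91),
     (9, A6.g95), (7, A1.g48), (125, A1.g40), (272, A1.g36), (54, A1.g44), (263, A1.g42),
     (821, A1.g38), (114, A1.g46), (9, A1.g41), (62, A1.g37), (4, A1.g45), (349, A1.g35),
     (87, A1.g43), (146, A1.g39), (13, A1.g47), (1, A9.g12), (7, A5.g112), (14, A5.g44),
     (8, A5.g42), (1, A5.g46), (3, A5.g110), (2, A5.g113), (45, A5.g41), (2, A5.g45),
     (57, A5.g109), (12, A5.g43), (2, A5.g111), (145, A3.g0), (10, A3.g8), (116, A3.g4),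
     (9, A3.g2), (8, A3.g6), (154, A3.g1), (17, A3.g9), (51, A3.g5), (216, A3.g3), (171, A3.g7),
     (40, A7.g120), (62, A7.g116), (4, A7.g122), (7, A7.g118), (51, A7.g46), (1, A7.g121),
     (2, A7.g117), (1, A7.g119), (7, A7.g47)]),
   ((4, 38449), 168,
    [(183, A0.g36), (264, A0.g38), (546, A0.g37), (91, A0.g39), (10, A8.g24), (1, A8.g120),
     (2, A8.g28), (6, A8.g34), (3, A8.g26), (1, A8.g122), (74, A8.g22), (29, A8.g54),
     (1, A8.g25), (2, A8.g121), (1, A8.g27), (2, A8.g23), (23, A8.g119), (4, A8.g127),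
     (29, A4.g40), (70, A4.g24), (54, A4.g120), (23, A4.g28), (7, A4.g124), (8, A4.g26),
     (56, A4.g122), (11, A4.g38), (157, A4.g25), (3, A4.g121), (127, A4.g37), (11, A4.g29),
     (1, A4.g125), (117, A4.g27), (21, A4.g123), (11, A4.g39), (471, A4.g23), (40, A4.g119),
     (1, A6.g20), (4, A6.g12), (6, A6.g124), (14, A6.g10), (103, A6.g122), (8, A6.g126),
     (57, A6.g9), (1, A6.g13), (31, A6.g125), (2, A6.g19), (12, A6.g11), (58, A6.g123),
     (7, A6.g127), (117, A1.g32), (7, A1.g48), (410, A1.g4), (54, A1.g44), (274, A1.g28),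
     (210, A1.g2), (4, A1.g34), (263, A1.g42), (71, A1.g6), (114, A1.g46), (56, A1.g30),
     (262, A1.g1), (88, A1.g33), (134, A1.g5), (4, A1.g45), (331, A1.g29), (34, A1.g3),
     (87, A1.g43), (9, A1.g7), (13, A1.g47), (319, A1.g31), (11, A5.g8), (1, A5.g40),
     (58, A5.g36), (10, A5.g6), (15, A5.g38), (1, A5.g46), (94, A5.g5), (5, A5.g37), (2, A5.g45),
     (8, A5.g7), (1, A5.g39), (93, A3.g32), (128, A3.g48), (7, A3.g36), (269, A3.g44),
     (121, A3.g34), (14, A3.g50), (146, A3.g46), (215, A3.g30), (251, A3.g33), (18, A3.g49),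
     (145, A3.g45), (116, A3.g35), (7, A3.g47), (474, A3.g31), (11, A7.g8), (42, A7.g40),
     (2, A7.g44), (8, A7.g10), (11, A7.g42), (5, A7.g9), (3, A7.g41), (2, A7.g45), (1, A7.g11),
     (3, A7.g43), (31, A7.g7)]),
   ((4, 38720), 112,
    [(42, A0.g24), (279, A0.g20), (1, A0.g28), (485, A0.g18), (71, A0.g26), (317, A0.g22),
     (307, A0.g25), (120, A0.g21), (414, A0.g19), (50, A0.g27), (296, A0.g23), (4, A8.g100),
     (34, A8.g98), (5, A8.g99), (21, A8.g55), (109, A4.g32), (14, A4.g96), (29, A4.g40),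
     (69, A4.g88), (21, A4.g36), (6, A4.g92), (286, A4.g34), (2, A4.g98), (17, A4.g90),
     (11, A4.g38), (397, A4.g30), (1, A4.g94), (6, A4.g33), (9, A4.g97), (39, A4.g89),
     (127, A4.g37), (8, A4.g93), (34, A4.g35), (6, A4.g99), (86, A4.g91), (11, A4.g39),
     (105, A4.g31), (54, A4.g95), (629, A2.g48), (238, A2.g46), (263, A2.g45), (48, A2.g47),
     (21, A6.g96), (2, A6.g40), (3, A6.g100), (49, A6.g92), (15, A6.g98), (55, A6.g94),
     (147, A6.g97), (1, A6.g41), (1, A6.g101), (11, A6.g93), (16, A6.g99), (55, A6.g91),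
     (9, A6.g95), (7, A1.g48), (125, A1.g40), (272, A1.g36), (54, A1.g44), (263, A1.g42),
     (821, A1.g38), (114, A1.g46), (9, A1.g41), (62, A1.g37), (4, A1.g45), (349, A1.g35),
     (87, A1.g43), (146, A1.g39), (13, A1.g47), (1, A9.g12), (7, A5.g112), (14, A5.g44),
     (8, A5.g42), (1, A5.g46), (3, A5.g110), (2, A5.g113), (45, A5.g41), (2, A5.g45),
     (57, A5.g109), (12, A5.g43), (2, A5.g111), (145, A3.g0), (10, A3.g8), (116, A3.g4),
     (9, A3.g2), (8, A3.g6), (154, A3.g1), (17, A3.g9), (51, A3.g5), (216, A3.g3), (171, A3.g7),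
     (40, A7.g120), (62, A7.g116), (4, A7.g122), (7, A7.g118), (51, A7.g46), (1, A7.g121),
     (2, A7.g117), (1, A7.g119), (7, A7.g47)]),
   ((6, 484401), 280,
    [(1, A8.g16), (17, A8.g48), (21, A8.g12), (6, A8.g34), (1, A8.g14), (5, A8.g13),
     (53, A8.g11), (4, A8.g15), (29, A4.g40), (7, A4.g12), (193, A4.g10), (11, A4.g38),
     (15, A4.g14), (500, A4.g9), (127, A4.g37), (109, A4.g13), (88, A4.g11), (11, A4.g39),
     (21, A4.g15), (739, A2.g0), (80, A2.g32), (129, A2.g16), (302, A2.g12), (263, A2.g28),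
     (585, A2.g14), (342, A2.g30), (122, A2.g1), (3, A2.g33), (19, A2.g17), (40, A2.g13),
     (63, A2.g29), (244, A2.g11), (432, A2.g27), (103, A2.g15), (130, A2.g31), (36, A6.g0),
     (1, A6.g20), (2, A6.g34), (3, A6.g1), (2, A6.g19), (446, A1.g52), (171, A1.g51),
     (86, A9.g22), (21, A5.g96), (3, A5.g80), (57, A5.g56), (1, A5.g60), (1, A5.g58),
     (51, A5.g78), (11, A5.g97), (1, A5.g81), (2, A5.g113), (43, A5.g57), (56, A5.g59),
     (3, A5.g79), (53, A5.g95), (111, A5.g127), (128, A3.g48), (10, A3.g8), (119, A3.g24),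
     (116, A3.g4), (235, A3.g20), (269, A3.g44), (14, A3.g50), (8, A3.g6), (372, A3.g22),
     (146, A3.g46), (18, A3.g49), (17, A3.g9), (11, A3.g25), (51, A3.g5), (70, A3.g21),
     (145, A3.g45), (216, A3.g3), (443, A3.g19), (171, A3.g7), (145, A3.g23), (7, A3.g47),
     (56, A7.g80), (1, A7.g104), (8, A7.g84), (46, A7.g60), (14, A7.g82), (71, A7.g58),
     (4, A7.g122), (53, A7.g102), (10, A7.g62), (1, A7.g81), (72, A7.g57), (2, A7.g85),
     (8, A7.g61), (1, A7.g83), (15, A7.g59), (3, A7.g103), (2, A7.g63)]),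
   ((6, 6517776), 168,
    [(183, A0.g36), (264, A0.g38), (546, A0.g37), (91, A0.g39), (10, A8.g24), (1, A8.g120),
     (2, A8.g28), (6, A8.g34), (3, A8.g26), (1, A8.g122), (74, A8.g22), (29, A8.g54),
     (1, A8.g25), (2, A8.g121), (1, A8.g27), (2, A8.g23), (23, A8.g119), (4, A8.g127),
     (29, A4.g40), (70, A4.g24), (54, A4.g120), (23, A4.g28), (7, A4.g124), (8, A4.g26),
     (56, A4.g122), (11, A4.g38), (157, A4.g25), (3, A4.g121), (127, A4.g37), (11, A4.g29),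
     (1, A4.g125), (117, A4.g27), (21, A4.g123), (11, A4.g39), (471, A4.g23), (40, A4.g119),
     (1, A6.g20), (4, A6.g12), (6, A6.g124), (14, A6.g10), (103, A6.g122), (8, A6.g126),
     (57, A6.g9), (1, A6.g13), (31, A6.g125), (2, A6.g19), (12, A6.g11), (58, A6.g123),
     (7, A6.g127), (117, A1.g32), (7, A1.g48), (410, A1.g4), (54, A1.g44), (274, A1.g28),
     (210, A1.g2), (4, A1.g34), (263, A1.g42), (71, A1.g6), (114, A1.g46), (56, A1.g30),
     (262, A1.g1), (88, A1.g33), (134, A1.g5), (4, A1.g45), (331, A1.g29), (34, A1.g3),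
     (87, A1.g43), (9, A1.g7), (13, A1.g47), (319, A1.g31), (11, A5.g8), (1, A5.g40),
     (58, A5.g36), (10, A5.g6), (15, A5.g38), (1, A5.g46), (94, A5.g5), (5, A5.g37), (2, A5.g45),
     (8, A5.g7), (1, A5.g39), (93, A3.g32), (128, A3.g48), (7, A3.g36), (269, A3.g44),
     (121, A3.g34), (14, A3.g50), (146, A3.g46), (215, A3.g30), (251, A3.g33), (18, A3.g49),
     (145, A3.g45), (116, A3.g35), (7, A3.g47), (474, A3.g31), (11, A7.g8), (42, A7.g40),
     (2, A7.g44), (8, A7.g10), (11, A7.g42), (5, A7.g9), (3, A7.g41), (2, A7.g45), (1, A7.g11),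
     (3, A7.g43), (31, A7.g7)]),
   ((10, 425360507664), 280,
    [(1, A8.g16), (17, A8.g48), (21, A8.g12), (6, A8.g34), (1, A8.g14), (5, A8.g13),
     (53, A8.g11), (4, A8.g15), (29, A4.g40), (7, A4.g12), (193, A4.g10), (11, A4.g38),
     (15, A4.g14), (500, A4.g9), (127, A4.g37), (109, A4.g13), (88, A4.g11), (11, A4.g39),
     (21, A4.g15), (739, A2.g0), (80, A2.g32), (129, A2.g16), (302, A2.g12), (263, A2.g28),
     (585, A2.g14), (342, A2.g30), (122, A2.g1), (3, A2.g33), (19, A2.g17), (40, A2.g13),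
     (63, A2.g29), (244, A2.g11), (432, A2.g27), (103, A2.g15), (130, A2.g31), (36, A6.g0),
     (1, A6.g20), (2, A6.g34), (3, A6.g1), (2, A6.g19), (446, A1.g52), (171, A1.g51),
     (86, A9.g22), (21, A5.g96), (3, A5.g80), (57, A5.g56), (1, A5.g60), (1, A5.g58),
     (51, A5.g78), (11, A5.g97), (1, A5.g81), (2, A5.g113), (43, A5.g57), (56, A5.g59),
     (3, A5.g79), (53, A5.g95), (111, A5.g127), (128, A3.g48), (10, A3.g8), (119, A3.g24),
     (116, A3.g4), (235, A3.g20), (269, A3.g44), (14, A3.g50), (8, A3.g6), (372, A3.g22),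
     (146, A3.g46), (18, A3.g49), (17, A3.g9), (11, A3.g25), (51, A3.g5), (70, A3.g21),
     (145, A3.g45), (216, A3.g3), (443, A3.g19), (171, A3.g7), (145, A3.g23), (7, A3.g47),
     (56, A7.g80), (1, A7.g104), (8, A7.g84), (46, A7.g60), (14, A7.g82), (71, A7.g58),
     (4, A7.g122), (53, A7.g102), (10, A7.g62), (1, A7.g81), (72, A7.g57), (2, A7.g85),
     (8, A7.g61), (1, A7.g83), (15, A7.g59), (3, A7.g103), (2, A7.g63)])]

/-- lights 193 -/
noncomputable def plA_193 : List ((ℕ × ℕ) × ℕ × List (ℕ × ℕ)) :=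
  [((0, 0), 193,
    [(2, A8.g50), (6, A8.g42), (11, A8.g37), (2, A8.g53), (6, A8.g45), (45, A8.g35),
     (13, A8.g39), (1, A8.g47), (244, A4.g16), (8, A4.g8), (70, A4.g24), (39, A4.g4),
     (88, A4.g20), (7, A4.g12), (23, A4.g28), (265, A4.g2), (30, A4.g18), (193, A4.g10),
     (8, A4.g26), (97, A4.g6), (11, A4.g38), (4, A4.g22), (15, A4.g14), (1, A4.g1), (6, A4.g33),
     (34, A4.g35), (105, A4.g31), (1, A6.g32), (2, A6.g36), (2, A6.g38), (1, A6.g30),
     (3, A6.g25), (52, A6.g21), (5, A6.g29), (1, A6.g27), (5, A6.g23), (117, A1.g32),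
     (71, A1.g16), (804, A1.g8), (244, A1.g24), (33, A1.g12), (274, A1.g28), (4, A1.g34),
     (310, A1.g10), (397, A1.g14), (56, A1.g30), (324, A1.g17), (141, A1.g9), (9, A1.g41),
     (365, A1.g25), (62, A1.g37), (86, A1.g21), (283, A1.g13), (4, A1.g45), (349, A1.g35),
     (32, A1.g19), (87, A1.g43), (97, A1.g27), (146, A1.g39), (5, A1.g23), (13, A1.g47),
     (81, A9.g0), (2, A9.g3), (1, A9.g55), (1, A5.g40), (23, A5.g12), (59, A5.g10), (8, A5.g42),
     (4, A5.g26), (14, A5.g33), (11, A5.g17), (37, A5.g9), (5, A5.g37), (6, A5.g21),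
     (30, A5.g13), (38, A5.g29), (1, A5.g35), (58, A5.g19), (17, A5.g23), (4, A5.g15),
     (17, A5.g31), (401, A3.g52), (72, A3.g54), (25, A3.g57), (161, A3.g51), (68, A3.g59),
     (260, A3.g55), (65, A7.g16), (6, A7.g24), (2, A7.g36), (10, A7.g20), (56, A7.g12),
     (1, A7.g28), (21, A7.g34), (9, A7.g18), (7, A7.g26), (7, A7.g38), (82, A7.g22), (7, A7.g30),
     (1, A7.g33), (3, A7.g41), (88, A7.g13), (3, A7.g43), (29, A7.g15)]),
   ((4, 38449), 193,
    [(2, A8.g50), (6, A8.g42), (11, A8.g37), (2, A8.g53), (6, A8.g45), (45, A8.g35),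
     (13, A8.g39), (1, A8.g47), (244, A4.g16), (8, A4.g8), (70, A4.g24), (39, A4.g4),
     (88, A4.g20), (7, A4.g12), (23, A4.g28), (265, A4.g2), (30, A4.g18), (193, A4.g10),
     (8, A4.g26), (97, A4.g6), (11, A4.g38), (4, A4.g22), (15, A4.g14), (1, A4.g1), (6, A4.g33),
     (34, A4.g35), (105, A4.g31), (1, A6.g32), (2, A6.g36), (2, A6.g38), (1, A6.g30),
     (3, A6.g25), (52, A6.g21), (5, A6.g29), (1, A6.g27), (5, A6.g23), (117, A1.g32),
     (71, A1.g16), (804, A1.g8), (244, A1.g24), (33, A1.g12), (274, A1.g28), (4, A1.g34),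
     (310, A1.g10), (397, A1.g14), (56, A1.g30), (324, A1.g17), (141, A1.g9), (9, A1.g41),
     (365, A1.g25), (62, A1.g37), (86, A1.g21), (283, A1.g13), (4, A1.g45), (349, A1.g35),
     (32, A1.g19), (87, A1.g43), (97, A1.g27), (146, A1.g39), (5, A1.g23), (13, A1.g47),
     (81, A9.g0), (2, A9.g3), (1, A9.g55), (1, A5.g40), (23, A5.g12), (59, A5.g10), (8, A5.g42),
     (4, A5.g26), (14, A5.g33), (11, A5.g17), (37, A5.g9), (5, A5.g37), (6, A5.g21),
     (30, A5.g13), (38, A5.g29), (1, A5.g35), (58, A5.g19), (17, A5.g23), (4, A5.g15),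
     (17, A5.g31), (401, A3.g52), (72, A3.g54), (25, A3.g57), (161, A3.g51), (68, A3.g59),
     (260, A3.g55), (65, A7.g16), (6, A7.g24), (2, A7.g36), (10, A7.g20), (56, A7.g12),
     (1, A7.g28), (21, A7.g34), (9, A7.g18), (7, A7.g26), (7, A7.g38), (82, A7.g22), (7, A7.g30),
     (1, A7.g33), (3, A7.g41), (88, A7.g13), (3, A7.g43), (29, A7.g15)]),
   ((4, 38720), 322,
    [(9, A8.g40), (59, A8.g36), (6, A8.g46), (11, A8.g37), (4, A8.g51), (10, A8.g43),
     (73, A4.g0), (109, A4.g32), (8, A4.g8), (39, A4.g4), (21, A4.g36), (7, A4.g12),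
     (30, A4.g18), (8, A4.g26), (4, A4.g22), (1, A4.g1), (6, A4.g33), (222, A4.g17),
     (157, A4.g25), (68, A4.g21), (11, A4.g29), (195, A4.g3), (88, A4.g11), (63, A4.g7),
     (11, A4.g39), (21, A4.g15), (80, A2.g32), (20, A2.g40), (197, A2.g36), (3, A2.g44),
     (263, A2.g28), (122, A2.g34), (315, A2.g18), (71, A2.g26), (40, A2.g22), (238, A2.g46),
     (3, A2.g33), (336, A2.g25), (59, A2.g37), (142, A2.g21), (63, A2.g29), (120, A2.g19),
     (58, A2.g43), (211, A2.g39), (97, A2.g23), (48, A2.g47), (8, A6.g26), (2, A6.g38),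
     (42, A6.g22), (15, A6.g37), (1, A6.g27), (5, A6.g23), (1, A9.g40), (3, A9.g56), (8, A9.g31),
     (3, A5.g88), (2, A5.g100), (44, A5.g84), (1, A5.g108), (26, A5.g82), (8, A5.g106),
     (11, A5.g85), (30, A5.g93), (59, A5.g99), (6, A5.g91), (5, A5.g103), (39, A5.g87),
     (2, A5.g111), (319, A3.g56), (9, A3.g2), (8, A3.g6), (72, A3.g54), (154, A3.g1),
     (17, A3.g9), (25, A3.g57), (51, A3.g5), (366, A3.g53), (161, A3.g51), (1, A7.g104),
     (95, A7.g88), (2, A7.g92), (1, A7.g98), (47, A7.g106), (29, A7.g86), (7, A7.g118),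
     (7, A7.g110), (82, A7.g97), (17, A7.g113), (8, A7.g89), (1, A7.g121), (2, A7.g101),
     (1, A7.g115), (5, A7.g107), (79, A7.g91), (1, A7.g119), (2, A7.g95)]),
   ((6, 484401), 322,
    [(9, A8.g40), (59, A8.g36), (6, A8.g46), (11, A8.g37), (4, A8.g51), (10, A8.g43),
     (73, A4.g0), (109, A4.g32), (8, A4.g8), (39, A4.g4), (21, A4.g36), (7, A4.g12),
     (30, A4.g18), (8, A4.g26), (4, A4.g22), (1, A4.g1), (6, A4.g33), (222, A4.g17),
     (157, A4.g25), (68, A4.g21), (11, A4.g29), (195, A4.g3), (88, A4.g11), (63, A4.g7),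
     (11, A4.g39), (21, A4.g15), (80, A2.g32), (20, A2.g40), (197, A2.g36), (3, A2.g44),
     (263, A2.g28), (122, A2.g34), (315, A2.g18), (71, A2.g26), (40, A2.g22), (238, A2.g46),
     (3, A2.g33), (336, A2.g25), (59, A2.g37), (142, A2.g21), (63, A2.g29), (120, A2.g19),
     (58, A2.g43), (211, A2.g39), (97, A2.g23), (48, A2.g47), (8, A6.g26), (2, A6.g38),
     (42, A6.g22), (15, A6.g37), (1, A6.g27), (5, A6.g23), (1, A9.g40), (3, A9.g56), (8, A9.g31),
     (3, A5.g88), (2, A5.g100), (44, A5.g84), (1, A5.g108), (26, A5.g82), (8, A5.g106),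
     (11, A5.g85), (30, A5.g93), (59, A5.g99), (6, A5.g91), (5, A5.g103), (39, A5.g87),
     (2, A5.g111), (319, A3.g56), (9, A3.g2), (8, A3.g6), (72, A3.g54), (154, A3.g1),
     (17, A3.g9), (25, A3.g57), (51, A3.g5), (366, A3.g53), (161, A3.g51), (1, A7.g104),
     (95, A7.g88), (2, A7.g92), (1, A7.g98), (47, A7.g106), (29, A7.g86), (7, A7.g118),
     (7, A7.g110), (82, A7.g97), (17, A7.g113), (8, A7.g89), (1, A7.g121), (2, A7.g101),
     (1, A7.g115), (5, A7.g107), (79, A7.g91), (1, A7.g119), (2, A7.g95)]),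
   ((6, 6517776), 388,
    [(9, A8.g32), (1, A8.g16), (56, A8.g8), (9, A8.g40), (8, A8.g4), (2, A8.g20), (9, A8.g52),
     (2, A8.g28), (95, A8.g2), (12, A8.g10), (3, A8.g26), (83, A8.g38), (1, A8.g33), (8, A8.g9),
     (4, A8.g21), (2, A8.g53), (6, A8.g3), (60, A8.g19), (1, A8.g27), (13, A8.g39), (4, A8.g15),
     (1, A8.g47), (73, A4.g0), (8, A4.g8), (29, A4.g40), (21, A4.g36), (88, A4.g20),
     (23, A4.g28), (286, A4.g34), (97, A4.g6), (4, A4.g22), (15, A4.g14), (1, A4.g1),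
     (557, A4.g5), (68, A4.g21), (109, A4.g13), (11, A4.g29), (34, A4.g35), (337, A4.g19),
     (117, A4.g27), (63, A4.g7), (21, A4.g15), (1, A6.g8), (83, A6.g24), (1, A6.g20),
     (4, A6.g12), (1, A6.g18), (8, A6.g26), (10, A6.g6), (1, A6.g30), (3, A6.g1), (7, A6.g33),
     (26, A6.g17), (1, A6.g41), (3, A6.g25), (130, A6.g5), (1, A6.g13), (1, A6.g27), (5, A6.g7),
     (3, A6.g39), (1, A9.g52), (18, A9.g46), (5, A9.g57), (45, A5.g120), (26, A5.g116),
     (2, A5.g126), (1, A5.g121), (7, A5.g117), (107, A5.g125), (21, A5.g115), (339, A3.g16),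
     (128, A3.g48), (590, A3.g40), (119, A3.g24), (7, A3.g36), (401, A3.g52), (223, A3.g12),
     (287, A3.g28), (121, A3.g34), (84, A3.g18), (14, A3.g50), (489, A3.g10), (102, A3.g42),
     (269, A3.g58), (372, A3.g22), (72, A3.g54), (107, A3.g14), (251, A3.g33), (311, A3.g17),
     (18, A3.g49), (98, A3.g41), (11, A3.g25), (366, A3.g53), (356, A3.g13), (96, A3.g29),
     (116, A3.g35), (13, A3.g43), (365, A3.g27), (68, A3.g59), (145, A3.g23), (66, A7.g124),
     (9, A7.g126), (52, A7.g125)]),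
   ((10, 425360507664), 388,
    [(9, A8.g32), (1, A8.g16), (56, A8.g8), (9, A8.g40), (8, A8.g4), (2, A8.g20), (9, A8.g52),
     (2, A8.g28), (95, A8.g2), (12, A8.g10), (3, A8.g26), (83, A8.g38), (1, A8.g33), (8, A8.g9),
     (4, A8.g21), (2, A8.g53), (6, A8.g3), (60, A8.g19), (1, A8.g27), (13, A8.g39), (4, A8.g15),
     (1, A8.g47), (73, A4.g0), (8, A4.g8), (29, A4.g40), (21, A4.g36), (88, A4.g20),
     (23, A4.g28), (286, A4.g34), (97, A4.g6), (4, A4.g22), (15, A4.g14), (1, A4.g1),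
     (557, A4.g5), (68, A4.g21), (109, A4.g13), (11, A4.g29), (34, A4.g35), (337, A4.g19),
     (117, A4.g27), (63, A4.g7), (21, A4.g15), (1, A6.g8), (83, A6.g24), (1, A6.g20),
     (4, A6.g12), (1, A6.g18), (8, A6.g26), (10, A6.g6), (1, A6.g30), (3, A6.g1), (7, A6.g33),
     (26, A6.g17), (1, A6.g41), (3, A6.g25), (130, A6.g5), (1, A6.g13), (1, A6.g27), (5, A6.g7),
     (3, A6.g39), (1, A9.g52), (18, A9.g46), (5, A9.g57), (45, A5.g120), (26, A5.g116),
     (2, A5.g126), (1, A5.g121), (7, A5.g117), (107, A5.g125), (21, A5.g115), (339, A3.g16),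
     (128, A3.g48), (590, A3.g40), (119, A3.g24), (7, A3.g36), (401, A3.g52), (223, A3.g12),
     (287, A3.g28), (121, A3.g34), (84, A3.g18), (14, A3.g50), (489, A3.g10), (102, A3.g42),
     (269, A3.g58), (372, A3.g22), (72, A3.g54), (107, A3.g14), (251, A3.g33), (311, A3.g17),
     (18, A3.g49), (98, A3.g41), (11, A3.g25), (366, A3.g53), (356, A3.g13), (96, A3.g29),
     (116, A3.g35), (13, A3.g43), (365, A3.g27), (68, A3.g59), (145, A3.g23), (66, A7.g124),
     (9, A7.g126), (52, A7.g125)])]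

/-- lights 194 -/
noncomputable def plA_194 : List ((ℕ × ℕ) × ℕ × List (ℕ × ℕ)) :=
  [((0, 0), 194,
    [(9, A8.g40), (59, A8.g36), (6, A8.g46), (11, A8.g37), (4, A8.g51), (10, A8.g43),
     (73, A4.g0), (109, A4.g32), (8, A4.g8), (39, A4.g4), (21, A4.g36), (7, A4.g12),
     (30, A4.g18), (8, A4.g26), (4, A4.g22), (1, A4.g1), (6, A4.g33), (222, A4.g17),
     (157, A4.g25), (68, A4.g21), (11, A4.g29), (195, A4.g3), (88, A4.g11), (63, A4.g7),
     (11, A4.g39), (21, A4.g15), (8, A6.g26), (2, A6.g38), (42, A6.g22), (15, A6.g37),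
     (1, A6.g27), (5, A6.g23), (71, A1.g16), (7, A1.g48), (804, A1.g8), (125, A1.g40),
     (244, A1.g24), (272, A1.g36), (33, A1.g12), (54, A1.g44), (4, A1.g34), (245, A1.g18),
     (377, A1.g26), (76, A1.g22), (56, A1.g30), (88, A1.g33), (141, A1.g9), (9, A1.g41),
     (62, A1.g37), (283, A1.g13), (4, A1.g45), (331, A1.g29), (32, A1.g19), (333, A1.g11),
     (97, A1.g27), (5, A1.g23), (473, A1.g15), (3, A9.g56), (2, A9.g4), (1, A9.g6), (11, A9.g1),
     (29, A5.g24), (79, A5.g20), (23, A5.g12), (11, A5.g34), (6, A5.g18), (15, A5.g38),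
     (26, A5.g14), (1, A5.g46), (74, A5.g30), (37, A5.g9), (6, A5.g21), (1, A5.g35),
     (143, A5.g11), (12, A5.g43), (3, A5.g27), (4, A5.g15), (17, A5.g31), (319, A3.g56),
     (72, A3.g54), (25, A3.g57), (366, A3.g53), (161, A3.g51), (6, A7.g24), (2, A7.g36),
     (56, A7.g12), (1, A7.g28), (9, A7.g18), (11, A7.g42), (130, A7.g14), (124, A7.g17),
     (27, A7.g21), (2, A7.g45), (47, A7.g35), (3, A7.g43), (4, A7.g27), (6, A7.g39),
     (17, A7.g23), (29, A7.g15), (3, A7.g31)]),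
   ((4, 38449), 196,
    [(9, A8.g40), (9, A8.g52), (83, A8.g38), (2, A8.g53), (13, A8.g39), (1, A8.g47), (73, A4.g0),
     (8, A4.g8), (29, A4.g40), (21, A4.g36), (88, A4.g20), (23, A4.g28), (286, A4.g34),
     (97, A4.g6), (4, A4.g22), (15, A4.g14), (1, A4.g1), (557, A4.g5), (68, A4.g21),
     (109, A4.g13), (11, A4.g29), (34, A4.g35), (337, A4.g19), (117, A4.g27), (63, A4.g7),
     (21, A4.g15), (83, A6.g24), (8, A6.g26), (1, A6.g30), (7, A6.g33), (1, A6.g41), (3, A6.g25),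
     (1, A6.g27), (3, A6.g39), (117, A1.g32), (71, A1.g16), (7, A1.g48), (804, A1.g8),
     (125, A1.g40), (400, A1.g20), (33, A1.g12), (4, A1.g34), (310, A1.g10), (377, A1.g26),
     (821, A1.g38), (76, A1.g22), (397, A1.g14), (114, A1.g46), (88, A1.g33), (9, A1.g41),
     (365, A1.g25), (86, A1.g21), (333, A1.g11), (97, A1.g27), (146, A1.g39), (5, A1.g23),
     (473, A1.g15), (13, A1.g47), (319, A1.g31), (2, A9.g4), (19, A9.g2), (1, A9.g9),
     (5, A9.g57), (2, A9.g3), (1, A9.g11), (1, A9.g7), (116, A5.g32), (38, A5.g16), (1, A5.g40),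
     (29, A5.g24), (23, A5.g12), (14, A5.g44), (7, A5.g28), (11, A5.g34), (6, A5.g18),
     (59, A5.g10), (125, A5.g22), (14, A5.g33), (11, A5.g17), (1, A5.g35), (143, A5.g11),
     (1, A5.g39), (17, A5.g23), (401, A3.g52), (269, A3.g58), (72, A3.g54), (366, A3.g53),
     (68, A3.g59), (15, A7.g32), (10, A7.g20), (2, A7.g44), (1, A7.g28), (7, A7.g26),
     (7, A7.g38), (130, A7.g14), (1, A7.g33), (74, A7.g25), (50, A7.g37), (27, A7.g21),
     (88, A7.g13), (2, A7.g45), (73, A7.g19), (4, A7.g27), (6, A7.g39), (29, A7.g15), (7, A7.g47)]),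
   ((4, 38720), 321,
    [(2, A8.g50), (6, A8.g42), (11, A8.g37), (2, A8.g53), (6, A8.g45), (45, A8.g35),
     (13, A8.g39), (1, A8.g47), (244, A4.g16), (8, A4.g8), (70, A4.g24), (39, A4.g4),
     (88, A4.g20), (7, A4.g12), (23, A4.g28), (265, A4.g2), (30, A4.g18), (193, A4.g10),
     (8, A4.g26), (97, A4.g6), (11, A4.g38), (4, A4.g22), (15, A4.g14), (1, A4.g1), (6, A4.g33),
     (34, A4.g35), (105, A4.g31), (20, A2.g40), (331, A2.g24), (433, A2.g20), (3, A2.g44),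
     (122, A2.g34), (315, A2.g18), (116, A2.g42), (71, A2.g26), (261, A2.g38), (40, A2.g22),
     (3, A2.g33), (59, A2.g37), (263, A2.g45), (63, A2.g29), (462, A2.g35), (120, A2.g19),
     (432, A2.g27), (97, A2.g23), (48, A2.g47), (130, A2.g31), (1, A6.g32), (2, A6.g36),
     (2, A6.g38), (1, A6.g30), (3, A6.g25), (52, A6.g21), (5, A6.g29), (1, A6.g27), (5, A6.g23),
     (20, A9.g30), (2, A9.g33), (1, A9.g37), (7, A9.g35), (2, A9.g39), (1, A9.g55), (21, A5.g96),
     (3, A5.g88), (2, A5.g100), (59, A5.g92), (49, A5.g98), (26, A5.g82), (13, A5.g90),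
     (17, A5.g102), (80, A5.g86), (3, A5.g110), (10, A5.g105), (11, A5.g85), (47, A5.g83),
     (145, A3.g0), (10, A3.g8), (116, A3.g4), (401, A3.g52), (9, A3.g2), (8, A3.g6),
     (72, A3.g54), (25, A3.g57), (161, A3.g51), (68, A3.g59), (260, A3.g55), (29, A7.g96),
     (3, A7.g112), (1, A7.g100), (2, A7.g92), (1, A7.g98), (83, A7.g90), (29, A7.g86),
     (1, A7.g94), (66, A7.g105), (8, A7.g89), (2, A7.g117), (20, A7.g109), (5, A7.g107),
     (3, A7.g103), (83, A7.g87), (1, A7.g119)]),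
   ((6, 484401), 324,
    [(9, A8.g40), (9, A8.g52), (83, A8.g38), (2, A8.g53), (13, A8.g39), (1, A8.g47), (73, A4.g0),
     (8, A4.g8), (29, A4.g40), (21, A4.g36), (88, A4.g20), (23, A4.g28), (286, A4.g34),
     (97, A4.g6), (4, A4.g22), (15, A4.g14), (1, A4.g1), (557, A4.g5), (68, A4.g21),
     (109, A4.g13), (11, A4.g29), (34, A4.g35), (337, A4.g19), (117, A4.g27), (63, A4.g7),
     (21, A4.g15), (80, A2.g32), (629, A2.g48), (331, A2.g24), (197, A2.g36), (433, A2.g20),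
     (3, A2.g44), (315, A2.g18), (116, A2.g42), (71, A2.g26), (40, A2.g22), (342, A2.g30),
     (3, A2.g33), (356, A2.g41), (336, A2.g25), (59, A2.g37), (142, A2.g21), (462, A2.g35),
     (58, A2.g43), (130, A2.g31), (83, A6.g24), (8, A6.g26), (1, A6.g30), (7, A6.g33),
     (1, A6.g41), (3, A6.g25), (1, A6.g27), (3, A6.g39), (39, A9.g32), (2, A9.g33), (1, A9.g41),
     (5, A9.g57), (7, A5.g112), (44, A5.g84), (1, A5.g108), (13, A5.g90), (17, A5.g102),
     (104, A5.g94), (11, A5.g97), (29, A5.g89), (57, A5.g101), (11, A5.g85), (47, A5.g83),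
     (4, A5.g107), (6, A5.g91), (5, A5.g103), (145, A3.g0), (10, A3.g8), (401, A3.g52),
     (9, A3.g2), (269, A3.g58), (72, A3.g54), (154, A3.g1), (17, A3.g9), (366, A3.g53),
     (68, A3.g59), (171, A3.g7), (95, A7.g88), (40, A7.g120), (1, A7.g100), (97, A7.g108),
     (2, A7.g114), (7, A7.g110), (1, A7.g94), (8, A7.g89), (1, A7.g121), (2, A7.g101),
     (20, A7.g109), (85, A7.g93), (64, A7.g99), (1, A7.g115), (83, A7.g87), (2, A7.g95)]),
   ((6, 6517776), 385,
    [(2, A8.g20), (21, A8.g12), (2, A8.g50), (6, A8.g42), (1, A8.g14), (4, A8.g30), (4, A8.g1),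
     (72, A8.g17), (8, A8.g9), (1, A8.g25), (125, A8.g5), (11, A8.g37), (2, A8.g53), (6, A8.g45),
     (6, A8.g3), (45, A8.g35), (1, A8.g27), (19, A8.g7), (13, A8.g39), (2, A8.g23), (1, A8.g47),
     (244, A4.g16), (8, A4.g8), (70, A4.g24), (39, A4.g4), (88, A4.g20), (7, A4.g12),
     (23, A4.g28), (265, A4.g2), (30, A4.g18), (193, A4.g10), (8, A4.g26), (97, A4.g6),
     (11, A4.g38), (4, A4.g22), (15, A4.g14), (1, A4.g1), (6, A4.g33), (34, A4.g35),
     (105, A4.g31), (36, A6.g0), (1, A6.g32), (1, A6.g8), (31, A6.g4), (2, A6.g36), (66, A6.g2),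
     (14, A6.g10), (10, A6.g6), (2, A6.g38), (1, A6.g30), (3, A6.g25), (52, A6.g21), (1, A6.g13),
     (5, A6.g29), (1, A6.g27), (5, A6.g23), (20, A6.g15), (1, A9.g48), (1, A9.g50), (1, A9.g45),
     (9, A9.g43), (1, A9.g55), (5, A5.g124), (38, A5.g114), (45, A5.g122), (58, A5.g118),
     (1, A5.g121), (7, A5.g117), (21, A5.g115), (93, A3.g32), (339, A3.g16), (7, A3.g36),
     (401, A3.g52), (223, A3.g12), (121, A3.g34), (84, A3.g18), (489, A3.g10), (336, A3.g26),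
     (72, A3.g54), (107, A3.g14), (215, A3.g30), (18, A3.g49), (98, A3.g41), (11, A3.g25),
     (25, A3.g57), (442, A3.g37), (70, A3.g21), (145, A3.g45), (96, A3.g29), (443, A3.g19),
     (161, A3.g51), (227, A3.g11), (13, A3.g43), (365, A3.g27), (68, A3.g59), (93, A3.g39),
     (145, A3.g23), (260, A3.g55), (272, A3.g15), (7, A3.g47), (66, A7.g124), (9, A7.g126),
     (82, A7.g123), (63, A7.g127)]),
   ((10, 425360507664), 386,
    [(53, A8.g0), (1, A8.g16), (9, A8.g40), (10, A8.g24), (8, A8.g4), (59, A8.g36), (2, A8.g28),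
     (37, A8.g18), (12, A8.g10), (36, A8.g6), (1, A8.g14), (6, A8.g46), (4, A8.g1), (1, A8.g33),
     (1, A8.g25), (11, A8.g37), (4, A8.g21), (5, A8.g13), (4, A8.g51), (10, A8.g43), (19, A8.g7),
     (1, A8.g31), (73, A4.g0), (109, A4.g32), (8, A4.g8), (39, A4.g4), (21, A4.g36), (7, A4.g12),
     (30, A4.g18), (8, A4.g26), (4, A4.g22), (1, A4.g1), (6, A4.g33), (222, A4.g17),
     (157, A4.g25), (68, A4.g21), (11, A4.g29), (195, A4.g3), (88, A4.g11), (63, A4.g7),
     (11, A4.g39), (21, A4.g15), (11, A6.g16), (1, A6.g8), (31, A6.g4), (1, A6.g18), (8, A6.g26),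
     (2, A6.g38), (42, A6.g22), (15, A6.g37), (90, A6.g3), (12, A6.g11), (1, A6.g27), (5, A6.g7),
     (5, A6.g23), (3, A9.g56), (18, A9.g44), (1, A9.g45), (26, A5.g116), (5, A5.g124),
     (38, A5.g114), (2, A5.g126), (7, A5.g117), (90, A5.g123), (19, A5.g119), (93, A3.g32),
     (119, A3.g24), (319, A3.g56), (7, A3.g36), (235, A3.g20), (287, A3.g28), (84, A3.g18),
     (14, A3.g50), (489, A3.g10), (102, A3.g42), (336, A3.g26), (398, A3.g38), (72, A3.g54),
     (107, A3.g14), (146, A3.g46), (311, A3.g17), (11, A3.g25), (25, A3.g57), (70, A3.g21),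
     (366, A3.g53), (356, A3.g13), (96, A3.g29), (116, A3.g35), (161, A3.g51), (227, A3.g11),
     (13, A3.g43), (93, A3.g39), (272, A3.g15), (7, A3.g47), (474, A3.g31), (9, A7.g126),
     (52, A7.g125), (82, A7.g123)])]

/-- lights 200 -/
noncomputable def plA_200 : List ((ℕ × ℕ) × ℕ × List (ℕ × ℕ)) :=
  [((0, 0), 200,
    [(17, A8.g48), (6, A8.g42), (29, A8.g54), (105, A8.g41), (10, A8.g43), (73, A4.g0),
     (29, A4.g40), (70, A4.g24), (7, A4.g12), (23, A4.g28), (193, A4.g10), (8, A4.g26),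
     (11, A4.g38), (15, A4.g14), (1, A4.g1), (500, A4.g9), (157, A4.g25), (127, A4.g37),
     (109, A4.g13), (11, A4.g29), (88, A4.g11), (117, A4.g27), (11, A4.g39), (471, A4.g23),
     (21, A4.g15), (47, A6.g28), (2, A6.g34), (1, A6.g30), (5, A6.g29), (117, A1.g32),
     (7, A1.g48), (400, A1.g20), (33, A1.g12), (54, A1.g44), (274, A1.g28), (4, A1.g34),
     (245, A1.g18), (310, A1.g10), (263, A1.g42), (76, A1.g22), (114, A1.g46), (56, A1.g30),
     (88, A1.g33), (324, A1.g17), (141, A1.g9), (86, A1.g21), (4, A1.g45), (331, A1.g29),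
     (32, A1.g19), (333, A1.g11), (87, A1.g43), (5, A1.g23), (13, A1.g47), (319, A1.g31),
     (3, A9.g58), (1, A9.g6), (10, A9.g5), (1, A9.g7), (38, A5.g16), (1, A5.g40), (58, A5.g36),
     (7, A5.g28), (6, A5.g18), (4, A5.g26), (15, A5.g38), (26, A5.g14), (1, A5.g46),
     (11, A5.g17), (57, A5.g25), (5, A5.g37), (30, A5.g13), (2, A5.g45), (3, A5.g27),
     (1, A5.g39), (4, A5.g15), (319, A3.g56), (269, A3.g58), (25, A3.g57), (68, A3.g59),
     (260, A3.g55), (15, A7.g32), (65, A7.g16), (42, A7.g40), (10, A7.g20), (2, A7.g44),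
     (9, A7.g18), (11, A7.g42), (7, A7.g30), (1, A7.g33), (124, A7.g17), (3, A7.g41),
     (27, A7.g21), (2, A7.g45), (48, A7.g29), (73, A7.g19), (3, A7.g43), (3, A7.g31)]),
   ((4, 38449), 208,
    [(17, A8.g48), (102, A8.g44), (6, A8.g46), (6, A8.g45), (21, A8.g55), (1, A8.g47),
     (109, A4.g32), (8, A4.g8), (29, A4.g40), (39, A4.g4), (21, A4.g36), (7, A4.g12),
     (265, A4.g2), (286, A4.g34), (193, A4.g10), (97, A4.g6), (11, A4.g38), (15, A4.g14),
     (397, A4.g30), (6, A4.g33), (500, A4.g9), (557, A4.g5), (127, A4.g37), (109, A4.g13),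
     (195, A4.g3), (34, A4.g35), (88, A4.g11), (63, A4.g7), (11, A4.g39), (21, A4.g15),
     (105, A4.g31), (1, A6.g32), (2, A6.g40), (2, A6.g34), (7, A6.g33), (1, A6.g41),
     (71, A6.g31), (71, A1.g16), (7, A1.g48), (125, A1.g40), (272, A1.g36), (400, A1.g20),
     (54, A1.g44), (245, A1.g18), (263, A1.g42), (821, A1.g38), (76, A1.g22), (397, A1.g14),
     (114, A1.g46), (324, A1.g17), (9, A1.g41), (62, A1.g37), (86, A1.g21), (283, A1.g13),
     (4, A1.g45), (349, A1.g35), (32, A1.g19), (87, A1.g43), (146, A1.g39), (5, A1.g23),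
     (473, A1.g15), (13, A1.g47), (16, A9.g8), (1, A9.g12), (1, A9.g9), (4, A9.g59),
     (29, A5.g24), (79, A5.g20), (14, A5.g44), (7, A5.g28), (8, A5.g42), (4, A5.g26),
     (125, A5.g22), (1, A5.g46), (45, A5.g41), (57, A5.g25), (6, A5.g21), (2, A5.g45),
     (58, A5.g19), (12, A5.g43), (3, A5.g27), (17, A5.g23), (15, A7.g32), (6, A7.g24),
     (1, A7.g28), (7, A7.g26), (82, A7.g22), (51, A7.g46), (7, A7.g30), (1, A7.g33),
     (74, A7.g25), (48, A7.g29), (4, A7.g27), (17, A7.g23), (7, A7.g47), (3, A7.g31)]),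
   ((4, 38720), 328,
    [(17, A8.g48), (6, A8.g42), (29, A8.g54), (105, A8.g41), (10, A8.g43), (73, A4.g0),
     (29, A4.g40), (70, A4.g24), (7, A4.g12), (23, A4.g28), (193, A4.g10), (8, A4.g26),
     (11, A4.g38), (15, A4.g14), (1, A4.g1), (500, A4.g9), (157, A4.g25), (127, A4.g37),
     (109, A4.g13), (11, A4.g29), (88, A4.g11), (117, A4.g27), (11, A4.g39), (471, A4.g23),
     (21, A4.g15), (80, A2.g32), (20, A2.g40), (433, A2.g20), (3, A2.g44), (263, A2.g28),
     (116, A2.g42), (261, A2.g38), (40, A2.g22), (342, A2.g30), (3, A2.g33), (356, A2.g41),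
     (142, A2.g21), (63, A2.g29), (120, A2.g19), (58, A2.g43), (432, A2.g27), (211, A2.g39),
     (130, A2.g31), (47, A6.g28), (2, A6.g34), (1, A6.g30), (5, A6.g29), (60, A9.g34),
     (6, A9.g42), (3, A9.g58), (7, A9.g35), (21, A5.g96), (44, A5.g104), (3, A5.g88),
     (1, A5.g108), (8, A5.g106), (13, A5.g90), (80, A5.g86), (11, A5.g97), (2, A5.g113),
     (10, A5.g105), (29, A5.g89), (4, A5.g107), (6, A5.g91), (39, A5.g87), (53, A5.g95),
     (10, A3.g8), (319, A3.g56), (116, A3.g4), (269, A3.g58), (8, A3.g6), (17, A3.g9),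
     (25, A3.g57), (51, A3.g5), (216, A3.g3), (68, A3.g59), (171, A3.g7), (260, A3.g55),
     (3, A7.g112), (1, A7.g104), (2, A7.g92), (2, A7.g114), (83, A7.g90), (4, A7.g122),
     (53, A7.g102), (1, A7.g94), (17, A7.g113), (85, A7.g93), (1, A7.g115), (79, A7.g91),
     (3, A7.g103), (121, A7.g111), (2, A7.g95)]),
   ((6, 484401), 352,
    [(9, A8.g52), (2, A8.g50), (29, A8.g54), (61, A8.g49), (2, A8.g53), (4, A8.g51),
     (21, A8.g55), (109, A4.g32), (244, A4.g16), (29, A4.g40), (70, A4.g24), (21, A4.g36),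
     (88, A4.g20), (23, A4.g28), (286, A4.g34), (30, A4.g18), (8, A4.g26), (11, A4.g38),
     (4, A4.g22), (397, A4.g30), (6, A4.g33), (222, A4.g17), (157, A4.g25), (127, A4.g37),
     (68, A4.g21), (11, A4.g29), (34, A4.g35), (337, A4.g19), (117, A4.g27), (11, A4.g39),
     (471, A4.g23), (105, A4.g31), (629, A2.g48), (20, A2.g40), (197, A2.g36), (3, A2.g44),
     (122, A2.g34), (116, A2.g42), (261, A2.g38), (238, A2.g46), (356, A2.g41), (59, A2.g37),
     (263, A2.g45), (462, A2.g35), (58, A2.g43), (211, A2.g39), (48, A2.g47), (2, A6.g40),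
     (2, A6.g36), (2, A6.g38), (1, A6.g41), (15, A6.g37), (36, A6.g35), (3, A6.g39), (1, A9.g40),
     (2, A9.g60), (6, A9.g42), (25, A9.g38), (1, A9.g41), (2, A9.g39), (7, A5.g112),
     (44, A5.g104), (2, A5.g100), (1, A5.g108), (49, A5.g98), (8, A5.g106), (17, A5.g102),
     (3, A5.g110), (2, A5.g113), (10, A5.g105), (57, A5.g101), (57, A5.g109), (59, A5.g99),
     (4, A5.g107), (5, A5.g103), (2, A5.g111), (145, A3.g0), (10, A3.g8), (116, A3.g4),
     (9, A3.g2), (8, A3.g6), (154, A3.g1), (17, A3.g9), (51, A3.g5), (216, A3.g3), (171, A3.g7),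
     (3, A7.g112), (40, A7.g120), (62, A7.g116), (97, A7.g108), (2, A7.g114), (47, A7.g106),
     (4, A7.g122), (7, A7.g118), (7, A7.g110), (17, A7.g113), (66, A7.g105), (1, A7.g121),
     (2, A7.g117), (20, A7.g109), (1, A7.g115), (5, A7.g107), (1, A7.g119), (121, A7.g111)]),
   ((6, 6517776), 400,
    [(9, A8.g32), (1, A8.g16), (17, A8.g48), (56, A8.g8), (21, A8.g12), (102, A8.g44),
     (6, A8.g34), (12, A8.g10), (36, A8.g6), (1, A8.g14), (6, A8.g46), (4, A8.g30), (1, A8.g33),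
     (8, A8.g9), (125, A8.g5), (5, A8.g13), (6, A8.g45), (119, A8.g29), (53, A8.g11),
     (19, A8.g7), (21, A8.g55), (4, A8.g15), (1, A8.g47), (1, A8.g31), (109, A4.g32), (8, A4.g8),
     (29, A4.g40), (39, A4.g4), (21, A4.g36), (7, A4.g12), (265, A4.g2), (286, A4.g34),
     (193, A4.g10), (97, A4.g6), (11, A4.g38), (15, A4.g14), (397, A4.g30), (6, A4.g33),
     (500, A4.g9), (557, A4.g5), (127, A4.g37), (109, A4.g13), (195, A4.g3), (34, A4.g35),
     (88, A4.g11), (63, A4.g7), (11, A4.g39), (21, A4.g15), (105, A4.g31), (36, A6.g0),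
     (1, A6.g32), (11, A6.g16), (2, A6.g40), (1, A6.g20), (2, A6.g34), (1, A6.g18), (58, A6.g14),
     (3, A6.g1), (7, A6.g33), (26, A6.g17), (1, A6.g41), (2, A6.g19), (20, A6.g15), (71, A6.g31),
     (1, A9.g50), (66, A9.g49), (2, A9.g53), (4, A9.g59), (5, A5.g124), (45, A5.g122),
     (2, A5.g126), (107, A5.g125), (90, A5.g123), (111, A5.g127), (339, A3.g16), (128, A3.g48),
     (590, A3.g40), (119, A3.g24), (235, A3.g20), (269, A3.g44), (84, A3.g18), (14, A3.g50),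
     (102, A3.g42), (398, A3.g38), (372, A3.g22), (146, A3.g46), (311, A3.g17), (18, A3.g49),
     (98, A3.g41), (11, A3.g25), (442, A3.g37), (70, A3.g21), (145, A3.g45), (443, A3.g19),
     (13, A3.g43), (93, A3.g39), (145, A3.g23), (272, A3.g15), (7, A3.g47)]),
   ((10, 425360507664), 416,
    [(9, A8.g32), (10, A8.g24), (2, A8.g20), (9, A8.g52), (2, A8.g28), (6, A8.g34), (37, A8.g18),
     (2, A8.g50), (3, A8.g26), (74, A8.g22), (29, A8.g54), (4, A8.g30), (1, A8.g33),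
     (72, A8.g17), (61, A8.g49), (1, A8.g25), (4, A8.g21), (2, A8.g53), (119, A8.g29),
     (60, A8.g19), (4, A8.g51), (1, A8.g27), (2, A8.g23), (21, A8.g55), (1, A8.g31),
     (109, A4.g32), (244, A4.g16), (29, A4.g40), (70, A4.g24), (21, A4.g36), (88, A4.g20),
     (23, A4.g28), (286, A4.g34), (30, A4.g18), (8, A4.g26), (11, A4.g38), (4, A4.g22),
     (397, A4.g30), (6, A4.g33), (222, A4.g17), (157, A4.g25), (127, A4.g37), (68, A4.g21),
     (11, A4.g29), (34, A4.g35), (337, A4.g19), (117, A4.g27), (11, A4.g39), (471, A4.g23),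
     (105, A4.g31), (11, A6.g16), (1, A6.g8), (2, A6.g40), (31, A6.g4), (2, A6.g36), (1, A6.g20),
     (4, A6.g12), (66, A6.g2), (1, A6.g18), (14, A6.g10), (10, A6.g6), (2, A6.g38), (58, A6.g14),
     (26, A6.g17), (57, A6.g9), (1, A6.g41), (130, A6.g5), (15, A6.g37), (1, A6.g13),
     (90, A6.g3), (36, A6.g35), (2, A6.g19), (12, A6.g11), (5, A6.g7), (3, A6.g39), (20, A6.g15),
     (1, A9.g52), (2, A9.g60), (2, A9.g53), (9, A9.g51), (93, A3.g32), (128, A3.g48),
     (590, A3.g40), (7, A3.g36), (269, A3.g44), (287, A3.g28), (121, A3.g34), (14, A3.g50),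
     (102, A3.g42), (336, A3.g26), (398, A3.g38), (146, A3.g46), (215, A3.g30), (251, A3.g33),
     (18, A3.g49), (98, A3.g41), (442, A3.g37), (145, A3.g45), (96, A3.g29), (116, A3.g35),
     (13, A3.g43), (365, A3.g27), (93, A3.g39), (7, A3.g47), (474, A3.g31)])]

/-- lights 224 -/
noncomputable def plA_224 : List ((ℕ × ℕ) × ℕ × List (ℕ × ℕ)) :=
  [((0, 0), 224,
    [(9, A8.g52), (2, A8.g50), (29, A8.g54), (61, A8.g49), (2, A8.g53), (4, A8.g51),
     (21, A8.g55), (109, A4.g32), (244, A4.g16), (29, A4.g40), (70, A4.g24), (21, A4.g36),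
     (88, A4.g20), (23, A4.g28), (286, A4.g34), (30, A4.g18), (8, A4.g26), (11, A4.g38),
     (4, A4.g22), (397, A4.g30), (6, A4.g33), (222, A4.g17), (157, A4.g25), (127, A4.g37),
     (68, A4.g21), (11, A4.g29), (34, A4.g35), (337, A4.g19), (117, A4.g27), (11, A4.g39),
     (471, A4.g23), (105, A4.g31), (2, A6.g40), (2, A6.g36), (2, A6.g38), (1, A6.g41),
     (15, A6.g37), (36, A6.g35), (3, A6.g39), (117, A1.g32), (7, A1.g48), (125, A1.g40),
     (244, A1.g24), (272, A1.g36), (54, A1.g44), (274, A1.g28), (4, A1.g34), (263, A1.g42),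
     (377, A1.g26), (821, A1.g38), (114, A1.g46), (56, A1.g30), (88, A1.g33), (9, A1.g41),
     (365, A1.g25), (62, A1.g37), (4, A1.g45), (331, A1.g29), (349, A1.g35), (87, A1.g43),
     (97, A1.g27), (146, A1.g39), (13, A1.g47), (319, A1.g31), (1, A9.g12), (2, A9.g60),
     (114, A9.g10), (1, A9.g11), (116, A5.g32), (1, A5.g40), (58, A5.g36), (14, A5.g44),
     (11, A5.g34), (8, A5.g42), (15, A5.g38), (1, A5.g46), (74, A5.g30), (14, A5.g33),
     (45, A5.g41), (5, A5.g37), (2, A5.g45), (38, A5.g29), (1, A5.g35), (12, A5.g43),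
     (1, A5.g39), (17, A5.g31), (42, A7.g40), (2, A7.g36), (2, A7.g44), (21, A7.g34),
     (11, A7.g42), (7, A7.g38), (51, A7.g46), (3, A7.g41), (50, A7.g37), (2, A7.g45),
     (47, A7.g35), (3, A7.g43), (6, A7.g39), (7, A7.g47)]),
   ((4, 38449), 224,
    [(9, A8.g52), (2, A8.g50), (29, A8.g54), (61, A8.g49), (2, A8.g53), (4, A8.g51),
     (21, A8.g55), (109, A4.g32), (244, A4.g16), (29, A4.g40), (70, A4.g24), (21, A4.g36),
     (88, A4.g20), (23, A4.g28), (286, A4.g34), (30, A4.g18), (8, A4.g26), (11, A4.g38),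
     (4, A4.g22), (397, A4.g30), (6, A4.g33), (222, A4.g17), (157, A4.g25), (127, A4.g37),
     (68, A4.g21), (11, A4.g29), (34, A4.g35), (337, A4.g19), (117, A4.g27), (11, A4.g39),
     (471, A4.g23), (105, A4.g31), (2, A6.g40), (2, A6.g36), (2, A6.g38), (1, A6.g41),
     (15, A6.g37), (36, A6.g35), (3, A6.g39), (117, A1.g32), (7, A1.g48), (125, A1.g40),
     (244, A1.g24), (272, A1.g36), (54, A1.g44), (274, A1.g28), (4, A1.g34), (263, A1.g42),
     (377, A1.g26), (821, A1.g38), (114, A1.g46), (56, A1.g30), (88, A1.g33), (9, A1.g41),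
     (365, A1.g25), (62, A1.g37), (4, A1.g45), (331, A1.g29), (349, A1.g35), (87, A1.g43),
     (97, A1.g27), (146, A1.g39), (13, A1.g47), (319, A1.g31), (1, A9.g12), (2, A9.g60),
     (114, A9.g10), (1, A9.g11), (116, A5.g32), (1, A5.g40), (58, A5.g36), (14, A5.g44),
     (11, A5.g34), (8, A5.g42), (15, A5.g38), (1, A5.g46), (74, A5.g30), (14, A5.g33),
     (45, A5.g41), (5, A5.g37), (2, A5.g45), (38, A5.g29), (1, A5.g35), (12, A5.g43),
     (1, A5.g39), (17, A5.g31), (42, A7.g40), (2, A7.g36), (2, A7.g44), (21, A7.g34),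
     (11, A7.g42), (7, A7.g38), (51, A7.g46), (3, A7.g41), (50, A7.g37), (2, A7.g45),
     (47, A7.g35), (3, A7.g43), (6, A7.g39), (7, A7.g47)]),
   ((4, 38720), 336,
    [(17, A8.g48), (102, A8.g44), (6, A8.g46), (6, A8.g45), (21, A8.g55), (1, A8.g47),
     (109, A4.g32), (8, A4.g8), (29, A4.g40), (39, A4.g4), (21, A4.g36), (7, A4.g12),
     (265, A4.g2), (286, A4.g34), (193, A4.g10), (97, A4.g6), (11, A4.g38), (15, A4.g14),
     (397, A4.g30), (6, A4.g33), (500, A4.g9), (557, A4.g5), (127, A4.g37), (109, A4.g13),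
     (195, A4.g3), (34, A4.g35), (88, A4.g11), (63, A4.g7), (11, A4.g39), (21, A4.g15),
     (105, A4.g31), (80, A2.g32), (629, A2.g48), (331, A2.g24), (263, A2.g28), (71, A2.g26),
     (238, A2.g46), (342, A2.g30), (3, A2.g33), (336, A2.g25), (263, A2.g45), (63, A2.g29),
     (432, A2.g27), (97, A2.g23), (48, A2.g47), (130, A2.g31), (1, A6.g32), (2, A6.g40),
     (2, A6.g34), (7, A6.g33), (1, A6.g41), (71, A6.g31), (18, A9.g36), (1, A9.g37), (4, A9.g59),
     (21, A5.g96), (7, A5.g112), (59, A5.g92), (3, A5.g110), (104, A5.g94), (11, A5.g97),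
     (2, A5.g113), (57, A5.g109), (30, A5.g93), (2, A5.g111), (53, A5.g95), (145, A3.g0),
     (10, A3.g8), (116, A3.g4), (9, A3.g2), (8, A3.g6), (154, A3.g1), (17, A3.g9), (51, A3.g5),
     (216, A3.g3), (171, A3.g7), (29, A7.g96), (1, A7.g104), (40, A7.g120), (1, A7.g100),
     (62, A7.g116), (1, A7.g98), (4, A7.g122), (53, A7.g102), (7, A7.g118), (82, A7.g97),
     (1, A7.g121), (2, A7.g101), (2, A7.g117), (64, A7.g99), (3, A7.g103), (1, A7.g119)]),
   ((6, 484401), 336,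
    [(17, A8.g48), (102, A8.g44), (6, A8.g46), (6, A8.g45), (21, A8.g55), (1, A8.g47),
     (109, A4.g32), (8, A4.g8), (29, A4.g40), (39, A4.g4), (21, A4.g36), (7, A4.g12),
     (265, A4.g2), (286, A4.g34), (193, A4.g10), (97, A4.g6), (11, A4.g38), (15, A4.g14),
     (397, A4.g30), (6, A4.g33), (500, A4.g9), (557, A4.g5), (127, A4.g37), (109, A4.g13),
     (195, A4.g3), (34, A4.g35), (88, A4.g11), (63, A4.g7), (11, A4.g39), (21, A4.g15),
     (105, A4.g31), (80, A2.g32), (629, A2.g48), (331, A2.g24), (263, A2.g28), (71, A2.g26),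
     (238, A2.g46), (342, A2.g30), (3, A2.g33), (336, A2.g25), (263, A2.g45), (63, A2.g29),
     (432, A2.g27), (97, A2.g23), (48, A2.g47), (130, A2.g31), (1, A6.g32), (2, A6.g40),
     (2, A6.g34), (7, A6.g33), (1, A6.g41), (71, A6.g31), (18, A9.g36), (1, A9.g37), (4, A9.g59),
     (21, A5.g96), (7, A5.g112), (59, A5.g92), (3, A5.g110), (104, A5.g94), (11, A5.g97),
     (2, A5.g113), (57, A5.g109), (30, A5.g93), (2, A5.g111), (53, A5.g95), (145, A3.g0),
     (10, A3.g8), (116, A3.g4), (9, A3.g2), (8, A3.g6), (154, A3.g1), (17, A3.g9), (51, A3.g5),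
     (216, A3.g3), (171, A3.g7), (29, A7.g96), (1, A7.g104), (40, A7.g120), (1, A7.g100),
     (62, A7.g116), (1, A7.g98), (4, A7.g122), (53, A7.g102), (7, A7.g118), (82, A7.g97),
     (1, A7.g121), (2, A7.g101), (2, A7.g117), (64, A7.g99), (3, A7.g103), (1, A7.g119)]),
   ((6, 6517776), 392,
    [(53, A8.g0), (1, A8.g16), (17, A8.g48), (10, A8.g24), (8, A8.g4), (21, A8.g12), (2, A8.g28),
     (95, A8.g2), (6, A8.g34), (6, A8.g42), (3, A8.g26), (74, A8.g22), (29, A8.g54), (1, A8.g14),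
     (4, A8.g1), (105, A8.g41), (1, A8.g25), (5, A8.g13), (6, A8.g3), (53, A8.g11), (10, A8.g43),
     (1, A8.g27), (2, A8.g23), (4, A8.g15), (73, A4.g0), (29, A4.g40), (70, A4.g24), (7, A4.g12),
     (23, A4.g28), (193, A4.g10), (8, A4.g26), (11, A4.g38), (15, A4.g14), (1, A4.g1),
     (500, A4.g9), (157, A4.g25), (127, A4.g37), (109, A4.g13), (11, A4.g29), (88, A4.g11),
     (117, A4.g27), (11, A4.g39), (471, A4.g23), (21, A4.g15), (36, A6.g0), (1, A6.g20),
     (4, A6.g12), (47, A6.g28), (2, A6.g34), (14, A6.g10), (1, A6.g30), (3, A6.g1), (57, A6.g9),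
     (1, A6.g13), (5, A6.g29), (2, A6.g19), (12, A6.g11), (1, A9.g48), (3, A9.g58), (16, A9.g47),
     (45, A5.g120), (58, A5.g118), (1, A5.g121), (19, A5.g119), (111, A5.g127), (93, A3.g32),
     (128, A3.g48), (119, A3.g24), (319, A3.g56), (7, A3.g36), (235, A3.g20), (223, A3.g12),
     (269, A3.g44), (121, A3.g34), (14, A3.g50), (269, A3.g58), (372, A3.g22), (107, A3.g14),
     (146, A3.g46), (215, A3.g30), (251, A3.g33), (18, A3.g49), (11, A3.g25), (25, A3.g57),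
     (70, A3.g21), (356, A3.g13), (145, A3.g45), (116, A3.g35), (443, A3.g19), (227, A3.g11),
     (68, A3.g59), (145, A3.g23), (260, A3.g55), (7, A3.g47), (474, A3.g31), (63, A7.g127)]),
   ((10, 425360507664), 392,
    [(53, A8.g0), (1, A8.g16), (17, A8.g48), (10, A8.g24), (8, A8.g4), (21, A8.g12), (2, A8.g28),
     (95, A8.g2), (6, A8.g34), (6, A8.g42), (3, A8.g26), (74, A8.g22), (29, A8.g54), (1, A8.g14),
     (4, A8.g1), (105, A8.g41), (1, A8.g25), (5, A8.g13), (6, A8.g3), (53, A8.g11), (10, A8.g43),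
     (1, A8.g27), (2, A8.g23), (4, A8.g15), (73, A4.g0), (29, A4.g40), (70, A4.g24), (7, A4.g12),
     (23, A4.g28), (193, A4.g10), (8, A4.g26), (11, A4.g38), (15, A4.g14), (1, A4.g1),
     (500, A4.g9), (157, A4.g25), (127, A4.g37), (109, A4.g13), (11, A4.g29), (88, A4.g11),
     (117, A4.g27), (11, A4.g39), (471, A4.g23), (21, A4.g15), (36, A6.g0), (1, A6.g20),
     (4, A6.g12), (47, A6.g28), (2, A6.g34), (14, A6.g10), (1, A6.g30), (3, A6.g1), (57, A6.g9),
     (1, A6.g13), (5, A6.g29), (2, A6.g19), (12, A6.g11), (1, A9.g48), (3, A9.g58), (16, A9.g47),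
     (45, A5.g120), (58, A5.g118), (1, A5.g121), (19, A5.g119), (111, A5.g127), (93, A3.g32),
     (128, A3.g48), (119, A3.g24), (319, A3.g56), (7, A3.g36), (235, A3.g20), (223, A3.g12),
     (269, A3.g44), (121, A3.g34), (14, A3.g50), (269, A3.g58), (372, A3.g22), (107, A3.g14),
     (146, A3.g46), (215, A3.g30), (251, A3.g33), (18, A3.g49), (11, A3.g25), (25, A3.g57),
     (70, A3.g21), (356, A3.g13), (145, A3.g45), (116, A3.g35), (443, A3.g19), (227, A3.g11),
     (68, A3.g59), (145, A3.g23), (260, A3.g55), (7, A3.g47), (474, A3.g31), (63, A7.g127)])]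

/-- lights 448 -/
noncomputable def plA_448 : List ((ℕ × ℕ) × ℕ × List (ℕ × ℕ)) :=
  [((0, 0), 448,
    [(17, A8.g48), (9, A8.g40), (59, A8.g36), (9, A8.g52), (102, A8.g44), (2, A8.g50),
     (6, A8.g42), (83, A8.g38), (29, A8.g54), (6, A8.g46), (61, A8.g49), (105, A8.g41),
     (11, A8.g37), (2, A8.g53), (6, A8.g45), (45, A8.g35), (4, A8.g51), (10, A8.g43),
     (13, A8.g39), (21, A8.g55), (1, A8.g47), (73, A4.g0), (109, A4.g32), (244, A4.g16),
     (8, A4.g8), (29, A4.g40), (70, A4.g24), (39, A4.g4), (21, A4.g36), (88, A4.g20),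
     (7, A4.g12), (23, A4.g28), (265, A4.g2), (286, A4.g34), (30, A4.g18), (193, A4.g10),
     (8, A4.g26), (97, A4.g6), (11, A4.g38), (4, A4.g22), (15, A4.g14), (397, A4.g30),
     (1, A4.g1), (6, A4.g33), (222, A4.g17), (500, A4.g9), (157, A4.g25), (557, A4.g5),
     (127, A4.g37), (68, A4.g21), (109, A4.g13), (11, A4.g29), (195, A4.g3), (34, A4.g35),
     (337, A4.g19), (88, A4.g11), (117, A4.g27), (63, A4.g7), (11, A4.g39), (471, A4.g23),
     (21, A4.g15), (105, A4.g31), (1, A6.g32), (2, A6.g40), (83, A6.g24), (2, A6.g36),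
     (47, A6.g28), (2, A6.g34), (8, A6.g26), (2, A6.g38), (42, A6.g22), (1, A6.g30), (7, A6.g33),
     (1, A6.g41), (3, A6.g25), (15, A6.g37), (52, A6.g21), (5, A6.g29), (36, A6.g35),
     (1, A6.g27), (3, A6.g39), (5, A6.g23), (71, A6.g31), (3, A9.g56), (2, A9.g60), (3, A9.g58),
     (167, A9.g54), (5, A9.g57), (4, A9.g59), (1, A9.g55), (319, A3.g56), (401, A3.g52),
     (269, A3.g58), (72, A3.g54), (25, A3.g57), (366, A3.g53), (161, A3.g51), (68, A3.g59),
     (260, A3.g55)]),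
   ((4, 38449), 448,
    [(17, A8.g48), (9, A8.g40), (59, A8.g36), (9, A8.g52), (102, A8.g44), (2, A8.g50),
     (6, A8.g42), (83, A8.g38), (29, A8.g54), (6, A8.g46), (61, A8.g49), (105, A8.g41),
     (11, A8.g37), (2, A8.g53), (6, A8.g45), (45, A8.g35), (4, A8.g51), (10, A8.g43),
     (13, A8.g39), (21, A8.g55), (1, A8.g47), (73, A4.g0), (109, A4.g32), (244, A4.g16),
     (8, A4.g8), (29, A4.g40), (70, A4.g24), (39, A4.g4), (21, A4.g36), (88, A4.g20),
     (7, A4.g12), (23, A4.g28), (265, A4.g2), (286, A4.g34), (30, A4.g18), (193, A4.g10),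
     (8, A4.g26), (97, A4.g6), (11, A4.g38), (4, A4.g22), (15, A4.g14), (397, A4.g30),
     (1, A4.g1), (6, A4.g33), (222, A4.g17), (500, A4.g9), (157, A4.g25), (557, A4.g5),
     (127, A4.g37), (68, A4.g21), (109, A4.g13), (11, A4.g29), (195, A4.g3), (34, A4.g35),
     (337, A4.g19), (88, A4.g11), (117, A4.g27), (63, A4.g7), (11, A4.g39), (471, A4.g23),
     (21, A4.g15), (105, A4.g31), (1, A6.g32), (2, A6.g40), (83, A6.g24), (2, A6.g36),
     (47, A6.g28), (2, A6.g34), (8, A6.g26), (2, A6.g38), (42, A6.g22), (1, A6.g30), (7, A6.g33),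
     (1, A6.g41), (3, A6.g25), (15, A6.g37), (52, A6.g21), (5, A6.g29), (36, A6.g35),
     (1, A6.g27), (3, A6.g39), (5, A6.g23), (71, A6.g31), (3, A9.g56), (2, A9.g60), (3, A9.g58),
     (167, A9.g54), (5, A9.g57), (4, A9.g59), (1, A9.g55), (319, A3.g56), (401, A3.g52),
     (269, A3.g58), (72, A3.g54), (25, A3.g57), (366, A3.g53), (161, A3.g51), (68, A3.g59),
     (260, A3.g55)]),
   ((4, 38720), 448,
    [(17, A8.g48), (9, A8.g40), (59, A8.g36), (9, A8.g52), (102, A8.g44), (2, A8.g50),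
     (6, A8.g42), (83, A8.g38), (29, A8.g54), (6, A8.g46), (61, A8.g49), (105, A8.g41),
     (11, A8.g37), (2, A8.g53), (6, A8.g45), (45, A8.g35), (4, A8.g51), (10, A8.g43),
     (13, A8.g39), (21, A8.g55), (1, A8.g47), (73, A4.g0), (109, A4.g32), (244, A4.g16),
     (8, A4.g8), (29, A4.g40), (70, A4.g24), (39, A4.g4), (21, A4.g36), (88, A4.g20),
     (7, A4.g12), (23, A4.g28), (265, A4.g2), (286, A4.g34), (30, A4.g18), (193, A4.g10),
     (8, A4.g26), (97, A4.g6), (11, A4.g38), (4, A4.g22), (15, A4.g14), (397, A4.g30),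
     (1, A4.g1), (6, A4.g33), (222, A4.g17), (500, A4.g9), (157, A4.g25), (557, A4.g5),
     (127, A4.g37), (68, A4.g21), (109, A4.g13), (11, A4.g29), (195, A4.g3), (34, A4.g35),
     (337, A4.g19), (88, A4.g11), (117, A4.g27), (63, A4.g7), (11, A4.g39), (471, A4.g23),
     (21, A4.g15), (105, A4.g31), (1, A6.g32), (2, A6.g40), (83, A6.g24), (2, A6.g36),
     (47, A6.g28), (2, A6.g34), (8, A6.g26), (2, A6.g38), (42, A6.g22), (1, A6.g30), (7, A6.g33),
     (1, A6.g41), (3, A6.g25), (15, A6.g37), (52, A6.g21), (5, A6.g29), (36, A6.g35),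
     (1, A6.g27), (3, A6.g39), (5, A6.g23), (71, A6.g31), (3, A9.g56), (2, A9.g60), (3, A9.g58),
     (167, A9.g54), (5, A9.g57), (4, A9.g59), (1, A9.g55), (319, A3.g56), (401, A3.g52),
     (269, A3.g58), (72, A3.g54), (25, A3.g57), (366, A3.g53), (161, A3.g51), (68, A3.g59),
     (260, A3.g55)]),
   ((6, 484401), 448,
    [(17, A8.g48), (9, A8.g40), (59, A8.g36), (9, A8.g52), (102, A8.g44), (2, A8.g50),
     (6, A8.g42), (83, A8.g38), (29, A8.g54), (6, A8.g46), (61, A8.g49), (105, A8.g41),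
     (11, A8.g37), (2, A8.g53), (6, A8.g45), (45, A8.g35), (4, A8.g51), (10, A8.g43),
     (13, A8.g39), (21, A8.g55), (1, A8.g47), (73, A4.g0), (109, A4.g32), (244, A4.g16),
     (8, A4.g8), (29, A4.g40), (70, A4.g24), (39, A4.g4), (21, A4.g36), (88, A4.g20),
     (7, A4.g12), (23, A4.g28), (265, A4.g2), (286, A4.g34), (30, A4.g18), (193, A4.g10),
     (8, A4.g26), (97, A4.g6), (11, A4.g38), (4, A4.g22), (15, A4.g14), (397, A4.g30),
     (1, A4.g1), (6, A4.g33), (222, A4.g17), (500, A4.g9), (157, A4.g25), (557, A4.g5),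
     (127, A4.g37), (68, A4.g21), (109, A4.g13), (11, A4.g29), (195, A4.g3), (34, A4.g35),
     (337, A4.g19), (88, A4.g11), (117, A4.g27), (63, A4.g7), (11, A4.g39), (471, A4.g23),
     (21, A4.g15), (105, A4.g31), (1, A6.g32), (2, A6.g40), (83, A6.g24), (2, A6.g36),
     (47, A6.g28), (2, A6.g34), (8, A6.g26), (2, A6.g38), (42, A6.g22), (1, A6.g30), (7, A6.g33),
     (1, A6.g41), (3, A6.g25), (15, A6.g37), (52, A6.g21), (5, A6.g29), (36, A6.g35),
     (1, A6.g27), (3, A6.g39), (5, A6.g23), (71, A6.g31), (3, A9.g56), (2, A9.g60), (3, A9.g58),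
     (167, A9.g54), (5, A9.g57), (4, A9.g59), (1, A9.g55), (319, A3.g56), (401, A3.g52),
     (269, A3.g58), (72, A3.g54), (25, A3.g57), (366, A3.g53), (161, A3.g51), (68, A3.g59),
     (260, A3.g55)]),
   ((6, 6517776), 448,
    [(17, A8.g48), (9, A8.g40), (59, A8.g36), (9, A8.g52), (102, A8.g44), (2, A8.g50),
     (6, A8.g42), (83, A8.g38), (29, A8.g54), (6, A8.g46), (61, A8.g49), (105, A8.g41),
     (11, A8.g37), (2, A8.g53), (6, A8.g45), (45, A8.g35), (4, A8.g51), (10, A8.g43),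
     (13, A8.g39), (21, A8.g55), (1, A8.g47), (73, A4.g0), (109, A4.g32), (244, A4.g16),
     (8, A4.g8), (29, A4.g40), (70, A4.g24), (39, A4.g4), (21, A4.g36), (88, A4.g20),
     (7, A4.g12), (23, A4.g28), (265, A4.g2), (286, A4.g34), (30, A4.g18), (193, A4.g10),
     (8, A4.g26), (97, A4.g6), (11, A4.g38), (4, A4.g22), (15, A4.g14), (397, A4.g30),
     (1, A4.g1), (6, A4.g33), (222, A4.g17), (500, A4.g9), (157, A4.g25), (557, A4.g5),
     (127, A4.g37), (68, A4.g21), (109, A4.g13), (11, A4.g29), (195, A4.g3), (34, A4.g35),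
     (337, A4.g19), (88, A4.g11), (117, A4.g27), (63, A4.g7), (11, A4.g39), (471, A4.g23),
     (21, A4.g15), (105, A4.g31), (1, A6.g32), (2, A6.g40), (83, A6.g24), (2, A6.g36),
     (47, A6.g28), (2, A6.g34), (8, A6.g26), (2, A6.g38), (42, A6.g22), (1, A6.g30), (7, A6.g33),
     (1, A6.g41), (3, A6.g25), (15, A6.g37), (52, A6.g21), (5, A6.g29), (36, A6.g35),
     (1, A6.g27), (3, A6.g39), (5, A6.g23), (71, A6.g31), (3, A9.g56), (2, A9.g60), (3, A9.g58),
     (167, A9.g54), (5, A9.g57), (4, A9.g59), (1, A9.g55), (319, A3.g56), (401, A3.g52),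
     (269, A3.g58), (72, A3.g54), (25, A3.g57), (366, A3.g53), (161, A3.g51), (68, A3.g59),
     (260, A3.g55)]),
   ((10, 425360507664), 448,
    [(17, A8.g48), (9, A8.g40), (59, A8.g36), (9, A8.g52), (102, A8.g44), (2, A8.g50),
     (6, A8.g42), (83, A8.g38), (29, A8.g54), (6, A8.g46), (61, A8.g49), (105, A8.g41),
     (11, A8.g37), (2, A8.g53), (6, A8.g45), (45, A8.g35), (4, A8.g51), (10, A8.g43),
     (13, A8.g39), (21, A8.g55), (1, A8.g47), (73, A4.g0), (109, A4.g32), (244, A4.g16),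
     (8, A4.g8), (29, A4.g40), (70, A4.g24), (39, A4.g4), (21, A4.g36), (88, A4.g20),
     (7, A4.g12), (23, A4.g28), (265, A4.g2), (286, A4.g34), (30, A4.g18), (193, A4.g10),
     (8, A4.g26), (97, A4.g6), (11, A4.g38), (4, A4.g22), (15, A4.g14), (397, A4.g30),
     (1, A4.g1), (6, A4.g33), (222, A4.g17), (500, A4.g9), (157, A4.g25), (557, A4.g5),
     (127, A4.g37), (68, A4.g21), (109, A4.g13), (11, A4.g29), (195, A4.g3), (34, A4.g35),
     (337, A4.g19), (88, A4.g11), (117, A4.g27), (63, A4.g7), (11, A4.g39), (471, A4.g23),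
     (21, A4.g15), (105, A4.g31), (1, A6.g32), (2, A6.g40), (83, A6.g24), (2, A6.g36),
     (47, A6.g28), (2, A6.g34), (8, A6.g26), (2, A6.g38), (42, A6.g22), (1, A6.g30), (7, A6.g33),
     (1, A6.g41), (3, A6.g25), (15, A6.g37), (52, A6.g21), (5, A6.g29), (36, A6.g35),
     (1, A6.g27), (3, A6.g39), (5, A6.g23), (71, A6.g31), (3, A9.g56), (2, A9.g60), (3, A9.g58),
     (167, A9.g54), (5, A9.g57), (4, A9.g59), (1, A9.g55), (319, A3.g56), (401, A3.g52),
     (269, A3.g58), (72, A3.g54), (25, A3.g57), (366, A3.g53), (161, A3.g51), (68, A3.g59),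
     (260, A3.g55)])]

/-- lights 515 -/
noncomputable def plA_515 : List ((ℕ × ℕ) × ℕ × List (ℕ × ℕ)) :=
  [((0, 0), 515,
    [(4, A8.g64), (13, A8.g56), (1, A8.g68), (2, A8.g116), (7, A8.g78), (4, A8.g57),
     (3, A8.g103), (43, A4.g64), (59, A4.g48), (9, A4.g104), (55, A4.g68), (127, A4.g100),
     (9, A4.g84), (82, A4.g52), (9, A4.g108), (2, A4.g98), (20, A4.g74), (47, A4.g42),
     (17, A4.g90), (8, A4.g58), (22, A4.g118), (153, A4.g78), (10, A4.g46), (1, A4.g94),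
     (2, A4.g62), (12, A4.g81), (28, A4.g41), (53, A4.g105), (3, A4.g121), (15, A4.g101),
     (1, A4.g125), (5, A4.g67), (11, A4.g51), (113, A4.g115), (27, A4.g43), (15, A4.g71),
     (19, A4.g55), (59, A4.g47), (1, A4.g111), (119, A4.g63), (1, A6.g8), (31, A6.g4),
     (2, A6.g38), (1, A6.g27), (5, A6.g23), (1, A9.g13), (1, A9.g45), (18, A5.g0), (14, A5.g64),
     (39, A5.g48), (3, A5.g88), (2, A5.g4), (2, A5.g100), (35, A5.g52), (23, A5.g12),
     (5, A5.g124), (26, A5.g82), (38, A5.g114), (1, A5.g58), (37, A5.g9), (17, A5.g73),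
     (6, A5.g21), (11, A5.g85), (7, A5.g117), (1, A5.g77), (48, A5.g61), (6, A5.g67),
     (1, A5.g35), (14, A5.g51), (15, A5.g55), (4, A5.g15), (42, A5.g47), (17, A5.g31)]),
   ((4, 38449), 1029,
    [(13, A8.g56), (2, A8.g20), (14, A8.g60), (7, A8.g58), (2, A8.g118), (8, A8.g9), (3, A8.g73),
     (46, A8.g101), (2, A8.g53), (4, A8.g93), (6, A8.g3), (5, A8.g107), (1, A8.g27),
     (13, A8.g39), (3, A8.g103), (6, A8.g79), (1, A8.g47), (67, A6.g64), (23, A6.g48),
     (14, A6.g72), (107, A6.g104), (7, A6.g88), (7, A6.g56), (3, A6.g68), (6, A6.g52),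
     (70, A6.g108), (76, A6.g66), (117, A6.g50), (24, A6.g42), (17, A6.g106), (1, A6.g90),
     (12, A6.g70), (37, A6.g102), (128, A6.g54), (21, A6.g110), (8, A6.g126), (70, A6.g81),
     (1, A6.g121), (2, A6.g117), (4, A6.g77), (72, A6.g45), (15, A6.g61), (13, A6.g83),
     (19, A6.g115), (28, A6.g43), (58, A6.g119), (1, A6.g79), (19, A6.g47), (9, A6.g95),
     (1, A6.g63), (3, A9.g14), (2, A9.g33), (2, A9.g3), (41, A7.g48), (4, A7.g72), (17, A7.g56),
     (6, A7.g4), (1, A7.g100), (10, A7.g20), (7, A7.g52), (1, A7.g28), (66, A7.g124),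
     (79, A7.g50), (7, A7.g26), (2, A7.g6), (7, A7.g38), (42, A7.g54), (8, A7.g78), (1, A7.g94),
     (9, A7.g126), (73, A7.g65), (1, A7.g33), (8, A7.g89), (88, A7.g13), (20, A7.g109),
     (8, A7.g61), (16, A7.g67), (1, A7.g11), (83, A7.g87), (29, A7.g15), (2, A7.g63)]),
   ((4, 38720), 1027,
    [(4, A8.g64), (13, A8.g56), (1, A8.g68), (2, A8.g116), (1, A8.g14), (7, A8.g78), (4, A8.g1),
     (1, A8.g25), (4, A8.g57), (11, A8.g37), (19, A8.g7), (3, A8.g103), (67, A6.g64),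
     (98, A6.g80), (23, A6.g48), (14, A6.g72), (7, A6.g56), (3, A6.g68), (6, A6.g52),
     (118, A6.g44), (6, A6.g124), (24, A6.g42), (17, A6.g106), (1, A6.g90), (37, A6.g102),
     (16, A6.g86), (72, A6.g118), (21, A6.g110), (18, A6.g65), (64, A6.g49), (18, A6.g113),
     (1, A6.g121), (48, A6.g69), (155, A6.g53), (2, A6.g117), (11, A6.g93), (13, A6.g83),
     (4, A6.g75), (28, A6.g43), (126, A6.g107), (19, A6.g59), (49, A6.g103), (1, A6.g79),
     (19, A6.g47), (1, A6.g63), (1, A9.g13), (1, A9.g45), (52, A7.g64), (41, A7.g48),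
     (6, A7.g24), (17, A7.g56), (2, A7.g36), (7, A7.g52), (56, A7.g12), (21, A7.g76),
     (1, A7.g28), (2, A7.g92), (6, A7.g2), (1, A7.g98), (9, A7.g18), (2, A7.g6), (9, A7.g70),
     (29, A7.g86), (9, A7.g126), (48, A7.g49), (8, A7.g89), (109, A7.g53), (16, A7.g67),
     (1, A7.g83), (3, A7.g43), (5, A7.g107), (15, A7.g59), (82, A7.g123), (1, A7.g119),
     (29, A7.g15), (2, A7.g63)]),
   ((6, 484401), 518,
    [(2, A8.g80), (13, A8.g56), (1, A8.g84), (3, A8.g102), (5, A8.g65), (2, A8.g61), (7, A8.g59),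
     (3, A8.g103), (1, A8.g111), (124, A4.g80), (9, A4.g104), (127, A4.g100), (9, A4.g108),
     (7, A4.g124), (65, A4.g66), (92, A4.g50), (5, A4.g114), (47, A4.g42), (68, A4.g70),
     (92, A4.g54), (22, A4.g118), (10, A4.g46), (1, A4.g94), (2, A4.g62), (12, A4.g81),
     (28, A4.g41), (75, A4.g117), (9, A4.g77), (57, A4.g45), (8, A4.g93), (6, A4.g61),
     (1, A4.g125), (5, A4.g67), (11, A4.g51), (105, A4.g107), (15, A4.g71), (37, A4.g103),
     (7, A4.g87), (19, A4.g55), (59, A4.g47), (119, A4.g63), (1, A6.g8), (1, A6.g18),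
     (8, A6.g26), (1, A6.g27), (5, A6.g7), (2, A9.g4), (12, A9.g15), (14, A5.g64), (29, A5.g24),
     (2, A5.g4), (44, A5.g84), (26, A5.g116), (23, A5.g12), (8, A5.g76), (1, A5.g108),
     (1, A5.g60), (11, A5.g34), (6, A5.g18), (35, A5.g50), (13, A5.g70), (56, A5.g54),
     (2, A5.g126), (1, A5.g81), (11, A5.g85), (7, A5.g117), (1, A5.g77), (22, A5.g3),
     (1, A5.g35), (14, A5.g51), (143, A5.g11), (6, A5.g91), (5, A5.g103), (15, A5.g55),
     (42, A5.g47), (36, A5.g63)]),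
   ((6, 6517776), 517,
    [(13, A8.g56), (14, A8.g60), (7, A8.g58), (2, A8.g118), (3, A8.g73), (46, A8.g101),
     (4, A8.g93), (5, A8.g107), (3, A8.g103), (6, A8.g79), (9, A4.g104), (127, A4.g100),
     (168, A4.g116), (4, A4.g76), (68, A4.g44), (9, A4.g108), (6, A4.g92), (12, A4.g60),
     (47, A4.g42), (70, A4.g106), (56, A4.g102), (19, A4.g86), (22, A4.g118), (10, A4.g46),
     (1, A4.g94), (2, A4.g62), (92, A4.g65), (12, A4.g81), (126, A4.g49), (4, A4.g113),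
     (28, A4.g41), (50, A4.g69), (124, A4.g53), (1, A4.g125), (5, A4.g67), (11, A4.g51),
     (21, A4.g123), (15, A4.g71), (19, A4.g55), (270, A4.g79), (59, A4.g47), (119, A4.g63),
     (1, A6.g8), (10, A6.g6), (1, A6.g30), (3, A6.g25), (1, A6.g13), (1, A6.g27), (3, A9.g14),
     (2, A9.g33), (2, A9.g3), (14, A5.g64), (1, A5.g40), (2, A5.g4), (23, A5.g12), (20, A5.g2),
     (59, A5.g10), (13, A5.g90), (17, A5.g102), (73, A5.g62), (14, A5.g33), (11, A5.g17),
     (45, A5.g49), (1, A5.g121), (18, A5.g69), (11, A5.g85), (20, A5.g53), (7, A5.g117),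
     (1, A5.g77), (1, A5.g35), (47, A5.g83), (14, A5.g51), (21, A5.g115), (5, A5.g75),
     (17, A5.g23), (15, A5.g55), (42, A5.g47)]),
   ((10, 425360507664), 1030,
    [(1, A8.g16), (2, A8.g80), (9, A8.g40), (13, A8.g56), (8, A8.g4), (1, A8.g84), (2, A8.g28),
     (12, A8.g10), (3, A8.g102), (5, A8.g65), (1, A8.g33), (4, A8.g21), (2, A8.g61), (7, A8.g59),
     (3, A8.g103), (1, A8.g111), (67, A6.g64), (21, A6.g96), (23, A6.g48), (14, A6.g72),
     (7, A6.g56), (37, A6.g120), (3, A6.g68), (6, A6.g52), (18, A6.g116), (50, A6.g82),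
     (24, A6.g42), (17, A6.g106), (1, A6.g90), (37, A6.g102), (8, A6.g78), (135, A6.g46),
     (21, A6.g110), (15, A6.g62), (63, A6.g105), (16, A6.g89), (1, A6.g121), (1, A6.g101),
     (2, A6.g117), (83, A6.g109), (82, A6.g67), (13, A6.g83), (85, A6.g51), (28, A6.g43),
     (46, A6.g71), (86, A6.g55), (1, A6.g79), (19, A6.g47), (1, A6.g63), (7, A6.g127),
     (2, A9.g4), (12, A9.g15), (41, A7.g48), (95, A7.g88), (17, A7.g56), (7, A7.g52),
     (1, A7.g28), (45, A7.g66), (2, A7.g6), (130, A7.g14), (7, A7.g110), (10, A7.g62),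
     (9, A7.g126), (10, A7.g73), (8, A7.g89), (1, A7.g121), (4, A7.g5), (2, A7.g101),
     (27, A7.g21), (2, A7.g85), (2, A7.g45), (52, A7.g125), (16, A7.g67), (76, A7.g51),
     (1, A7.g115), (4, A7.g27), (6, A7.g39), (87, A7.g55), (29, A7.g15), (28, A7.g79),
     (2, A7.g95), (2, A7.g63)])]

/-- lights 521 -/
noncomputable def plA_521 : List ((ℕ × ℕ) × ℕ × List (ℕ × ℕ)) :=
  [((0, 0), 521,
    [(11, A8.g104), (1, A8.g120), (1, A8.g68), (59, A8.g66), (7, A8.g58), (33, A8.g62),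
     (34, A8.g81), (3, A8.g113), (1, A8.g89), (4, A8.g57), (7, A8.g75), (5, A8.g107),
     (4, A8.g95), (43, A4.g64), (14, A4.g96), (59, A4.g48), (143, A4.g72), (9, A4.g104),
     (74, A4.g56), (9, A4.g84), (4, A4.g76), (68, A4.g44), (12, A4.g60), (2, A4.g98),
     (135, A4.g82), (20, A4.g74), (8, A4.g58), (56, A4.g102), (19, A4.g86), (10, A4.g46),
     (2, A4.g62), (92, A4.g65), (126, A4.g49), (4, A4.g113), (28, A4.g41), (3, A4.g121),
     (15, A4.g101), (57, A4.g109), (1, A4.g125), (5, A4.g67), (11, A4.g51), (27, A4.g43),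
     (21, A4.g123), (40, A4.g119), (1, A4.g111), (36, A6.g0), (14, A6.g10), (1, A6.g30),
     (1, A6.g13), (5, A6.g29), (16, A9.g16), (1, A9.g48), (7, A9.g35), (21, A5.g96),
     (39, A5.g48), (1, A5.g40), (3, A5.g88), (57, A5.g56), (4, A5.g26), (13, A5.g90),
     (1, A5.g58), (10, A5.g6), (80, A5.g86), (58, A5.g118), (79, A5.g65), (11, A5.g17),
     (45, A5.g49), (10, A5.g105), (1, A5.g121), (18, A5.g69), (5, A5.g37), (30, A5.g13),
     (6, A5.g67), (14, A5.g51), (4, A5.g15)]),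
   ((4, 38449), 1041,
    [(21, A8.g12), (36, A8.g108), (14, A8.g60), (8, A8.g124), (69, A8.g70), (1, A8.g14),
     (4, A8.g30), (33, A8.g62), (3, A8.g113), (8, A8.g9), (3, A8.g73), (1, A8.g89), (125, A8.g5),
     (8, A8.g85), (6, A8.g45), (7, A8.g75), (19, A8.g7), (1, A8.g47), (14, A6.g72), (7, A6.g56),
     (118, A6.g44), (70, A6.g108), (15, A6.g98), (12, A6.g70), (128, A6.g54), (21, A6.g110),
     (18, A6.g113), (60, A6.g73), (145, A6.g57), (48, A6.g69), (155, A6.g53), (2, A6.g117),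
     (4, A6.g77), (72, A6.g45), (11, A6.g93), (15, A6.g61), (19, A6.g115), (4, A6.g75),
     (28, A6.g43), (126, A6.g107), (55, A6.g91), (19, A6.g59), (1, A6.g79), (19, A6.g47),
     (147, A6.g111), (9, A6.g95), (1, A6.g63), (1, A9.g50), (1, A9.g37), (13, A9.g19),
     (49, A7.g0), (29, A7.g96), (11, A7.g8), (6, A7.g24), (17, A7.g56), (6, A7.g4), (1, A7.g100),
     (21, A7.g76), (1, A7.g28), (6, A7.g2), (1, A7.g98), (65, A7.g74), (7, A7.g26), (2, A7.g6),
     (82, A7.g22), (42, A7.g54), (8, A7.g78), (7, A7.g30), (1, A7.g33), (1, A7.g81),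
     (72, A7.g57), (109, A7.g53), (2, A7.g117), (8, A7.g61), (1, A7.g83), (1, A7.g11),
     (15, A7.g59), (3, A7.g103), (1, A7.g119), (2, A7.g63)]),
   ((4, 38720), 1034,
    [(53, A8.g0), (20, A8.g96), (1, A8.g16), (10, A8.g24), (8, A8.g4), (1, A8.g68), (1, A8.g84),
     (3, A8.g76), (2, A8.g28), (16, A8.g82), (1, A8.g14), (4, A8.g1), (12, A8.g105), (1, A8.g25),
     (4, A8.g57), (2, A8.g121), (5, A8.g13), (26, A8.g67), (10, A8.g43), (7, A8.g59),
     (53, A6.g112), (3, A6.g68), (6, A6.g52), (18, A6.g116), (118, A6.g44), (6, A6.g124),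
     (48, A6.g74), (24, A6.g42), (17, A6.g106), (1, A6.g90), (111, A6.g58), (16, A6.g86),
     (8, A6.g78), (135, A6.g46), (15, A6.g62), (18, A6.g65), (64, A6.g49), (18, A6.g113),
     (63, A6.g105), (16, A6.g89), (1, A6.g101), (172, A6.g85), (2, A6.g117), (82, A6.g67),
     (16, A6.g99), (85, A6.g51), (4, A6.g75), (19, A6.g59), (58, A6.g123), (49, A6.g103),
     (1, A6.g79), (19, A6.g47), (1, A6.g63), (7, A6.g127), (1, A9.g6), (34, A9.g17), (1, A9.g27),
     (1, A7.g104), (7, A7.g52), (2, A7.g92), (9, A7.g18), (14, A7.g82), (11, A7.g42),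
     (71, A7.g58), (9, A7.g70), (10, A7.g62), (124, A7.g17), (48, A7.g49), (17, A7.g113),
     (5, A7.g9), (10, A7.g73), (168, A7.g69), (27, A7.g21), (2, A7.g85), (2, A7.g45),
     (1, A7.g83), (76, A7.g51), (1, A7.g115), (3, A7.g43), (79, A7.g91), (15, A7.g59),
     (3, A7.g31), (2, A7.g95), (2, A7.g63)]),
   ((6, 484401), 546,
    [(4, A8.g64), (20, A8.g96), (1, A8.g68), (2, A8.g116), (3, A8.g76), (5, A8.g65),
     (2, A8.g121), (1, A8.g125), (26, A8.g67), (20, A8.g115), (33, A8.g91), (15, A8.g71),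
     (124, A4.g80), (59, A4.g48), (54, A4.g120), (9, A4.g84), (82, A4.g52), (7, A4.g124),
     (2, A4.g98), (92, A4.g50), (17, A4.g90), (8, A4.g58), (92, A4.g54), (22, A4.g118),
     (153, A4.g78), (1, A4.g94), (2, A4.g62), (9, A4.g97), (12, A4.g81), (39, A4.g89),
     (39, A4.g57), (3, A4.g121), (75, A4.g117), (8, A4.g93), (6, A4.g61), (1, A4.g125),
     (126, A4.g83), (11, A4.g51), (113, A4.g115), (7, A4.g87), (19, A4.g55), (59, A4.g47),
     (130, A4.g127), (11, A6.g16), (1, A6.g8), (31, A6.g4), (1, A6.g18), (2, A6.g38),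
     (15, A6.g37), (90, A6.g3), (12, A6.g11), (5, A6.g7), (1, A9.g40), (1, A9.g24), (1, A9.g29),
     (1, A9.g27), (18, A5.g0), (14, A5.g64), (68, A5.g72), (2, A5.g4), (2, A5.g100), (8, A5.g76),
     (1, A5.g108), (53, A5.g66), (11, A5.g34), (8, A5.g106), (13, A5.g70), (15, A5.g38),
     (1, A5.g46), (74, A5.g30), (1, A5.g81), (17, A5.g73), (1, A5.g77), (48, A5.g61),
     (22, A5.g3), (6, A5.g67), (1, A5.g35), (59, A5.g99), (12, A5.g43), (8, A5.g7), (5, A5.g103),
     (3, A5.g79), (2, A5.g111), (17, A5.g31), (36, A5.g63)]),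
   ((6, 6517776), 532,
    [(46, A8.g72), (14, A8.g60), (11, A8.g110), (9, A8.g126), (3, A8.g73), (8, A8.g77),
     (2, A8.g61), (5, A8.g99), (7, A8.g87), (1, A8.g111), (37, A8.g63), (90, A4.g112),
     (4, A4.g76), (68, A4.g44), (9, A4.g108), (6, A4.g92), (12, A4.g60), (5, A4.g114),
     (47, A4.g42), (70, A4.g106), (68, A4.g70), (92, A4.g54), (10, A4.g46), (1, A4.g94),
     (2, A4.g62), (4, A4.g113), (50, A4.g69), (124, A4.g53), (9, A4.g77), (57, A4.g45),
     (8, A4.g93), (6, A4.g61), (6, A4.g99), (81, A4.g75), (105, A4.g107), (86, A4.g91),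
     (113, A4.g59), (15, A4.g71), (19, A4.g55), (1, A6.g20), (1, A6.g18), (3, A6.g1),
     (7, A6.g33), (26, A6.g17), (1, A6.g41), (1, A9.g9), (45, A9.g21), (3, A5.g80), (7, A5.g112),
     (11, A5.g8), (29, A5.g24), (2, A5.g4), (8, A5.g76), (14, A5.g44), (7, A5.g28), (1, A5.g60),
     (20, A5.g2), (29, A5.g74), (125, A5.g22), (56, A5.g54), (104, A5.g94), (2, A5.g126),
     (264, A5.g1), (11, A5.g97), (1, A5.g81), (20, A5.g53), (1, A5.g77), (107, A5.g125),
     (22, A5.g3), (5, A5.g75), (56, A5.g59), (17, A5.g23), (15, A5.g55)]),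
   ((10, 425360507664), 1060,
    [(9, A8.g32), (46, A8.g72), (2, A8.g20), (9, A8.g52), (2, A8.g28), (33, A8.g92), (3, A8.g26),
     (1, A8.g122), (2, A8.g118), (9, A8.g126), (5, A8.g65), (1, A8.g33), (1, A8.g97),
     (3, A8.g73), (28, A8.g69), (4, A8.g21), (2, A8.g53), (16, A8.g117), (8, A8.g77),
     (4, A8.g93), (5, A8.g99), (60, A8.g19), (1, A8.g27), (21, A6.g96), (23, A6.g48),
     (7, A6.g88), (7, A6.g56), (37, A6.g120), (3, A6.g100), (6, A6.g52), (110, A6.g60),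
     (50, A6.g82), (117, A6.g50), (1, A6.g90), (128, A6.g54), (55, A6.g94), (15, A6.g62),
     (8, A6.g126), (70, A6.g81), (16, A6.g89), (1, A6.g121), (1, A6.g101), (15, A6.g61),
     (31, A6.g125), (13, A6.g83), (85, A6.g51), (43, A6.g87), (86, A6.g55), (58, A6.g119),
     (9, A6.g95), (1, A6.g63), (7, A6.g127), (1, A9.g52), (1, A9.g41), (9, A9.g25), (1, A9.g11),
     (4, A7.g72), (40, A7.g120), (6, A7.g4), (8, A7.g84), (2, A7.g44), (97, A7.g108),
     (45, A7.g66), (2, A7.g114), (8, A7.g10), (2, A7.g6), (7, A7.g38), (8, A7.g78), (7, A7.g110),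
     (73, A7.g65), (10, A7.g73), (1, A7.g121), (4, A7.g5), (50, A7.g37), (2, A7.g85),
     (121, A7.g77), (2, A7.g45), (20, A7.g109), (95, A7.g3), (16, A7.g67), (1, A7.g115),
     (1, A7.g11), (60, A7.g71), (6, A7.g39), (28, A7.g79), (7, A7.g47)])]

/-- lights 522 -/
noncomputable def plA_522 : List ((ℕ × ℕ) × ℕ × List (ℕ × ℕ)) :=
  [((0, 0), 522,
    [(20, A8.g96), (1, A8.g68), (1, A8.g84), (3, A8.g76), (16, A8.g82), (12, A8.g105),
     (4, A8.g57), (2, A8.g121), (26, A8.g67), (7, A8.g59), (43, A4.g64), (59, A4.g48),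
     (9, A4.g104), (54, A4.g120), (9, A4.g84), (7, A4.g124), (65, A4.g66), (2, A4.g98),
     (92, A4.g50), (5, A4.g114), (20, A4.g74), (8, A4.g58), (10, A4.g46), (41, A4.g110),
     (2, A4.g62), (9, A4.g97), (71, A4.g73), (28, A4.g41), (39, A4.g57), (3, A4.g121),
     (15, A4.g101), (9, A4.g77), (57, A4.g45), (6, A4.g61), (1, A4.g125), (5, A4.g67),
     (126, A4.g83), (11, A4.g51), (27, A4.g43), (37, A4.g103), (7, A4.g87), (1, A4.g111),
     (12, A6.g11), (1, A9.g6), (34, A9.g17), (1, A9.g27), (39, A5.g48), (3, A5.g88),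
     (1, A5.g108), (1, A5.g60), (53, A5.g66), (6, A5.g18), (35, A5.g50), (8, A5.g106),
     (1, A5.g58), (13, A5.g70), (15, A5.g38), (26, A5.g14), (1, A5.g46), (1, A5.g81),
     (43, A5.g57), (6, A5.g67), (14, A5.g51), (3, A5.g27), (6, A5.g91), (8, A5.g7), (39, A5.g87),
     (19, A5.g119), (4, A5.g15), (3, A5.g79)]),
   ((4, 38449), 1044,
    [(9, A8.g32), (1, A8.g16), (56, A8.g8), (46, A8.g72), (14, A8.g60), (12, A8.g10),
     (11, A8.g110), (9, A8.g126), (1, A8.g33), (8, A8.g9), (3, A8.g73), (8, A8.g77), (2, A8.g61),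
     (5, A8.g99), (7, A8.g87), (4, A8.g15), (1, A8.g47), (1, A8.g111), (37, A8.g63),
     (21, A6.g96), (14, A6.g72), (7, A6.g56), (3, A6.g100), (18, A6.g116), (66, A6.g76),
     (70, A6.g108), (110, A6.g60), (107, A6.g114), (12, A6.g70), (128, A6.g54), (8, A6.g78),
     (135, A6.g46), (21, A6.g110), (55, A6.g94), (15, A6.g62), (1, A6.g101), (2, A6.g117),
     (4, A6.g77), (72, A6.g45), (83, A6.g109), (15, A6.g61), (19, A6.g115), (28, A6.g43),
     (46, A6.g71), (86, A6.g55), (1, A6.g79), (19, A6.g47), (9, A6.g95), (1, A6.g63), (1, A9.g9),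
     (45, A9.g21), (15, A7.g32), (17, A7.g56), (40, A7.g120), (6, A7.g4), (1, A7.g100),
     (8, A7.g84), (1, A7.g28), (46, A7.g60), (8, A7.g10), (7, A7.g26), (2, A7.g6), (42, A7.g54),
     (8, A7.g78), (10, A7.g62), (1, A7.g33), (74, A7.g25), (1, A7.g121), (4, A7.g5),
     (2, A7.g101), (2, A7.g85), (121, A7.g77), (8, A7.g61), (95, A7.g3), (64, A7.g99),
     (1, A7.g11), (4, A7.g27), (87, A7.g55), (28, A7.g79), (7, A7.g47), (2, A7.g63)]),
   ((4, 38720), 1033,
    [(11, A8.g104), (1, A8.g120), (1, A8.g68), (21, A8.g12), (59, A8.g66), (6, A8.g42),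
     (7, A8.g58), (1, A8.g14), (33, A8.g62), (4, A8.g1), (34, A8.g81), (3, A8.g113), (1, A8.g25),
     (1, A8.g89), (4, A8.g57), (6, A8.g3), (7, A8.g75), (5, A8.g107), (1, A8.g27), (2, A8.g23),
     (4, A8.g95), (107, A6.g104), (7, A6.g88), (3, A6.g68), (117, A6.g84), (6, A6.g52),
     (118, A6.g44), (6, A6.g124), (76, A6.g66), (15, A6.g98), (117, A6.g50), (24, A6.g42),
     (17, A6.g106), (1, A6.g90), (103, A6.g122), (16, A6.g86), (8, A6.g126), (18, A6.g65),
     (64, A6.g49), (18, A6.g113), (60, A6.g73), (145, A6.g57), (2, A6.g117), (4, A6.g77),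
     (72, A6.g45), (15, A6.g61), (19, A6.g115), (4, A6.g75), (19, A6.g59), (49, A6.g103),
     (1, A6.g79), (19, A6.g47), (147, A6.g111), (1, A6.g63), (16, A9.g16), (1, A9.g48),
     (7, A9.g35), (65, A7.g16), (3, A7.g112), (11, A7.g8), (4, A7.g72), (49, A7.g68),
     (10, A7.g20), (7, A7.g52), (2, A7.g92), (9, A7.g18), (79, A7.g50), (83, A7.g90),
     (9, A7.g70), (7, A7.g30), (1, A7.g94), (1, A7.g33), (1, A7.g81), (48, A7.g49), (3, A7.g41),
     (72, A7.g57), (8, A7.g61), (1, A7.g83), (1, A7.g11), (3, A7.g43), (15, A7.g59),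
     (3, A7.g103), (2, A7.g63), (63, A7.g127)]),
   ((6, 484401), 548,
    [(46, A8.g72), (33, A8.g92), (1, A8.g122), (2, A8.g118), (9, A8.g126), (5, A8.g65),
     (1, A8.g97), (3, A8.g73), (28, A8.g69), (16, A8.g117), (8, A8.g77), (4, A8.g93),
     (5, A8.g99), (124, A4.g80), (168, A4.g116), (6, A4.g92), (12, A4.g60), (7, A4.g124),
     (92, A4.g50), (56, A4.g122), (19, A4.g86), (92, A4.g54), (22, A4.g118), (1, A4.g94),
     (2, A4.g62), (12, A4.g81), (126, A4.g49), (198, A4.g85), (124, A4.g53), (75, A4.g117),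
     (8, A4.g93), (6, A4.g61), (1, A4.g125), (6, A4.g99), (11, A4.g51), (86, A4.g91),
     (113, A4.g59), (21, A4.g123), (7, A4.g87), (19, A4.g55), (270, A4.g79), (59, A4.g47),
     (1, A6.g8), (1, A6.g20), (4, A6.g12), (1, A6.g18), (10, A6.g6), (26, A6.g17), (1, A6.g41),
     (130, A6.g5), (1, A6.g13), (5, A6.g7), (3, A6.g39), (1, A9.g52), (1, A9.g41), (9, A9.g25),
     (1, A9.g11), (14, A5.g64), (116, A5.g32), (3, A5.g80), (7, A5.g112), (11, A5.g8),
     (1, A5.g40), (2, A5.g4), (73, A5.g68), (8, A5.g76), (14, A5.g44), (1, A5.g108), (20, A5.g2),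
     (11, A5.g34), (29, A5.g74), (13, A5.g70), (17, A5.g102), (73, A5.g62), (264, A5.g1),
     (14, A5.g33), (1, A5.g81), (18, A5.g69), (57, A5.g101), (1, A5.g77), (22, A5.g3),
     (1, A5.g35), (5, A5.g75), (4, A5.g107), (1, A5.g39), (5, A5.g103), (36, A5.g63)]),
   ((6, 6517776), 529,
    [(36, A8.g108), (14, A8.g60), (8, A8.g124), (69, A8.g70), (33, A8.g62), (3, A8.g113),
     (3, A8.g73), (1, A8.g89), (8, A8.g85), (7, A8.g75), (14, A4.g96), (143, A4.g72),
     (69, A4.g88), (74, A4.g56), (55, A4.g68), (82, A4.g52), (4, A4.g76), (68, A4.g44),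
     (9, A4.g108), (6, A4.g92), (12, A4.g60), (2, A4.g98), (20, A4.g74), (47, A4.g42),
     (70, A4.g106), (17, A4.g90), (8, A4.g58), (10, A4.g46), (1, A4.g94), (2, A4.g62),
     (298, A4.g126), (4, A4.g113), (53, A4.g105), (50, A4.g69), (124, A4.g53), (57, A4.g109),
     (27, A4.g43), (15, A4.g71), (19, A4.g55), (1, A4.g111), (36, A6.g0), (1, A6.g32),
     (20, A6.g15), (1, A9.g50), (1, A9.g37), (13, A9.g19), (18, A5.g0), (21, A5.g96),
     (57, A5.g56), (2, A5.g4), (35, A5.g52), (59, A5.g92), (5, A5.g124), (20, A5.g2),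
     (8, A5.g42), (4, A5.g26), (1, A5.g58), (45, A5.g122), (10, A5.g6), (3, A5.g110),
     (17, A5.g73), (6, A5.g21), (20, A5.g53), (1, A5.g77), (58, A5.g19), (5, A5.g75),
     (63, A5.g71), (17, A5.g23), (15, A5.g55)]),
   ((10, 425360507664), 1058,
    [(4, A8.g64), (20, A8.g96), (10, A8.g24), (1, A8.g68), (2, A8.g116), (3, A8.g76),
     (2, A8.g28), (37, A8.g18), (5, A8.g65), (1, A8.g33), (1, A8.g25), (2, A8.g121), (4, A8.g21),
     (1, A8.g125), (26, A8.g67), (4, A8.g51), (20, A8.g115), (33, A8.g91), (15, A8.g71),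
     (1, A8.g31), (21, A6.g96), (98, A6.g80), (23, A6.g48), (7, A6.g56), (37, A6.g120),
     (6, A6.g52), (49, A6.g92), (6, A6.g124), (50, A6.g82), (1, A6.g90), (111, A6.g58),
     (16, A6.g86), (72, A6.g118), (15, A6.g62), (64, A6.g49), (16, A6.g89), (1, A6.g121),
     (1, A6.g101), (172, A6.g85), (155, A6.g53), (11, A6.g93), (16, A6.g99), (13, A6.g83),
     (85, A6.g51), (19, A6.g59), (58, A6.g123), (86, A6.g55), (1, A6.g63), (7, A6.g127),
     (1, A9.g40), (1, A9.g24), (1, A9.g29), (1, A9.g27), (52, A7.g64), (2, A7.g36), (21, A7.g76),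
     (6, A7.g2), (45, A7.g66), (14, A7.g82), (11, A7.g42), (47, A7.g106), (2, A7.g6),
     (9, A7.g70), (7, A7.g118), (7, A7.g110), (66, A7.g1), (17, A7.g113), (5, A7.g9),
     (10, A7.g73), (1, A7.g121), (4, A7.g5), (168, A7.g69), (2, A7.g85), (2, A7.g45),
     (16, A7.g67), (47, A7.g35), (1, A7.g83), (1, A7.g115), (135, A7.g75), (3, A7.g43),
     (5, A7.g107), (6, A7.g39), (1, A7.g119), (28, A7.g79)])]

/-- lights 524 -/
noncomputable def plA_524 : List ((ℕ × ℕ) × ℕ × List (ℕ × ℕ)) :=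
  [((0, 0), 524,
    [(1, A8.g84), (28, A8.g106), (7, A8.g58), (1, A8.g122), (1, A8.g97), (28, A8.g69),
     (8, A8.g77), (42, A8.g83), (5, A8.g107), (7, A8.g59), (37, A8.g63), (90, A4.g112),
     (9, A4.g104), (4, A4.g76), (68, A4.g44), (12, A4.g60), (7, A4.g124), (65, A4.g66),
     (92, A4.g50), (5, A4.g114), (56, A4.g122), (56, A4.g102), (19, A4.g86), (10, A4.g46),
     (2, A4.g62), (92, A4.g65), (126, A4.g49), (4, A4.g113), (28, A4.g41), (198, A4.g85),
     (9, A4.g77), (57, A4.g45), (6, A4.g61), (1, A4.g125), (5, A4.g67), (6, A4.g99),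
     (11, A4.g51), (81, A4.g75), (113, A4.g59), (21, A4.g123), (37, A4.g103), (7, A4.g87),
     (1, A6.g20), (4, A6.g12), (1, A6.g30), (3, A6.g1), (1, A6.g13), (20, A9.g18), (1, A9.g7),
     (38, A5.g16), (3, A5.g80), (11, A5.g8), (1, A5.g40), (45, A5.g120), (73, A5.g68),
     (1, A5.g108), (7, A5.g28), (1, A5.g60), (6, A5.g18), (35, A5.g50), (13, A5.g90),
     (13, A5.g70), (11, A5.g97), (11, A5.g17), (1, A5.g81), (45, A5.g49), (29, A5.g89),
     (1, A5.g121), (18, A5.g69), (14, A5.g51), (4, A5.g107), (6, A5.g91), (56, A5.g59),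
     (1, A5.g39)]),
   ((4, 38449), 1042,
    [(1, A8.g16), (3, A8.g76), (12, A8.g10), (36, A8.g6), (22, A8.g86), (1, A8.g14), (6, A8.g46),
     (1, A8.g33), (5, A8.g13), (15, A8.g109), (2, A8.g61), (1, A8.g125), (19, A8.g7),
     (15, A8.g71), (1, A8.g111), (1, A8.g31), (21, A6.g96), (53, A6.g112), (14, A6.g72),
     (7, A6.g56), (18, A6.g116), (118, A6.g44), (49, A6.g92), (48, A6.g74), (111, A6.g58),
     (8, A6.g78), (135, A6.g46), (21, A6.g110), (15, A6.g62), (18, A6.g113), (48, A6.g69),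
     (1, A6.g101), (155, A6.g53), (2, A6.g117), (83, A6.g109), (11, A6.g93), (16, A6.g99),
     (4, A6.g75), (28, A6.g43), (126, A6.g107), (19, A6.g59), (46, A6.g71), (86, A6.g55),
     (1, A6.g79), (19, A6.g47), (1, A6.g63), (16, A9.g20), (1, A9.g29), (1, A7.g104),
     (6, A7.g24), (17, A7.g56), (21, A7.g76), (1, A7.g28), (6, A7.g2), (1, A7.g98), (14, A7.g82),
     (71, A7.g58), (2, A7.g6), (7, A7.g118), (10, A7.g62), (66, A7.g1), (82, A7.g97), (5, A7.g9),
     (1, A7.g121), (4, A7.g5), (2, A7.g101), (2, A7.g85), (109, A7.g53), (1, A7.g83),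
     (135, A7.g75), (4, A7.g27), (15, A7.g59), (17, A7.g23), (87, A7.g55), (1, A7.g119),
     (28, A7.g79), (3, A7.g31), (2, A7.g63)]),
   ((4, 38720), 1036,
    [(1, A8.g16), (8, A8.g4), (1, A8.g84), (2, A8.g28), (95, A8.g2), (28, A8.g106), (3, A8.g26),
     (7, A8.g58), (1, A8.g122), (1, A8.g97), (28, A8.g69), (8, A8.g77), (6, A8.g3), (42, A8.g83),
     (5, A8.g107), (1, A8.g27), (7, A8.g59), (4, A8.g15), (37, A8.g63), (107, A6.g104),
     (7, A6.g88), (3, A6.g68), (3, A6.g100), (6, A6.g52), (18, A6.g116), (66, A6.g76),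
     (110, A6.g60), (76, A6.g66), (117, A6.g50), (107, A6.g114), (24, A6.g42), (17, A6.g106),
     (1, A6.g90), (8, A6.g78), (135, A6.g46), (15, A6.g62), (8, A6.g126), (63, A6.g105),
     (16, A6.g89), (1, A6.g101), (2, A6.g117), (4, A6.g77), (72, A6.g45), (15, A6.g61),
     (31, A6.g125), (82, A6.g67), (85, A6.g51), (19, A6.g115), (43, A6.g87), (1, A6.g79),
     (19, A6.g47), (1, A6.g63), (7, A6.g127), (20, A9.g18), (1, A9.g7), (15, A7.g32),
     (4, A7.g72), (10, A7.g20), (8, A7.g84), (7, A7.g52), (2, A7.g44), (46, A7.g60),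
     (79, A7.g50), (2, A7.g114), (8, A7.g10), (1, A7.g94), (10, A7.g62), (1, A7.g33),
     (10, A7.g73), (27, A7.g21), (2, A7.g85), (2, A7.g45), (85, A7.g93), (8, A7.g61),
     (73, A7.g19), (76, A7.g51), (1, A7.g115), (1, A7.g11), (60, A7.g71), (2, A7.g95), (2, A7.g63)]),
   ((6, 484401), 545,
    [(4, A8.g64), (1, A8.g120), (1, A8.g68), (2, A8.g116), (8, A8.g124), (59, A8.g66),
     (17, A8.g114), (45, A8.g90), (69, A8.g70), (2, A8.g118), (3, A8.g73), (4, A8.g93),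
     (7, A8.g75), (4, A8.g95), (14, A4.g96), (59, A4.g48), (69, A4.g88), (74, A4.g56),
     (9, A4.g84), (82, A4.g52), (168, A4.g116), (6, A4.g92), (12, A4.g60), (2, A4.g98),
     (135, A4.g82), (17, A4.g90), (8, A4.g58), (19, A4.g86), (22, A4.g118), (153, A4.g78),
     (1, A4.g94), (2, A4.g62), (298, A4.g126), (12, A4.g81), (126, A4.g49), (3, A4.g121),
     (124, A4.g53), (1, A4.g125), (11, A4.g51), (113, A4.g115), (21, A4.g123), (19, A4.g55),
     (40, A4.g119), (270, A4.g79), (59, A4.g47), (1, A6.g8), (31, A6.g4), (2, A6.g36),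
     (66, A6.g2), (14, A6.g10), (10, A6.g6), (2, A6.g38), (1, A6.g13), (20, A6.g15), (2, A9.g39),
     (28, A9.g23), (18, A5.g0), (14, A5.g64), (1, A5.g40), (2, A5.g4), (2, A5.g100), (20, A5.g2),
     (49, A5.g98), (8, A5.g42), (10, A5.g6), (17, A5.g102), (3, A5.g110), (73, A5.g62),
     (79, A5.g65), (14, A5.g33), (17, A5.g73), (10, A5.g105), (18, A5.g69), (5, A5.g37),
     (1, A5.g77), (38, A5.g29), (48, A5.g61), (6, A5.g67), (1, A5.g35), (5, A5.g75),
     (63, A5.g71), (17, A5.g31)]),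
   ((6, 6517776), 530,
    [(3, A8.g76), (22, A8.g86), (15, A8.g109), (2, A8.g61), (1, A8.g125), (15, A8.g71),
     (1, A8.g111), (55, A4.g68), (82, A4.g52), (9, A4.g108), (2, A4.g98), (5, A4.g114),
     (20, A4.g74), (47, A4.g42), (17, A4.g90), (8, A4.g58), (68, A4.g70), (92, A4.g54),
     (10, A4.g46), (41, A4.g110), (1, A4.g94), (2, A4.g62), (9, A4.g97), (71, A4.g73),
     (53, A4.g105), (39, A4.g89), (39, A4.g57), (9, A4.g77), (57, A4.g45), (8, A4.g93),
     (6, A4.g61), (27, A4.g43), (105, A4.g107), (15, A4.g71), (19, A4.g55), (1, A4.g111),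
     (130, A4.g127), (11, A6.g16), (1, A6.g18), (16, A9.g20), (1, A9.g29), (18, A5.g0),
     (68, A5.g72), (29, A5.g24), (2, A5.g4), (79, A5.g20), (35, A5.g52), (8, A5.g76),
     (1, A5.g60), (5, A5.g124), (1, A5.g58), (56, A5.g54), (1, A5.g46), (2, A5.g126),
     (1, A5.g81), (17, A5.g73), (43, A5.g57), (6, A5.g21), (1, A5.g77), (30, A5.g93),
     (22, A5.g3), (12, A5.g43), (3, A5.g27), (90, A5.g123), (8, A5.g7), (15, A5.g55),
     (3, A5.g79), (2, A5.g111)]),
   ((10, 425360507664), 1057,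
    [(4, A8.g64), (1, A8.g120), (1, A8.g68), (2, A8.g20), (2, A8.g116), (8, A8.g124),
     (59, A8.g66), (2, A8.g50), (17, A8.g114), (45, A8.g90), (69, A8.g70), (2, A8.g118),
     (4, A8.g30), (72, A8.g17), (3, A8.g73), (1, A8.g25), (2, A8.g53), (4, A8.g93), (7, A8.g75),
     (1, A8.g27), (2, A8.g23), (4, A8.g95), (98, A6.g80), (23, A6.g48), (7, A6.g88), (7, A6.g56),
     (117, A6.g84), (6, A6.g52), (6, A6.g124), (15, A6.g98), (117, A6.g50), (1, A6.g90),
     (103, A6.g122), (16, A6.g86), (128, A6.g54), (72, A6.g118), (8, A6.g126), (70, A6.g81),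
     (64, A6.g49), (145, A6.g57), (1, A6.g121), (155, A6.g53), (11, A6.g93), (15, A6.g61),
     (13, A6.g83), (55, A6.g91), (19, A6.g59), (58, A6.g119), (9, A6.g95), (1, A6.g63),
     (2, A9.g39), (28, A9.g23), (49, A7.g0), (52, A7.g64), (3, A7.g112), (11, A7.g8),
     (4, A7.g72), (6, A7.g4), (49, A7.g68), (2, A7.g36), (21, A7.g76), (6, A7.g2), (21, A7.g34),
     (65, A7.g74), (2, A7.g6), (9, A7.g70), (7, A7.g38), (8, A7.g78), (73, A7.g65), (1, A7.g81),
     (3, A7.g41), (66, A7.g105), (2, A7.g117), (20, A7.g109), (16, A7.g67), (1, A7.g83),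
     (1, A7.g11), (3, A7.g43), (5, A7.g107), (1, A7.g119)])]

/-- lights 536 -/
noncomputable def plA_536 : List ((ℕ × ℕ) × ℕ × List (ℕ × ℕ)) :=
  [((0, 0), 536,
    [(13, A8.g112), (23, A8.g88), (4, A8.g100), (3, A8.g76), (66, A8.g74), (33, A8.g62),
     (3, A8.g113), (1, A8.g89), (8, A8.g77), (7, A8.g75), (37, A8.g63), (4, A8.g127),
     (14, A4.g96), (90, A4.g112), (143, A4.g72), (74, A4.g56), (4, A4.g76), (68, A4.g44),
     (12, A4.g60), (2, A4.g98), (5, A4.g114), (20, A4.g74), (8, A4.g58), (10, A4.g46),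
     (41, A4.g110), (2, A4.g62), (9, A4.g97), (4, A4.g113), (71, A4.g73), (39, A4.g57),
     (9, A4.g77), (57, A4.g45), (57, A4.g109), (6, A4.g61), (6, A4.g99), (81, A4.g75),
     (27, A4.g43), (113, A4.g59), (1, A4.g111), (54, A4.g95), (36, A6.g0), (1, A6.g20),
     (2, A6.g34), (3, A6.g1), (2, A6.g19), (86, A9.g22), (21, A5.g96), (3, A5.g80), (11, A5.g8),
     (57, A5.g56), (7, A5.g28), (1, A5.g60), (4, A5.g26), (1, A5.g58), (10, A5.g6), (51, A5.g78),
     (1, A5.g46), (11, A5.g97), (1, A5.g81), (2, A5.g113), (57, A5.g25), (43, A5.g57),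
     (94, A5.g5), (2, A5.g45), (3, A5.g27), (56, A5.g59), (8, A5.g7), (3, A5.g79), (53, A5.g95),
     (111, A5.g127)]),
   ((4, 38449), 1048,
    [(1, A8.g16), (17, A8.g48), (13, A8.g112), (23, A8.g88), (4, A8.g100), (21, A8.g12),
     (3, A8.g76), (6, A8.g34), (66, A8.g74), (1, A8.g14), (33, A8.g62), (3, A8.g113),
     (1, A8.g89), (5, A8.g13), (8, A8.g77), (53, A8.g11), (7, A8.g75), (4, A8.g15), (37, A8.g63),
     (4, A8.g127), (53, A6.g112), (3, A6.g100), (18, A6.g116), (66, A6.g76), (118, A6.g44),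
     (110, A6.g60), (15, A6.g98), (107, A6.g114), (48, A6.g74), (111, A6.g58), (8, A6.g78),
     (135, A6.g46), (15, A6.g62), (147, A6.g97), (18, A6.g113), (60, A6.g73), (145, A6.g57),
     (1, A6.g101), (2, A6.g117), (4, A6.g77), (72, A6.g45), (15, A6.g61), (16, A6.g99),
     (19, A6.g115), (4, A6.g75), (19, A6.g59), (1, A6.g79), (19, A6.g47), (147, A6.g111),
     (1, A6.g63), (86, A9.g22), (15, A7.g32), (56, A7.g80), (11, A7.g8), (1, A7.g104),
     (8, A7.g84), (46, A7.g60), (14, A7.g82), (8, A7.g10), (71, A7.g58), (4, A7.g122),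
     (53, A7.g102), (7, A7.g30), (10, A7.g62), (1, A7.g33), (1, A7.g81), (5, A7.g9),
     (72, A7.g57), (2, A7.g85), (48, A7.g29), (8, A7.g61), (1, A7.g83), (1, A7.g11),
     (15, A7.g59), (31, A7.g7), (3, A7.g103), (3, A7.g31), (2, A7.g63)]),
   ((4, 38720), 1064,
    [(20, A8.g96), (10, A8.g24), (1, A8.g120), (1, A8.g68), (4, A8.g100), (3, A8.g76),
     (2, A8.g28), (59, A8.g66), (6, A8.g34), (66, A8.g74), (3, A8.g26), (1, A8.g122),
     (74, A8.g22), (29, A8.g54), (78, A8.g94), (1, A8.g97), (1, A8.g25), (2, A8.g121),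
     (28, A8.g69), (8, A8.g77), (26, A8.g67), (7, A8.g75), (1, A8.g27), (2, A8.g23),
     (23, A8.g119), (4, A8.g95), (4, A8.g127), (7, A6.g88), (3, A6.g100), (117, A6.g84),
     (6, A6.g52), (110, A6.g60), (6, A6.g124), (15, A6.g98), (117, A6.g50), (1, A6.g90),
     (111, A6.g58), (103, A6.g122), (16, A6.g86), (15, A6.g62), (8, A6.g126), (147, A6.g97),
     (64, A6.g49), (16, A6.g89), (145, A6.g57), (1, A6.g101), (172, A6.g85), (15, A6.g61),
     (31, A6.g125), (16, A6.g99), (85, A6.g51), (19, A6.g59), (58, A6.g123), (43, A6.g87),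
     (1, A6.g63), (7, A6.g127), (6, A9.g42), (21, A9.g26), (1, A9.g27), (56, A7.g80),
     (3, A7.g112), (11, A7.g8), (4, A7.g72), (42, A7.g40), (49, A7.g68), (8, A7.g84),
     (2, A7.g44), (14, A7.g82), (2, A7.g114), (8, A7.g10), (11, A7.g42), (4, A7.g122),
     (9, A7.g70), (1, A7.g81), (17, A7.g113), (5, A7.g9), (10, A7.g73), (3, A7.g41),
     (168, A7.g69), (2, A7.g85), (2, A7.g45), (1, A7.g83), (1, A7.g115), (1, A7.g11),
     (3, A7.g43), (31, A7.g7), (60, A7.g71), (121, A7.g111)]),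
   ((6, 484401), 552,
    [(20, A8.g96), (1, A8.g120), (1, A8.g68), (4, A8.g100), (3, A8.g76), (59, A8.g66),
     (66, A8.g74), (1, A8.g122), (78, A8.g94), (1, A8.g97), (2, A8.g121), (28, A8.g69),
     (8, A8.g77), (26, A8.g67), (7, A8.g75), (23, A8.g119), (4, A8.g95), (4, A8.g127),
     (14, A4.g96), (59, A4.g48), (74, A4.g56), (54, A4.g120), (9, A4.g84), (12, A4.g60),
     (7, A4.g124), (2, A4.g98), (135, A4.g82), (92, A4.g50), (8, A4.g58), (56, A4.g122),
     (19, A4.g86), (2, A4.g62), (9, A4.g97), (126, A4.g49), (39, A4.g57), (3, A4.g121),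
     (198, A4.g85), (6, A4.g61), (1, A4.g125), (6, A4.g99), (126, A4.g83), (11, A4.g51),
     (113, A4.g59), (21, A4.g123), (7, A4.g87), (40, A4.g119), (54, A4.g95), (1, A6.g20),
     (4, A6.g12), (14, A6.g10), (57, A6.g9), (1, A6.g13), (2, A6.g19), (12, A6.g11), (6, A9.g42),
     (21, A9.g26), (1, A9.g27), (3, A5.g80), (11, A5.g8), (1, A5.g40), (44, A5.g104),
     (73, A5.g68), (58, A5.g36), (1, A5.g108), (53, A5.g66), (8, A5.g106), (10, A5.g6),
     (13, A5.g70), (15, A5.g38), (51, A5.g78), (1, A5.g46), (79, A5.g65), (1, A5.g81),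
     (2, A5.g113), (10, A5.g105), (94, A5.g5), (18, A5.g69), (5, A5.g37), (2, A5.g45),
     (6, A5.g67), (4, A5.g107), (8, A5.g7), (1, A5.g39), (3, A5.g79)]),
   ((6, 6517776), 560,
    [(46, A8.g72), (4, A8.g100), (3, A8.g76), (8, A8.g124), (34, A8.g98), (66, A8.g74),
     (69, A8.g70), (9, A8.g126), (3, A8.g73), (8, A8.g77), (1, A8.g125), (5, A8.g99),
     (7, A8.g75), (59, A8.g123), (15, A8.g71), (4, A8.g127), (14, A4.g96), (69, A4.g88),
     (74, A4.g56), (82, A4.g52), (6, A4.g92), (12, A4.g60), (2, A4.g98), (17, A4.g90),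
     (8, A4.g58), (92, A4.g54), (1, A4.g94), (2, A4.g62), (298, A4.g126), (9, A4.g97),
     (39, A4.g89), (39, A4.g57), (124, A4.g53), (8, A4.g93), (6, A4.g61), (6, A4.g99),
     (86, A4.g91), (113, A4.g59), (19, A4.g55), (54, A4.g95), (130, A4.g127), (11, A6.g16),
     (2, A6.g40), (1, A6.g20), (1, A6.g18), (58, A6.g14), (26, A6.g17), (1, A6.g41), (2, A6.g19),
     (20, A6.g15), (1, A9.g12), (23, A9.g28), (2, A9.g53), (1, A9.g29), (18, A5.g0), (3, A5.g80),
     (7, A5.g112), (11, A5.g8), (68, A5.g72), (2, A5.g4), (8, A5.g76), (14, A5.g44), (20, A5.g2),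
     (29, A5.g74), (8, A5.g42), (10, A5.g6), (51, A5.g78), (1, A5.g46), (3, A5.g110),
     (264, A5.g1), (1, A5.g81), (2, A5.g113), (17, A5.g73), (45, A5.g41), (94, A5.g5),
     (1, A5.g77), (2, A5.g45), (57, A5.g109), (22, A5.g3), (5, A5.g75), (12, A5.g43), (8, A5.g7),
     (63, A5.g71), (3, A5.g79), (2, A5.g111)]),
   ((10, 425360507664), 1072,
    [(9, A8.g32), (46, A8.g72), (4, A8.g100), (3, A8.g76), (8, A8.g124), (6, A8.g34),
     (34, A8.g98), (66, A8.g74), (69, A8.g70), (4, A8.g30), (9, A8.g126), (1, A8.g33),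
     (3, A8.g73), (8, A8.g77), (119, A8.g29), (1, A8.g125), (5, A8.g99), (7, A8.g75),
     (59, A8.g123), (15, A8.g71), (21, A8.g55), (1, A8.g31), (4, A8.g127), (21, A6.g96),
     (7, A6.g56), (3, A6.g100), (49, A6.g92), (110, A6.g60), (15, A6.g98), (111, A6.g58),
     (128, A6.g54), (55, A6.g94), (15, A6.g62), (147, A6.g97), (145, A6.g57), (1, A6.g101),
     (155, A6.g53), (11, A6.g93), (15, A6.g61), (16, A6.g99), (55, A6.g91), (19, A6.g59),
     (86, A6.g55), (9, A6.g95), (1, A6.g63), (1, A9.g12), (23, A9.g28), (2, A9.g53), (1, A9.g29),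
     (49, A7.g0), (56, A7.g80), (11, A7.g8), (40, A7.g120), (6, A7.g4), (8, A7.g84),
     (62, A7.g116), (21, A7.g76), (6, A7.g2), (14, A7.g82), (8, A7.g10), (65, A7.g74),
     (4, A7.g122), (2, A7.g6), (7, A7.g118), (8, A7.g78), (51, A7.g46), (66, A7.g1), (1, A7.g81),
     (5, A7.g9), (1, A7.g121), (4, A7.g5), (2, A7.g85), (2, A7.g117), (121, A7.g77), (95, A7.g3),
     (1, A7.g83), (1, A7.g11), (135, A7.g75), (31, A7.g7), (1, A7.g119), (28, A7.g79), (7, A7.g47)])]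

/-- lights 577 -/
noncomputable def plA_577 : List ((ℕ × ℕ) × ℕ × List (ℕ × ℕ)) :=
  [((0, 0), 577,
    [(45, A8.g90), (7, A8.g78), (34, A8.g81), (1, A8.g89), (8, A8.g85), (4, A8.g93), (6, A8.g79),
     (4, A8.g95), (43, A4.g64), (14, A4.g96), (143, A4.g72), (69, A4.g88), (55, A4.g68),
     (9, A4.g84), (4, A4.g76), (6, A4.g92), (2, A4.g98), (135, A4.g82), (20, A4.g74),
     (17, A4.g90), (19, A4.g86), (153, A4.g78), (1, A4.g94), (92, A4.g65), (12, A4.g81),
     (50, A4.g69), (5, A4.g67), (15, A4.g71), (270, A4.g79), (119, A4.g63), (1, A6.g32),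
     (2, A6.g36), (2, A6.g38), (1, A6.g30), (3, A6.g25), (52, A6.g21), (5, A6.g29), (1, A6.g27),
     (5, A6.g23), (81, A9.g0), (20, A9.g30), (2, A9.g33), (1, A9.g37), (2, A9.g3), (7, A9.g35),
     (2, A9.g39), (1, A9.g55), (21, A5.g96), (1, A5.g40), (3, A5.g88), (2, A5.g100),
     (23, A5.g12), (59, A5.g92), (49, A5.g98), (26, A5.g82), (59, A5.g10), (8, A5.g42),
     (4, A5.g26), (13, A5.g90), (17, A5.g102), (80, A5.g86), (3, A5.g110), (14, A5.g33),
     (11, A5.g17), (37, A5.g9), (10, A5.g105), (5, A5.g37), (6, A5.g21), (11, A5.g85),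
     (30, A5.g13), (38, A5.g29), (1, A5.g35), (58, A5.g19), (47, A5.g83), (17, A5.g23),
     (4, A5.g15), (17, A5.g31)]),
   ((4, 38449), 1153,
    [(11, A8.g104), (1, A8.g120), (2, A8.g20), (2, A8.g116), (21, A8.g12), (36, A8.g108),
     (8, A8.g124), (2, A8.g50), (17, A8.g114), (6, A8.g42), (2, A8.g118), (1, A8.g14),
     (4, A8.g30), (4, A8.g1), (72, A8.g17), (3, A8.g113), (8, A8.g9), (1, A8.g25), (125, A8.g5),
     (11, A8.g37), (46, A8.g101), (2, A8.g53), (6, A8.g45), (6, A8.g3), (45, A8.g35),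
     (5, A8.g107), (1, A8.g27), (19, A8.g7), (13, A8.g39), (3, A8.g103), (2, A8.g23),
     (1, A8.g47), (107, A6.g104), (70, A6.g108), (6, A6.g124), (17, A6.g106), (103, A6.g122),
     (37, A6.g102), (72, A6.g118), (21, A6.g110), (8, A6.g126), (18, A6.g113), (1, A6.g121),
     (2, A6.g117), (19, A6.g115), (126, A6.g107), (49, A6.g103), (58, A6.g119), (147, A6.g111),
     (81, A9.g0), (1, A9.g48), (1, A9.g50), (1, A9.g45), (2, A9.g3), (9, A9.g43), (1, A9.g55),
     (49, A7.g0), (65, A7.g16), (11, A7.g8), (6, A7.g24), (6, A7.g4), (2, A7.g36), (10, A7.g20),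
     (56, A7.g12), (1, A7.g28), (66, A7.g124), (6, A7.g2), (21, A7.g34), (9, A7.g18),
     (7, A7.g26), (2, A7.g6), (7, A7.g38), (82, A7.g22), (7, A7.g30), (9, A7.g126), (1, A7.g33),
     (3, A7.g41), (88, A7.g13), (1, A7.g11), (3, A7.g43), (82, A7.g123), (29, A7.g15),
     (63, A7.g127)]),
   ((4, 38720), 1090,
    [(20, A8.g96), (2, A8.g80), (9, A8.g40), (59, A8.g36), (1, A8.g84), (16, A8.g82),
     (22, A8.g86), (7, A8.g78), (6, A8.g46), (11, A8.g37), (4, A8.g51), (10, A8.g43),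
     (33, A8.g91), (67, A6.g64), (21, A6.g96), (98, A6.g80), (14, A6.g72), (3, A6.g68),
     (49, A6.g92), (50, A6.g82), (48, A6.g74), (1, A6.g90), (16, A6.g86), (8, A6.g78),
     (18, A6.g65), (16, A6.g89), (48, A6.g69), (1, A6.g101), (172, A6.g85), (11, A6.g93),
     (82, A6.g67), (16, A6.g99), (13, A6.g83), (4, A6.g75), (46, A6.g71), (1, A6.g79),
     (1, A9.g40), (3, A9.g56), (2, A9.g4), (1, A9.g6), (11, A9.g1), (8, A9.g31), (1, A7.g104),
     (6, A7.g24), (95, A7.g88), (2, A7.g36), (56, A7.g12), (1, A7.g28), (2, A7.g92), (1, A7.g98),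
     (9, A7.g18), (11, A7.g42), (47, A7.g106), (29, A7.g86), (7, A7.g118), (130, A7.g14),
     (7, A7.g110), (82, A7.g97), (124, A7.g17), (17, A7.g113), (8, A7.g89), (1, A7.g121),
     (2, A7.g101), (27, A7.g21), (2, A7.g45), (47, A7.g35), (1, A7.g115), (3, A7.g43),
     (5, A7.g107), (4, A7.g27), (79, A7.g91), (6, A7.g39), (17, A7.g23), (1, A7.g119),
     (29, A7.g15), (3, A7.g31), (2, A7.g95)]),
   ((6, 484401), 770,
    [(11, A6.g16), (1, A6.g8), (31, A6.g4), (1, A6.g18), (8, A6.g26), (2, A6.g38), (42, A6.g22),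
     (15, A6.g37), (90, A6.g3), (12, A6.g11), (1, A6.g27), (5, A6.g7), (5, A6.g23), (1, A9.g40),
     (1, A9.g24), (3, A9.g56), (16, A9.g20), (18, A9.g44), (34, A9.g17), (1, A9.g13),
     (1, A9.g45), (1, A9.g29), (1, A9.g27), (12, A9.g15), (8, A9.g31), (14, A5.g64),
     (39, A5.g48), (68, A5.g72), (3, A5.g88), (2, A5.g100), (44, A5.g84), (35, A5.g52),
     (26, A5.g116), (8, A5.g76), (1, A5.g108), (1, A5.g60), (5, A5.g124), (53, A5.g66),
     (26, A5.g82), (35, A5.g50), (38, A5.g114), (8, A5.g106), (1, A5.g58), (13, A5.g70),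
     (56, A5.g54), (2, A5.g126), (1, A5.g81), (17, A5.g73), (43, A5.g57), (11, A5.g85),
     (7, A5.g117), (1, A5.g77), (30, A5.g93), (48, A5.g61), (6, A5.g67), (59, A5.g99),
     (14, A5.g51), (6, A5.g91), (90, A5.g123), (5, A5.g103), (39, A5.g87), (15, A5.g55),
     (19, A5.g119), (3, A5.g79), (42, A5.g47), (2, A5.g111), (36, A5.g63)]),
   ((6, 6517776), 644,
    [(28, A8.g106), (1, A8.g122), (3, A8.g102), (2, A8.g118), (11, A8.g110), (9, A8.g126),
     (46, A8.g101), (16, A8.g117), (5, A8.g107), (3, A8.g103), (1, A8.g111), (90, A4.g112),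
     (9, A4.g104), (127, A4.g100), (168, A4.g116), (9, A4.g108), (7, A4.g124), (5, A4.g114),
     (70, A4.g106), (56, A4.g122), (56, A4.g102), (22, A4.g118), (4, A4.g113), (75, A4.g117),
     (1, A4.g125), (105, A4.g107), (21, A4.g123), (37, A4.g103), (1, A6.g8), (83, A6.g24),
     (1, A6.g20), (4, A6.g12), (1, A6.g18), (8, A6.g26), (10, A6.g6), (1, A6.g30), (3, A6.g1),
     (7, A6.g33), (26, A6.g17), (1, A6.g41), (3, A6.g25), (130, A6.g5), (1, A6.g13), (1, A6.g27),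
     (5, A6.g7), (3, A6.g39), (2, A9.g4), (1, A9.g52), (19, A9.g2), (18, A9.g46), (1, A9.g9),
     (5, A9.g57), (2, A9.g3), (1, A9.g11), (1, A9.g7), (116, A5.g32), (38, A5.g16), (11, A5.g8),
     (1, A5.g40), (29, A5.g24), (45, A5.g120), (2, A5.g4), (26, A5.g116), (23, A5.g12),
     (14, A5.g44), (7, A5.g28), (20, A5.g2), (11, A5.g34), (6, A5.g18), (59, A5.g10),
     (125, A5.g22), (2, A5.g126), (264, A5.g1), (14, A5.g33), (11, A5.g17), (1, A5.g121),
     (7, A5.g117), (107, A5.g125), (22, A5.g3), (1, A5.g35), (21, A5.g115), (143, A5.g11),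
     (1, A5.g39), (17, A5.g23)]),
   ((10, 425360507664), 1284,
    [(9, A8.g32), (1, A8.g16), (56, A8.g8), (9, A8.g40), (8, A8.g4), (2, A8.g20), (9, A8.g52),
     (2, A8.g28), (95, A8.g2), (12, A8.g10), (3, A8.g26), (83, A8.g38), (1, A8.g33), (8, A8.g9),
     (4, A8.g21), (2, A8.g53), (6, A8.g3), (60, A8.g19), (1, A8.g27), (13, A8.g39), (4, A8.g15),
     (1, A8.g47), (39, A9.g32), (1, A9.g52), (20, A9.g18), (3, A9.g14), (18, A9.g46),
     (2, A9.g33), (1, A9.g41), (9, A9.g25), (5, A9.g57), (45, A9.g21), (12, A9.g15),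
     (41, A7.g48), (4, A7.g72), (95, A7.g88), (17, A7.g56), (40, A7.g120), (1, A7.g100),
     (8, A7.g84), (7, A7.g52), (97, A7.g108), (46, A7.g60), (66, A7.g124), (45, A7.g66),
     (79, A7.g50), (2, A7.g114), (42, A7.g54), (8, A7.g78), (7, A7.g110), (1, A7.g94),
     (10, A7.g62), (9, A7.g126), (73, A7.g65), (10, A7.g73), (8, A7.g89), (1, A7.g121),
     (2, A7.g101), (2, A7.g85), (121, A7.g77), (20, A7.g109), (85, A7.g93), (8, A7.g61),
     (52, A7.g125), (16, A7.g67), (64, A7.g99), (76, A7.g51), (1, A7.g115), (60, A7.g71),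
     (83, A7.g87), (87, A7.g55), (28, A7.g79), (2, A7.g95), (2, A7.g63)])]

/-- lights 578 -/
noncomputable def plA_578 : List ((ℕ × ℕ) × ℕ × List (ℕ × ℕ)) :=
  [((0, 0), 578,
    [(20, A8.g96), (2, A8.g80), (1, A8.g84), (16, A8.g82), (22, A8.g86), (7, A8.g78),
     (33, A8.g91), (43, A4.g64), (124, A4.g80), (55, A4.g68), (9, A4.g84), (65, A4.g66),
     (2, A4.g98), (20, A4.g74), (17, A4.g90), (68, A4.g70), (153, A4.g78), (1, A4.g94),
     (9, A4.g97), (12, A4.g81), (71, A4.g73), (39, A4.g89), (9, A4.g77), (8, A4.g93),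
     (5, A4.g67), (126, A4.g83), (15, A4.g71), (7, A4.g87), (119, A4.g63), (8, A6.g26),
     (2, A6.g38), (42, A6.g22), (15, A6.g37), (1, A6.g27), (5, A6.g23), (1, A9.g40), (3, A9.g56),
     (2, A9.g4), (1, A9.g6), (11, A9.g1), (8, A9.g31), (29, A5.g24), (3, A5.g88), (2, A5.g100),
     (79, A5.g20), (44, A5.g84), (23, A5.g12), (1, A5.g108), (11, A5.g34), (6, A5.g18),
     (26, A5.g82), (8, A5.g106), (15, A5.g38), (26, A5.g14), (1, A5.g46), (74, A5.g30),
     (37, A5.g9), (6, A5.g21), (11, A5.g85), (30, A5.g93), (1, A5.g35), (59, A5.g99),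
     (143, A5.g11), (12, A5.g43), (3, A5.g27), (6, A5.g91), (5, A5.g103), (39, A5.g87),
     (4, A5.g15), (2, A5.g111), (17, A5.g31)]),
   ((4, 38449), 1156,
    [(9, A8.g32), (1, A8.g16), (56, A8.g8), (9, A8.g40), (8, A8.g4), (2, A8.g20), (9, A8.g52),
     (2, A8.g28), (95, A8.g2), (12, A8.g10), (28, A8.g106), (3, A8.g26), (1, A8.g122),
     (83, A8.g38), (3, A8.g102), (2, A8.g118), (11, A8.g110), (9, A8.g126), (1, A8.g33),
     (8, A8.g9), (46, A8.g101), (4, A8.g21), (2, A8.g53), (16, A8.g117), (6, A8.g3),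
     (60, A8.g19), (5, A8.g107), (1, A8.g27), (13, A8.g39), (3, A8.g103), (4, A8.g15),
     (1, A8.g47), (1, A8.g111), (107, A6.g104), (37, A6.g120), (18, A6.g116), (70, A6.g108),
     (107, A6.g114), (17, A6.g106), (37, A6.g102), (21, A6.g110), (8, A6.g126), (63, A6.g105),
     (1, A6.g121), (2, A6.g117), (83, A6.g109), (31, A6.g125), (19, A6.g115), (58, A6.g119),
     (7, A6.g127), (2, A9.g4), (1, A9.g52), (19, A9.g2), (18, A9.g46), (1, A9.g9), (5, A9.g57),
     (2, A9.g3), (1, A9.g11), (1, A9.g7), (15, A7.g32), (6, A7.g4), (10, A7.g20), (2, A7.g44),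
     (1, A7.g28), (66, A7.g124), (8, A7.g10), (7, A7.g26), (2, A7.g6), (7, A7.g38),
     (130, A7.g14), (9, A7.g126), (1, A7.g33), (74, A7.g25), (4, A7.g5), (50, A7.g37),
     (27, A7.g21), (88, A7.g13), (2, A7.g45), (52, A7.g125), (95, A7.g3), (73, A7.g19),
     (1, A7.g11), (4, A7.g27), (6, A7.g39), (29, A7.g15), (7, A7.g47)]),
   ((4, 38720), 1089,
    [(2, A8.g50), (6, A8.g42), (45, A8.g90), (7, A8.g78), (34, A8.g81), (1, A8.g89),
     (11, A8.g37), (8, A8.g85), (2, A8.g53), (6, A8.g45), (4, A8.g93), (45, A8.g35),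
     (13, A8.g39), (6, A8.g79), (1, A8.g47), (4, A8.g95), (67, A6.g64), (98, A6.g80),
     (14, A6.g72), (7, A6.g88), (3, A6.g68), (117, A6.g84), (76, A6.g66), (15, A6.g98),
     (1, A6.g90), (12, A6.g70), (16, A6.g86), (18, A6.g65), (70, A6.g81), (60, A6.g73),
     (48, A6.g69), (4, A6.g77), (11, A6.g93), (13, A6.g83), (4, A6.g75), (55, A6.g91),
     (1, A6.g79), (9, A6.g95), (81, A9.g0), (20, A9.g30), (2, A9.g33), (1, A9.g37), (2, A9.g3),
     (7, A9.g35), (2, A9.g39), (1, A9.g55), (29, A7.g96), (65, A7.g16), (3, A7.g112),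
     (6, A7.g24), (2, A7.g36), (1, A7.g100), (10, A7.g20), (56, A7.g12), (1, A7.g28),
     (2, A7.g92), (21, A7.g34), (1, A7.g98), (9, A7.g18), (7, A7.g26), (83, A7.g90), (7, A7.g38),
     (82, A7.g22), (29, A7.g86), (7, A7.g30), (1, A7.g94), (1, A7.g33), (3, A7.g41),
     (66, A7.g105), (8, A7.g89), (2, A7.g117), (88, A7.g13), (20, A7.g109), (3, A7.g43),
     (5, A7.g107), (3, A7.g103), (83, A7.g87), (1, A7.g119), (29, A7.g15)]),
   ((6, 484401), 772,
    [(1, A6.g8), (83, A6.g24), (1, A6.g20), (4, A6.g12), (1, A6.g18), (8, A6.g26), (10, A6.g6),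
     (1, A6.g30), (3, A6.g1), (7, A6.g33), (26, A6.g17), (1, A6.g41), (3, A6.g25), (130, A6.g5),
     (1, A6.g13), (1, A6.g27), (5, A6.g7), (3, A6.g39), (39, A9.g32), (1, A9.g52), (20, A9.g18),
     (3, A9.g14), (18, A9.g46), (2, A9.g33), (1, A9.g41), (9, A9.g25), (5, A9.g57), (45, A9.g21),
     (12, A9.g15), (14, A5.g64), (3, A5.g80), (7, A5.g112), (45, A5.g120), (73, A5.g68),
     (44, A5.g84), (26, A5.g116), (8, A5.g76), (1, A5.g108), (1, A5.g60), (35, A5.g50),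
     (29, A5.g74), (13, A5.g90), (13, A5.g70), (17, A5.g102), (56, A5.g54), (104, A5.g94),
     (73, A5.g62), (2, A5.g126), (11, A5.g97), (1, A5.g81), (45, A5.g49), (29, A5.g89),
     (1, A5.g121), (18, A5.g69), (57, A5.g101), (11, A5.g85), (20, A5.g53), (7, A5.g117),
     (1, A5.g77), (107, A5.g125), (47, A5.g83), (14, A5.g51), (21, A5.g115), (5, A5.g75),
     (4, A5.g107), (6, A5.g91), (56, A5.g59), (5, A5.g103), (15, A5.g55), (42, A5.g47),
     (36, A5.g63)]),
   ((6, 6517776), 641,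
    [(11, A8.g104), (1, A8.g120), (2, A8.g116), (36, A8.g108), (8, A8.g124), (17, A8.g114),
     (2, A8.g118), (3, A8.g113), (46, A8.g101), (5, A8.g107), (3, A8.g103), (9, A4.g104),
     (127, A4.g100), (168, A4.g116), (9, A4.g108), (70, A4.g106), (56, A4.g102), (22, A4.g118),
     (298, A4.g126), (4, A4.g113), (53, A4.g105), (3, A4.g121), (15, A4.g101), (57, A4.g109),
     (1, A4.g125), (113, A4.g115), (21, A4.g123), (40, A4.g119), (1, A4.g111), (36, A6.g0),
     (1, A6.g32), (1, A6.g8), (31, A6.g4), (2, A6.g36), (66, A6.g2), (14, A6.g10), (10, A6.g6),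
     (2, A6.g38), (1, A6.g30), (3, A6.g25), (52, A6.g21), (1, A6.g13), (5, A6.g29), (1, A6.g27),
     (5, A6.g23), (20, A6.g15), (81, A9.g0), (1, A9.g48), (1, A9.g50), (1, A9.g45), (2, A9.g3),
     (9, A9.g43), (1, A9.g55), (18, A5.g0), (1, A5.g40), (2, A5.g4), (23, A5.g12), (5, A5.g124),
     (20, A5.g2), (38, A5.g114), (59, A5.g10), (8, A5.g42), (4, A5.g26), (45, A5.g122),
     (10, A5.g6), (58, A5.g118), (14, A5.g33), (11, A5.g17), (37, A5.g9), (1, A5.g121),
     (5, A5.g37), (6, A5.g21), (7, A5.g117), (30, A5.g13), (38, A5.g29), (1, A5.g35),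
     (58, A5.g19), (21, A5.g115), (17, A5.g23), (4, A5.g15), (17, A5.g31)]),
   ((10, 425360507664), 1282,
    [(53, A8.g0), (1, A8.g16), (9, A8.g40), (10, A8.g24), (8, A8.g4), (59, A8.g36), (2, A8.g28),
     (37, A8.g18), (12, A8.g10), (36, A8.g6), (1, A8.g14), (6, A8.g46), (4, A8.g1), (1, A8.g33),
     (1, A8.g25), (11, A8.g37), (4, A8.g21), (5, A8.g13), (4, A8.g51), (10, A8.g43), (19, A8.g7),
     (1, A8.g31), (1, A9.g40), (1, A9.g24), (3, A9.g56), (16, A9.g20), (18, A9.g44),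
     (34, A9.g17), (1, A9.g13), (1, A9.g45), (1, A9.g29), (1, A9.g27), (12, A9.g15), (8, A9.g31),
     (52, A7.g64), (41, A7.g48), (1, A7.g104), (95, A7.g88), (17, A7.g56), (7, A7.g52),
     (21, A7.g76), (2, A7.g92), (45, A7.g66), (1, A7.g98), (14, A7.g82), (47, A7.g106),
     (71, A7.g58), (9, A7.g70), (29, A7.g86), (7, A7.g118), (7, A7.g110), (10, A7.g62),
     (9, A7.g126), (82, A7.g97), (48, A7.g49), (17, A7.g113), (10, A7.g73), (8, A7.g89),
     (1, A7.g121), (168, A7.g69), (2, A7.g101), (2, A7.g85), (109, A7.g53), (52, A7.g125),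
     (16, A7.g67), (1, A7.g83), (76, A7.g51), (1, A7.g115), (135, A7.g75), (5, A7.g107),
     (79, A7.g91), (15, A7.g59), (82, A7.g123), (87, A7.g55), (1, A7.g119), (28, A7.g79),
     (2, A7.g95), (2, A7.g63)])]

/-- lights 580 -/
noncomputable def plA_580 : List ((ℕ × ℕ) × ℕ × List (ℕ × ℕ)) :=
  [((0, 0), 580,
    [(2, A8.g80), (1, A8.g84), (33, A8.g92), (1, A8.g97), (4, A8.g93), (5, A8.g99), (42, A8.g83),
     (7, A8.g87), (6, A8.g79), (124, A4.g80), (4, A4.g76), (6, A4.g92), (65, A4.g66),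
     (68, A4.g70), (19, A4.g86), (1, A4.g94), (92, A4.g65), (12, A4.g81), (50, A4.g69),
     (198, A4.g85), (9, A4.g77), (8, A4.g93), (5, A4.g67), (6, A4.g99), (81, A4.g75),
     (86, A4.g91), (15, A4.g71), (7, A4.g87), (270, A4.g79), (119, A4.g63), (83, A6.g24),
     (8, A6.g26), (1, A6.g30), (7, A6.g33), (1, A6.g41), (3, A6.g25), (1, A6.g27), (3, A6.g39),
     (39, A9.g32), (2, A9.g4), (19, A9.g2), (2, A9.g33), (1, A9.g9), (1, A9.g41), (5, A9.g57),
     (2, A9.g3), (1, A9.g11), (1, A9.g7), (116, A5.g32), (38, A5.g16), (7, A5.g112), (1, A5.g40),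
     (29, A5.g24), (44, A5.g84), (23, A5.g12), (14, A5.g44), (1, A5.g108), (7, A5.g28),
     (11, A5.g34), (6, A5.g18), (59, A5.g10), (13, A5.g90), (17, A5.g102), (125, A5.g22),
     (104, A5.g94), (14, A5.g33), (11, A5.g97), (11, A5.g17), (29, A5.g89), (57, A5.g101),
     (11, A5.g85), (1, A5.g35), (47, A5.g83), (143, A5.g11), (4, A5.g107), (6, A5.g91),
     (1, A5.g39), (5, A5.g103), (17, A5.g23)]),
   ((4, 38449), 1154,
    [(53, A8.g0), (1, A8.g16), (9, A8.g40), (10, A8.g24), (8, A8.g4), (59, A8.g36), (2, A8.g116),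
     (2, A8.g28), (37, A8.g18), (12, A8.g10), (36, A8.g6), (3, A8.g102), (1, A8.g14),
     (6, A8.g46), (4, A8.g1), (1, A8.g33), (12, A8.g105), (1, A8.g25), (2, A8.g121),
     (11, A8.g37), (4, A8.g21), (5, A8.g13), (15, A8.g109), (1, A8.g125), (4, A8.g51),
     (20, A8.g115), (10, A8.g43), (19, A8.g7), (3, A8.g103), (1, A8.g111), (1, A8.g31),
     (53, A6.g112), (37, A6.g120), (18, A6.g116), (6, A6.g124), (17, A6.g106), (37, A6.g102),
     (72, A6.g118), (21, A6.g110), (18, A6.g113), (63, A6.g105), (1, A6.g121), (2, A6.g117),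
     (83, A6.g109), (126, A6.g107), (58, A6.g123), (49, A6.g103), (7, A6.g127), (3, A9.g56),
     (2, A9.g4), (18, A9.g44), (1, A9.g6), (11, A9.g1), (1, A9.g45), (6, A7.g24), (2, A7.g36),
     (56, A7.g12), (1, A7.g28), (6, A7.g2), (9, A7.g18), (11, A7.g42), (2, A7.g6), (130, A7.g14),
     (9, A7.g126), (66, A7.g1), (124, A7.g17), (5, A7.g9), (4, A7.g5), (27, A7.g21), (2, A7.g45),
     (52, A7.g125), (47, A7.g35), (3, A7.g43), (4, A7.g27), (82, A7.g123), (6, A7.g39),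
     (17, A7.g23), (29, A7.g15), (3, A7.g31)]),
   ((4, 38720), 1092,
    [(2, A8.g80), (9, A8.g40), (1, A8.g84), (9, A8.g52), (33, A8.g92), (83, A8.g38), (1, A8.g97),
     (2, A8.g53), (4, A8.g93), (5, A8.g99), (42, A8.g83), (13, A8.g39), (7, A8.g87), (6, A8.g79),
     (1, A8.g47), (67, A6.g64), (21, A6.g96), (14, A6.g72), (7, A6.g88), (3, A6.g68),
     (3, A6.g100), (66, A6.g76), (76, A6.g66), (50, A6.g82), (1, A6.g90), (12, A6.g70),
     (8, A6.g78), (55, A6.g94), (70, A6.g81), (16, A6.g89), (1, A6.g101), (4, A6.g77),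
     (82, A6.g67), (13, A6.g83), (46, A6.g71), (43, A6.g87), (1, A6.g79), (9, A6.g95),
     (39, A9.g32), (2, A9.g4), (19, A9.g2), (2, A9.g33), (1, A9.g9), (1, A9.g41), (5, A9.g57),
     (2, A9.g3), (1, A9.g11), (1, A9.g7), (15, A7.g32), (95, A7.g88), (40, A7.g120),
     (1, A7.g100), (10, A7.g20), (2, A7.g44), (97, A7.g108), (1, A7.g28), (2, A7.g114),
     (7, A7.g26), (7, A7.g38), (130, A7.g14), (7, A7.g110), (1, A7.g94), (1, A7.g33),
     (74, A7.g25), (8, A7.g89), (1, A7.g121), (50, A7.g37), (2, A7.g101), (27, A7.g21),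
     (88, A7.g13), (2, A7.g45), (20, A7.g109), (85, A7.g93), (64, A7.g99), (73, A7.g19),
     (1, A7.g115), (4, A7.g27), (6, A7.g39), (83, A7.g87), (29, A7.g15), (7, A7.g47), (2, A7.g95)]),
   ((6, 484401), 769,
    [(36, A6.g0), (1, A6.g32), (1, A6.g8), (31, A6.g4), (2, A6.g36), (66, A6.g2), (14, A6.g10),
     (10, A6.g6), (2, A6.g38), (1, A6.g30), (3, A6.g25), (52, A6.g21), (1, A6.g13), (5, A6.g29),
     (1, A6.g27), (5, A6.g23), (20, A6.g15), (16, A9.g16), (1, A9.g48), (1, A9.g50), (3, A9.g14),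
     (20, A9.g30), (2, A9.g33), (1, A9.g37), (1, A9.g13), (1, A9.g45), (7, A9.g35), (13, A9.g19),
     (9, A9.g43), (2, A9.g39), (28, A9.g23), (1, A9.g55), (14, A5.g64), (21, A5.g96),
     (39, A5.g48), (3, A5.g88), (57, A5.g56), (2, A5.g100), (35, A5.g52), (59, A5.g92),
     (5, A5.g124), (49, A5.g98), (26, A5.g82), (38, A5.g114), (13, A5.g90), (1, A5.g58),
     (45, A5.g122), (17, A5.g102), (80, A5.g86), (58, A5.g118), (3, A5.g110), (73, A5.g62),
     (79, A5.g65), (45, A5.g49), (17, A5.g73), (10, A5.g105), (1, A5.g121), (18, A5.g69),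
     (11, A5.g85), (20, A5.g53), (7, A5.g117), (1, A5.g77), (48, A5.g61), (6, A5.g67),
     (47, A5.g83), (14, A5.g51), (21, A5.g115), (5, A5.g75), (63, A5.g71), (15, A5.g55),
     (42, A5.g47)]),
   ((6, 6517776), 642,
    [(2, A8.g116), (3, A8.g102), (12, A8.g105), (2, A8.g121), (15, A8.g109), (1, A8.g125),
     (20, A8.g115), (3, A8.g103), (1, A8.g111), (9, A4.g104), (54, A4.g120), (127, A4.g100),
     (9, A4.g108), (7, A4.g124), (5, A4.g114), (22, A4.g118), (41, A4.g110), (53, A4.g105),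
     (3, A4.g121), (15, A4.g101), (75, A4.g117), (1, A4.g125), (113, A4.g115), (105, A4.g107),
     (37, A4.g103), (1, A4.g111), (130, A4.g127), (11, A6.g16), (1, A6.g8), (31, A6.g4),
     (1, A6.g18), (8, A6.g26), (2, A6.g38), (42, A6.g22), (15, A6.g37), (90, A6.g3),
     (12, A6.g11), (1, A6.g27), (5, A6.g7), (5, A6.g23), (3, A9.g56), (2, A9.g4), (18, A9.g44),
     (1, A9.g6), (11, A9.g1), (1, A9.g45), (18, A5.g0), (29, A5.g24), (2, A5.g4), (79, A5.g20),
     (26, A5.g116), (23, A5.g12), (5, A5.g124), (11, A5.g34), (6, A5.g18), (38, A5.g114),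
     (15, A5.g38), (26, A5.g14), (1, A5.g46), (74, A5.g30), (2, A5.g126), (37, A5.g9),
     (6, A5.g21), (7, A5.g117), (22, A5.g3), (1, A5.g35), (143, A5.g11), (12, A5.g43),
     (3, A5.g27), (90, A5.g123), (8, A5.g7), (19, A5.g119), (4, A5.g15), (17, A5.g31)]),
   ((10, 425360507664), 1281,
    [(2, A8.g20), (21, A8.g12), (2, A8.g50), (6, A8.g42), (1, A8.g14), (4, A8.g30), (4, A8.g1),
     (72, A8.g17), (8, A8.g9), (1, A8.g25), (125, A8.g5), (11, A8.g37), (2, A8.g53), (6, A8.g45),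
     (6, A8.g3), (45, A8.g35), (1, A8.g27), (19, A8.g7), (13, A8.g39), (2, A8.g23), (1, A8.g47),
     (16, A9.g16), (1, A9.g48), (1, A9.g50), (3, A9.g14), (20, A9.g30), (2, A9.g33), (1, A9.g37),
     (1, A9.g13), (1, A9.g45), (7, A9.g35), (13, A9.g19), (9, A9.g43), (2, A9.g39), (28, A9.g23),
     (1, A9.g55), (52, A7.g64), (29, A7.g96), (41, A7.g48), (3, A7.g112), (4, A7.g72),
     (17, A7.g56), (49, A7.g68), (1, A7.g100), (7, A7.g52), (21, A7.g76), (2, A7.g92),
     (66, A7.g124), (1, A7.g98), (79, A7.g50), (65, A7.g74), (83, A7.g90), (9, A7.g70),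
     (29, A7.g86), (42, A7.g54), (8, A7.g78), (1, A7.g94), (9, A7.g126), (73, A7.g65),
     (1, A7.g81), (48, A7.g49), (66, A7.g105), (8, A7.g89), (72, A7.g57), (109, A7.g53),
     (2, A7.g117), (20, A7.g109), (8, A7.g61), (16, A7.g67), (1, A7.g83), (5, A7.g107),
     (15, A7.g59), (82, A7.g123), (3, A7.g103), (83, A7.g87), (1, A7.g119), (2, A7.g63),
     (63, A7.g127)])]

/-- lights 584 -/
noncomputable def plA_584 : List ((ℕ × ℕ) × ℕ × List (ℕ × ℕ)) :=
  [((0, 0), 584,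
    [(20, A8.g96), (23, A8.g88), (4, A8.g100), (1, A8.g84), (16, A8.g82), (78, A8.g94),
     (1, A8.g97), (34, A8.g81), (1, A8.g89), (42, A8.g83), (4, A8.g95), (43, A4.g64),
     (14, A4.g96), (143, A4.g72), (9, A4.g84), (4, A4.g76), (65, A4.g66), (2, A4.g98),
     (135, A4.g82), (20, A4.g74), (19, A4.g86), (92, A4.g65), (9, A4.g97), (71, A4.g73),
     (198, A4.g85), (9, A4.g77), (5, A4.g67), (6, A4.g99), (126, A4.g83), (81, A4.g75),
     (7, A4.g87), (54, A4.g95), (47, A6.g28), (2, A6.g34), (1, A6.g30), (5, A6.g29),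
     (60, A9.g34), (6, A9.g42), (3, A9.g58), (1, A9.g6), (10, A9.g5), (7, A9.g35), (1, A9.g7),
     (21, A5.g96), (38, A5.g16), (1, A5.g40), (44, A5.g104), (3, A5.g88), (58, A5.g36),
     (1, A5.g108), (7, A5.g28), (6, A5.g18), (8, A5.g106), (4, A5.g26), (13, A5.g90),
     (15, A5.g38), (80, A5.g86), (26, A5.g14), (1, A5.g46), (11, A5.g97), (11, A5.g17),
     (2, A5.g113), (10, A5.g105), (57, A5.g25), (29, A5.g89), (5, A5.g37), (30, A5.g13),
     (2, A5.g45), (4, A5.g107), (3, A5.g27), (6, A5.g91), (1, A5.g39), (39, A5.g87), (4, A5.g15),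
     (53, A5.g95)]),
   ((4, 38449), 1168,
    [(9, A8.g32), (1, A8.g16), (17, A8.g48), (13, A8.g112), (56, A8.g8), (21, A8.g12),
     (102, A8.g44), (36, A8.g108), (8, A8.g124), (6, A8.g34), (12, A8.g10), (36, A8.g6),
     (1, A8.g14), (6, A8.g46), (11, A8.g110), (4, A8.g30), (9, A8.g126), (1, A8.g33),
     (3, A8.g113), (8, A8.g9), (125, A8.g5), (5, A8.g13), (6, A8.g45), (15, A8.g109),
     (119, A8.g29), (1, A8.g125), (53, A8.g11), (59, A8.g123), (19, A8.g7), (21, A8.g55),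
     (4, A8.g15), (1, A8.g47), (1, A8.g111), (1, A8.g31), (4, A8.g127), (53, A6.g112),
     (18, A6.g116), (70, A6.g108), (107, A6.g114), (21, A6.g110), (18, A6.g113), (2, A6.g117),
     (83, A6.g109), (19, A6.g115), (126, A6.g107), (147, A6.g111), (16, A9.g8), (1, A9.g12),
     (1, A9.g50), (66, A9.g49), (1, A9.g9), (2, A9.g53), (4, A9.g59), (49, A7.g0), (15, A7.g32),
     (11, A7.g8), (6, A7.g24), (6, A7.g4), (1, A7.g28), (6, A7.g2), (8, A7.g10), (7, A7.g26),
     (2, A7.g6), (82, A7.g22), (51, A7.g46), (7, A7.g30), (66, A7.g1), (1, A7.g33), (5, A7.g9),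
     (74, A7.g25), (4, A7.g5), (48, A7.g29), (95, A7.g3), (1, A7.g11), (4, A7.g27), (31, A7.g7),
     (17, A7.g23), (7, A7.g47), (3, A7.g31)]),
   ((4, 38720), 1096,
    [(20, A8.g96), (17, A8.g48), (23, A8.g88), (4, A8.g100), (1, A8.g84), (16, A8.g82),
     (6, A8.g42), (29, A8.g54), (78, A8.g94), (1, A8.g97), (34, A8.g81), (105, A8.g41),
     (1, A8.g89), (42, A8.g83), (10, A8.g43), (4, A8.g95), (7, A6.g88), (3, A6.g68),
     (3, A6.g100), (117, A6.g84), (66, A6.g76), (76, A6.g66), (15, A6.g98), (48, A6.g74),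
     (1, A6.g90), (16, A6.g86), (8, A6.g78), (18, A6.g65), (147, A6.g97), (60, A6.g73),
     (16, A6.g89), (1, A6.g101), (172, A6.g85), (4, A6.g77), (82, A6.g67), (16, A6.g99),
     (4, A6.g75), (43, A6.g87), (1, A6.g79), (60, A9.g34), (6, A9.g42), (3, A9.g58), (1, A9.g6),
     (10, A9.g5), (7, A9.g35), (1, A9.g7), (15, A7.g32), (65, A7.g16), (3, A7.g112),
     (42, A7.g40), (1, A7.g104), (10, A7.g20), (2, A7.g44), (2, A7.g92), (9, A7.g18),
     (2, A7.g114), (11, A7.g42), (83, A7.g90), (4, A7.g122), (53, A7.g102), (7, A7.g30),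
     (1, A7.g94), (1, A7.g33), (124, A7.g17), (17, A7.g113), (3, A7.g41), (27, A7.g21),
     (2, A7.g45), (48, A7.g29), (85, A7.g93), (73, A7.g19), (1, A7.g115), (3, A7.g43),
     (79, A7.g91), (3, A7.g103), (121, A7.g111), (3, A7.g31), (2, A7.g95)]),
   ((6, 484401), 800,
    [(11, A6.g16), (1, A6.g8), (2, A6.g40), (31, A6.g4), (2, A6.g36), (1, A6.g20), (4, A6.g12),
     (66, A6.g2), (1, A6.g18), (14, A6.g10), (10, A6.g6), (2, A6.g38), (58, A6.g14),
     (26, A6.g17), (57, A6.g9), (1, A6.g41), (130, A6.g5), (15, A6.g37), (1, A6.g13),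
     (90, A6.g3), (36, A6.g35), (2, A6.g19), (12, A6.g11), (5, A6.g7), (3, A6.g39), (20, A6.g15),
     (1, A9.g40), (1, A9.g24), (1, A9.g52), (23, A9.g28), (2, A9.g60), (6, A9.g42), (21, A9.g26),
     (25, A9.g38), (1, A9.g41), (9, A9.g25), (2, A9.g53), (1, A9.g29), (9, A9.g51), (1, A9.g27),
     (2, A9.g39), (28, A9.g23), (14, A5.g64), (3, A5.g80), (7, A5.g112), (68, A5.g72),
     (44, A5.g104), (73, A5.g68), (2, A5.g100), (8, A5.g76), (1, A5.g108), (53, A5.g66),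
     (49, A5.g98), (29, A5.g74), (8, A5.g106), (13, A5.g70), (17, A5.g102), (51, A5.g78),
     (3, A5.g110), (73, A5.g62), (79, A5.g65), (1, A5.g81), (2, A5.g113), (17, A5.g73),
     (10, A5.g105), (18, A5.g69), (57, A5.g101), (1, A5.g77), (57, A5.g109), (48, A5.g61),
     (6, A5.g67), (59, A5.g99), (5, A5.g75), (4, A5.g107), (63, A5.g71), (5, A5.g103),
     (3, A5.g79), (2, A5.g111), (36, A5.g63)]),
   ((6, 6517776), 656,
    [(13, A8.g112), (36, A8.g108), (8, A8.g124), (11, A8.g110), (9, A8.g126), (3, A8.g113),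
     (15, A8.g109), (1, A8.g125), (59, A8.g123), (1, A8.g111), (4, A8.g127), (90, A4.g112),
     (9, A4.g108), (5, A4.g114), (70, A4.g106), (41, A4.g110), (298, A4.g126), (4, A4.g113),
     (53, A4.g105), (57, A4.g109), (105, A4.g107), (1, A4.g111), (130, A4.g127), (36, A6.g0),
     (1, A6.g32), (11, A6.g16), (2, A6.g40), (1, A6.g20), (2, A6.g34), (1, A6.g18), (58, A6.g14),
     (3, A6.g1), (7, A6.g33), (26, A6.g17), (1, A6.g41), (2, A6.g19), (20, A6.g15), (71, A6.g31),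
     (16, A9.g8), (1, A9.g12), (1, A9.g50), (66, A9.g49), (1, A9.g9), (2, A9.g53), (4, A9.g59),
     (18, A5.g0), (11, A5.g8), (29, A5.g24), (2, A5.g4), (79, A5.g20), (14, A5.g44), (7, A5.g28),
     (5, A5.g124), (20, A5.g2), (8, A5.g42), (4, A5.g26), (45, A5.g122), (10, A5.g6),
     (125, A5.g22), (1, A5.g46), (2, A5.g126), (264, A5.g1), (45, A5.g41), (57, A5.g25),
     (94, A5.g5), (6, A5.g21), (2, A5.g45), (107, A5.g125), (22, A5.g3), (58, A5.g19),
     (12, A5.g43), (3, A5.g27), (90, A5.g123), (8, A5.g7), (17, A5.g23), (111, A5.g127)]),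
   ((10, 425360507664), 1312,
    [(9, A8.g32), (10, A8.g24), (2, A8.g20), (9, A8.g52), (2, A8.g28), (6, A8.g34), (37, A8.g18),
     (2, A8.g50), (3, A8.g26), (74, A8.g22), (29, A8.g54), (4, A8.g30), (1, A8.g33),
     (72, A8.g17), (61, A8.g49), (1, A8.g25), (4, A8.g21), (2, A8.g53), (119, A8.g29),
     (60, A8.g19), (4, A8.g51), (1, A8.g27), (2, A8.g23), (21, A8.g55), (1, A8.g31), (1, A9.g40),
     (1, A9.g24), (1, A9.g52), (23, A9.g28), (2, A9.g60), (6, A9.g42), (21, A9.g26),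
     (25, A9.g38), (1, A9.g41), (9, A9.g25), (2, A9.g53), (1, A9.g29), (9, A9.g51), (1, A9.g27),
     (2, A9.g39), (28, A9.g23), (52, A7.g64), (56, A7.g80), (3, A7.g112), (4, A7.g72),
     (40, A7.g120), (49, A7.g68), (8, A7.g84), (62, A7.g116), (21, A7.g76), (97, A7.g108),
     (45, A7.g66), (14, A7.g82), (2, A7.g114), (65, A7.g74), (47, A7.g106), (4, A7.g122),
     (9, A7.g70), (7, A7.g118), (8, A7.g78), (7, A7.g110), (73, A7.g65), (1, A7.g81),
     (17, A7.g113), (10, A7.g73), (66, A7.g105), (1, A7.g121), (168, A7.g69), (2, A7.g85),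
     (2, A7.g117), (121, A7.g77), (20, A7.g109), (16, A7.g67), (1, A7.g83), (1, A7.g115),
     (135, A7.g75), (5, A7.g107), (60, A7.g71), (1, A7.g119), (28, A7.g79), (121, A7.g111)])]

/-- lights 592 -/
noncomputable def plA_592 : List ((ℕ × ℕ) × ℕ × List (ℕ × ℕ)) :=
  [((0, 0), 592,
    [(23, A8.g88), (4, A8.g100), (34, A8.g98), (22, A8.g86), (1, A8.g89), (8, A8.g85),
     (5, A8.g99), (7, A8.g87), (14, A4.g96), (143, A4.g72), (69, A4.g88), (55, A4.g68),
     (4, A4.g76), (6, A4.g92), (2, A4.g98), (20, A4.g74), (17, A4.g90), (68, A4.g70),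
     (1, A4.g94), (9, A4.g97), (71, A4.g73), (39, A4.g89), (50, A4.g69), (9, A4.g77),
     (8, A4.g93), (6, A4.g99), (81, A4.g75), (86, A4.g91), (15, A4.g71), (54, A4.g95),
     (1, A6.g32), (2, A6.g40), (2, A6.g34), (7, A6.g33), (1, A6.g41), (71, A6.g31), (16, A9.g8),
     (18, A9.g36), (1, A9.g12), (1, A9.g9), (1, A9.g37), (4, A9.g59), (21, A5.g96), (7, A5.g112),
     (29, A5.g24), (79, A5.g20), (14, A5.g44), (7, A5.g28), (59, A5.g92), (8, A5.g42),
     (4, A5.g26), (125, A5.g22), (1, A5.g46), (3, A5.g110), (104, A5.g94), (11, A5.g97),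
     (2, A5.g113), (45, A5.g41), (57, A5.g25), (6, A5.g21), (2, A5.g45), (57, A5.g109),
     (30, A5.g93), (58, A5.g19), (12, A5.g43), (3, A5.g27), (17, A5.g23), (2, A5.g111),
     (53, A5.g95)]),
   ((4, 38449), 1160,
    [(53, A8.g0), (1, A8.g16), (17, A8.g48), (13, A8.g112), (11, A8.g104), (10, A8.g24),
     (1, A8.g120), (8, A8.g4), (21, A8.g12), (2, A8.g28), (95, A8.g2), (6, A8.g34), (6, A8.g42),
     (28, A8.g106), (3, A8.g26), (1, A8.g122), (74, A8.g22), (29, A8.g54), (1, A8.g14),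
     (4, A8.g1), (3, A8.g113), (105, A8.g41), (12, A8.g105), (1, A8.g25), (2, A8.g121),
     (5, A8.g13), (6, A8.g3), (53, A8.g11), (10, A8.g43), (5, A8.g107), (1, A8.g27), (2, A8.g23),
     (23, A8.g119), (4, A8.g15), (4, A8.g127), (53, A6.g112), (107, A6.g104), (18, A6.g116),
     (6, A6.g124), (107, A6.g114), (17, A6.g106), (103, A6.g122), (8, A6.g126), (18, A6.g113),
     (63, A6.g105), (2, A6.g117), (31, A6.g125), (19, A6.g115), (58, A6.g123), (49, A6.g103),
     (147, A6.g111), (7, A6.g127), (1, A9.g48), (3, A9.g58), (1, A9.g6), (10, A9.g5), (1, A9.g7),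
     (16, A9.g47), (15, A7.g32), (65, A7.g16), (11, A7.g8), (42, A7.g40), (10, A7.g20),
     (2, A7.g44), (9, A7.g18), (8, A7.g10), (11, A7.g42), (7, A7.g30), (1, A7.g33),
     (124, A7.g17), (5, A7.g9), (3, A7.g41), (27, A7.g21), (2, A7.g45), (48, A7.g29),
     (73, A7.g19), (1, A7.g11), (3, A7.g43), (31, A7.g7), (3, A7.g31), (63, A7.g127)]),
   ((4, 38720), 1120,
    [(20, A8.g96), (4, A8.g100), (9, A8.g52), (33, A8.g92), (34, A8.g98), (2, A8.g50),
     (45, A8.g90), (29, A8.g54), (78, A8.g94), (1, A8.g97), (61, A8.g49), (2, A8.g53),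
     (4, A8.g93), (5, A8.g99), (4, A8.g51), (33, A8.g91), (21, A8.g55), (4, A8.g95),
     (21, A6.g96), (98, A6.g80), (7, A6.g88), (3, A6.g100), (117, A6.g84), (49, A6.g92),
     (15, A6.g98), (50, A6.g82), (1, A6.g90), (16, A6.g86), (55, A6.g94), (147, A6.g97),
     (70, A6.g81), (16, A6.g89), (1, A6.g101), (172, A6.g85), (11, A6.g93), (16, A6.g99),
     (13, A6.g83), (55, A6.g91), (43, A6.g87), (9, A6.g95), (1, A9.g40), (1, A9.g12),
     (2, A9.g60), (114, A9.g10), (6, A9.g42), (25, A9.g38), (1, A9.g41), (1, A9.g11),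
     (2, A9.g39), (3, A7.g112), (42, A7.g40), (40, A7.g120), (2, A7.g36), (62, A7.g116),
     (2, A7.g44), (97, A7.g108), (21, A7.g34), (2, A7.g114), (11, A7.g42), (47, A7.g106),
     (4, A7.g122), (7, A7.g38), (7, A7.g118), (51, A7.g46), (7, A7.g110), (17, A7.g113),
     (3, A7.g41), (66, A7.g105), (1, A7.g121), (50, A7.g37), (2, A7.g117), (2, A7.g45),
     (20, A7.g109), (47, A7.g35), (1, A7.g115), (3, A7.g43), (5, A7.g107), (6, A7.g39),
     (1, A7.g119), (7, A7.g47), (121, A7.g111)]),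
   ((6, 484401), 776,
    [(36, A6.g0), (1, A6.g20), (4, A6.g12), (47, A6.g28), (2, A6.g34), (14, A6.g10), (1, A6.g30),
     (3, A6.g1), (57, A6.g9), (1, A6.g13), (5, A6.g29), (2, A6.g19), (12, A6.g11), (16, A9.g16),
     (1, A9.g48), (60, A9.g34), (20, A9.g18), (6, A9.g42), (21, A9.g26), (3, A9.g58),
     (86, A9.g22), (34, A9.g17), (7, A9.g35), (1, A9.g27), (16, A9.g47), (21, A5.g96),
     (3, A5.g80), (39, A5.g48), (44, A5.g104), (3, A5.g88), (57, A5.g56), (45, A5.g120),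
     (73, A5.g68), (1, A5.g108), (1, A5.g60), (53, A5.g66), (35, A5.g50), (8, A5.g106),
     (13, A5.g90), (1, A5.g58), (13, A5.g70), (80, A5.g86), (58, A5.g118), (51, A5.g78),
     (79, A5.g65), (11, A5.g97), (1, A5.g81), (45, A5.g49), (2, A5.g113), (10, A5.g105),
     (29, A5.g89), (43, A5.g57), (1, A5.g121), (18, A5.g69), (6, A5.g67), (14, A5.g51),
     (4, A5.g107), (6, A5.g91), (56, A5.g59), (39, A5.g87), (19, A5.g119), (3, A5.g79),
     (53, A5.g95), (111, A5.g127)]),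
   ((6, 6517776), 672,
    [(1, A8.g120), (2, A8.g116), (8, A8.g124), (17, A8.g114), (1, A8.g122), (2, A8.g118),
     (9, A8.g126), (2, A8.g121), (16, A8.g117), (1, A8.g125), (20, A8.g115), (59, A8.g123),
     (23, A8.g119), (4, A8.g127), (54, A4.g120), (168, A4.g116), (7, A4.g124), (56, A4.g122),
     (22, A4.g118), (298, A4.g126), (3, A4.g121), (75, A4.g117), (1, A4.g125), (113, A4.g115),
     (21, A4.g123), (40, A4.g119), (130, A4.g127), (11, A6.g16), (1, A6.g8), (2, A6.g40),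
     (31, A6.g4), (2, A6.g36), (1, A6.g20), (4, A6.g12), (66, A6.g2), (1, A6.g18), (14, A6.g10),
     (10, A6.g6), (2, A6.g38), (58, A6.g14), (26, A6.g17), (57, A6.g9), (1, A6.g41),
     (130, A6.g5), (15, A6.g37), (1, A6.g13), (90, A6.g3), (36, A6.g35), (2, A6.g19),
     (12, A6.g11), (5, A6.g7), (3, A6.g39), (20, A6.g15), (1, A9.g52), (1, A9.g12), (2, A9.g60),
     (114, A9.g10), (2, A9.g53), (9, A9.g51), (1, A9.g11), (18, A5.g0), (116, A5.g32),
     (11, A5.g8), (1, A5.g40), (2, A5.g4), (58, A5.g36), (14, A5.g44), (20, A5.g2), (11, A5.g34),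
     (8, A5.g42), (10, A5.g6), (15, A5.g38), (1, A5.g46), (74, A5.g30), (264, A5.g1),
     (14, A5.g33), (45, A5.g41), (94, A5.g5), (5, A5.g37), (2, A5.g45), (38, A5.g29),
     (22, A5.g3), (1, A5.g35), (12, A5.g43), (8, A5.g7), (1, A5.g39), (17, A5.g31)]),
   ((10, 425360507664), 1296,
    [(9, A8.g32), (1, A8.g16), (17, A8.g48), (56, A8.g8), (21, A8.g12), (102, A8.g44),
     (6, A8.g34), (12, A8.g10), (36, A8.g6), (1, A8.g14), (6, A8.g46), (4, A8.g30), (1, A8.g33),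
     (8, A8.g9), (125, A8.g5), (5, A8.g13), (6, A8.g45), (119, A8.g29), (53, A8.g11),
     (19, A8.g7), (21, A8.g55), (4, A8.g15), (1, A8.g47), (1, A8.g31), (18, A9.g36),
     (16, A9.g20), (23, A9.g28), (1, A9.g50), (86, A9.g22), (66, A9.g49), (1, A9.g37),
     (45, A9.g21), (2, A9.g53), (1, A9.g29), (13, A9.g19), (4, A9.g59), (29, A7.g96),
     (56, A7.g80), (1, A7.g104), (17, A7.g56), (40, A7.g120), (1, A7.g100), (8, A7.g84),
     (62, A7.g116), (21, A7.g76), (46, A7.g60), (1, A7.g98), (14, A7.g82), (65, A7.g74),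
     (71, A7.g58), (4, A7.g122), (53, A7.g102), (42, A7.g54), (7, A7.g118), (8, A7.g78),
     (10, A7.g62), (82, A7.g97), (1, A7.g81), (72, A7.g57), (1, A7.g121), (2, A7.g101),
     (2, A7.g85), (109, A7.g53), (2, A7.g117), (121, A7.g77), (8, A7.g61), (64, A7.g99),
     (1, A7.g83), (135, A7.g75), (15, A7.g59), (3, A7.g103), (87, A7.g55), (1, A7.g119),
     (28, A7.g79), (2, A7.g63)])]

/-- lights 608 -/
noncomputable def plA_608 : List ((ℕ × ℕ) × ℕ × List (ℕ × ℕ)) :=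
  [((0, 0), 608,
    [(20, A8.g96), (4, A8.g100), (33, A8.g92), (34, A8.g98), (45, A8.g90), (78, A8.g94),
     (1, A8.g97), (4, A8.g93), (5, A8.g99), (33, A8.g91), (4, A8.g95), (14, A4.g96),
     (124, A4.g80), (69, A4.g88), (9, A4.g84), (6, A4.g92), (2, A4.g98), (135, A4.g82),
     (17, A4.g90), (19, A4.g86), (153, A4.g78), (1, A4.g94), (9, A4.g97), (12, A4.g81),
     (39, A4.g89), (198, A4.g85), (8, A4.g93), (6, A4.g99), (126, A4.g83), (86, A4.g91),
     (7, A4.g87), (270, A4.g79), (54, A4.g95), (2, A6.g40), (2, A6.g36), (2, A6.g38),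
     (1, A6.g41), (15, A6.g37), (36, A6.g35), (3, A6.g39), (1, A9.g40), (1, A9.g12), (2, A9.g60),
     (114, A9.g10), (6, A9.g42), (25, A9.g38), (1, A9.g41), (1, A9.g11), (2, A9.g39),
     (116, A5.g32), (7, A5.g112), (1, A5.g40), (44, A5.g104), (58, A5.g36), (2, A5.g100),
     (14, A5.g44), (1, A5.g108), (11, A5.g34), (49, A5.g98), (8, A5.g42), (8, A5.g106),
     (15, A5.g38), (17, A5.g102), (1, A5.g46), (3, A5.g110), (74, A5.g30), (14, A5.g33),
     (2, A5.g113), (45, A5.g41), (10, A5.g105), (5, A5.g37), (57, A5.g101), (2, A5.g45),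
     (57, A5.g109), (38, A5.g29), (1, A5.g35), (59, A5.g99), (12, A5.g43), (4, A5.g107),
     (1, A5.g39), (5, A5.g103), (2, A5.g111), (17, A5.g31)]),
   ((4, 38449), 1184,
    [(9, A8.g32), (10, A8.g24), (1, A8.g120), (2, A8.g20), (9, A8.g52), (2, A8.g116),
     (2, A8.g28), (8, A8.g124), (6, A8.g34), (37, A8.g18), (2, A8.g50), (17, A8.g114),
     (3, A8.g26), (1, A8.g122), (74, A8.g22), (29, A8.g54), (2, A8.g118), (4, A8.g30),
     (9, A8.g126), (1, A8.g33), (72, A8.g17), (61, A8.g49), (1, A8.g25), (2, A8.g121),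
     (4, A8.g21), (2, A8.g53), (16, A8.g117), (119, A8.g29), (1, A8.g125), (60, A8.g19),
     (4, A8.g51), (20, A8.g115), (1, A8.g27), (59, A8.g123), (2, A8.g23), (21, A8.g55),
     (23, A8.g119), (1, A8.g31), (4, A8.g127), (37, A6.g120), (6, A6.g124), (103, A6.g122),
     (72, A6.g118), (8, A6.g126), (1, A6.g121), (31, A6.g125), (58, A6.g123), (58, A6.g119),
     (7, A6.g127), (1, A9.g52), (1, A9.g12), (2, A9.g60), (114, A9.g10), (2, A9.g53),
     (9, A9.g51), (1, A9.g11), (49, A7.g0), (11, A7.g8), (42, A7.g40), (6, A7.g4), (2, A7.g36),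
     (2, A7.g44), (6, A7.g2), (21, A7.g34), (8, A7.g10), (11, A7.g42), (2, A7.g6), (7, A7.g38),
     (51, A7.g46), (66, A7.g1), (5, A7.g9), (3, A7.g41), (4, A7.g5), (50, A7.g37), (2, A7.g45),
     (95, A7.g3), (47, A7.g35), (1, A7.g11), (3, A7.g43), (31, A7.g7), (6, A7.g39), (7, A7.g47)]),
   ((4, 38720), 1104,
    [(17, A8.g48), (23, A8.g88), (4, A8.g100), (102, A8.g44), (34, A8.g98), (22, A8.g86),
     (6, A8.g46), (1, A8.g89), (8, A8.g85), (6, A8.g45), (5, A8.g99), (7, A8.g87), (21, A8.g55),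
     (1, A8.g47), (21, A6.g96), (14, A6.g72), (3, A6.g100), (66, A6.g76), (49, A6.g92),
     (15, A6.g98), (48, A6.g74), (12, A6.g70), (8, A6.g78), (55, A6.g94), (147, A6.g97),
     (60, A6.g73), (48, A6.g69), (1, A6.g101), (4, A6.g77), (11, A6.g93), (16, A6.g99),
     (4, A6.g75), (55, A6.g91), (46, A6.g71), (1, A6.g79), (9, A6.g95), (16, A9.g8),
     (18, A9.g36), (1, A9.g12), (1, A9.g9), (1, A9.g37), (4, A9.g59), (15, A7.g32), (29, A7.g96),
     (1, A7.g104), (6, A7.g24), (40, A7.g120), (1, A7.g100), (62, A7.g116), (1, A7.g28),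
     (1, A7.g98), (7, A7.g26), (4, A7.g122), (53, A7.g102), (82, A7.g22), (7, A7.g118),
     (51, A7.g46), (7, A7.g30), (1, A7.g33), (82, A7.g97), (74, A7.g25), (1, A7.g121),
     (2, A7.g101), (2, A7.g117), (48, A7.g29), (64, A7.g99), (4, A7.g27), (3, A7.g103),
     (17, A7.g23), (1, A7.g119), (7, A7.g47), (3, A7.g31)]),
   ((6, 484401), 784,
    [(36, A6.g0), (1, A6.g32), (11, A6.g16), (2, A6.g40), (1, A6.g20), (2, A6.g34), (1, A6.g18),
     (58, A6.g14), (3, A6.g1), (7, A6.g33), (26, A6.g17), (1, A6.g41), (2, A6.g19), (20, A6.g15),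
     (71, A6.g31), (18, A9.g36), (16, A9.g20), (23, A9.g28), (1, A9.g50), (86, A9.g22),
     (66, A9.g49), (1, A9.g37), (45, A9.g21), (2, A9.g53), (1, A9.g29), (13, A9.g19),
     (4, A9.g59), (21, A5.g96), (3, A5.g80), (7, A5.g112), (68, A5.g72), (57, A5.g56),
     (35, A5.g52), (8, A5.g76), (59, A5.g92), (1, A5.g60), (5, A5.g124), (29, A5.g74),
     (1, A5.g58), (45, A5.g122), (56, A5.g54), (51, A5.g78), (3, A5.g110), (104, A5.g94),
     (2, A5.g126), (11, A5.g97), (1, A5.g81), (2, A5.g113), (17, A5.g73), (43, A5.g57),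
     (20, A5.g53), (1, A5.g77), (57, A5.g109), (30, A5.g93), (107, A5.g125), (5, A5.g75),
     (56, A5.g59), (90, A5.g123), (63, A5.g71), (15, A5.g55), (3, A5.g79), (2, A5.g111),
     (53, A5.g95), (111, A5.g127)]),
   ((6, 6517776), 648,
    [(13, A8.g112), (11, A8.g104), (1, A8.g120), (28, A8.g106), (1, A8.g122), (3, A8.g113),
     (12, A8.g105), (2, A8.g121), (5, A8.g107), (23, A8.g119), (4, A8.g127), (90, A4.g112),
     (9, A4.g104), (54, A4.g120), (7, A4.g124), (5, A4.g114), (56, A4.g122), (56, A4.g102),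
     (41, A4.g110), (4, A4.g113), (3, A4.g121), (15, A4.g101), (57, A4.g109), (1, A4.g125),
     (21, A4.g123), (37, A4.g103), (40, A4.g119), (1, A4.g111), (36, A6.g0), (1, A6.g20),
     (4, A6.g12), (47, A6.g28), (2, A6.g34), (14, A6.g10), (1, A6.g30), (3, A6.g1), (57, A6.g9),
     (1, A6.g13), (5, A6.g29), (2, A6.g19), (12, A6.g11), (1, A9.g48), (3, A9.g58), (1, A9.g6),
     (10, A9.g5), (1, A9.g7), (16, A9.g47), (38, A5.g16), (11, A5.g8), (1, A5.g40),
     (45, A5.g120), (58, A5.g36), (7, A5.g28), (6, A5.g18), (4, A5.g26), (10, A5.g6),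
     (15, A5.g38), (58, A5.g118), (26, A5.g14), (1, A5.g46), (11, A5.g17), (57, A5.g25),
     (1, A5.g121), (94, A5.g5), (5, A5.g37), (30, A5.g13), (2, A5.g45), (3, A5.g27), (8, A5.g7),
     (1, A5.g39), (19, A5.g119), (4, A5.g15), (111, A5.g127)]),
   ((10, 425360507664), 1288,
    [(53, A8.g0), (1, A8.g16), (17, A8.g48), (10, A8.g24), (8, A8.g4), (21, A8.g12), (2, A8.g28),
     (95, A8.g2), (6, A8.g34), (6, A8.g42), (3, A8.g26), (74, A8.g22), (29, A8.g54), (1, A8.g14),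
     (4, A8.g1), (105, A8.g41), (1, A8.g25), (5, A8.g13), (6, A8.g3), (53, A8.g11), (10, A8.g43),
     (1, A8.g27), (2, A8.g23), (4, A8.g15), (16, A9.g16), (1, A9.g48), (60, A9.g34),
     (20, A9.g18), (6, A9.g42), (21, A9.g26), (3, A9.g58), (86, A9.g22), (34, A9.g17),
     (7, A9.g35), (1, A9.g27), (16, A9.g47), (56, A7.g80), (3, A7.g112), (4, A7.g72),
     (1, A7.g104), (49, A7.g68), (8, A7.g84), (7, A7.g52), (2, A7.g92), (46, A7.g60),
     (14, A7.g82), (79, A7.g50), (2, A7.g114), (83, A7.g90), (71, A7.g58), (4, A7.g122),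
     (9, A7.g70), (53, A7.g102), (1, A7.g94), (10, A7.g62), (1, A7.g81), (48, A7.g49),
     (17, A7.g113), (10, A7.g73), (72, A7.g57), (168, A7.g69), (2, A7.g85), (85, A7.g93),
     (8, A7.g61), (1, A7.g83), (76, A7.g51), (1, A7.g115), (79, A7.g91), (15, A7.g59),
     (60, A7.g71), (3, A7.g103), (121, A7.g111), (2, A7.g95), (2, A7.g63), (63, A7.g127)])]

/-- lights 704 -/
noncomputable def plA_704 : List ((ℕ × ℕ) × ℕ × List (ℕ × ℕ)) :=
  [((0, 0), 704,
    [(1, A6.g32), (2, A6.g40), (83, A6.g24), (2, A6.g36), (47, A6.g28), (2, A6.g34), (8, A6.g26),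
     (2, A6.g38), (42, A6.g22), (1, A6.g30), (7, A6.g33), (1, A6.g41), (3, A6.g25), (15, A6.g37),
     (52, A6.g21), (5, A6.g29), (36, A6.g35), (1, A6.g27), (3, A6.g39), (5, A6.g23),
     (71, A6.g31), (81, A9.g0), (16, A9.g8), (3, A9.g56), (2, A9.g4), (1, A9.g12), (2, A9.g60),
     (19, A9.g2), (114, A9.g10), (3, A9.g58), (1, A9.g6), (167, A9.g54), (11, A9.g1), (1, A9.g9),
     (5, A9.g57), (10, A9.g5), (2, A9.g3), (1, A9.g11), (4, A9.g59), (1, A9.g7), (1, A9.g55),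
     (116, A5.g32), (38, A5.g16), (1, A5.g40), (29, A5.g24), (58, A5.g36), (79, A5.g20),
     (23, A5.g12), (14, A5.g44), (7, A5.g28), (11, A5.g34), (6, A5.g18), (59, A5.g10),
     (8, A5.g42), (4, A5.g26), (15, A5.g38), (125, A5.g22), (26, A5.g14), (1, A5.g46),
     (74, A5.g30), (14, A5.g33), (11, A5.g17), (37, A5.g9), (45, A5.g41), (57, A5.g25),
     (5, A5.g37), (6, A5.g21), (30, A5.g13), (2, A5.g45), (38, A5.g29), (1, A5.g35),
     (58, A5.g19), (143, A5.g11), (12, A5.g43), (3, A5.g27), (1, A5.g39), (17, A5.g23),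
     (4, A5.g15), (17, A5.g31)]),
   ((4, 38449), 1216,
    [(17, A8.g48), (9, A8.g40), (59, A8.g36), (9, A8.g52), (102, A8.g44), (2, A8.g50),
     (6, A8.g42), (83, A8.g38), (29, A8.g54), (6, A8.g46), (61, A8.g49), (105, A8.g41),
     (11, A8.g37), (2, A8.g53), (6, A8.g45), (45, A8.g35), (4, A8.g51), (10, A8.g43),
     (13, A8.g39), (21, A8.g55), (1, A8.g47), (81, A9.g0), (16, A9.g8), (3, A9.g56), (2, A9.g4),
     (1, A9.g12), (2, A9.g60), (19, A9.g2), (114, A9.g10), (3, A9.g58), (1, A9.g6),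
     (167, A9.g54), (11, A9.g1), (1, A9.g9), (5, A9.g57), (10, A9.g5), (2, A9.g3), (1, A9.g11),
     (4, A9.g59), (1, A9.g7), (1, A9.g55), (15, A7.g32), (65, A7.g16), (42, A7.g40), (6, A7.g24),
     (2, A7.g36), (10, A7.g20), (56, A7.g12), (2, A7.g44), (1, A7.g28), (21, A7.g34),
     (9, A7.g18), (11, A7.g42), (7, A7.g26), (7, A7.g38), (82, A7.g22), (130, A7.g14),
     (51, A7.g46), (7, A7.g30), (1, A7.g33), (124, A7.g17), (3, A7.g41), (74, A7.g25),
     (50, A7.g37), (27, A7.g21), (88, A7.g13), (2, A7.g45), (48, A7.g29), (47, A7.g35),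
     (73, A7.g19), (3, A7.g43), (4, A7.g27), (6, A7.g39), (17, A7.g23), (29, A7.g15),
     (7, A7.g47), (3, A7.g31)]),
   ((4, 38720), 1344,
    [(17, A8.g48), (9, A8.g40), (59, A8.g36), (9, A8.g52), (102, A8.g44), (2, A8.g50),
     (6, A8.g42), (83, A8.g38), (29, A8.g54), (6, A8.g46), (61, A8.g49), (105, A8.g41),
     (11, A8.g37), (2, A8.g53), (6, A8.g45), (45, A8.g35), (4, A8.g51), (10, A8.g43),
     (13, A8.g39), (21, A8.g55), (1, A8.g47), (39, A9.g32), (1, A9.g40), (3, A9.g56),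
     (18, A9.g36), (2, A9.g60), (60, A9.g34), (6, A9.g42), (3, A9.g58), (25, A9.g38),
     (167, A9.g54), (20, A9.g30), (2, A9.g33), (1, A9.g41), (5, A9.g57), (1, A9.g37),
     (7, A9.g35), (4, A9.g59), (2, A9.g39), (1, A9.g55), (8, A9.g31), (29, A7.g96), (3, A7.g112),
     (1, A7.g104), (95, A7.g88), (40, A7.g120), (1, A7.g100), (62, A7.g116), (97, A7.g108),
     (2, A7.g92), (1, A7.g98), (2, A7.g114), (47, A7.g106), (83, A7.g90), (4, A7.g122),
     (53, A7.g102), (29, A7.g86), (7, A7.g118), (7, A7.g110), (1, A7.g94), (82, A7.g97),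
     (17, A7.g113), (66, A7.g105), (8, A7.g89), (1, A7.g121), (2, A7.g101), (2, A7.g117),
     (20, A7.g109), (85, A7.g93), (64, A7.g99), (1, A7.g115), (5, A7.g107), (79, A7.g91),
     (3, A7.g103), (83, A7.g87), (1, A7.g119), (121, A7.g111), (2, A7.g95)]),
   ((6, 484401), 832,
    [(1, A6.g32), (2, A6.g40), (83, A6.g24), (2, A6.g36), (47, A6.g28), (2, A6.g34), (8, A6.g26),
     (2, A6.g38), (42, A6.g22), (1, A6.g30), (7, A6.g33), (1, A6.g41), (3, A6.g25), (15, A6.g37),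
     (52, A6.g21), (5, A6.g29), (36, A6.g35), (1, A6.g27), (3, A6.g39), (5, A6.g23),
     (71, A6.g31), (39, A9.g32), (1, A9.g40), (3, A9.g56), (18, A9.g36), (2, A9.g60),
     (60, A9.g34), (6, A9.g42), (3, A9.g58), (25, A9.g38), (167, A9.g54), (20, A9.g30),
     (2, A9.g33), (1, A9.g41), (5, A9.g57), (1, A9.g37), (7, A9.g35), (4, A9.g59), (2, A9.g39),
     (1, A9.g55), (8, A9.g31), (21, A5.g96), (7, A5.g112), (44, A5.g104), (3, A5.g88),
     (2, A5.g100), (44, A5.g84), (1, A5.g108), (59, A5.g92), (49, A5.g98), (26, A5.g82),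
     (8, A5.g106), (13, A5.g90), (17, A5.g102), (80, A5.g86), (3, A5.g110), (104, A5.g94),
     (11, A5.g97), (2, A5.g113), (10, A5.g105), (29, A5.g89), (57, A5.g101), (11, A5.g85),
     (57, A5.g109), (30, A5.g93), (59, A5.g99), (47, A5.g83), (4, A5.g107), (6, A5.g91),
     (5, A5.g103), (39, A5.g87), (2, A5.g111), (53, A5.g95)]),
   ((6, 6517776), 896,
    [(36, A6.g0), (1, A6.g32), (11, A6.g16), (1, A6.g8), (2, A6.g40), (83, A6.g24), (31, A6.g4),
     (2, A6.g36), (1, A6.g20), (4, A6.g12), (47, A6.g28), (66, A6.g2), (2, A6.g34), (1, A6.g18),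
     (14, A6.g10), (8, A6.g26), (10, A6.g6), (2, A6.g38), (42, A6.g22), (58, A6.g14),
     (1, A6.g30), (3, A6.g1), (7, A6.g33), (26, A6.g17), (57, A6.g9), (1, A6.g41), (3, A6.g25),
     (130, A6.g5), (15, A6.g37), (52, A6.g21), (1, A6.g13), (5, A6.g29), (90, A6.g3),
     (36, A6.g35), (2, A6.g19), (12, A6.g11), (1, A6.g27), (5, A6.g7), (3, A6.g39), (5, A6.g23),
     (20, A6.g15), (71, A6.g31), (1, A9.g48), (3, A9.g56), (1, A9.g52), (18, A9.g44),
     (2, A9.g60), (1, A9.g50), (3, A9.g58), (167, A9.g54), (18, A9.g46), (66, A9.g49),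
     (5, A9.g57), (2, A9.g53), (1, A9.g45), (9, A9.g51), (9, A9.g43), (4, A9.g59), (1, A9.g55),
     (16, A9.g47), (45, A5.g120), (26, A5.g116), (5, A5.g124), (38, A5.g114), (45, A5.g122),
     (58, A5.g118), (2, A5.g126), (1, A5.g121), (7, A5.g117), (107, A5.g125), (21, A5.g115),
     (90, A5.g123), (19, A5.g119), (111, A5.g127)]),
   ((10, 425360507664), 1408,
    [(53, A8.g0), (9, A8.g32), (1, A8.g16), (17, A8.g48), (56, A8.g8), (9, A8.g40), (10, A8.g24),
     (8, A8.g4), (59, A8.g36), (2, A8.g20), (9, A8.g52), (21, A8.g12), (102, A8.g44),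
     (2, A8.g28), (95, A8.g2), (6, A8.g34), (37, A8.g18), (2, A8.g50), (12, A8.g10), (6, A8.g42),
     (3, A8.g26), (36, A8.g6), (83, A8.g38), (74, A8.g22), (29, A8.g54), (1, A8.g14),
     (6, A8.g46), (4, A8.g30), (4, A8.g1), (1, A8.g33), (72, A8.g17), (61, A8.g49), (8, A8.g9),
     (105, A8.g41), (1, A8.g25), (125, A8.g5), (11, A8.g37), (4, A8.g21), (2, A8.g53),
     (5, A8.g13), (6, A8.g45), (119, A8.g29), (6, A8.g3), (45, A8.g35), (60, A8.g19),
     (4, A8.g51), (53, A8.g11), (10, A8.g43), (1, A8.g27), (19, A8.g7), (13, A8.g39),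
     (2, A8.g23), (21, A8.g55), (4, A8.g15), (1, A8.g47), (1, A8.g31), (1, A9.g48), (3, A9.g56),
     (1, A9.g52), (18, A9.g44), (2, A9.g60), (1, A9.g50), (3, A9.g58), (167, A9.g54),
     (18, A9.g46), (66, A9.g49), (5, A9.g57), (2, A9.g53), (1, A9.g45), (9, A9.g51), (9, A9.g43),
     (4, A9.g59), (1, A9.g55), (16, A9.g47), (66, A7.g124), (9, A7.g126), (52, A7.g125),
     (82, A7.g123), (63, A7.g127)])]

/-- lights 1537 -/
noncomputable def plA_1537 : List ((ℕ × ℕ) × ℕ × List (ℕ × ℕ)) :=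
  [((0, 0), 1537,
    [(4, A8.g64), (11, A8.g104), (13, A8.g56), (1, A8.g120), (1, A8.g68), (2, A8.g116),
     (36, A8.g108), (14, A8.g60), (8, A8.g124), (59, A8.g66), (17, A8.g114), (45, A8.g90),
     (7, A8.g58), (69, A8.g70), (2, A8.g118), (7, A8.g78), (33, A8.g62), (34, A8.g81),
     (3, A8.g113), (3, A8.g73), (1, A8.g89), (4, A8.g57), (46, A8.g101), (8, A8.g85),
     (4, A8.g93), (7, A8.g75), (5, A8.g107), (3, A8.g103), (6, A8.g79), (4, A8.g95), (81, A9.g0),
     (16, A9.g16), (1, A9.g48), (1, A9.g50), (3, A9.g14), (20, A9.g30), (2, A9.g33), (1, A9.g37),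
     (1, A9.g13), (1, A9.g45), (2, A9.g3), (7, A9.g35), (13, A9.g19), (9, A9.g43), (2, A9.g39),
     (28, A9.g23), (1, A9.g55)]),
   ((4, 38449), 1537,
    [(4, A8.g64), (11, A8.g104), (13, A8.g56), (1, A8.g120), (1, A8.g68), (2, A8.g116),
     (36, A8.g108), (14, A8.g60), (8, A8.g124), (59, A8.g66), (17, A8.g114), (45, A8.g90),
     (7, A8.g58), (69, A8.g70), (2, A8.g118), (7, A8.g78), (33, A8.g62), (34, A8.g81),
     (3, A8.g113), (3, A8.g73), (1, A8.g89), (4, A8.g57), (46, A8.g101), (8, A8.g85),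
     (4, A8.g93), (7, A8.g75), (5, A8.g107), (3, A8.g103), (6, A8.g79), (4, A8.g95), (81, A9.g0),
     (16, A9.g16), (1, A9.g48), (1, A9.g50), (3, A9.g14), (20, A9.g30), (2, A9.g33), (1, A9.g37),
     (1, A9.g13), (1, A9.g45), (2, A9.g3), (7, A9.g35), (13, A9.g19), (9, A9.g43), (2, A9.g39),
     (28, A9.g23), (1, A9.g55)]),
   ((4, 38720), 1538,
    [(4, A8.g64), (20, A8.g96), (2, A8.g80), (13, A8.g56), (1, A8.g68), (1, A8.g84),
     (2, A8.g116), (3, A8.g76), (16, A8.g82), (3, A8.g102), (22, A8.g86), (7, A8.g78),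
     (5, A8.g65), (12, A8.g105), (4, A8.g57), (2, A8.g121), (15, A8.g109), (2, A8.g61),
     (1, A8.g125), (26, A8.g67), (20, A8.g115), (33, A8.g91), (7, A8.g59), (15, A8.g71),
     (3, A8.g103), (1, A8.g111), (1, A9.g40), (1, A9.g24), (3, A9.g56), (2, A9.g4), (16, A9.g20),
     (18, A9.g44), (1, A9.g6), (11, A9.g1), (34, A9.g17), (1, A9.g13), (1, A9.g45), (1, A9.g29),
     (1, A9.g27), (12, A9.g15), (8, A9.g31)]),
   ((6, 484401), 1538,
    [(4, A8.g64), (20, A8.g96), (2, A8.g80), (13, A8.g56), (1, A8.g68), (1, A8.g84),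
     (2, A8.g116), (3, A8.g76), (16, A8.g82), (3, A8.g102), (22, A8.g86), (7, A8.g78),
     (5, A8.g65), (12, A8.g105), (4, A8.g57), (2, A8.g121), (15, A8.g109), (2, A8.g61),
     (1, A8.g125), (26, A8.g67), (20, A8.g115), (33, A8.g91), (7, A8.g59), (15, A8.g71),
     (3, A8.g103), (1, A8.g111), (1, A9.g40), (1, A9.g24), (3, A9.g56), (2, A9.g4), (16, A9.g20),
     (18, A9.g44), (1, A9.g6), (11, A9.g1), (34, A9.g17), (1, A9.g13), (1, A9.g45), (1, A9.g29),
     (1, A9.g27), (12, A9.g15), (8, A9.g31)]),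
   ((6, 6517776), 1540,
    [(2, A8.g80), (46, A8.g72), (13, A8.g56), (1, A8.g84), (33, A8.g92), (14, A8.g60),
     (28, A8.g106), (7, A8.g58), (1, A8.g122), (3, A8.g102), (2, A8.g118), (11, A8.g110),
     (9, A8.g126), (5, A8.g65), (1, A8.g97), (3, A8.g73), (28, A8.g69), (46, A8.g101),
     (16, A8.g117), (8, A8.g77), (4, A8.g93), (2, A8.g61), (5, A8.g99), (42, A8.g83),
     (5, A8.g107), (7, A8.g59), (3, A8.g103), (7, A8.g87), (6, A8.g79), (1, A8.g111),
     (37, A8.g63), (39, A9.g32), (2, A9.g4), (1, A9.g52), (19, A9.g2), (20, A9.g18), (3, A9.g14),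
     (18, A9.g46), (2, A9.g33), (1, A9.g9), (1, A9.g41), (9, A9.g25), (5, A9.g57), (45, A9.g21),
     (2, A9.g3), (1, A9.g11), (1, A9.g7), (12, A9.g15)]),
   ((10, 425360507664), 1540,
    [(2, A8.g80), (46, A8.g72), (13, A8.g56), (1, A8.g84), (33, A8.g92), (14, A8.g60),
     (28, A8.g106), (7, A8.g58), (1, A8.g122), (3, A8.g102), (2, A8.g118), (11, A8.g110),
     (9, A8.g126), (5, A8.g65), (1, A8.g97), (3, A8.g73), (28, A8.g69), (46, A8.g101),
     (16, A8.g117), (8, A8.g77), (4, A8.g93), (2, A8.g61), (5, A8.g99), (42, A8.g83),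
     (5, A8.g107), (7, A8.g59), (3, A8.g103), (7, A8.g87), (6, A8.g79), (1, A8.g111),
     (37, A8.g63), (39, A9.g32), (2, A9.g4), (1, A9.g52), (19, A9.g2), (20, A9.g18), (3, A9.g14),
     (18, A9.g46), (2, A9.g33), (1, A9.g9), (1, A9.g41), (9, A9.g25), (5, A9.g57), (45, A9.g21),
     (2, A9.g3), (1, A9.g11), (1, A9.g7), (12, A9.g15)])]

/-- lights 1544 -/
noncomputable def plA_1544 : List ((ℕ × ℕ) × ℕ × List (ℕ × ℕ)) :=
  [((0, 0), 1544,
    [(20, A8.g96), (13, A8.g112), (11, A8.g104), (23, A8.g88), (1, A8.g120), (1, A8.g68),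
     (4, A8.g100), (1, A8.g84), (3, A8.g76), (59, A8.g66), (16, A8.g82), (66, A8.g74),
     (28, A8.g106), (7, A8.g58), (1, A8.g122), (78, A8.g94), (33, A8.g62), (1, A8.g97),
     (34, A8.g81), (3, A8.g113), (12, A8.g105), (1, A8.g89), (4, A8.g57), (2, A8.g121),
     (28, A8.g69), (8, A8.g77), (26, A8.g67), (42, A8.g83), (7, A8.g75), (5, A8.g107),
     (7, A8.g59), (23, A8.g119), (4, A8.g95), (37, A8.g63), (4, A8.g127), (16, A9.g16),
     (1, A9.g48), (60, A9.g34), (20, A9.g18), (6, A9.g42), (21, A9.g26), (3, A9.g58), (1, A9.g6),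
     (86, A9.g22), (34, A9.g17), (10, A9.g5), (7, A9.g35), (1, A9.g27), (1, A9.g7), (16, A9.g47)]),
   ((4, 38449), 1552,
    [(13, A8.g112), (46, A8.g72), (23, A8.g88), (4, A8.g100), (3, A8.g76), (36, A8.g108),
     (14, A8.g60), (8, A8.g124), (34, A8.g98), (66, A8.g74), (69, A8.g70), (22, A8.g86),
     (11, A8.g110), (33, A8.g62), (9, A8.g126), (3, A8.g113), (3, A8.g73), (1, A8.g89),
     (8, A8.g85), (8, A8.g77), (15, A8.g109), (2, A8.g61), (1, A8.g125), (5, A8.g99),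
     (7, A8.g75), (59, A8.g123), (15, A8.g71), (7, A8.g87), (1, A8.g111), (37, A8.g63),
     (4, A8.g127), (16, A9.g8), (18, A9.g36), (16, A9.g20), (1, A9.g12), (23, A9.g28),
     (1, A9.g50), (86, A9.g22), (66, A9.g49), (1, A9.g9), (1, A9.g37), (45, A9.g21), (2, A9.g53),
     (1, A9.g29), (13, A9.g19), (4, A9.g59)]),
   ((4, 38720), 1544,
    [(20, A8.g96), (13, A8.g112), (11, A8.g104), (23, A8.g88), (1, A8.g120), (1, A8.g68),
     (4, A8.g100), (1, A8.g84), (3, A8.g76), (59, A8.g66), (16, A8.g82), (66, A8.g74),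
     (28, A8.g106), (7, A8.g58), (1, A8.g122), (78, A8.g94), (33, A8.g62), (1, A8.g97),
     (34, A8.g81), (3, A8.g113), (12, A8.g105), (1, A8.g89), (4, A8.g57), (2, A8.g121),
     (28, A8.g69), (8, A8.g77), (26, A8.g67), (42, A8.g83), (7, A8.g75), (5, A8.g107),
     (7, A8.g59), (23, A8.g119), (4, A8.g95), (37, A8.g63), (4, A8.g127), (16, A9.g16),
     (1, A9.g48), (60, A9.g34), (20, A9.g18), (6, A9.g42), (21, A9.g26), (3, A9.g58), (1, A9.g6),
     (86, A9.g22), (34, A9.g17), (10, A9.g5), (7, A9.g35), (1, A9.g27), (1, A9.g7), (16, A9.g47)]),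
   ((6, 484401), 1568,
    [(4, A8.g64), (20, A8.g96), (46, A8.g72), (1, A8.g120), (1, A8.g68), (4, A8.g100),
     (2, A8.g116), (3, A8.g76), (33, A8.g92), (8, A8.g124), (59, A8.g66), (34, A8.g98),
     (17, A8.g114), (66, A8.g74), (45, A8.g90), (1, A8.g122), (69, A8.g70), (2, A8.g118),
     (78, A8.g94), (9, A8.g126), (5, A8.g65), (1, A8.g97), (3, A8.g73), (2, A8.g121),
     (28, A8.g69), (16, A8.g117), (8, A8.g77), (4, A8.g93), (1, A8.g125), (26, A8.g67),
     (5, A8.g99), (20, A8.g115), (7, A8.g75), (33, A8.g91), (59, A8.g123), (15, A8.g71),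
     (23, A8.g119), (4, A8.g95), (4, A8.g127), (1, A9.g40), (1, A9.g24), (1, A9.g52),
     (1, A9.g12), (23, A9.g28), (2, A9.g60), (114, A9.g10), (6, A9.g42), (21, A9.g26),
     (25, A9.g38), (1, A9.g41), (9, A9.g25), (2, A9.g53), (1, A9.g29), (9, A9.g51), (1, A9.g11),
     (1, A9.g27), (2, A9.g39), (28, A9.g23)]),
   ((6, 6517776), 1552,
    [(13, A8.g112), (46, A8.g72), (23, A8.g88), (4, A8.g100), (3, A8.g76), (36, A8.g108),
     (14, A8.g60), (8, A8.g124), (34, A8.g98), (66, A8.g74), (69, A8.g70), (22, A8.g86),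
     (11, A8.g110), (33, A8.g62), (9, A8.g126), (3, A8.g113), (3, A8.g73), (1, A8.g89),
     (8, A8.g85), (8, A8.g77), (15, A8.g109), (2, A8.g61), (1, A8.g125), (5, A8.g99),
     (7, A8.g75), (59, A8.g123), (15, A8.g71), (7, A8.g87), (1, A8.g111), (37, A8.g63),
     (4, A8.g127), (16, A9.g8), (18, A9.g36), (16, A9.g20), (1, A9.g12), (23, A9.g28),
     (1, A9.g50), (86, A9.g22), (66, A9.g49), (1, A9.g9), (1, A9.g37), (45, A9.g21), (2, A9.g53),
     (1, A9.g29), (13, A9.g19), (4, A9.g59)]),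
   ((10, 425360507664), 1568,
    [(4, A8.g64), (20, A8.g96), (46, A8.g72), (1, A8.g120), (1, A8.g68), (4, A8.g100),
     (2, A8.g116), (3, A8.g76), (33, A8.g92), (8, A8.g124), (59, A8.g66), (34, A8.g98),
     (17, A8.g114), (66, A8.g74), (45, A8.g90), (1, A8.g122), (69, A8.g70), (2, A8.g118),
     (78, A8.g94), (9, A8.g126), (5, A8.g65), (1, A8.g97), (3, A8.g73), (2, A8.g121),
     (28, A8.g69), (16, A8.g117), (8, A8.g77), (4, A8.g93), (1, A8.g125), (26, A8.g67),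
     (5, A8.g99), (20, A8.g115), (7, A8.g75), (33, A8.g91), (59, A8.g123), (15, A8.g71),
     (23, A8.g119), (4, A8.g95), (4, A8.g127), (1, A9.g40), (1, A9.g24), (1, A9.g52),
     (1, A9.g12), (23, A9.g28), (2, A9.g60), (114, A9.g10), (6, A9.g42), (21, A9.g26),
     (25, A9.g38), (1, A9.g41), (9, A9.g25), (2, A9.g53), (1, A9.g29), (9, A9.g51), (1, A9.g11),
     (1, A9.g27), (2, A9.g39), (28, A9.g23)])]

/-- lights 1600 -/
noncomputable def plA_1600 : List ((ℕ × ℕ) × ℕ × List (ℕ × ℕ)) :=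
  [((0, 0), 1600,
    [(20, A8.g96), (2, A8.g80), (23, A8.g88), (4, A8.g100), (1, A8.g84), (33, A8.g92),
     (34, A8.g98), (16, A8.g82), (45, A8.g90), (22, A8.g86), (7, A8.g78), (78, A8.g94),
     (1, A8.g97), (34, A8.g81), (1, A8.g89), (8, A8.g85), (4, A8.g93), (5, A8.g99), (42, A8.g83),
     (33, A8.g91), (7, A8.g87), (6, A8.g79), (4, A8.g95), (81, A9.g0), (39, A9.g32), (16, A9.g8),
     (1, A9.g40), (3, A9.g56), (2, A9.g4), (18, A9.g36), (1, A9.g12), (2, A9.g60), (19, A9.g2),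
     (60, A9.g34), (114, A9.g10), (6, A9.g42), (3, A9.g58), (1, A9.g6), (25, A9.g38),
     (167, A9.g54), (20, A9.g30), (11, A9.g1), (2, A9.g33), (1, A9.g9), (1, A9.g41), (5, A9.g57),
     (10, A9.g5), (1, A9.g37), (2, A9.g3), (7, A9.g35), (1, A9.g11), (4, A9.g59), (1, A9.g7),
     (2, A9.g39), (1, A9.g55), (8, A9.g31)]),
   ((4, 38449), 1664,
    [(13, A8.g112), (11, A8.g104), (1, A8.g120), (2, A8.g116), (36, A8.g108), (8, A8.g124),
     (17, A8.g114), (28, A8.g106), (1, A8.g122), (3, A8.g102), (2, A8.g118), (11, A8.g110),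
     (9, A8.g126), (3, A8.g113), (12, A8.g105), (2, A8.g121), (46, A8.g101), (16, A8.g117),
     (15, A8.g109), (1, A8.g125), (20, A8.g115), (5, A8.g107), (59, A8.g123), (3, A8.g103),
     (23, A8.g119), (1, A8.g111), (4, A8.g127), (81, A9.g0), (1, A9.g48), (16, A9.g8),
     (3, A9.g56), (2, A9.g4), (1, A9.g52), (1, A9.g12), (18, A9.g44), (2, A9.g60), (19, A9.g2),
     (1, A9.g50), (114, A9.g10), (3, A9.g58), (1, A9.g6), (167, A9.g54), (18, A9.g46),
     (11, A9.g1), (66, A9.g49), (1, A9.g9), (5, A9.g57), (10, A9.g5), (2, A9.g53), (1, A9.g45),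
     (2, A9.g3), (9, A9.g51), (1, A9.g11), (9, A9.g43), (4, A9.g59), (1, A9.g7), (1, A9.g55),
     (16, A9.g47)]),
   ((4, 38720), 1600,
    [(20, A8.g96), (2, A8.g80), (23, A8.g88), (4, A8.g100), (1, A8.g84), (33, A8.g92),
     (34, A8.g98), (16, A8.g82), (45, A8.g90), (22, A8.g86), (7, A8.g78), (78, A8.g94),
     (1, A8.g97), (34, A8.g81), (1, A8.g89), (8, A8.g85), (4, A8.g93), (5, A8.g99), (42, A8.g83),
     (33, A8.g91), (7, A8.g87), (6, A8.g79), (4, A8.g95), (81, A9.g0), (39, A9.g32), (16, A9.g8),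
     (1, A9.g40), (3, A9.g56), (2, A9.g4), (18, A9.g36), (1, A9.g12), (2, A9.g60), (19, A9.g2),
     (60, A9.g34), (114, A9.g10), (6, A9.g42), (3, A9.g58), (1, A9.g6), (25, A9.g38),
     (167, A9.g54), (20, A9.g30), (11, A9.g1), (2, A9.g33), (1, A9.g9), (1, A9.g41), (5, A9.g57),
     (10, A9.g5), (1, A9.g37), (2, A9.g3), (7, A9.g35), (1, A9.g11), (4, A9.g59), (1, A9.g7),
     (2, A9.g39), (1, A9.g55), (8, A9.g31)]),
   ((6, 484401), 1792,
    [(39, A9.g32), (16, A9.g16), (1, A9.g48), (1, A9.g40), (1, A9.g24), (3, A9.g56),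
     (18, A9.g36), (16, A9.g20), (1, A9.g52), (18, A9.g44), (23, A9.g28), (2, A9.g60),
     (60, A9.g34), (20, A9.g18), (1, A9.g50), (6, A9.g42), (21, A9.g26), (3, A9.g58),
     (25, A9.g38), (86, A9.g22), (167, A9.g54), (3, A9.g14), (18, A9.g46), (20, A9.g30),
     (2, A9.g33), (34, A9.g17), (66, A9.g49), (1, A9.g41), (9, A9.g25), (5, A9.g57), (1, A9.g37),
     (45, A9.g21), (2, A9.g53), (1, A9.g13), (1, A9.g45), (1, A9.g29), (7, A9.g35), (13, A9.g19),
     (9, A9.g51), (9, A9.g43), (1, A9.g27), (4, A9.g59), (2, A9.g39), (28, A9.g23), (1, A9.g55),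
     (12, A9.g15), (16, A9.g47), (8, A9.g31)]),
   ((6, 6517776), 1664,
    [(13, A8.g112), (11, A8.g104), (1, A8.g120), (2, A8.g116), (36, A8.g108), (8, A8.g124),
     (17, A8.g114), (28, A8.g106), (1, A8.g122), (3, A8.g102), (2, A8.g118), (11, A8.g110),
     (9, A8.g126), (3, A8.g113), (12, A8.g105), (2, A8.g121), (46, A8.g101), (16, A8.g117),
     (15, A8.g109), (1, A8.g125), (20, A8.g115), (5, A8.g107), (59, A8.g123), (3, A8.g103),
     (23, A8.g119), (1, A8.g111), (4, A8.g127), (81, A9.g0), (1, A9.g48), (16, A9.g8),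
     (3, A9.g56), (2, A9.g4), (1, A9.g52), (1, A9.g12), (18, A9.g44), (2, A9.g60), (19, A9.g2),
     (1, A9.g50), (114, A9.g10), (3, A9.g58), (1, A9.g6), (167, A9.g54), (18, A9.g46),
     (11, A9.g1), (66, A9.g49), (1, A9.g9), (5, A9.g57), (10, A9.g5), (2, A9.g53), (1, A9.g45),
     (2, A9.g3), (9, A9.g51), (1, A9.g11), (9, A9.g43), (4, A9.g59), (1, A9.g7), (1, A9.g55),
     (16, A9.g47)]),
   ((10, 425360507664), 1792,
    [(39, A9.g32), (16, A9.g16), (1, A9.g48), (1, A9.g40), (1, A9.g24), (3, A9.g56),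
     (18, A9.g36), (16, A9.g20), (1, A9.g52), (18, A9.g44), (23, A9.g28), (2, A9.g60),
     (60, A9.g34), (20, A9.g18), (1, A9.g50), (6, A9.g42), (21, A9.g26), (3, A9.g58),
     (25, A9.g38), (86, A9.g22), (167, A9.g54), (3, A9.g14), (18, A9.g46), (20, A9.g30),
     (2, A9.g33), (34, A9.g17), (66, A9.g49), (1, A9.g41), (9, A9.g25), (5, A9.g57), (1, A9.g37),
     (45, A9.g21), (2, A9.g53), (1, A9.g13), (1, A9.g45), (1, A9.g29), (7, A9.g35), (13, A9.g19),
     (9, A9.g51), (9, A9.g43), (1, A9.g27), (4, A9.g59), (2, A9.g39), (28, A9.g23), (1, A9.g55),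
     (12, A9.g15), (16, A9.g47), (8, A9.g31)])]

end Pool.Agent.Gen.TY.X.Pl
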