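import Pool.Agent.Gen.TY.X.Tree
import Pool.Agent.Gen.TY.X.PlA

/-!
MP_8ee768_co, project TH-Y': stage X, the lists of chunks for the type A are the right selections
from the tree of groups. Generated (helper22).
-/

set_option autoImplicit false
set_option maxRecDepth 100000

namespace Pool.Agent.Gen.TY.X.Pl

open Pool.Agent.Helper74.TY

theorem ckA_7 : plChk ((trX treeA treeB 0).toL []) 7 (wsX 0) plA_7 = true := by
  decide +kernel

theorem ckA_11 : plChk ((trX treeA treeB 0).toL []) 11 (wsX 0) plA_11 = true := by
  decide +kernel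

theorem ckA_13 : plChk ((trX treeA treeB 0).toL []) 13 (wsX 0) plA_13 = true := by
  decide +kernel

theorem ckA_25 : plChk ((trX treeA treeB 0).toL []) 25 (wsX 0) plA_25 = true := by
  decide +kernel

theorem ckA_26 : plChk ((trX treeA treeB 0).toL []) 26 (wsX 0) plA_26 = true := by
  decide +kernel

theorem ckA_56 : plChk ((trX treeA treeB 0).toL []) 56 (wsX 0) plA_56 = true := by
  decide +kernel

theorem ckA_67 : plChk ((trX treeA treeB 0).toL []) 67 (wsX 0) plA_67 = true := by
  decide +kernel

theorem ckA_69 : plChk ((trX treeA treeB 0).toL []) 69 (wsX 0) plA_69 = true := by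
  decide +kernel

theorem ckA_73 : plChk ((trX treeA treeB 0).toL []) 73 (wsX 0) plA_73 = true := by
  decide +kernel

theorem ckA_76 : plChk ((trX treeA treeB 0).toL []) 76 (wsX 0) plA_76 = true := by
  decide +kernel

theorem ckA_81 : plChk ((trX treeA treeB 0).toL []) 81 (wsX 0) plA_81 = true := by
  decide +kernel

theorem ckA_82 : plChk ((trX treeA treeB 0).toL []) 82 (wsX 0) plA_82 = true := by
  decide +kernel

theorem ckA_84 : plChk ((trX treeA treeB 0).toL []) 84 (wsX 0) plA_84 = true := by
  decide +kernel

theorem ckA_88 : plChk ((trX treeA treeB 0).toL []) 88 (wsX 0) plA_88 = true := by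
  decide +kernel

theorem ckA_112 : plChk ((trX treeA treeB 0).toL []) 112 (wsX 0) plA_112 = true := by
  decide +kernel

theorem ckA_193 : plChk ((trX treeA treeB 0).toL []) 193 (wsX 0) plA_193 = true := by
  decide +kernel

theorem ckA_194 : plChk ((trX treeA treeB 0).toL []) 194 (wsX 0) plA_194 = true := by
  decide +kernel

theorem ckA_200 : plChk ((trX treeA treeB 0).toL []) 200 (wsX 0) plA_200 = true := by
  decide +kernel

theorem ckA_224 : plChk ((trX treeA treeB 0).toL []) 224 (wsX 0) plA_224 = true := by
  decide +kernel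

theorem ckA_448 : plChk ((trX treeA treeB 0).toL []) 448 (wsX 0) plA_448 = true := by
  decide +kernel

theorem ckA_515 : plChk ((trX treeA treeB 0).toL []) 515 (wsX 0) plA_515 = true := by
  decide +kernel

theorem ckA_521 : plChk ((trX treeA treeB 0).toL []) 521 (wsX 0) plA_521 = true := by
  decide +kernel

theorem ckA_522 : plChk ((trX treeA treeB 0).toL []) 522 (wsX 0) plA_522 = true := by
  decide +kernel

theorem ckA_524 : plChk ((trX treeA treeB 0).toL []) 524 (wsX 0) plA_524 = true := by
  decide +kernel

theorem ckA_536 : plChk ((trX treeA treeB 0).toL []) 536 (wsX 0) plA_536 = true := by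
  decide +kernel

theorem ckA_577 : plChk ((trX treeA treeB 0).toL []) 577 (wsX 0) plA_577 = true := by
  decide +kernel

theorem ckA_578 : plChk ((trX treeA treeB 0).toL []) 578 (wsX 0) plA_578 = true := by
  decide +kernel

theorem ckA_580 : plChk ((trX treeA treeB 0).toL []) 580 (wsX 0) plA_580 = true := by
  decide +kernel

theorem ckA_584 : plChk ((trX treeA treeB 0).toL []) 584 (wsX 0) plA_584 = true := by
  decide +kernel

theorem ckA_592 : plChk ((trX treeA treeB 0).toL []) 592 (wsX 0) plA_592 = true := by
  decide +kernel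

theorem ckA_608 : plChk ((trX treeA treeB 0).toL []) 608 (wsX 0) plA_608 = true := by
  decide +kernel

theorem ckA_704 : plChk ((trX treeA treeB 0).toL []) 704 (wsX 0) plA_704 = true := by
  decide +kernel

theorem ckA_1537 : plChk ((trX treeA treeB 0).toL []) 1537 (wsX 0) plA_1537 = true := by
  decide +kernel

theorem ckA_1544 : plChk ((trX treeA treeB 0).toL []) 1544 (wsX 0) plA_1544 = true := by
  decide +kernel

theorem ckA_1600 : plChk ((trX treeA treeB 0).toL []) 1600 (wsX 0) plA_1600 = true := by
  decide +kernel

end Pool.Agent.Gen.TY.X.Pl
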