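import Pool.Agent.Gen.TY.X.Tree
import Pool.Agent.Gen.TY.X.PlB

/-!
MP_8ee768_co, project TH-Y': stage X, the lists of chunks for the type B are the right selections
from the tree of groups. Generated (helper22).
-/

set_option autoImplicit false
set_option maxRecDepth 100000

namespace Pool.Agent.Gen.TY.X.Pl

open Pool.Agent.Helper74.TY

theorem ckB_7 : plChk ((trX treeA treeB 1).toL []) 7 (wsX 1) plB_7 = true := by
  decide +kernel

theorem ckB_11 : plChk ((trX treeA treeB 1).toL []) 11 (wsX 1) plB_11 = true := by
  decide +kernel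

theorem ckB_13 : plChk ((trX treeA treeB 1).toL []) 13 (wsX 1) plB_13 = true := by
  decide +kernel

theorem ckB_25 : plChk ((trX treeA treeB 1).toL []) 25 (wsX 1) plB_25 = true := by
  decide +kernel

theorem ckB_26 : plChk ((trX treeA treeB 1).toL []) 26 (wsX 1) plB_26 = true := by
  decide +kernel

theorem ckB_56 : plChk ((trX treeA treeB 1).toL []) 56 (wsX 1) plB_56 = true := by
  decide +kernel

theorem ckB_73 : plChk ((trX treeA treeB 1).toL []) 73 (wsX 1) plB_73 = true := by
  decide +kernel

theorem ckB_74 : plChk ((trX treeA treeB 1).toL []) 74 (wsX 1) plB_74 = true := by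
  decide +kernel

theorem ckB_81 : plChk ((trX treeA treeB 1).toL []) 81 (wsX 1) plB_81 = true := by
  decide +kernel

theorem ckB_82 : plChk ((trX treeA treeB 1).toL []) 82 (wsX 1) plB_82 = true := by
  decide +kernel

theorem ckB_88 : plChk ((trX treeA treeB 1).toL []) 88 (wsX 1) plB_88 = true := by
  decide +kernel

theorem ckB_104 : plChk ((trX treeA treeB 1).toL []) 104 (wsX 1) plB_104 = true := by
  decide +kernel

theorem ckB_515 : plChk ((trX treeA treeB 1).toL []) 515 (wsX 1) plB_515 = true := by
  decide +kernel

theorem ckB_521 : plChk ((trX treeA treeB 1).toL []) 521 (wsX 1) plB_521 = true := by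
  decide +kernel

theorem ckB_522 : plChk ((trX treeA treeB 1).toL []) 522 (wsX 1) plB_522 = true := by
  decide +kernel

theorem ckB_524 : plChk ((trX treeA treeB 1).toL []) 524 (wsX 1) plB_524 = true := by
  decide +kernel

theorem ckB_536 : plChk ((trX treeA treeB 1).toL []) 536 (wsX 1) plB_536 = true := by
  decide +kernel

theorem ckB_584 : plChk ((trX treeA treeB 1).toL []) 584 (wsX 1) plB_584 = true := by
  decide +kernel

theorem ckB_592 : plChk ((trX treeA treeB 1).toL []) 592 (wsX 1) plB_592 = true := by
  decide +kernel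

theorem ckB_608 : plChk ((trX treeA treeB 1).toL []) 608 (wsX 1) plB_608 = true := by
  decide +kernel

theorem ckB_1537 : plChk ((trX treeA treeB 1).toL []) 1537 (wsX 1) plB_1537 = true := by
  decide +kernel

theorem ckB_1544 : plChk ((trX treeA treeB 1).toL []) 1544 (wsX 1) plB_1544 = true := by
  decide +kernel

end Pool.Agent.Gen.TY.X.Pl
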