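import Pool.Agent.Gen.TY.X.Flags
import Pool.Agent.Gen.TY.X.Pl
import Pool.Agent.Gen.TY.X.SelA
import Pool.Agent.Gen.TY.X.SelB

/-!
MP_8ee768_co, project TH-Y': stage X, all 57 lists of chunks are complete. Generated (helper22).
-/

set_option autoImplicit false

namespace Pool.Agent.Gen.TY.X.Pl

open Pool.Agent.Helper79.CV
open Pool.Agent.Helper16.TY
open Pool.Agent.Helper67.TY (repA repB)
open Pool.Agent.Helper74.TY
open Pool.Agent.Helper22.TY

/-- one list -/
theorem sel1 (hR : RootOK 6 (fun _ => True) Pool.Agent.Helper16.TY.reps) {t P : ℕ} (ht : t < 2)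
    (hP : P < 2048) {pl : List ((ℕ × ℕ) × ℕ × List (ℕ × ℕ))}
    (h : plChk ((trX treeA treeB t).toL []) P (wsX t) pl = true) : XSel 576 okC (tyX t) P pl :=
  xSel_of hR (fun j hj => flags j (Nat.zero_le j) hj) treeA_ok treeB_ok ht hP h

/-- **all lists are complete** -/
theorem sels (hR : RootOK 6 (fun _ => True) Pool.Agent.Helper16.TY.reps) : Sels where
  a7 := sel1 hR (t := 0) (by decide) (by decide) ckA_7
  a11 := sel1 hR (t := 0) (by decide) (by decide) ckA_11
  a13 := sel1 hR (t := 0) (by decide) (by decide) ckA_13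
  a25 := sel1 hR (t := 0) (by decide) (by decide) ckA_25
  a26 := sel1 hR (t := 0) (by decide) (by decide) ckA_26
  a56 := sel1 hR (t := 0) (by decide) (by decide) ckA_56
  a67 := sel1 hR (t := 0) (by decide) (by decide) ckA_67
  a69 := sel1 hR (t := 0) (by decide) (by decide) ckA_69
  a73 := sel1 hR (t := 0) (by decide) (by decide) ckA_73
  a76 := sel1 hR (t := 0) (by decide) (by decide) ckA_76
  a81 := sel1 hR (t := 0) (by decide) (by decide) ckA_81
  a82 := sel1 hR (t := 0) (by decide) (by decide) ckA_82
  a84 := sel1 hR (t := 0) (by decide) (by decide) ckA_84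
  a88 := sel1 hR (t := 0) (by decide) (by decide) ckA_88
  a112 := sel1 hR (t := 0) (by decide) (by decide) ckA_112
  a193 := sel1 hR (t := 0) (by decide) (by decide) ckA_193
  a194 := sel1 hR (t := 0) (by decide) (by decide) ckA_194
  a200 := sel1 hR (t := 0) (by decide) (by decide) ckA_200
  a224 := sel1 hR (t := 0) (by decide) (by decide) ckA_224
  a448 := sel1 hR (t := 0) (by decide) (by decide) ckA_448
  a515 := sel1 hR (t := 0) (by decide) (by decide) ckA_515
  a521 := sel1 hR (t := 0) (by decide) (by decide) ckA_521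
  a522 := sel1 hR (t := 0) (by decide) (by decide) ckA_522
  a524 := sel1 hR (t := 0) (by decide) (by decide) ckA_524
  a536 := sel1 hR (t := 0) (by decide) (by decide) ckA_536
  a577 := sel1 hR (t := 0) (by decide) (by decide) ckA_577
  a578 := sel1 hR (t := 0) (by decide) (by decide) ckA_578
  a580 := sel1 hR (t := 0) (by decide) (by decide) ckA_580
  a584 := sel1 hR (t := 0) (by decide) (by decide) ckA_584
  a592 := sel1 hR (t := 0) (by decide) (by decide) ckA_592
  a608 := sel1 hR (t := 0) (by decide) (by decide) ckA_608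
  a704 := sel1 hR (t := 0) (by decide) (by decide) ckA_704
  a1537 := sel1 hR (t := 0) (by decide) (by decide) ckA_1537
  a1544 := sel1 hR (t := 0) (by decide) (by decide) ckA_1544
  a1600 := sel1 hR (t := 0) (by decide) (by decide) ckA_1600
  b7 := sel1 hR (t := 1) (by decide) (by decide) ckB_7
  b11 := sel1 hR (t := 1) (by decide) (by decide) ckB_11
  b13 := sel1 hR (t := 1) (by decide) (by decide) ckB_13
  b25 := sel1 hR (t := 1) (by decide) (by decide) ckB_25
  b26 := sel1 hR (t := 1) (by decide) (by decide) ckB_26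
  b56 := sel1 hR (t := 1) (by decide) (by decide) ckB_56
  b73 := sel1 hR (t := 1) (by decide) (by decide) ckB_73
  b74 := sel1 hR (t := 1) (by decide) (by decide) ckB_74
  b81 := sel1 hR (t := 1) (by decide) (by decide) ckB_81
  b82 := sel1 hR (t := 1) (by decide) (by decide) ckB_82
  b88 := sel1 hR (t := 1) (by decide) (by decide) ckB_88
  b104 := sel1 hR (t := 1) (by decide) (by decide) ckB_104
  b515 := sel1 hR (t := 1) (by decide) (by decide) ckB_515
  b521 := sel1 hR (t := 1) (by decide) (by decide) ckB_521
  b522 := sel1 hR (t := 1) (by decide) (by decide) ckB_522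
  b524 := sel1 hR (t := 1) (by decide) (by decide) ckB_524
  b536 := sel1 hR (t := 1) (by decide) (by decide) ckB_536
  b584 := sel1 hR (t := 1) (by decide) (by decide) ckB_584
  b592 := sel1 hR (t := 1) (by decide) (by decide) ckB_592
  b608 := sel1 hR (t := 1) (by decide) (by decide) ckB_608
  b1537 := sel1 hR (t := 1) (by decide) (by decide) ckB_1537
  b1544 := sel1 hR (t := 1) (by decide) (by decide) ckB_1544

end Pool.Agent.Gen.TY.X.Pl
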