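import Pool.Agent.Gen.TY.X.A0
import Pool.Agent.Gen.TY.X.A1
import Pool.Agent.Gen.TY.X.A2
import Pool.Agent.Gen.TY.X.A3
import Pool.Agent.Gen.TY.X.A4
import Pool.Agent.Gen.TY.X.A5
import Pool.Agent.Gen.TY.X.A6
import Pool.Agent.Gen.TY.X.A7
import Pool.Agent.Gen.TY.X.A8
import Pool.Agent.Gen.TY.X.A9
import Pool.Agent.Gen.TY.X.B0
import Pool.Agent.Gen.TY.X.B1
import Pool.Agent.Gen.TY.X.B2
import Pool.Agent.Gen.TY.X.B3
import Pool.Agent.Gen.TY.X.B4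
import Pool.Agent.Gen.TY.X.B5
import Pool.Agent.Gen.TY.X.B6

/-! MP_8ee768_co, project TH-Y': stage X, the two trees (generated). -/

set_option autoImplicit false
set_option maxRecDepth 100000

namespace Pool.Agent.Gen.TY.X

open Pool.Agent.Helper74.TY

/-- the groups of type A -/
def treeA : GT :=
  (.nd (.nd (.nd (.nd A0.tree A8.tree) (.nd A4.tree (.lf 0 0 0))) (.nd (.nd A2.tree (.lf 0 0 0)) (.nd A6.tree (.lf 0 0 0)))) (.nd (.nd (.nd A1.tree A9.tree) (.nd A5.tree (.lf 0 0 0))) (.nd (.nd A3.tree (.lf 0 0 0)) (.nd A7.tree (.lf 0 0 0)))))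

theorem treeA_ok : treeA.All GOK :=
  (ndok (ndok (ndok (ndok A0.ok A8.ok) (ndok A4.ok lfok0)) (ndok (ndok A2.ok lfok0) (ndok A6.ok lfok0))) (ndok (ndok (ndok A1.ok A9.ok) (ndok A5.ok lfok0)) (ndok (ndok A3.ok lfok0) (ndok A7.ok lfok0))))

/-- the groups of type B -/
def treeB : GT :=
  (.nd (.nd (.nd (.nd B0.tree (.lf 0 0 0)) (.nd B4.tree (.lf 0 0 0))) (.nd (.nd B2.tree (.lf 0 0 0)) (.nd B6.tree (.lf 0 0 0)))) (.nd (.nd (.nd B1.tree (.lf 0 0 0)) (.nd B5.tree (.lf 0 0 0))) (.nd (.nd B3.tree (.lf 0 0 0)) (.nd (.lf 0 0 0) (.lf 0 0 0)))))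

theorem treeB_ok : treeB.All GOK :=
  (ndok (ndok (ndok (ndok B0.ok lfok0) (ndok B4.ok lfok0)) (ndok (ndok B2.ok lfok0) (ndok B6.ok lfok0))) (ndok (ndok (ndok B1.ok lfok0) (ndok B5.ok lfok0)) (ndok (ndok B3.ok lfok0) (ndok lfok0 lfok0))))

end Pool.Agent.Gen.TY.X
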