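import Pool.Agent.Gen.TY.X.Pl
import Pool.Agent.Helper27.TY.XCode

/-!
MP_8ee768_co, project TH-Y', stage X: the root codes 52 to 55 (positions in the list of all 1073
root codes; the 4 codes which are alive after the bad quads of the root). Every `t` is the full
check of one code: lists of the links of 11 and of 10, join, kill test, certificates.
Generated (helper27).
-/

set_option autoImplicit false
set_option linter.defProp false

namespace Pool.Agent.Gen.TY.X.XC_02

open Pool.Agent.Helper74.TY
open Pool.Agent.Helper27.TY
open Pool.Agent.Helper67.TY (repA repB repA_lt repB_lt)
open Pool.Agent.Gen.TY.X.Pl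

/-- root code 52 -/
def c52 : ℕ :=
  0x11010000220084400100081008100008004b0100022001000420021000040284040202102000083020000800c400801001010208088000a002100400002

/-- streams -/
def s52 : List ℕ :=
  [1105769874, 1105898185, 1155087135]

def t52 : xc repB 82 plB_82 repB 25 plB_25 s52 c52
    27 23166666124334103620690244683024 42 1760297524725922418734860464425730808709644489217 = true := by decide +kernel

/-- root code 53 -/
def c53 : ℕ :=
  0x800822000204200000844081000080028004044820000801400030080809002000208040400030342000800820010100400430004080000044080220040

/-- streams -/
def s53 : List ℕ :=
  [1090502093, 1098173652, 1194111226]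

def t53 : xc repB 73 plB_73 repB 82 plB_82 s53 c53
    46 115362858580438051545938763540268087256611989185699856 33 388583557603022019889567523917280838194 = true := by decide +kernel

/-- root code 54 -/
def c54 : ℕ :=
  0x21002001200420004005000003000403008410082000400110001008501010004b000000081040342000800800108010421002080080008004010200024

/-- streams -/
def s54 : List ℕ :=
  [1098859628, 1104666294, 1121497766]

def t54 : xc repB 82 plB_82 repB 25 plB_25 s54 c54
    40 104309604503278663550728896311472292963270464001 35 6920586946492904538741003351680466625537 = true := by decide +kernel

/-- root code 55 -/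
def c55 : ℕ :=
  0x100502000402200100048082000000428004023020001021000044800401101001200040201010342004000004120002400220084010008800100140040

def t55 : xc repB 73 plB_73 repB 73 plB_73 [] c55
    40 6495655741016243502035934300269020985069605377 31 100082960972481210144766614078509362 = true := by decide +kernel

/-- the codes of this module -/
def codes : List ℕ :=
  [c52, c53, c54, c55]

theorem dead (s : Sels) : ∀ c ∈ codes, XDead c :=
  dead_cons (xc_sound s.b82 repB_lt s.b25 repB_lt t52) <|
  dead_cons (xc_sound s.b73 repB_lt s.b82 repB_lt t53) <|
  dead_cons (xc_sound s.b82 repB_lt s.b25 repB_lt t54) <|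
  dead_cons (xc_sound s.b73 repB_lt s.b73 repB_lt t55) <|
  dead_nil

end Pool.Agent.Gen.TY.X.XC_02
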