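import Pool.Agent.Gen.TY.X.Pl
import Pool.Agent.Helper27.TY.XCode

/-!
MP_8ee768_co, project TH-Y', stage X: the root codes 108 to 111 (positions in the list of all 1073
root codes; the 4 codes which are alive after the bad quads of the root). Every `t` is the full
check of one code: lists of the links of 11 and of 10, join, kill test, certificates.
Generated (helper27).
-/

set_option autoImplicit false
set_option linter.defProp false

namespace Pool.Agent.Gen.TY.X.XC_05

open Pool.Agent.Helper74.TY
open Pool.Agent.Helper27.TY
open Pool.Agent.Helper67.TY (repA repB repA_lt repB_lt)
open Pool.Agent.Gen.TY.X.Pl

/-- root code 108 -/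
def c108 : ℕ :=
  0x4000100404200010900208400030800040100214000200012800904200004090008100420004140142002800000040104004060200084008001010040808

/-- streams -/
def s108 : List ℕ :=
  [1098426270, 1102884500, 1106025615, 1115612660, 1133988523, 1134295808, 1148831488,
   1221995286]

def t108 : xc repB 7 plB_7 repA 11 plA_11 s108 c108
    39 405972676986515871869705753761640686452617744 39 429760137700847705701651781525133835610833697 = true := by decide +kernel

/-- root code 109 -/
def c109 : ℕ :=
  0x20010004180020040020900202010001800811004008009002084000208100401002010a0004100342000800010200004204420600080008080110008008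

/-- streams -/
def s109 : List ℕ :=
  [1089721872, 1089913968, 1114753258, 1130470233, 1134288759]

def t109 : xc repA 69 plA_69 repB 13 plB_13 s109 c109
    30 5907764479700934915867057771066401 36 284953963656444071940436859485901701784336 = true := by decide +kernel

/-- root code 110 -/
def c110 : ℕ :=
  0x41011100020004002800041801020100008101410080040400808202000400404062000010030740000800010808120041000001800008080910044000

/-- streams -/
def s110 : List ℕ :=
  [1089870086, 1090062391, 1090299423, 1098090650, 1098561938, 1102602493, 1102986724,
   1103007954, 1104285334, 1115241409, 1119571062, 1152501131]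

def t110 : xc repA 73 plA_73 repA 84 plA_84 s110 c110
    30 6253833094852447592299070889473057 27 46063605246794600127126570292274 = true := by decide +kernel

/-- root code 111 -/
def c111 : ℕ :=
  0x820000204400821001000400181010100012020400442000100110010409002000202060008400380004000014100240202081800100000014081010800

/-- streams -/
def s111 : List ℕ :=
  [1089537066, 1089750313, 1090106595, 1098163045, 1102285688, 1102816159, 1105359805,
   1163648898]

def t111 : xc repB 11 plB_11 repB 11 plB_11 s111 c111
    39 6876162203213563291226428504402142538003333648 40 6876162203213563291226428503172365024385835794 = true := by decide +kernel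

/-- the codes of this module -/
def codes : List ℕ :=
  [c108, c109, c110, c111]

theorem dead (s : Sels) : ∀ c ∈ codes, XDead c :=
  dead_cons (xc_sound s.b7 repB_lt s.a11 repA_lt t108) <|
  dead_cons (xc_sound s.a69 repA_lt s.b13 repB_lt t109) <|
  dead_cons (xc_sound s.a73 repA_lt s.a84 repA_lt t110) <|
  dead_cons (xc_sound s.b11 repB_lt s.b11 repB_lt t111) <|
  dead_nil

end Pool.Agent.Gen.TY.X.XC_05
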