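import Pool.Agent.Gen.TY.X.Pl
import Pool.Agent.Helper27.TY.XCode

/-!
MP_8ee768_co, project TH-Y', stage X: the root codes 112 to 115 (positions in the list of all 1073
root codes; the 4 codes which are alive after the bad quads of the root). Every `t` is the full
check of one code: lists of the links of 11 and of 10, join, kill test, certificates.
Generated (helper27).
-/

set_option autoImplicit false
set_option linter.defProp false

namespace Pool.Agent.Gen.TY.X.XC_06

open Pool.Agent.Helper74.TY
open Pool.Agent.Helper27.TY
open Pool.Agent.Helper67.TY (repA repB repA_lt repB_lt)
open Pool.Agent.Gen.TY.X.Pl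

/-- root code 112 -/
def c112 : ℕ :=
  0x800820208010040001100810081010004040080c20002000480088100809002001000280004220780008000018020022008040600000004040880222000

/-- streams -/
def s112 : List ℕ :=
  [1090155405, 1104329173, 1104744683, 1105639497, 1105828414, 1148941217, 1168614722]

def t112 : xc repB 82 plB_82 repB 73 plB_73 s112 c112
    29 5907764482360248386982715447263760 34 409851205540511804317067659821062505009 = true := by decide +kernel

/-- root code 113 -/
def c113 : ℕ :=
  0x4000020282000042010101090022000800040038000084000480844800810000400400290100404700000000a02010004010001018000021080c080a0000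

/-- streams -/
def s113 : List ℕ :=
  [1130322566, 1155584402]

def t113 : xc repB 26 plB_26 repB 26 plB_26 s113 c113
    33 388583557856201357771469464420255805968 34 6217336925699221724343511430723808739889 = true := by decide +kernel

/-- root code 114 -/
def c114 : ℕ :=
  0x4000010300800084000480882800820000200081400101004042048101000104000064004201010700000000a0202001000021000180000a100c02140000

/-- streams -/
def s114 : List ℕ :=
  [1089916333, 1098638457, 1098678552, 1102501128, 1105653826, 1114987663, 1115499847,
   1121165716]

def t114 : xc repA 56 plA_56 repA 56 plA_56 s114 c114
    28 1407689226109763528402573956822049 25 16527873124443971391893947698 = true := by decide +kernel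

/-- root code 115 -/
def c115 : ℕ :=
  0x81200018010040041000808200012010030000182084000081030000020100280101410000404700000800880210004040400620100008080802104000

/-- streams -/
def s115 : List ℕ :=
  [1105011552, 1114641052, 1200500412]

def t115 : xc repB 56 plB_56 repA 88 plA_88 s115 c115
    30 100407480825894203802732117026415376 26 1616606081328997752307084116769 = true := by decide +kernel

/-- the codes of this module -/
def codes : List ℕ :=
  [c112, c113, c114, c115]

theorem dead (s : Sels) : ∀ c ∈ codes, XDead c :=
  dead_cons (xc_sound s.b82 repB_lt s.b73 repB_lt t112) <|
  dead_cons (xc_sound s.b26 repB_lt s.b26 repB_lt t113) <|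
  dead_cons (xc_sound s.a56 repA_lt s.a56 repA_lt t114) <|
  dead_cons (xc_sound s.b56 repB_lt s.a88 repA_lt t115) <|
  dead_nil

end Pool.Agent.Gen.TY.X.XC_06
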