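import Pool.Agent.Gen.TY.X.Pl
import Pool.Agent.Helper27.TY.XCode

/-!
MP_8ee768_co, project TH-Y', stage X: the root codes 143 to 146 (positions in the list of all 1073
root codes; the 4 codes which are alive after the bad quads of the root). Every `t` is the full
check of one code: lists of the links of 11 and of 10, join, kill test, certificates.
Generated (helper27).
-/

set_option autoImplicit false
set_option linter.defProp false

namespace Pool.Agent.Gen.TY.X.XC_09

open Pool.Agent.Helper74.TY
open Pool.Agent.Helper27.TY
open Pool.Agent.Helper67.TY (repA repB repA_lt repB_lt)
open Pool.Agent.Gen.TY.X.Pl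

/-- root code 143 -/
def c143 : ℕ :=
  0x4000010900200080480090200048800041000048400200041420001280142002800000040882800010410020011000040880050020084008001000142080

/-- streams -/
def s143 : List ℕ :=
  [1090255268, 1098157205, 1098229922, 1098884179, 1102600935, 1102643599, 1114665277,
   1122495940, 1122592521, 1130037934, 1130203111, 1131127424]

def t143 : xc repA 11 plA_11 repA 11 plA_11 s143 c143
    44 7210178658396865341661043492852945380800959927693600 33 25615700346281987768510090203591942930 = true := by decide +kernel

/-- root code 144 -/
def c144 : ℕ :=
  0x100809100020004002200088101020200004068000502000420004800001402008081400110010704000000210800121012000001900008000a00442000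

/-- streams -/
def s144 : List ℕ :=
  [1089612358, 1090221620, 1102495484, 1115073704, 1127335917, 1128105078, 1148648616,
   1153325027, 1153353360, 1163748181]

def t144 : xc repA 200 plA_200 repA 200 plA_200 s144 c144
    25 5964120001661793783012082994 28 390864568428592767425410903651361 = true := by decide +kernel

/-- root code 145 -/
def c145 : ℕ :=
  0xa0000900200600084000400280024020140060008021001000040809010101000201084200010380004000014104090000211004100000014101009000

/-- streams -/
def s145 : List ℕ :=
  [1089790358, 1090397800, 1097999855, 1098126927, 1098431855, 1098545923, 1098687252,
   1098743033, 1098878932, 1102522380, 1106060655, 1127309576, 1130867178, 1155424890]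

def t145 : xc repB 56 plB_56 repA 25 plA_25 s145 c145
    27 4231135519857656676324567303474 41 103929005307307450368576662865921103653556724496 = true := by decide +kernel

/-- root code 146 -/
def c146 : ℕ :=
  0x4000020500200042010101024802000800080100c00084000480888200810000100058010100404700000000a02010004020004003000021080c04210000

/-- streams -/
def s146 : List ℕ :=
  [1089768040, 1090323446, 1102498717, 1104213955, 1121722465, 1121961915, 1130204351,
   1137236045, 1155945083, 1184032275]

def t146 : xc repA 56 plA_56 repA 56 plA_56 s146 c146
    28 1083170693083560109139089264165392 29 1407689226109763528402569458373409 = true := by decide +kernel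

/-- the codes of this module -/
def codes : List ℕ :=
  [c143, c144, c145, c146]

theorem dead (s : Sels) : ∀ c ∈ codes, XDead c :=
  dead_cons (xc_sound s.a11 repA_lt s.a11 repA_lt t143) <|
  dead_cons (xc_sound s.a200 repA_lt s.a200 repA_lt t144) <|
  dead_cons (xc_sound s.b56 repB_lt s.a25 repA_lt t145) <|
  dead_cons (xc_sound s.a56 repA_lt s.a56 repA_lt t146) <|
  dead_nil

end Pool.Agent.Gen.TY.X.XC_09
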