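import Pool.Agent.Gen.TY.X.Pl
import Pool.Agent.Helper27.TY.XCode

/-!
MP_8ee768_co, project TH-Y', stage X: the root codes 259 to 262 (positions in the list of all 1073
root codes; the 4 codes which are alive after the bad quads of the root). Every `t` is the full
check of one code: lists of the links of 11 and of 10, join, kill test, certificates.
Generated (helper27).
-/

set_option autoImplicit false
set_option linter.defProp false

namespace Pool.Agent.Gen.TY.X.XC_12

open Pool.Agent.Helper74.TY
open Pool.Agent.Helper27.TY
open Pool.Agent.Helper67.TY (repA repB repA_lt repB_lt)
open Pool.Agent.Gen.TY.X.Pl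

/-- root code 259 -/
def c259 : ℕ :=
  0x841008002200003008004000488008802002180010440010200080043020008008202001012010100400130000808042040404200800010800a0020002

/-- streams -/
def s259 : List ℕ :=
  [1102149266, 1102260039, 1102737403, 1103008868, 1104918947, 1115352997, 1129626335]

def t259 : xc repB 25 plB_25 repB 25 plB_25 s259 c259
    38 25466212047664012182911022820226028046385714 25 5964119999346347754919457347 = true := by decide +kernel

/-- root code 260 -/
def c260 : ℕ :=
  0x821008010100081008080020088000812002080840440000a0004004302000800880202001041010000033000400400300840030080008082020100020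

/-- streams -/
def s260 : List ℕ :=
  [1098434938, 1098834663, 1102161298, 1104750938, 1105295872, 1119228417, 1129763837,
   1153048040]

def t260 : xc repB 73 plB_73 repB 25 plB_25 s260 c260
    35 6194740045799236915630332396031247122994 26 100707794575906948575589975602 = true := by decide +kernel

/-- root code 261 -/
def c261 : ℕ :=
  0x40000085008000440020900801410000800230100001008014022020208010010002080600100843020008000c000004028004021008000a002100140004

/-- streams -/
def s261 : List ℕ :=
  [1098322590, 1104740603, 1114795085, 1118940181, 1121595205, 1122976727, 1130403060,
   1164682707]

def t261 : xc repB 81 plB_81 repB 81 plB_81 s261 c261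
    30 5907679980460676720364949000570128 35 6194651443191534552733396763221825946162 = true := by decide +kernel

/-- root code 262 -/
def c262 : ℕ :=
  0x110040012008200008042000140080028404040120004001400010085010040033000000200030342000080820008090020082080080000044080800042

/-- streams -/
def s262 : List ℕ :=
  [1089649319, 1102300158, 1102850236, 1104294973, 1105630934, 1115058452, 1115304757,
   1121474659, 1127347091, 1128197922, 1135117563, 1135256537, 1135522971, 1137066559,
   1170841831]

def t262 : xc repB 25 plB_25 repB 25 plB_25 s262 c262
    45 7210178661277378227137988462287793392472371929223681 34 432536688043267845466143104383749006337 = true := by decide +kernel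

/-- the codes of this module -/
def codes : List ℕ :=
  [c259, c260, c261, c262]

theorem dead (s : Sels) : ∀ c ∈ codes, XDead c :=
  dead_cons (xc_sound s.b25 repB_lt s.b25 repB_lt t259) <|
  dead_cons (xc_sound s.b73 repB_lt s.b25 repB_lt t260) <|
  dead_cons (xc_sound s.b81 repB_lt s.b81 repB_lt t261) <|
  dead_cons (xc_sound s.b25 repB_lt s.b25 repB_lt t262) <|
  dead_nil

end Pool.Agent.Gen.TY.X.XC_12
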