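import Pool.Agent.Gen.TY.X.Pl
import Pool.Agent.Helper27.TY.XCode

/-!
MP_8ee768_co, project TH-Y', stage X: the root codes 267 to 270 (positions in the list of all 1073
root codes; the 4 codes which are alive after the bad quads of the root). Every `t` is the full
check of one code: lists of the links of 11 and of 10, join, kill test, certificates.
Generated (helper27).
-/

set_option autoImplicit false
set_option linter.defProp false

namespace Pool.Agent.Gen.TY.X.XC_14

open Pool.Agent.Helper74.TY
open Pool.Agent.Helper27.TY
open Pool.Agent.Helper67.TY (repA repB repA_lt repB_lt)
open Pool.Agent.Gen.TY.X.Pl

/-- root code 267 -/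
def c267 : ℕ :=
  0x40001010011002001008424002200040204041200000420200808448004010010012000901001103020040000840100020000a0180100008802100440002

/-- streams -/
def s267 : List ℕ :=
  [1090124594, 1102069960, 1105643764]

def t267 : xc repB 26 plB_26 repB 26 plB_26 s267 c267
    45 109376547897718125521748328581188465111105224299254273 32 27033542759737908354457044414175183154 = true := by decide +kernel

/-- root code 268 -/
def c268 : ℕ :=
  0x104200080040442020010100010302004000404120004001400082020080420804021000044800409000021200050002410020084100000840100140040

/-- streams -/
def s268 : List ℕ :=
  [1089826545, 1089834022, 1102638930, 1115250544, 1122486272, 1153083107]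

def t268 : xc repB 25 plB_25 repB 25 plB_25 s268 c268
    24 352125166691633005692474995 45 6811091291813893583897886172146581684371676681409025 = true := by decide +kernel

/-- root code 269 -/
def c269 : ℕ :=
  0x40050100010120008004840004000042040482201002001040100480100010200a008404002100380004800001104080002212000500000890080040040

/-- streams -/
def s269 : List ℕ :=
  [1089727949, 1090124142, 1090287190, 1104962361, 1105919884, 1121017491, 1121137809,
   1127228439, 1130896386, 1134655373, 1148630488, 1160972008, 1161345393, 1170355399]

def t269 : xc repB 73 plB_73 repB 73 plB_73 s269 c269
    42 1662887868995579045735533107221965183107217953281 31 100082960972481210144766618576950083 = true := by decide +kernel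

/-- root code 270 -/
def c270 : ℕ :=
  0x400020004804004082101010020830201000008020008400048220202004002008440102000480400808022120000000a010120080090010002020100024

/-- streams -/
def s270 : List ℕ :=
  [1104311404, 1121052839, 1121438474, 1134981996]

def t270 : xc repB 26 plB_26 repB 26 plB_26 s270 c270
    24 5634002667066128091079599907 45 108977460669022297342366178754345306949946749357330945 = true := by decide +kernel

/-- the codes of this module -/
def codes : List ℕ :=
  [c267, c268, c269, c270]

theorem dead (s : Sels) : ∀ c ∈ codes, XDead c :=
  dead_cons (xc_sound s.b26 repB_lt s.b26 repB_lt t267) <|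
  dead_cons (xc_sound s.b25 repB_lt s.b25 repB_lt t268) <|
  dead_cons (xc_sound s.b73 repB_lt s.b73 repB_lt t269) <|
  dead_cons (xc_sound s.b26 repB_lt s.b26 repB_lt t270) <|
  dead_nil

end Pool.Agent.Gen.TY.X.XC_14
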