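import Pool.Agent.Gen.TY.X.Pl
import Pool.Agent.Helper27.TY.XCode

/-!
MP_8ee768_co, project TH-Y', stage X: the root codes 271 to 274 (positions in the list of all 1073
root codes; the 4 codes which are alive after the bad quads of the root). Every `t` is the full
check of one code: lists of the links of 11 and of 10, join, kill test, certificates.
Generated (helper27).
-/

set_option autoImplicit false
set_option linter.defProp false

namespace Pool.Agent.Gen.TY.X.XC_15

open Pool.Agent.Helper74.TY
open Pool.Agent.Helper27.TY
open Pool.Agent.Helper67.TY (repA repB repA_lt repB_lt)
open Pool.Agent.Gen.TY.X.Pl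

/-- root code 271 -/
def c271 : ℕ :=
  0x200800100110400082022000008434201000002401000004804200022100820200a008010000048800881201200000040284044400080010002000440042

/-- streams -/
def s271 : List ℕ :=
  [1089643615, 1102123042, 1105697345, 1106198322, 1115049876, 1115085300, 1120997205,
   1121612611, 1122975619, 1130272421, 1133785055, 1135385158, 1135477563, 1135512008,
   1154773423]

def t271 : xc repB 74 plB_74 repB 25 plB_25 s271 c271
    21 1456398773200524196344674 38 26860008606302981607642756787230565911901185 = true := by decide +kernel

/-- root code 272 -/
def c272 : ℕ :=
  0x2004001010100800248010080021000242002008402000821020004004342010000004108400008808080201200080004208045010080010040010140020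

/-- streams -/
def s272 : List ℕ :=
  [1089914472, 1090132581, 1098127205, 1098136503, 1102341946, 1104860617, 1119354043,
   1119692266, 1119716881, 1119755624, 1122595401, 1127734082]

def t272 : xc repB 74 plB_74 repB 73 plB_73 s272 c272
    31 1512387707134765459287208006463337475 22 1456398773200524196344674 = true := by decide +kernel

/-- root code 273 -/
def c273 : ℕ :=
  0x4000040812000024001400844801010000022008040200100850200048002028004042008082020340000800021008000810012004080008082100140040

/-- streams -/
def s273 : List ℕ :=
  [1089906847, 1098446280, 1121599960, 1122404016, 1130498922, 1152834439, 1153309886,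
   1155125406]

def t273 : xc repB 26 plB_26 repB 81 plB_81 s273 c273
    33 432536684155806533671312710626802930499 40 6519350281454916471920556019467600007973245441 = true := by decide +kernel

/-- root code 274 -/
def c274 : ℕ :=
  0x4402400040208082002000400434000080040112000044800010101101010000a008400400208808080101200080804204041020080000090110040020

/-- streams -/
def s274 : List ℕ :=
  [1089809647, 1089841559, 1090230467, 1090273249, 1090336149, 1090515384, 1104457739,
   1105514064, 1128010450, 1129735363, 1152872510]

def t274 : xc repB 25 plB_25 repB 74 plB_74 s274 c274
    23 24586864131110124018627426 32 25615700346281987768663803866955191107 = true := by decide +kernel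

/-- the codes of this module -/
def codes : List ℕ :=
  [c271, c272, c273, c274]

theorem dead (s : Sels) : ∀ c ∈ codes, XDead c :=
  dead_cons (xc_sound s.b74 repB_lt s.b25 repB_lt t271) <|
  dead_cons (xc_sound s.b74 repB_lt s.b73 repB_lt t272) <|
  dead_cons (xc_sound s.b26 repB_lt s.b81 repB_lt t273) <|
  dead_cons (xc_sound s.b25 repB_lt s.b74 repB_lt t274) <|
  dead_nil

end Pool.Agent.Gen.TY.X.XC_15
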