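import Pool.Agent.Gen.TY.X.Pl
import Pool.Agent.Helper27.TY.XCode

/-!
MP_8ee768_co, project TH-Y', stage X: the root codes 275 to 278 (positions in the list of all 1073
root codes; the 4 codes which are alive after the bad quads of the root). Every `t` is the full
check of one code: lists of the links of 11 and of 10, join, kill test, certificates.
Generated (helper27).
-/

set_option autoImplicit false
set_option linter.defProp false

namespace Pool.Agent.Gen.TY.X.XC_16

open Pool.Agent.Helper74.TY
open Pool.Agent.Helper27.TY
open Pool.Agent.Helper67.TY (repA repB repA_lt repB_lt)
open Pool.Agent.Gen.TY.X.Pl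

/-- root code 275 -/
def c275 : ℕ :=
  0x8100200022022000040500001100040300841200004808004010048008080021012000424002003400008004401100010004a0180080010014010200004

/-- streams -/
def s275 : List ℕ :=
  [1089851097, 1105816131, 1106214801, 1115301882, 1133842493, 1163327323, 1199845394]

def t275 : xc repB 25 plB_25 repB 73 plB_73 s275 c275
    47 1845805737287008826147325046345675108472626991089062401 32 1600981272283515955699010699860787506 = true := by decide +kernel

/-- root code 276 -/
def c276 : ℕ :=
  0x820002000482200004040081200080428004042000440802000050082000880020218008400010320000800500108100401030000808001080104040002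

/-- streams -/
def s276 : List ℕ :=
  [1089830881, 1090018850, 1104481205, 1121343571, 1121522611, 1129378584, 1134232763,
   1279135884]

def t276 : xc repB 82 plB_82 repB 82 plB_82 s276 c276
    40 103930491810894462283457746146512255795885842448 29 5930666505912723006285640947282979 = true := by decide +kernel

/-- root code 277 -/
def c277 : ℕ :=
  0x40000810200800408120008500820000801002080802001008422010400400240040030084000303200008001008081000000b0004008008082110040020

/-- streams -/
def s277 : List ℕ :=
  [1089870633, 1104317811, 1121009406, 1133767449, 1148618021, 1148696456, 1178426412]

def t277 : xc repB 26 plB_26 repB 26 plB_26 s277 c277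
    34 6557619288732698876012055345326904587299 45 109376547897718125521748328581188465111123972113637392 = true := by decide +kernel

/-- root code 278 -/
def c278 : ℕ :=
  0x42084000100a0010080220100001010004b000401042020020010004320000080084810100100001041010208080040240041011108008004100400020

/-- streams -/
def s278 : List ℕ :=
  [1089577878, 1090147486, 1090198012, 1090201719, 1098552106, 1098642679, 1098649333,
   1098718225, 1098887001, 1098906419, 1102904412, 1104546894, 1105595091, 1122087171,
   1122301590, 1152489710, 1155902183, 1156060772]

def t278 : xc repB 25 plB_25 repB 25 plB_25 s278 c278
    32 1517904521926699319469892758275179780 21 96042438012148921947766 = true := by decide +kernel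

/-- the codes of this module -/
def codes : List ℕ :=
  [c275, c276, c277, c278]

theorem dead (s : Sels) : ∀ c ∈ codes, XDead c :=
  dead_cons (xc_sound s.b25 repB_lt s.b73 repB_lt t275) <|
  dead_cons (xc_sound s.b82 repB_lt s.b82 repB_lt t276) <|
  dead_cons (xc_sound s.b26 repB_lt s.b26 repB_lt t277) <|
  dead_cons (xc_sound s.b25 repB_lt s.b25 repB_lt t278) <|
  dead_nil

end Pool.Agent.Gen.TY.X.XC_16
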