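import Pool.Agent.Gen.TY.X.Pl
import Pool.Agent.Helper27.TY.XCode

/-!
MP_8ee768_co, project TH-Y', stage X: the root codes 378 to 381 (positions in the list of all 1073
root codes; the 4 codes which are alive after the bad quads of the root). Every `t` is the full
check of one code: lists of the links of 11 and of 10, join, kill test, certificates.
Generated (helper27).
-/

set_option autoImplicit false
set_option linter.defProp false

namespace Pool.Agent.Gen.TY.X.XC_21

open Pool.Agent.Helper74.TY
open Pool.Agent.Helper27.TY
open Pool.Agent.Helper67.TY (repA repB repA_lt repB_lt)
open Pool.Agent.Gen.TY.X.Pl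

/-- root code 378 -/
def c378 : ℕ :=
  0x200480820010100001101008400800041201008088200004042100200040030004022208000048300404800880020001001122100008008880020020002

/-- streams -/
def s378 : List ℕ :=
  [1090072853, 1090418229, 1090442985, 1103007803]

def t378 : xc repB 82 plB_82 repB 73 plB_73 s378 c378
    30 94869032639842105186991732053849138 43 26606205915202533384339186893901909936092757365249 = true := by decide +kernel

/-- root code 379 -/
def c379 : ℕ :=
  0x110040012008200008042000140080028404040120004001400004805010040032008000200030342000080820008090020092000080000044080800042

/-- streams -/
def s379 : List ℕ :=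
  [1090080266, 1104173575, 1105544500, 1115570629, 1115661376, 1121057296, 1121255016,
   1121751597, 1121754972, 1122492743, 1122579509, 1131290478, 1152771277, 1245026126]

def t379 : xc repB 25 plB_25 repB 25 plB_25 s379 c379
    45 7210178661277378227137988462287793392472371929223681 36 104921908681922563004910253466425227427856 = true := by decide +kernel

/-- root code 380 -/
def c380 : ℕ :=
  0x20010020104008002480084000208100400112004020040020a0010004342000080042010080101000180042018000004208041210080008080110100001

/-- streams -/
def s380 : List ℕ :=
  [1097971017, 1098092716, 1098150508, 1098282374, 1098530437, 1104329533, 1104424149,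
   1104732461, 1105001111, 1105334411, 1118937340, 1119093620, 1119362363, 1121715084,
   1127311507, 1127608854, 1155222759, 1167984040]

def t380 : xc repB 74 plB_74 repB 74 plB_74 s380 c380
    29 5907764480995177566033757410968882 22 23297343756472633864434787 = true := by decide +kernel

/-- root code 381 -/
def c381 : ℕ :=
  0x400020008404010100110808202000043000402400002201041010011030400400080012000840400110200a200000002412010080108008800000440042

/-- streams -/
def s381 : List ℕ :=
  [1102673786, 1106151635, 1115220733, 1121836589]

def t381 : xc repB 81 plB_81 repB 81 plB_81 s381 c381
    42 1662864084914177672992512131995995966862621086209 21 85968058275570569729651 = true := by decide +kernel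

/-- the codes of this module -/
def codes : List ℕ :=
  [c378, c379, c380, c381]

theorem dead (s : Sels) : ∀ c ∈ codes, XDead c :=
  dead_cons (xc_sound s.b82 repB_lt s.b73 repB_lt t378) <|
  dead_cons (xc_sound s.b25 repB_lt s.b25 repB_lt t379) <|
  dead_cons (xc_sound s.b74 repB_lt s.b74 repB_lt t380) <|
  dead_cons (xc_sound s.b81 repB_lt s.b81 repB_lt t381) <|
  dead_nil

end Pool.Agent.Gen.TY.X.XC_21
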