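import Pool.Agent.Gen.TY.X.Pl
import Pool.Agent.Helper27.TY.XCode

/-!
MP_8ee768_co, project TH-Y', stage X: the root codes 382 to 385 (positions in the list of all 1073
root codes; the 4 codes which are alive after the bad quads of the root). Every `t` is the full
check of one code: lists of the links of 11 and of 10, join, kill test, certificates.
Generated (helper27).
-/

set_option autoImplicit false
set_option linter.defProp false

namespace Pool.Agent.Gen.TY.X.XC_22

open Pool.Agent.Helper74.TY
open Pool.Agent.Helper27.TY
open Pool.Agent.Helper67.TY (repA repB repA_lt repB_lt)
open Pool.Agent.Gen.TY.X.Pl

/-- root code 382 -/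
def c382 : ℕ :=
  0x110080020220001012000010086000240113000002200100050000110000428404024000202008342004000002204011010402080010008800100020042

/-- streams -/
def s382 : List ℕ :=
  [1089987132, 1102511781, 1102671701, 1102932192, 1102976495, 1102989327, 1105462667,
   1105582236, 1114739973, 1121698535, 1153101240, 1167368058, 1170704951]

def t382 : xc repB 25 plB_25 repB 82 plB_82 s382 c382
    34 409851205788760011737930677603223543824 41 1662887869359875949317852478826797625660515815937 = true := by decide +kernel

/-- root code 383 -/
def c383 : ℕ :=
  0x10820000804084400100220002008002008412102000202020010020834200400040020003008040900004020806000a000130100010000802110100004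

/-- streams -/
def s383 : List ℕ :=
  [1090147498, 1098787380, 1119579396, 1121384574, 1122174212, 1127269316]

def t383 : xc repB 74 plB_74 repB 74 plB_74 s383 c383
    42 26605825358648021812016937932258665058300964446224 21 1375488932389191428626038 = true := by decide +kernel

/-- root code 384 -/
def c384 : ℕ :=
  0x20080020003040010200a0000084342004000404000800300808100008408202000208404081002000880203000080200300041030010010002010140020

/-- streams -/
def s384 : List ℕ :=
  [1089856684, 1090476068, 1104199862, 1105470084, 1105954659, 1119858368, 1129723446]

def t384 : xc repB 73 plB_73 repB 25 plB_25 s384 c384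
    26 95446549389344416902247899698 39 429760137700847705722284108595687886341488675 = true := by decide +kernel

/-- root code 385 -/
def c385 : ℕ :=
  0x210020012004200040044002008080028404002200884000080808400810000111008090080020300400800501010000810422004080001090100020020

/-- streams -/
def s385 : List ℕ :=
  [1089711499, 1089803606, 1089997814, 1098120375, 1102576613, 1102789373, 1104215596,
   1104428810, 1104857347, 1104870285, 1105126616, 1105502545, 1105581532, 1119304655,
   1119632709, 1119733086, 1121264456, 1121362534, 1122311299, 1122374003, 1122645408,
   1127254014, 1127981055, 1134526667, 1135122606, 1148420387, 1164782656, 1167669591]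

def t385 : xc repB 25 plB_25 repB 25 plB_25 s385 c385
    46 115362858580438051634207815396604694279576698681892880 37 1678750538910761008078562902523706577523458 = true := by decide +kernel

/-- the codes of this module -/
def codes : List ℕ :=
  [c382, c383, c384, c385]

theorem dead (s : Sels) : ∀ c ∈ codes, XDead c :=
  dead_cons (xc_sound s.b25 repB_lt s.b82 repB_lt t382) <|
  dead_cons (xc_sound s.b74 repB_lt s.b74 repB_lt t383) <|
  dead_cons (xc_sound s.b73 repB_lt s.b25 repB_lt t384) <|
  dead_cons (xc_sound s.b25 repB_lt s.b25 repB_lt t385) <|
  dead_nil

end Pool.Agent.Gen.TY.X.XC_22
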