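import Pool.Agent.Gen.TY.X.Pl
import Pool.Agent.Helper27.TY.XCode

/-!
MP_8ee768_co, project TH-Y', stage X: the root codes 471 to 476 (positions in the list of all 1073
root codes; the 6 codes which are alive after the bad quads of the root). Every `t` is the full
check of one code: lists of the links of 11 and of 10, join, kill test, certificates.
Generated (helper27).
-/

set_option autoImplicit false
set_option linter.defProp false

namespace Pool.Agent.Gen.TY.X.XC_26

open Pool.Agent.Helper74.TY
open Pool.Agent.Helper27.TY
open Pool.Agent.Helper67.TY (repA repB repA_lt repB_lt)
open Pool.Agent.Gen.TY.X.Pl

/-- root code 471 -/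
def c471 : ℕ :=
  0x820220100080810000a0000110340004000808090008084010000404801002009002202000222000200112210000040300841200008008802010800002

/-- streams -/
def s471 : List ℕ :=
  [1090170515, 1090319308, 1090497805, 1102855517, 1103088144, 1105330996, 1105900053,
   1115481218, 1115521794, 1119748193, 1121252935, 1122174458, 1122307001, 1134136617,
   1153047501]

def t471 : xc repA 194 plA_194 repA 69 plA_69 s471 c471
    15 81987872067442294 37 1585853452049123202850869531373482349429024 = true := by decide +kernel

/-- root code 472 -/
def c472 : ℕ :=
  0x4000081020080008484004081202000080102200080022010420010030340004000008408400084810000009003000200208041008008008082110040020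

/-- streams -/
def s472 : List ℕ :=
  [1089932944, 1106071991, 1121129236, 1131079599, 1148997649, 1167891823]

def t472 : xc repB 81 plB_81 repA 193 plA_193 s472 c472
    31 94524231654663219427394342997005315 15 5124242037769575 = true := by decide +kernel

/-- root code 473 -/
def c473 : ℕ :=
  0x2004000302800404008101088001020100040010801002010400848000812004000002048102000740000001000520004001020210800008080911008100

def t473 : xc repA 580 plA_580 repA 577 plA_577 [] c473
    22 2665325169858149475562788 27 1442325345542557024137700779024 = true := by decide +kernel

/-- root code 474 -/
def c474 : ℕ :=
  0x4000080820200200081110100404000430004024000101004060008110000241202200002201040304004000800100011020090080108008800000440042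

/-- streams -/
def s474 : List ℕ :=
  [1089821934, 1090323115, 1090514386, 1122859525, 1127666776, 1128110354, 1152802263,
   1153163902]

def t474 : xc repA 76 plA_76 repA 76 plA_76 s474 c474
    40 299176443246280856672859905008815582285703225360 26 4151907196468530246059315037267 = true := by decide +kernel

/-- root code 476 -/
def c476 : ℕ :=
  0x2001001012010000084048002022000240112200000402020820010040342004000002050000810401101041000800004284040204010008800100020050

/-- streams -/
def s476 : List ℕ :=
  [1090408669, 1098377627, 1102497151, 1102900914, 1104324131, 1104835832, 1114662189,
   1129547563, 1153151029, 1156259676, 1278568141]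

def t476 : xc repB 25 plB_25 repA 84 plA_84 s476 c476
    36 104921908660288001223496231139924214096641 16 2623216170429601396 = true := by decide +kernel

/-- root code 475 -/
def c475 : ℕ :=
  0x10080201800409000080a000018000110144004000108002020084080200020018002100420100070000800100060012004022004041000c000900008048

def t475 : xc repA 524 plA_524 repB 524 plB_524 [] c475
    23 1012360011761158681454075925 27 4146626608173706256581017089298 = true := by decide +kernel

/-- the codes of this module -/
def codes : List ℕ :=
  [c471, c472, c473, c474, c475, c476]

theorem dead (s : Sels) : ∀ c ∈ codes, XDead c :=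
  dead_cons (xc_sound s.a194 repA_lt s.a69 repA_lt t471) <|
  dead_cons (xc_sound s.b81 repB_lt s.a193 repA_lt t472) <|
  dead_cons (xc_sound s.a580 repA_lt s.a577 repA_lt t473) <|
  dead_cons (xc_sound s.a76 repA_lt s.a76 repA_lt t474) <|
  dead_cons (xc_sound s.a524 repA_lt s.b524 repB_lt t475) <|
  dead_cons (xc_sound s.b25 repB_lt s.a84 repA_lt t476) <|
  dead_nil

end Pool.Agent.Gen.TY.X.XC_26
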