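import Pool.Agent.Gen.TY.X.Pl
import Pool.Agent.Helper27.TY.XCode

/-!
MP_8ee768_co, project TH-Y', stage X: the root codes 793 to 797 (positions in the list of all 1073
root codes; the 5 codes which are alive after the bad quads of the root). Every `t` is the full
check of one code: lists of the links of 11 and of 10, join, kill test, certificates.
Generated (helper27).
-/

set_option autoImplicit false
set_option linter.defProp false

namespace Pool.Agent.Gen.TY.X.XC_40

open Pool.Agent.Helper74.TY
open Pool.Agent.Helper27.TY
open Pool.Agent.Helper67.TY (repA repB repA_lt repB_lt)
open Pool.Agent.Gen.TY.X.Pl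

/-- root code 793 -/
def c793 : ℕ :=
  0x10010800104004101008042020020000400330004009000042200081003004048008000424008008008002082102008002008402108080018800a0000008

/-- streams -/
def s793 : List ℕ :=
  [1098204936, 1105753760, 1114692711, 1122943156, 1129419379]

def t793 : xc repB 82 plB_82 repA 84 plA_84 s793 c793
    28 369235279986640730229290219750676 18 41971458726873622326 = true := by decide +kernel

/-- root code 794 -/
def c794 : ℕ :=
  0x1008080000480410100802100202000100113010002100004060000110300404800880008082000800041200202200400300040280808008880020020002

/-- streams -/
def s794 : List ℕ :=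
  [1089673513, 1090441198, 1102072813, 1102264165, 1102849685, 1104804012, 1105070112,
   1105648973, 1115168187, 1127303489, 1129993202, 1160880139]

def t794 : xc repB 74 plB_74 repA 82 plA_82 s794 c794
    29 5907764480995177575340655994094868 19 5393909767450824894262 = true := by decide +kernel

/-- root code 795 -/
def c795 : ℕ :=
  0x102000010084208002008008120200018014300000050000440020208080104101020202001001030040480008040024028004000880800a000100020030

/-- streams -/
def s795 : List ℕ :=
  [1089578390, 1102102945, 1102155575, 1104695198, 1119224165, 1122739662, 1122884161,
   1128185526]

def t795 : xc repB 25 plB_25 repA 67 plA_67 s795 c795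
    37 1585830769458295214897460810543393154342928 38 405972676980977506398603176958881284618403875 = true := by decide +kernel

/-- root code 797 -/
def c797 : ℕ :=
  0x81081010020000300800202022000240013000408022000220000140340004000808040080804809002000200a00804280040210008000840080820040

/-- streams -/
def s797 : List ℕ :=
  [1097946317, 1098332284, 1102462192, 1105323704, 1106189241, 1130293808, 1136916504]

def t797 : xc repB 82 plB_82 repA 194 plA_194 s797 c797
    29 5907764482360248386979271448675617 15 81987871999231335 = true := by decide +kernel

/-- root code 796 -/
def c796 : ℕ :=
  0x40200848080044400010109000102000002001481010000048201000480100140004200800208070000080108042000100142021000000a100940008001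

def t796 : xc repA 578 plA_578 repA 578 plA_578 [] c796
    29 5907764678289687890769780161118512 26 1442325355577571394615054242819 = true := by decide +kernel

/-- the codes of this module -/
def codes : List ℕ :=
  [c793, c794, c795, c796, c797]

theorem dead (s : Sels) : ∀ c ∈ codes, XDead c :=
  dead_cons (xc_sound s.b82 repB_lt s.a84 repA_lt t793) <|
  dead_cons (xc_sound s.b74 repB_lt s.a82 repA_lt t794) <|
  dead_cons (xc_sound s.b25 repB_lt s.a67 repA_lt t795) <|
  dead_cons (xc_sound s.a578 repA_lt s.a578 repA_lt t796) <|
  dead_cons (xc_sound s.b82 repB_lt s.a194 repA_lt t797) <|
  dead_nil

end Pool.Agent.Gen.TY.X.XC_40
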