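import Pool.Agent.Gen.TY.X.Pl
import Pool.Agent.Helper27.TY.XCode

/-!
MP_8ee768_co, project TH-Y', stage X: the root codes 828 to 833 (positions in the list of all 1073
root codes; the 6 codes which are alive after the bad quads of the root). Every `t` is the full
check of one code: lists of the links of 11 and of 10, join, kill test, certificates.
Generated (helper27).
-/

set_option autoImplicit false
set_option linter.defProp false

namespace Pool.Agent.Gen.TY.X.XC_44

open Pool.Agent.Helper74.TY
open Pool.Agent.Helper27.TY
open Pool.Agent.Helper67.TY (repA repB repA_lt repB_lt)
open Pool.Agent.Gen.TY.X.Pl

/-- root code 828 -/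
def c828 : ℕ :=
  0x2002000821000800284008400008808080202200084001040060001010342010000004110080021000242000409000004208051004080010040010140020

/-- streams -/
def s828 : List ℕ :=
  [1089709371, 1089958542, 1090172981, 1098301549, 1098353590, 1102900984, 1105939963,
   1106222465, 1119601774, 1121470057, 1121581972, 1122681318, 1122720224, 1127432030,
   1127758106, 1128017196]

def t828 : xc repB 73 plB_73 repA 82 plA_82 s828 c828
    34 387171252862452307522043960254127219472 20 86302557159993415988035 = true := by decide +kernel

/-- root code 829 -/
def c829 : ℕ :=
  0x2008000801400401042020000810342010000010100800284002200020809002002200044400401010040010408080800200841204080000044010900800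

/-- streams -/
def s829 : List ℕ :=
  [1089780173, 1097891988, 1098096339, 1098620047, 1102700645, 1102870713, 1102891498,
   1104539515, 1118949381, 1121002677, 1122649552, 1130099232, 1134234949, 1152434412,
   1155557634, 1167424480]

def t829 : xc repA 84 plA_84 repB 73 plB_73 s829 c829
    19 10744693434079092568899 33 24198203314156247643743513605570892803 = true := by decide +kernel

/-- root code 830 -/
def c830 : ℕ :=
  0x80400840c020001002080028011010404000400090080000302008006000200180820000004140740010000018008090024020001000020040810808102

def t830 : xc repA 580 plA_580 repA 580 plA_580 [] c830
    23 682323263083369435125403968 26 2794796170917422935776643137552 = true := by decide +kernel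

/-- root code 832 -/
def c832 : ℕ :=
  0x4000080820200008484010200048800081002200400024001420001280340000801000044090005010000020029000020280040420080008082100140040

/-- streams -/
def s832 : List ℕ :=
  [1102368880, 1102406997, 1102904754, 1103092783, 1105431432, 1121649758, 1122672197,
   1127717639, 1130843825, 1148639417, 1152387884]

def t832 : xc repB 26 plB_26 repA 193 plA_193 s832 c832
    32 25615700356515625298705134560125145107 20 5373080494791981360963 = true := by decide +kernel

/-- root code 833 -/
def c833 : ℕ :=
  0x42080820020000484000400208808080102200084024000420001010340000801000500104005010100008409000804204041020080000090110040020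

/-- streams -/
def s833 : List ℕ :=
  [1089778840, 1098493210, 1102931896, 1104354461, 1105086772, 1118899211, 1119781483,
   1120988412, 1121117792, 1127535675, 1128263211, 1133823611, 1152685079]

def t833 : xc repB 74 plB_74 repA 194 plA_194 s833 c833
    29 6253833094852447578488289246725395 19 5373080494791981360963 = true := by decide +kernel

/-- root code 831 -/
def c831 : ℕ :=
  0x88200180090100004202000804000a0128004002000104100002081000940240000008000820870401000001021010104040408010002000080040a082

def t831 : xc repB 522 plB_522 repB 524 plB_524 [] c831
    30 100061331684034241683531720595669520 23 1012360011761158754469634341 = true := by decide +kernel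

/-- the codes of this module -/
def codes : List ℕ :=
  [c828, c829, c830, c831, c832, c833]

theorem dead (s : Sels) : ∀ c ∈ codes, XDead c :=
  dead_cons (xc_sound s.b73 repB_lt s.a82 repA_lt t828) <|
  dead_cons (xc_sound s.a84 repA_lt s.b73 repB_lt t829) <|
  dead_cons (xc_sound s.a580 repA_lt s.a580 repA_lt t830) <|
  dead_cons (xc_sound s.b522 repB_lt s.b524 repB_lt t831) <|
  dead_cons (xc_sound s.b26 repB_lt s.a193 repA_lt t832) <|
  dead_cons (xc_sound s.b74 repB_lt s.a194 repA_lt t833) <|
  dead_nil

end Pool.Agent.Gen.TY.X.XC_44
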