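import Pool.Agent.Gen.TY.X.Pl
import Pool.Agent.Helper27.TY.XCode

/-!
MP_8ee768_co, project TH-Y', stage X: the root codes 851 to 855 (positions in the list of all 1073
root codes; the 5 codes which are alive after the bad quads of the root). Every `t` is the full
check of one code: lists of the links of 11 and of 10, join, kill test, certificates.
Generated (helper27).
-/

set_option autoImplicit false
set_option linter.defProp false

namespace Pool.Agent.Gen.TY.X.XC_46

open Pool.Agent.Helper74.TY
open Pool.Agent.Helper27.TY
open Pool.Agent.Helper67.TY (repA repB repA_lt repB_lt)
open Pool.Agent.Gen.TY.X.Pl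

/-- root code 851 -/
def c851 : ℕ :=
  0x10041000003004101008040820010000410430004080400020a0000084302004800500002040802000800420210200800281000210801001880100008008

/-- streams -/
def s851 : List ℕ :=
  [1089691079, 1089706274, 1089814048, 1090059561, 1090209009, 1090217582, 1090358373,
   1090434295, 1102358696, 1102904447, 1105404349, 1160817029, 1163381202]

def t851 : xc repB 74 plB_74 repB 73 plB_73 s851 c851
    29 5907764478492009082441646936040529 24 372838083552126637400343090 = true := by decide +kernel

/-- root code 852 -/
def c852 : ℕ :=
  0x100210000110041010080240020100010004b010001040012020010004302004800100108102002000040404202200400201100280801008880110000002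

/-- streams -/
def s852 : List ℕ :=
  [1089555756, 1090015560, 1090443355, 1090470738, 1102313105, 1102845842, 1105578372,
   1105996806, 1115478323, 1121012747, 1122429234, 1130906691, 1155014653, 1160822208,
   1161404143]

def t852 : xc repB 82 plB_82 repB 73 plB_73 s852 c852
    28 369235279901028200888259134760017 21 91005249012295327307380 = true := by decide +kernel

/-- root code 853 -/
def c853 : ℕ :=
  0x100110000140404001012000800430200480080012000010084010120100018200b00000002208200104044020200024030010000880100a000010080030

/-- streams -/
def s853 : List ℕ :=
  [1098196123, 1098717712, 1098883145, 1102356185, 1102665463, 1102690002, 1102979258,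
   1104385833, 1104849768, 1104907283, 1122845152, 1122970407, 1130520591, 1130543233,
   1131165565, 1135504935]

def t853 : xc repB 74 plB_74 repB 25 plB_25 s853 c853
    20 91005249012295327307380 35 6557619291268000076468514746463763375105 = true := by decide +kernel

/-- root code 855 -/
def c855 : ℕ :=
  0x44101000120000500800082021000241003000401042020020008004302004000404100400804409000020200a00804201400210100000840101008040

/-- streams -/
def s855 : List ℕ :=
  [1098330180, 1098580107, 1102640049, 1102827578, 1102990321, 1105117723, 1114853770,
   1121660549, 1127915741, 1134942035, 1228685236]

def t855 : xc repB 73 plB_73 repB 25 plB_25 s855 c855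
    30 5907764478492009082441646936040529 21 96042438012148921947763 = true := by decide +kernel

/-- root code 854 -/
def c854 : ℕ :=
  0x8200a080810040014002010006001000048042001084000201030000820000010014810000140700000800a0005000102082021000000a100a10080001

def t854 : xc repA 577 plA_577 repA 522 plA_522 [] c854
    29 369235288449122206433000740241712 32 25615701074851010900532596009186099504 = true := by decide +kernel

/-- the codes of this module -/
def codes : List ℕ :=
  [c851, c852, c853, c854, c855]

theorem dead (s : Sels) : ∀ c ∈ codes, XDead c :=
  dead_cons (xc_sound s.b74 repB_lt s.b73 repB_lt t851) <|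
  dead_cons (xc_sound s.b82 repB_lt s.b73 repB_lt t852) <|
  dead_cons (xc_sound s.b74 repB_lt s.b25 repB_lt t853) <|
  dead_cons (xc_sound s.a577 repA_lt s.a522 repA_lt t854) <|
  dead_cons (xc_sound s.b73 repB_lt s.b25 repB_lt t855) <|
  dead_nil

end Pool.Agent.Gen.TY.X.XC_46
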