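import Pool.Agent.Gen.TY.X.Pl
import Pool.Agent.Helper27.TY.XCode

/-!
MP_8ee768_co, project TH-Y', stage X: the root codes 985 to 988 (positions in the list of all 1073
root codes; the 4 codes which are alive after the bad quads of the root). Every `t` is the full
check of one code: lists of the links of 11 and of 10, join, kill test, certificates.
Generated (helper27).
-/

set_option autoImplicit false
set_option linter.defProp false

namespace Pool.Agent.Gen.TY.X.XC_52

open Pool.Agent.Helper74.TY
open Pool.Agent.Helper27.TY
open Pool.Agent.Helper67.TY (repA repB repA_lt repB_lt)
open Pool.Agent.Gen.TY.X.Pl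

/-- root code 985 -/
def c985 : ℕ :=
  0x44200080102100802020004004102202800400108020408000880040014010020028401200008800801001240080804080040130084001000800142000

/-- streams -/
def s985 : List ℕ :=
  [1089591676, 1089817065, 1089885154, 1089889811, 1089968232, 1090256116, 1090306595,
   1090389075, 1090491565, 1098004038, 1098229234, 1098666336, 1102057117, 1102385992,
   1102558957, 1104780501, 1105110813, 1105252163, 1105426618, 1106117537, 1114876032,
   1127320295, 1133636175]

def t985 : xc repA 13 plA_13 repB 73 plB_73 s985 c985
    30 5907679980621532328931642676758066 34 387171252862452307188774719131453035331 = true := by decide +kernel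

/-- root code 986 -/
def c986 : ℕ :=
  0x4000084000480100802202041800800020101240000200100840904200040080404012020008110102202800020000140100080080884008002010042002

/-- streams -/
def s986 : List ℕ :=
  [1089501761, 1090056898, 1090311570, 1102128224, 1102129648, 1102331255, 1102639660,
   1102817874, 1102880328, 1102955688, 1104484542, 1105502052, 1105697708, 1105900615,
   1106059116, 1119071816, 1119570635, 1119616149, 1129496954, 1149105047, 1152529370,
   1152964166, 1163744398, 1167142701, 1180723760]

def t986 : xc repA 56 plA_56 repA 76 plA_76 s986 c986
    27 1532096570219332943767554773042 40 298795887395019499348025480678816023292422590977 = true := by decide +kernel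

/-- root code 987 -/
def c987 : ℕ :=
  0x110100002200a0008100200180000403004804800404400004080404100008008601081008002030200080082020801002101200048000a002010200004

/-- streams -/
def s987 : List ℕ :=
  [1089538981, 1089557377, 1090231764, 1090331973, 1105183412, 1105505510, 1114785505,
   1115175251, 1119543304, 1127932271, 1129494239, 1192936426]

def t987 : xc repB 25 plB_25 repB 25 plB_25 s987 c987
    38 26860008622572176129256985535845020209329155 43 28164760384362755242215611260351546069074268200976 = true := by decide +kernel

/-- root code 988 -/
def c988 : ℕ :=
  0x420220200080810001200002083400040004080a0000882000400110809000005004100040422000240102210000804208081200008000840110040002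

/-- streams -/
def s988 : List ℕ :=
  [1089502052, 1090127837, 1090311559, 1090490963, 1102458055, 1102515269, 1102757245,
   1102934227, 1102943820, 1104873466, 1105517453, 1114660172, 1114718321, 1114747368,
   1114806762, 1114902765, 1119479352, 1119761068, 1121734845, 1129620824, 1129765682,
   1129799651]

def t988 : xc repA 194 plA_194 repA 73 plA_73 s988 c988
    14 5124242105980534 39 405978483641498790462776696456589109371081505 = true := by decide +kernel

/-- the codes of this module -/
def codes : List ℕ :=
  [c985, c986, c987, c988]

theorem dead (s : Sels) : ∀ c ∈ codes, XDead c :=
  dead_cons (xc_sound s.a13 repA_lt s.b73 repB_lt t985) <|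
  dead_cons (xc_sound s.a56 repA_lt s.a76 repA_lt t986) <|
  dead_cons (xc_sound s.b25 repB_lt s.b25 repB_lt t987) <|
  dead_cons (xc_sound s.a194 repA_lt s.a73 repA_lt t988) <|
  dead_nil

end Pool.Agent.Gen.TY.X.XC_52
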