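import Pool.Agent.Gen.TY.X.Pl
import Pool.Agent.Helper27.TY.XCode

/-!
MP_8ee768_co, project TH-Y', stage X: the root codes 989 to 992 (positions in the list of all 1073
root codes; the 4 codes which are alive after the bad quads of the root). Every `t` is the full
check of one code: lists of the links of 11 and of 10, join, kill test, certificates.
Generated (helper27).
-/

set_option autoImplicit false
set_option linter.defProp false

namespace Pool.Agent.Gen.TY.X.XC_53

open Pool.Agent.Helper74.TY
open Pool.Agent.Helper27.TY
open Pool.Agent.Helper67.TY (repA repB repA_lt repB_lt)
open Pool.Agent.Gen.TY.X.Pl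

/-- root code 989 -/
def c989 : ℕ :=
  0x4000022020200200100490040180004028008021000081010100888202000200006200802202020340004000008408010010010040408008802100440040

/-- streams -/
def s989 : List ℕ :=
  [1097880904, 1098386953, 1098767531, 1098886290, 1102272007, 1102580821, 1102903222,
   1104421879, 1122077026, 1128264408, 1129861019, 1134756328]

def t989 : xc repA 193 plA_193 repA 193 plA_193 s989 c989
    38 25373655233152404013095544669168422973800736 27 1442325312744190806365939565651 = true := by decide +kernel

/-- root code 990 -/
def c990 : ℕ :=
  0x4000022020200200082084400110080020048028000101004060008208000a01012200002202020304004000400200090000850040108000802100400042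

/-- streams -/
def s990 : List ℕ :=
  [1089518961, 1102970991, 1105406790, 1106121057, 1128166173, 1134947780, 1135036845,
   1170228826, 1350138636, 1394908383]

def t990 : xc repA 76 plA_76 repA 76 plA_76 s990 c990
    38 786664970192403988035833671976201359921975824 27 4151907196468530246059315037267 = true := by decide +kernel

/-- root code 991 -/
def c991 : ℕ :=
  0x801080400200a000080901001000004300081210200010011000282020002404022100002010803420040008000840110200100404100088000100c0008

/-- streams -/
def s991 : List ℕ :=
  [1090368803, 1102570805, 1102824093, 1102945436, 1105446506, 1121270408, 1121401542,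
   1121835784, 1130129839, 1130671406, 1130939635, 1155150166, 1164421200, 1177632547]

def t991 : xc repA 81 plA_81 repA 81 plA_81 s991 c991
    42 1668953671712176252589754893575248539001619099936 31 94869032617925297824601515005125392 = true := by decide +kernel

/-- root code 992 -/
def c992 : ℕ :=
  0xa0004004208200008080100110080420208120001101001000028201000240012210004200004302004000880204090020010041100000840081010002

/-- streams -/
def s992 : List ℕ :=
  [1090220606, 1102322428, 1105643408, 1105963259, 1115064680, 1119587297, 1119671621,
   1119846545, 1121315747, 1130074120, 1148909728, 1156115175]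

def t992 : xc repA 26 plA_26 repA 26 plA_26 s992 c992
    42 26703258764091339238708108664741252411032888087056 31 1689596437669015021352102809765695555 = true := by decide +kernel

/-- the codes of this module -/
def codes : List ℕ :=
  [c989, c990, c991, c992]

theorem dead (s : Sels) : ∀ c ∈ codes, XDead c :=
  dead_cons (xc_sound s.a193 repA_lt s.a193 repA_lt t989) <|
  dead_cons (xc_sound s.a76 repA_lt s.a76 repA_lt t990) <|
  dead_cons (xc_sound s.a81 repA_lt s.a81 repA_lt t991) <|
  dead_cons (xc_sound s.a26 repA_lt s.a26 repA_lt t992) <|
  dead_nil

end Pool.Agent.Gen.TY.X.XC_53
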