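import Pool.Agent.Gen.TY.X.Pl
import Pool.Agent.Helper27.TY.XCode

/-!
MP_8ee768_co, project TH-Y', stage X: the root codes 993 to 996 (positions in the list of all 1073
root codes; the 4 codes which are alive after the bad quads of the root). Every `t` is the full
check of one code: lists of the links of 11 and of 10, join, kill test, certificates.
Generated (helper27).
-/

set_option autoImplicit false
set_option linter.defProp false

namespace Pool.Agent.Gen.TY.X.XC_54

open Pool.Agent.Helper74.TY
open Pool.Agent.Helper27.TY
open Pool.Agent.Helper67.TY (repA repB repA_lt repB_lt)
open Pool.Agent.Gen.TY.X.Pl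

/-- root code 993 -/
def c993 : ℕ :=
  0x108200008042102000040880200002208004440104040410020000030121010080100801400008400800020a08200804001430100050001000804200004

/-- streams -/
def s993 : List ℕ :=
  [1090055075, 1090468512, 1098186658, 1098383981, 1098750151, 1105191041, 1105223075,
   1127517894, 1130648853, 1153186115]

def t993 : xc repA 67 plA_67 repA 67 plA_67 s993 c993
    41 1662864084914083520094820623541800626343102321153 28 23076874923673216608142591734882 = true := by decide +kernel

/-- root code 994 -/
def c994 : ℕ :=
  0x801081000042200004040a02000040084004404104040400081400020408000100a082200010101210100801020008040004b0004050000011010200020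

/-- streams -/
def s994 : List ℕ :=
  [1089848046, 1098067980, 1098289741, 1098295730, 1098305712, 1098412173, 1098559884,
   1098775246, 1102324523, 1102796565, 1104216376, 1119187461, 1121270872, 1121950624,
   1122165981, 1127801550, 1128254108, 1133895520, 1152611775]

def t994 : xc repA 69 plA_69 repB 88 plB_88 s994 c994
    43 26605825358988304178853696488142147213391820952065 29 413851096293467746209624906481699 = true := by decide +kernel

/-- root code 995 -/
def c995 : ℕ :=
  0x10200001008410800800401021020001804040240040400200804000304090001402080200010403200100800030008042020b0000010002010018000201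

/-- streams -/
def s995 : List ℕ :=
  [1090228650, 1102432966, 1129854119, 1130619357, 1131279478, 1134024079, 1153207997,
   1155241646, 1156461503, 1161007837]

def t995 : xc repB 13 plB_13 repB 25 plB_25 s995 c995
    43 51548786587101719802857423882831414838185304334352 40 6495562831872869147509155952584603526164910642 = true := by decide +kernel

/-- root code 996 -/
def c996 : ℕ :=
  0x100802000806000010084010020a000a004040c0001080020201020800808004202000a004001407400008000210102010001121000000101008a0020004

/-- streams -/
def s996 : List ℕ :=
  [1089810603, 1090198881, 1098182968, 1098244341, 1104940167, 1105576750, 1105615808,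
   1105670250, 1115594091, 1122537923, 1127947610, 1135042297, 1137661988, 1156381059]

def t996 : xc repB 11 plB_11 repB 11 plB_11 s996 c996
    50 7141946862398955688621220163779483918128617643543403631105 39 6495562831701177200199367151608926898276541249 = true := by decide +kernel

/-- the codes of this module -/
def codes : List ℕ :=
  [c993, c994, c995, c996]

theorem dead (s : Sels) : ∀ c ∈ codes, XDead c :=
  dead_cons (xc_sound s.a67 repA_lt s.a67 repA_lt t993) <|
  dead_cons (xc_sound s.a69 repA_lt s.b88 repB_lt t994) <|
  dead_cons (xc_sound s.b13 repB_lt s.b25 repB_lt t995) <|
  dead_cons (xc_sound s.b11 repB_lt s.b11 repB_lt t996) <|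
  dead_nil

end Pool.Agent.Gen.TY.X.XC_54
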