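import Pool.Agent.Gen.TY.X.Pl
import Pool.Agent.Helper27.TY.XCode

/-!
MP_8ee768_co, project TH-Y', stage X: the root codes 1061 to 1064 (positions in the list of all 1073
root codes; the 4 codes which are alive after the bad quads of the root). Every `t` is the full
check of one code: lists of the links of 11 and of 10, join, kill test, certificates.
Generated (helper27).
-/

set_option autoImplicit false
set_option linter.defProp false

namespace Pool.Agent.Gen.TY.X.XC_57

open Pool.Agent.Helper74.TY
open Pool.Agent.Helper27.TY
open Pool.Agent.Helper67.TY (repA repB repA_lt repB_lt)
open Pool.Agent.Gen.TY.X.Pl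

/-- root code 1061 -/
def c1061 : ℕ :=
  0x42022020020000900400400110809000007000108081000120000208340004000408080040422000240100214000804208081200008000840110040002

/-- streams -/
def s1061 : List ℕ :=
  [1102447370, 1102516134, 1103013336, 1103018488, 1103088885, 1105620164, 1115010770,
   1115220292, 1118925396, 1119578973, 1119803600, 1120981799, 1121032468, 1121192762,
   1121951552, 1133767747, 1154900679, 1160814419, 1163629535, 1164373853]

def t1061 : xc repA 194 plA_194 repA 194 plA_194 s1061 c1061
    25 90144123081200084828262065236 14 5124242105980534 = true := by decide +kernel

/-- root code 1062 -/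
def c1062 : ℕ :=
  0x4000022020200081010100890042000200004204800200100490040180004028008021002202020340004000008408010010030000408008802100440040

/-- streams -/
def s1062 : List ℕ :=
  [1097890625, 1098261222, 1098876095, 1102200899, 1102285907, 1102358278, 1102432844,
   1102688388, 1102810841, 1102985293, 1105359276, 1105483561, 1130750426, 1153375308,
   1178521889]

def t1062 : xc repA 76 plA_76 repA 193 plA_193 s1062 c1062
    33 69657443847106969140670821854025564721 38 25373655233152404013095544669168422973800736 = true := by decide +kernel

/-- root code 1063 -/
def c1063 : ℕ :=
  0x81084000202200100090040100000420808121000501004020010040000240110214002202000304004000080600011010830000508008800100010008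

/-- streams -/
def s1063 : List ℕ :=
  [1089795537, 1089943587, 1102076506, 1102140452, 1105734871, 1105936157, 1127813166,
   1129567488, 1131279577, 1133538731, 1161675386, 1170971128]

def t1063 : xc repA 82 plA_82 repA 82 plA_82 s1063 c1063
    41 1668953671712176252589754893575248539001619099936 38 407459392591278398925021099801049915089629217 = true := by decide +kernel

/-- root code 1064 -/
def c1064 : ℕ :=
  0x400020010030002201042000480414100208000080008400084088820001040014002801010011020010000b800000022100040101090008000810200104

/-- streams -/
def s1064 : List ℕ :=
  [1098787489, 1105164287, 1106068268, 1114876592, 1115576361, 1127283033, 1133812796,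
   1134209713, 1434563418]

def t1064 : xc repA 11 plA_11 repB 81 plB_81 s1064 c1064
    28 369229998779086213301034556011618 34 387171252857500546736485310444724240946 = true := by decide +kernel

/-- the codes of this module -/
def codes : List ℕ :=
  [c1061, c1062, c1063, c1064]

theorem dead (s : Sels) : ∀ c ∈ codes, XDead c :=
  dead_cons (xc_sound s.a194 repA_lt s.a194 repA_lt t1061) <|
  dead_cons (xc_sound s.a76 repA_lt s.a193 repA_lt t1062) <|
  dead_cons (xc_sound s.a82 repA_lt s.a82 repA_lt t1063) <|
  dead_cons (xc_sound s.a11 repA_lt s.b81 repB_lt t1064) <|
  dead_nil

end Pool.Agent.Gen.TY.X.XC_57
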