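import Pool.Agent.Gen.TY.X.Pl
import Pool.Agent.Helper27.TY.XCode

/-!
MP_8ee768_co, project TH-Y', stage X: the root codes 1069 to 1072 (positions in the list of all 1073
root codes; the 4 codes which are alive after the bad quads of the root). Every `t` is the full
check of one code: lists of the links of 11 and of 10, join, kill test, certificates.
Generated (helper27).
-/

set_option autoImplicit false
set_option linter.defProp false

namespace Pool.Agent.Gen.TY.X.XC_59

open Pool.Agent.Helper74.TY
open Pool.Agent.Helper27.TY
open Pool.Agent.Helper67.TY (repA repB repA_lt repB_lt)
open Pool.Agent.Gen.TY.X.Pl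

/-- root code 1069 -/
def c1069 : ℕ :=
  0x801081000042200004040a02000040084004404104040400081400020408000103800220001010121010080102000804000482084050000011010200020

/-- streams -/
def s1069 : List ℕ :=
  [1098101890, 1098276076, 1098710487, 1102064611, 1102334042, 1102881392, 1103080919,
   1104464901, 1105142758, 1121835869, 1121945661, 1127905052, 1154508771, 1167385238]

def t1069 : xc repA 69 plA_69 repB 104 plB_104 s1069 c1069
    43 26605825358988304178853696488142147213391820952065 23 374047009381048151467644485 = true := by decide +kernel

/-- root code 1070 -/
def c1070 : ℕ :=
  0x1020000100841080080040102102000180404024004040020080400030409000143000020001040320010080003000804202082080010002010018000201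

/-- streams -/
def s1070 : List ℕ :=
  [1104994151, 1105162220, 1122208924, 1130277306]

def t1070 : xc repB 13 plB_13 repB 73 plB_73 s1070 c1070
    43 51548786587101719802857423882831414838185304334352 36 99114423091143450931110975778577670283280 = true := by decide +kernel

/-- root code 1071 -/
def c1071 : ℕ :=
  0x100202010004108008004120100200010008404480044002402001001000900414200011010020070001000002220000c020082080810022000810200200

/-- streams -/
def s1071 : List ℕ :=
  [1089883617, 1098267888, 1102496332, 1104675092, 1104804479, 1122187839, 1148373455,
   1148518081, 1148678989, 1154633642, 1180064553]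

def t1071 : xc repB 11 plB_11 repB 13 plB_13 s1071 c1071
    44 6811091291808086098309726871275142030895113841086977 41 103929005309965906354864619176813184979560374288 = true := by decide +kernel

/-- root code 1072 -/
def c1072 : ℕ :=
  0x400004082100020010085020003000104104020800010200032001008400202800402400210120030400400010080000a0200b0000201001800000600201

def t1072 : xc repB 81 plB_81 repB 81 plB_81 [] c1072
    33 24286472350187586884636819937586132003 40 6519350279954342679803990834821704871342969345 = true := by decide +kernel

/-- the codes of this module -/
def codes : List ℕ :=
  [c1069, c1070, c1071, c1072]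

theorem dead (s : Sels) : ∀ c ∈ codes, XDead c :=
  dead_cons (xc_sound s.a69 repA_lt s.b104 repB_lt t1069) <|
  dead_cons (xc_sound s.b13 repB_lt s.b73 repB_lt t1070) <|
  dead_cons (xc_sound s.b11 repB_lt s.b13 repB_lt t1071) <|
  dead_cons (xc_sound s.b81 repB_lt s.b81 repB_lt t1072) <|
  dead_nil

end Pool.Agent.Gen.TY.X.XC_59
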