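import Pool.Agent.Helper13.TY.XFinal
import Pool.Agent.Gen.TY.X.XC_00
import Pool.Agent.Gen.TY.X.XC_01
import Pool.Agent.Gen.TY.X.XC_02
import Pool.Agent.Gen.TY.X.XC_03
import Pool.Agent.Gen.TY.X.XC_04
import Pool.Agent.Gen.TY.X.XC_05
import Pool.Agent.Gen.TY.X.XC_06
import Pool.Agent.Gen.TY.X.XC_07
import Pool.Agent.Gen.TY.X.XC_08
import Pool.Agent.Gen.TY.X.XC_09
import Pool.Agent.Gen.TY.X.XC_10
import Pool.Agent.Gen.TY.X.XC_11
import Pool.Agent.Gen.TY.X.XC_12
import Pool.Agent.Gen.TY.X.XC_13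
import Pool.Agent.Gen.TY.X.XC_14
import Pool.Agent.Gen.TY.X.XC_15
import Pool.Agent.Gen.TY.X.XC_16
import Pool.Agent.Gen.TY.X.XC_17
import Pool.Agent.Gen.TY.X.XC_18
import Pool.Agent.Gen.TY.X.XC_19
import Pool.Agent.Gen.TY.X.XC_20
import Pool.Agent.Gen.TY.X.XC_21
import Pool.Agent.Gen.TY.X.XC_22
import Pool.Agent.Gen.TY.X.XC_23
import Pool.Agent.Gen.TY.X.XC_24
import Pool.Agent.Gen.TY.X.XC_25
import Pool.Agent.Gen.TY.X.XC_26
import Pool.Agent.Gen.TY.X.XC_27
import Pool.Agent.Gen.TY.X.XC_28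
import Pool.Agent.Gen.TY.X.XC_29
import Pool.Agent.Gen.TY.X.XC_30
import Pool.Agent.Gen.TY.X.XC_31
import Pool.Agent.Gen.TY.X.XC_32
import Pool.Agent.Gen.TY.X.XC_33
import Pool.Agent.Gen.TY.X.XC_34
import Pool.Agent.Gen.TY.X.XC_35
import Pool.Agent.Gen.TY.X.XC_36
import Pool.Agent.Gen.TY.X.XC_37
import Pool.Agent.Gen.TY.X.XC_38
import Pool.Agent.Gen.TY.X.XC_39
import Pool.Agent.Gen.TY.X.XC_40
import Pool.Agent.Gen.TY.X.XC_41
import Pool.Agent.Gen.TY.X.XC_42
import Pool.Agent.Gen.TY.X.XC_43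
import Pool.Agent.Gen.TY.X.XC_44
import Pool.Agent.Gen.TY.X.XC_45
import Pool.Agent.Gen.TY.X.XC_46
import Pool.Agent.Gen.TY.X.XC_47
import Pool.Agent.Gen.TY.X.XC_48
import Pool.Agent.Gen.TY.X.XC_49
import Pool.Agent.Gen.TY.X.XC_50
import Pool.Agent.Gen.TY.X.XC_51
import Pool.Agent.Gen.TY.X.XC_52
import Pool.Agent.Gen.TY.X.XC_53
import Pool.Agent.Gen.TY.X.XC_54
import Pool.Agent.Gen.TY.X.XC_55
import Pool.Agent.Gen.TY.X.XC_56
import Pool.Agent.Gen.TY.X.XC_57
import Pool.Agent.Gen.TY.X.XC_58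
import Pool.Agent.Gen.TY.X.XC_59
import Pool.Agent.Gen.TY.X.Sel

/-!
MP_8ee768_co, project TH-Y', stage X: all the root codes are dead. Generated (helper27).
-/

set_option autoImplicit false

namespace Pool.Agent.Gen.TY.X.XAll

open Pool.Agent.Helper74.TY
open Pool.Agent.Helper27.TY

/-- the root codes alive after the bad quads of the root -/
def alive : List ℕ :=
  XC_00.codes ++ (
  XC_01.codes ++ (
  XC_02.codes ++ (
  XC_03.codes ++ (
  XC_04.codes ++ (
  XC_05.codes ++ (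
  XC_06.codes ++ (
  XC_07.codes ++ (
  XC_08.codes ++ (
  XC_09.codes ++ (
  XC_10.codes ++ (
  XC_11.codes ++ (
  XC_12.codes ++ (
  XC_13.codes ++ (
  XC_14.codes ++ (
  XC_15.codes ++ (
  XC_16.codes ++ (
  XC_17.codes ++ (
  XC_18.codes ++ (
  XC_19.codes ++ (
  XC_20.codes ++ (
  XC_21.codes ++ (
  XC_22.codes ++ (
  XC_23.codes ++ (
  XC_24.codes ++ (
  XC_25.codes ++ (
  XC_26.codes ++ (
  XC_27.codes ++ (
  XC_28.codes ++ (
  XC_29.codes ++ (
  XC_30.codes ++ (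
  XC_31.codes ++ (
  XC_32.codes ++ (
  XC_33.codes ++ (
  XC_34.codes ++ (
  XC_35.codes ++ (
  XC_36.codes ++ (
  XC_37.codes ++ (
  XC_38.codes ++ (
  XC_39.codes ++ (
  XC_40.codes ++ (
  XC_41.codes ++ (
  XC_42.codes ++ (
  XC_43.codes ++ (
  XC_44.codes ++ (
  XC_45.codes ++ (
  XC_46.codes ++ (
  XC_47.codes ++ (
  XC_48.codes ++ (
  XC_49.codes ++ (
  XC_50.codes ++ (
  XC_51.codes ++ (
  XC_52.codes ++ (
  XC_53.codes ++ (
  XC_54.codes ++ (
  XC_55.codes ++ (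
  XC_56.codes ++ (
  XC_57.codes ++ (
  XC_58.codes ++ (
  XC_59.codes)))))))))))))))))))))))))))))))))))))))))))))))))))))))))))

theorem dead (s : Pool.Agent.Gen.TY.X.Pl.Sels) : ∀ c ∈ alive, XDead c :=
  dead_append (XC_00.dead s) <|
  dead_append (XC_01.dead s) <|
  dead_append (XC_02.dead s) <|
  dead_append (XC_03.dead s) <|
  dead_append (XC_04.dead s) <|
  dead_append (XC_05.dead s) <|
  dead_append (XC_06.dead s) <|
  dead_append (XC_07.dead s) <|
  dead_append (XC_08.dead s) <|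
  dead_append (XC_09.dead s) <|
  dead_append (XC_10.dead s) <|
  dead_append (XC_11.dead s) <|
  dead_append (XC_12.dead s) <|
  dead_append (XC_13.dead s) <|
  dead_append (XC_14.dead s) <|
  dead_append (XC_15.dead s) <|
  dead_append (XC_16.dead s) <|
  dead_append (XC_17.dead s) <|
  dead_append (XC_18.dead s) <|
  dead_append (XC_19.dead s) <|
  dead_append (XC_20.dead s) <|
  dead_append (XC_21.dead s) <|
  dead_append (XC_22.dead s) <|
  dead_append (XC_23.dead s) <|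
  dead_append (XC_24.dead s) <|
  dead_append (XC_25.dead s) <|
  dead_append (XC_26.dead s) <|
  dead_append (XC_27.dead s) <|
  dead_append (XC_28.dead s) <|
  dead_append (XC_29.dead s) <|
  dead_append (XC_30.dead s) <|
  dead_append (XC_31.dead s) <|
  dead_append (XC_32.dead s) <|
  dead_append (XC_33.dead s) <|
  dead_append (XC_34.dead s) <|
  dead_append (XC_35.dead s) <|
  dead_append (XC_36.dead s) <|
  dead_append (XC_37.dead s) <|
  dead_append (XC_38.dead s) <|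
  dead_append (XC_39.dead s) <|
  dead_append (XC_40.dead s) <|
  dead_append (XC_41.dead s) <|
  dead_append (XC_42.dead s) <|
  dead_append (XC_43.dead s) <|
  dead_append (XC_44.dead s) <|
  dead_append (XC_45.dead s) <|
  dead_append (XC_46.dead s) <|
  dead_append (XC_47.dead s) <|
  dead_append (XC_48.dead s) <|
  dead_append (XC_49.dead s) <|
  dead_append (XC_50.dead s) <|
  dead_append (XC_51.dead s) <|
  dead_append (XC_52.dead s) <|
  dead_append (XC_53.dead s) <|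
  dead_append (XC_54.dead s) <|
  dead_append (XC_55.dead s) <|
  dead_append (XC_56.dead s) <|
  dead_append (XC_57.dead s) <|
  dead_append (XC_58.dead s) <|
  XC_59.dead s

theorem merge_ok :
    Pool.Agent.Helper13.TY.mergeOK XN.codes Dead.codes alive = true := by decide +kernel

/-- **STAGE X** -/
theorem stX (h6 : Pool.Agent.Helper79.CV.RootOK 6 (fun _ => True) Pool.Agent.Helper16.TY.reps) :
    Pool.Agent.Helper4.CV.StX :=
  Pool.Agent.Helper13.TY.stX_of_alive h6 merge_ok (dead (Pl.sels h6))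

end Pool.Agent.Gen.TY.X.XAll
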