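import Pool.Agent.Gen.TY.X.Pl
import Pool.Agent.Helper27.TY.XCode

/-!
MP_8ee768_co, project TH-Y', stage X: the root codes 263 to 266 (positions in the list of all 1073
root codes; the 4 codes which are alive after the bad quads of the root). Every `t` is the full
check of one code: lists of the links of 11 and of 10, join, kill test, certificates.
Generated (helper27).
-/

set_option autoImplicit false
set_option linter.defProp false

namespace Pool.Agent.Gen.TY.X.XC_13

open Pool.Agent.Helper74.TY
open Pool.Agent.Helper27.TY
open Pool.Agent.Helper67.TY (repA repB repA_lt repB_lt)
open Pool.Agent.Gen.TY.X.Pl

/-- root code 263 -/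
def c263 : ℕ :=
  0x200900801004200040042101000004030004101120002010100030080801042000208080400048342000080802010101000130004080008004010900020

/-- streams -/
def s263 : List ℕ :=
  [1089630994, 1090072095, 1090471970, 1104451346, 1128122665, 1130821891, 1135302920,
   1155255952, 1167549680]

def t263 : xc repB 73 plB_73 repB 73 plB_73 s263 c263
    43 26606205915202533384339186893901909954840571748368 38 26860008606304333634172693264476445006177026 = true := by decide +kernel

/-- root code 264 -/
def c264 : ℕ :=
  0x200900801020004002080030081000180043010001200100048400020000420804121000201040342000080042008100400102084080008080110100001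

/-- streams -/
def s264 : List ℕ :=
  [1098522623, 1098561728, 1098707392, 1102055132, 1102553332, 1102999308, 1104624540,
   1105103631, 1105440362, 1114978152, 1115560755, 1118926460, 1127353830, 1137347260,
   1153060432]

def t264 : xc repB 82 plB_82 repB 73 plB_73 s264 c264
    28 370582158663770694627349399487760 41 110018595295370151086748851337688529268420714512 = true := by decide +kernel

/-- root code 265 -/
def c265 : ℕ :=
  0x10820000804084400100220002008002008412102000202020010020834200400040020002480040900004120006000a000120180010000802110100004

/-- streams -/
def s265 : List ℕ :=
  [1089742203, 1098250947, 1098391121, 1098605476, 1104484167, 1105233201, 1105396996,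
   1115135239, 1115433671, 1135058656, 1167133649]

def t265 : xc repB 74 plB_74 repB 74 plB_74 s265 c265
    42 26605825358648021812016937932258665058300964446224 21 1375488932389191428626038 = true := by decide +kernel

/-- root code 266 -/
def c266 : ℕ :=
  0x400840810008200000848100008020030004103020001020080024802000880202008080200030342004000404004082020012004010010002010140020

/-- streams -/
def s266 : List ℕ :=
  [1098627292, 1102251658, 1102274426, 1102700653, 1102864329, 1105985903, 1121156592,
   1121175800, 1121273515, 1121408269, 1121414678, 1121719317, 1121725726, 1121731751,
   1130877436, 1131245255, 1148327792, 1148547744, 1148803872, 1148918129, 1161317036,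
   1168790107]

def t266 : xc repB 73 plB_73 repB 73 plB_73 s266 c266
    45 6811188711405891771332743607181207511869693598179344 34 409939808143283036752964051269870371120 = true := by decide +kernel

/-- the codes of this module -/
def codes : List ℕ :=
  [c263, c264, c265, c266]

theorem dead (s : Sels) : ∀ c ∈ codes, XDead c :=
  dead_cons (xc_sound s.b73 repB_lt s.b73 repB_lt t263) <|
  dead_cons (xc_sound s.b82 repB_lt s.b73 repB_lt t264) <|
  dead_cons (xc_sound s.b74 repB_lt s.b74 repB_lt t265) <|
  dead_cons (xc_sound s.b73 repB_lt s.b73 repB_lt t266) <|
  dead_nil

end Pool.Agent.Gen.TY.X.XC_13
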