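import Pool.Agent.Gen.TY.X.Pl
import Pool.Agent.Helper27.TY.XCode

/-!
MP_8ee768_co, project TH-Y', stage X: the root codes 1065 to 1068 (positions in the list of all 1073
root codes; the 4 codes which are alive after the bad quads of the root). Every `t` is the full
check of one code: lists of the links of 11 and of 10, join, kill test, certificates.
Generated (helper27).
-/

set_option autoImplicit false
set_option linter.defProp false

namespace Pool.Agent.Gen.TY.X.XC_58

open Pool.Agent.Helper74.TY
open Pool.Agent.Helper27.TY
open Pool.Agent.Helper67.TY (repA repB repA_lt repB_lt)
open Pool.Agent.Gen.TY.X.Pl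

/-- root code 1065 -/
def c1065 : ℕ :=
  0x20080a040008200004044080100080088004014100600100108400080010400048088402200040141002080022002080000238000490000011080200100

/-- streams -/
def s1065 : List ℕ :=
  [1090314782, 1098060154, 1098511201, 1102344467, 1102706535, 1104275132, 1105243143,
   1114818199, 1114947475, 1115206662, 1118848662, 1119236199, 1121891010, 1127388246,
   1136925232, 1154770413, 1167423293, 1167536583, 1168274502, 1170612915, 1196311680]

def t1065 : xc repA 84 plA_84 repB 73 plB_73 s1065 c1065
    37 49166560553948494563936686864090876545798657 35 6557619288648518948323134797203958350386 = true := by decide +kernel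

/-- root code 1066 -/
def c1066 : ℕ :=
  0x1009010010006001004084000800004202080c80020840000600100080001804042140022020003400000800230000820003300040900100100a0000001

/-- streams -/
def s1066 : List ℕ :=
  [1097884274, 1098013084, 1098252770, 1098355598, 1098356991, 1098431213, 1098703182,
   1098738483, 1102185446, 1102187322, 1102407342, 1104243281, 1104641129, 1105601241,
   1105665233, 1105778726, 1105842430, 1114831909, 1121936769, 1122162461, 1127554913,
   1128098489, 1135344078, 1152903460]

def t1066 : xc repB 73 plB_73 repB 73 plB_73 s1066 c1066
    34 409851205704580084049009531336807232547 41 110018595251417012659643486005190731263063957520 = true := by decide +kernel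

/-- root code 1067 -/
def c1067 : ℕ :=
  0x801080400200a000080901001000004300081210200010011000300420002404002140002010803420040008000840110200300004100088000100c0008

/-- streams -/
def s1067 : List ℕ :=
  [1089536207, 1090376763, 1098059180, 1098186557, 1098849859, 1102321673, 1105215127,
   1105298398, 1114777303, 1118942548, 1119120151, 1121880047, 1133970079, 1152580408,
   1163445342, 1230642726]

def t1067 : xc repA 81 plA_81 repA 26 plA_26 s1067 c1067
    42 1668953671712176252589754893575248539001619099936 37 28346724132834936990683130052042973364044337 = true := by decide +kernel

/-- root code 1068 -/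
def c1068 : ℕ :=
  0x108200008042102000040880200002208004440104040410020000030121010080100801400008400800023800200804001402180050001000804200004

/-- streams -/
def s1068 : List ℕ :=
  [1089824824, 1089972135, 1090011629, 1090050884, 1090092903, 1090284019, 1090444044,
   1098186658, 1098383981, 1098608834, 1098750151, 1104162724, 1104309139, 1104425285,
   1104488249, 1104654873, 1104848316, 1105076256, 1105127534, 1105304959, 1105497798,
   1119473866, 1121410800, 1121440569, 1122471712, 1128172510, 1153128046, 1153425537,
   1155006444, 1155102451, 1155283267, 1185348111]

def t1068 : xc repA 67 plA_67 repA 67 plA_67 s1068 c1068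
    41 1662864084914083520094820623541800626343102321153 28 23076874923673216608142591734882 = true := by decide +kernel

/-- the codes of this module -/
def codes : List ℕ :=
  [c1065, c1066, c1067, c1068]

theorem dead (s : Sels) : ∀ c ∈ codes, XDead c :=
  dead_cons (xc_sound s.a84 repA_lt s.b73 repB_lt t1065) <|
  dead_cons (xc_sound s.b73 repB_lt s.b73 repB_lt t1066) <|
  dead_cons (xc_sound s.a81 repA_lt s.a26 repA_lt t1067) <|
  dead_cons (xc_sound s.a67 repA_lt s.a67 repA_lt t1068) <|
  dead_nil

end Pool.Agent.Gen.TY.X.XC_58
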